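import Pool.Agent.Lib.MP_7d55f0_co.FRDefs

section

set_option autoImplicit false

namespace Pool.Agent.Lib.FourRun

open Polynomial Finset Pool.Agent.Lib.ThreeRun

private theorem frc_hockey (c z : ℕ) :
    ∑ y ∈ range (z + 1), (y + c).choose c = (z + (c + 1)).choose (c + 1) := by
  induction z with
  | zero => simp
  | succ d ihd =>
    rw [Finset.sum_range_succ, ihd]
    have h5 : d + 1 + (c + 1) = (d + (c + 1)) + 1 := by ring
    rw [h5, Nat.choose_succ_succ, show d + 1 + c = d + (c + 1) by ring]
    ring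

private theorem frc_conv (w G : ℕ → ℕ) (K : ℕ) :
    ∑ x ∈ range K, ∑ y ∈ range (K - x), w y * G (x + y) =
      ∑ z ∈ range K, (∑ y ∈ range (z + 1), w y) * G z := by
  have h1 : ∀ x ∈ range K, ∑ y ∈ range (K - x), w y * G (x + y) =
      ∑ z ∈ Finset.Ico x K, w (z - x) * G z := by
    intro x _
    rw [Finset.sum_Ico_eq_sum_range]
    refine Finset.sum_congr rfl fun y _ => ?_
    rw [Nat.add_sub_cancel_left]
  rw [Finset.sum_congr rfl h1, Finset.range_eq_Ico, Finset.sum_Ico_Ico_comm]
  refine Finset.sum_congr rfl fun z _ => ?_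
  rw [← Finset.range_eq_Ico, Finset.sum_mul, ← Finset.sum_range_reflect]
  refine Finset.sum_congr rfl fun y hy => ?_
  rw [Finset.mem_range] at hy
  congr 2
  omega

private theorem frc_up_one (m n : ℕ) (s : ℕ → Bool) (j : ℕ) (h : s 0 = true) :
    GG m s (n + 1) j = ∑ x ∈ range (m + 1 - j), GG m (fun i => s (i + 1)) n (j + x) := by
  conv_lhs => unfold GG
  rw [h]
  have h1 : (range (m + 1)).filter (fun j' => stp true j j') = Finset.Ico j (m + 1) := by
    ext x
    simp only [Finset.mem_filter, Finset.mem_range, Finset.mem_Ico, stp]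
    simp only [forall_true_left, Bool.true_eq_false, false_imp_iff, and_true]
    omega
  rw [h1, Finset.sum_Ico_eq_sum_range]

private theorem frc_down_one (m n : ℕ) (s : ℕ → Bool) (j : ℕ) (h : s 0 = false) (hj : j ≤ m) :
    GG m s (n + 1) j = ∑ x ∈ range (j + 1), GG m (fun i => s (i + 1)) n x := by
  conv_lhs => unfold GG
  rw [h]
  have h1 : (range (m + 1)).filter (fun j' => stp false j j') = range (j + 1) := by
    ext x
    simp only [Finset.mem_filter, Finset.mem_range, stp]
    simp only [forall_true_left, Bool.false_eq_true, false_imp_iff, true_and]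
    omega
  rw [h1]

/-- Starting with `c+1` steps up. Proof: induction on `c` generalizing `s`, `j` (first step up to
`j' = j + x`, as in `GG_up_tail`), for `c = 0` the weight is `1`; step: the sum
`∑_{j ≤ j' ≤ m} ∑_{x ≤ m-j'} C(x+c,c) F(j'+x)` is `∑_{y ≤ m-j} (∑_{x ≤ y} C(x+c,c)) F(j+y)`
and `∑_{x ≤ y} C(x+c,c) = C(y+c+1,c+1)`. -/
theorem GG_up (m n : ℕ) : ∀ (c : ℕ) (s : ℕ → Bool) (j : ℕ), (∀ i, i < c + 1 → s i = true) → j ≤ m →
    GG m s (c + 1 + n) j =
      ∑ x ∈ range (m + 1 - j), (x + c).choose c * GG m (fun i => s (i + (c + 1))) n (j + x) := by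
  intro c
  induction c with
  | zero =>
    intro s j h hj
    rw [show 0 + 1 + n = n + 1 by ring, frc_up_one m n s j (h 0 (by omega))]
    refine Finset.sum_congr rfl fun x _ => ?_
    simp
  | succ c ih =>
    intro s j h hj
    rw [show c + 1 + 1 + n = (c + 1 + n) + 1 by ring, frc_up_one m _ s j (h 0 (by omega))]
    have h1 : ∀ x ∈ range (m + 1 - j), GG m (fun i => s (i + 1)) (c + 1 + n) (j + x) =
        ∑ y ∈ range (m + 1 - j - x), (y + c).choose c *
          (fun z => GG m (fun i => s (i + (c + 1 + 1))) n (j + z)) (x + y) := by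
      intro x hx
      rw [Finset.mem_range] at hx
      rw [ih (fun i => s (i + 1)) (j + x) (fun i hi => h (i + 1) (by omega)) (by omega)]
      rw [show m + 1 - (j + x) = m + 1 - j - x by omega]
      refine Finset.sum_congr rfl fun y _ => ?_
      simp only [add_assoc]
    rw [Finset.sum_congr rfl h1]
    refine (frc_conv (fun y => (y + c).choose c)
      (fun z => GG m (fun i => s (i + (c + 1 + 1))) n (j + z)) (m + 1 - j)).trans ?_
    refine Finset.sum_congr rfl fun z _ => ?_
    rw [frc_hockey]

/-- Ending with `d` steps down: `GG_down` with `n = 0` and hockey stick. -/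
theorem GG_down_tail (m d : ℕ) (s : ℕ → Bool) (j : ℕ) (h : ∀ i, i < d → s i = false) (hj : j ≤ m) :
    GG m s d j = (j + d).choose d := by
  induction d generalizing s j with
  | zero => simp [GG]
  | succ d ih =>
    rw [frc_down_one m d s j (h 0 (by omega)) hj]
    have h1 : ∀ x ∈ range (j + 1), GG m (fun i => s (i + 1)) d x = (x + d).choose d := by
      intro x hx
      rw [Finset.mem_range] at hx
      exact ih (fun i => s (i + 1)) x (fun i hi => h (i + 1) (by omega)) (by omega)
    rw [Finset.sum_congr rfl h1, frc_hockey]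

/-- The count for a four-run pattern: `card_eq_sum`, `sum_up`, `GG_down`, `dn_iter_congr`, `GG_up`,
`GG_down_tail` (compare `sum_GG_eq` and `card_up` of the three-run file). -/
theorem card_four (a b c d m : ℕ) (s : ℕ → Bool) (h1 : ∀ i, i < a → s i = true)
    (h2 : ∀ i, a ≤ i → i < a + (b + 1) → s i = false)
    (h3 : ∀ i, a + (b + 1) ≤ i → i < a + (b + 1) + (c + 1) → s i = true)
    (h4 : ∀ i, a + (b + 1) + (c + 1) ≤ i → i < a + (b + 1) + (c + 1) + d → s i = false) :
    Nat.card {f : Fin (a + (b + 1) + (c + 1) + d + 1) → Fin (m + 1) //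
              ∀ i : Fin (a + (b + 1) + (c + 1) + d + 1),
                ∀ hi : i.val + 1 < a + (b + 1) + (c + 1) + d + 1,
                (s i.val = true → f i ≤ f ⟨i.val + 1, hi⟩) ∧
                (s i.val = false → f ⟨i.val + 1, hi⟩ ≤ f i)} = N4 a b c d m := by
  rw [card_eq_sum]
  have e1 := sum_up m ((b + 1) + ((c + 1) + d)) a 0 s h1
  simp only [add_zero, Nat.choose_zero_right, one_mul, zero_add] at e1
  rw [show a + (b + 1) + (c + 1) + d = a + ((b + 1) + ((c + 1) + d)) by ring, e1]
  unfold N4
  refine Finset.sum_congr rfl fun j hj => ?_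
  rw [Finset.mem_range] at hj
  congr 1
  rw [GG_down m ((c + 1) + d) (b + 1) _ j (fun i hi => h2 (i + a) (by omega) (by omega)) (by omega)]
  apply dn_iter_congr
  intro i hi
  rw [GG_up m d c _ i (fun l hl => h3 (l + (b + 1) + a) (by omega) (by omega)) (by omega)]
  unfold psi
  refine Finset.sum_congr rfl fun x hx => ?_
  rw [Finset.mem_range] at hx
  congr 1
  exact GG_down_tail m d _ (i + x)
    (fun l hl => h4 (l + (c + 1) + (b + 1) + a) (by omega) (by omega)) (by omega)

end Pool.Agent.Lib.FourRun
end
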