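import Pool.Agent.Lib.MP_7d55f0_co.TRMain

/-
Four-run fences: definitions.  `P = (up a, down b+1, up c+1, down d)` with the two peaks `u`, `v`.
-/

section

set_option autoImplicit false

namespace Pool.Agent.Lib.FourRun

open Polynomial Finset Pool.Agent.Lib.ThreeRun

/-- continuations `up c+1, down d` from the value `v` (letters at most `m`) -/
def psi (c d m v : ℕ) : ℕ :=
  ∑ x ∈ range (m + 1 - v), (x + c).choose c * (v + x + d).choose d

/-- the count of a four-run fence -/
def N4 (a b c d m : ℕ) : ℕ :=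
  ∑ j ∈ range (m + 1), (j + a).choose a * dn^[b + 1] (psi c d m) j

/-- the polynomial of the three-run fence `(a, b+1, c)` without the turn between its first two runs -/
noncomputable def LL (b a c : ℕ) : ℤ[X] :=
  ∑ p ∈ range (a + 1), C (Nat.multichoose (b + 1) p : ℤ) * X ^ p * AA (b + 1) p a * AA b p c

/-- multiplication of the counting function by `m + j` -/
noncomputable def TT (j E : ℕ) (A : ℤ[X]) : ℤ[X] :=
  X * (1 - X) * derivative A + (C (j : ℤ) + C (E : ℤ) * X) * A

/-- disjoint union with a chain of `n` elements, times `n!` -/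
noncomputable def KK (E : ℕ) (A : ℤ[X]) : ℕ → ℤ[X]
  | 0 => A
  | n + 1 => TT (n + 1) E (KK E A n)

/-- homogenization -/
noncomputable def hom (N : ℕ) (A : ℤ[X]) (α γ : ℂ) : ℂ :=
  ∑ k ∈ range (N + 1), (A.coeff k : ℂ) * α ^ k * γ ^ (N - k)

/-- stability of `hom N A + y hom M B` in the three variables -/
def PTwo (N M : ℕ) (A B : ℤ[X]) : Prop :=
  A.natDegree ≤ N ∧ B.natDegree ≤ M ∧
    ∀ α γ y : ℂ, 0 < α.im → 0 < γ.im → 0 < y.im → hom N A α γ + y * hom M B α γ ≠ 0

/-- stability of `hom M B` -/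
def POne (M : ℕ) (B : ℤ[X]) : Prop :=
  B.natDegree ≤ M ∧ ∀ α γ : ℂ, 0 < α.im → 0 < γ.im → hom M B α γ ≠ 0

/-- the homogenization along a diagonal line, as a polynomial in one variable -/
noncomputable def hp (E : ℕ) (A : ℤ[X]) (α γ : ℂ) : ℂ[X] :=
  ∑ k ∈ range (E + 1), C (A.coeff k : ℂ) * (C α + X) ^ k * (C γ + X) ^ (E - k)

end Pool.Agent.Lib.FourRun
end
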