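import Pool.Agent.Lib.MP_7d55f0_co.FRDefs

section

set_option autoImplicit false

namespace Pool.Agent.Lib.FourRun

open Polynomial Finset Pool.Agent.Lib.ThreeRun

theorem TT_coeff_zero (j E : ℕ) (A : ℤ[X]) : (TT j E A).coeff 0 = j * A.coeff 0 := by
  simp [TT, mul_coeff_zero]

theorem TT_coeff_succ (j E : ℕ) (A : ℤ[X]) (k : ℕ) :
    (TT j E A).coeff (k + 1) = ((k : ℤ) + 1 + j) * A.coeff (k + 1) + ((E : ℤ) - k) * A.coeff k := by
  have e : TT j E A = X * derivative A - X * (X * derivative A) + (C (j : ℤ) * A +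
      C (E : ℤ) * (X * A)) := by
    unfold TT
    ring
  rw [e, coeff_add, coeff_sub, coeff_add, coeff_X_mul, coeff_X_mul, coeff_C_mul, coeff_C_mul,
    coeff_X_mul, coeff_derivative]
  cases k with
  | zero =>
    rw [coeff_X_mul_zero]
    push_cast
    ring
  | succ k =>
    rw [coeff_X_mul, coeff_derivative]
    push_cast
    ring

theorem TT_natDegree {j E : ℕ} {A : ℤ[X]} (h : A.natDegree ≤ E) : (TT j E A).natDegree ≤ E := by
  rw [natDegree_le_iff_coeff_eq_zero]
  intro N hN
  obtain ⟨k, rfl⟩ : ∃ k, N = k + 1 := ⟨N - 1, by omega⟩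
  rw [TT_coeff_succ, coeff_eq_zero_of_natDegree_lt (lt_of_le_of_lt h hN)]
  rcases Nat.lt_or_ge E k with hk | hk
  · rw [coeff_eq_zero_of_natDegree_lt (lt_of_le_of_lt h hk)]
    ring
  · have : k = E := by omega
    subst this
    ring

theorem hp_eval (E : ℕ) (A : ℤ[X]) (α γ s : ℂ) :
    (hp E A α γ).eval s = hom E A (α + s) (γ + s) := by
  simp [hp, hom, eval_finset_sum]

/-- `hom E (TT j E A) = j hom + α (∂_α + ∂_γ) hom`. Compare the coefficients: the right side is
`∑_k a_k (j α^k γ^(E-k) + k α^k γ^(E-k) + (E-k) α^(k+1) γ^(E-k-1))`, the left side (`TT_coeff_succ`,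
`Finset.sum_range_succ'`) `∑_k ((k+j) a_k + (E-k+1) a_(k-1)) α^k γ^(E-k)`. The hypothesis on the degree is
not needed here: the term `k = E` of the second sum has the factor `E - k = 0`. -/
theorem hom_TT (j E : ℕ) (A : ℤ[X]) (α γ s : ℂ) :
    hom E (TT j E A) (α + s) (γ + s) =
      j * hom E A (α + s) (γ + s) + (α + s) * (derivative (hp E A α γ)).eval s := by
  have hd : (derivative (hp E A α γ)).eval s = ∑ k ∈ range (E + 1), (A.coeff k : ℂ) *
      ((k : ℂ) * (α + s) ^ (k - 1) * (γ + s) ^ (E - k) +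
        (α + s) ^ k * (((E - k : ℕ) : ℂ) * (γ + s) ^ (E - k - 1))) := by
    unfold hp
    rw [derivative_sum, eval_finset_sum]
    refine Finset.sum_congr rfl fun k _ => ?_
    simp only [derivative_mul, derivative_C, derivative_pow, derivative_add, derivative_X, eval_add,
      eval_mul, eval_C, eval_pow, eval_X, zero_mul, zero_add, eval_natCast, mul_one, eval_one,
      add_zero]
    ring
  set a := α + s with ha
  set c := γ + s with hc
  rw [hd, Finset.mul_sum]
  unfold hom
  have h1 : ∀ k ∈ range (E + 1), a * ((A.coeff k : ℂ) * ((k : ℂ) * a ^ (k - 1) * c ^ (E - k) +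
      a ^ k * (((E - k : ℕ) : ℂ) * c ^ (E - k - 1)))) =
      (k : ℂ) * (A.coeff k : ℂ) * a ^ k * c ^ (E - k) +
        ((E : ℂ) - k) * (A.coeff k : ℂ) * a ^ (k + 1) * c ^ (E - (k + 1)) := by
    intro k hk
    have hk' : k ≤ E := by
      have := Finset.mem_range.1 hk
      omega
    rw [Nat.cast_sub hk', Nat.sub_sub]
    cases k with
    | zero => simp; ring
    | succ k => rw [Nat.add_sub_cancel]; ring
  rw [Finset.sum_congr rfl h1, Finset.sum_add_distrib, Finset.mul_sum, ← add_assoc,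
    ← Finset.sum_add_distrib, Finset.sum_range_succ', Finset.sum_range_succ' (n := E)]
  rw [Finset.sum_range_succ (n := E) (f := fun k => ((E : ℂ) - k) * (A.coeff k : ℂ) * a ^ (k + 1) *
    c ^ (E - (k + 1)))]
  have h2 : ∑ k ∈ range E, (((TT j E A).coeff (k + 1) : ℤ) : ℂ) * a ^ (k + 1) * c ^ (E - (k + 1)) =
      ∑ k ∈ range E, ((j : ℂ) * ((A.coeff (k + 1) : ℂ) * a ^ (k + 1) * c ^ (E - (k + 1))) +
        ((k + 1 : ℕ) : ℂ) * (A.coeff (k + 1) : ℂ) * a ^ (k + 1) * c ^ (E - (k + 1))) +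
      ∑ k ∈ range E, ((E : ℂ) - k) * (A.coeff k : ℂ) * a ^ (k + 1) * c ^ (E - (k + 1)) := by
    rw [← Finset.sum_add_distrib]
    refine Finset.sum_congr rfl fun k _ => ?_
    rw [TT_coeff_succ]
    push_cast
    ring
  rw [h2, TT_coeff_zero]
  push_cast
  ring

/-- If `q` has no zeros in the upper half plane then `j q + α q'` does not vanish at `z`, for `z`, `α` in
the upper half plane and `j ≥ 1`: `j/α + q'/q` has negative imaginary part (`HS.logDeriv_im`; if
`natDegree q = 0` then `q' = 0`). -/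
theorem lin_ne_zero {q : ℂ[X]} (hq : HS q) {j : ℕ} (hj : 1 ≤ j) {α z : ℂ} (hα : 0 < α.im)
    (hz : 0 < z.im) : (j : ℂ) * q.eval z + α * (derivative q).eval z ≠ 0 := by
  have hj0 : (j : ℂ) ≠ 0 := by exact_mod_cast (by omega : j ≠ 0)
  have hqz := hq z hz
  have hα0 : α ≠ 0 := by rintro rfl; simp at hα
  by_cases hd : q.natDegree = 0
  · rw [derivative_of_natDegree_zero hd, eval_zero, mul_zero, add_zero]
    exact mul_ne_zero hj0 hqz
  · intro h
    have hl := hq.logDeriv_im hd hz
    have e : (derivative q).eval z / q.eval z = -((j : ℂ) / α) := by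
      rw [div_eq_iff hqz, neg_mul, div_mul_eq_mul_div, eq_neg_iff_add_eq_zero]
      field_simp
      linear_combination h
    rw [e, Complex.neg_im, Complex.div_im] at hl
    have hn : 0 < Complex.normSq α := Complex.normSq_pos.2 hα0
    simp only [Complex.natCast_im, Complex.natCast_re, zero_mul, zero_div, zero_sub] at hl
    have : 0 < (j : ℝ) * α.im / Complex.normSq α := by
      refine div_pos (mul_pos ?_ hα) hn
      exact_mod_cast hj
    linarith

private theorem exists_eps {α γ : ℂ} (hα : 0 < α.im) (hγ : 0 < γ.im) :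
    ∃ s : ℂ, 0 < s.im ∧ 0 < (α - s).im ∧ 0 < (γ - s).im := by
  refine ⟨⟨0, min α.im γ.im / 2⟩, ?_, ?_, ?_⟩
  · simp [hα, hγ]
  · have := min_le_left α.im γ.im
    simp only [Complex.sub_im]
    linarith
  · have := min_le_right α.im γ.im
    simp only [Complex.sub_im]
    linarith

/-- Take `ε > 0` smaller than `α.im`, `γ.im`, and apply `lin_ne_zero` at `s = iε` to
`q = hp N A α₀ γ₀ + C y * hp M B α₀ γ₀` with `α₀ = α - iε`, `γ₀ = γ - iε` (use `hom_TT`, `hp_eval`). -/
theorem PTwo_TT {N M : ℕ} {A B : ℤ[X]} (h : PTwo N M A B) {j : ℕ} (hj : 1 ≤ j) :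
    PTwo N M (TT j N A) (TT j M B) := by
  obtain ⟨hA, hB, hs⟩ := h
  refine ⟨TT_natDegree hA, TT_natDegree hB, fun α γ y hα hγ hy => ?_⟩
  obtain ⟨s, hs0, hsα, hsγ⟩ := exists_eps hα hγ
  have hq : HS (hp N A (α - s) (γ - s) + C y * hp M B (α - s) (γ - s)) := by
    intro z hz
    rw [eval_add, eval_mul, eval_C, hp_eval, hp_eval]
    refine hs _ _ _ ?_ ?_ hy
    · rw [Complex.add_im]; linarith
    · rw [Complex.add_im]; linarith
  have key := lin_ne_zero hq hj hα hs0
  have eA := hom_TT j N A (α - s) (γ - s) s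
  have eB := hom_TT j M B (α - s) (γ - s) s
  rw [← hp_eval N A] at eA
  rw [← hp_eval M B] at eB
  simp only [sub_add_cancel] at eA eB
  rw [eA, eB]
  rw [eval_add, eval_mul, eval_C, derivative_add, derivative_C_mul, eval_add, eval_mul, eval_C]
    at key
  intro hcon
  apply key
  linear_combination hcon

theorem POne_TT {M : ℕ} {B : ℤ[X]} (h : POne M B) {j : ℕ} (hj : 1 ≤ j) : POne M (TT j M B) := by
  obtain ⟨hB, hs⟩ := h
  refine ⟨TT_natDegree hB, fun α γ hα hγ => ?_⟩
  obtain ⟨s, hs0, hsα, hsγ⟩ := exists_eps hα hγ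
  have hq : HS (hp M B (α - s) (γ - s)) := by
    intro z hz
    rw [hp_eval]
    refine hs _ _ ?_ ?_
    · rw [Complex.add_im]; linarith
    · rw [Complex.add_im]; linarith
  have key := lin_ne_zero hq hj hα hs0
  have eB := hom_TT j M B (α - s) (γ - s) s
  rw [← hp_eval M B] at eB
  simp only [sub_add_cancel] at eB
  rw [eB]
  exact key

theorem PTwo_KK {N M : ℕ} {A B : ℤ[X]} (h : PTwo N M A B) (n : ℕ) :
    PTwo N M (KK N A n) (KK M B n) := by
  induction n with
  | zero => exact h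
  | succ n ih => exact PTwo_TT ih (by omega)

theorem POne_KK {M : ℕ} {B : ℤ[X]} (h : POne M B) (n : ℕ) : POne M (KK M B n) := by
  induction n with
  | zero => exact h
  | succ n ih => exact POne_TT ih (by omega)

end Pool.Agent.Lib.FourRun
end
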