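import Pool.Agent.Lib.MP_7d55f0_co.FRRecB

section

set_option autoImplicit false

namespace Pool.Agent.Lib.FourRun

open Polynomial Finset Pool.Agent.Lib.ThreeRun

/-- `HK_eq`, `HK_eq'` and commutativity -/
theorem HH_comm (b a c : ℕ) : HH b a c = HH b c a := by
  rw [← HK_eq (K := a + c + 1) (b := b) (a := a) (c := c) (by omega),
    ← HK_eq (K := a + c + 1) (b := b) (a := c) (c := a) (by omega)]
  unfold HK
  refine Finset.sum_congr rfl fun p _ => ?_
  ring

/-- `AA_R1` termwise (write both `HH` as `HK (a+1)`, which is the definition). -/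
theorem HH_sub (b a c : ℕ) :
    HH (b + 1) a (c + 1) - HH (b + 1) a c = LL b a (c + 1) - (1 - X) * LL b a c := by
  unfold HH HK LL
  rw [Finset.mul_sum, ← Finset.sum_sub_distrib, ← Finset.sum_sub_distrib]
  refine Finset.sum_congr rfl fun p _ => ?_
  linear_combination (C (Nat.multichoose (b + 1) p : ℤ) * X ^ p * AA (b + 1) p a) * AA_R1 b p c

/-- Only `p = 0` contributes. -/
theorem LL_zero (b a : ℕ) : LL b a 0 = HH (b + 1) a 0 := by
  rw [HH_zero_right]
  unfold LL
  rw [Finset.sum_eq_single 0]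
  · rw [AA_zero_zero]
    simp
  · intro p _ hp
    rw [AA_of_lt (show 0 < p by omega)]
    simp
  · intro h
    simp at h

/-- generating function of `C(m+a,a) NN b c 0 m` -/
noncomputable def Lf (b a c : ℕ) : PowerSeries ℤ :=
  PowerSeries.mk fun m => ((m + a).choose a : ℤ) * (NN b c 0 m : ℤ)

private theorem frLL_coeff (b a c m : ℕ) :
    PowerSeries.coeff m (Lf b a c) = ((m + a).choose a : ℤ) * (NN b c 0 m : ℤ) :=
  PowerSeries.coeff_mk _ _

private theorem frLL_rec (b a c : ℕ) :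
    Gf (b + 1) a (c + 1) + Lf b a c =
      PowerSeries.X * Gf (b + 1) a (c + 1) + Gf (b + 1) a c + Lf b a (c + 1) := by
  ext m
  cases m with
  | zero =>
    simp only [map_add, PowerSeries.coeff_zero_X_mul, frLL_coeff, Gf_coeff, NN_zero]
    norm_num
  | succ m =>
    simp only [map_add, PowerSeries.coeff_succ_X_mul, frLL_coeff, Gf_coeff]
    have h := NN_rec_c a b c m
    zify at h
    linarith

private theorem frLL_rec0 (b a : ℕ) :
    Gf (b + 1) a 0 = PowerSeries.X * Gf (b + 1) a 0 + Lf b a 0 := by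
  ext m
  cases m with
  | zero =>
    simp only [map_add, PowerSeries.coeff_zero_X_mul, frLL_coeff, Gf_coeff, NN_zero]
    norm_num
  | succ m =>
    simp only [map_add, PowerSeries.coeff_succ_X_mul, frLL_coeff, Gf_coeff]
    have h := NN_rec_zero a b m
    zify at h
    linarith

/-- Induction on `c`. `NN_rec_c` says (coefficientwise, at `0` all counts are `1`)
`Gf (b+1) a (c+1) + Lf b a c = X Gf (b+1) a (c+1) + Gf (b+1) a c + Lf b a (c+1)`, so with `Gf_eq` and
`HH_sub` we are done; for `c = 0`: `Gf (b+1) a 0 = X Gf (b+1) a 0 + Lf b a 0` by `NN_rec_zero`, and `LL_zero`. -/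
theorem Lf_eq (b a c : ℕ) :
    Lf b a c * (1 - PowerSeries.X) ^ (a + b + c + 2) = (LL b a c : PowerSeries ℤ) := by
  induction c with
  | zero =>
    have h1 := frLL_rec0 b a
    have h2 := Gf_eq (b + 1) a 0
    rw [LL_zero, ← h2, show a + (b + 1) + 0 + 2 = (a + b + 0 + 2) + 1 by ring]
    linear_combination (-(1 - PowerSeries.X) ^ (a + b + 0 + 2)) * h1
  | succ c ih =>
    have h1 := frLL_rec b a c
    have h2 := Gf_eq (b + 1) a (c + 1)
    have h3 := Gf_eq (b + 1) a c
    have h4 := congrArg (fun p : Polynomial ℤ => (p : PowerSeries ℤ)) (HH_sub b a c)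
    simp only [Polynomial.coe_sub, Polynomial.coe_mul, Polynomial.coe_one,
      Polynomial.coe_X] at h4
    obtain ⟨Y, hY⟩ : ∃ Y : PowerSeries ℤ, Y = 1 - PowerSeries.X := ⟨_, rfl⟩
    have hX : PowerSeries.X = 1 - Y := by rw [hY]; ring
    rw [← hY] at ih h2 h3 h4 ⊢
    rw [hX] at h1
    obtain ⟨Z, hZ⟩ : ∃ Z : PowerSeries ℤ, Z = Y ^ (a + b + c + 2) := ⟨_, rfl⟩
    have e1 : Y ^ (a + (b + 1) + (c + 1) + 2) = Y ^ 2 * Z := by rw [hZ]; ring
    have e2 : Y ^ (a + (b + 1) + c + 2) = Y * Z := by rw [hZ]; ring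
    have e3 : Y ^ (a + b + (c + 1) + 2) = Y * Z := by rw [hZ]; ring
    rw [e1] at h2
    rw [e2] at h3
    rw [← hZ] at ih
    rw [e3]
    linear_combination (-(Y * Z)) * h1 + h2 - h3 + Y * ih + h4

end Pool.Agent.Lib.FourRun
end
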