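import Pool.Agent.Lib.MP_7d55f0_co.FRMidB1

section

set_option autoImplicit false

namespace Pool.Agent.Lib.FourRun

open Polynomial Finset Pool.Agent.Lib.ThreeRun

/-- Value of `HH 1 a c` (see the proof of `h_ne_zero` and of `b1_ne_zero`; `HH_eval`). -/
theorem HH_one_eval (a c : ℕ) (t : ℂ) :
    ((HH 1 a c).map (Int.castRingHom ℂ)).eval t =
      ∑ i ∈ Finset.range (a + 1), (a.choose i : ℂ) * ((c + 1).choose i : ℂ) * t ^ i +
      t * (∑ i ∈ Finset.range (a + 1), (a.choose i : ℂ) * ((c + 1).choose (i + 1) : ℂ) * t ^ i - 1) := by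
  rw [HH_eval]
  have hA : ∑ i ∈ Finset.range (a + 2), ((a + 1).choose i : ℂ) * ((c + 1).choose i : ℂ) * t ^ i =
      ∑ i ∈ Finset.range (a + 1), (a.choose i : ℂ) * ((c + 1).choose i : ℂ) * t ^ i +
        t * ∑ i ∈ Finset.range (a + 1), (a.choose i : ℂ) * ((c + 1).choose (i + 1) : ℂ) * t ^ i := by
    rw [Finset.sum_range_succ']
    have h5 : ∀ i, ((a + 1).choose (i + 1) : ℂ) * ((c + 1).choose (i + 1) : ℂ) * t ^ (i + 1) =
        (a.choose (i + 1) : ℂ) * ((c + 1).choose (i + 1) : ℂ) * t ^ (i + 1) +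
          t * ((a.choose i : ℂ) * ((c + 1).choose (i + 1) : ℂ) * t ^ i) := by
      intro i
      rw [Nat.choose_succ_succ a i]
      push_cast
      ring
    rw [Finset.sum_congr rfl fun i _ => h5 i, Finset.sum_add_distrib, ← Finset.mul_sum]
    have h6 := Finset.sum_range_succ' (fun i => (a.choose i : ℂ) * ((c + 1).choose i : ℂ) * t ^ i) (a + 1)
    have h7 := Finset.sum_range_succ (fun i => (a.choose i : ℂ) * ((c + 1).choose i : ℂ) * t ^ i) (a + 1)
    rw [Nat.choose_succ_self] at h7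
    simp only [Nat.choose_zero_right, Nat.cast_one, pow_zero, mul_one, Nat.cast_zero, zero_mul,
      add_zero] at h6 h7 ⊢
    linear_combination h7 - h6
  have hB : ∑ i ∈ Finset.range (a + 2), ((a + 1).choose i : ℂ) * ((c + 1).choose i : ℂ) * t ^ i - t =
      ∑ p ∈ Finset.range (a + 1), (Nat.multichoose 1 p : ℂ) * t ^ p * AC 1 p a t * AC 1 p c t := by
    have e1 : ∀ p a : ℕ, AC 1 p a t = (a.choose p : ℂ) + (a.choose (p + 1) : ℂ) * t := by
      intro p a
      unfold AC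
      rw [Finset.sum_range_succ, Finset.sum_range_succ, Finset.sum_range_zero]
      simp
    rw [Finset.sum_range_succ']
    have e2 : ∀ p ∈ Finset.range (a + 1), ((a + 1).choose (p + 1) : ℂ) * ((c + 1).choose (p + 1) : ℂ) *
        t ^ (p + 1) = (Nat.multichoose 1 p : ℂ) * t ^ p * AC 1 p a t * AC 1 p c t +
        ((a.choose (p + 1) : ℂ) * (c.choose (p + 1) : ℂ) * t ^ (p + 1) -
          (a.choose p : ℂ) * (c.choose p : ℂ) * t ^ p) * (1 - t) := by
      intro p _
      rw [e1, e1, Nat.multichoose_one, Nat.choose_succ_succ, Nat.choose_succ_succ]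
      push_cast
      ring
    rw [Finset.sum_congr rfl e2, Finset.sum_add_distrib, ← Finset.sum_mul,
      Finset.sum_range_sub (fun p => (a.choose p : ℂ) * (c.choose p : ℂ) * t ^ p)]
    simp
    ring
  linear_combination hA - hB

/-- Value of `LL 0 a c`: `∑_p t^p (C(a,p) + C(a,p+1) t) C(c,p) = ∑_i C(a,i) C(c+1,i) t^i`. -/
theorem LL_zero_eval (a c : ℕ) (t : ℂ) :
    ((LL 0 a c).map (Int.castRingHom ℂ)).eval t =
      ∑ i ∈ Finset.range (a + 1), (a.choose i : ℂ) * ((c + 1).choose i : ℂ) * t ^ i := by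
  rw [LL_eval]
  have e0 : ∀ p : ℕ, AC 0 p c t = (c.choose p : ℂ) := by
    intro p
    unfold AC
    rw [Finset.sum_range_succ, Finset.sum_range_zero]
    simp
  have e1 : ∀ p : ℕ, AC (0 + 1) p a t = (a.choose p : ℂ) + (a.choose (p + 1) : ℂ) * t := by
    intro p
    unfold AC
    rw [Finset.sum_range_succ, Finset.sum_range_succ, Finset.sum_range_zero]
    simp
  have e2 : ∀ p ∈ Finset.range (a + 1),
      (Nat.multichoose (0 + 1) p : ℂ) * t ^ p * AC (0 + 1) p a t * AC 0 p c t =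
        (a.choose p : ℂ) * (c.choose p : ℂ) * t ^ p +
          (a.choose (p + 1) : ℂ) * (c.choose p : ℂ) * t ^ (p + 1) := by
    intro p _
    rw [e0, e1, Nat.zero_add, Nat.multichoose_one]
    push_cast
    ring
  rw [Finset.sum_congr rfl e2, Finset.sum_add_distrib]
  have h1 := Finset.sum_range_succ
    (fun p => (a.choose (p + 1) : ℂ) * (c.choose p : ℂ) * t ^ (p + 1)) a
  rw [Nat.choose_succ_self] at h1
  have h2 := Finset.sum_range_succ' (fun i => (a.choose i : ℂ) * ((c + 1).choose i : ℂ) * t ^ i) a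
  have h3 := Finset.sum_range_succ' (fun i => (a.choose i : ℂ) * (c.choose i : ℂ) * t ^ i) a
  have h4 : ∀ i ∈ Finset.range a,
      (a.choose (i + 1) : ℂ) * ((c + 1).choose (i + 1) : ℂ) * t ^ (i + 1) =
        (a.choose (i + 1) : ℂ) * (c.choose (i + 1) : ℂ) * t ^ (i + 1) +
          (a.choose (i + 1) : ℂ) * (c.choose i : ℂ) * t ^ (i + 1) := by
    intro i _
    rw [Nat.choose_succ_succ c i]
    push_cast
    ring
  rw [Finset.sum_congr rfl h4, Finset.sum_add_distrib] at h2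
  simp only [Nat.choose_zero_right, Nat.cast_one, pow_zero, mul_one, Nat.cast_zero, zero_mul,
    add_zero] at h1 h2 h3 ⊢
  rw [h1, h2, h3]
  ring

/-- Middle run one: with `α = γ t`, `hom + y hom = γ^(a+c+1) (γ HH(t) + y LL(t))` (`hom_eq_eval`) and
`γ HH(t) + y LL(t) = (γ+y) ∑ C(a,i) C(c+1,i) t^i + α (∑ C(a,i) C(c+1,i+1) t^i - 1)`; use
`b1_mix_ne_zero` with `c₀ = γ + y`, `M = c + 1`. -/
theorem PTwo_one (a c : ℕ) :
    PTwo (a + 0 + c + 2) (a + 0 + c + 1) (HH (0 + 1) a c) (LL 0 a c) := by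
  have hd1 : (HH (0 + 1) a c).natDegree ≤ a + 0 + c + 2 := by
    have := HH_natDegree (0 + 1) a c
    omega
  have hd2 : (LL 0 a c).natDegree ≤ a + 0 + c + 1 := LL_natDegree 0 a c
  refine ⟨hd1, hd2, fun α γ y hα hγ hy hcon => ?_⟩
  have hγ0 : γ ≠ 0 := by
    rintro rfl
    simp at hγ
  have hαt : α = γ * (α / γ) := by
    field_simp
  have h1 := hom_eq_eval hd1 γ (α / γ)
  have h2 := hom_eq_eval hd2 γ (α / γ)
  rw [← hαt] at h1 h2
  rw [h1, h2, Nat.zero_add, HH_one_eval, LL_zero_eval] at hcon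
  have h3 := b1_mix_ne_zero a (M := c + 1) (by omega) (α := α) (γ := γ) (c₀ := γ + y) hα hγ
    (by rw [Complex.add_im]; linarith)
  apply h3
  have h4 : γ ^ (a + 0 + c + 1) ≠ 0 := pow_ne_zero _ hγ0
  have h5 : γ * (α / γ) = α := hαt.symm
  apply (mul_eq_zero.1 (?_ : γ ^ (a + 0 + c + 1) * _ = 0)).resolve_left h4
  rw [← hcon, pow_succ γ (a + 0 + c + 1)]
  generalize ∑ i ∈ Finset.range (a + 1), (a.choose i : ℂ) * ((c + 1).choose i : ℂ) * (α / γ) ^ i = S1
  generalize ∑ i ∈ Finset.range (a + 1), (a.choose i : ℂ) * ((c + 1).choose (i + 1) : ℂ) *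
    (α / γ) ^ i = S2
  linear_combination (γ ^ (a + 0 + c + 1) * (1 - S2)) * h5

end Pool.Agent.Lib.FourRun
end
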