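import Pool.Agent.Lib.MP_7d55f0_co.FRDefs

section

set_option autoImplicit false

namespace Pool.Agent.Lib.FourRun

open Polynomial Finset Pool.Agent.Lib.ThreeRun

private lemma fRMk_pow (N : ℕ) :
    (1 - PowerSeries.X : PowerSeries ℤ) *
      PowerSeries.derivative ℤ ((1 - PowerSeries.X : PowerSeries ℤ) ^ N) =
      -((N : PowerSeries ℤ) * (1 - PowerSeries.X) ^ N) := by
  have h1 : PowerSeries.derivative ℤ (1 - PowerSeries.X : PowerSeries ℤ) = -1 := by
    rw [map_sub, PowerSeries.derivative_X, Derivation.map_one_eq_zero, zero_sub]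
  rw [Derivation.leibniz_pow, h1]
  cases N with
  | zero => simp
  | succ n =>
    simp only [Nat.add_sub_cancel, nsmul_eq_mul, smul_eq_mul]
    rw [pow_succ]
    ring

/-- Multiplication of the coefficients by `m + j`. Proof: `F = mk f`, `mk (m f m) = X F'`
(`PowerSeries.derivative`, `PowerSeries.coeff_derivative`), differentiate
`F (1-X)^(E+j) = A`: `F' (1-X)^(E+j) - (E+j) F (1-X)^(E+j-1) = A'`; multiply by `X (1-X)`. (If `E+j = 0`
this is fine too; to avoid the case distinction multiply the hypothesis by `(1-X)` first.) -/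
theorem mk_mul_add (f : ℕ → ℤ) (A : ℤ[X]) (j E : ℕ)
    (h : PowerSeries.mk f * (1 - PowerSeries.X) ^ (E + j) = (A : PowerSeries ℤ)) :
    PowerSeries.mk (fun m => ((m : ℤ) + j) * f m) * (1 - PowerSeries.X) ^ (E + j + 1) =
      (TT j E A : PowerSeries ℤ) := by
  have h1 : PowerSeries.mk (fun m => ((m : ℤ) + j) * f m) =
      PowerSeries.X * PowerSeries.derivative ℤ (PowerSeries.mk f) +
        (j : PowerSeries ℤ) * PowerSeries.mk f := by
    ext m
    rw [map_add, PowerSeries.coeff_mk]
    have h2 : (j : PowerSeries ℤ) = PowerSeries.C (j : ℤ) := by simp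
    rw [h2, PowerSeries.coeff_C_mul, PowerSeries.coeff_mk]
    cases m with
    | zero => simp
    | succ n =>
      rw [PowerSeries.coeff_succ_X_mul, PowerSeries.coeff_derivative, PowerSeries.coeff_mk]
      push_cast
      ring
  have h2 : (TT j E A : PowerSeries ℤ) =
      PowerSeries.X * (1 - PowerSeries.X) * PowerSeries.derivative ℤ (A : PowerSeries ℤ) +
        ((j : PowerSeries ℤ) + (E : PowerSeries ℤ) * PowerSeries.X) * (A : PowerSeries ℤ) := by
    unfold TT
    rw [PowerSeries.derivative_coe]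
    push_cast
    simp
  rw [h2, h1, ← h, Derivation.leibniz, smul_eq_mul, smul_eq_mul]
  have h3 := fRMk_pow (E + j)
  set u : PowerSeries ℤ := 1 - PowerSeries.X with hu
  set F := PowerSeries.mk f
  have e1 : (PowerSeries.X : PowerSeries ℤ) * u * (F * PowerSeries.derivative ℤ (u ^ (E + j)) +
      u ^ (E + j) * PowerSeries.derivative ℤ F) =
      PowerSeries.X * F * (u * PowerSeries.derivative ℤ (u ^ (E + j))) +
        PowerSeries.X * u ^ (E + j + 1) * PowerSeries.derivative ℤ F := by
    rw [pow_succ]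
    ring
  rw [e1, h3, pow_succ]
  have e2 : u = 1 - PowerSeries.X := hu
  push_cast
  linear_combination (j : PowerSeries ℤ) * F * u ^ (E + j) * e2

/-- Disjoint union with a chain. Induction on `n` with `mk_mul_add` for `j = n+1`:
`(m + (n+1)) * (n! * C(m+n,n)) = (n+1)! * C(m+(n+1),n+1)`. -/
theorem mk_chain (f : ℕ → ℤ) (A : ℤ[X]) (E n : ℕ)
    (h : PowerSeries.mk f * (1 - PowerSeries.X) ^ (E + 1) = (A : PowerSeries ℤ)) :
    PowerSeries.mk (fun m => (n.factorial : ℤ) * ((m + n).choose n : ℤ) * f m) *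
      (1 - PowerSeries.X) ^ (E + 1 + n) = (KK E A n : PowerSeries ℤ) := by
  induction n with
  | zero =>
    simpa [KK] using h
  | succ n ih =>
    have h1 : E + 1 + n = E + (n + 1) := by ring
    rw [h1] at ih
    have h2 := mk_mul_add _ _ (n + 1) E ih
    have h3 : (fun m : ℕ => ((n + 1).factorial : ℤ) * ((m + (n + 1)).choose (n + 1) : ℤ) * f m) =
        fun m : ℕ => ((m : ℤ) + ((n + 1 : ℕ) : ℤ)) *
          ((n.factorial : ℤ) * ((m + n).choose n : ℤ) * f m) := by
      funext m
      have h4 := Nat.add_one_mul_choose_eq (m + n) n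
      have h5 : (((m + n + 1) * (m + n).choose n : ℕ) : ℤ) =
          (((m + n + 1).choose (n + 1) * (n + 1) : ℕ) : ℤ) := by
        rw [h4]
      rw [Nat.factorial_succ, ← add_assoc m n 1]
      push_cast at h5 ⊢
      linear_combination -(n.factorial : ℤ) * f m * h5
    rw [h3, show E + 1 + (n + 1) = E + (n + 1) + 1 by ring, h2]
    rfl

end Pool.Agent.Lib.FourRun
end
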