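import Pool.Agent.Lib.MP_7d55f0_co.FRRec
import Pool.Agent.Lib.MP_7d55f0_co.FRMk
import Pool.Agent.Lib.MP_7d55f0_co.FRLL

section

set_option autoImplicit false

namespace Pool.Agent.Lib.FourRun

open Polynomial Finset Pool.Agent.Lib.ThreeRun

/-- `mk_chain` for `f = C(m+a,a) NN b c 0 m`. -/
private theorem frpoly_chain_LL (b a c n E : ℕ) (hE : E = a + b + c + 1) :
    PowerSeries.mk (fun m => (n.factorial : ℤ) * ((m + n).choose n : ℤ) *
      (((m + a).choose a : ℤ) * (NN b c 0 m : ℤ))) * (1 - PowerSeries.X) ^ (E + 1 + n) =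
      (KK E (LL b a c) n : PowerSeries ℤ) := by
  subst hE
  exact mk_chain _ _ _ _ (Lf_eq b a c)

/-- `mk_chain` for `f = NN b a c m`. -/
private theorem frpoly_chain_HH (b a c n E : ℕ) (hE : E = a + b + c + 1) :
    PowerSeries.mk (fun m => (n.factorial : ℤ) * ((m + n).choose n : ℤ) * (NN b a c m : ℤ)) *
      (1 - PowerSeries.X) ^ (E + 1 + n) = (KK E (HH b a c) n : PowerSeries ℤ) := by
  subst hE
  exact mk_chain _ _ _ _ (Gf_eq b a c)

/-- `P - u - v` in two ways: both sides are `mk (a! d! C(m+a,a) C(m+d,d) NN c b 0 m) (1-X)^(a+b+c+d+2)`: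
`mk_chain` (with `f = C(m+a,a) NN b c 0 m`, `A = LL b a c`, `E = a+b+c+1`, `n = d`) and `Lf_eq`;
resp. `mk_chain` (with `f = C(m+d,d) NN c b 0 m`, `A = LL c d b`, `E = b+c+d+1`, `n = a`), and
`NN_right_zero_comm`. Use `Polynomial.coe_injective`. -/
theorem KK_swap (a b c d : ℕ) :
    C (a.factorial : ℤ) * KK (a + b + c + 1) (LL b a c) d =
      C (d.factorial : ℤ) * KK (b + c + d + 1) (LL c d b) a := by
  apply Polynomial.coe_injective ℤ
  rw [Polynomial.coe_mul, Polynomial.coe_mul, Polynomial.coe_C, Polynomial.coe_C,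
    ← frpoly_chain_LL b a c d (a + b + c + 1) rfl,
    ← frpoly_chain_LL c d b a (b + c + d + 1) (by ring), ← mul_assoc, ← mul_assoc,
    show a + b + c + 1 + 1 + d = b + c + d + 1 + 1 + a by ring]
  congr 1
  ext m
  rw [PowerSeries.coeff_C_mul, PowerSeries.coeff_C_mul, PowerSeries.coeff_mk,
    PowerSeries.coeff_mk, NN_right_zero_comm b c m]
  ring

/-- The inclusion-exclusion identity of polynomials. `N4_rec` gives, coefficientwise (at `0` all counts
are `1`), for `G = mk (N4 a b c d)`: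
`G + mk (C(m+a,a) C(m+d,d) NN c b 0 m) = X G + mk (C(m+a,a) NN (c+1) b d m) + mk (C(m+d,d) NN (b+1) a c m)`.
Multiply by `a! d! (1-X)^(a+b+c+d+3)` and use `mk_chain` three times:
`f = NN (c+1) b d` (`A = HH (c+1) b d = HH (c+1) d b`, `E = b+c+d+2`, `n = a`, by `Gf_eq`, `HH_comm`),
`f = NN (b+1) a c` (`A = HH (b+1) a c`, `E = a+b+c+2`, `n = d`), and
`f = C(m+d,d) NN c b 0 m` (`A = LL c d b`, `E = b+c+d+1`, `n = a`, by `Lf_eq`). -/
theorem four_poly (a b c d : ℕ) (h : ℤ[X])
    (hh : PowerSeries.mk (fun m => (N4 a b c d m : ℤ)) *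
      (1 - PowerSeries.X) ^ (a + b + c + d + 4) = (h : PowerSeries ℤ)) :
    C ((a.factorial : ℤ) * (d.factorial : ℤ)) * h =
      C (d.factorial : ℤ) * KK (b + c + d + 2) (HH (c + 1) d b) a +
      C (a.factorial : ℤ) * KK (a + b + c + 2) (HH (b + 1) a c) d -
      (1 - X) * (C (d.factorial : ℤ) * KK (b + c + d + 1) (LL c d b) a) := by
  have k1 := frpoly_chain_HH (c + 1) b d a (b + c + d + 2) (by ring)
  have k2 := frpoly_chain_HH (b + 1) a c d (a + b + c + 2) (by ring)
  have k3 := frpoly_chain_LL c d b a (b + c + d + 1) (by ring)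
  rw [HH_comm (c + 1) b d] at k1
  have hrec : PowerSeries.C ((a.factorial : ℤ) * (d.factorial : ℤ)) *
        PowerSeries.mk (fun m => (N4 a b c d m : ℤ)) +
      PowerSeries.C (d.factorial : ℤ) *
        PowerSeries.mk (fun m => (a.factorial : ℤ) * ((m + a).choose a : ℤ) *
          (((m + d).choose d : ℤ) * (NN c b 0 m : ℤ))) =
      PowerSeries.X * (PowerSeries.C ((a.factorial : ℤ) * (d.factorial : ℤ)) *
        PowerSeries.mk (fun m => (N4 a b c d m : ℤ))) +
      PowerSeries.C (d.factorial : ℤ) *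
        PowerSeries.mk (fun m => (a.factorial : ℤ) * ((m + a).choose a : ℤ) *
          (NN (c + 1) b d m : ℤ)) +
      PowerSeries.C (a.factorial : ℤ) *
        PowerSeries.mk (fun m => (d.factorial : ℤ) * ((m + d).choose d : ℤ) *
          (NN (b + 1) a c m : ℤ)) := by
    ext m
    cases m with
    | zero =>
      simp only [map_add, PowerSeries.coeff_zero_X_mul, PowerSeries.coeff_C_mul,
        PowerSeries.coeff_mk, NN_zero, N4_zero, zero_add, Nat.choose_self]
      push_cast
      ring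
    | succ m =>
      simp only [map_add, PowerSeries.coeff_succ_X_mul, PowerSeries.coeff_C_mul,
        PowerSeries.coeff_mk]
      have h1 := congrArg (fun n : ℕ => (n : ℤ)) (N4_rec a b c d m)
      push_cast at h1
      linear_combination ((a.factorial : ℤ) * (d.factorial : ℤ)) * h1
  apply Polynomial.coe_injective ℤ
  rw [Polynomial.coe_sub, Polynomial.coe_add]
  simp only [Polynomial.coe_mul, Polynomial.coe_C, coe_one_sub_X]
  rw [← k1, ← k2, ← k3, ← hh]
  obtain ⟨Y, hY⟩ : ∃ Y : PowerSeries ℤ, Y = 1 - PowerSeries.X := ⟨_, rfl⟩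
  have hX : PowerSeries.X = 1 - Y := by rw [hY]; ring
  rw [← hY]
  rw [hX] at hrec
  have e0 : a + b + c + d + 4 = (a + b + c + d + 3) + 1 := by ring
  have e1 : b + c + d + 2 + 1 + a = a + b + c + d + 3 := by ring
  have e2 : a + b + c + 2 + 1 + d = a + b + c + d + 3 := by ring
  have e3 : b + c + d + 1 + 1 + a = a + b + c + d + 2 := by ring
  rw [e0, e1, e2, e3, pow_succ Y (a + b + c + d + 3), pow_succ Y (a + b + c + d + 2)]
  linear_combination (Y ^ (a + b + c + d + 2) * Y) * hrec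

end Pool.Agent.Lib.FourRun
end
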