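import Pool.Agent.Lib.MP_7d55f0_co.FRHom
import Pool.Agent.Lib.MP_7d55f0_co.FRMk
import Pool.Agent.Lib.MP_7d55f0_co.FRLL

section

set_option autoImplicit false

namespace Pool.Agent.Lib.FourRun

open Polynomial Finset Pool.Agent.Lib.ThreeRun

private theorem frPone_hom_one (M : ℕ) (α γ : ℂ) : hom M 1 α γ = γ ^ M := by
  unfold hom
  rw [Finset.sum_eq_single 0]
  · simp
  · intro k _ hk
    rw [coeff_one, if_neg hk]
    simp
  · intro h
    simp at h

private theorem frPone_ne {γ : ℂ} (h : 0 < γ.im) : γ ≠ 0 := by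
  rintro rfl
  simp at h

theorem POne_one (M : ℕ) : POne M 1 := by
  refine ⟨by simp, fun α γ _ hγ => ?_⟩
  rw [frPone_hom_one]
  exact pow_ne_zero _ (frPone_ne hγ)

private theorem frPone_hom_mono {M M' : ℕ} (hM : M ≤ M') {B : ℤ[X]} (h : B.natDegree ≤ M)
    (α γ : ℂ) : hom M' B α γ = γ ^ (M' - M) * hom M B α γ := by
  unfold hom
  rw [Finset.mul_sum]
  have hsub : range (M + 1) ⊆ range (M' + 1) := by
    intro k hk
    rw [Finset.mem_range] at hk ⊢
    omega
  rw [← Finset.sum_subset hsub]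
  · refine Finset.sum_congr rfl fun k hk => ?_
    rw [Finset.mem_range] at hk
    rw [show M' - k = (M' - M) + (M - k) by omega, pow_add]
    ring
  · intro k _ hk
    rw [Finset.mem_range, not_lt] at hk
    rw [coeff_eq_zero_of_natDegree_lt (show B.natDegree < k by omega)]
    simp

/-- `hom M' B = γ^(M'-M) hom M B`. -/
theorem POne_mono {M M' : ℕ} (hM : M ≤ M') {B : ℤ[X]} (h : POne M B) : POne M' B := by
  refine ⟨h.1.trans hM, fun α γ hα hγ => ?_⟩
  rw [frPone_hom_mono hM h.1]
  exact mul_ne_zero (pow_ne_zero _ (frPone_ne hγ)) (h.2 α γ hα hγ)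

theorem POne_of_mul {M : ℕ} {B : ℤ[X]} {r : ℤ} (hr : r ≠ 0) (h : POne M (C r * B)) : POne M B := by
  refine ⟨?_, fun α γ hα hγ h0 => h.2 α γ hα hγ ?_⟩
  · have h1 := h.1
    rwa [natDegree_C_mul hr] at h1
  · have e : hom M (C r * B) α γ = (r : ℂ) * hom M B α γ := by
      unfold hom
      rw [Finset.mul_sum]
      refine Finset.sum_congr rfl fun k _ => ?_
      rw [coeff_C_mul]
      push_cast
      ring
    rw [e, h0, mul_zero]

private theorem frPone_Gf (b c : ℕ) : Gf c b 0 * (1 - PowerSeries.X) =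
    PowerSeries.mk (fun m => ((m + c).choose c : ℤ) * ((m + b).choose b : ℤ)) := by
  have h : Gf c b 0 = PowerSeries.X * Gf c b 0 +
      PowerSeries.mk (fun m => ((m + c).choose c : ℤ) * ((m + b).choose b : ℤ)) := by
    ext m
    cases m with
    | zero =>
      simp only [map_add, PowerSeries.coeff_zero_X_mul, PowerSeries.coeff_mk, Gf_coeff, NN_zero]
      simp
    | succ m =>
      simp only [map_add, PowerSeries.coeff_succ_X_mul, PowerSeries.coeff_mk, Gf_coeff]
      rw [NN_right_zero, NN_right_zero, Finset.sum_range_succ _ (m + 1)]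
      push_cast
      ring
  linear_combination h

/-- Both sides are the numerator of the generating function of `c! C(m+c,c) C(m+b,b)`, resp. of its
partial sums: `mk_chain` with `f = C(m+b,b)`, `A = 1`, `E = b`, `n = c`
(`PowerSeries.mk_add_choose_mul_one_sub_pow_eq_one`); `Gf c b 0 - X Gf c b 0 = mk (C(m+b,b) C(m+c,c))`
by `NN_right_zero`, and `Gf_eq`. -/
theorem KK_one (b c : ℕ) : KK b 1 c = C (c.factorial : ℤ) * HH c b 0 := by
  have h0 : PowerSeries.mk (fun m => ((m + b).choose b : ℤ)) * (1 - PowerSeries.X) ^ (b + 1) =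
      ((1 : ℤ[X]) : PowerSeries ℤ) := by
    rw [Polynomial.coe_one]
    refine Eq.trans ?_ (PowerSeries.mk_add_choose_mul_one_sub_pow_eq_one ℤ b)
    congr 2
    funext m
    rw [add_comm m b]
  have h1 := mk_chain (fun m => ((m + b).choose b : ℤ)) 1 b c h0
  have h2 := Gf_eq c b 0
  have h3 := frPone_Gf b c
  rw [← Polynomial.coe_inj, ← h1, Polynomial.coe_mul, ← h2, Polynomial.coe_C]
  have e1 : PowerSeries.mk (fun m => (c.factorial : ℤ) * ((m + c).choose c : ℤ) *
      ((m + b).choose b : ℤ)) = PowerSeries.C (c.factorial : ℤ) *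
      PowerSeries.mk (fun m => ((m + c).choose c : ℤ) * ((m + b).choose b : ℤ)) := by
    ext m
    rw [PowerSeries.coeff_C_mul, PowerSeries.coeff_mk, PowerSeries.coeff_mk]
    ring
  rw [e1, ← h3, show b + c + 0 + 2 = (b + 1 + c) + 1 by ring]
  ring

/-- `mk_chain` with `f = NN c b 0`, `A = HH c b 0`, `E = b+c+1`, `n = d`, and `Lf_eq`. -/
theorem KK_HH (b c d : ℕ) : KK (b + c + 1) (HH c b 0) d = C (d.factorial : ℤ) * LL c d b := by
  have h0 : PowerSeries.mk (fun m => (NN c b 0 m : ℤ)) * (1 - PowerSeries.X) ^ (b + c + 1 + 1) =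
      ((HH c b 0 : ℤ[X]) : PowerSeries ℤ) := by
    rw [← Gf_eq c b 0]
    rfl
  have h1 := mk_chain (fun m => (NN c b 0 m : ℤ)) (HH c b 0) (b + c + 1) d h0
  have h2 := Lf_eq c d b
  rw [← Polynomial.coe_inj, ← h1, Polynomial.coe_mul, ← h2, Polynomial.coe_C]
  have e1 : PowerSeries.mk (fun m => (d.factorial : ℤ) * ((m + d).choose d : ℤ) *
      (NN c b 0 m : ℤ)) = PowerSeries.C (d.factorial : ℤ) * Lf c d b := by
    ext m
    unfold Lf
    rw [PowerSeries.coeff_C_mul, PowerSeries.coeff_mk, PowerSeries.coeff_mk]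
    ring
  rw [e1, show d + c + b + 2 = b + c + 1 + 1 + d by ring]
  ring

theorem POne_LL (b c d : ℕ) : POne (b + c + d + 1) (LL c d b) := by
  have h1 : POne b (C (c.factorial : ℤ) * HH c b 0) := by
    rw [← KK_one]
    exact POne_KK (POne_one b) c
  have h2 : POne b (HH c b 0) := POne_of_mul (by positivity) h1
  have h3 : POne (b + c + 1) (HH c b 0) := POne_mono (by omega) h2
  have h4 : POne (b + c + 1) (C (d.factorial : ℤ) * LL c d b) := by
    rw [← KK_HH]
    exact POne_KK h3 d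
  exact POne_mono (by omega) (POne_of_mul (by positivity) h4)

end Pool.Agent.Lib.FourRun
end
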