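import Pool.Agent.Lib.MP_7d55f0_co.FRMidA

section

set_option autoImplicit false

namespace Pool.Agent.Lib.FourRun

open Polynomial Finset Pool.Agent.Lib.ThreeRun

/-- With `τ` from `exists_tau` and `hom_eq_eval`. -/
theorem POne_eval_ne_zero {M : ℕ} {B : ℤ[X]} (h : POne M B) {t : ℂ} (ht : 0 < t.im) :
    (B.map (Int.castRingHom ℂ)).eval t ≠ 0 := by
  obtain ⟨τ, hτ, hτt⟩ := exists_tau ht
  intro hB
  apply h.2 (τ * t) τ hτt hτ
  rw [hom_eq_eval h.1, hB, mul_zero]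

/-- For all small `ε > 0` put `τ = 1 + iε`; then `τ` and `τ t` lie in the upper half plane and
`τ^M (τ A(t) + y B(t)) ≠ 0` for all `y` there, so `Im (τ A(t)/B(t)) ≥ 0` (else take `y = -τ A(t)/B(t)`);
let `ε → 0` (or: if `Im (A/B) < 0` then also `Im (τ A/B) = Im (A/B) + ε Re (A/B) < 0` for small `ε`). -/
theorem PTwo_im {M : ℕ} {A B : ℤ[X]} (h : PTwo (M + 1) M A B) {t : ℂ} (ht : 0 < t.im)
    (hB : (B.map (Int.castRingHom ℂ)).eval t ≠ 0) :
    0 ≤ ((A.map (Int.castRingHom ℂ)).eval t / (B.map (Int.castRingHom ℂ)).eval t).im := by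
  obtain ⟨q, hq⟩ : ∃ q : ℂ, q = (A.map (Int.castRingHom ℂ)).eval t /
      (B.map (Int.castRingHom ℂ)).eval t := ⟨_, rfl⟩
  rw [← hq]
  by_contra hneg
  rw [not_le] at hneg
  obtain ⟨ε, hε0, hεt, hεq⟩ : ∃ ε : ℝ, 0 < ε ∧ ε * (1 + |t.re|) ≤ t.im ∧
      ε * (1 + |q.re|) ≤ -q.im := by
    have h1 : 0 < 1 + |t.re| := by
      have := abs_nonneg t.re
      linarith
    have h2 : 0 < 1 + |q.re| := by
      have := abs_nonneg q.re
      linarith
    refine ⟨min (t.im / (1 + |t.re|)) (-q.im / (1 + |q.re|)), ?_, ?_, ?_⟩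
    · exact lt_min (div_pos ht h1) (div_pos (by linarith) h2)
    · rw [← le_div_iff₀ h1]
      exact min_le_left _ _
    · rw [← le_div_iff₀ h2]
      exact min_le_right _ _
  obtain ⟨τ, hτr, hτi⟩ : ∃ τ : ℂ, τ.re = 1 ∧ τ.im = ε := ⟨⟨1, ε⟩, rfl, rfl⟩
  have hτ : 0 < τ.im := by rw [hτi]; exact hε0
  have hτt : 0 < (τ * t).im := by
    rw [Complex.mul_im, hτr, hτi]
    have h1 := neg_abs_le t.re
    nlinarith
  have hy : 0 < (-(τ * q)).im := by
    rw [Complex.neg_im, Complex.mul_im, hτr, hτi]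
    have h1 := le_abs_self q.re
    nlinarith
  apply h.2.2 (τ * t) τ (-(τ * q)) hτt hτ hy
  rw [hom_eq_eval h.1, hom_eq_eval h.2.1, hq, pow_succ]
  field_simp
  ring

end Pool.Agent.Lib.FourRun
end
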