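import Pool.Agent.Lib.MP_7d55f0_co.FRCard
import Pool.Agent.Lib.MP_7d55f0_co.FRPoly
import Pool.Agent.Lib.MP_7d55f0_co.FRMidB
import Pool.Agent.Lib.MP_7d55f0_co.FRPone
import Pool.Agent.Lib.MP_7d55f0_co.FRQuot

section

set_option autoImplicit false

namespace Pool.Agent.Lib.FourRun

open Polynomial Finset Pool.Agent.Lib.ThreeRun

theorem PTwo_all (a b c : ℕ) :
    PTwo (a + b + c + 2) (a + b + c + 1) (HH (b + 1) a c) (LL b a c) := by
  cases b with
  | zero => exact PTwo_one a c
  | succ b => exact PTwo_mid (by omega) a c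

/-- The polynomial of a four-run fence has no zero in the upper half plane. -/
theorem four_hs (a b c d : ℕ) (h : ℤ[X])
    (hh : PowerSeries.mk (fun m => (N4 a b c d m : ℤ)) *
      (1 - PowerSeries.X) ^ (a + b + c + d + 4) = (h : PowerSeries ℤ)) {t : ℂ} (ht : 0 < t.im) :
    (h.map (Int.castRingHom ℂ)).eval t ≠ 0 := by
  have key := four_poly a b c d h hh
  have swap := KK_swap a b c d
  have e1 : d + c + b + 2 = b + c + d + 2 := by ring
  have e2 : d + c + b + 1 = b + c + d + 1 := by ring
  have P1 := PTwo_all d c b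
  rw [e1, e2] at P1
  have Q1 := PTwo_KK P1 a
  have Q2 := PTwo_KK (PTwo_all a b c) d
  have hB := POne_eval_ne_zero (POne_KK (POne_LL b c d) a) ht
  set A1 := KK (b + c + d + 2) (HH (c + 1) d b) a with hA1
  set B1 := KK (b + c + d + 1) (LL c d b) a with hB1
  set A2 := KK (a + b + c + 2) (HH (b + 1) a c) d with hA2
  set B2 := KK (a + b + c + 1) (LL b a c) d with hB2
  have fa : (a.factorial : ℂ) ≠ 0 := by exact_mod_cast (Nat.factorial_pos a).ne'
  have fd : (d.factorial : ℂ) ≠ 0 := by exact_mod_cast (Nat.factorial_pos d).ne'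
  have s1 := congrArg (fun p : ℤ[X] => (p.map (Int.castRingHom ℂ)).eval t) swap
  have k1 := congrArg (fun p : ℤ[X] => (p.map (Int.castRingHom ℂ)).eval t) key
  simp only [Polynomial.map_mul, Polynomial.map_add, Polynomial.map_sub, Polynomial.map_one,
    map_C, map_X, eval_mul, eval_add, eval_sub, eval_one, eval_C, eval_X, map_mul, map_natCast,
    Int.cast_natCast, eq_intCast, Polynomial.map_natCast, Polynomial.eval_natCast,
    Polynomial.map_intCast, Polynomial.eval_intCast] at s1 k1
  set x1 := (A1.map (Int.castRingHom ℂ)).eval t with hx1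
  set y1 := (B1.map (Int.castRingHom ℂ)).eval t with hy1
  set x2 := (A2.map (Int.castRingHom ℂ)).eval t with hx2
  set y2 := (B2.map (Int.castRingHom ℂ)).eval t with hy2
  have hB2' : y2 ≠ 0 := by
    intro h0
    rw [h0, mul_zero] at s1
    exact mul_ne_zero fd hB s1.symm
  have i1 : 0 ≤ (x1 / y1).im := PTwo_im Q1 ht hB
  have i2 : 0 ≤ (x2 / y2).im := PTwo_im Q2 ht hB2'
  intro h0
  rw [h0, mul_zero] at k1
  have k2 : x1 / y1 + x2 / y2 - (1 - t) = 0 := by
    have k3 : ((d.factorial : ℂ) * y1) * (x1 / y1 + x2 / y2 - (1 - t)) = 0 := by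
      have k4 : ((d.factorial : ℂ) * y1) * (x2 / y2) = (a.factorial : ℂ) * x2 := by
        rw [← s1]
        field_simp
      have k5 : ((d.factorial : ℂ) * y1) * (x1 / y1) = (d.factorial : ℂ) * x1 := by
        field_simp
      rw [mul_sub, mul_add, k4, k5, k1]
      ring
    exact (mul_eq_zero.1 k3).resolve_left (mul_ne_zero fd hB)
  have k6 := congrArg Complex.im k2
  simp only [Complex.sub_im, Complex.add_im, Complex.one_im, Complex.zero_im] at k6
  linarith

theorem four_real_rooted (a b c d : ℕ) (h : ℤ[X])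
    (hh : PowerSeries.mk (fun m => (N4 a b c d m : ℤ)) *
      (1 - PowerSeries.X) ^ (a + b + c + d + 4) = (h : PowerSeries ℤ)) :
    (h.map (Int.castRingHom ℝ)).roots.card = h.natDegree := by
  have h1 : HS ((h.map (Int.castRingHom ℝ)).map Complex.ofRealHom) := by
    intro t ht
    rw [Polynomial.map_map, show Complex.ofRealHom.comp (Int.castRingHom ℝ) = Int.castRingHom ℂ from
      RingHom.ext_int _ _]
    exact four_hs a b c d h hh ht
  rw [roots_card_of_hs h1]
  exact natDegree_map_eq_of_injective (Int.castRingHom ℝ).injective_int _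

/-- Four runs, first step up. -/
theorem four_run_up (N : ℕ) (s : ℕ → Bool) (a b c : ℕ)
    (hs : ∀ i, i < N → s i = if i < a then true else if i < a + b then false else
      if i < a + b + c then true else false)
    (h : Polynomial ℤ)
    (hh : PowerSeries.mk (fun m : ℕ =>
          ((Nat.card {f : Fin (N + 1) → Fin (m + 1) //
              ∀ i : Fin (N + 1), ∀ hi : i.val + 1 < N + 1,
                (s i.val = true → f i ≤ f ⟨i.val + 1, hi⟩) ∧
                (s i.val = false → f ⟨i.val + 1, hi⟩ ≤ f i)} : ℕ) : ℤ))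
        * (1 - PowerSeries.X) ^ (N + 1 + 1) = (↑h : PowerSeries ℤ)) :
    (h.map (Int.castRingHom ℝ)).roots.card = h.natDegree := by
  obtain ⟨a', ha'⟩ : ∃ a', a' = min a N := ⟨_, rfl⟩
  obtain ⟨b', hb'⟩ : ∃ b', b' = min b (N - a') := ⟨_, rfl⟩
  obtain ⟨c', hc'⟩ : ∃ c', c' = min c (N - a' - b') := ⟨_, rfl⟩
  obtain ⟨d', hd'⟩ : ∃ d', d' = N - a' - b' - c' := ⟨_, rfl⟩
  have hN : N = a' + b' + c' + d' := by omega
  have h1 : ∀ i, i < a' → s i = true := by
    intro i hi
    rw [hs i (by omega), if_pos (by omega)]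
  have h2 : ∀ i, a' ≤ i → i < a' + b' → s i = false := by
    intro i hi1 hi2
    rw [hs i (by omega), if_neg (by omega), if_pos (by omega)]
  have h3 : ∀ i, a' + b' ≤ i → i < a' + b' + c' → s i = true := by
    intro i hi1 hi2
    rw [hs i (by omega), if_neg (by omega), if_neg (by omega), if_pos (by omega)]
  have h4 : ∀ i, a' + b' + c' ≤ i → i < a' + b' + c' + d' → s i = false := by
    intro i hi1 hi2
    rw [hs i (by omega), if_neg (by omega), if_neg (by omega), if_neg (by omega)]
  clear ha' hb' hc' hd' hs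
  rcases Nat.eq_zero_or_pos b' with hb0 | hb0
  · subst hb0
    apply three_run_up N s (a' + c') d' _ h hh
    intro i hi
    split_ifs with k1 k2
    · rcases Nat.lt_or_ge i a' with k3 | k3
      · exact h1 i k3
      · exact h3 i (by omega) (by omega)
    · exact h4 i (by omega) (by omega)
    · omega
  rcases Nat.eq_zero_or_pos c' with hc0 | hc0
  · subst hc0
    apply three_run_up N s a' (b' + d') _ h hh
    intro i hi
    split_ifs with k1 k2
    · exact h1 i k1
    · rcases Nat.lt_or_ge i (a' + b') with k3 | k3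
      · exact h2 i (by omega) k3
      · exact h4 i (by omega) (by omega)
    · omega
  obtain ⟨b, rfl⟩ : ∃ b, b' = b + 1 := ⟨b' - 1, by omega⟩
  obtain ⟨c, rfl⟩ : ∃ c, c' = c + 1 := ⟨c' - 1, by omega⟩
  subst hN
  apply four_real_rooted a' b c d' h
  rw [← hh, show a' + b + c + d' + 4 = a' + (b + 1) + (c + 1) + d' + 1 + 1 by ring]
  congr 2
  funext m
  rw [card_four a' b c d' m s h1 h2 h3 h4]

/-- **Fences with at most four runs.** -/
theorem four_run_real_rooted (n : ℕ) (s : ℕ → Bool) (a b c : ℕ) (e : Bool)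
    (hs : ∀ i, i + 1 < n → s i = if i < a then e else if i < a + b then !e else
      if i < a + b + c then e else !e)
    (h : Polynomial ℤ)
    (hh : PowerSeries.mk (fun m : ℕ =>
          ((Nat.card {f : Fin n → Fin (m + 1) //
              ∀ i : Fin n, ∀ hi : i.val + 1 < n,
                (s i.val = true → f i ≤ f ⟨i.val + 1, hi⟩) ∧
                (s i.val = false → f ⟨i.val + 1, hi⟩ ≤ f i)} : ℕ) : ℤ))
        * (1 - PowerSeries.X) ^ (n + 1) = (↑h : PowerSeries ℤ)) :
    (h.map (Int.castRingHom ℝ)).roots.card = h.natDegree := by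
  cases n with
  | zero => exact three_run_real_rooted 0 s a b e (fun i hi => absurd hi (by omega)) h hh
  | succ N =>
    cases e with
    | true =>
      exact four_run_up N s a b c (fun i hi => hs i (by omega)) h hh
    | false =>
      apply four_run_up N (fun i => !(s i)) a b c _ h
      · rw [← hh]
        congr 2
        funext m
        congr 1
        exact (card_compl (N + 1) m s).symm
      · intro i hi
        have h1 := hs i (by omega)
        simp only [h1]
        split_ifs <;> rfl

end Pool.Agent.Lib.FourRun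
end
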