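import Pool.Agent.Lib.MP_7d55f0_co.FRDefs

section

set_option autoImplicit false

namespace Pool.Agent.Lib.FourRun

open Polynomial Finset Pool.Agent.Lib.ThreeRun

/-- `hom` is the homogenization (`A.natDegree ≤ N`, `γ ≠ 0`); `eval_eq_sum_range'`. -/
theorem hom_eq_eval {N : ℕ} {A : ℤ[X]} (hA : A.natDegree ≤ N) (γ t : ℂ) :
    hom N A (γ * t) γ = γ ^ N * (A.map (Int.castRingHom ℂ)).eval t := by
  have h1 : (A.map (Int.castRingHom ℂ)).natDegree < N + 1 :=
    Nat.lt_succ_of_le (natDegree_map_le.trans hA)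
  rw [eval_eq_sum_range' h1]
  unfold hom
  rw [Finset.mul_sum]
  refine Finset.sum_congr rfl fun k hk => ?_
  rw [Finset.mem_range] at hk
  have h2 : γ ^ N = γ ^ k * γ ^ (N - k) := by
    rw [← pow_add]
    congr 1
    omega
  rw [coeff_map, h2, mul_pow]
  simp only [eq_intCast]
  ring

private theorem fr_AA_deg_b (b p a : ℕ) : (AA b p a).natDegree ≤ b := by
  rw [natDegree_le_iff_coeff_eq_zero]
  intro j hj
  rw [AA_coeff, Nat.choose_eq_zero_of_lt (show b < j from hj)]
  simp

private theorem fr_AA_deg_a (b p a : ℕ) : (AA b p a).natDegree ≤ a - p := by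
  rw [natDegree_le_iff_coeff_eq_zero]
  intro j hj
  rw [AA_coeff, Nat.choose_eq_zero_of_lt (show a < p + j by omega)]
  simp

private theorem fr_term_deg (x : ℤ) (b b' p a c : ℕ) (hp : p ≤ a) :
    (C x * X ^ p * AA b p a * AA b' p c).natDegree ≤ a + b' := by
  refine natDegree_mul_le.trans ?_
  have h1 : (C x * X ^ p * AA b p a).natDegree ≤ a := by
    refine natDegree_mul_le.trans ?_
    have h2 : (C x * X ^ p : ℤ[X]).natDegree ≤ p := natDegree_C_mul_X_pow_le x p
    have h3 := fr_AA_deg_a b p a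
    omega
  have h4 := fr_AA_deg_b b' p c
  omega

theorem HH_natDegree (b a c : ℕ) : (HH b a c).natDegree ≤ a + b + c := by
  unfold HH HK
  refine natDegree_sum_le_of_forall_le _ _ fun p hp => ?_
  rw [Finset.mem_range] at hp
  have h1 := fr_term_deg (Nat.multichoose b p : ℤ) b b p a c (by omega)
  omega

theorem LL_natDegree (b a c : ℕ) : (LL b a c).natDegree ≤ a + b + c + 1 := by
  unfold LL
  refine natDegree_sum_le_of_forall_le _ _ fun p hp => ?_
  rw [Finset.mem_range] at hp
  have h1 := fr_term_deg (Nat.multichoose (b + 1) p : ℤ) (b + 1) b p a c (by omega)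
  omega

/-- Like `HH_eval`, with `AA_eval`. -/
theorem LL_eval (b a c : ℕ) (t : ℂ) :
    ((LL b a c).map (Int.castRingHom ℂ)).eval t =
      ∑ p ∈ Finset.range (a + 1),
        (Nat.multichoose (b + 1) p : ℂ) * t ^ p * AC (b + 1) p a t * AC b p c t := by
  unfold LL
  rw [Polynomial.map_sum, eval_finsetSum]
  refine Finset.sum_congr rfl fun p _ => ?_
  rw [Polynomial.map_mul, Polynomial.map_mul, Polynomial.map_mul, map_C, Polynomial.map_pow, map_X,
    eval_mul, eval_mul, eval_mul, eval_C, eval_pow, eval_X, AA_eval, AA_eval]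
  simp

/-- `es (w :: l) (j+1) = es l (j+1) + w * es l j`. -/
theorem es_cons (w : ℂ) (l : List ℂ) (j : ℕ) : es (w :: l) (j + 1) = es l (j + 1) + w * es l j := by
  unfold es
  rw [List.map_cons, List.prod_cons, add_mul, one_mul, coeff_add, mul_assoc, coeff_C_mul,
    coeff_X_mul]

/-- Middle run at least two. `α = γ t`. Apply `mid2` (with its `b` equal to `b+1`) to
`W = replicate a γ ++ replicate (b+1) (γ t)` and `V = (γ + y) :: (replicate b γ ++ replicate c (γ t))`:
`es W (a-k) = γ^(a-k) AC (b+1) k a t` (`es_W`), and by `es_cons` (twice, the second time for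
`γ :: (replicate b γ ++ _) = replicate (b+1) γ ++ _`)
`es V (b+1+k) = es (replicate (b+1) γ ++ replicate c (γ t)) (b+1+k) + y * es (replicate b γ ++ replicate c (γ t)) (b+k)`
`= γ^(b+1+k) t^k AC (b+1) k c t + y γ^(b+k) t^k AC b k c t` (`es_V`). So the sum of `mid2` is
`γ^(a+b+1) HH(t) + y γ^(a+b) LL(t)`, and multiplied with `γ^(c+1)` it is `hom + y hom`. -/
theorem PTwo_mid {b : ℕ} (hb : 1 ≤ b) (a c : ℕ) :
    PTwo (a + b + c + 2) (a + b + c + 1) (HH (b + 1) a c) (LL b a c) := by
  have hA : (HH (b + 1) a c).natDegree ≤ a + b + c + 2 := by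
    have := HH_natDegree (b + 1) a c
    omega
  have hB : (LL b a c).natDegree ≤ a + b + c + 1 := LL_natDegree b a c
  refine ⟨hA, hB, ?_⟩
  intro α γ y hα hγ hy
  have hγ0 : γ ≠ 0 := by
    rintro rfl
    simp at hγ
  obtain ⟨t, rfl⟩ : ∃ t : ℂ, α = γ * t := ⟨α / γ, by field_simp⟩
  rw [hom_eq_eval hA, hom_eq_eval hB, HH_eval, LL_eval]
  have h3 := mid2 (a := a) (b := b + 1) (c := c) (by omega)
    (W := List.replicate a γ ++ List.replicate (b + 1) (γ * t))
    (V := (γ + y) :: (List.replicate b γ ++ List.replicate c (γ * t))) (by simp)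
    (by simp; ring)
    (by
      intro w hw
      rw [List.mem_append, List.mem_replicate, List.mem_replicate] at hw
      rcases hw with ⟨-, rfl⟩ | ⟨-, rfl⟩
      · exact hγ
      · exact hα)
    (by
      intro w hw
      rw [List.mem_cons, List.mem_append, List.mem_replicate, List.mem_replicate] at hw
      rcases hw with rfl | ⟨-, rfl⟩ | ⟨-, rfl⟩
      · rw [Complex.add_im]
        exact add_pos hγ hy
      · exact hγ
      · exact hα)
  have hV : ∀ k : ℕ, es ((γ + y) :: (List.replicate b γ ++ List.replicate c (γ * t))) (b + 1 + k) =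
      γ ^ (b + 1 + k) * t ^ k * AC (b + 1) k c t + y * (γ ^ (b + k) * t ^ k * AC b k c t) := by
    intro k
    have e1 : es (γ :: (List.replicate b γ ++ List.replicate c (γ * t))) (b + k + 1) =
        γ ^ (b + 1 + k) * t ^ k * AC (b + 1) k c t := by
      rw [← es_V (b := b + 1) (c := c) (k := k) γ t, List.replicate_succ, List.cons_append,
        show b + 1 + k = b + k + 1 by ring]
    have e2 : es (List.replicate b γ ++ List.replicate c (γ * t)) (b + k) =
        γ ^ (b + k) * t ^ k * AC b k c t := es_V γ t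
    rw [es_cons] at e1
    rw [show b + 1 + k = b + k + 1 by ring, es_cons, add_mul, ← add_assoc, e1, e2,
      show b + 1 + k = b + k + 1 by ring]
  have e1 : ∑ k ∈ Finset.range (a + 1), (Nat.multichoose (b + 1) k : ℂ) *
      es (List.replicate a γ ++ List.replicate (b + 1) (γ * t)) (a - k) *
      es ((γ + y) :: (List.replicate b γ ++ List.replicate c (γ * t))) (b + 1 + k) =
      γ ^ (a + b + 1) * (∑ p ∈ Finset.range (a + 1),
        (Nat.multichoose (b + 1) p : ℂ) * t ^ p * AC (b + 1) p a t * AC (b + 1) p c t) +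
      y * (γ ^ (a + b) * ∑ p ∈ Finset.range (a + 1),
        (Nat.multichoose (b + 1) p : ℂ) * t ^ p * AC (b + 1) p a t * AC b p c t) := by
    rw [Finset.mul_sum, Finset.mul_sum, Finset.mul_sum, ← Finset.sum_add_distrib]
    refine Finset.sum_congr rfl fun k hk => ?_
    rw [Finset.mem_range] at hk
    rw [es_W (by omega), hV]
    have h4 : γ ^ (a + b + 1) = γ ^ (a - k) * γ ^ (b + 1 + k) := by
      rw [← pow_add]
      congr 1
      omega
    have h5 : γ ^ (a + b) = γ ^ (a - k) * γ ^ (b + k) := by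
      rw [← pow_add]
      congr 1
      omega
    rw [h4, h5]
    ring
  intro hcon
  apply h3
  rw [e1]
  have h6 : γ ^ (c + 1) * (γ ^ (a + b + 1) * (∑ p ∈ Finset.range (a + 1),
        (Nat.multichoose (b + 1) p : ℂ) * t ^ p * AC (b + 1) p a t * AC (b + 1) p c t) +
      y * (γ ^ (a + b) * ∑ p ∈ Finset.range (a + 1),
        (Nat.multichoose (b + 1) p : ℂ) * t ^ p * AC (b + 1) p a t * AC b p c t)) = 0 := by
    rw [← hcon, show a + b + c + 2 = (c + 1) + (a + b + 1) by ring,
      show a + b + c + 1 = (c + 1) + (a + b) by ring, pow_add γ (c + 1) (a + b + 1),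
      pow_add γ (c + 1) (a + b)]
    ring
  rcases mul_eq_zero.1 h6 with h7 | h7
  · exact absurd h7 (pow_ne_zero _ hγ0)
  · exact h7

end Pool.Agent.Lib.FourRun
end
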