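import Pool.Agent.Lib.MP_7d55f0_co.FRMidA

section

set_option autoImplicit false

namespace Pool.Agent.Lib.FourRun

open Polynomial Finset Pool.Agent.Lib.ThreeRun

/-- The conjugate of `mul_ne_zero_of_hs` (apply it to `f.map (starRingEnd ℂ)` and `conj t`). -/
theorem mul_ne_zero_of_hsm (M : ℕ) {f : ℂ[X]} (hf : HSm f) (hex : ∃ i ≤ M, f.coeff i ≠ 0) {t : ℂ}
    (ht : t.im < 0) :
    ∑ i ∈ Finset.range (M + 1), f.coeff i * (M.descFactorial i : ℂ) * t ^ i ≠ 0 := by
  have hg : HS (f.map (starRingEnd ℂ)) := by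
    intro z hz
    have h1 := hf ((starRingEnd ℂ) z) (by rw [Complex.conj_im]; linarith)
    have h2 : (f.map (starRingEnd ℂ)).eval z = starRingEnd ℂ (f.eval (starRingEnd ℂ z)) := by
      conv_lhs => rw [← Complex.conj_conj z]
      rw [eval_map, eval₂_hom]
    rw [h2]
    intro hcon
    apply h1
    exact (map_eq_zero _).1 hcon
  have h3 := mul_ne_zero_of_hs M hg (by
    obtain ⟨i, hi, hi'⟩ := hex
    refine ⟨i, hi, ?_⟩
    rw [coeff_map]
    intro hcon
    exact hi' ((map_eq_zero _).1 hcon)) (t := starRingEnd ℂ t)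
    (by rw [Complex.conj_im]; linarith)
  intro hcon
  apply h3
  have h4 := congrArg (starRingEnd ℂ) hcon
  rw [map_zero, map_sum] at h4
  rw [← h4]
  refine Finset.sum_congr rfl fun i _ => ?_
  rw [coeff_map, map_mul, map_mul, map_pow, map_natCast]

/-- Partial fractions of a real rational function with simple real poles, at any point which is
not a pole. -/
private theorem fr_mix_pf (S : Finset ℝ) (g : ℝ[X]) (hg : g.degree < S.card) {z : ℂ}
    (hne : ∀ r ∈ S, z ≠ (r : ℂ)) :
    (g.map Complex.ofRealHom).eval z =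
      ((Lagrange.nodal S (id : ℝ → ℝ)).map Complex.ofRealHom).eval z *
        ∑ r ∈ S, (((g.eval r / (derivative (Lagrange.nodal S (id : ℝ → ℝ))).eval r : ℝ) : ℂ) *
          (1 / (z - r))) := by
  have hinj : Set.InjOn (fun r : ℝ => (r : ℂ)) S := fun x _ y _ hxy => Complex.ofReal_injective hxy
  have hnod : (Lagrange.nodal S (id : ℝ → ℝ)).map Complex.ofRealHom =
      Lagrange.nodal S (fun r : ℝ => (r : ℂ)) := by
    rw [Lagrange.nodal_eq, Lagrange.nodal_eq, Polynomial.map_prod]
    refine Finset.prod_congr rfl fun r _ => ?_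
    simp
  have hev : ∀ (p : ℝ[X]) (r : ℝ), (p.map Complex.ofRealHom).eval (r : ℂ) = ((p.eval r : ℝ) : ℂ) := by
    intro p r
    rw [show (r : ℂ) = Complex.ofRealHom r from rfl, eval_map, eval₂_hom]
    rfl
  have h1 : g.map Complex.ofRealHom = Lagrange.interpolate S (fun r : ℝ => (r : ℂ))
      (fun r => ((g.eval r : ℝ) : ℂ)) := by
    apply Lagrange.eq_interpolate_of_eval_eq _ hinj
    · rwa [degree_map]
    · intro r _
      exact hev g r
  rw [h1, Lagrange.eval_interpolate_not_at_node _ hne, hnod]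
  congr 1
  refine Finset.sum_congr rfl fun r hr => ?_
  rw [Lagrange.nodalWeight_eq_eval_derivative_nodal hr, ← hnod, derivative_map, hev]
  push_cast
  rw [one_div, div_eq_mul_inv]
  ring

/-- `L_M` and `L_M' - 1`: for `x` in the lower half plane and `α`, `c₀` in the upper half plane
`c₀ L_M(α x) + α (L_M'(α x) - 1) ≠ 0`. The roots `-r` of `L_M` are negative (`lg_root_neg`) and simple
(`lg_nodup`), so `L_M(α x) ≠ 0` (else `x = -r/α` is in the upper half plane), and by `partial_fractions`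
(as in `il`) `(L_M' - 1)/L_M (z) = ∑ κ_r / (z + r)` with `κ_r = (L_M'(-r) - 1)/L_M'(-r) ≥ 0` since
`|L_M'(-r)| ≥ 1` (`lg_one_sq`, `derivative_lg`). Now
`(c₀ L_M + α (L_M' - 1))/L_M = c₀ + ∑ κ_r / (x + r/α)` and `x + r/α` is in the lower half plane. -/
theorem lg_mix_ne_zero {M : ℕ} (hM : 1 ≤ M) {x α c₀ : ℂ} (hx : x.im < 0) (hα : 0 < α.im)
    (hc : 0 < c₀.im) :
    c₀ * ((lg M 0).map Complex.ofRealHom).eval (α * x) +
      α * (((lg M 1).map Complex.ofRealHom).eval (α * x) - 1) ≠ 0 := by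
  classical
  obtain ⟨f, hf⟩ : ∃ f, f = lg M 0 := ⟨_, rfl⟩
  obtain ⟨g, hg⟩ : ∃ g, g = lg M 1 - 1 := ⟨_, rfl⟩
  obtain ⟨S, hS⟩ : ∃ S, S = f.roots.toFinset := ⟨_, rfl⟩
  obtain ⟨a, ha⟩ : ∃ a, a = f.leadingCoeff := ⟨_, rfl⟩
  have hf0 : f ≠ 0 := by
    rw [hf]
    exact lg_ne_zero (Nat.zero_le M)
  have hroots : f.roots.card = f.natDegree := by
    rw [hf]
    exact lg_card (Nat.zero_le M)
  have hnd : f.roots.Nodup := by
    rw [hf]
    exact lg_nodup (Nat.zero_le M)
  have ha0 : a ≠ 0 := by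
    rw [ha]
    exact leadingCoeff_ne_zero.2 hf0
  have hcard : S.card = f.natDegree := by
    rw [hS, Multiset.toFinset_card_of_nodup hnd, hroots]
  have hfN : f = C a * Lagrange.nodal S (id : ℝ → ℝ) := by
    conv_lhs => rw [← C_leadingCoeff_mul_prod_multiset_X_sub_C hroots]
    rw [Lagrange.nodal_eq, Finset.prod_eq_multiset_prod, hS, Multiset.toFinset_val,
      Multiset.dedup_eq_self.2 hnd, ha]
    rfl
  have hα0 : α ≠ 0 := by
    rintro rfl
    simp at hα
  have hroot : ∀ r ∈ S, r ∈ (lg M 0).roots := by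
    intro r hr
    rw [hS, hf] at hr
    exact Multiset.mem_toFinset.1 hr
  have hneg : ∀ r ∈ S, r < 0 := fun r hr => lg_root_neg (Nat.zero_le M) (hroot r hr)
  have himr : ∀ r ∈ S, (x - r / α).im < 0 := by
    intro r hr
    have h1 := inv_im_neg hα
    have h2 : ((r : ℂ) / α).im = r * (1 / α).im := by
      rw [← mul_one_div, Complex.im_ofReal_mul]
    rw [Complex.sub_im, h2]
    have := mul_pos_of_neg_of_neg (hneg r hr) h1
    linarith
  have hne : ∀ r ∈ S, α * x ≠ (r : ℂ) := by
    intro r hr h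
    have h1 : x - r / α = 0 := by
      rw [← h]
      field_simp
      ring
    have h2 := himr r hr
    rw [h1] at h2
    simp at h2
  have hgd : g.degree < S.card := by
    have h1 : g.natDegree ≤ M - 1 := by
      rw [hg]
      refine (natDegree_sub_le _ _).trans ?_
      rw [lg_natDegree hM, natDegree_one]
      omega
    have h2 : S.card = M := by
      rw [hcard, hf, lg_natDegree (Nat.zero_le M), Nat.sub_zero]
    rw [h2]
    refine lt_of_le_of_lt degree_le_natDegree ?_
    have h3 : g.natDegree < M := by omega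
    exact_mod_cast h3
  have hpf := fr_mix_pf S g hgd hne
  have hder : ∀ r : ℝ, (derivative f).eval r =
      a * (derivative (Lagrange.nodal S (id : ℝ → ℝ))).eval r := by
    intro r
    conv_lhs => rw [hfN]
    rw [derivative_C_mul, eval_mul, eval_C]
  have hNz : ((Lagrange.nodal S (id : ℝ → ℝ)).map Complex.ofRealHom).eval (α * x) ≠ 0 := by
    rw [Lagrange.nodal_eq, Polynomial.map_prod, eval_prod]
    apply Finset.prod_ne_zero_iff.2
    intro r hr
    simp only [Polynomial.map_sub, map_X, map_C, eval_sub, eval_X, eval_C, id_eq,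
      Complex.ofRealHom_eq_coe]
    exact sub_ne_zero.2 (hne r hr)
  have hfz : (f.map Complex.ofRealHom).eval (α * x) =
      a * ((Lagrange.nodal S (id : ℝ → ℝ)).map Complex.ofRealHom).eval (α * x) := by
    conv_lhs => rw [hfN]
    rw [Polynomial.map_mul, eval_mul, map_C, eval_C, Complex.ofRealHom_eq_coe]
  have hgm : ((lg M 1).map Complex.ofRealHom).eval (α * x) - 1 =
      (g.map Complex.ofRealHom).eval (α * x) := by
    rw [hg, Polynomial.map_sub, Polynomial.map_one, eval_sub, eval_one]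
  have ha0c : (a : ℂ) ≠ 0 := by exact_mod_cast ha0
  rw [hgm, ← hf, hfz, hpf]
  have hsum : α * ∑ r ∈ S, (((g.eval r /
      (derivative (Lagrange.nodal S (id : ℝ → ℝ))).eval r : ℝ) : ℂ) * (1 / (α * x - r))) =
      a * ∑ r ∈ S, (((g.eval r / (derivative f).eval r : ℝ) : ℂ) * (1 / (x - r / α))) := by
    rw [Finset.mul_sum, Finset.mul_sum]
    refine Finset.sum_congr rfl fun r hr => ?_
    have h1 : α * x - r ≠ 0 := sub_ne_zero.2 (hne r hr)
    have h2 : x - r / α ≠ 0 := by
      intro h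
      have h2 := himr r hr
      rw [h] at h2
      simp at h2
    have h3 : 1 / (x - r / α) = α * (1 / (α * x - r)) := by
      rw [mul_one_div, div_eq_div_iff h2 h1]
      field_simp
    have h4 : ((g.eval r / (derivative f).eval r : ℝ) : ℂ) =
        (a : ℂ)⁻¹ * ((g.eval r / (derivative (Lagrange.nodal S (id : ℝ → ℝ))).eval r : ℝ) : ℂ) := by
      rw [hder r]
      push_cast
      rw [div_mul_eq_div_div, div_right_comm, div_eq_mul_inv _ (a : ℂ), mul_comm]
    rw [h3, h4]
    field_simp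
  have htot : c₀ * (a * ((Lagrange.nodal S (id : ℝ → ℝ)).map Complex.ofRealHom).eval (α * x)) +
      α * (((Lagrange.nodal S (id : ℝ → ℝ)).map Complex.ofRealHom).eval (α * x) *
        ∑ r ∈ S, (((g.eval r / (derivative (Lagrange.nodal S (id : ℝ → ℝ))).eval r : ℝ) : ℂ) *
          (1 / (α * x - r)))) =
      a * ((Lagrange.nodal S (id : ℝ → ℝ)).map Complex.ofRealHom).eval (α * x) *
        (c₀ + ∑ r ∈ S, (((g.eval r / (derivative f).eval r : ℝ) : ℂ) * (1 / (x - r / α)))) := by
    linear_combination (((Lagrange.nodal S (id : ℝ → ℝ)).map Complex.ofRealHom).eval (α * x)) * hsum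
  rw [htot]
  refine mul_ne_zero (mul_ne_zero ha0c hNz) ?_
  intro hcon
  have h1 := congrArg Complex.im hcon
  rw [Complex.add_im, Complex.im_sum, Complex.zero_im] at h1
  have h2 : 0 ≤ ∑ r ∈ S, (((g.eval r / (derivative f).eval r : ℝ) : ℂ) *
      (1 / (x - r / α))).im := by
    refine Finset.sum_nonneg fun r hr => ?_
    rw [Complex.im_ofReal_mul]
    have h3 := inv_im_pos (himr r hr)
    refine mul_nonneg ?_ h3.le
    have h4 : (lg M 0).eval r = 0 := isRoot_of_mem_roots (hroot r hr)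
    have h5 := lg_one_sq hM h4
    have h6 : (derivative f).eval r = (lg M 1).eval r := by
      rw [hf, derivative_lg]
    have h7 : g.eval r = (lg M 1).eval r - 1 := by
      rw [hg, eval_sub, eval_one]
    rw [h6, h7]
    have h8 : (lg M 1).eval r ≠ 0 := by
      intro h
      rw [h] at h5
      norm_num at h5
    have h9 : ((lg M 1).eval r - 1) / (lg M 1).eval r =
        ((lg M 1).eval r ^ 2 - (lg M 1).eval r) / (lg M 1).eval r ^ 2 := by
      field_simp
    rw [h9]
    refine div_nonneg ?_ (sq_nonneg _)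
    nlinarith [sq_nonneg ((lg M 1).eval r - 1), sq_nonneg ((lg M 1).eval r + 1)]
  linarith

/-- Apply `mul_ne_zero_of_hsm a` to `f = C c₀ * (lg M 0)(α X) + C α * ((lg M 1)(α X) - 1)` (`comp (C α * X)`)
and `t = 1/γ`; the coefficients are `f_i = (c₀ C(M,i) + α C(M,i+1)) α^i / i! - [i=0] α`, and
`a.descFactorial i = i! C(a,i)` (`descFactorial_cast`). `f_0 = c₀ + α (M - 1) ≠ 0`. -/
theorem b1_mix_ne_zero (a : ℕ) {M : ℕ} (hM : 1 ≤ M) {α γ c₀ : ℂ} (hα : 0 < α.im) (hγ : 0 < γ.im)
    (hc : 0 < c₀.im) :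
    c₀ * ∑ i ∈ Finset.range (a + 1), (a.choose i : ℂ) * (M.choose i : ℂ) * (α / γ) ^ i +
      α * (∑ i ∈ Finset.range (a + 1), (a.choose i : ℂ) * (M.choose (i + 1) : ℂ) * (α / γ) ^ i - 1)
        ≠ 0 := by
  obtain ⟨f, hf⟩ : ∃ f : ℂ[X], f = C c₀ * ((lg M 0).map Complex.ofRealHom).comp (C α * X) +
      C α * (((lg M 1).map Complex.ofRealHom).comp (C α * X) - 1) := ⟨_, rfl⟩
  have hfS : HSm f := by
    intro z hz
    rw [hf, eval_add, eval_mul, eval_mul, eval_C, eval_C, eval_sub, eval_one, eval_comp, eval_comp,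
      eval_mul, eval_C, eval_X]
    exact lg_mix_ne_zero hM hz hα hc
  have hco : ∀ i, f.coeff i = c₀ * ((M.choose i : ℂ) / (i.factorial : ℂ) * α ^ i) +
      α * ((M.choose (i + 1) : ℂ) / (i.factorial : ℂ) * α ^ i - (if i = 0 then 1 else 0)) := by
    intro i
    rw [hf, coeff_add, coeff_C_mul, coeff_C_mul, coeff_sub, comp_C_mul_X_coeff,
      comp_C_mul_X_coeff, coeff_map, coeff_map, lg_coeff, lg_coeff, coeff_one, add_zero]
    simp
  have h1 := mul_ne_zero_of_hsm a hfS ⟨0, Nat.zero_le a, by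
    rw [hco 0]
    intro h
    have h2 := congrArg Complex.im h
    simp at h2
    have h3 : (1 : ℝ) ≤ M := by exact_mod_cast hM
    nlinarith⟩ (t := 1 / γ) (inv_im_neg hγ)
  intro hcon
  apply h1
  rw [← hcon]
  have h8 : ∀ i ∈ Finset.range (a + 1), f.coeff i * (a.descFactorial i : ℂ) * (1 / γ) ^ i =
        c₀ * ((a.choose i : ℂ) * (M.choose i : ℂ) * (α / γ) ^ i) +
          α * ((a.choose i : ℂ) * (M.choose (i + 1) : ℂ) * (α / γ) ^ i) -
            (if i = 0 then α else 0) := by
    intro i _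
    have h9 : (i.factorial : ℂ) ≠ 0 := by exact_mod_cast (Nat.factorial_pos i).ne'
    have h10 : (α / γ) ^ i = α ^ i * (1 / γ) ^ i := by
      rw [← mul_pow, mul_one_div]
    rw [hco i, descFactorial_cast, h10]
    split_ifs with h
    · subst h
      simp
      ring
    · field_simp
      ring
  rw [Finset.sum_congr rfl h8, Finset.sum_sub_distrib, Finset.sum_add_distrib, ← Finset.mul_sum,
    ← Finset.mul_sum, Finset.sum_ite_eq', if_pos (by simp)]
  ring

end Pool.Agent.Lib.FourRun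
end
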