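import Pool.Agent.Lib.MP_7d55f0_co.FRSum

section

set_option autoImplicit false

namespace Pool.Agent.Lib.FourRun

open Polynomial Finset Pool.Agent.Lib.ThreeRun

theorem N4_zero (a b c d : ℕ) : N4 a b c d 0 = 1 := by
  unfold N4
  rw [zero_add, Finset.sum_range_one, dn_iter_zero]
  unfold psi
  simp

private theorem frrec_dn_mul (t b : ℕ) (φ : ℕ → ℕ) (v : ℕ) :
    dn^[b] (fun w => t * φ w) v = t * dn^[b] φ v := by
  induction b generalizing φ with
  | zero => rfl
  | succ b ih =>
    rw [Function.iterate_succ_apply, Function.iterate_succ_apply, ← ih]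
    refine dn_iter_congr _ _ _ _ fun w _ => ?_
    unfold dn
    rw [Finset.mul_sum]

/-- one more letter: for `v ≤ m+1`, split off the last term `x = m+1-v` of the sum. -/
theorem psi_succ (c d m v : ℕ) (hv : v ≤ m + 1) :
    psi c d (m + 1) v = psi c d m v + (m + 1 + d).choose d * (m + 1 - v + c).choose c := by
  unfold psi
  rw [show m + 1 + 1 - v = (m + 1 - v) + 1 by omega, Finset.sum_range_succ,
    show v + (m + 1 - v) + d = m + 1 + d by omega, mul_comm ((m + 1 - v + c).choose c)]

/-- reversed three-run count: both sides are sums over pairs `i ≤ v ≤ M` resp. (reflect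
`v ↦ M - v`, `i ↦ M - i`), using `dn_iter_sum` on the left and the definition of `psi` on the right. -/
theorem NN_eq_psi (b c d M : ℕ) :
    NN (c + 1) b d M = ∑ v ∈ range (M + 1), (M - v + b).choose b * psi c d M v := by
  unfold NN
  rw [← Finset.sum_range_reflect]
  refine Finset.sum_congr rfl fun v hv => ?_
  have hvM : v ≤ M := Nat.lt_succ_iff.1 (Finset.mem_range.1 hv)
  rw [show M + 1 - 1 - v = M - v by omega, dn_iter_sum]
  congr 1
  unfold psi
  rw [← Finset.sum_range_reflect, show M - v + 1 = M + 1 - v by omega]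
  refine Finset.sum_congr rfl fun x hx => ?_
  have hxM : x < M + 1 - v := Finset.mem_range.1 hx
  rw [show M - v - (M + 1 - v - 1 - x) = x by omega,
    show M - (M + 1 - v - 1 - x) = v + x by omega]

/-- Inclusion-exclusion over the peaks that have the maximal letter. Proof: by `psi_succ`,
`dn_iter_congr`, linearity of `dn` (`dn_iter_add`, and `dn^[k] (t * φ) = t * dn^[k] φ`), for
`j ≤ m+1`: `dn^[b+1] (psi c d (m+1)) j = dn^[b+1] (psi c d m) j + C(m+1+d,d) dn^[b+1] (C(m+1-v+c,c)) j`.
The second part gives `C(m+1+d,d) NN (b+1) a c (m+1)`, the first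
`N4 a b c d m + C(m+1+a,a) D` with `D = dn^[b+1] (psi c d m) (m+1) = ∑_{i ≤ m+1} C(m+1-i+b,b) psi c d m i`
(`dn_iter_sum`), and `D + C(m+1+d,d) NN c b 0 (m+1) = NN (c+1) b d (m+1)` by `NN_eq_psi`, `psi_succ` and
`NN_right_zero'`. -/
theorem N4_rec (a b c d m : ℕ) :
    N4 a b c d (m + 1) + (m + 1 + a).choose a * (m + 1 + d).choose d * NN c b 0 (m + 1) =
      N4 a b c d m + (m + 1 + a).choose a * NN (c + 1) b d (m + 1) +
        (m + 1 + d).choose d * NN (b + 1) a c (m + 1) := by
  have key : ∀ j, j ≤ m + 1 → dn^[b + 1] (psi c d (m + 1)) j =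
      dn^[b + 1] (psi c d m) j +
        (m + 1 + d).choose d * dn^[b + 1] (fun v => (m + 1 - v + c).choose c) j := by
    intro j hj
    rw [← frrec_dn_mul, ← dn_iter_add]
    exact dn_iter_congr _ _ _ _ fun i hi => psi_succ c d m i (hi.trans hj)
  have h1 : N4 a b c d (m + 1) = (N4 a b c d m + (m + 1 + a).choose a *
      dn^[b + 1] (psi c d m) (m + 1)) + (m + 1 + d).choose d * NN (b + 1) a c (m + 1) := by
    unfold N4 NN
    rw [← Finset.sum_range_succ (fun j => (j + a).choose a * dn^[b + 1] (psi c d m) j),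
      Finset.mul_sum, ← Finset.sum_add_distrib]
    refine Finset.sum_congr rfl fun j hj => ?_
    rw [key j (Nat.lt_succ_iff.1 (Finset.mem_range.1 hj))]
    ring
  have h2 : dn^[b + 1] (psi c d m) (m + 1) + (m + 1 + d).choose d * NN c b 0 (m + 1) =
      NN (c + 1) b d (m + 1) := by
    rw [NN_eq_psi, dn_iter_sum, NN_right_zero', Finset.mul_sum, ← Finset.sum_add_distrib]
    refine Finset.sum_congr rfl fun i hi => ?_
    rw [psi_succ c d m i (Nat.lt_succ_iff.1 (Finset.mem_range.1 hi))]
    ring
  rw [h1, ← h2]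
  ring

end Pool.Agent.Lib.FourRun
end
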