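import Pool.Agent.Lib.MP_7d55f0_co.FRSum

section

set_option autoImplicit false

namespace Pool.Agent.Lib.FourRun

open Polynomial Finset Pool.Agent.Lib.ThreeRun

private theorem frRecB_key (b c M : ℕ) :
    NN b c 0 M = dn^[b + 1] (fun v' => (M - v' + c).choose c) M := by
  rw [NN_right_zero', dn_iter_sum]
  exact Finset.sum_congr rfl fun i _ => mul_comm _ _

/-- Proof: `NN (b+1) a (c+1) (m+1) = ∑_{v ≤ m+1} C(v+a,a) ∑_{i ≤ v} C(v-i+b,b) C(m+1-i+c+1,c+1)`
(`dn_iter_sum`) and `C(m+1-i+c+1,c+1) = C(m+1-i+c,c) + C(m+1-i+c,c+1)` (`phi_split`). The first part is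
`NN (b+1) a c (m+1)`. In the second part the terms `v ≤ m` give `NN (b+1) a (c+1) m`
(for `i ≤ v ≤ m` we have `m+1-i+c = m-i+(c+1)`), and `v = m+1` gives
`C(m+1+a,a) ∑_{i ≤ m+1} C(m+1-i+b,b) C(m+1-i+c,c+1)`; adding
`C(m+1+a,a) NN b c 0 (m+1) = C(m+1+a,a) ∑_{i ≤ m+1} C(m+1-i+b,b) C(m+1-i+c,c)` (`NN_right_zero'`) gives
`C(m+1+a,a) NN b (c+1) 0 (m+1)`. -/
theorem NN_rec_c (a b c m : ℕ) :
    NN (b + 1) a (c + 1) (m + 1) + (m + 1 + a).choose a * NN b c 0 (m + 1) =
      NN (b + 1) a (c + 1) m + NN (b + 1) a c (m + 1) +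
        (m + 1 + a).choose a * NN b (c + 1) 0 (m + 1) := by
  have h1 : NN b (c + 1) 0 (m + 1) = NN b c 0 (m + 1) +
      dn^[b + 1] (fun v' => (m + 1 - v' + c).choose (c + 1)) (m + 1) := by
    rw [frRecB_key, frRecB_key, phi_split, dn_iter_add]
  have h2 : NN (b + 1) a (c + 1) (m + 1) = NN (b + 1) a c (m + 1) +
      (NN (b + 1) a (c + 1) m +
        (m + 1 + a).choose a * dn^[b + 1] (fun v' => (m + 1 - v' + c).choose (c + 1)) (m + 1)) := by
    have h3 : NN (b + 1) a (c + 1) (m + 1) = NN (b + 1) a c (m + 1) +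
        ∑ v ∈ range (m + 1 + 1), (v + a).choose a *
          dn^[b + 1] (fun v' => (m + 1 - v' + c).choose (c + 1)) v := by
      unfold NN
      rw [← Finset.sum_add_distrib]
      refine Finset.sum_congr rfl fun v _ => ?_
      rw [phi_split, dn_iter_add]
      ring
    rw [h3, Finset.sum_range_succ]
    congr 2
    unfold NN
    refine Finset.sum_congr rfl fun v hv => ?_
    rw [Finset.mem_range] at hv
    congr 1
    apply dn_iter_congr
    intro i hi
    rw [show m + 1 - i + c = m - i + (c + 1) by omega]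
  rw [h2, h1]
  ring

/-- Same for `c = -1`: only the term `v = m+1` is new, `dn^[b+1] 1 (m+1) = ∑_{i ≤ m+1} dn^[b] 1 i`. -/
theorem NN_rec_zero (a b m : ℕ) :
    NN (b + 1) a 0 (m + 1) = NN (b + 1) a 0 m + (m + 1 + a).choose a * NN b 0 0 (m + 1) := by
  rw [frRecB_key b 0 (m + 1)]
  unfold NN
  rw [Finset.sum_range_succ]
  simp only [Nat.choose_zero_right]

end Pool.Agent.Lib.FourRun
end
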