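import Pool.Agent.Lib.MP_7d55f0_co.FRDefs

section

set_option autoImplicit false

namespace Pool.Agent.Lib.FourRun

open Polynomial Finset Pool.Agent.Lib.ThreeRun

/-- Iterated partial sums. Proof: induction on `b` (generalizing `v`): for `b = 0` it is the definition
of `dn`; step: `dn^[b+2] φ v = ∑_{w ≤ v} dn^[b+1] φ w` (Function.iterate_succ_apply'), insert the
induction hypothesis, exchange the sums, `∑_{w=i}^{v} C(w-i+b,b) = C(v-i+b+1,b+1)` (hockey stick);
or: induction on `v` with `dn_iter_succ`. -/
theorem dn_iter_sum (b : ℕ) (φ : ℕ → ℕ) (v : ℕ) :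
    dn^[b + 1] φ v = ∑ i ∈ range (v + 1), (v - i + b).choose b * φ i := by
  induction b generalizing v with
  | zero =>
    simp [dn]
  | succ b ihb =>
    induction v with
    | zero =>
      rw [dn_iter_zero]
      simp
    | succ v ihv =>
      rw [dn_iter_succ, ihv, ihb (v + 1), Finset.sum_range_succ _ (v + 1),
        Finset.sum_range_succ _ (v + 1), ← add_assoc, ← Finset.sum_add_distrib]
      congr 1
      · refine Finset.sum_congr rfl fun i hi => ?_
        have hiv : i ≤ v := Nat.lt_succ_iff.1 (Finset.mem_range.1 hi)
        rw [← add_mul, show v + 1 - i + b = (v - i + b) + 1 by omega,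
          show v - i + (b + 1) = (v - i + b) + 1 by omega,
          show v + 1 - i + (b + 1) = (v - i + b + 1) + 1 by omega,
          Nat.choose_succ_succ (v - i + b + 1) b, add_comm]
      · simp

/-- `dn^[b] 1 v = C(v+b,b)`. -/
theorem dn_iter_one (b : ℕ) (v : ℕ) : dn^[b] (fun _ => 1) v = (v + b).choose b := by
  induction b generalizing v with
  | zero => simp
  | succ b ihb =>
    induction v with
    | zero =>
      rw [dn_iter_zero]
      simp
    | succ v ihv =>
      rw [dn_iter_succ, ihv, ihb (v + 1), show v + 1 + (b + 1) = (v + 1 + b) + 1 by omega,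
        Nat.choose_succ_succ (v + 1 + b) b, show v + (b + 1) = v + 1 + b by omega, add_comm]

/-- the two-run count. By `dn_iter_one` (the inner function is constantly `1`). -/
theorem NN_right_zero (b c m : ℕ) :
    NN b c 0 m = ∑ v ∈ range (m + 1), (v + c).choose c * (v + b).choose b := by
  unfold NN
  refine Finset.sum_congr rfl fun v _ => ?_
  have e : (fun v' => (m - v' + 0).choose 0) = fun _ : ℕ => 1 := by
    funext v'
    exact Nat.choose_zero_right _
  rw [e, dn_iter_one]

theorem NN_right_zero' (b c m : ℕ) :
    NN b c 0 m = ∑ i ∈ range (m + 1), (m - i + c).choose c * (m - i + b).choose b := by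
  rw [NN_right_zero, ← Finset.sum_range_reflect]
  refine Finset.sum_congr rfl fun i hi => ?_
  rw [show m + 1 - 1 - i = m - i by omega]

theorem NN_right_zero_comm (b c m : ℕ) : NN b c 0 m = NN c b 0 m := by
  rw [NN_right_zero, NN_right_zero]
  exact Finset.sum_congr rfl fun v _ => mul_comm _ _

end Pool.Agent.Lib.FourRun
end
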