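import Mathlib

set_option autoImplicit false

namespace Pool.Agent.Lib.FenceGlue

/-- The number of order preserving maps to a chain with `m + 1` elements of the fence with `n`
elements `0, ..., n - 1` and the pattern `s`: element `i` is below element `i + 1` if
`s i = true`, and above it if `s i = false`. -/
noncomputable def PatCount (n : ℕ) (s : ℕ → Bool) (m : ℕ) : ℕ :=
  Nat.card {f : Fin n → Fin (m + 1) //
              ∀ i : Fin n, ∀ hi : i.val + 1 < n,
                (s i.val = true → f i ≤ f ⟨i.val + 1, hi⟩) ∧
                (s i.val = false → f ⟨i.val + 1, hi⟩ ≤ f i)}

/-- The h*-polynomial `h` of the order polytope of this fence (given by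
`∑ PatCount n s m * x ^ m = h / (1 - x) ^ (n + 1)`) has only real zeros. -/
def RR (n : ℕ) (s : ℕ → Bool) : Prop :=
  ∀ h : Polynomial ℤ,
    PowerSeries.mk (fun m : ℕ => ((PatCount n s m : ℕ) : ℤ)) * (1 - PowerSeries.X) ^ (n + 1) =
      (↑h : PowerSeries ℤ) →
    (h.map (Int.castRingHom ℝ)).roots.card = h.natDegree

/-- The pattern of the fence obtained by joining a fence with `p` elements and pattern `s` to a
fence with pattern `s'` through a run of `b` steps in direction `e`, that is, through a chain with
`b + 1` elements; the two joining steps (present if the outer fences are not empty) have the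
opposite direction. -/
def glued (e : Bool) (p b : ℕ) (s s' : ℕ → Bool) (i : ℕ) : Bool :=
  if i + 1 < p then s i
  else if i + 1 = p then !e
  else if i < p + b then e
  else if i = p + b then !e
  else s' (i - (p + b + 1))

/-- The step directions of the fence with the given run lengths; the directions of the runs
alternate, and the first run has direction `e`. -/
def runs : Bool → List ℕ → List Bool
  | _, [] => []
  | e, a :: as => List.replicate a e ++ runs (!e) as

end Pool.Agent.Lib.FenceGlue
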