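import Mathlib

section

set_option autoImplicit false

namespace Pool.Agent.Lib.FenceGlue

open Finset Pointwise

/-- number of maps of a fence with given first value (`A` values below, `B` values above) -/
def rc : List Bool → ℕ → ℕ → ℕ
  | [], _, _ => 1
  | true :: w, A, B => ∑ p ∈ antidiagonal B, rc w (A + p.1) p.2
  | false :: w, A, B => ∑ p ∈ antidiagonal A, rc w p.1 (p.2 + B)

/-- the convolution of binomial coefficients -/
theorem conv_choose (n : ℕ) : ∀ p q : ℕ,
    ∑ x ∈ antidiagonal n, x.1.choose p * x.2.choose q = (n + 1).choose (p + q + 1) := by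
  induction n with
  | zero =>
    intro p q
    rw [Nat.antidiagonal_zero, sum_singleton]
    rcases Nat.eq_zero_or_pos p with hp | hp
    · rcases Nat.eq_zero_or_pos q with hq | hq
      · subst hp hq; rfl
      · obtain ⟨q, rfl⟩ : ∃ q', q = q' + 1 := ⟨q - 1, by omega⟩
        rw [Nat.choose_zero_succ, mul_zero, Nat.choose_eq_zero_of_lt (by omega)]
    · obtain ⟨p, rfl⟩ : ∃ p', p = p' + 1 := ⟨p - 1, by omega⟩
      rw [Nat.choose_zero_succ, zero_mul, Nat.choose_eq_zero_of_lt (by omega)]
  | succ n ih =>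
    intro p q
    rw [Nat.sum_antidiagonal_succ']
    cases q with
    | zero =>
      have h1 := ih p 0
      simp only [Nat.choose_zero_right, mul_one, add_zero] at h1 ⊢
      rw [h1, Nat.choose_succ_succ (n + 1) p]
    | succ q =>
      have h2 : ∀ x ∈ antidiagonal n, x.1.choose p * (x.2 + 1).choose (q + 1) =
          x.1.choose p * x.2.choose q + x.1.choose p * x.2.choose (q + 1) := by
        intro x _
        rw [Nat.choose_succ_succ, mul_add]
      rw [sum_congr rfl h2, sum_add_distrib, ih, ih, Nat.choose_zero_succ, mul_zero]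
      rw [show p + (q + 1) + 1 = (p + q + 1) + 1 by ring, Nat.choose_succ_succ (n + 1) (p + q + 1)]
      ring

/-- product of binomial coefficients -/
theorem choose_mul_choose (a j j' : ℕ) : a.choose j * a.choose j' =
    ∑ i ∈ range (j' + 1), (j.choose (j' - i) * (j + i).choose i) * a.choose (j + i) := by
  rcases Nat.lt_or_ge a j with h | h
  · rw [Nat.choose_eq_zero_of_lt h, zero_mul]
    symm
    apply sum_eq_zero
    intro i _
    rw [Nat.choose_eq_zero_of_lt (by omega : a < j + i), mul_zero]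
  · obtain ⟨x, rfl⟩ : ∃ x, a = j + x := ⟨a - j, by omega⟩
    rw [Nat.add_choose_eq j x j', mul_sum, Nat.sum_antidiagonal_eq_sum_range_succ_mk]
    rw [← sum_range_reflect]
    refine sum_congr rfl fun i hi => ?_
    rw [mem_range] at hi
    have e1 : j' - (j' + 1 - 1 - i) = i := by omega
    have e2 : j' + 1 - 1 - i = j' - i := by omega
    rw [e1, e2]
    have h3 : (j + x).choose (j + i) * (j + i).choose j = (j + x).choose j * x.choose i := by
      have := Nat.choose_mul (n := j + x) (k := j + i) (s := j) (by omega)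
      rw [this]
      congr 2 <;> omega
    have h4 : (j + i).choose i = (j + i).choose j := by
      rw [← Nat.choose_symm_add, Nat.add_comm]
    rw [h4]
    calc (j + x).choose j * (j.choose (j' - i) * x.choose i)
        = j.choose (j' - i) * ((j + x).choose j * x.choose i) := by ring
      _ = j.choose (j' - i) * ((j + x).choose (j + i) * (j + i).choose j) := by rw [h3]
      _ = _ := by ring

/-- the cone of nonnegative combinations, two variables -/
def C2 (d : ℕ) : AddSubmonoid (ℕ → ℕ → ℕ) :=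
  AddSubmonoid.closure {φ | ∃ j k, j + k ≤ d ∧ φ = fun A B => A.choose j * B.choose k}

/-- the cone of nonnegative combinations, three variables -/
def C3 (d : ℕ) : AddSubmonoid (ℕ → ℕ → ℕ → ℕ) :=
  AddSubmonoid.closure {φ | ∃ j g k, j + g + k ≤ d ∧
    φ = fun a c e => a.choose j * c.choose g * e.choose k}

theorem C2_gen {d j k : ℕ} (h : j + k ≤ d) : (fun A B => A.choose j * B.choose k) ∈ C2 d :=
  AddSubmonoid.subset_closure ⟨j, k, h, rfl⟩

theorem C3_gen {d j g k : ℕ} (h : j + g + k ≤ d) :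
    (fun a c e => a.choose j * c.choose g * e.choose k) ∈ C3 d :=
  AddSubmonoid.subset_closure ⟨j, g, k, h, rfl⟩

theorem C2_mono {d d' : ℕ} (h : d ≤ d') : C2 d ≤ C2 d' := by
  apply AddSubmonoid.closure_mono
  rintro φ ⟨j, k, hjk, rfl⟩
  exact ⟨j, k, hjk.trans h, rfl⟩

/-- the operators belonging to the steps -/
def stU : (ℕ → ℕ → ℕ) →+ (ℕ → ℕ → ℕ) where
  toFun φ := fun A B => ∑ p ∈ antidiagonal B, φ (A + p.1) p.2
  map_zero' := by funext A B; simp
  map_add' φ ψ := by funext A B; simp [sum_add_distrib]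

def stD : (ℕ → ℕ → ℕ) →+ (ℕ → ℕ → ℕ) where
  toFun φ := fun A B => ∑ p ∈ antidiagonal A, φ p.1 (p.2 + B)
  map_zero' := by funext A B; simp
  map_add' φ ψ := by funext A B; simp [sum_add_distrib]

theorem stU_gen (j k : ℕ) : stU (fun A B => A.choose j * B.choose k) =
    ∑ r ∈ antidiagonal j, ((fun A B => A.choose r.1 * B.choose (r.2 + k)) +
      (fun A B => A.choose r.1 * B.choose (r.2 + k + 1))) := by
  funext A B
  change ∑ p ∈ antidiagonal B, (A + p.1).choose j * p.2.choose k = _
  simp only [Finset.sum_apply, Pi.add_apply]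
  have h1 : ∀ p ∈ antidiagonal B, (A + p.1).choose j * p.2.choose k =
      ∑ r ∈ antidiagonal j, A.choose r.1 * (p.1.choose r.2 * p.2.choose k) := by
    intro p _
    rw [Nat.add_choose_eq, sum_mul]
    exact sum_congr rfl fun r _ => by ring
  rw [sum_congr rfl h1, sum_comm]
  refine sum_congr rfl fun r _ => ?_
  rw [← mul_sum, conv_choose, Nat.choose_succ_succ, mul_add]

theorem stD_gen (j k : ℕ) : stD (fun A B => A.choose j * B.choose k) =
    ∑ r ∈ antidiagonal k, ((fun A B => A.choose (j + r.1) * B.choose r.2) +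
      (fun A B => A.choose (j + r.1 + 1) * B.choose r.2)) := by
  funext A B
  change ∑ p ∈ antidiagonal A, p.1.choose j * (p.2 + B).choose k = _
  simp only [Finset.sum_apply, Pi.add_apply]
  have h1 : ∀ p ∈ antidiagonal A, p.1.choose j * (p.2 + B).choose k =
      ∑ r ∈ antidiagonal k, B.choose r.2 * (p.1.choose j * p.2.choose r.1) := by
    intro p _
    rw [Nat.add_choose_eq, mul_sum]
    exact sum_congr rfl fun r _ => by ring
  rw [sum_congr rfl h1, sum_comm]
  refine sum_congr rfl fun r _ => ?_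
  rw [← mul_sum, conv_choose, Nat.choose_succ_succ]
  ring

theorem stU_mem {d : ℕ} {φ : ℕ → ℕ → ℕ} (h : φ ∈ C2 d) : stU φ ∈ C2 (d + 1) := by
  have h1 : C2 d ≤ (C2 (d + 1)).comap stU := by
    apply (AddSubmonoid.closure_le).2
    rintro φ ⟨j, k, hjk, rfl⟩
    change stU _ ∈ C2 (d + 1)
    rw [stU_gen]
    refine sum_mem fun r hr => add_mem (C2_gen ?_) (C2_gen ?_)
    · rw [HasAntidiagonal.mem_antidiagonal] at hr; omega
    · rw [HasAntidiagonal.mem_antidiagonal] at hr; omega
  exact h1 h

theorem stD_mem {d : ℕ} {φ : ℕ → ℕ → ℕ} (h : φ ∈ C2 d) : stD φ ∈ C2 (d + 1) := by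
  have h1 : C2 d ≤ (C2 (d + 1)).comap stD := by
    apply (AddSubmonoid.closure_le).2
    rintro φ ⟨j, k, hjk, rfl⟩
    change stD _ ∈ C2 (d + 1)
    rw [stD_gen]
    refine sum_mem fun r hr => add_mem (C2_gen ?_) (C2_gen ?_)
    · rw [HasAntidiagonal.mem_antidiagonal] at hr; omega
    · rw [HasAntidiagonal.mem_antidiagonal] at hr; omega
  exact h1 h

/-- the counting functions lie in the cone, with a term of the highest degree -/
theorem rc_mem (w : List Bool) : ∃ j k, j + k = w.length ∧ ∃ φ ∈ C2 w.length,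
    rc w = (fun A B => A.choose j * B.choose k) + φ := by
  induction w with
  | nil => exact ⟨0, 0, rfl, 0, zero_mem _, by funext A B; simp [rc]⟩
  | cons e w ih =>
    obtain ⟨j, k, hjk, φ, hφ, h⟩ := ih
    cases e with
    | true =>
      have h1 : rc (true :: w) = stU (rc w) := rfl
      rw [h1, h, map_add, stU_gen]
      have h2 : ((j, 0) : ℕ × ℕ) ∈ antidiagonal j := by simp
      rw [← Finset.add_sum_erase _ _ h2]
      refine ⟨j, k + 1, by simp; omega, (fun A B => A.choose j * B.choose k) +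
        ∑ r ∈ (antidiagonal j).erase (j, 0), ((fun A B => A.choose r.1 * B.choose (r.2 + k)) +
      (fun A B => A.choose r.1 * B.choose (r.2 + k + 1))) + stU φ, ?_, ?_⟩
      · rw [List.length_cons]
        refine add_mem (add_mem (C2_gen (by omega)) (sum_mem fun r hr => ?_)) (stU_mem hφ)
        have hr' := HasAntidiagonal.mem_antidiagonal.1 (mem_of_mem_erase hr)
        exact add_mem (C2_gen (by omega)) (C2_gen (by omega))
      · simp only [zero_add]
        abel
    | false =>
      have h1 : rc (false :: w) = stD (rc w) := rfl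
      rw [h1, h, map_add, stD_gen]
      have h2 : ((0, k) : ℕ × ℕ) ∈ antidiagonal k := by simp
      rw [← Finset.add_sum_erase _ _ h2]
      refine ⟨j + 1, k, by simp; omega, (fun A B => A.choose j * B.choose k) +
        ∑ r ∈ (antidiagonal k).erase (0, k), ((fun A B => A.choose (j + r.1) * B.choose r.2) +
      (fun A B => A.choose (j + r.1 + 1) * B.choose r.2)) + stD φ, ?_, ?_⟩
      · rw [List.length_cons]
        refine add_mem (add_mem (C2_gen (by omega)) (sum_mem fun r hr => ?_)) (stD_mem hφ)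
        have hr' := HasAntidiagonal.mem_antidiagonal.1 (mem_of_mem_erase hr)
        exact add_mem (C2_gen (by omega)) (C2_gen (by omega))
      · simp only [add_zero]
        abel

theorem rc_mem' (w : List Bool) : rc w ∈ C2 w.length := by
  obtain ⟨j, k, hjk, φ, hφ, h⟩ := rc_mem w
  rw [h]
  exact add_mem (C2_gen hjk.le) hφ

/-- substitutions -/
def sbL : (ℕ → ℕ → ℕ) →+ (ℕ → ℕ → ℕ → ℕ) where
  toFun φ := fun a c e => φ a (c + e)
  map_zero' := by funext a c e; simp
  map_add' φ ψ := by funext a c e; simp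

def sbR : (ℕ → ℕ → ℕ) →+ (ℕ → ℕ → ℕ → ℕ) where
  toFun φ := fun a c e => φ (a + c) e
  map_zero' := by funext a c e; simp
  map_add' φ ψ := by funext a c e; simp

theorem sbL_mem {d : ℕ} {φ : ℕ → ℕ → ℕ} (h : φ ∈ C2 d) : sbL φ ∈ C3 d := by
  have h1 : C2 d ≤ (C3 d).comap sbL := by
    apply (AddSubmonoid.closure_le).2
    rintro φ ⟨j, k, hjk, rfl⟩
    change sbL _ ∈ C3 d
    have h2 : sbL (fun A B => A.choose j * B.choose k) =
        ∑ r ∈ antidiagonal k, (fun a c e => a.choose j * c.choose r.1 * e.choose r.2) := by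
      funext a c e
      change a.choose j * (c + e).choose k = _
      simp only [Finset.sum_apply]
      rw [Nat.add_choose_eq, mul_sum]
      exact sum_congr rfl fun r _ => by ring
    rw [h2]
    refine sum_mem fun r hr => C3_gen ?_
    rw [HasAntidiagonal.mem_antidiagonal] at hr
    omega
  exact h1 h

theorem sbR_mem {d : ℕ} {φ : ℕ → ℕ → ℕ} (h : φ ∈ C2 d) : sbR φ ∈ C3 d := by
  have h1 : C2 d ≤ (C3 d).comap sbR := by
    apply (AddSubmonoid.closure_le).2
    rintro φ ⟨j, k, hjk, rfl⟩
    change sbR _ ∈ C3 d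
    have h2 : sbR (fun A B => A.choose j * B.choose k) =
        ∑ r ∈ antidiagonal j, (fun a c e => a.choose r.1 * c.choose r.2 * e.choose k) := by
      funext a c e
      change (a + c).choose j * e.choose k = _
      simp only [Finset.sum_apply]
      rw [Nat.add_choose_eq, sum_mul]
    rw [h2]
    refine sum_mem fun r hr => C3_gen ?_
    rw [HasAntidiagonal.mem_antidiagonal] at hr
    omega
  exact h1 h

theorem C3_gen_mul (j g k j' g' k' : ℕ) :
    (fun a c e : ℕ => a.choose j * c.choose g * e.choose k) *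
      (fun a c e : ℕ => a.choose j' * c.choose g' * e.choose k') ∈
      C3 (j + g + k + (j' + g' + k')) := by
  have h1 : (fun a c e : ℕ => a.choose j * c.choose g * e.choose k) *
      (fun a c e : ℕ => a.choose j' * c.choose g' * e.choose k') =
      ∑ x ∈ range (j' + 1), ∑ y ∈ range (g' + 1), ∑ z ∈ range (k' + 1),
        ((j.choose (j' - x) * (j + x).choose x) * (g.choose (g' - y) * (g + y).choose y) *
          (k.choose (k' - z) * (k + z).choose z)) •
          (fun a c e : ℕ => a.choose (j + x) * c.choose (g + y) * e.choose (k + z)) := by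
    funext a c e
    simp only [Finset.sum_apply, Pi.smul_apply, Pi.mul_apply, smul_eq_mul]
    have e1 : a.choose j * c.choose g * e.choose k * (a.choose j' * c.choose g' * e.choose k') =
        (a.choose j * a.choose j') * (c.choose g * c.choose g') * (e.choose k * e.choose k') := by
      ring
    rw [e1, choose_mul_choose a j j', choose_mul_choose c g g', choose_mul_choose e k k']
    rw [sum_mul_sum, sum_mul]
    refine sum_congr rfl fun x _ => ?_
    rw [sum_mul]
    refine sum_congr rfl fun y _ => ?_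
    rw [mul_sum]
    refine sum_congr rfl fun z _ => ?_
    ring
  rw [h1]
  refine sum_mem fun x hx => sum_mem fun y hy => sum_mem fun z hz => nsmul_mem (C3_gen ?_) _
  rw [mem_range] at hx hy hz
  omega

theorem C3_mono {d d' : ℕ} (h : d ≤ d') : C3 d ≤ C3 d' := by
  apply AddSubmonoid.closure_mono
  rintro φ ⟨j, g, k, hjk, rfl⟩
  exact ⟨j, g, k, hjk.trans h, rfl⟩

theorem C3_mul {d d' : ℕ} {φ ψ : ℕ → ℕ → ℕ → ℕ} (hφ : φ ∈ C3 d) (hψ : ψ ∈ C3 d') :
    φ * ψ ∈ C3 (d + d') := by
  have h1 : C3 d * C3 d' ≤ C3 (d + d') := by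
    unfold C3
    rw [AddSubmonoid.closure_mul_closure]
    apply (AddSubmonoid.closure_le).2
    rintro χ ⟨α, ⟨j, g, k, h, rfl⟩, β, ⟨j', g', k', h', rfl⟩, rfl⟩
    exact C3_mono (by omega) (C3_gen_mul j g k j' g' k')
  exact h1 (AddSubmonoid.mul_mem_mul hφ hψ)

end Pool.Agent.Lib.FenceGlue
end

section

set_option autoImplicit false

namespace Pool.Agent.Lib.FenceGlue

open Finset

/-- regrouping of a triple sum -/
theorem triple (m : ℕ) (F : ℕ → ℕ → ℕ → ℕ) :
    ∑ p ∈ antidiagonal m, ∑ q ∈ antidiagonal p.2, F p.1 q.1 q.2 =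
      ∑ p ∈ antidiagonal m, ∑ q ∈ antidiagonal p.1, F q.1 q.2 p.2 := by
  rw [sum_sigma', sum_sigma']
  refine sum_nbij' (fun x => ⟨(x.1.1 + x.2.1, x.2.2), (x.1.1, x.2.1)⟩)
    (fun x => ⟨(x.2.1, x.2.2 + x.1.2), (x.2.2, x.1.2)⟩) ?_ ?_ ?_ ?_ ?_
  · rintro ⟨⟨a, x⟩, ⟨c, e⟩⟩ h
    simp only [mem_sigma, HasAntidiagonal.mem_antidiagonal] at h ⊢
    obtain ⟨h1, h2⟩ := h
    exact ⟨by omega, trivial⟩
  · rintro ⟨⟨a, x⟩, ⟨c, e⟩⟩ h
    simp only [mem_sigma, HasAntidiagonal.mem_antidiagonal] at h ⊢
    obtain ⟨h1, h2⟩ := h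
    exact ⟨by omega, trivial⟩
  · rintro ⟨⟨a, x⟩, ⟨c, e⟩⟩ h
    simp only [mem_sigma, HasAntidiagonal.mem_antidiagonal] at h
    obtain ⟨h1, h2⟩ := h
    subst h2
    rfl
  · rintro ⟨⟨a, x⟩, ⟨c, e⟩⟩ h
    simp only [mem_sigma, HasAntidiagonal.mem_antidiagonal] at h
    obtain ⟨h1, h2⟩ := h
    subst h2
    rfl
  · rintro ⟨⟨a, x⟩, ⟨c, e⟩⟩ h
    rfl

/-- number of order preserving maps of a fence -/
def Om (w : List Bool) (m : ℕ) : ℕ := ∑ p ∈ antidiagonal m, rc w p.1 p.2

/-- the same fence read from the other end -/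
def rn (w : List Bool) : List Bool := (w.map not).reverse

theorem rn_rn (w : List Bool) : rn (rn w) = w := by
  unfold rn
  rw [List.map_reverse, List.reverse_reverse, List.map_map]
  have h : (not ∘ not) = id := by funext b; cases b <;> rfl
  rw [h, List.map_id]

theorem rn_length (w : List Bool) : (rn w).length = w.length := by
  simp [rn]

theorem swap_step (m : ℕ) (f g : ℕ → ℕ → ℕ) :
    ∑ p ∈ antidiagonal m, f p.1 p.2 * stU g p.1 p.2 =
      ∑ p ∈ antidiagonal m, stD f p.1 p.2 * g p.1 p.2 := by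
  have h := triple m (fun a c e => f a (c + e) * g (a + c) e)
  have h1 : ∑ p ∈ antidiagonal m, f p.1 p.2 * stU g p.1 p.2 =
      ∑ p ∈ antidiagonal m, ∑ q ∈ antidiagonal p.2, f p.1 (q.1 + q.2) * g (p.1 + q.1) q.2 := by
    refine sum_congr rfl fun p _ => ?_
    change f p.1 p.2 * ∑ q ∈ antidiagonal p.2, g (p.1 + q.1) q.2 = _
    rw [mul_sum]
    refine sum_congr rfl fun q hq => ?_
    rw [HasAntidiagonal.mem_antidiagonal] at hq
    rw [hq]
  have h2 : ∑ p ∈ antidiagonal m, stD f p.1 p.2 * g p.1 p.2 =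
      ∑ p ∈ antidiagonal m, ∑ q ∈ antidiagonal p.1, f q.1 (q.2 + p.2) * g (q.1 + q.2) p.2 := by
    refine sum_congr rfl fun p _ => ?_
    change (∑ q ∈ antidiagonal p.1, f q.1 (q.2 + p.2)) * g p.1 p.2 = _
    rw [sum_mul]
    refine sum_congr rfl fun q hq => ?_
    rw [HasAntidiagonal.mem_antidiagonal] at hq
    rw [hq]
  rw [h1, h2]
  exact h

/-- splitting the count at an element -/
theorem split_sum (m : ℕ) (w : List Bool) : ∀ X Y : List Bool,
    ∑ p ∈ antidiagonal m, rc X p.1 p.2 * rc (w ++ Y) p.1 p.2 =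
      ∑ p ∈ antidiagonal m, rc (rn w ++ X) p.1 p.2 * rc Y p.1 p.2 := by
  induction w with
  | nil => intro X Y; rfl
  | cons e w ih =>
    intro X Y
    have e1 : rn (e :: w) ++ X = rn w ++ ((!e) :: X) := by
      simp [rn]
    rw [e1, ← ih]
    cases e with
    | true => exact swap_step m (rc X) (rc (w ++ Y))
    | false =>
      have h := swap_step m (rc (w ++ Y)) (rc X)
      have h1 : ∀ p ∈ antidiagonal m, rc X p.1 p.2 * rc (false :: w ++ Y) p.1 p.2 =
          stD (rc (w ++ Y)) p.1 p.2 * rc X p.1 p.2 := fun p _ => mul_comm _ _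
      have h2 : ∀ p ∈ antidiagonal m, rc ((!false) :: X) p.1 p.2 * rc (w ++ Y) p.1 p.2 =
          rc (w ++ Y) p.1 p.2 * stU (rc X) p.1 p.2 := fun p _ => mul_comm _ _
      rw [sum_congr rfl h1, sum_congr rfl h2, h]

theorem Om_append (m : ℕ) (w Y : List Bool) :
    Om (w ++ Y) m = ∑ p ∈ antidiagonal m, rc (rn w) p.1 p.2 * rc Y p.1 p.2 := by
  have h := split_sum m w [] Y
  rw [List.append_nil] at h
  rw [← h]
  unfold Om
  exact sum_congr rfl fun p _ => by rw [rc, one_mul]

theorem Om_rn (m : ℕ) (w : List Bool) : Om (rn w) m = Om w m := by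
  have h := Om_append m (rn w) []
  rw [List.append_nil, rn_rn] at h
  rw [h]
  unfold Om
  exact sum_congr rfl fun p _ => by simp only [rc, mul_one]

theorem rc_zero (w : List Bool) : rc w 0 0 = 1 := by
  induction w with
  | nil => rfl
  | cons e w ih =>
    cases e with
    | true =>
      change ∑ p ∈ antidiagonal 0, rc w (0 + p.1) p.2 = 1
      rw [Nat.antidiagonal_zero, sum_singleton]
      exact ih
    | false =>
      change ∑ p ∈ antidiagonal 0, rc w p.1 (p.2 + 0) = 1
      rw [Nat.antidiagonal_zero, sum_singleton]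
      exact ih

theorem Om_zero (w : List Bool) : Om w 0 = 1 := by
  unfold Om
  rw [Nat.antidiagonal_zero, sum_singleton]
  exact rc_zero w

theorem rc_true_left (w : List Bool) (c : ℕ) : rc (true :: w) 0 c = Om w c := by
  change ∑ p ∈ antidiagonal c, rc w (0 + p.1) p.2 = _
  exact sum_congr rfl fun p _ => by rw [zero_add]

theorem rc_false_right (w : List Bool) (c : ℕ) : rc (false :: w) c 0 = Om w c := rfl

/-- shifted convolution -/
theorem conv_shift (b : ℕ) : ∀ (x p q : ℕ), b ≤ p →
    ∑ r ∈ antidiagonal x, (r.1 + b).choose p * r.2.choose q = (x + b + 1).choose (p + q + 1) := by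
  induction b with
  | zero =>
    intro x p q _
    exact conv_choose x p q
  | succ b ih =>
    intro x p q hb
    have h1 := ih (x + 1) p q (by omega)
    rw [Nat.sum_antidiagonal_succ] at h1
    rw [zero_add, Nat.choose_eq_zero_of_lt (by omega : b < p), zero_mul, zero_add] at h1
    rw [show x + (b + 1) + 1 = x + 1 + b + 1 by ring, ← h1]
    refine sum_congr rfl fun r _ => ?_
    rw [show r.1 + (b + 1) = r.1 + 1 + b by ring]

theorem conv_shift' (b : ℕ) (x p q : ℕ) (h : b ≤ p) :
    ∑ r ∈ antidiagonal x, r.1.choose q * (r.2 + b).choose p = (x + b + 1).choose (q + p + 1) := by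
  rw [← Nat.sum_antidiagonal_swap, add_comm q p, ← conv_shift b x p q h]
  exact sum_congr rfl fun r _ => mul_comm _ _

/-- a run of steps up -/
theorem rc_run (b : ℕ) (y : List Bool) : ∀ A B : ℕ, rc (List.replicate (b + 1) true ++ y) A B =
    ∑ q ∈ antidiagonal B, (q.1 + b).choose b * rc y (A + q.1) q.2 := by
  induction b with
  | zero =>
    intro A B
    change ∑ p ∈ antidiagonal B, rc y (A + p.1) p.2 = _
    exact sum_congr rfl fun p _ => by simp
  | succ b ih =>
    intro A B
    have e : List.replicate (b + 1 + 1) true ++ y = true :: (List.replicate (b + 1) true ++ y) := rfl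
    rw [e]
    change ∑ p ∈ antidiagonal B, rc (List.replicate (b + 1) true ++ y) (A + p.1) p.2 = _
    simp only [ih]
    have h := triple B (fun c' c e => (c + b).choose b * rc y (A + c' + c) e)
    rw [h]
    refine sum_congr rfl fun p _ => ?_
    have h1 : ∀ q ∈ antidiagonal p.1, (q.2 + b).choose b * rc y (A + q.1 + q.2) p.2 =
        (q.1.choose 0 * (q.2 + b).choose b) * rc y (A + p.1) p.2 := by
      intro q hq
      rw [HasAntidiagonal.mem_antidiagonal] at hq
      rw [Nat.choose_zero_right, one_mul, ← hq, add_assoc]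
    rw [sum_congr rfl h1, ← sum_mul, conv_shift' b p.1 b 0 le_rfl]
    congr 1
    rw [zero_add]
    rfl

/-- the count of a glued fence -/
theorem Om_glue (m b : ℕ) (x y : List Bool) :
    Om (rn x ++ (List.replicate (b + 1) true ++ y)) m =
      ∑ p ∈ antidiagonal m, ∑ q ∈ antidiagonal p.2,
        (sbL (rc x) * sbR (rc y)) p.1 q.1 q.2 * (q.1 + b).choose b := by
  rw [Om_append, rn_rn]
  refine sum_congr rfl fun p _ => ?_
  rw [rc_run, mul_sum]
  refine sum_congr rfl fun q hq => ?_
  rw [HasAntidiagonal.mem_antidiagonal] at hq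
  change _ = rc x p.1 (q.1 + q.2) * rc y (p.1 + q.1) q.2 * (q.1 + b).choose b
  rw [hq]
  ring

end Pool.Agent.Lib.FenceGlue
end
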