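import Pool.Agent.Lib.MP_7d55f0_co.TRStable
import Pool.Agent.Lib.MP_7d55f0_co.GLWord
import Pool.Agent.Lib.MP_7d55f0_co.GLDefs

section

set_option autoImplicit false

namespace Pool.Agent.Lib.FenceGlue

open Polynomial Pool.Agent.Lib.ThreeRun

/-- the complexification of a real polynomial has no zero in the upper half plane -/
def RS (p : ℝ[X]) : Prop := HS (p.map Complex.ofRealHom)

theorem RS.ne_zero {p : ℝ[X]} (h : RS p) : p ≠ 0 := by
  rintro rfl
  exact HS.ne_zero h (by simp)

/-- no multiple zero at `x` -/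
def SimpleAt (p : ℝ[X]) (x : ℝ) : Prop := p.eval x = 0 → (derivative p).eval x ≠ 0

/-- The operator `κ + τ D` preserves real-rootedness. -/
theorem RS.add_derivative {p : ℝ[X]} (h : RS p) {κ τ : ℝ} (hκ : κ ≠ 0 ∨ p.natDegree ≠ 0)
    (hτ : τ ≠ 0) : RS (C κ * p + C τ * derivative p) := by
  intro z hz hcon
  rw [Polynomial.map_add, Polynomial.map_mul, Polynomial.map_mul, map_C, map_C, eval_add, eval_mul,
    eval_mul, eval_C, eval_C, ← derivative_map] at hcon
  have hp := h z hz
  by_cases hd : p.natDegree = 0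
  · have hk : κ ≠ 0 := by tauto
    rw [eq_C_of_natDegree_eq_zero hd, map_C, derivative_C, eval_zero, mul_zero, add_zero] at hcon
    rw [eq_C_of_natDegree_eq_zero hd, map_C] at hp
    rcases mul_eq_zero.1 hcon with h1 | h1
    · exact hk (by simpa using h1)
    · exact hp h1
  · have h1 := HS.logDeriv_im h (by
      rw [natDegree_map_eq_of_injective (Complex.ofRealHom).injective]; exact hd) hz
    have h2 : (derivative (p.map Complex.ofRealHom)).eval z / (p.map Complex.ofRealHom).eval z =
        ((-(κ / τ) : ℝ) : ℂ) := by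
      rw [div_eq_iff hp]
      have h3 : (τ : ℂ) ≠ 0 := by exact_mod_cast hτ
      push_cast
      field_simp
      simp only [Complex.ofRealHom_eq_coe] at hcon
      linear_combination hcon
    rw [h2, Complex.ofReal_im] at h1
    exact lt_irrefl _ h1

/-- the Laguerre expression -/
noncomputable def Lag (p : ℝ[X]) (x : ℝ) : ℝ :=
  ((derivative p).eval x) ^ 2 - p.eval x * (derivative (derivative p)).eval x

theorem Lag_mul (a : ℝ) (q : ℝ[X]) (x : ℝ) :
    Lag ((X - C a) * q) x = (q.eval x) ^ 2 + (x - a) ^ 2 * Lag q x := by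
  unfold Lag
  simp only [derivative_mul, derivative_sub, derivative_X, derivative_C, sub_zero, one_mul,
    derivative_add, eval_add, eval_mul, eval_sub, eval_X, eval_C]
  ring

theorem Lag_C_mul (a : ℝ) (q : ℝ[X]) (x : ℝ) : Lag (C a * q) x = a ^ 2 * Lag q x := by
  unfold Lag
  simp only [derivative_C_mul, eval_mul, eval_C]
  ring

theorem Lag_prod (s : Multiset ℝ) (x : ℝ) :
    0 ≤ Lag (s.map (fun a => X - C a)).prod x ∧
      (s ≠ 0 → ((s.map (fun a => X - C a)).prod.eval x ≠ 0) →
        0 < Lag (s.map (fun a => X - C a)).prod x) := by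
  induction s using Multiset.induction_on with
  | empty =>
    refine ⟨?_, fun h => absurd rfl h⟩
    rw [Multiset.map_zero, Multiset.prod_zero]
    unfold Lag
    simp
  | cons a s ih =>
    rw [Multiset.map_cons, Multiset.prod_cons, Lag_mul]
    refine ⟨by have := ih.1; positivity, fun _ h => ?_⟩
    rw [eval_mul] at h
    have h1 : ((s.map (fun a => X - C a)).prod.eval x) ≠ 0 := fun h2 => h (by rw [h2, mul_zero])
    have h2 := ih.1
    positivity

/-- At a zero of the Laguerre expression a real-rooted polynomial has a multiple zero. -/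
theorem RS.lag {p : ℝ[X]} (h : RS p) (hd : p.natDegree ≠ 0) {x : ℝ} (hx : Lag p x = 0) :
    ¬ SimpleAt p x := by
  have h0 := h.ne_zero
  have h1 := (splits_iff_card_roots.2 (roots_card_of_hs h)).eq_prod_roots
  have h2 : p.leadingCoeff ≠ 0 := leadingCoeff_ne_zero.2 h0
  have h3 : p.roots ≠ 0 := by
    intro h4
    have := roots_card_of_hs h
    rw [h4] at this
    exact hd (by simpa using this.symm)
  have hpx : p.eval x = 0 := by
    by_contra hcon
    rw [h1, Lag_C_mul] at hx
    have h4 := (Lag_prod p.roots x).2 h3 (by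
      intro h5
      apply hcon
      rw [h1, eval_mul, h5, mul_zero])
    have : 0 < p.leadingCoeff ^ 2 := by positivity
    nlinarith [mul_pos this h4]
  intro h4
  apply h4 hpx
  unfold Lag at hx
  rw [hpx] at hx
  nlinarith

/-- The operator `κ + τ D` creates no multiple zeros. -/
theorem RS.simple_step {p : ℝ[X]} (h : RS p) (hd : p.natDegree ≠ 0) {κ τ : ℝ} (hτ : τ ≠ 0) {x : ℝ}
    (hs : SimpleAt p x) : SimpleAt (C κ * p + C τ * derivative p) x := by
  intro h1 h2
  apply h.lag hd _ hs
  rw [eval_add, eval_mul, eval_mul, eval_C, eval_C] at h1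
  rw [derivative_add, derivative_C_mul, derivative_C_mul, eval_add, eval_mul, eval_mul, eval_C,
    eval_C] at h2
  have h3 : τ ^ 2 * Lag p x = 0 := by
    unfold Lag
    have e1 : τ * (derivative p).eval x = -(κ * p.eval x) := by linarith
    have e2 : τ * (derivative (derivative p)).eval x = -(κ * (derivative p).eval x) := by linarith
    calc τ ^ 2 * ((derivative p).eval x ^ 2 - p.eval x * (derivative (derivative p)).eval x)
        = (τ * (derivative p).eval x) ^ 2 -
          p.eval x * τ * (τ * (derivative (derivative p)).eval x) := by ring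
      _ = (τ * (derivative p).eval x) ^ 2 +
          p.eval x * κ * (τ * (derivative p).eval x) := by rw [e2]; ring
      _ = 0 := by rw [e1]; ring
  rcases mul_eq_zero.1 h3 with h4 | h4
  · exact absurd (pow_eq_zero_iff (two_ne_zero)|>.1 h4) hτ
  · exact h4

/-- division of the coefficients by factorials -/
noncomputable def hat (p : ℝ[X]) : ℝ[X] := ∑ k ∈ p.support, monomial k (p.coeff k / k.factorial)

theorem hat_coeff (p : ℝ[X]) (k : ℕ) : (hat p).coeff k = p.coeff k / k.factorial := by
  unfold hat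
  rw [finsetSum_coeff]
  simp only [coeff_monomial]
  rw [Finset.sum_ite_eq']
  split_ifs with h
  · rfl
  · rw [notMem_support_iff.1 h, zero_div]

theorem hat_add (p q : ℝ[X]) : hat (p + q) = hat p + hat q := by
  ext k
  rw [coeff_add, hat_coeff, hat_coeff, hat_coeff, coeff_add, add_div]

theorem hat_C_mul (a : ℝ) (p : ℝ[X]) : hat (C a * p) = C a * hat p := by
  ext k
  rw [coeff_C_mul, hat_coeff, hat_coeff, coeff_C_mul, mul_div_assoc]

theorem hat_zero : hat 0 = 0 := by
  ext k
  rw [hat_coeff]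
  simp

theorem derivative_hat_X_mul (p : ℝ[X]) : derivative (hat (X * p)) = hat p := by
  ext k
  rw [coeff_derivative, hat_coeff, hat_coeff, coeff_X_mul, Nat.factorial_succ]
  push_cast
  have h1 : (k.factorial : ℝ) ≠ 0 := by exact_mod_cast k.factorial_ne_zero
  have h2 : (k : ℝ) + 1 ≠ 0 := by positivity
  field_simp

theorem hat_X_pow (m : ℕ) : hat (X ^ m) = C (1 / (m.factorial : ℝ)) * X ^ m := by
  ext k
  rw [hat_coeff, coeff_C_mul, coeff_X_pow]
  split_ifs with h
  · subst h; ring
  · simp

theorem hat_natDegree (p : ℝ[X]) : (hat p).natDegree = p.natDegree := by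
  have h1 : ∀ k, (hat p).coeff k = 0 ↔ p.coeff k = 0 := by
    intro k
    rw [hat_coeff, div_eq_zero_iff]
    have : (k.factorial : ℝ) ≠ 0 := by exact_mod_cast k.factorial_ne_zero
    tauto
  apply le_antisymm
  · rw [natDegree_le_iff_coeff_eq_zero]
    intro N hN
    rw [h1]
    exact coeff_eq_zero_of_natDegree_lt hN
  · rw [natDegree_le_iff_coeff_eq_zero]
    intro N hN
    rw [← h1]
    exact coeff_eq_zero_of_natDegree_lt hN

/-- the product of the `X + ρ` -/
noncomputable def pb (s : List ℝ) : ℝ[X] := (s.map (fun ρ => X + C ρ)).prod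

theorem pb_nil : pb [] = 1 := rfl

theorem pb_cons (ρ : ℝ) (s : List ℝ) : pb (ρ :: s) = (X + C ρ) * pb s := by
  unfold pb
  rw [List.map_cons, List.prod_cons]

theorem hat_rr (s : List ℝ) : ∀ m : ℕ, (∀ ρ ∈ s, ρ ≠ 0) →
    RS (hat (X ^ m * pb s)) ∧ ∀ x, x ≠ 0 → SimpleAt (hat (X ^ m * pb s)) x := by
  induction s with
  | nil =>
    intro m _
    rw [pb_nil, mul_one, hat_X_pow]
    have h1 : (m.factorial : ℝ) ≠ 0 := by exact_mod_cast m.factorial_ne_zero
    constructor
    · intro z hz
      rw [Polynomial.map_mul, Polynomial.map_pow, map_X, map_C, eval_mul, eval_pow, eval_X, eval_C]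
      apply mul_ne_zero
      · simpa using m.factorial_ne_zero
      · apply pow_ne_zero
        rintro rfl
        simp at hz
    · intro x hx h2
      exfalso
      rw [eval_mul, eval_pow, eval_X, eval_C] at h2
      exact mul_ne_zero (one_div_ne_zero h1) (pow_ne_zero m hx) h2
  | cons ρ s ih =>
    intro m hs
    have hs' : ∀ ρ ∈ s, ρ ≠ 0 := fun r hr => hs r (List.mem_cons_of_mem _ hr)
    have hρ : ρ ≠ 0 := hs ρ List.mem_cons_self
    have e1 : hat (X ^ m * pb (ρ :: s)) =
        C 1 * hat (X ^ (m + 1) * pb s) + C ρ * derivative (hat (X ^ (m + 1) * pb s)) := by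
      have e2 : X ^ (m + 1) * pb s = X * (X ^ m * pb s) := by ring
      rw [pb_cons, show X ^ m * ((X + C ρ) * pb s) = X ^ (m + 1) * pb s + C ρ * (X ^ m * pb s) by ring,
        hat_add, hat_C_mul, e2, derivative_hat_X_mul]
      simp
    have h1 := ih (m + 1) hs'
    have h2 := ih m hs'
    have hd : (hat (X ^ (m + 1) * pb s)).natDegree ≠ 0 := by
      intro h3
      have h4 : derivative (hat (X ^ (m + 1) * pb s)) = 0 := by
        rw [eq_C_of_natDegree_eq_zero h3, derivative_C]
      rw [show X ^ (m + 1) * pb s = X * (X ^ m * pb s) by ring, derivative_hat_X_mul] at h4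
      exact h2.1.ne_zero h4
    rw [e1]
    exact ⟨h1.1.add_derivative (Or.inr hd) hρ, fun x hx => h1.1.simple_step hd hρ (h1.2 x hx)⟩

/-- a polynomial with nonnegative coefficients and positive constant coefficient -/
theorem eval_pos_of_coeff {p : ℝ[X]} (h : ∀ k, 0 ≤ p.coeff k) (h0 : 0 < p.coeff 0) {x : ℝ}
    (hx : 0 ≤ x) : 0 < p.eval x := by
  rw [eval_eq_sum_range, Finset.sum_range_succ']
  have h1 : 0 ≤ ∑ k ∈ Finset.range p.natDegree, p.coeff (k + 1) * x ^ (k + 1) :=
    Finset.sum_nonneg fun k _ => mul_nonneg (h _) (pow_nonneg hx _)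
  rw [pow_zero, mul_one]
  linarith

/-- positive polynomials with real zeros -/
structure PR (p : ℝ[X]) : Prop where
  coeff_nonneg : ∀ k, 0 ≤ p.coeff k
  coeff_zero : 0 < p.coeff 0
  rs : RS p

theorem PR.eval_pos {p : ℝ[X]} (h : PR p) {x : ℝ} (hx : 0 ≤ x) : 0 < p.eval x :=
  eval_pos_of_coeff h.coeff_nonneg h.coeff_zero hx

theorem PR.root_neg {p : ℝ[X]} (h : PR p) {x : ℝ} (hx : p.eval x = 0) : x < 0 := by
  by_contra h1
  push Not at h1
  exact (h.eval_pos h1).ne' hx

/-- a product of linear factors -/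
theorem PR.eq_pb {p : ℝ[X]} (h : PR p) : ∃ s : List ℝ, (∀ ρ ∈ s, 0 < ρ) ∧
    p = C p.leadingCoeff * pb s := by
  have h1 := (splits_iff_card_roots.2 (roots_card_of_hs h.rs)).eq_prod_roots
  refine ⟨p.roots.toList.map (fun r => -r), ?_, ?_⟩
  · intro ρ hρ
    rw [List.mem_map] at hρ
    obtain ⟨r, hr, rfl⟩ := hρ
    rw [Multiset.mem_toList] at hr
    have := h.root_neg (isRoot_of_mem_roots hr)
    linarith
  · unfold pb
    conv_lhs => rw [h1]
    congr 1
    rw [List.map_map, ← Multiset.prod_coe, ← Multiset.map_coe, Multiset.coe_toList]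
    congr 1
    apply Multiset.map_congr rfl
    intro r _
    simp [sub_eq_add_neg]

/-- The hat of a positive polynomial with real zeros has only simple real zeros. -/
theorem PR.hat {p : ℝ[X]} (h : PR p) : PR (hat p) ∧ ∀ x, SimpleAt (hat p) x := by
  obtain ⟨s, hs, hp⟩ := h.eq_pb
  have hlc : p.leadingCoeff ≠ 0 := leadingCoeff_ne_zero.2 h.rs.ne_zero
  have h1 := hat_rr s 0 (fun ρ hρ => (hs ρ hρ).ne')
  rw [pow_zero, one_mul] at h1
  have e : FenceGlue.hat p = C p.leadingCoeff * FenceGlue.hat (pb s) := by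
    conv_lhs => rw [hp]
    rw [hat_C_mul]
  have h2 : PR (FenceGlue.hat p) := by
    refine ⟨fun k => ?_, ?_, ?_⟩
    · rw [hat_coeff]
      exact div_nonneg (h.coeff_nonneg k) (by positivity)
    · rw [hat_coeff]
      have := h.coeff_zero
      positivity
    · rw [e]
      intro z hz
      rw [Polynomial.map_mul, map_C, eval_mul, eval_C]
      exact mul_ne_zero (by simpa using hlc) (h1.1 z hz)
  refine ⟨h2, fun x hx => ?_⟩
  have hx0 := h2.root_neg hx
  rw [e, eval_mul, eval_C] at hx
  rw [e, derivative_C_mul, eval_mul, eval_C]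
  exact mul_ne_zero hlc (h1.2 x hx0.ne ((mul_eq_zero.1 hx).resolve_left hlc))

end Pool.Agent.Lib.FenceGlue
end

section

set_option autoImplicit false

namespace Pool.Agent.Lib.FenceGlue

open Polynomial Pool.Agent.Lib.ThreeRun Filter Topology

theorem glt_ivt {f : ℝ → ℝ} (hf : Continuous f) {a b : ℝ} (hab : a < b) (h : f a * f b < 0) :
    ∃ y ∈ Set.Ioo a b, f y = 0 := by
  rcases mul_neg_iff.1 h with ⟨h1, h2⟩ | ⟨h1, h2⟩
  · obtain ⟨y, hy, hy0⟩ := intermediate_value_Ioo' hab.le hf.continuousOn ⟨h2, h1⟩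
    exact ⟨y, hy, hy0⟩
  · obtain ⟨y, hy, hy0⟩ := intermediate_value_Ioo hab.le hf.continuousOn ⟨h1, h2⟩
    exact ⟨y, hy, hy0⟩

theorem glt_sign {L : ℝ[X]} {r : ℝ} (hr : L.eval r = 0) (hs : (derivative L).eval r ≠ 0) :
    ∀ᶠ ε in 𝓝[>] (0 : ℝ), L.eval (r - ε) * L.eval (r + ε) < 0 := by
  obtain ⟨Q, hQ⟩ := dvd_iff_isRoot.2 hr
  have h1 : (derivative L).eval r = Q.eval r := by
    rw [hQ]
    simp
  rw [h1] at hs
  have h2 : Tendsto (fun ε : ℝ => Q.eval (r - ε) * Q.eval (r + ε)) (𝓝 0) (𝓝 (Q.eval r * Q.eval r)) := by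
    have c1 : Continuous fun ε : ℝ => Q.eval (r - ε) * Q.eval (r + ε) := by
      exact (Q.continuous.comp (continuous_const.sub continuous_id)).mul
        (Q.continuous.comp (continuous_const.add continuous_id))
    have := c1.tendsto 0
    simpa using this
  have h3 : ∀ᶠ ε in 𝓝 (0 : ℝ), 0 < Q.eval (r - ε) * Q.eval (r + ε) :=
    h2.eventually_const_lt (mul_self_pos.2 hs)
  filter_upwards [h3.filter_mono nhdsWithin_le_nhds, self_mem_nhdsWithin] with ε h4 h5
  have h6 : 0 < ε := h5
  rw [hQ, eval_mul, eval_mul, eval_sub, eval_sub, eval_X, eval_X, eval_C, eval_C]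
  have : (r - ε - r) * Q.eval (r - ε) * ((r + ε - r) * Q.eval (r + ε)) =
      -(ε ^ 2 * (Q.eval (r - ε) * Q.eval (r + ε))) := by ring
  rw [this]
  have := mul_pos (pow_pos h6 2) h4
  linarith

/-- Polynomials close to a polynomial with simple real zeros have only real zeros. -/
theorem pert {d : ℕ} {L : ℝ[X]} (hL : L.natDegree = d) (hrs : RS L) (hs : ∀ x, SimpleAt L x)
    {p : ℕ → ℝ[X]} (hd : ∀ b, (p b).natDegree ≤ d)
    (hc : ∀ k, Tendsto (fun b => (p b).coeff k) atTop (𝓝 (L.coeff k))) :
    ∀ᶠ b in atTop, (p b).natDegree = d ∧ (p b).roots.card = d := by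
  classical
  have hnd : L.roots.Nodup := by
    rw [Multiset.nodup_iff_count_le_one]
    intro a
    rw [count_roots]
    by_contra hcon
    push Not at hcon
    have h1 := (one_lt_rootMultiplicity_iff_isRoot hrs.ne_zero).1 hcon
    exact hs a h1.1 h1.2
  have hcard : L.roots.toFinset.card = d := by
    rw [Multiset.toFinset_card_of_nodup hnd, roots_card_of_hs hrs, hL]
  have hroot : ∀ r ∈ L.roots.toFinset, L.eval r = 0 := fun r hr =>
    isRoot_of_mem_roots (Multiset.mem_toFinset.1 hr)
  have hev : ∀ x : ℝ, Tendsto (fun b => (p b).eval x) atTop (𝓝 (L.eval x)) := by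
    intro x
    have e1 : ∀ b, (p b).eval x = ∑ k ∈ Finset.range (d + 1), (p b).coeff k * x ^ k := fun b =>
      eval_eq_sum_range' (Nat.lt_succ_of_le (hd b)) x
    have e2 : L.eval x = ∑ k ∈ Finset.range (d + 1), L.coeff k * x ^ k :=
      eval_eq_sum_range' (Nat.lt_succ_of_le hL.le) x
    simp only [e1, e2]
    exact tendsto_finsetSum _ fun k _ => (hc k).mul_const _
  obtain ⟨ε, hε, hε1, hε2⟩ : ∃ ε : ℝ, 0 < ε ∧
      (∀ r ∈ L.roots.toFinset, L.eval (r - ε) * L.eval (r + ε) < 0) ∧
      (∀ r ∈ L.roots.toFinset, ∀ r' ∈ L.roots.toFinset, r ≠ r' → 2 * ε < |r - r'|) := by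
    have h1 : ∀ᶠ ε in 𝓝[>] (0 : ℝ), ∀ r ∈ L.roots.toFinset,
        L.eval (r - ε) * L.eval (r + ε) < 0 := by
      rw [Finset.eventually_all]
      exact fun r hr => glt_sign (hroot r hr) (hs r (hroot r hr))
    have h2 : ∀ᶠ ε in 𝓝[>] (0 : ℝ), ∀ r ∈ L.roots.toFinset, ∀ r' ∈ L.roots.toFinset, r ≠ r' →
        2 * ε < |r - r'| := by
      rw [Finset.eventually_all]
      intro r _
      rw [Finset.eventually_all]
      intro r' _
      by_cases hrr : r = r'
      · exact Eventually.of_forall fun ε h => absurd hrr h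
      · have h3 : 0 < |r - r'| := abs_pos.2 (sub_ne_zero.2 hrr)
        have h4 : Tendsto (fun ε : ℝ => 2 * ε) (𝓝 0) (𝓝 0) := by
          have : Continuous fun ε : ℝ => 2 * ε := by fun_prop
          simpa using this.tendsto 0
        have h5 := (h4.eventually_lt_const h3).filter_mono (nhdsWithin_le_nhds (s := Set.Ioi 0))
        exact h5.mono fun ε h6 _ => h6
    have h0 : ∀ᶠ ε in 𝓝[>] (0 : ℝ), 0 < ε := self_mem_nhdsWithin
    obtain ⟨ε, h3, h4, h5⟩ := (h0.and (h1.and h2)).exists
    exact ⟨ε, h3, h4, h5⟩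
  have hev2 : ∀ᶠ b in atTop, ∀ r ∈ L.roots.toFinset,
      (p b).eval (r - ε) * (p b).eval (r + ε) < 0 := by
    rw [Finset.eventually_all]
    intro r hr
    exact ((hev _).mul (hev _)).eventually_lt_const (hε1 r hr)
  filter_upwards [hev2] with b hb
  have h1 : ∀ r ∈ L.roots.toFinset, ∃ y ∈ Set.Ioo (r - ε) (r + ε), (p b).eval y = 0 := fun r hr =>
    glt_ivt (p b).continuous (by linarith) (hb r hr)
  choose! y hy hy0 using h1
  have hle : (p b).roots.card ≤ (p b).natDegree := card_roots' _
  rcases Nat.eq_zero_or_pos d with h0 | h0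
  · subst h0
    have := hd b
    omega
  · have hne : p b ≠ 0 := by
      intro h2
      have h3 : L.roots.toFinset.Nonempty := by
        rw [← Finset.card_pos, hcard]; exact h0
      obtain ⟨r, hr⟩ := h3
      have := hb r hr
      rw [h2] at this
      simp at this
    have h2 : L.roots.toFinset.card ≤ (p b).roots.toFinset.card := by
      apply Finset.card_le_card_of_injOn y
      · intro r hr
        rw [Finset.mem_coe, Multiset.mem_toFinset, mem_roots hne]
        exact hy0 r hr
      · intro r hr r' hr' hrr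
        by_contra hne'
        have h3 := hε2 r hr r' hr' hne'
        have h4 := hy r hr
        have h5 := hy r' hr'
        rw [Set.mem_Ioo] at h4 h5
        have h6 : |r - r'| < 2 * ε := by
          rw [abs_lt]
          constructor <;> linarith [h4.1, h4.2, h5.1, h5.2, hrr]
        linarith
    rw [hcard] at h2
    have h3 := Multiset.toFinset_card_le (p b).roots
    have h4 := hd b
    constructor <;> omega

end Pool.Agent.Lib.FenceGlue
end

section

set_option autoImplicit false

namespace Pool.Agent.Lib.FenceGlue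

open Polynomial Pool.Agent.Lib.ThreeRun

/-- values of a polynomial in the falling factorial basis -/
noncomputable def VV (F : ℝ[X]) (c : ℕ) : ℝ :=
  ∑ k ∈ Finset.range (c + 1), F.coeff k * (c.descFactorial k : ℝ)

/-- values of a polynomial in the binomial basis -/
noncomputable def WW (E : ℝ[X]) (c : ℕ) : ℝ :=
  ∑ k ∈ Finset.range (c + 1), E.coeff k * (c.choose k : ℝ)

theorem VV_hat (E : ℝ[X]) (c : ℕ) : VV (hat E) c = WW E c := by
  unfold VV WW
  refine Finset.sum_congr rfl fun k _ => ?_
  rw [hat_coeff, Nat.descFactorial_eq_factorial_mul_choose]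
  have h1 : (k.factorial : ℝ) ≠ 0 := by exact_mod_cast k.factorial_ne_zero
  push_cast
  field_simp

theorem VV_add (F G : ℝ[X]) (c : ℕ) : VV (F + G) c = VV F c + VV G c := by
  unfold VV
  rw [← Finset.sum_add_distrib]
  exact Finset.sum_congr rfl fun k _ => by rw [coeff_add, add_mul]

theorem VV_C_mul (a : ℝ) (F : ℝ[X]) (c : ℕ) : VV (C a * F) c = a * VV F c := by
  unfold VV
  rw [Finset.mul_sum]
  exact Finset.sum_congr rfl fun k _ => by rw [coeff_C_mul, mul_assoc]

theorem VV_one (c : ℕ) : VV 1 c = 1 := by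
  unfold VV
  rw [Finset.sum_eq_single 0]
  · simp
  · intro k _ hk
    rw [coeff_one, if_neg hk, zero_mul]
  · intro h
    exact absurd (Finset.mem_range.2 (Nat.succ_pos c)) h

theorem VV_X_mul_zero (F : ℝ[X]) : VV (X * F) 0 = 0 := by
  unfold VV
  simp

theorem VV_X_mul_succ (F : ℝ[X]) (c : ℕ) : VV (X * F) (c + 1) = (c + 1) * VV F c := by
  unfold VV
  rw [Finset.sum_range_succ', Finset.mul_sum]
  have h1 : (X * F).coeff 0 = 0 := by simp
  rw [h1, zero_mul, add_zero]
  refine Finset.sum_congr rfl fun k _ => ?_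
  rw [coeff_X_mul, Nat.succ_descFactorial_succ]
  push_cast
  ring

theorem VV_add_derivative (F : ℝ[X]) (c : ℕ) : VV (F + derivative F) c = VV F (c + 1) := by
  unfold VV
  have h1 : ∀ k, ((c + 1).descFactorial (k + 1) : ℝ) =
      c.descFactorial (k + 1) + (k + 1) * c.descFactorial k := by
    intro k
    rw [Nat.succ_descFactorial_succ, Nat.descFactorial_succ]
    rcases Nat.lt_or_ge c k with h | h
    · rw [Nat.descFactorial_of_lt h]; simp
    · push_cast [Nat.cast_sub h]
      ring
  rw [Finset.sum_range_succ' _ (c + 1)]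
  have h2 : ∀ k ∈ Finset.range (c + 1), F.coeff (k + 1) * ((c + 1).descFactorial (k + 1) : ℝ) =
      F.coeff (k + 1) * (c.descFactorial (k + 1) : ℝ) +
        (derivative F).coeff k * (c.descFactorial k : ℝ) := by
    intro k _
    rw [h1, coeff_derivative]
    ring
  rw [Finset.sum_congr rfl h2, Finset.sum_add_distrib]
  have h3 : ∑ k ∈ Finset.range (c + 1), F.coeff (k + 1) * (c.descFactorial (k + 1) : ℝ) +
      F.coeff 0 * (c.descFactorial 0 : ℝ) =
      ∑ k ∈ Finset.range (c + 1), F.coeff k * (c.descFactorial k : ℝ) := by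
    rw [← Finset.sum_range_succ' (fun k => F.coeff k * (c.descFactorial k : ℝ)) (c + 1),
      Finset.sum_range_succ, Nat.descFactorial_of_lt (Nat.lt_succ_self c)]
    simp
  have h4 : ∑ k ∈ Finset.range (c + 1), (F + derivative F).coeff k * (c.descFactorial k : ℝ) =
      ∑ k ∈ Finset.range (c + 1), F.coeff k * (c.descFactorial k : ℝ) +
      ∑ k ∈ Finset.range (c + 1), (derivative F).coeff k * (c.descFactorial k : ℝ) := by
    rw [← Finset.sum_add_distrib]
    exact Finset.sum_congr rfl fun k _ => by rw [coeff_add, add_mul]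
  rw [h4, ← h3]
  simp only [Nat.descFactorial_zero]
  ring

theorem VV_inj {F G : ℝ[X]} (h : ∀ c, VV F c = VV G c) : F = G := by
  ext n
  induction n using Nat.strong_induction_on with
  | _ n ih =>
    have h1 := h n
    unfold VV at h1
    rw [Finset.sum_range_succ, Finset.sum_range_succ] at h1
    have h2 : ∑ k ∈ Finset.range n, F.coeff k * (n.descFactorial k : ℝ) =
        ∑ k ∈ Finset.range n, G.coeff k * (n.descFactorial k : ℝ) :=
      Finset.sum_congr rfl fun k hk => by rw [ih k (Finset.mem_range.1 hk)]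
    rw [h2, Nat.descFactorial_self] at h1
    have h3 : (n.factorial : ℝ) ≠ 0 := by exact_mod_cast n.factorial_ne_zero
    have h4 := add_left_cancel h1
    exact mul_right_cancel₀ h3 h4

/-- the hat of a product -/
noncomputable def LL : List ℝ → ℝ[X] → ℝ[X]
  | [], f => f
  | b :: bs, f => C b * LL bs f + X * LL bs (f + derivative f)

theorem VV_LL (bs : List ℝ) : ∀ (f : ℝ[X]) (c : ℕ), VV (LL bs f) c = VV f c * VV (pb bs) c := by
  induction bs with
  | nil => intro f c; rw [pb_nil, VV_one, mul_one]; rfl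
  | cons b bs ih =>
    intro f c
    have e : LL (b :: bs) f = C b * LL bs f + X * LL bs (f + derivative f) := rfl
    rw [e, pb_cons, add_mul, VV_add, VV_add, VV_C_mul, VV_C_mul, ih]
    cases c with
    | zero => rw [VV_X_mul_zero, VV_X_mul_zero]; ring
    | succ c => rw [VV_X_mul_succ, VV_X_mul_succ, ih, VV_add_derivative]; ring

/-- the same operator with a fixed value of the multiplier -/
noncomputable def opz {R : Type*} [CommRing R] (z : R) : List R → R[X] → R[X]
  | [], F => F
  | b :: bs, F => opz z bs (C (b + z) * F + C z * derivative F)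

theorem opz_add {R : Type*} [CommRing R] (z : R) (bs : List R) : ∀ F G : R[X],
    opz z bs (F + G) = opz z bs F + opz z bs G := by
  induction bs with
  | nil => intro F G; rfl
  | cons b bs ih =>
    intro F G
    change opz z bs _ = opz z bs _ + opz z bs _
    rw [← ih]
    congr 1
    rw [derivative_add]
    ring

theorem opz_C_mul {R : Type*} [CommRing R] (z a : R) (bs : List R) : ∀ F : R[X],
    opz z bs (C a * F) = C a * opz z bs F := by
  induction bs with
  | nil => intro F; rfl
  | cons b bs ih =>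
    intro F
    change opz z bs _ = C a * opz z bs _
    rw [← ih]
    congr 1
    rw [derivative_C_mul]
    ring

theorem opz_derivative {R : Type*} [CommRing R] (z : R) (bs : List R) : ∀ F : R[X],
    opz z bs (derivative F) = derivative (opz z bs F) := by
  induction bs with
  | nil => intro F; rfl
  | cons b bs ih =>
    intro F
    change opz z bs _ = derivative (opz z bs _)
    rw [← ih]
    congr 1
    rw [derivative_add, derivative_C_mul, derivative_C_mul]

theorem opz_cons_eq {R : Type*} [CommRing R] (z b : R) (bs : List R) (F : R[X]) :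
    opz z (b :: bs) F = C (b + z) * opz z bs F + C z * derivative (opz z bs F) := by
  change opz z bs _ = _
  rw [opz_add, opz_C_mul, opz_C_mul, opz_derivative]

theorem LL_eval (z : ℝ) (bs : List ℝ) : ∀ f : ℝ[X],
    (LL bs f).eval z = (opz z bs f).eval z := by
  induction bs with
  | nil => intro f; rfl
  | cons b bs ih =>
    intro f
    have e : LL (b :: bs) f = C b * LL bs f + X * LL bs (f + derivative f) := rfl
    rw [e, opz_cons_eq, eval_add, eval_mul, eval_mul, ih, ih, opz_add, opz_derivative, eval_C, eval_X,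
      eval_add, eval_add, eval_mul, eval_mul, eval_C, eval_C]
    ring

theorem LL_evalC (z : ℂ) (bs : List ℝ) : ∀ f : ℝ[X],
    ((LL bs f).map Complex.ofRealHom).eval z =
      (opz z (bs.map Complex.ofRealHom) (f.map Complex.ofRealHom)).eval z := by
  induction bs with
  | nil => intro f; rfl
  | cons b bs ih =>
    intro f
    have e : LL (b :: bs) f = C b * LL bs f + X * LL bs (f + derivative f) := rfl
    rw [e, List.map_cons, opz_cons_eq, Polynomial.map_add, Polynomial.map_mul, Polynomial.map_mul,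
      map_C, map_X, eval_add, eval_mul, eval_mul, ih, ih, Polynomial.map_add, ← derivative_map,
      opz_add, opz_derivative, eval_C, eval_X, eval_add, eval_add, eval_mul, eval_mul, eval_C,
      eval_C]
    ring

/-- no zero in the half plane `Re (ζ̄ (x - ζ ^ 2)) ≥ 0` -/
def KZ (ζ : ℂ) (F : ℂ[X]) : Prop :=
  ∀ x : ℂ, 0 ≤ (starRingEnd ℂ ζ * (x - ζ ^ 2)).re → F.eval x ≠ 0

theorem glp_sum_re {ι : Type*} (f : ι → ℂ) (s : Multiset ι) :
    (∀ a ∈ s, 0 ≤ (f a).re) → 0 ≤ ((s.map f).sum).re := by
  induction s using Multiset.induction_on with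
  | empty => intro _; simp
  | cons a s ih =>
    intro h
    have h1 := h a (Multiset.mem_cons_self a s)
    have h2 := (ih (fun b hb => h b (Multiset.mem_cons_of_mem hb)))
    rw [Multiset.map_cons, Multiset.sum_cons, Complex.add_re]
    linarith

theorem glp_div_re {ζ u : ℂ} (h : 0 ≤ (starRingEnd ℂ ζ * u).re) : 0 ≤ (ζ * (1 / u)).re := by
  have h1 : (ζ * (1 / u)).re = (starRingEnd ℂ ζ * u).re / Complex.normSq u := by
    rw [one_div, Complex.mul_re, Complex.inv_re, Complex.inv_im, Complex.mul_re, Complex.conj_re,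
      Complex.conj_im]
    ring
  rw [h1]
  exact div_nonneg h (Complex.normSq_nonneg u)

/-- the logarithmic derivative at the points of the half plane -/
theorem KZ.logDeriv {ζ : ℂ} {F : ℂ[X]} (h : KZ ζ F) {x : ℂ}
    (hx : 0 ≤ (starRingEnd ℂ ζ * (x - ζ ^ 2)).re) :
    0 ≤ (ζ * ((derivative F).eval x / F.eval x)).re := by
  rw [(IsAlgClosed.splits F).eval_derivative_div_eval_of_ne_zero (h x hx)]
  rw [← Multiset.sum_map_mul_left]
  apply glp_sum_re
  intro r hr
  apply glp_div_re
  have h1 : ¬ 0 ≤ (starRingEnd ℂ ζ * (r - ζ ^ 2)).re := fun h2 =>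
    h r h2 (isRoot_of_mem_roots hr)
  push Not at h1
  have h3 : (starRingEnd ℂ ζ * (x - r)).re =
      (starRingEnd ℂ ζ * (x - ζ ^ 2)).re - (starRingEnd ℂ ζ * (r - ζ ^ 2)).re := by
    rw [← Complex.sub_re]
    congr 1
    ring
  rw [h3]
  linarith

theorem KZ.step {ζ : ℂ} (hζ : 0 < ζ.re) {F : ℂ[X]} (h : KZ ζ F) {b : ℝ} (hb : 0 ≤ b) :
    KZ ζ (C ((b : ℂ) + ζ ^ 2) * F + C (ζ ^ 2) * derivative F) := by
  intro x hx hcon
  have hF := h x hx
  have h1 := h.logDeriv hx
  have hz : ζ ≠ 0 := by
    rintro rfl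
    simp at hζ
  rw [eval_add, eval_mul, eval_mul, eval_C, eval_C] at hcon
  have h2 : ζ * ((derivative F).eval x / F.eval x) = -((b : ℂ) * (1 / ζ)) - ζ := by
    field_simp
    linear_combination hcon
  rw [h2, Complex.sub_re, Complex.neg_re, Complex.re_ofReal_mul] at h1
  have h3 : 0 ≤ (1 / ζ).re := by
    rw [one_div, Complex.inv_re]
    exact div_nonneg hζ.le (Complex.normSq_nonneg ζ)
  nlinarith [mul_nonneg hb h3]

theorem KZ.opz {ζ : ℂ} (hζ : 0 < ζ.re) (bs : List ℝ) (hb : ∀ b ∈ bs, 0 ≤ b) :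
    ∀ {F : ℂ[X]}, KZ ζ F → KZ ζ (opz (ζ ^ 2) (bs.map Complex.ofRealHom) F) := by
  induction bs with
  | nil => intro F h; exact h
  | cons b bs ih =>
    intro F h
    apply ih (fun b' hb' => hb b' (List.mem_cons_of_mem _ hb'))
    exact h.step hζ (hb b List.mem_cons_self)

theorem KZ_of_rs {p : ℝ[X]} (h : RS p) (hneg : ∀ x, p.eval x = 0 → x ≤ 0) {ζ : ℂ}
    (hζ : 0 < ζ.re) : KZ ζ (p.map Complex.ofRealHom) := by
  intro x hx hcon
  have h1 : p.Splits := splits_iff_card_roots.2 (roots_card_of_hs h)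
  obtain ⟨r, hr⟩ := h1.mem_range_of_isRoot h.ne_zero (i := Complex.ofRealHom) hcon
  rw [← hr] at hcon hx
  have h2 : p.eval r = 0 := by
    rw [eval_map, eval₂_at_apply, Complex.ofRealHom_eq_coe, Complex.ofReal_eq_zero] at hcon
    exact hcon
  have h3 := hneg r h2
  have h4 : (starRingEnd ℂ ζ * (Complex.ofRealHom r - ζ ^ 2)).re =
      r * ζ.re - Complex.normSq ζ * ζ.re := by
    have h5 : starRingEnd ℂ ζ * (Complex.ofRealHom r - ζ ^ 2) =
        (r : ℂ) * starRingEnd ℂ ζ - (Complex.normSq ζ : ℂ) * ζ := by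
      rw [Complex.normSq_eq_conj_mul_self, Complex.ofRealHom_eq_coe]
      ring
    rw [h5, Complex.sub_re, Complex.re_ofReal_mul, Complex.re_ofReal_mul, Complex.conj_re]
  rw [h4] at hx
  have h5 : 0 < Complex.normSq ζ := by
    apply Complex.normSq_pos.2
    rintro rfl
    simp at hζ
  nlinarith [mul_pos h5 hζ, mul_nonneg (neg_nonneg.2 h3) hζ.le]

theorem exists_sq_re_pos {z : ℂ} (hz : z.im ≠ 0) : ∃ ζ : ℂ, 0 < ζ.re ∧ ζ ^ 2 = z := by
  obtain ⟨w, hw⟩ := IsAlgClosed.exists_pow_nat_eq z (n := 2) (by norm_num)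
  have h1 : w.re ≠ 0 := by
    intro h
    apply hz
    rw [← hw, sq, Complex.mul_im, h]
    ring
  rcases lt_or_gt_of_ne h1 with h | h
  · exact ⟨-w, by simpa using h, by rw [neg_sq, hw]⟩
  · exact ⟨w, h, hw⟩

/-- The product polynomial has only real zeros. -/
theorem LL_rs {f : ℝ[X]} (h : RS f) (hneg : ∀ x, f.eval x = 0 → x ≤ 0) {bs : List ℝ}
    (hb : ∀ b ∈ bs, 0 ≤ b) : RS (LL bs f) := by
  intro z hz
  obtain ⟨ζ, hζ, rfl⟩ := exists_sq_re_pos hz.ne'
  rw [LL_evalC]
  apply KZ.opz hζ bs hb (KZ_of_rs h hneg hζ)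
  rw [sub_self, mul_zero, Complex.zero_re]

end Pool.Agent.Lib.FenceGlue
end

section

set_option autoImplicit false

namespace Pool.Agent.Lib.FenceGlue

open Polynomial Pool.Agent.Lib.ThreeRun Filter Topology

/-- A function `(ζ - ζ₀) ^ m B(ζ)` with nonnegative real part on the right half plane, `m ≥ 2`. -/
theorem dir_lemma {B : ℂ → ℂ} {ζ₀ : ℂ} (h0 : ζ₀.re = 0) (hB : ContinuousAt B ζ₀) {m : ℕ}
    (hm : 2 ≤ m) (h : ∀ ζ : ℂ, 0 < ζ.re → 0 ≤ ((ζ - ζ₀) ^ m * B ζ).re) : B ζ₀ = 0 := by
  have key : ∀ ω : ℂ, 0 < ω.re → 0 ≤ (ω ^ m * B ζ₀).re := by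
    intro ω hω
    have h1 : ∀ ε : ℝ, 0 < ε → 0 ≤ (ω ^ m * B (ζ₀ + ε * ω)).re := by
      intro ε hε
      have h2 := h (ζ₀ + ε * ω) (by
        rw [Complex.add_re, h0, zero_add, Complex.re_ofReal_mul]
        exact mul_pos hε hω)
      rw [add_sub_cancel_left, mul_pow, mul_assoc, ← Complex.ofReal_pow,
        Complex.re_ofReal_mul] at h2
      have h3 : 0 < ε ^ m := pow_pos hε m
      exact nonneg_of_mul_nonneg_right h2 h3
    have h4 : Tendsto (fun ε : ℝ => (ω ^ m * B (ζ₀ + ε * ω)).re) (𝓝[>] 0)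
        (𝓝 (ω ^ m * B ζ₀).re) := by
      have h5 : Tendsto (fun ε : ℝ => ζ₀ + (ε : ℂ) * ω) (𝓝 0) (𝓝 ζ₀) := by
        have h6 : Continuous (fun ε : ℝ => ζ₀ + (ε : ℂ) * ω) := by fun_prop
        have h7 := h6.tendsto 0
        simpa using h7
      have h8 : Tendsto (fun ε : ℝ => B (ζ₀ + (ε : ℂ) * ω)) (𝓝 0) (𝓝 (B ζ₀)) := hB.tendsto.comp h5
      have h9 := (h8.const_mul (ω ^ m))
      exact ((Complex.continuous_re.tendsto _).comp h9).mono_left nhdsWithin_le_nhds
    refine ge_of_tendsto h4 ?_
    filter_upwards [self_mem_nhdsWithin] with ε hε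
    exact h1 ε hε
  have hm0 : (m : ℂ) ≠ 0 := by exact_mod_cast (by omega : m ≠ 0)
  have hm0' : (0 : ℝ) < m := by exact_mod_cast (by omega : 0 < m)
  have hcos : 0 < Real.cos (2 * Real.pi / 3 / m) := by
    apply Real.cos_pos_of_mem_Ioo
    constructor
    · have : 0 < 2 * Real.pi / 3 / m := by positivity
      linarith [Real.pi_pos]
    · rw [div_lt_iff₀ hm0']
      have : (2 : ℝ) ≤ m := by exact_mod_cast hm
      nlinarith [Real.pi_pos]
  have e1 : ∀ t : ℝ, (Complex.exp ((t / m : ℝ) * Complex.I)) ^ m = Complex.exp (t * Complex.I) := by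
    intro t
    rw [← Complex.exp_nat_mul]
    congr 1
    push_cast
    field_simp
  have h1 := key 1 (by simp)
  have h2 := key (Complex.exp ((2 * Real.pi / 3 / m : ℝ) * Complex.I)) (by
    rw [Complex.exp_ofReal_mul_I_re]; exact hcos)
  have h3 := key (Complex.exp ((-(2 * Real.pi / 3) / m : ℝ) * Complex.I)) (by
    rw [Complex.exp_ofReal_mul_I_re, neg_div, Real.cos_neg]; exact hcos)
  rw [one_pow, one_mul] at h1
  rw [e1, Complex.mul_re, Complex.exp_ofReal_mul_I_re, Complex.exp_ofReal_mul_I_im] at h2 h3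
  have c1 : Real.cos (2 * Real.pi / 3) = -1 / 2 := by
    rw [show 2 * Real.pi / 3 = Real.pi - Real.pi / 3 by ring, Real.cos_pi_sub, Real.cos_pi_div_three]
    norm_num
  have s1 : 0 < Real.sin (2 * Real.pi / 3) := by
    apply Real.sin_pos_of_pos_of_lt_pi <;> linarith [Real.pi_pos]
  rw [c1] at h2
  rw [Real.cos_neg, Real.sin_neg, c1] at h3
  have hre : (B ζ₀).re = 0 := by linarith
  rw [hre] at h2 h3
  have him : Real.sin (2 * Real.pi / 3) * (B ζ₀).im = 0 := by linarith
  apply Complex.ext
  · exact hre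
  · exact (mul_eq_zero.1 him).resolve_left s1.ne'

/-- For a fixed real value of the multiplier the operator preserves simple zeros. -/
theorem opz_simple {z : ℝ} (hz : z ≠ 0) (bs : List ℝ) : ∀ {f : ℝ[X]}, RS f →
    (∀ x, SimpleAt f x) → bs.Nodup → (f.natDegree ≠ 0 ∨ ∀ b ∈ bs, b + z ≠ 0) →
    RS (opz z bs f) ∧ ∀ x, SimpleAt (opz z bs f) x := by
  induction bs with
  | nil => intro f h hs _ _; exact ⟨h, hs⟩
  | cons b bs ih =>
    intro f h hs hnd hcond
    have hnd' := List.nodup_cons.1 hnd
    change RS (opz z bs (C (b + z) * f + C z * derivative f)) ∧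
      ∀ x, SimpleAt (opz z bs (C (b + z) * f + C z * derivative f)) x
    by_cases hbz : b + z = 0
    · have hd : f.natDegree ≠ 0 := by
        rcases hcond with h1 | h1
        · exact h1
        · exact absurd hbz (h1 b List.mem_cons_self)
      refine ih (h.add_derivative (Or.inr hd) hz) (fun x => h.simple_step hd hz (hs x)) hnd'.2 ?_
      right
      intro b' hb' h3
      have : b' = b := by linarith
      rw [this] at hb'
      exact hnd'.1 hb'
    · by_cases hd : f.natDegree = 0
      · have e1 : C (b + z) * f + C z * derivative f = C (b + z) * f := by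
          rw [eq_C_of_natDegree_eq_zero hd, derivative_C, mul_zero, add_zero]
        rw [e1]
        have hconst : ∀ x, (C (b + z) * f).eval x ≠ 0 := by
          intro x h5
          rw [eq_C_of_natDegree_eq_zero hd, ← C_mul, eval_C] at h5
          rcases mul_eq_zero.1 h5 with h6 | h6
          · exact hbz h6
          · apply h.ne_zero
            rw [eq_C_of_natDegree_eq_zero hd, h6, C_0]
        refine ih ?_ (fun x hx => absurd hx (hconst x)) hnd'.2 ?_
        · rw [← e1]
          exact h.add_derivative (Or.inl hbz) hz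
        · right
          rcases hcond with h1 | h1
          · exact absurd hd h1
          · exact fun b' hb' => h1 b' (List.mem_cons_of_mem _ hb')
      · refine ih (h.add_derivative (Or.inr hd) hz) (fun x => h.simple_step hd hz (hs x))
          hnd'.2 ?_
        left
        have h6 : (C (b + z) * f + C z * derivative f).coeff f.natDegree ≠ 0 := by
          rw [coeff_add, coeff_C_mul, coeff_C_mul, coeff_derivative,
            coeff_eq_zero_of_natDegree_lt (Nat.lt_succ_self _), zero_mul, mul_zero, add_zero]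
          exact mul_ne_zero hbz (leadingCoeff_ne_zero.2 h.ne_zero)
        have h7 := le_natDegree_of_ne_zero h6
        omega

theorem gls_re_pos {ζ : ℂ} (hζ : 0 < ζ.re) {b : ℝ} (hb : 0 ≤ b) {F : ℂ[X]} (h : KZ ζ F) :
    0 ≤ ((((b : ℂ) + ζ ^ 2) * F.eval (ζ ^ 2) + ζ ^ 2 * (derivative F).eval (ζ ^ 2)) *
      starRingEnd ℂ (ζ * F.eval (ζ ^ 2))).re := by
  have hx : 0 ≤ (starRingEnd ℂ ζ * (ζ ^ 2 - ζ ^ 2)).re := by
    rw [sub_self, mul_zero, Complex.zero_re]
  have hF := h _ hx
  have h1 := h.logDeriv hx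
  have hz : ζ ≠ 0 := by
    rintro rfl
    simp at hζ
  have e : (((b : ℂ) + ζ ^ 2) * F.eval (ζ ^ 2) + ζ ^ 2 * (derivative F).eval (ζ ^ 2)) *
      starRingEnd ℂ (ζ * F.eval (ζ ^ 2)) =
      (Complex.normSq (ζ * F.eval (ζ ^ 2)) : ℂ) * ((b : ℂ) * (1 / ζ) + ζ +
        ζ * ((derivative F).eval (ζ ^ 2) / F.eval (ζ ^ 2))) := by
    rw [Complex.normSq_eq_conj_mul_self]
    field_simp
  rw [e, Complex.re_ofReal_mul, Complex.add_re, Complex.add_re, Complex.re_ofReal_mul]
  apply mul_nonneg (Complex.normSq_nonneg _)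
  have h3 : 0 ≤ (1 / ζ).re := by
    rw [one_div, Complex.inv_re]
    exact div_nonneg hζ.le (Complex.normSq_nonneg ζ)
  have := mul_nonneg hb h3
  linarith

/-- The product polynomial has only simple zeros (nonconstant case). -/
theorem LL_simple {f : ℝ[X]} (h : RS f) (hneg : ∀ x, f.eval x = 0 → x ≤ 0)
    (hs : ∀ x, SimpleAt f x) (hd : f.natDegree ≠ 0) {bs : List ℝ} (hb : ∀ b ∈ bs, 0 ≤ b)
    (hnd : bs.Nodup) {x : ℝ} (hx : x < 0) : SimpleAt (LL bs f) x := by
  cases bs with
  | nil => exact hs x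
  | cons b bs =>
    intro h1 h2
    have hb' : ∀ b' ∈ bs, 0 ≤ b' := fun b' hb'' => hb b' (List.mem_cons_of_mem _ hb'')
    have hL : RS (LL (b :: bs) f) := LL_rs h hneg hb
    -- the value of the smaller product at `x`
    have hN : (opz x bs f).eval x ≠ 0 := by
      intro h3
      have h4 := (opz_simple hx.ne bs h hs (List.nodup_cons.1 hnd).2 (Or.inl hd)).2 x h3
      rw [LL_eval, opz_cons_eq, eval_add, eval_mul, eval_mul, h3, mul_zero, zero_add, eval_C] at h1
      rcases mul_eq_zero.1 h1 with h5 | h5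
      · exact hx.ne h5
      · exact h4 h5
    -- the multiplicity
    obtain ⟨L₂, hL₂, hL₂'⟩ := exists_eq_pow_rootMultiplicity_mul_and_not_dvd (LL (b :: bs) f)
      hL.ne_zero x
    have hm : 1 < rootMultiplicity x (LL (b :: bs) f) :=
      (one_lt_rootMultiplicity_iff_isRoot hL.ne_zero).2 ⟨h1, h2⟩
    obtain ⟨m, hmm⟩ : ∃ m, m = rootMultiplicity x (LL (b :: bs) f) := ⟨_, rfl⟩
    rw [← hmm] at hL₂ hm
    have hL₂x : L₂.eval x ≠ 0 := fun h3 => hL₂' (dvd_iff_isRoot.2 h3)
    -- the square root
    obtain ⟨ζ₀, hζ₀⟩ : ∃ ζ₀ : ℂ, ζ₀ = (Real.sqrt (-x) : ℂ) * Complex.I := ⟨_, rfl⟩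
    have hζre : ζ₀.re = 0 := by rw [hζ₀, Complex.re_ofReal_mul]; simp
    have hζsq : ζ₀ ^ 2 = (x : ℂ) := by
      rw [hζ₀, mul_pow, Complex.I_sq, ← Complex.ofReal_pow, Real.sq_sqrt (by linarith)]
      push_cast
      ring
    have hζne : ζ₀ ≠ 0 := by
      intro h3
      rw [h3] at hζsq
      apply hx.ne
      have : (x : ℂ) = 0 := by rw [← hζsq]; ring
      exact_mod_cast this
    obtain ⟨B, hB⟩ : ∃ B : ℂ → ℂ, B = fun ζ => (ζ + ζ₀) ^ m *
        (L₂.map Complex.ofRealHom).eval (ζ ^ 2) *
        starRingEnd ℂ (ζ * ((LL bs f).map Complex.ofRealHom).eval (ζ ^ 2)) := ⟨_, rfl⟩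
    have hBc : ContinuousAt B ζ₀ := by
      rw [hB]
      have c1 : Continuous fun ζ : ℂ => (L₂.map Complex.ofRealHom).eval (ζ ^ 2) :=
        (L₂.map Complex.ofRealHom).continuous.comp (continuous_pow 2)
      have c2 : Continuous fun ζ : ℂ => ((LL bs f).map Complex.ofRealHom).eval (ζ ^ 2) :=
        ((LL bs f).map Complex.ofRealHom).continuous.comp (continuous_pow 2)
      have c3 : Continuous fun ζ : ℂ => starRingEnd ℂ (ζ * ((LL bs f).map Complex.ofRealHom).eval
          (ζ ^ 2)) := Complex.continuous_conj.comp (continuous_id.mul c2)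
      exact (((((continuous_id.add continuous_const).pow m).mul c1).mul c3)).continuousAt
    have hev : ∀ p : ℝ[X], (p.map Complex.ofRealHom).eval (x : ℂ) = ((p.eval x : ℝ) : ℂ) := by
      intro p
      rw [eval_map, ← Complex.ofRealHom_eq_coe, eval₂_at_apply, Complex.ofRealHom_eq_coe]
    have hB0 : B ζ₀ = 0 := by
      apply dir_lemma hζre hBc hm
      intro ζ hζ
      have hK := KZ.opz hζ bs hb' (KZ_of_rs h hneg hζ)
      have h3 := gls_re_pos hζ (hb b List.mem_cons_self) hK
      have e : (ζ - ζ₀) ^ m * B ζ = (((b : ℂ) + ζ ^ 2) * (opz (ζ ^ 2) (bs.map Complex.ofRealHom)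
          (f.map Complex.ofRealHom)).eval (ζ ^ 2) + ζ ^ 2 * (derivative (opz (ζ ^ 2)
          (bs.map Complex.ofRealHom) (f.map Complex.ofRealHom))).eval (ζ ^ 2)) *
          starRingEnd ℂ (ζ * (opz (ζ ^ 2) (bs.map Complex.ofRealHom)
          (f.map Complex.ofRealHom)).eval (ζ ^ 2)) := by
        have e1 : (((b : ℂ) + ζ ^ 2) * (opz (ζ ^ 2) (bs.map Complex.ofRealHom)
          (f.map Complex.ofRealHom)).eval (ζ ^ 2) + ζ ^ 2 * (derivative (opz (ζ ^ 2)
          (bs.map Complex.ofRealHom) (f.map Complex.ofRealHom))).eval (ζ ^ 2)) =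
          ((LL (b :: bs) f).map Complex.ofRealHom).eval (ζ ^ 2) := by
          rw [LL_evalC, List.map_cons, opz_cons_eq, eval_add, eval_mul, eval_mul, eval_C, eval_C]
          rfl
        rw [e1, ← LL_evalC, hB]
        conv_rhs => rw [hL₂]
        rw [Polynomial.map_mul, Polynomial.map_pow, Polynomial.map_sub, map_X, map_C, eval_mul,
          eval_pow, eval_sub, eval_X, eval_C, Complex.ofRealHom_eq_coe, ← hζsq]
        rw [show ζ ^ 2 - ζ₀ ^ 2 = (ζ - ζ₀) * (ζ + ζ₀) by ring, mul_pow]
        ring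
      rw [e]
      exact h3
    rw [hB] at hB0
    simp only [hζsq, hev, LL_eval] at hB0
    apply mul_ne_zero (mul_ne_zero (pow_ne_zero m _) _) _ hB0
    · rw [← two_mul]
      exact mul_ne_zero two_ne_zero hζne
    · exact_mod_cast hL₂x
    · rw [Ne, map_eq_zero]
      exact mul_ne_zero hζne (by exact_mod_cast hN)

end Pool.Agent.Lib.FenceGlue
end

section

set_option autoImplicit false

namespace Pool.Agent.Lib.FenceGlue

open Finset Polynomial Filter Topology

theorem WW_add (F G : ℝ[X]) (c : ℕ) : WW (F + G) c = WW F c + WW G c := by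
  unfold WW
  rw [← Finset.sum_add_distrib]
  exact Finset.sum_congr rfl fun k _ => by rw [coeff_add, add_mul]

theorem WW_C_mul (a : ℝ) (F : ℝ[X]) (c : ℕ) : WW (C a * F) c = a * WW F c := by
  unfold WW
  rw [Finset.mul_sum]
  exact Finset.sum_congr rfl fun k _ => by rw [coeff_C_mul, mul_assoc]

theorem WW_zero (c : ℕ) : WW 0 c = 0 := by
  unfold WW
  simp

theorem WW_X_pow (K c : ℕ) : WW (X ^ K) c = (c.choose K : ℝ) := by
  unfold WW
  rcases Nat.lt_or_ge c K with h | h
  · rw [Nat.choose_eq_zero_of_lt h, Nat.cast_zero]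
    apply Finset.sum_eq_zero
    intro k hk
    rw [Finset.mem_range] at hk
    rw [coeff_X_pow, if_neg (by omega), zero_mul]
  · rw [Finset.sum_eq_single K]
    · rw [coeff_X_pow, if_pos rfl, one_mul]
    · intro k _ hk
      rw [coeff_X_pow, if_neg hk, zero_mul]
    · intro h1
      rw [Finset.mem_range] at h1
      omega

theorem WW_one_add_X_pow (j : ℕ) : ∀ K c : ℕ,
    WW ((1 + X) ^ j * X ^ K) c = ((c + j).choose (K + j) : ℝ) := by
  induction j with
  | zero => intro K c; rw [pow_zero, one_mul, WW_X_pow]; rfl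
  | succ j ih =>
    intro K c
    have e : ((1 + X) ^ (j + 1) * X ^ K : ℝ[X]) = (1 + X) ^ j * X ^ K + (1 + X) ^ j * X ^ (K + 1) := by
      ring
    rw [e, WW_add, ih, ih, show c + (j + 1) = (c + j) + 1 by ring,
      show K + (j + 1) = (K + j) + 1 by ring, Nat.choose_succ_succ,
      show K + 1 + j = K + j + 1 by ring]
    push_cast
    rfl

theorem WW_inj {F G : ℝ[X]} (h : ∀ c, WW F c = WW G c) : F = G := by
  ext n
  induction n using Nat.strong_induction_on with
  | _ n ih =>
    have h1 := h n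
    unfold WW at h1
    rw [Finset.sum_range_succ, Finset.sum_range_succ] at h1
    have h2 : ∑ k ∈ Finset.range n, F.coeff k * (n.choose k : ℝ) =
        ∑ k ∈ Finset.range n, G.coeff k * (n.choose k : ℝ) :=
      Finset.sum_congr rfl fun k hk => by rw [ih k (Finset.mem_range.1 hk)]
    rw [h2, Nat.choose_self] at h1
    have h4 := add_left_cancel h1
    simpa using h4

theorem WW_at_zero (F : ℝ[X]) : WW F 0 = F.coeff 0 := by
  unfold WW
  simp

/-- the counting polynomials attached to a function of the cone -/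
def Fam (d : ℕ) (ψ : ℕ → ℕ → ℕ → ℕ) : Prop :=
  ∃ (E : ℕ → ℝ[X]) (η : ℝ[X]),
    (∀ b m, ((∑ p ∈ antidiagonal m, ∑ q ∈ antidiagonal p.2,
        ψ p.1 q.1 q.2 * (q.1 + b).choose b : ℕ) : ℝ) = WW ((1 + X) ^ (b + 2) * E b) m) ∧
    (∀ b, (E b).natDegree ≤ d) ∧ (∀ b k, 0 ≤ (E b).coeff k) ∧
    (∀ k, Tendsto (fun b : ℕ => (E b).coeff k / ((b : ℝ) + 1) ^ k) atTop
      (𝓝 ((hat η).coeff k))) ∧
    (∀ c, (ψ 0 c 0 : ℝ) = WW η c)

theorem Fam.zero (d : ℕ) : Fam d 0 := by
  refine ⟨fun _ => 0, 0, ?_, ?_, ?_, ?_, ?_⟩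
  · intro b m
    rw [mul_zero, WW_zero]
    simp
  · intro b; simp
  · intro b k; simp
  · intro k
    rw [hat_zero]
    simp
  · intro c
    rw [WW_zero]
    simp

theorem Fam.add {d : ℕ} {φ ψ : ℕ → ℕ → ℕ → ℕ} (hφ : Fam d φ) (hψ : Fam d ψ) :
    Fam d (φ + ψ) := by
  obtain ⟨E, η, h1, h2, h3, h4, h5⟩ := hφ
  obtain ⟨E', η', h1', h2', h3', h4', h5'⟩ := hψ
  refine ⟨fun b => E b + E' b, η + η', ?_, ?_, ?_, ?_, ?_⟩
  · intro b m
    rw [mul_add, WW_add, ← h1, ← h1', ← Nat.cast_add]
    congr 1
    rw [← Finset.sum_add_distrib]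
    refine Finset.sum_congr rfl fun p _ => ?_
    rw [← Finset.sum_add_distrib]
    refine Finset.sum_congr rfl fun q _ => ?_
    simp only [Pi.add_apply]
    ring
  · intro b
    exact (natDegree_add_le _ _).trans (max_le (h2 b) (h2' b))
  · intro b k
    rw [coeff_add]
    exact add_nonneg (h3 b k) (h3' b k)
  · intro k
    rw [hat_add, coeff_add]
    have := (h4 k).add (h4' k)
    refine this.congr fun b => ?_
    rw [coeff_add, add_div]
  · intro c
    rw [WW_add, ← h5, ← h5']
    simp

theorem glf_ratio (G : ℕ) : Tendsto (fun b : ℕ => ((b + G).choose G : ℝ) / ((b : ℝ) + 1) ^ G) atTop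
    (𝓝 (1 / (G.factorial : ℝ))) := by
  induction G with
  | zero => simp
  | succ G ih =>
    have h1 : ∀ b : ℕ, ((b + (G + 1)).choose (G + 1) : ℝ) / ((b : ℝ) + 1) ^ (G + 1) =
        ((b + G).choose G : ℝ) / ((b : ℝ) + 1) ^ G *
          ((1 + (G : ℝ) * (1 / ((b : ℝ) + 1))) * (1 / ((G : ℝ) + 1))) := by
      intro b
      have h2 : ((b + G + 1 : ℕ) : ℝ) * ((b + G).choose G : ℝ) =
          ((b + (G + 1)).choose (G + 1) : ℝ) * ((G + 1 : ℕ) : ℝ) := by
        have := Nat.add_one_mul_choose_eq (b + G) G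
        exact_mod_cast this
      push_cast at h2
      have h3 : (b : ℝ) + 1 ≠ 0 := by positivity
      have h4 : (G : ℝ) + 1 ≠ 0 := by positivity
      rw [pow_succ]
      field_simp
      linear_combination (-1 : ℝ) * h2
    have h5 : Tendsto (fun b : ℕ => (1 + (G : ℝ) * (1 / ((b : ℝ) + 1))) * (1 / ((G : ℝ) + 1))) atTop
        (𝓝 ((1 + (G : ℝ) * 0) * (1 / ((G : ℝ) + 1)))) :=
      ((tendsto_one_div_add_atTop_nhds_zero_nat.const_mul (G : ℝ)).const_add 1).mul_const _
    have h6 := ih.mul h5
    rw [mul_zero, add_zero, one_mul] at h6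
    rw [show 1 / ((G + 1).factorial : ℝ) = 1 / (G.factorial : ℝ) * (1 / ((G : ℝ) + 1)) by
      rw [Nat.factorial_succ]
      push_cast
      rw [one_div_mul_one_div_rev]]
    exact h6.congr fun b => (h1 b).symm

theorem Fam.gen {d j g k : ℕ} (h : j + g + k ≤ d) :
    Fam d (fun a c e => a.choose j * c.choose g * e.choose k) := by
  refine ⟨fun b => C ((b + g).choose g : ℝ) * X ^ (j + g + k),
    if j = 0 ∧ k = 0 then X ^ g else 0, ?_, ?_, ?_, ?_, ?_⟩
  · intro b m
    have e1 : (1 + X) ^ (b + 2) * (C ((b + g).choose g : ℝ) * X ^ (j + g + k)) =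
        C ((b + g).choose g : ℝ) * ((1 + X) ^ (b + 2) * X ^ (j + g + k)) := by ring
    rw [e1, WW_C_mul, WW_one_add_X_pow, ← Nat.cast_mul]
    congr 1
    have h1 : ∀ p ∈ antidiagonal m, ∑ q ∈ antidiagonal p.2,
        p.1.choose j * q.1.choose g * q.2.choose k * (q.1 + b).choose b =
        (b + g).choose g * (p.1.choose j * (p.2 + (b + 1)).choose (b + g + k + 1)) := by
      intro p _
      have h2 : ∀ q ∈ antidiagonal p.2,
          p.1.choose j * q.1.choose g * q.2.choose k * (q.1 + b).choose b =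
          ((b + g).choose g * p.1.choose j) * ((q.1 + b).choose (b + g) * q.2.choose k) := by
        intro q _
        have h3 : (q.1 + b).choose (b + g) * (b + g).choose b =
            (q.1 + b).choose b * q.1.choose g := by
          rw [Nat.choose_mul (n := q.1 + b) (k := b + g) (s := b) (by omega)]
          congr 2 <;> omega
        have h4 : (b + g).choose g = (b + g).choose b := by
          rw [← Nat.choose_symm_add, Nat.add_comm]
        rw [h4]
        calc p.1.choose j * q.1.choose g * q.2.choose k * (q.1 + b).choose b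
            = p.1.choose j * q.2.choose k * ((q.1 + b).choose b * q.1.choose g) := by ring
          _ = p.1.choose j * q.2.choose k * ((q.1 + b).choose (b + g) * (b + g).choose b) := by
            rw [h3]
          _ = _ := by ring
      rw [Finset.sum_congr rfl h2, ← Finset.mul_sum, conv_shift b p.2 (b + g) k (by omega), mul_assoc,
        add_assoc p.2 b 1]
    rw [Finset.sum_congr rfl h1, ← Finset.mul_sum, conv_shift' (b + 1) m _ j (by omega)]
    congr 2
    ring
  · intro b
    exact (natDegree_C_mul_X_pow_le _ _).trans h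
  · intro b K
    rw [coeff_C_mul, coeff_X_pow]
    split_ifs <;> simp
  · intro K
    by_cases hK : K = j + g + k
    · subst hK
      have e1 : ∀ b : ℕ, (C ((b + g).choose g : ℝ) * X ^ (j + g + k)).coeff (j + g + k) /
          ((b : ℝ) + 1) ^ (j + g + k) = ((b + g).choose g : ℝ) / ((b : ℝ) + 1) ^ g *
            (1 / ((b : ℝ) + 1)) ^ (j + k) := by
        intro b
        rw [coeff_C_mul, coeff_X_pow, if_pos rfl, mul_one]
        have h3 : (b : ℝ) + 1 ≠ 0 := by positivity
        rw [one_div, inv_pow, ← div_eq_mul_inv, div_div, ← pow_add]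
        congr 2
        ring
      have e2 := (glf_ratio g).mul ((tendsto_one_div_add_atTop_nhds_zero_nat (𝕜 := ℝ)).pow (j + k))
      have e3 : (hat (if j = 0 ∧ k = 0 then X ^ g else 0 : ℝ[X])).coeff (j + g + k) =
          1 / (g.factorial : ℝ) * 0 ^ (j + k) := by
        split_ifs with h5
        · obtain ⟨rfl, rfl⟩ := h5
          rw [hat_coeff, coeff_X_pow]
          simp
        · rw [hat_zero, coeff_zero, zero_pow (by omega), mul_zero]
      rw [e3]
      exact e2.congr fun b => (e1 b).symm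
    · have e1 : ∀ b : ℕ, (C ((b + g).choose g : ℝ) * X ^ (j + g + k)).coeff K /
          ((b : ℝ) + 1) ^ K = 0 := by
        intro b
        rw [coeff_C_mul, coeff_X_pow, if_neg hK, mul_zero, zero_div]
      have e3 : (hat (if j = 0 ∧ k = 0 then X ^ g else 0 : ℝ[X])).coeff K = 0 := by
        split_ifs with h5
        · obtain ⟨rfl, rfl⟩ := h5
          rw [hat_coeff, coeff_X_pow, if_neg (by omega), zero_div]
        · rw [hat_zero, coeff_zero]
      rw [e3]
      exact tendsto_const_nhds.congr fun b => (e1 b).symm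
  · intro c
    by_cases h5 : j = 0 ∧ k = 0
    · rw [if_pos h5]
      obtain ⟨rfl, rfl⟩ := h5
      rw [WW_X_pow]
      simp
    · rw [if_neg h5, WW_zero]
      beta_reduce
      rcases Nat.eq_zero_or_pos j with hj | hj
      · have hk : 0 < k := by omega
        rw [Nat.choose_eq_zero_of_lt hk]
        simp
      · rw [Nat.choose_eq_zero_of_lt hj]
        simp

theorem Fam.of_mem {d : ℕ} {ψ : ℕ → ℕ → ℕ → ℕ} (h : ψ ∈ C3 d) : Fam d ψ := by
  unfold C3 at h
  induction h using AddSubmonoid.closure_induction with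
  | mem x hx =>
    obtain ⟨j, g, k, hd, rfl⟩ := hx
    exact Fam.gen hd
  | zero => exact Fam.zero d
  | add x y _ _ hx hy => exact hx.add hy

/-- the counting polynomial of a word -/
theorem exists_poly (w : List Bool) : ∃ E : ℝ[X], (∀ m, (Om w m : ℝ) = WW E m) ∧
    E.natDegree = w.length + 1 ∧ (∀ k, 0 ≤ E.coeff k) ∧ E.coeff 0 = 1 := by
  have key : ∀ (d : ℕ) (φ : ℕ → ℕ → ℕ), φ ∈ C2 d → ∃ F : ℝ[X],
      (∀ m, ((∑ p ∈ antidiagonal m, φ p.1 p.2 : ℕ) : ℝ) = WW F m) ∧
      F.natDegree ≤ d + 1 ∧ (∀ k, 0 ≤ F.coeff k) := by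
    intro d φ h
    unfold C2 at h
    induction h using AddSubmonoid.closure_induction with
    | mem x hx =>
      obtain ⟨j, k, hd, rfl⟩ := hx
      refine ⟨(1 + X) ^ 1 * X ^ (j + k), ?_, ?_, ?_⟩
      · intro m
        rw [WW_one_add_X_pow, conv_choose]
      · refine (natDegree_mul_le).trans ?_
        rw [pow_one, natDegree_X_pow]
        have : (1 + X : ℝ[X]).natDegree ≤ 1 := by
          refine (natDegree_add_le _ _).trans ?_
          simp
        omega
      · intro i
        rw [pow_one, add_mul, one_mul, coeff_add, ← pow_succ', coeff_X_pow, coeff_X_pow]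
        split_ifs <;> norm_num
    | zero => exact ⟨0, fun m => by rw [WW_zero]; simp, by simp, fun k => by simp⟩
    | add x y _ _ hx hy =>
      obtain ⟨F, h1, h2, h3⟩ := hx
      obtain ⟨G, h1', h2', h3'⟩ := hy
      refine ⟨F + G, fun m => ?_, (natDegree_add_le _ _).trans (max_le h2 h2'), fun k => ?_⟩
      · rw [WW_add, ← h1, ← h1', ← Nat.cast_add, ← Finset.sum_add_distrib]
        rfl
      · rw [coeff_add]
        exact add_nonneg (h3 k) (h3' k)
  obtain ⟨j, k, hjk, φ, hφ, h⟩ := rc_mem w
  obtain ⟨F, h1, h2, h3⟩ := key _ φ hφ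
  have e1 : ∀ m, (Om w m : ℝ) = WW ((1 + X) ^ 1 * X ^ (j + k) + F) m := by
    intro m
    rw [WW_add, WW_one_add_X_pow, ← h1, ← conv_choose, ← Nat.cast_add, ← Finset.sum_add_distrib]
    unfold Om
    rw [h]
    rfl
  have e2 : ∀ i, ((1 + X) ^ 1 * X ^ (j + k) + F : ℝ[X]).coeff i =
      (if i = j + k then 1 else 0) + (if i = j + k + 1 then 1 else 0) + F.coeff i := by
    intro i
    rw [pow_one, add_mul, one_mul, coeff_add, coeff_add, ← pow_succ', coeff_X_pow, coeff_X_pow]
  refine ⟨_, e1, ?_, ?_, ?_⟩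
  · apply le_antisymm
    · rw [natDegree_le_iff_coeff_eq_zero]
      intro N hN
      rw [e2, if_neg (by omega), if_neg (by omega), coeff_eq_zero_of_natDegree_lt (by omega)]
      norm_num
    · apply le_natDegree_of_ne_zero
      rw [e2, if_neg (by omega), if_pos (by omega)]
      have := h3 (w.length + 1)
      positivity
  · intro i
    rw [e2]
    have := h3 i
    split_ifs <;> positivity
  · have h4 := e1 0
    rw [Om_zero, WW_at_zero] at h4
    rw [← h4, Nat.cast_one]

end Pool.Agent.Lib.FenceGlue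
end

section

set_option autoImplicit false

namespace Pool.Agent.Lib.FenceGlue

open Finset Polynomial Filter Topology Pool.Agent.Lib.ThreeRun

theorem glg_nodup {p : ℝ[X]} (h : RS p) (hs : ∀ x, SimpleAt p x) : p.roots.Nodup := by
  classical
  rw [Multiset.nodup_iff_count_le_one]
  intro a
  rw [count_roots]
  by_contra hcon
  push Not at hcon
  have h1 := (one_lt_rootMultiplicity_iff_isRoot h.ne_zero).1 hcon
  exact hs a h1.1 h1.2

theorem glg_eq_pb {p : ℝ[X]} (h : PR p) (hs : ∀ x, SimpleAt p x) : ∃ s : List ℝ,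
    (∀ ρ ∈ s, 0 < ρ) ∧ s.Nodup ∧ s.length = p.natDegree ∧ p = C p.leadingCoeff * pb s := by
  have h1 := (splits_iff_card_roots.2 (roots_card_of_hs h.rs)).eq_prod_roots
  refine ⟨p.roots.toList.map (fun r => -r), ?_, ?_, ?_, ?_⟩
  · intro ρ hρ
    rw [List.mem_map] at hρ
    obtain ⟨r, hr, rfl⟩ := hρ
    rw [Multiset.mem_toList] at hr
    have := h.root_neg (isRoot_of_mem_roots hr)
    linarith
  · apply List.Nodup.map neg_injective
    rw [← Multiset.coe_nodup, Multiset.coe_toList]
    exact glg_nodup h.rs hs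
  · rw [List.length_map, Multiset.length_toList]
    exact roots_card_of_hs h.rs
  · unfold pb
    conv_lhs => rw [h1]
    congr 1
    rw [List.map_map, ← Multiset.prod_coe, ← Multiset.map_coe, Multiset.coe_toList]
    congr 1
    apply Multiset.map_congr rfl
    intro r _
    simp [sub_eq_add_neg]

theorem LL_deg (bs : List ℝ) : ∀ (d : ℕ) (f : ℝ[X]), f.natDegree ≤ d →
    (LL bs f).natDegree ≤ bs.length + d ∧ (LL bs f).coeff (bs.length + d) = f.coeff d := by
  induction bs with
  | nil =>
    intro d f h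
    rw [List.length_nil, zero_add]
    exact ⟨h, rfl⟩
  | cons b bs ih =>
    intro d f h
    have e : LL (b :: bs) f = C b * LL bs f + X * LL bs (f + derivative f) := rfl
    have h1 := ih d f h
    have h3 : (f + derivative f).natDegree ≤ d := by
      refine (natDegree_add_le _ _).trans (max_le h ?_)
      exact (natDegree_derivative_le f).trans (by omega)
    have h2 := ih d _ h3
    have h4 : (f + derivative f).coeff d = f.coeff d := by
      rw [coeff_add, coeff_derivative, coeff_eq_zero_of_natDegree_lt (by omega : f.natDegree < d + 1),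
        zero_mul, add_zero]
    rw [e, List.length_cons]
    constructor
    · rw [natDegree_le_iff_coeff_eq_zero]
      intro N hN
      obtain ⟨N, rfl⟩ : ∃ N', N = N' + 1 := ⟨N - 1, by omega⟩
      rw [coeff_add, coeff_C_mul, coeff_X_mul, coeff_eq_zero_of_natDegree_lt (by omega),
        coeff_eq_zero_of_natDegree_lt (by omega)]
      ring
    · rw [show bs.length + 1 + d = (bs.length + d) + 1 by ring, coeff_add, coeff_C_mul, coeff_X_mul,
        coeff_eq_zero_of_natDegree_lt (by omega), h2.2, h4]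
      ring

/-- The limit polynomial. -/
theorem limit_poly {A B η : ℝ[X]} (hA : PR A) (hB : PR B)
    (h : ∀ c, WW η c = WW A c * WW B c) :
    RS (hat η) ∧ (∀ x, SimpleAt (hat η) x) ∧ (hat η).natDegree = A.natDegree + B.natDegree := by
  obtain ⟨hA1, hA2⟩ := hA.hat
  obtain ⟨hB1, hB2⟩ := hB.hat
  by_cases hd : (hat A).natDegree = 0
  · have hd' : A.natDegree = 0 := by rwa [hat_natDegree] at hd
    have e1 : hat A = C ((hat A).coeff 0) := eq_C_of_natDegree_eq_zero hd
    have h0 : (hat A).coeff 0 ≠ 0 := hA1.coeff_zero.ne'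
    have e2 : hat η = C ((hat A).coeff 0) * hat B := by
      apply VV_inj
      intro c
      rw [VV_hat, h, VV_C_mul, VV_hat]
      congr 1
      rw [← VV_hat, e1]
      have := VV_C_mul ((hat A).coeff 0) 1 c
      rw [mul_one, VV_one, mul_one] at this
      rw [this, coeff_C_zero]
    rw [e2]
    refine ⟨?_, ?_, ?_⟩
    · intro z hz
      rw [Polynomial.map_mul, map_C, eval_mul, eval_C]
      exact mul_ne_zero (by simpa using h0) (hB1.rs z hz)
    · intro x hx
      rw [eval_mul, eval_C] at hx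
      rw [derivative_C_mul, eval_mul, eval_C]
      exact mul_ne_zero h0 (hB2 x ((mul_eq_zero.1 hx).resolve_left h0))
    · rw [natDegree_C_mul h0, hat_natDegree, hd', zero_add]
  · obtain ⟨bs, hbs, hnd, hlen, hBe⟩ := glg_eq_pb hB1 hB2
    have hlc : (hat B).leadingCoeff ≠ 0 := leadingCoeff_ne_zero.2 hB1.rs.ne_zero
    have e2 : hat η = C (hat B).leadingCoeff * LL bs (hat A) := by
      apply VV_inj
      intro c
      rw [VV_hat, h, VV_C_mul, VV_LL, ← VV_hat, ← VV_hat]
      conv_lhs => rw [hBe]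
      rw [VV_C_mul]
      ring
    have hneg : ∀ x, (hat A).eval x = 0 → x ≤ 0 := fun x hx => (hA1.root_neg hx).le
    have hb0 : ∀ b ∈ bs, 0 ≤ b := fun b hb => (hbs b hb).le
    have hL : RS (LL bs (hat A)) := LL_rs hA1.rs hneg hb0
    have hLroot : ∀ x, (LL bs (hat A)).eval x = 0 → x < 0 := by
      intro x hx
      -- the coefficients are nonnegative
      have hnn : ∀ (s : List ℝ), (∀ b ∈ s, 0 < b) → ∀ f : ℝ[X], (∀ k, 0 ≤ f.coeff k) →
          0 < f.coeff 0 → (∀ k, 0 ≤ (LL s f).coeff k) ∧ 0 < (LL s f).coeff 0 := by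
        intro s
        induction s with
        | nil => intro _ f h1 h2; exact ⟨h1, h2⟩
        | cons b s ih =>
          intro hs f h1 h2
          have hs' : ∀ b ∈ s, 0 < b := fun b' hb' => hs b' (List.mem_cons_of_mem _ hb')
          have hb := hs b List.mem_cons_self
          have h3 : ∀ k, 0 ≤ (f + derivative f).coeff k := by
            intro k
            rw [coeff_add, coeff_derivative]
            have := h1 k
            have := h1 (k + 1)
            positivity
          have h4 : 0 < (f + derivative f).coeff 0 := by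
            rw [coeff_add, coeff_derivative]
            have := h1 1
            positivity
          have h5 := ih hs' f h1 h2
          have h6 := ih hs' _ h3 h4
          have e : LL (b :: s) f = C b * LL s f + X * LL s (f + derivative f) := rfl
          rw [e]
          constructor
          · intro k
            cases k with
            | zero =>
              rw [coeff_add, coeff_C_mul, mul_coeff_zero, coeff_X_zero, zero_mul, add_zero]
              exact mul_nonneg hb.le (h5.1 0)
            | succ k =>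
              rw [coeff_add, coeff_C_mul, coeff_X_mul]
              exact add_nonneg (mul_nonneg hb.le (h5.1 _)) (h6.1 _)
          · rw [coeff_add, coeff_C_mul, mul_coeff_zero, coeff_X_zero, zero_mul, add_zero]
            exact mul_pos hb h5.2
      have h7 := hnn bs hbs (hat A) hA1.coeff_nonneg hA1.coeff_zero
      by_contra hcon
      push Not at hcon
      exact (eval_pos_of_coeff h7.1 h7.2 hcon).ne' hx
    have hLs : ∀ x, SimpleAt (LL bs (hat A)) x := by
      intro x hx
      exact LL_simple hA1.rs hneg hA2 hd hb0 hnd (hLroot x hx) hx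
    rw [e2]
    refine ⟨?_, ?_, ?_⟩
    · intro z hz
      rw [Polynomial.map_mul, map_C, eval_mul, eval_C]
      exact mul_ne_zero (by simpa using hlc) (hL z hz)
    · intro x hx
      rw [eval_mul, eval_C] at hx
      rw [derivative_C_mul, eval_mul, eval_C]
      exact mul_ne_zero hlc (hLs x ((mul_eq_zero.1 hx).resolve_left hlc))
    · rw [natDegree_C_mul hlc]
      have h8 := LL_deg bs (hat A).natDegree (hat A) le_rfl
      have h9 : (LL bs (hat A)).natDegree = bs.length + (hat A).natDegree := by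
        apply le_antisymm h8.1
        apply le_natDegree_of_ne_zero
        rw [h8.2]
        exact leadingCoeff_ne_zero.2 hA1.rs.ne_zero
      rw [h9, hlen, hat_natDegree, hat_natDegree, add_comm]

/-- the counting polynomial of the fence has only real zeros -/
def Good (w : List Bool) : Prop :=
  ∃ E : ℝ[X], (∀ m, (Om w m : ℝ) = WW E m) ∧ E.natDegree = w.length + 1 ∧ PR E

/-- an empty part or a fence, preceded by a step -/
def xo (e : Bool) : Option (List Bool) → List Bool
  | none => []
  | some w => e :: w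

def GoodO : Option (List Bool) → Prop
  | none => True
  | some w => Good w

theorem PR_one : PR 1 := by
  refine ⟨fun k => ?_, by simp, ?_⟩
  · rw [coeff_one]
    split_ifs <;> norm_num
  · intro z hz
    rw [Polynomial.map_one, eval_one]
    exact one_ne_zero

theorem side_left (ox : Option (List Bool)) (h : GoodO ox) : ∃ A : ℝ[X], PR A ∧
    A.natDegree = (xo true ox).length ∧ ∀ c, (rc (xo true ox) 0 c : ℝ) = WW A c := by
  cases ox with
  | none =>
    refine ⟨1, PR_one, by simp [xo], fun c => ?_⟩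
    have := WW_X_pow 0 c
    rw [pow_zero] at this
    rw [this]
    simp [xo, rc]
  | some w =>
    obtain ⟨E, h1, h2, h3⟩ := h
    refine ⟨E, h3, h2, fun c => ?_⟩
    rw [← h1]
    congr 1
    exact rc_true_left w c

theorem side_right (oy : Option (List Bool)) (h : GoodO oy) : ∃ A : ℝ[X], PR A ∧
    A.natDegree = (xo false oy).length ∧ ∀ c, (rc (xo false oy) c 0 : ℝ) = WW A c := by
  cases oy with
  | none =>
    refine ⟨1, PR_one, by simp [xo], fun c => ?_⟩
    have := WW_X_pow 0 c
    rw [pow_zero] at this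
    rw [this]
    simp [xo, rc]
  | some w =>
    obtain ⟨E, h1, h2, h3⟩ := h
    refine ⟨E, h3, h2, fun c => ?_⟩
    rw [← h1]
    congr 1

/-- **The gluing theorem for words.** -/
theorem glue_words (ox oy : Option (List Bool)) (hx : GoodO ox) (hy : GoodO oy) :
    ∀ᶠ b : ℕ in atTop,
      Good (rn (xo true ox) ++ (List.replicate (b + 1) true ++ xo false oy)) := by
  obtain ⟨A, hA, hAd, hAv⟩ := side_left ox hx
  obtain ⟨B, hB, hBd, hBv⟩ := side_right oy hy
  obtain ⟨d, hd⟩ : ∃ d, d = (xo true ox).length + (xo false oy).length := ⟨_, rfl⟩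
  have hmem : sbL (rc (xo true ox)) * sbR (rc (xo false oy)) ∈ C3 d := by
    rw [hd]
    exact C3_mul (sbL_mem (rc_mem' _)) (sbR_mem (rc_mem' _))
  obtain ⟨E, η, h1, h2, h3, h4, h5⟩ := Fam.of_mem hmem
  have h6 : ∀ c, WW η c = WW A c * WW B c := by
    intro c
    rw [← h5, ← hAv, ← hBv, ← Nat.cast_mul]
    congr 1
    change rc (xo true ox) 0 (c + 0) * rc (xo false oy) (0 + c) 0 = _
    rw [add_zero, zero_add]
  obtain ⟨hL1, hL2, hL3⟩ := limit_poly hA hB h6
  rw [hAd, hBd, ← hd] at hL3
  have h7 := pert hL3 hL1 hL2 (p := fun b : ℕ => (E b).comp (C (1 / ((b : ℝ) + 1)) * X))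
    (fun b => by
      refine natDegree_comp_le.trans ?_
      have h8 : (C (1 / ((b : ℝ) + 1)) * X : ℝ[X]).natDegree ≤ 1 := by
        refine (natDegree_C_mul_le _ _).trans ?_
        rw [natDegree_X]
      calc (E b).natDegree * (C (1 / ((b : ℝ) + 1)) * X : ℝ[X]).natDegree
          ≤ (E b).natDegree * 1 := Nat.mul_le_mul_left _ h8
        _ ≤ d := by rw [mul_one]; exact h2 b)
    (fun k => by
      refine (h4 k).congr fun b => ?_
      rw [comp_C_mul_X_coeff, one_div, inv_pow, div_eq_mul_inv])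
  filter_upwards [h7] with b hb
  obtain ⟨hb1, hb2⟩ := hb
  have hpos : (0 : ℝ) < (b : ℝ) + 1 := by positivity
  have hEd : (E b).natDegree = d := by
    apply le_antisymm (h2 b)
    rw [← hb1]
    refine natDegree_comp_le.trans ?_
    have h8 : (C (1 / ((b : ℝ) + 1)) * X : ℝ[X]).natDegree ≤ 1 := by
      refine (natDegree_C_mul_le _ _).trans ?_
      rw [natDegree_X]
    calc (E b).natDegree * (C (1 / ((b : ℝ) + 1)) * X : ℝ[X]).natDegree
        ≤ (E b).natDegree * 1 := Nat.mul_le_mul_left _ h8
      _ = (E b).natDegree := mul_one _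
  have hW : ∀ m, (Om (rn (xo true ox) ++ (List.replicate (b + 1) true ++ xo false oy)) m : ℝ) =
      WW ((1 + X) ^ (b + 2) * E b) m := by
    intro m
    rw [← h1, Om_glue]
  have hW0 : ((1 + X) ^ (b + 2) * E b).coeff 0 = 1 := by
    have := hW 0
    rw [Om_zero, WW_at_zero] at this
    rw [← this, Nat.cast_one]
  have hE0 : E b ≠ 0 := by
    intro h8
    rw [h8] at hW0
    simp at hW0
  have hRS : RS (E b) := by
    have h9 : ((E b).comp (C (1 / ((b : ℝ) + 1)) * X)) ≠ 0 := by
      intro h8
      have : (E b) = ((E b).comp (C (1 / ((b : ℝ) + 1)) * X)).comp (C ((b : ℝ) + 1) * X) := by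
        rw [comp_assoc, mul_comp, C_comp, X_comp, ← mul_assoc, ← C_mul, one_div_mul_cancel hpos.ne',
          C_1, one_mul, comp_X]
      apply hE0
      rw [this, h8, zero_comp]
    have h10 := hs_of_roots_card h9 (hb2.trans hb1.symm)
    intro z hz hcon
    apply h10 (((b : ℝ) + 1 : ℝ) * z)
    · rw [Complex.im_ofReal_mul]
      exact mul_pos hpos hz
    · rw [Polynomial.map_comp, Polynomial.map_mul, map_C, map_X, eval_comp, eval_mul, eval_C, eval_X,
        ← mul_assoc, Complex.ofRealHom_eq_coe, ← Complex.ofReal_mul, one_div_mul_cancel hpos.ne',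
        Complex.ofReal_one, one_mul]
      exact hcon
  refine ⟨(1 + X) ^ (b + 2) * E b, hW, ?_, ?_⟩
  · have hX : (1 + X : ℝ[X]) ≠ 0 := by
      intro h8
      have := congrArg (Polynomial.eval 0) h8
      simp at this
    have hXd : (1 + X : ℝ[X]).natDegree = 1 := by
      rw [add_comm, ← C_1]
      exact natDegree_X_add_C 1
    rw [natDegree_mul (pow_ne_zero _ hX) hE0, natDegree_pow, hXd, hEd, hd]
    simp only [List.length_append, rn_length, List.length_replicate]
    omega
  · refine ⟨fun k => ?_, ?_, ?_⟩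
    · rw [coeff_mul]
      refine Finset.sum_nonneg fun x _ => mul_nonneg ?_ (h3 b _)
      rw [coeff_one_add_X_pow]
      positivity
    · rw [hW0]
      norm_num
    · intro z hz
      rw [Polynomial.map_mul, Polynomial.map_pow, Polynomial.map_add, Polynomial.map_one, map_X,
        eval_mul, eval_pow, eval_add, eval_one, eval_X]
      apply mul_ne_zero (pow_ne_zero _ _) (hRS z hz)
      intro h8
      have := congrArg Complex.im h8
      simp at this
      exact hz.ne' this

end Pool.Agent.Lib.FenceGlue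
end

section

set_option autoImplicit false

namespace Pool.Agent.Lib.FenceGlue

open Finset Polynomial Pool.Agent.Lib.ThreeRun

theorem PatCount_congr {n : ℕ} {s s' : ℕ → Bool} (h : ∀ i, i + 1 < n → s i = s' i) (m : ℕ) :
    PatCount n s m = PatCount n s' m := by
  unfold PatCount
  refine Nat.card_congr (Equiv.subtypeEquivRight fun f => ?_)
  constructor
  · intro hf i hi
    rw [← h i.val hi]
    exact hf i hi
  · intro hf i hi
    rw [h i.val hi]
    exact hf i hi

theorem RR_congr {n : ℕ} {s s' : ℕ → Bool} (h : ∀ i, i + 1 < n → s i = s' i) (hs : RR n s) :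
    RR n s' := by
  intro p hp
  apply hs p
  rw [← hp]
  congr 2
  funext m
  rw [PatCount_congr h]

theorem RR_compl {n : ℕ} {s : ℕ → Bool} (hs : RR n s) : RR n (fun i => !(s i)) := by
  intro p hp
  apply hs p
  rw [← hp]
  congr 2
  funext m
  congr 1
  exact card_compl n m s

theorem GG_rc (m : ℕ) (w : List Bool) : ∀ A, A ≤ m →
    GG m (fun i => w.getD i false) w.length A = rc w A (m - A) := by
  induction w with
  | nil => intro A _; rfl
  | cons e w ih =>
    intro A hA
    rw [List.length_cons]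
    unfold GG
    have e1 : (fun i => (e :: w).getD (i + 1) false) = fun i => w.getD i false := by
      funext i
      exact List.getD_cons_succ ..
    have e0 : (fun i => (e :: w).getD i false) 0 = e := rfl
    rw [e1, e0]
    cases e with
    | true =>
      have h1 : (range (m + 1)).filter (fun j' => stp true A j') = Finset.Ico A (m + 1) := by
        ext x
        simp only [Finset.mem_filter, Finset.mem_range, Finset.mem_Ico, stp]
        simp only [forall_true_left, Bool.true_eq_false, false_imp_iff, and_true]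
        omega
      rw [h1]
      change _ = ∑ p ∈ antidiagonal (m - A), rc w (A + p.1) p.2
      rw [Finset.sum_Ico_eq_sum_range, Nat.sum_antidiagonal_eq_sum_range_succ_mk,
        show m + 1 - A = (m - A) + 1 by omega]
      refine sum_congr rfl fun x hx => ?_
      rw [mem_range] at hx
      rw [ih (A + x) (by omega)]
      congr 1
      omega
    | false =>
      have h1 : (range (m + 1)).filter (fun j' => stp false A j') = range (A + 1) := by
        ext x
        simp only [Finset.mem_filter, Finset.mem_range, stp]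
        simp only [forall_true_left, Bool.false_eq_true, false_imp_iff, true_and]
        omega
      rw [h1]
      change _ = ∑ p ∈ antidiagonal A, rc w p.1 (p.2 + (m - A))
      rw [Nat.sum_antidiagonal_eq_sum_range_succ_mk]
      refine sum_congr rfl fun x hx => ?_
      rw [mem_range] at hx
      rw [ih x (by omega)]
      congr 1
      omega

theorem PatCount_word (w : List Bool) (m : ℕ) :
    PatCount (w.length + 1) (fun i => w.getD i false) m = Om w m := by
  unfold PatCount
  rw [card_eq_sum w.length m (fun i => w.getD i false)]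
  unfold Om
  rw [Nat.sum_antidiagonal_eq_sum_range_succ_mk]
  refine sum_congr rfl fun x hx => ?_
  rw [mem_range] at hx
  exact GG_rc m w x (by omega)

/-- the numerator belonging to a counting polynomial -/
noncomputable def numer (n : ℕ) (E : ℝ[X]) : ℝ[X] :=
  ∑ k ∈ range (n + 1), C (E.coeff k) * (X ^ k * (1 - X) ^ (n - k))

theorem glc_choose (k : ℕ) : PowerSeries.mk (fun m : ℕ => (m.choose k : ℝ)) *
    (1 - PowerSeries.X) ^ (k + 1) = PowerSeries.X ^ k := by
  have h1 : PowerSeries.mk (fun m : ℕ => (m.choose k : ℝ)) =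
      PowerSeries.X ^ k * PowerSeries.mk (fun m : ℕ => ((k + m).choose k : ℝ)) := by
    ext m
    rw [PowerSeries.coeff_X_pow_mul', PowerSeries.coeff_mk]
    split_ifs with h
    · rw [PowerSeries.coeff_mk, Nat.add_sub_cancel' h]
    · rw [Nat.choose_eq_zero_of_lt (by omega), Nat.cast_zero]
  have h2 := PowerSeries.mk_add_choose_mul_one_sub_pow_eq_one ℝ k
  rw [h1, mul_assoc, h2, mul_one]

theorem glc_coe : (((1 - X : ℝ[X])) : PowerSeries ℝ) = 1 - PowerSeries.X := by
  ext m
  rw [Polynomial.coeff_coe]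
  simp [Polynomial.coeff_one, Polynomial.coeff_X, PowerSeries.coeff_one, PowerSeries.coeff_X,
    eq_comm]

theorem numer_eq (n : ℕ) (E : ℝ[X]) (hE : E.natDegree ≤ n) :
    PowerSeries.mk (fun m : ℕ => WW E m) * (1 - PowerSeries.X) ^ (n + 1) =
      (numer n E : PowerSeries ℝ) := by
  have h1 : PowerSeries.mk (fun m : ℕ => WW E m) =
      ∑ k ∈ range (n + 1), PowerSeries.C (E.coeff k) *
        PowerSeries.mk (fun m : ℕ => (m.choose k : ℝ)) := by
    ext m
    rw [PowerSeries.coeff_mk, map_sum]
    simp only [PowerSeries.coeff_C_mul, PowerSeries.coeff_mk]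
    unfold WW
    rcases le_total m n with h | h
    · apply Finset.sum_subset (by intro x; simp only [mem_range]; omega)
      intro x _ hx
      rw [mem_range] at hx
      rw [Nat.choose_eq_zero_of_lt (by omega), Nat.cast_zero, mul_zero]
    · symm
      apply Finset.sum_subset (by intro x; simp only [mem_range]; omega)
      intro x _ hx
      rw [mem_range] at hx
      rw [coeff_eq_zero_of_natDegree_lt (by omega), zero_mul]
  rw [h1, sum_mul]
  unfold numer
  have h2 : ((∑ k ∈ range (n + 1), C (E.coeff k) * (X ^ k * (1 - X) ^ (n - k)) : ℝ[X]) :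
      PowerSeries ℝ) = ∑ k ∈ range (n + 1), PowerSeries.C (E.coeff k) *
        (PowerSeries.X ^ k * (1 - PowerSeries.X) ^ (n - k)) := by
    rw [← Polynomial.coeToPowerSeries.ringHom_apply, map_sum]
    refine sum_congr rfl fun k _ => ?_
    rw [map_mul, map_mul, map_pow, map_pow]
    simp only [Polynomial.coeToPowerSeries.ringHom_apply, Polynomial.coe_C, Polynomial.coe_X,
      glc_coe]
  rw [h2]
  refine sum_congr rfl fun k hk => ?_
  rw [mem_range] at hk
  rw [show n + 1 = (k + 1) + (n - k) by omega, pow_add, mul_assoc, ← mul_assoc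
    (PowerSeries.mk fun m : ℕ => (m.choose k : ℝ)), glc_choose]

theorem numer_eval (n : ℕ) (E : ℝ[X]) (hE : E.natDegree ≤ n) {t : ℂ} (ht : t ≠ 1) :
    ((numer n E).map Complex.ofRealHom).eval t =
      (1 - t) ^ n * (E.map Complex.ofRealHom).eval (t / (1 - t)) := by
  have h1 : (1 - t) ≠ 0 := sub_ne_zero.2 ht.symm
  unfold numer
  rw [Polynomial.map_sum, eval_finsetSum,
    eval_eq_sum_range' (n := n + 1) (by
      rw [natDegree_map_eq_of_injective (Complex.ofRealHom).injective]; omega), mul_sum]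
  refine sum_congr rfl fun k hk => ?_
  rw [mem_range] at hk
  rw [Polynomial.map_mul, Polynomial.map_mul, Polynomial.map_pow, Polynomial.map_pow,
    Polynomial.map_sub, Polynomial.map_one, map_X, map_C, eval_mul, eval_mul, eval_pow, eval_pow,
    eval_sub, eval_one, eval_X, eval_C, coeff_map]
  have h2 : (1 - t) ^ n = (1 - t) ^ k * (1 - t) ^ (n - k) := by
    rw [← pow_add]
    congr 1
    omega
  rw [h2, div_pow]
  field_simp

theorem glc_im {t : ℂ} (ht : 0 < t.im) : 0 < (t / (1 - t)).im := by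
  have h1 : (1 - t) ≠ 0 := by
    intro h
    have := congrArg Complex.im h
    simp at this
    exact ht.ne' this
  rw [Complex.div_im]
  have h2 : 0 < Complex.normSq (1 - t) := Complex.normSq_pos.2 h1
  rw [← sub_div]
  apply div_pos _ h2
  simp only [Complex.sub_re, Complex.one_re, Complex.sub_im, Complex.one_im]
  nlinarith

theorem glc_im' {t : ℂ} (ht : 0 < t.im) : 0 < (t / (1 + t)).im := by
  have h1 : (1 + t) ≠ 0 := by
    intro h
    have := congrArg Complex.im h
    simp at this
    exact ht.ne' this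
  rw [Complex.div_im]
  have h2 : 0 < Complex.normSq (1 + t) := Complex.normSq_pos.2 h1
  rw [← sub_div]
  apply div_pos _ h2
  simp only [Complex.add_re, Complex.one_re, Complex.add_im, Complex.one_im]
  nlinarith

/-- the h*-polynomial is the numerator -/
theorem glc_h {w : List Bool} {E : ℝ[X]} (hE : ∀ m, (Om w m : ℝ) = WW E m)
    (hd : E.natDegree = w.length + 1) {h : ℤ[X]}
    (hh : PowerSeries.mk (fun m : ℕ => ((Om w m : ℕ) : ℤ)) *
      (1 - PowerSeries.X) ^ (w.length + 1 + 1) = (↑h : PowerSeries ℤ)) :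
    h.map (Int.castRingHom ℝ) = numer (w.length + 1) E := by
  apply Polynomial.coe_injective ℝ
  rw [← numer_eq _ _ hd.le]
  have h1 := congrArg (PowerSeries.map (Int.castRingHom ℝ)) hh
  rw [map_mul, map_pow, map_sub, map_one, PowerSeries.map_X] at h1
  have h2 : PowerSeries.map (Int.castRingHom ℝ) (PowerSeries.mk (fun m : ℕ => ((Om w m : ℕ) : ℤ))) =
      PowerSeries.mk (fun m : ℕ => WW E m) := by
    ext m
    rw [PowerSeries.coeff_map, PowerSeries.coeff_mk, PowerSeries.coeff_mk, ← hE]
    simp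
  have h3 : PowerSeries.map (Int.castRingHom ℝ) (↑h : PowerSeries ℤ) =
      ((h.map (Int.castRingHom ℝ) : ℝ[X]) : PowerSeries ℝ) := by
    ext m
    simp
  rw [h2, h3] at h1
  exact h1.symm

theorem glc_exists (w : List Bool) : ∃ h : ℤ[X],
    PowerSeries.mk (fun m : ℕ => ((Om w m : ℕ) : ℤ)) *
      (1 - PowerSeries.X) ^ (w.length + 1 + 1) = (↑h : PowerSeries ℤ) := by
  obtain ⟨E, hE, hd, -, -⟩ := exists_poly w
  obtain ⟨S, hS⟩ : ∃ S : PowerSeries ℤ, S = PowerSeries.mk (fun m : ℕ => ((Om w m : ℕ) : ℤ)) *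
      (1 - PowerSeries.X) ^ (w.length + 1 + 1) := ⟨_, rfl⟩
  rw [← hS]
  have h1 : PowerSeries.map (Int.castRingHom ℝ) S = (numer (w.length + 1) E : PowerSeries ℝ) := by
    rw [← numer_eq _ _ hd.le, hS, map_mul, map_pow, map_sub, map_one, PowerSeries.map_X]
    congr 1
    ext m
    rw [PowerSeries.coeff_map, PowerSeries.coeff_mk, PowerSeries.coeff_mk, ← hE]
    simp
  refine ⟨PowerSeries.trunc ((numer (w.length + 1) E).natDegree + 1) S, ?_⟩
  ext m
  rw [Polynomial.coeff_coe, PowerSeries.coeff_trunc]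
  split_ifs with h2
  · rfl
  · have h3 := congrArg (PowerSeries.coeff m) h1
    rw [PowerSeries.coeff_map, Polynomial.coeff_coe, coeff_eq_zero_of_natDegree_lt (by omega)] at h3
    have h4 : ((PowerSeries.coeff m S : ℤ) : ℝ) = 0 := h3
    exact_mod_cast h4

theorem glc_Om {w : List Bool} (h : ℤ[X]) :
    (PowerSeries.mk (fun m : ℕ => ((PatCount (w.length + 1) (fun i => w.getD i false) m : ℕ) : ℤ)) *
      (1 - PowerSeries.X) ^ (w.length + 1 + 1) = (↑h : PowerSeries ℤ)) ↔
    (PowerSeries.mk (fun m : ℕ => ((Om w m : ℕ) : ℤ)) *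
      (1 - PowerSeries.X) ^ (w.length + 1 + 1) = (↑h : PowerSeries ℤ)) := by
  simp only [PatCount_word]

theorem Good.rr {w : List Bool} (hw : Good w) : RR (w.length + 1) (fun i => w.getD i false) := by
  obtain ⟨E, hE, hd, hP⟩ := hw
  intro h hh
  rw [glc_Om] at hh
  have h1 := glc_h hE hd hh
  have h2 : HS ((h.map (Int.castRingHom ℝ)).map Complex.ofRealHom) := by
    intro t ht
    have ht1 : t ≠ 1 := by
      rintro rfl
      simp at ht
    rw [h1, numer_eval _ _ hd.le ht1]
    exact mul_ne_zero (pow_ne_zero _ (sub_ne_zero.2 ht1.symm)) (hP.rs _ (glc_im ht))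
  rw [roots_card_of_hs h2]
  exact natDegree_map_eq_of_injective (Int.castRingHom ℝ).injective_int _

theorem Good.of_rr {w : List Bool} (hw : RR (w.length + 1) (fun i => w.getD i false)) : Good w := by
  obtain ⟨E, hE, hd, hn, h0⟩ := exists_poly w
  obtain ⟨h, hh⟩ := glc_exists w
  have h1 := glc_h hE hd hh
  have h2 := hw h ((glc_Om h).2 hh)
  have h3 : (h.map (Int.castRingHom ℝ)).natDegree = h.natDegree :=
    natDegree_map_eq_of_injective (Int.castRingHom ℝ).injective_int _
  have hne : h.map (Int.castRingHom ℝ) ≠ 0 := by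
    intro h4
    have h5 : h = 0 := by
      apply Polynomial.map_injective _ (Int.castRingHom ℝ).injective_int
      rw [h4, Polynomial.map_zero]
    rw [h5] at hh
    have h6 := congrArg PowerSeries.constantCoeff hh
    rw [map_mul, map_pow, map_sub, PowerSeries.constantCoeff_X, map_one, sub_zero, one_pow, mul_one,
      ← PowerSeries.coeff_zero_eq_constantCoeff_apply, PowerSeries.coeff_mk, Om_zero] at h6
    simp at h6
  have h4 := hs_of_roots_card hne (h2.trans h3.symm)
  refine ⟨E, hE, hd, hn, by rw [h0]; norm_num, ?_⟩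
  intro z hz hcon
  have h5 : (1 + z) ≠ 0 := by
    intro h
    have := congrArg Complex.im h
    simp at this
    exact hz.ne' this
  apply h4 (z / (1 + z)) (glc_im' hz)
  have h6 : z / (1 + z) ≠ 1 := by
    intro h
    rw [div_eq_one_iff_eq h5] at h
    simp at h
  rw [h1, numer_eval _ _ hd.le h6]
  have h7 : z / (1 + z) / (1 - z / (1 + z)) = z := by
    field_simp
    ring_nf
  rw [h7, hcon, mul_zero]

end Pool.Agent.Lib.FenceGlue
end
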