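import Pool.Agent.Lib.MP_7d55f0_co.GLMain
import Pool.Agent.Lib.MP_7d55f0_co.FRMain

section

/-!
Fences with separated run lengths: the inductive step of `GLMain` with an arbitrary base case, and
the base case of four runs.
-/

set_option autoImplicit false

namespace Pool.Agent.Lib.FenceGlue

open Finset Pool.Agent.Lib.ThreeRun Filter

/-- the condition on the run lengths -/
def CondN (N : ℕ) (T : ℕ → ℕ) (α : List ℕ) : Prop :=
  ∀ x ∈ α, 2 ≤ x → N ≤ α.countP (fun y => decide (y ≤ x)) →
    α.count x = 1 ∧ ∀ y ∈ α, y < x → T y ≤ x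

theorem CondN.subperm {N : ℕ} {T T' : ℕ → ℕ} {α β : List ℕ} (h : CondN N T α) (hs : β.Subperm α)
    (hT : ∀ x, T' x ≤ T x) : CondN N T' β := by
  intro x hx h2 h4
  have h5 := h x (hs.subset hx) h2 (h4.trans (hs.countP_le _))
  refine ⟨?_, fun y hy hyx => (hT y).trans (h5.2 y (hs.subset hy) hyx)⟩
  apply le_antisymm
  · rw [← h5.1]; exact hs.count_le x
  · exact List.count_pos_iff.2 hx

theorem CondN.dec {N : ℕ} {T T' : ℕ → ℕ} {y : ℕ} {ys : List ℕ} (h : CondN N T ((y + 1) :: ys))
    (hy : 0 < y) (hmono : Monotone T) (h2 : ∀ x, x + 2 ≤ T x) (hT : ∀ x, T' x + 1 ≤ T x) :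
    CondN N T' (y :: ys) := by
  intro x hx hx2 hc
  have hcP : ∀ v w : ℕ, (v :: ys).countP (fun y => decide (y ≤ w)) =
      ys.countP (fun y => decide (y ≤ w)) + if v ≤ w then 1 else 0 := by
    intro v w
    rw [List.countP_cons]
    simp
  rw [hcP] at hc
  rcases eq_or_ne x y with rfl | hne
  · rw [if_pos le_rfl] at hc
    have h3 : ys.countP (fun y => decide (y ≤ x)) ≤ ys.countP (fun y => decide (y ≤ x + 1)) := by
      apply List.countP_mono_left
      intro z _ hz
      simp only [decide_eq_true_eq] at hz ⊢
      omega
    have h4 := h (x + 1) List.mem_cons_self (by omega) (by rw [hcP, if_pos le_rfl]; omega)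
    have h5 : x ∉ ys := by
      intro hmem
      have h6 := h4.2 x (List.mem_cons_of_mem _ hmem) (by omega)
      have := h2 x
      omega
    refine ⟨?_, ?_⟩
    · rw [List.count_cons_self, List.count_eq_zero_of_not_mem h5]
    · intro z hz hzx
      have hz' : z ∈ ys := by
        rcases List.mem_cons.1 hz with h7 | h7
        · omega
        · exact h7
      have h6 := h4.2 z (List.mem_cons_of_mem _ hz') (by omega)
      have := hT z
      omega
  · have hx' : x ∈ ys := by
      rcases List.mem_cons.1 hx with h7 | h7
      · exact absurd h7 hne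
      · exact h7
    have h8 : N ≤ ((y + 1) :: ys).countP (fun y => decide (y ≤ x)) := by
      rw [hcP]
      rcases Nat.lt_or_ge y x with h9 | h9
      · rw [if_pos (by omega)] at hc
        rw [if_pos (by omega)]
        exact hc
      · rw [if_neg (by omega)] at hc
        omega
    have h4 := h x (List.mem_cons_of_mem _ hx') hx2 h8
    have h10 : x ≠ y + 1 := by
      intro h11
      have h12 := h4.1
      rw [h11, List.count_cons_self] at h12
      have h13 : 0 < ys.count (y + 1) := List.count_pos_iff.2 (h11 ▸ hx')
      omega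
    have h14 : ys.count x = 1 := by
      have h12 := h4.1
      rwa [List.count_cons_of_ne (Ne.symm h10)] at h12
    refine ⟨?_, ?_⟩
    · rw [List.count_cons_of_ne (Ne.symm hne), h14]
    · intro z hz hzx
      rcases List.mem_cons.1 hz with h7 | h7
      · have h15 := h4.2 (y + 1) List.mem_cons_self (by omega)
        have h16 := hmono (Nat.le_succ y)
        have h17 := hT z
        rw [h7] at h17 ⊢
        simp only [Nat.succ_eq_add_one] at h16
        omega
      · have h15 := h4.2 z (List.mem_cons_of_mem _ h7) hzx
        have h17 := hT z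
        omega

/-- **Separated run lengths**, with a base case for fewer than `N` runs. -/
theorem separatedN (N : ℕ) (hN : 2 ≤ N)
    (hshort : ∀ α : List ℕ, α.length < N → Good (runs true α)) : ∀ k : ℕ, ∃ T : ℕ → ℕ, Monotone T ∧ (∀ x, x + 2 ≤ T x) ∧
    ∀ α : List ℕ, α.length = k → (∀ a ∈ α, 0 < a) → CondN N T α → Good (runs true α) := by
  intro k
  induction k using Nat.strong_induction_on with
  | _ k ih =>
    classical
    choose! T hTm hT2 hT using ih
    -- the thresholds of the glueing theorem
    have hg : ∀ l₁ l₂ : List ℕ, ∃ B : ℕ, (∀ a ∈ l₁, 0 < a) → (∀ a ∈ l₂, 0 < a) →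
        GCO (decr l₁.reverse) → GCO (decr l₂) → ∀ x, B ≤ x → Good (runs true (l₁ ++ x :: l₂)) := by
      intro l₁ l₂
      by_cases h : (∀ a ∈ l₁, 0 < a) ∧ (∀ a ∈ l₂, 0 < a) ∧ GCO (decr l₁.reverse) ∧ GCO (decr l₂)
      · obtain ⟨B, hB⟩ := glue_runs l₁ l₂ h.1 h.2.1 h.2.2.1 h.2.2.2
        exact ⟨B, fun _ _ _ _ => hB⟩
      · exact ⟨0, fun h1 h2 h3 h4 => absurd ⟨h1, h2, h3, h4⟩ h⟩
    choose B hB using hg
    choose M hM using fun x => fin_bound2 x k B
    obtain ⟨T', hT'⟩ : ∃ T' : ℕ → ℕ, T' = fun x => x + 2 + ∑ i ∈ range (x + 1),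
        (M i + ∑ j ∈ range k, T j i) := ⟨_, rfl⟩
    have hM' : ∀ x, M x ≤ T' x := by
      intro x
      rw [hT']
      have h1 : M x + ∑ j ∈ range k, T j x ≤ ∑ i ∈ range (x + 1), (M i + ∑ j ∈ range k, T j i) :=
        Finset.single_le_sum (f := fun i => M i + ∑ j ∈ range k, T j i)
          (fun _ _ => Nat.zero_le _) (mem_range.2 (Nat.lt_succ_self x))
      change M x ≤ x + 2 + _
      omega
    have hT'' : ∀ j, j < k → ∀ x, T j x + 1 ≤ T' x := by
      intro j hj x
      rw [hT']
      have h1 : M x + ∑ j ∈ range k, T j x ≤ ∑ i ∈ range (x + 1), (M i + ∑ j ∈ range k, T j i) :=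
        Finset.single_le_sum (f := fun i => M i + ∑ j ∈ range k, T j i)
          (fun _ _ => Nat.zero_le _) (mem_range.2 (Nat.lt_succ_self x))
      have h2 : T j x ≤ ∑ j ∈ range k, T j x :=
        Finset.single_le_sum (f := fun j => T j x) (fun _ _ => Nat.zero_le _) (mem_range.2 hj)
      change T j x + 1 ≤ x + 2 + _
      omega
    have hT'2 : ∀ x, x + 2 ≤ T' x := by
      intro x
      rw [hT']
      exact Nat.le_add_right _ _
    have hT'm : Monotone T' := by
      rw [hT']
      intro x y hxy
      apply Nat.add_le_add (by omega)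
      apply Finset.sum_le_sum_of_subset
      intro i
      simp only [mem_range]
      omega
    refine ⟨T', hT'm, hT'2, fun α hα hpos hcond => ?_⟩
    by_cases h3 : k < N
    · exact hshort α (by omega)
    by_cases h1 : ∀ a ∈ α, a = 1
    · exact good_ones α h1
    -- a longest run
    obtain ⟨x, hx, hmax⟩ : ∃ x ∈ α, ∀ y ∈ α, y ≤ x := by
      have hne : α.toFinset.Nonempty := by
        rw [List.toFinset_nonempty_iff]
        rintro rfl
        simp at hα
        omega
      refine ⟨α.toFinset.max' hne, List.mem_toFinset.1 (Finset.max'_mem _ _), fun y hy => ?_⟩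
      exact Finset.le_max' _ _ (List.mem_toFinset.2 hy)
    have hx2 : 2 ≤ x := by
      by_contra hcon
      apply h1
      intro a ha
      have := hmax a ha
      have := hpos a ha
      omega
    have hcnt : α.countP (fun y => decide (y ≤ x)) = α.length := by
      rw [List.countP_eq_length]
      intro a ha
      simpa using hmax a ha
    obtain ⟨hx1, hxT⟩ := hcond x hx hx2 (by rw [hcnt]; omega)
    obtain ⟨l₁, l₂, rfl⟩ := List.append_of_mem hx
    have hx0 : x ∉ l₁ ∧ x ∉ l₂ := by
      rw [List.count_append, List.count_cons_self] at hx1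
      constructor
      · intro h
        have := List.count_pos_iff.2 h
        omega
      · intro h
        have := List.count_pos_iff.2 h
        omega
    have hp1 : ∀ a ∈ l₁, 0 < a := fun a ha => hpos a (List.mem_append_left _ ha)
    have hp2 : ∀ a ∈ l₂, 0 < a := fun a ha =>
      hpos a (List.mem_append_right _ (List.mem_cons_of_mem _ ha))
    have hlt1 : ∀ a ∈ l₁, a < x := fun a ha =>
      lt_of_le_of_ne (hmax a (List.mem_append_left _ ha)) (fun h => hx0.1 (h ▸ ha))
    have hlt2 : ∀ a ∈ l₂, a < x := fun a ha =>
      lt_of_le_of_ne (hmax a (List.mem_append_right _ (List.mem_cons_of_mem _ ha)))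
        (fun h => hx0.2 (h ▸ ha))
    have hlen : l₁.length + l₂.length + 1 = k := by
      rw [← hα, List.length_append, List.length_cons]
      ring
    -- the second longest run
    obtain ⟨z, hz, hz1, hz2⟩ : ∃ z, T' z ≤ x ∧ (∀ a ∈ l₁, a ≤ z) ∧ (∀ a ∈ l₂, a ≤ z) := by
      have hne : (l₁ ++ l₂).toFinset.Nonempty := by
        rw [List.toFinset_nonempty_iff]
        intro h
        have := congrArg List.length h
        rw [List.length_append, List.length_nil] at this
        omega
      obtain ⟨z, hz⟩ : ∃ z, z = (l₁ ++ l₂).toFinset.max' hne := ⟨_, rfl⟩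
      have hzm : z ∈ l₁ ++ l₂ := by
        rw [hz]
        exact List.mem_toFinset.1 (Finset.max'_mem _ _)
      have hzle : ∀ a ∈ l₁ ++ l₂, a ≤ z := by
        intro a ha
        rw [hz]
        exact Finset.le_max' _ _ (List.mem_toFinset.2 ha)
      refine ⟨z, hxT z ?_ ?_, fun a ha => hzle a (List.mem_append_left _ ha),
        fun a ha => hzle a (List.mem_append_right _ ha)⟩
      · rcases List.mem_append.1 hzm with h | h
        · exact List.mem_append_left _ h
        · exact List.mem_append_right _ (List.mem_cons_of_mem _ h)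
      · rcases List.mem_append.1 hzm with h | h
        · exact hlt1 z h
        · exact hlt2 z h
    -- the parts
    have part : ∀ l : List ℕ, l.Subperm (l₁ ++ x :: l₂) → l.length < k → (∀ a ∈ l, 0 < a) →
        GCO (decr l) := by
      intro l hs hlk hlp
      cases l with
      | nil => exact trivial
      | cons y ys =>
        change Good (runs true ((y - 1) :: ys))
        have hlk' : ys.length + 1 < k := by rwa [List.length_cons] at hlk
        have hyp := hlp y List.mem_cons_self
        have hysp : ∀ a ∈ ys, 0 < a := fun a ha => hlp a (List.mem_cons_of_mem _ ha)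
        rcases Nat.lt_or_ge 1 y with h | h
        · obtain ⟨y', rfl⟩ : ∃ y', y = y' + 1 := ⟨y - 1, by omega⟩
          rw [Nat.add_sub_cancel]
          apply hT (ys.length + 1) hlk' (y' :: ys) rfl
          · intro a ha
            rcases List.mem_cons.1 ha with h5 | h5
            · omega
            · exact hysp a h5
          · exact (hcond.subperm hs (fun _ => le_rfl)).dec (by omega) hT'm hT'2
              (hT'' (ys.length + 1) hlk')
        · have hy1 : y = 1 := by omega
          rw [hy1]
          apply good_zero_cons
          apply hT ys.length (by omega) ys rfl hysp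
          refine hcond.subperm ((List.sublist_cons_self y ys).subperm.trans hs) fun v => ?_
          · have := hT'' ys.length (by omega) v
            omega
    have hs1 : l₁.reverse.Subperm (l₁ ++ x :: l₂) :=
      (List.reverse_perm l₁).subperm.trans (List.sublist_append_left l₁ _).subperm
    have hs2 : l₂.Subperm (l₁ ++ x :: l₂) :=
      ((List.sublist_cons_self x l₂).trans (List.sublist_append_right l₁ _)).subperm
    apply hB l₁ l₂ hp1 hp2
    · exact part _ hs1 (by rw [List.length_reverse]; omega) (fun a ha =>
        hp1 a (List.mem_reverse.1 ha))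
    · exact part _ hs2 (by omega) hp2
    · exact ((hM z l₁ l₂ (by omega) (by omega) hz1 hz2).trans (hM' z)).trans hz

/-- The theorem on four runs for abstract patterns. -/
theorem rr_four (n : ℕ) (s : ℕ → Bool) (a b c : ℕ) (e : Bool)
    (hs : ∀ i, i + 1 < n → s i = if i < a then e else if i < a + b then !e else
      if i < a + b + c then e else !e) : RR n s :=
  fun h hh => Pool.Agent.Lib.FourRun.four_run_real_rooted n s a b c e hs h hh

theorem runs_four_getD (a b c d i : ℕ) (hi : i < a + b + c + d) :
    (runs true [a, b, c, d]).getD i false = if i < a then true else if i < a + b then !true else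
      if i < a + b + c then true else !true := by
  have e0 : runs true [a, b, c, d] = runs true [a, b, c] ++ runs (par true [a, b, c]) [d] := by
    rw [← runs_append]
    rfl
  have hl : (runs true [a, b, c]).length = a + b + c := by
    rw [runs_length]
    simp only [List.sum_cons, List.sum_nil]
    ring
  rw [e0]
  rcases Nat.lt_or_ge i (a + b + c) with h1 | h1
  · rw [List.getD_append _ _ _ _ (by rw [hl]; exact h1), runs_three_getD a b c i h1]
    split_ifs <;> rfl
  · rw [List.getD_append_right _ _ _ _ (by rw [hl]; exact h1), hl, if_neg (by omega),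
      if_neg (by omega), if_neg (by omega)]
    have h2 : i - (a + b + c) < d := by omega
    simp [runs, par, List.getD_eq_getElem?_getD, h2]

/-- at most four runs -/
theorem good_four (a b c d : ℕ) : Good (runs true [a, b, c, d]) := by
  apply Good.of_rr
  obtain ⟨w, hw⟩ : ∃ w, w = runs true [a, b, c, d] := ⟨_, rfl⟩
  have hl : w.length = a + b + c + d := by
    rw [hw, runs_length]
    simp only [List.sum_cons, List.sum_nil]
    ring
  have h1 : ∀ i, i < a + b + c + d → w.getD i false = if i < a then true else
      if i < a + b then !true else if i < a + b + c then true else !true := by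
    intro i hi
    rw [hw]
    exact runs_four_getD a b c d i hi
  rw [← hw]
  clear hw
  exact rr_four _ _ a b c true (fun i hi => h1 i (by omega))

theorem good_short_four (α : List ℕ) (h : α.length < 5) : Good (runs true α) := by
  match α, h with
  | [], _ => exact good_short [] (by simp)
  | [a], _ => exact good_short [a] (by simp)
  | [a, b], _ => exact good_short [a, b] (by simp)
  | [a, b, c], _ => exact good_short [a, b, c] (by simp)
  | [a, b, c, d], _ => exact good_four a b c d
  | a :: b :: c :: d :: e :: l, h => simp only [List.length_cons] at h; omega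

/-- **Separated run lengths**, base case four runs. -/
theorem separated_runs_five : ∃ T : ℕ → ℕ → ℕ, ∀ (α : List ℕ) (e : Bool), (∀ a ∈ α, 0 < a) →
    (∀ x ∈ α, 2 ≤ x → 5 ≤ α.countP (fun y => decide (y ≤ x)) →
      α.count x = 1 ∧ ∀ y ∈ α, y < x → T α.length y ≤ x) →
    RR (α.sum + 1) (fun i => (runs e α).getD i false) := by
  choose T _ _ hT using separatedN 5 (by norm_num) good_short_four
  refine ⟨T, fun α e hα hc => ?_⟩
  have h1 := ((hT α.length α rfl hα hc).runs_not e).rr
  rwa [runs_length] at h1

end Pool.Agent.Lib.FenceGlue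
end
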