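import Pool.Agent.Lib.MP_7d55f0_co.TRMul

section

set_option autoImplicit false

namespace Pool.Agent.Lib.ThreeRun

open Polynomial

/-- The `k`-th derivative of the Laguerre polynomial `∑ C(N,i) X^i / i!`. -/
noncomputable def lg (N k : ℕ) : ℝ[X] :=
  ∑ i ∈ Finset.range (N + 1), C ((N.choose (i + k) : ℝ) / (i.factorial : ℝ)) * X ^ i

theorem lg_coeff (N k i : ℕ) : (lg N k).coeff i = (N.choose (i + k) : ℝ) / (i.factorial : ℝ) := by
  unfold lg
  rw [finsetSum_coeff]
  simp only [coeff_C_mul, coeff_X_pow, mul_ite, mul_one, mul_zero]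
  rw [Finset.sum_ite_eq]
  split_ifs with h
  · rfl
  · rw [Finset.mem_range] at h
    rw [Nat.choose_eq_zero_of_lt (by omega)]
    simp

theorem derivative_lg (N k : ℕ) : derivative (lg N k) = lg N (k + 1) := by
  ext i
  rw [coeff_derivative, lg_coeff, lg_coeff, Nat.factorial_succ,
    show i + 1 + k = i + (k + 1) by ring]
  push_cast
  have h1 : ((i : ℝ) + 1) ≠ 0 := by positivity
  have h2 : (i.factorial : ℝ) ≠ 0 := by positivity
  field_simp

theorem lg_succ (N k : ℕ) : lg (N + 1) (k + 1) = lg N k + lg N (k + 1) := by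
  ext i
  rw [coeff_add, lg_coeff, lg_coeff, lg_coeff, ← add_div, ← add_assoc i k 1,
    Nat.choose_succ_succ]
  push_cast
  ring

/-- The differential equation. -/
theorem lg_ode (N k : ℕ) : X * lg N (k + 2) + (C ((k : ℝ) + 1) + X) * lg N (k + 1) =
    C ((N : ℝ) - k) * lg N k := by
  ext i
  rw [add_mul, coeff_add, coeff_add, coeff_C_mul, coeff_C_mul, lg_coeff, lg_coeff]
  have hrec : (N.choose (i + k + 1) : ℝ) * (i + k + 1) = (N.choose (i + k) : ℝ) * (N - (i + k)) := by
    rcases Nat.lt_or_ge N (i + k) with h | h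
    · rw [Nat.choose_eq_zero_of_lt h, Nat.choose_eq_zero_of_lt (by omega)]
      simp
    · have h1 := Nat.choose_succ_right_eq N (i + k)
      have h2 : ((N - (i + k) : ℕ) : ℝ) = (N : ℝ) - (i + k) := by
        rw [Nat.cast_sub h]
        push_cast
        ring
      rw [← h2]
      exact_mod_cast h1
  have hf : (i.factorial : ℝ) ≠ 0 := by positivity
  cases i with
  | zero =>
    simp only [mul_coeff_zero, coeff_X_zero, zero_mul, zero_add, Nat.factorial_zero, Nat.cast_one,
      div_one, add_zero] at *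
    push_cast at hrec
    linear_combination hrec
  | succ j =>
    rw [coeff_X_mul, coeff_X_mul, lg_coeff, lg_coeff, show j + (k + 2) = j + 1 + k + 1 by ring,
      show j + (k + 1) = j + 1 + k by ring, show j + 1 + (k + 1) = j + 1 + k + 1 by ring]
    have hfj : (j.factorial : ℝ) ≠ 0 := by positivity
    rw [Nat.factorial_succ]
    push_cast at hrec ⊢
    have h1 : ((j : ℝ) + 1) ≠ 0 := by positivity
    field_simp
    linear_combination hrec

theorem lg_eval_zero (N k : ℕ) : (lg N k).eval 0 = (N.choose k : ℝ) := by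
  rw [← coeff_zero_eq_eval_zero, lg_coeff]
  simp

theorem lg_top (N : ℕ) : lg N N = 1 := by
  ext i
  rw [lg_coeff]
  cases i with
  | zero => simp
  | succ i =>
    rw [Nat.choose_eq_zero_of_lt (by omega), coeff_one, if_neg (by omega)]
    simp

theorem lg_ne_zero {N k : ℕ} (hk : k ≤ N) : lg N k ≠ 0 := by
  intro h
  have h1 := lg_coeff N k 0
  rw [h, coeff_zero, zero_add, Nat.factorial_zero, Nat.cast_one, div_one] at h1
  have := Nat.choose_pos hk
  have h2 : (0 : ℝ) < (N.choose k : ℝ) := by exact_mod_cast this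
  linarith

theorem lg_natDegree {N k : ℕ} (hk : k ≤ N) : (lg N k).natDegree = N - k := by
  apply natDegree_eq_of_le_of_coeff_ne_zero
  · rw [natDegree_le_iff_coeff_eq_zero]
    intro i hi
    rw [lg_coeff, Nat.choose_eq_zero_of_lt (by omega)]
    simp
  · rw [lg_coeff, Nat.sub_add_cancel hk, Nat.choose_self]
    positivity

theorem lg_eval_pos {N k : ℕ} (hk : k ≤ N) {x : ℝ} (hx : 0 ≤ x) : 0 < (lg N k).eval x := by
  unfold lg
  rw [eval_finsetSum]
  have h1 : ∀ i ∈ Finset.range (N + 1), 0 ≤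
      (C ((N.choose (i + k) : ℝ) / (i.factorial : ℝ)) * X ^ i : ℝ[X]).eval x := by
    intro i _
    rw [eval_mul, eval_C, eval_pow, eval_X]
    positivity
  apply Finset.sum_pos' h1
  refine ⟨0, by simp, ?_⟩
  rw [eval_mul, eval_C, eval_pow, eval_X, zero_add, pow_zero, mul_one]
  have h2 : (0 : ℝ) < (N.choose k : ℝ) := by exact_mod_cast Nat.choose_pos hk
  positivity

/-- No common zero of two consecutive derivatives (except possibly at `0`). -/
theorem lg_no_common {N : ℕ} {k : ℕ} (hk : k ≤ N) {r : ℝ} (h0 : (lg N k).eval r = 0)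
    (h1 : (lg N (k + 1)).eval r = 0) : False := by
  have hr : r ≠ 0 := by
    rintro rfl
    rw [lg_eval_zero] at h0
    have h2 : (0 : ℝ) < (N.choose k : ℝ) := by exact_mod_cast Nat.choose_pos hk
    linarith
  have hall : ∀ j, k + j ≤ N → (lg N (k + j)).eval r = 0 ∧ (lg N (k + j + 1)).eval r = 0 := by
    intro j
    induction j with
    | zero => intro _; exact ⟨h0, h1⟩
    | succ j ih =>
      intro hj
      obtain ⟨ha, hb⟩ := ih (by omega)
      refine ⟨hb, ?_⟩
      have h2 := congrArg (eval r) (lg_ode N (k + j))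
      rw [eval_add, eval_mul, eval_mul, eval_mul, eval_X, ha, hb] at h2
      simp only [mul_zero, add_zero] at h2
      exact (mul_eq_zero.1 h2).resolve_left hr
  have h3 := (hall (N - k) (by omega)).1
  rw [Nat.add_sub_cancel' hk, lg_top] at h3
  simp at h3

/-- All `lg N k` have only real zeros. -/
theorem lg_hs {N k : ℕ} (hk : k ≤ N) : HS ((lg N k).map Complex.ofRealHom) := by
  have h0 : HS ((lg N 0).map Complex.ofRealHom) := by
    apply hs_of_hsm_real
    have hf : HS ((1 + X : ℂ[X]) ^ N) := by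
      intro z hz
      rw [eval_pow, eval_add, eval_one, eval_X]
      apply pow_ne_zero
      intro h
      have := congrArg Complex.im h
      simp at this
      linarith
    have h1 : opX N ((1 + X : ℂ[X]) ^ N) =
        C (N.factorial : ℂ) * (lg N 0).map Complex.ofRealHom := by
      rw [opX_eq]
      unfold lg
      rw [Polynomial.map_sum, Finset.mul_sum, ← Finset.sum_range_reflect]
      refine Finset.sum_congr rfl fun i hi => ?_
      rw [Finset.mem_range] at hi
      rw [coeff_one_add_X_pow, show N + 1 - 1 - i = N - i by omega,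
        show N - (N - i) = i by omega, Polynomial.map_mul, map_C, Polynomial.map_pow, map_X,
        ← mul_assoc, ← C_mul]
      congr 2
      have h2 : (i.factorial : ℂ) ≠ 0 := by exact_mod_cast (Nat.factorial_pos i).ne'
      have h3 : (i.factorial : ℂ) * (N.descFactorial (N - i) : ℂ) = (N.factorial : ℂ) := by
        have := Nat.factorial_mul_descFactorial (show N - i ≤ N by omega)
        rw [show N - (N - i) = i by omega] at this
        exact_mod_cast this
      rw [Nat.choose_symm (by omega : i ≤ N), add_zero]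
      simp only [Complex.ofRealHom_eq_coe, Complex.ofReal_div, Complex.ofReal_natCast]
      field_simp
      linear_combination (N.choose i : ℂ) * h3
    have h2 : (N.factorial : ℂ) ≠ 0 := by exact_mod_cast (Nat.factorial_pos N).ne'
    rcases opX_hsm N hf with h3 | h3
    · intro z hz hcon
      apply h3 z hz
      rw [h1, eval_mul, hcon, mul_zero]
    · exfalso
      rw [h1] at h3
      have h4 := (mul_eq_zero.1 h3).resolve_left (by simpa using h2)
      rw [Polynomial.map_eq_zero] at h4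
      exact lg_ne_zero (Nat.zero_le N) h4
  have h1 : Polynomial.derivative^[k] ((lg N 0).map Complex.ofRealHom) =
      (lg N k).map Complex.ofRealHom := by
    clear hk
    induction k with
    | zero => rfl
    | succ k ih => rw [Function.iterate_succ_apply', ih, derivative_map, derivative_lg]
  rw [← h1]
  apply h0.iterate_derivative
  rw [natDegree_map, lg_natDegree (Nat.zero_le N)]
  omega

theorem lg_card {N k : ℕ} (hk : k ≤ N) : (lg N k).roots.card = (lg N k).natDegree :=
  roots_card_of_hs (lg_hs hk)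

theorem lg_nodup {N k : ℕ} (hk : k ≤ N) : (lg N k).roots.Nodup := by
  classical
  rw [Multiset.nodup_iff_count_le_one]
  intro r
  rw [count_roots]
  by_contra hcon
  push Not at hcon
  rw [one_lt_rootMultiplicity_iff_isRoot (lg_ne_zero hk), derivative_lg] at hcon
  exact lg_no_common hk hcon.1 hcon.2

theorem lg_root_neg {N k : ℕ} (hk : k ≤ N) {r : ℝ} (hr : r ∈ (lg N k).roots) : r < 0 := by
  by_contra hcon
  push Not at hcon
  have h1 := lg_eval_pos hk hcon
  have h2 : (lg N k).eval r = 0 := isRoot_of_mem_roots hr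
  linarith

end Pool.Agent.Lib.ThreeRun
end

section

set_option autoImplicit false

namespace Pool.Agent.Lib.ThreeRun

open Polynomial

theorem lg_X_mul (N : ℕ) : X * lg (N + 1) 1 = C ((N : ℝ) + 1) * (lg (N + 1) 0 - lg N 0) := by
  ext i
  rw [coeff_C_mul, coeff_sub, lg_coeff, lg_coeff]
  cases i with
  | zero => simp
  | succ j =>
    rw [coeff_X_mul, lg_coeff, add_zero, Nat.choose_succ_succ, Nat.factorial_succ]
    have h1 : ((N : ℝ) + 1) * (N.choose j : ℝ) = ((N + 1).choose (j + 1) : ℝ) * (j + 1) := by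
      have := Nat.add_one_mul_choose_eq N j
      exact_mod_cast this
    rw [Nat.choose_succ_succ] at h1
    have h2 : (j.factorial : ℝ) ≠ 0 := by positivity
    have h3 : ((j : ℝ) + 1) ≠ 0 := by positivity
    push_cast at h1 ⊢
    field_simp
    linear_combination -h1

/-- The Laguerre expression. -/
noncomputable def lagE (N : ℕ) (y : ℝ) : ℝ :=
  (lg N 1).eval y ^ 2 - (lg N 0).eval y * (lg N 2).eval y

theorem lagE_succ (N : ℕ) (y : ℝ) :
    ((N : ℝ) + 1) * (lagE (N + 1) y - lagE N y) = (lg (N + 1) 1).eval y ^ 2 := by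
  have h1 := congrArg (eval y) (lg_succ N 0)
  have h2 := congrArg (eval y) (lg_succ N 1)
  have h3 := congrArg (eval y) (lg_X_mul N)
  have h4 := congrArg (eval y) (lg_ode N 0)
  simp only [eval_add, eval_mul, eval_X, eval_C, eval_sub, zero_add, Nat.cast_zero, sub_zero] at h1 h2 h3 h4
  unfold lagE
  rw [show (1 : ℕ) + 1 = 2 from rfl] at h2
  rw [h1] at h3 ⊢
  rw [h2]
  linear_combination ((lg N 1).eval y + (lg N 2).eval y) * h3 - ((lg N 0).eval y + (lg N 1).eval y) * h4

theorem lagE_ge_one (N : ℕ) (y : ℝ) : 1 ≤ lagE (N + 1) y := by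
  induction N with
  | zero =>
    have h1 := lagE_succ 0 y
    have h2 : lagE 0 y = 0 := by
      unfold lagE lg
      simp
    have h3 : (lg (0 + 1) 1).eval y = 1 := by
      rw [show (0 + 1 : ℕ) = 1 from rfl, lg_top]
      simp
    rw [h2, h3] at h1
    norm_num at h1
    simpa using h1.ge
  | succ N ih =>
    have h1 := lagE_succ (N + 1) y
    have h2 : 0 ≤ (lg (N + 1 + 1) 1).eval y ^ 2 := sq_nonneg _
    rw [← h1] at h2
    have h3 : (0 : ℝ) < ((N + 1 : ℕ) : ℝ) + 1 := by positivity
    have h4 : 0 ≤ lagE (N + 1 + 1) y - lagE (N + 1) y := by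
      by_contra hcon
      push Not at hcon
      have := mul_neg_of_pos_of_neg h3 hcon
      linarith
    linarith

theorem lg_one_sq {M : ℕ} (hM : 1 ≤ M) {y : ℝ} (hy : (lg M 0).eval y = 0) :
    1 ≤ (lg M 1).eval y ^ 2 := by
  obtain ⟨N, rfl⟩ : ∃ N, M = N + 1 := ⟨M - 1, by omega⟩
  have h1 := lagE_ge_one N y
  unfold lagE at h1
  rw [hy] at h1
  linarith

/-- `L_M + s (L_M' - 1)` has no zeros in the upper half plane if `s` lies there. -/
theorem lg_add_hs {M : ℕ} (hM : 1 ≤ M) {s : ℂ} (hs : 0 < s.im) :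
    HS ((lg M 0).map Complex.ofRealHom + C s * ((lg M 1).map Complex.ofRealHom - 1)) := by
  intro z hz hcon
  set g : ℝ[X] := lg M 1 - 1 with hg
  have hgm : g.map Complex.ofRealHom = (lg M 1).map Complex.ofRealHom - 1 := by
    rw [hg, Polynomial.map_sub, Polynomial.map_one]
  rw [← hgm, eval_add, eval_mul, eval_C] at hcon
  have hfz : ((lg M 0).map Complex.ofRealHom).eval z ≠ 0 := lg_hs (Nat.zero_le M) z hz
  have h1 := (il (lg_ne_zero (Nat.zero_le M)) (lg_card (Nat.zero_le M)) (lg_nodup (Nat.zero_le M))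
    (g := g) (by
      rw [lg_natDegree (Nat.zero_le M), hg]
      refine (natDegree_sub_le _ _).trans ?_
      rw [lg_natDegree hM, natDegree_one]
      omega) (by
      intro r hr
      have h2 : (lg M 0).eval r = 0 := isRoot_of_mem_roots hr
      have h3 := lg_one_sq hM h2
      rw [derivative_lg, hg, eval_sub, eval_one, zero_add]
      nlinarith [sq_nonneg ((lg M 1).eval r - 1), sq_nonneg ((lg M 1).eval r + 1)]) hz).1
  set F := ((lg M 0).map Complex.ofRealHom).eval z with hF
  set G := (g.map Complex.ofRealHom).eval z with hG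
  have h2 : s * (G / F) = -1 := by
    field_simp
    linear_combination hcon
  have h3 : G / F = -(1 / s) := by
    have hs0 : s ≠ 0 := by rintro rfl; simp at hs
    field_simp
    field_simp at h2
    linear_combination h2
  rw [h3, Complex.neg_im] at h1
  have := inv_im_neg hs
  linarith

theorem descFactorial_cast (a i : ℕ) : (a.descFactorial i : ℂ) = (i.factorial : ℂ) * (a.choose i : ℂ) := by
  have := Nat.descFactorial_eq_factorial_mul_choose a i
  exact_mod_cast this

/-- The case of a single middle step. -/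
theorem b1_ne_zero (a : ℕ) {M : ℕ} (hM : 1 ≤ M) {t : ℂ} (ht : 0 < t.im) :
    ∑ i ∈ Finset.range (a + 2), ((a + 1).choose i : ℂ) * (M.choose i : ℂ) * t ^ i - t ≠ 0 := by
  have hc : ∀ i, ((lg M 0).map Complex.ofRealHom + C t * ((lg M 1).map Complex.ofRealHom - 1)).coeff i =
      (M.choose i : ℂ) / (i.factorial : ℂ) +
        t * ((M.choose (i + 1) : ℂ) / (i.factorial : ℂ) - (if i = 0 then 1 else 0)) := by
    intro i
    rw [coeff_add, coeff_C_mul, coeff_sub, coeff_map, coeff_map, lg_coeff, lg_coeff, coeff_one,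
      add_zero]
    simp
  have h1 := mul_ne_zero_of_hs a (lg_add_hs hM ht) ⟨0, Nat.zero_le a, by
    rw [hc 0]
    intro h
    have h2 := congrArg Complex.im h
    have h3 := congrArg Complex.re h
    simp at h2 h3
    rcases h2 with h2 | h2
    · linarith
    · rw [h2] at h3
      simp at h3⟩ ht
  intro hcon
  apply h1
  rw [← hcon]
  have h4 : ∑ i ∈ Finset.range (a + 2), ((a + 1).choose i : ℂ) * (M.choose i : ℂ) * t ^ i =
      ∑ i ∈ Finset.range (a + 1), (a.choose i : ℂ) * (M.choose i : ℂ) * t ^ i +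
        t * ∑ i ∈ Finset.range (a + 1), (a.choose i : ℂ) * (M.choose (i + 1) : ℂ) * t ^ i := by
    rw [Finset.sum_range_succ']
    have h5 : ∀ i, ((a + 1).choose (i + 1) : ℂ) * (M.choose (i + 1) : ℂ) * t ^ (i + 1) =
        (a.choose (i + 1) : ℂ) * (M.choose (i + 1) : ℂ) * t ^ (i + 1) +
          t * ((a.choose i : ℂ) * (M.choose (i + 1) : ℂ) * t ^ i) := by
      intro i
      rw [Nat.choose_succ_succ]
      push_cast
      ring
    rw [Finset.sum_congr rfl fun i _ => h5 i, Finset.sum_add_distrib, ← Finset.mul_sum]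
    have h6 := Finset.sum_range_succ' (fun i => (a.choose i : ℂ) * (M.choose i : ℂ) * t ^ i) (a + 1)
    have h7 := Finset.sum_range_succ (fun i => (a.choose i : ℂ) * (M.choose i : ℂ) * t ^ i) (a + 1)
    rw [Nat.choose_succ_self] at h7
    simp only [Nat.choose_zero_right, Nat.cast_one, pow_zero, mul_one, Nat.cast_zero, zero_mul,
      add_zero] at h6 h7 ⊢
    linear_combination h7 - h6
  rw [h4]
  have h8 : ∀ i ∈ Finset.range (a + 1), ((lg M 0).map Complex.ofRealHom +
      C t * ((lg M 1).map Complex.ofRealHom - 1)).coeff i * (a.descFactorial i : ℂ) * t ^ i =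
        (a.choose i : ℂ) * (M.choose i : ℂ) * t ^ i +
          t * ((a.choose i : ℂ) * (M.choose (i + 1) : ℂ) * t ^ i) - (if i = 0 then t else 0) := by
    intro i _
    rw [hc i, descFactorial_cast]
    have h9 : (i.factorial : ℂ) ≠ 0 := by exact_mod_cast (Nat.factorial_pos i).ne'
    split_ifs with h
    · subst h
      simp
      ring
    · field_simp
      ring
  rw [Finset.sum_congr rfl h8, Finset.sum_sub_distrib, Finset.sum_add_distrib, ← Finset.mul_sum,
    Finset.sum_ite_eq', if_pos (by simp)]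

end Pool.Agent.Lib.ThreeRun
end

section

set_option autoImplicit false

namespace Pool.Agent.Lib.ThreeRun

open Polynomial

/-- `L_N^{(k)}(-x)` -/
noncomputable def lx (N k : ℕ) (x : ℝ) : ℝ := (lg N k).eval (-x)

theorem lx_hasDerivAt (N k : ℕ) (x : ℝ) : HasDerivAt (lx N k) (-(lx N (k + 1) x)) x := by
  have h1 : HasDerivAt (fun y : ℝ => (lg N k).eval y) ((derivative (lg N k)).eval (-x)) (-x) :=
    (lg N k).hasDerivAt (-x)
  rw [derivative_lg] at h1
  have h2 : HasDerivAt (fun y : ℝ => -y) (-1) x := hasDerivAt_neg x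
  have h3 := HasDerivAt.comp x h1 h2
  exact h3.congr_deriv (by unfold lx; ring)

theorem lx_ode (N : ℕ) (x : ℝ) :
    x * lx N 3 x = (2 - x) * lx N 2 x - ((N : ℝ) - 1) * lx N 1 x := by
  have h := congrArg (eval (-x)) (lg_ode N 1)
  simp only [eval_add, eval_mul, eval_X, eval_C, Nat.cast_one] at h
  unfold lx
  rw [show (1 : ℕ) + 2 = 3 from rfl, show (1 : ℕ) + 1 = 2 from rfl] at h
  linear_combination -h

theorem lx_ode0 (N : ℕ) (x : ℝ) :
    (N : ℝ) * lx N 0 x = (1 - x) * lx N 1 x - x * lx N 2 x := by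
  have h := congrArg (eval (-x)) (lg_ode N 0)
  simp only [eval_add, eval_mul, eval_X, eval_C, Nat.cast_zero] at h
  unfold lx
  rw [show (0 : ℕ) + 2 = 2 from rfl, show (0 : ℕ) + 1 = 1 from rfl] at h
  linear_combination -h

/-- The quadratic form. -/
noncomputable def WW (N : ℕ) (x : ℝ) : ℝ :=
  lx N 1 x ^ 2 - 3 / (2 * ((N : ℝ) - 1)) * (lx N 1 x * lx N 2 x) +
    (((N : ℝ) - 1 + 3 / 4) * x - 3 / 8) / ((N : ℝ) - 1) ^ 2 * lx N 2 x ^ 2

/-- Its derivative. -/
noncomputable def WD (N : ℕ) (x : ℝ) : ℝ :=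
  2 * lx N 1 x * (-(lx N 2 x)) - 3 / (2 * ((N : ℝ) - 1)) *
      (-(lx N 2 x) * lx N 2 x + lx N 1 x * (-(lx N 3 x))) +
    (((N : ℝ) - 1 + 3 / 4) / ((N : ℝ) - 1) ^ 2 * lx N 2 x ^ 2 +
      (((N : ℝ) - 1 + 3 / 4) * x - 3 / 8) / ((N : ℝ) - 1) ^ 2 * (2 * lx N 2 x * (-(lx N 3 x))))

theorem WW_hasDerivAt (N : ℕ) (x : ℝ) : HasDerivAt (WW N) (WD N x) x := by
  have h1 := lx_hasDerivAt N 1 x
  have h2 := lx_hasDerivAt N 2 x
  have h3 : HasDerivAt (fun x : ℝ => (((N : ℝ) - 1 + 3 / 4) * x - 3 / 8) / ((N : ℝ) - 1) ^ 2)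
      (((N : ℝ) - 1 + 3 / 4) / ((N : ℝ) - 1) ^ 2) x := by
    have h4 := (((hasDerivAt_id x).const_mul ((N : ℝ) - 1 + 3 / 4)).sub_const (3 / 8)).div_const
      (((N : ℝ) - 1) ^ 2)
    simpa using h4
  have h5 := ((h1.pow 2).sub ((h1.mul h2).const_mul (3 / (2 * ((N : ℝ) - 1))))).add
    (h3.mul (h2.pow 2))
  refine h5.congr_deriv ?_
  unfold WD
  simp only [Pi.pow_apply]
  push_cast
  ring

theorem WD_identity {N : ℕ} (hN : 2 ≤ N) (x : ℝ) : x * WD N x + 3 / 2 * WW N x =
    lx N 2 x ^ 2 * (2 * ((N : ℝ) - 1 + 3 / 4) * x ^ 2 - 15 / 8 * x + 15 / 16) /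
      ((N : ℝ) - 1) ^ 2 := by
  have h0 := lx_ode N x
  have hn : (N : ℝ) - 1 ≠ 0 := by
    have : (2 : ℝ) ≤ N := by exact_mod_cast hN
    intro h
    linarith
  unfold WD WW
  set n := (N : ℝ) - 1 with hn'
  set K := lx N 1 x
  set A := lx N 2 x
  set B := lx N 3 x
  have h1 : x * (2 * K * (-A) - 3 / (2 * n) * (-A * A + K * (-B)) +
      ((n + 3 / 4) / n ^ 2 * A ^ 2 + ((n + 3 / 4) * x - 3 / 8) / n ^ 2 * (2 * A * (-B)))) =
      2 * x * K * (-A) + 3 / (2 * n) * (x * A ^ 2 + K * (x * B)) +
      ((n + 3 / 4) / n ^ 2 * x * A ^ 2 - ((n + 3 / 4) * x - 3 / 8) / n ^ 2 * (2 * A * (x * B))) := by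
    ring
  rw [h1, h0]
  field_simp
  ring

theorem WW_nonneg {N : ℕ} (hN : 2 ≤ N) {x : ℝ} (hx : 15 / 16 ≤ ((N : ℝ) - 1 + 3 / 4) * x) :
    0 ≤ WW N x := by
  have hn : 0 < (N : ℝ) - 1 := by
    have : (2 : ℝ) ≤ N := by exact_mod_cast hN
    linarith
  unfold WW
  set n := (N : ℝ) - 1
  set K := lx N 1 x
  set A := lx N 2 x
  have h1 : K ^ 2 - 3 / (2 * n) * (K * A) + ((n + 3 / 4) * x - 3 / 8) / n ^ 2 * A ^ 2 =
      (K - 3 / 4 * (A / n)) ^ 2 + ((n + 3 / 4) * x - 15 / 16) * (A / n) ^ 2 := by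
    field_simp
    ring
  rw [h1]
  have h2 : 0 ≤ ((n + 3 / 4) * x - 15 / 16) * (A / n) ^ 2 :=
    mul_nonneg (by linarith) (sq_nonneg _)
  linarith [sq_nonneg (K - 3 / 4 * (A / n))]

/-- The monotone function. -/
noncomputable def UU (N : ℕ) (x : ℝ) : ℝ := WW N x * (1 + ((N : ℝ) - 1) * x) ^ 2

theorem UU_hasDerivAt (N : ℕ) (x : ℝ) : HasDerivAt (UU N)
    (WD N x * (1 + ((N : ℝ) - 1) * x) ^ 2 +
      WW N x * (2 * (1 + ((N : ℝ) - 1) * x) * ((N : ℝ) - 1))) x := by
  have h1 := WW_hasDerivAt N x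
  have h2 : HasDerivAt (fun x : ℝ => 1 + ((N : ℝ) - 1) * x) ((N : ℝ) - 1) x := by
    have := ((hasDerivAt_id x).const_mul ((N : ℝ) - 1)).const_add 1
    simpa using this
  have h3 := h1.mul (h2.pow 2)
  refine h3.congr_deriv ?_
  simp only [Pi.pow_apply]
  push_cast
  ring

theorem UU_deriv_nonneg {N : ℕ} (hN : 2 ≤ N) {x : ℝ} (hx : 3 ≤ ((N : ℝ) - 1) * x) :
    0 ≤ WD N x * (1 + ((N : ℝ) - 1) * x) ^ 2 +
      WW N x * (2 * (1 + ((N : ℝ) - 1) * x) * ((N : ℝ) - 1)) := by
  have hn1 : (1 : ℝ) ≤ (N : ℝ) - 1 := by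
    have : (2 : ℝ) ≤ N := by exact_mod_cast hN
    linarith
  have hx0 : 0 < x := by
    by_contra hcon
    push Not at hcon
    nlinarith
  have hW := WW_nonneg hN (x := x) (by nlinarith)
  have hid := WD_identity hN x
  set n := (N : ℝ) - 1
  set R := lx N 2 x ^ 2 * (2 * (n + 3 / 4) * x ^ 2 - 15 / 8 * x + 15 / 16) / n ^ 2 with hR
  have hR0 : 0 ≤ R := by
    rw [hR]
    apply div_nonneg _ (sq_nonneg _)
    apply mul_nonneg (sq_nonneg _)
    nlinarith [sq_nonneg (x - 1 / 2), sq_nonneg x, mul_nonneg (sub_nonneg.2 hn1) (sq_nonneg x)]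
  have h1 : x * (WD N x * (1 + n * x) ^ 2 + WW N x * (2 * (1 + n * x) * n)) =
      (1 + n * x) * ((1 + n * x) * R + WW N x * ((n * x - 3) / 2)) := by
    have h2 : x * WD N x = R - 3 / 2 * WW N x := by linarith
    calc x * (WD N x * (1 + n * x) ^ 2 + WW N x * (2 * (1 + n * x) * n)) =
        (x * WD N x) * (1 + n * x) ^ 2 + WW N x * (2 * (1 + n * x) * n * x) := by ring
      _ = _ := by rw [h2]; ring
  have h3 : 0 ≤ x * (WD N x * (1 + n * x) ^ 2 + WW N x * (2 * (1 + n * x) * n)) := by
    rw [h1]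
    apply mul_nonneg (by linarith)
    apply add_nonneg
    · exact mul_nonneg (by linarith) hR0
    · exact mul_nonneg hW (by linarith)
  by_contra hcon
  push Not at hcon
  have := mul_neg_of_pos_of_neg hx0 hcon
  linarith

theorem UU_mono {N : ℕ} (hN : 2 ≤ N) {x y : ℝ} (hx : 3 ≤ ((N : ℝ) - 1) * x) (hxy : x ≤ y) :
    UU N x ≤ UU N y := by
  have hn : 0 < (N : ℝ) - 1 := by
    have : (2 : ℝ) ≤ N := by exact_mod_cast hN
    linarith
  have h1 : MonotoneOn (UU N) (Set.Ici x) := by
    apply monotoneOn_of_deriv_nonneg (convex_Ici x)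
    · exact fun z _ => (UU_hasDerivAt N z).continuousAt.continuousWithinAt
    · exact fun z _ => (UU_hasDerivAt N z).differentiableAt.differentiableWithinAt
    · intro z hz
      rw [interior_Ici, Set.mem_Ioi] at hz
      rw [(UU_hasDerivAt N z).deriv]
      apply UU_deriv_nonneg hN
      have := mul_le_mul_of_nonneg_left hz.le hn.le
      linarith
  exact h1 (Set.mem_Ici.2 le_rfl) (Set.mem_Ici.2 hxy) hxy

/-- The value at a zero of `L_N''`. -/
theorem large_zero {N : ℕ} (hN : 2 ≤ N) (hU : (N : ℝ) ^ 2 < UU N (8 / N)) {x : ℝ}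
    (hx : 8 / (N : ℝ) ≤ x) (hA : lx N 2 x = 0) :
    (N : ℝ) ^ 2 < (lx N 1 x * (1 + ((N : ℝ) - 1) * x)) ^ 2 := by
  have hN2 : (2 : ℝ) ≤ N := by exact_mod_cast hN
  have hN0 : (0 : ℝ) < N := by linarith
  have h1 : UU N (8 / N) ≤ UU N x := by
    apply UU_mono hN _ hx
    rw [mul_div_assoc', le_div_iff₀ hN0]
    linarith
  have h2 : UU N x = (lx N 1 x * (1 + ((N : ℝ) - 1) * x)) ^ 2 := by
    unfold UU WW
    rw [hA]
    ring
  linarith

end Pool.Agent.Lib.ThreeRun
end

section

set_option autoImplicit false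

namespace Pool.Agent.Lib.ThreeRun

open Polynomial

theorem prod_coeffs (s : Multiset ℝ) :
    ((s.map (fun a => 1 - C a * X)).prod).coeff 0 = 1 ∧
    ((s.map (fun a => 1 - C a * X)).prod).coeff 1 ^ 2 -
      2 * ((s.map (fun a => 1 - C a * X)).prod).coeff 2 = (s.map (fun a => a ^ 2)).sum := by
  induction s using Multiset.induction_on with
  | empty => simp [coeff_one]
  | cons a s ih =>
    obtain ⟨h0, h1⟩ := ih
    rw [Multiset.map_cons, Multiset.prod_cons, Multiset.map_cons, Multiset.sum_cons]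
    set P := (s.map (fun a => 1 - C a * X)).prod
    have e : ∀ i, ((1 - C a * X) * P).coeff (i + 1) = P.coeff (i + 1) - a * P.coeff i := by
      intro i
      rw [sub_mul, one_mul, coeff_sub, mul_assoc, coeff_C_mul, coeff_X_mul]
    have e0 : ((1 - C a * X) * P).coeff 0 = P.coeff 0 := by
      rw [sub_mul, one_mul, coeff_sub, mul_assoc, coeff_C_mul, coeff_X_mul_zero]
      ring
    have e1 : ((1 - C a * X) * P).coeff 1 = P.coeff 1 - a * P.coeff 0 := e 0
    have e2 : ((1 - C a * X) * P).coeff 2 = P.coeff 2 - a * P.coeff 1 := e 1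
    rw [e0, e1, e2, h0]
    refine ⟨rfl, ?_⟩
    linear_combination h1

/-- The sum of the squares of the reciprocal zeros. -/
theorem sum_inv_sq {f : ℝ[X]} (hroots : f.roots.card = f.natDegree) (h0 : f.coeff 0 ≠ 0) :
    f.coeff 1 ^ 2 - 2 * f.coeff 2 * f.coeff 0 =
      f.coeff 0 ^ 2 * (f.roots.map (fun r => (r⁻¹) ^ 2)).sum := by
  have hr0 : ∀ r ∈ f.roots, r ≠ 0 := by
    rintro r hr rfl
    apply h0
    rw [coeff_zero_eq_eval_zero]
    exact isRoot_of_mem_roots hr
  have hprod : ∀ s : Multiset ℝ, (∀ r ∈ s, r ≠ 0) → (s.map (fun r => X - C r)).prod =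
      C ((s.map (fun r => -r)).prod) * ((s.map (fun r => r⁻¹)).map (fun a => 1 - C a * X)).prod := by
    intro s
    induction s using Multiset.induction_on with
    | empty => intro _; simp
    | cons a s ih =>
      intro hs
      have ha := hs a (Multiset.mem_cons_self a s)
      rw [Multiset.map_cons, Multiset.prod_cons, Multiset.map_cons, Multiset.prod_cons,
        Multiset.map_cons, Multiset.map_cons, Multiset.prod_cons,
        ih (fun r hr => hs r (Multiset.mem_cons_of_mem hr)), C_mul]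
      have h1 : (X - C a : ℝ[X]) = C (-a) * (1 - C a⁻¹ * X) := by
        rw [mul_sub, mul_one, ← mul_assoc, ← C_mul, neg_mul, mul_inv_cancel₀ ha, C_neg, C_neg,
          C_1]
        ring
      rw [h1]
      ring
  have hf : f = C (f.leadingCoeff * (f.roots.map (fun r => -r)).prod) *
      ((f.roots.map (fun r => r⁻¹)).map (fun a => 1 - C a * X)).prod := by
    conv_lhs => rw [← C_leadingCoeff_mul_prod_multiset_X_sub_C hroots]
    rw [hprod _ hr0, C_mul, mul_assoc]
  obtain ⟨c, hc⟩ : ∃ c, c = f.leadingCoeff * (f.roots.map (fun r => -r)).prod := ⟨_, rfl⟩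
  obtain ⟨p0, p1⟩ := prod_coeffs (f.roots.map (fun r => r⁻¹))
  rw [← hc] at hf
  obtain ⟨P, hP⟩ : ∃ P, P = ((f.roots.map (fun r => r⁻¹)).map (fun a => 1 - C a * X)).prod :=
    ⟨_, rfl⟩
  rw [← hP] at hf p0 p1
  have hcoef : ∀ i, f.coeff i = c * P.coeff i := by
    intro i
    conv_lhs => rw [hf]
    rw [coeff_C_mul]
  rw [hcoef 0, hcoef 1, hcoef 2, p0]
  rw [Multiset.map_map] at p1
  have p2 : ((f.roots.map ((fun a => a ^ 2) ∘ fun r => r⁻¹)).sum) =
      (f.roots.map (fun r => (r⁻¹) ^ 2)).sum := rfl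
  rw [p2] at p1
  rw [← p1]
  ring

/-- The product formula for the derivative at a zero. -/
theorem deriv_at_root {f : ℝ[X]} (hroots : f.roots.card = f.natDegree)
    (hnd : f.roots.Nodup) {r : ℝ} (hr : r ∈ f.roots) :
    (derivative f).eval r = f.leadingCoeff * ∏ x ∈ f.roots.toFinset.erase r, (r - x) := by
  classical
  have hfN : f = C f.leadingCoeff * Lagrange.nodal f.roots.toFinset (id : ℝ → ℝ) := by
    conv_lhs => rw [← C_leadingCoeff_mul_prod_multiset_X_sub_C hroots]
    rw [Lagrange.nodal_eq, Finset.prod_eq_multiset_prod, Multiset.toFinset_val,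
      Multiset.dedup_eq_self.2 hnd]
    rfl
  have hr' : r ∈ f.roots.toFinset := Multiset.mem_toFinset.2 hr
  have h1 := Lagrange.eval_nodal_derivative_eval_node_eq (v := (id : ℝ → ℝ)) hr'
  conv_lhs => rw [hfN]
  rw [derivative_C_mul, eval_mul, eval_C]
  rw [show (r : ℝ) = id r from rfl, h1, Lagrange.eval_nodal]
  rfl

/-- A small zero of `L_N''` is the largest one, so `L_N''' ≥ 0` there. -/
theorem small_zero {N : ℕ} (hN : 3 ≤ N) {r : ℝ} (hr : r ∈ (lg N 2).roots)
    (hsmall : -(8 / (N : ℝ)) ≤ r) : 0 < (lg N 3).eval r := by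
  classical
  have hN' : (3 : ℝ) ≤ N := by exact_mod_cast hN
  have hk : 2 ≤ N := by omega
  have huniq : ∀ x ∈ (lg N 2).roots, x ≠ r → x < r := by
    intro x hx hxr
    by_contra hcon
    push Not at hcon
    have hx0 := lg_root_neg hk hx
    have hr0 := lg_root_neg hk hr
    have h0 : (lg N 2).coeff 0 ≠ 0 := by
      rw [coeff_zero_eq_eval_zero, lg_eval_zero]
      have := Nat.choose_pos hk
      have h2 : (0 : ℝ) < (N.choose 2 : ℝ) := by exact_mod_cast this
      exact h2.ne'
    have h1 := sum_inv_sq (lg_card hk) h0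
    have c0 : (lg N 2).coeff 0 = N * (N - 1) / 2 := by
      rw [lg_coeff, zero_add, Nat.factorial_zero, Nat.cast_one, div_one, Nat.cast_choose_two]
    have c1 : (lg N 2).coeff 1 = N * (N - 1) * (N - 2) / 6 := by
      rw [lg_coeff]
      have h3 := Nat.choose_succ_right_eq N 2
      have h4 : (N.choose 3 : ℝ) * 3 = (N.choose 2 : ℝ) * (N - 2) := by
        rw [show ((N : ℝ) - 2) = ((N - 2 : ℕ) : ℝ) by
          rw [Nat.cast_sub hk]; norm_num]
        exact_mod_cast h3
      rw [Nat.cast_choose_two] at h4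
      norm_num
      linarith
    have c2 : (lg N 2).coeff 2 = N * (N - 1) * (N - 2) * (N - 3) / 48 := by
      rw [lg_coeff]
      have h3 := Nat.choose_succ_right_eq N 2
      have h4 : (N.choose 3 : ℝ) * 3 = (N.choose 2 : ℝ) * (N - 2) := by
        rw [show ((N : ℝ) - 2) = ((N - 2 : ℕ) : ℝ) by
          rw [Nat.cast_sub hk]; norm_num]
        exact_mod_cast h3
      have h5 := Nat.choose_succ_right_eq N 3
      have h6 : (N.choose 4 : ℝ) * 4 = (N.choose 3 : ℝ) * (N - 3) := by
        rw [show ((N : ℝ) - 3) = ((N - 3 : ℕ) : ℝ) by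
          rw [Nat.cast_sub hN]; norm_num]
        exact_mod_cast h5
      rw [Nat.cast_choose_two] at h4
      have h7 : (N.choose 3 : ℝ) = N * (N - 1) / 2 * (N - 2) / 3 := by linarith
      rw [h7] at h6
      norm_num
      linarith
    have hS : (lg N 2).coeff 0 ^ 2 * ((lg N 2).roots.map (fun r => (r⁻¹) ^ 2)).sum ≥
        (lg N 2).coeff 0 ^ 2 * ((x⁻¹) ^ 2 + (r⁻¹) ^ 2) := by
      apply mul_le_mul_of_nonneg_left _ (sq_nonneg _)
      have h3 : ((lg N 2).roots.map (fun r => (r⁻¹) ^ 2)).sum =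
          ∑ y ∈ (lg N 2).roots.toFinset, (y⁻¹) ^ 2 := by
        rw [Finset.sum_eq_multiset_sum, Multiset.toFinset_val,
          Multiset.dedup_eq_self.2 (lg_nodup hk)]
      rw [h3]
      have h4 : ({x, r} : Finset ℝ) ⊆ (lg N 2).roots.toFinset := by
        intro y hy
        rw [Finset.mem_insert, Finset.mem_singleton] at hy
        rw [Multiset.mem_toFinset]
        rcases hy with rfl | rfl
        · exact hx
        · exact hr
      have h5 := Finset.sum_le_sum_of_subset_of_nonneg (f := fun y : ℝ => (y⁻¹) ^ 2) h4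
        (fun y _ _ => sq_nonneg _)
      rw [Finset.sum_pair hxr] at h5
      exact h5
    have hNpos : (0 : ℝ) < N := by linarith
    have hinv : ∀ y : ℝ, y < 0 → -(8 / (N : ℝ)) ≤ y → (N : ℝ) ^ 2 / 64 ≤ (y⁻¹) ^ 2 := by
      intro y hy0 hy
      have h3 : 0 < -y := by linarith
      have h4 : -y ≤ 8 / N := by linarith
      have h5 : (N : ℝ) / 8 ≤ (-y)⁻¹ := by
        rw [le_inv_comm₀ (by positivity) h3]
        rw [inv_div]
        exact h4
      have h6 : (y⁻¹) ^ 2 = ((-y)⁻¹) ^ 2 := by
        rw [inv_neg]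
        ring
      rw [h6]
      calc (N : ℝ) ^ 2 / 64 = ((N : ℝ) / 8) ^ 2 := by ring
        _ ≤ _ := by
          apply pow_le_pow_left₀ (by positivity) h5
    have hx1 := hinv x hx0 (by linarith)
    have hr1 := hinv r hr0 hsmall
    have hc0 : 0 < (lg N 2).coeff 0 ^ 2 := by positivity
    have h7 : (lg N 2).coeff 0 ^ 2 * ((N : ℝ) ^ 2 / 64 + (N : ℝ) ^ 2 / 64) ≤
        (lg N 2).coeff 0 ^ 2 * ((x⁻¹) ^ 2 + (r⁻¹) ^ 2) :=
      mul_le_mul_of_nonneg_left (by linarith) hc0.le
    have h8 : (lg N 2).coeff 1 ^ 2 - 2 * (lg N 2).coeff 2 * (lg N 2).coeff 0 =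
        (lg N 2).coeff 0 ^ 2 * ((N - 2) * (N + 1) / 36) := by
      rw [c0, c1, c2]
      ring
    have h9 : (lg N 2).coeff 0 ^ 2 * ((N : ℝ) ^ 2 / 64 + (N : ℝ) ^ 2 / 64) ≤
        (lg N 2).coeff 0 ^ 2 * (((N : ℝ) - 2) * (N + 1) / 36) := by
      rw [← h8, h1]
      linarith
    have h10 := le_of_mul_le_mul_left h9 hc0
    nlinarith
  have h1 := deriv_at_root (lg_card hk) (lg_nodup hk) hr
  rw [derivative_lg] at h1
  rw [h1]
  apply mul_pos
  · rw [leadingCoeff, lg_natDegree hk, lg_coeff, Nat.sub_add_cancel hk, Nat.choose_self]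
    positivity
  · apply Finset.prod_pos
    intro x hx
    rw [Finset.mem_erase, Multiset.mem_toFinset] at hx
    have := huniq x hx.2 hx.1
    linarith

end Pool.Agent.Lib.ThreeRun
end

section

set_option autoImplicit false

namespace Pool.Agent.Lib.ThreeRun

open Polynomial Filter Topology

/-- the limit series -/
noncomputable def II (k : ℕ) : ℝ := ∑' i : ℕ, (-8 : ℝ) ^ i / (i.factorial * (i + k).factorial : ℝ)

theorem choose_div_tendsto (m : ℕ) :
    Tendsto (fun N : ℕ => (N.choose m : ℝ) / (N : ℝ) ^ m) atTop (𝓝 (1 / (m.factorial : ℝ))) := by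
  have h1 := isEquivalent_choose m
  have h2 : ∀ᶠ N : ℕ in atTop, ((N : ℝ) ^ m / (m.factorial : ℝ)) ≠ 0 := by
    filter_upwards [eventually_ge_atTop 1] with N hN
    have : (0 : ℝ) < N := by exact_mod_cast hN
    positivity
  rw [Asymptotics.isEquivalent_iff_tendsto_one h2] at h1
  have h3 := h1.mul_const (1 / (m.factorial : ℝ))
  rw [one_mul] at h3
  refine h3.congr' ?_
  filter_upwards [eventually_ge_atTop 1] with N hN
  have h4 : (N : ℝ) ≠ 0 := by
    have : (0 : ℝ) < N := by exact_mod_cast hN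
    exact this.ne'
  have h5 : (m.factorial : ℝ) ≠ 0 := by positivity
  simp only [Pi.div_apply]
  field_simp

theorem lx_tendsto (k : ℕ) :
    Tendsto (fun N : ℕ => lx N k (8 / N) / (N : ℝ) ^ k) atTop (𝓝 (II k)) := by
  have h1 : ∀ N : ℕ, 1 ≤ N → lx N k (8 / N) / (N : ℝ) ^ k =
      ∑' i : ℕ, (N.choose (i + k) : ℝ) / (N : ℝ) ^ (i + k) * ((-8 : ℝ) ^ i / (i.factorial : ℝ)) := by
    intro N hN
    have hN0 : (N : ℝ) ≠ 0 := by
      have : (0 : ℝ) < N := by exact_mod_cast hN
      exact this.ne'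
    rw [tsum_eq_sum (s := Finset.range (N + 1))]
    · unfold lx lg
      rw [eval_finsetSum, Finset.sum_div]
      refine Finset.sum_congr rfl fun i _ => ?_
      rw [eval_mul, eval_C, eval_pow, eval_X, pow_add,
        show (-(8 / (N : ℝ))) = (-8) / N by ring, div_pow]
      have h5 : (i.factorial : ℝ) ≠ 0 := by positivity
      field_simp
    · intro i hi
      rw [Finset.mem_range] at hi
      rw [Nat.choose_eq_zero_of_lt (by omega)]
      simp
  have h2 : Tendsto (fun N : ℕ => ∑' i : ℕ, (N.choose (i + k) : ℝ) / (N : ℝ) ^ (i + k) *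
      ((-8 : ℝ) ^ i / (i.factorial : ℝ))) atTop (𝓝 (II k)) := by
    have h3 : II k = ∑' i : ℕ, 1 / ((i + k).factorial : ℝ) * ((-8 : ℝ) ^ i / (i.factorial : ℝ)) := by
      unfold II
      congr 1
      funext i
      rw [mul_comm (i.factorial : ℝ), div_mul_div_comm, one_mul]
    rw [h3]
    have h4 := Real.summable_pow_div_factorial 8
    refine tendsto_tsum_of_dominated_convergence h4 ?_ ?_
    · intro i
      exact (choose_div_tendsto (i + k)).mul_const _
    · filter_upwards [eventually_ge_atTop 1] with N hN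
      intro i
      have hN0 : (0 : ℝ) < N := by exact_mod_cast hN
      have h5 : (N.choose (i + k) : ℝ) / (N : ℝ) ^ (i + k) ≤ 1 := by
        rw [div_le_one (by positivity)]
        have h6 := Nat.choose_le_pow_div (α := ℝ) (i + k) N
        refine h6.trans ?_
        apply div_le_self (by positivity)
        exact_mod_cast Nat.factorial_pos (i + k)
      have h7 : 0 ≤ (N.choose (i + k) : ℝ) / (N : ℝ) ^ (i + k) := by positivity
      rw [norm_mul]
      rw [Real.norm_eq_abs, abs_of_nonneg h7, Real.norm_eq_abs, abs_div, abs_pow, abs_neg]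
      rw [abs_of_nonneg (by positivity : (0 : ℝ) ≤ (i.factorial : ℝ)),
        abs_of_nonneg (by norm_num : (0 : ℝ) ≤ 8)]
      calc (N.choose (i + k) : ℝ) / (N : ℝ) ^ (i + k) * ((8 : ℝ) ^ i / (i.factorial : ℝ)) ≤
          1 * ((8 : ℝ) ^ i / (i.factorial : ℝ)) := by
            apply mul_le_mul_of_nonneg_right h5
            positivity
        _ = _ := one_mul _
  refine h2.congr' ?_
  filter_upwards [eventually_ge_atTop 1] with N hN
  exact (h1 N hN).symm

theorem II_bound (k : ℕ) : |II k - ∑ i ∈ Finset.range 12,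
    (-8 : ℝ) ^ i / (i.factorial * (i + k).factorial : ℝ)| ≤ 1 / 1000000 := by
  have hs : Summable (fun i : ℕ => (-8 : ℝ) ^ i / (i.factorial * (i + k).factorial : ℝ)) := by
    apply (Real.summable_pow_div_factorial 8).of_norm_bounded
    intro i
    rw [Real.norm_eq_abs, abs_div, abs_pow, abs_neg, abs_of_nonneg (by norm_num : (0 : ℝ) ≤ 8),
      abs_of_nonneg (by positivity : (0 : ℝ) ≤ (i.factorial * (i + k).factorial : ℝ))]
    apply div_le_div_of_nonneg_left (by positivity) (by positivity)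
    have : (1 : ℝ) ≤ ((i + k).factorial : ℝ) := by exact_mod_cast Nat.factorial_pos (i + k)
    nlinarith [Nat.cast_nonneg (α := ℝ) i.factorial]
  have h1 := hs.sum_add_tsum_nat_add 12
  have h2 : II k - ∑ i ∈ Finset.range 12, (-8 : ℝ) ^ i / (i.factorial * (i + k).factorial : ℝ) =
      ∑' i : ℕ, (-8 : ℝ) ^ (i + 12) / ((i + 12).factorial * (i + 12 + k).factorial : ℝ) := by
    unfold II
    linarith
  rw [h2]
  have h3 : HasSum (fun i : ℕ => (8 : ℝ) ^ 12 / (12 : ℕ).factorial ^ 2 * (8 / 13) ^ i)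
      ((8 : ℝ) ^ 12 / (12 : ℕ).factorial ^ 2 * (1 - 8 / 13)⁻¹) :=
    (hasSum_geometric_of_lt_one (by norm_num) (by norm_num)).mul_left _
  have h4 := tsum_of_norm_bounded h3 (f := fun i : ℕ =>
    (-8 : ℝ) ^ (i + 12) / ((i + 12).factorial * (i + 12 + k).factorial : ℝ)) (by
    intro i
    rw [Real.norm_eq_abs, abs_div, abs_pow, abs_neg, abs_of_nonneg (by norm_num : (0 : ℝ) ≤ 8),
      abs_of_nonneg (by positivity : (0 : ℝ) ≤ ((i + 12).factorial * (i + 12 + k).factorial : ℝ))]
    have h5 : ((12 : ℕ).factorial : ℝ) * 13 ^ i ≤ ((i + 12).factorial : ℝ) := by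
      have := Nat.factorial_mul_pow_le_factorial (m := 12) (n := i)
      rw [add_comm 12 i] at this
      exact_mod_cast this
    have h6 : ((12 : ℕ).factorial : ℝ) ≤ ((i + 12 + k).factorial : ℝ) := by
      exact_mod_cast Nat.factorial_le (by omega)
    have h7 : ((12 : ℕ).factorial : ℝ) * 13 ^ i * ((12 : ℕ).factorial : ℝ) ≤
        ((i + 12).factorial * (i + 12 + k).factorial : ℝ) :=
      mul_le_mul h5 h6 (by positivity) (by positivity)
    calc (8 : ℝ) ^ (i + 12) / ((i + 12).factorial * (i + 12 + k).factorial : ℝ) ≤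
        (8 : ℝ) ^ (i + 12) / (((12 : ℕ).factorial : ℝ) * 13 ^ i * ((12 : ℕ).factorial : ℝ)) :=
          div_le_div_of_nonneg_left (by positivity) (by positivity) h7
      _ = _ := by
        rw [div_pow, pow_add]
        have h8 : ((12 : ℕ).factorial : ℝ) ≠ 0 := by positivity
        field_simp)
  rw [Real.norm_eq_abs] at h4
  refine h4.trans ?_
  rw [show ((12 : ℕ).factorial : ℝ) = 479001600 by norm_num [Nat.factorial]]
  norm_num

theorem numeric : 1 < 81 * (II 1 ^ 2 - 3 / 2 * (II 1 * II 2) + 61 / 8 * II 2 ^ 2) := by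
  have h1 := II_bound 1
  have h2 := II_bound 2
  simp only [Finset.sum_range_succ, Finset.sum_range_zero, Nat.factorial] at h1 h2
  norm_num at h1 h2
  rw [abs_le] at h1 h2
  obtain ⟨a1, a2⟩ := h1
  obtain ⟨b1, b2⟩ := h2
  have k1 : -(11629 / 100000) ≤ II 1 := by linarith
  have k2 : II 1 ≤ -(11628 / 100000) := by linarith
  have k3 : -(20266 / 1000000) ≤ II 2 := by linarith
  have k4 : II 2 ≤ -(20263 / 1000000) := by linarith
  nlinarith [mul_nonneg (sub_nonneg.2 k1) (sub_nonneg.2 k3)]

theorem UU_eventually : ∀ᶠ N : ℕ in atTop, (N : ℝ) ^ 2 < UU N (8 / N) := by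
  have hu := lx_tendsto 1
  have hv := lx_tendsto 2
  have hw : Tendsto (fun N : ℕ => (1 : ℝ) / N) atTop (𝓝 0) := tendsto_one_div_atTop_nhds_zero_nat
  have hw1 : Tendsto (fun N : ℕ => (1 - (1 : ℝ) / N)⁻¹) atTop (𝓝 1) := by
    have h := (tendsto_const_nhds (x := (1 : ℝ))).sub hw
    rw [sub_zero] at h
    have h2 := h.inv₀ one_ne_zero
    rwa [inv_one] at h2
  have hF : Tendsto (fun N : ℕ => ((lx N 1 (8 / N) / (N : ℝ) ^ 1) ^ 2 -
      3 / 2 * (1 - (1 : ℝ) / N)⁻¹ * ((lx N 1 (8 / N) / (N : ℝ) ^ 1) * (lx N 2 (8 / N) / (N : ℝ) ^ 2)) +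
      ((1 - 1 / 4 * ((1 : ℝ) / N)) * 8 - 3 / 8) * ((1 - (1 : ℝ) / N)⁻¹) ^ 2 *
        (lx N 2 (8 / N) / (N : ℝ) ^ 2) ^ 2) * (1 + 8 * (1 - (1 : ℝ) / N)) ^ 2) atTop
      (𝓝 ((II 1 ^ 2 - 3 / 2 * 1 * (II 1 * II 2) +
        ((1 - 1 / 4 * 0) * 8 - 3 / 8) * 1 ^ 2 * II 2 ^ 2) * (1 + 8 * (1 - 0)) ^ 2)) := by
    refine Tendsto.mul (((hu.pow 2).sub ((hw1.const_mul (3 / 2)).mul (hu.mul hv))).add
      (((((hw.const_mul (1 / 4)).const_sub 1).mul_const 8).sub_const (3 / 8)).mul
        (hw1.pow 2) |>.mul (hv.pow 2))) ?_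
    exact ((((hw.const_sub 1).const_mul 8).const_add 1).pow 2)
  have hlim : 1 < ((II 1 ^ 2 - 3 / 2 * 1 * (II 1 * II 2) +
        ((1 - 1 / 4 * 0) * 8 - 3 / 8) * 1 ^ 2 * II 2 ^ 2) * (1 + 8 * (1 - 0)) ^ 2) := by
    have := numeric
    linarith
  have hev := hF.eventually_const_lt hlim
  filter_upwards [hev, eventually_ge_atTop 2] with N h1 hN
  have hN2 : (2 : ℝ) ≤ N := by exact_mod_cast hN
  have hN0 : (0 : ℝ) < N := by linarith
  have hN1 : (0 : ℝ) < (N : ℝ) - 1 := by linarith
  have e1 : (1 - (1 : ℝ) / N)⁻¹ = N / (N - 1) := by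
    rw [show (1 - (1 : ℝ) / N) = (N - 1) / N by field_simp, inv_div]
  have e2 : UU N (8 / N) = (N : ℝ) ^ 2 * (((lx N 1 (8 / N) / (N : ℝ) ^ 1) ^ 2 -
      3 / 2 * (1 - (1 : ℝ) / N)⁻¹ * ((lx N 1 (8 / N) / (N : ℝ) ^ 1) * (lx N 2 (8 / N) / (N : ℝ) ^ 2)) +
      ((1 - 1 / 4 * ((1 : ℝ) / N)) * 8 - 3 / 8) * ((1 - (1 : ℝ) / N)⁻¹) ^ 2 *
        (lx N 2 (8 / N) / (N : ℝ) ^ 2) ^ 2) * (1 + 8 * (1 - (1 : ℝ) / N)) ^ 2) := by
    unfold UU WW
    rw [e1]
    set K := lx N 1 (8 / N)
    set A := lx N 2 (8 / N)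
    have hne : (N : ℝ) - 1 ≠ 0 := hN1.ne'
    have hne0 : (N : ℝ) ≠ 0 := hN0.ne'
    field_simp
    ring
  rw [e2]
  have hsq : (0 : ℝ) < (N : ℝ) ^ 2 := by positivity
  calc (N : ℝ) ^ 2 = (N : ℝ) ^ 2 * 1 := (mul_one _).symm
    _ < _ := by
      apply mul_lt_mul_of_pos_left h1 hsq

end Pool.Agent.Lib.ThreeRun
end

section

set_option autoImplicit false

namespace Pool.Agent.Lib.ThreeRun

open Polynomial Filter

/-- `(1 - L_N + X L_N') / X^2` -/
noncomputable def ph (N : ℕ) : ℝ[X] :=
  ∑ k ∈ Finset.range (N + 1), C (((k : ℝ) + 1) * (N.choose (k + 2) : ℝ) / ((k + 2).factorial : ℝ)) * X ^ k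

theorem ph_coeff (N k : ℕ) :
    (ph N).coeff k = ((k : ℝ) + 1) * (N.choose (k + 2) : ℝ) / ((k + 2).factorial : ℝ) := by
  unfold ph
  rw [finsetSum_coeff]
  simp only [coeff_C_mul, coeff_X_pow, mul_ite, mul_one, mul_zero]
  rw [Finset.sum_ite_eq]
  split_ifs with h
  · rfl
  · rw [Finset.mem_range] at h
    rw [Nat.choose_eq_zero_of_lt (by omega)]
    simp

theorem ph_mul (N : ℕ) : X ^ 2 * ph N = 1 - lg N 0 + X * lg N 1 := by
  ext i
  rw [coeff_add, coeff_sub, coeff_one, lg_coeff]
  rcases i with _ | _ | i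
  · simp
  · rw [coeff_X_mul, lg_coeff, pow_two, mul_assoc, coeff_X_mul, coeff_X_mul_zero]
    simp
  · rw [coeff_X_mul, lg_coeff, coeff_X_pow_mul, ph_coeff, if_neg (by omega), add_zero,
      Nat.factorial_succ (i + 1)]
    have h2 : ((i + 1).factorial : ℝ) ≠ 0 := by positivity
    have h3 : ((i : ℝ) + 1 + 1) ≠ 0 := by positivity
    push_cast
    field_simp
    ring

theorem ph_natDegree_le (N : ℕ) : (ph N).natDegree ≤ N - 2 := by
  rw [natDegree_le_iff_coeff_eq_zero]
  intro k hk
  rw [ph_coeff, Nat.choose_eq_zero_of_lt (by omega)]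
  simp

theorem ph_natDegree {N : ℕ} (hN : 2 ≤ N) : (ph N).natDegree = N - 2 := by
  apply natDegree_eq_of_le_of_coeff_ne_zero (ph_natDegree_le N)
  rw [ph_coeff, Nat.sub_add_cancel hN, Nat.choose_self]
  positivity

theorem ph_eval_pos {N : ℕ} (hN : 2 ≤ N) {x : ℝ} (hx : 0 ≤ x) : 0 < (ph N).eval x := by
  unfold ph
  rw [eval_finsetSum]
  have h1 : ∀ k ∈ Finset.range (N + 1), 0 ≤ (C (((k : ℝ) + 1) * (N.choose (k + 2) : ℝ) /
      ((k + 2).factorial : ℝ)) * X ^ k : ℝ[X]).eval x := by
    intro i _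
    rw [eval_mul, eval_C, eval_pow, eval_X]
    positivity
  apply Finset.sum_pos' h1
  refine ⟨0, by simp, ?_⟩
  rw [eval_mul, eval_C, eval_pow, eval_X, pow_zero, mul_one]
  have h2 : (0 : ℝ) < (N.choose (0 + 2) : ℝ) := by exact_mod_cast Nat.choose_pos hN
  positivity

/-- Real-rootedness for one `N` with the numerical condition. -/
theorem ph_hs_large {N : ℕ} (hN : 3 ≤ N) (hU : (N : ℝ) ^ 2 < UU N (8 / N)) :
    HS ((ph N).map Complex.ofRealHom) := by
  have hk : 2 ≤ N := by omega
  have hN3 : (3 : ℝ) ≤ N := by exact_mod_cast hN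
  have hN0 : (0 : ℝ) < N := by linarith
  have key : ∀ r ∈ (lg N 2).roots, 0 < (ph N).eval r * (derivative (lg N 2)).eval r := by
    intro r hr
    have hr0 := lg_root_neg hk hr
    have hA : lx N 2 (-r) = 0 := by
      unfold lx
      rw [neg_neg]
      exact isRoot_of_mem_roots hr
    have hB : (derivative (lg N 2)).eval r = lx N 3 (-r) := by
      rw [derivative_lg]
      unfold lx
      rw [neg_neg]
    have ho := lx_ode N (-r)
    have ho0 := lx_ode0 N (-r)
    rw [hA] at ho ho0
    have hp := congrArg (eval r) (ph_mul N)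
    simp only [eval_add, eval_mul, eval_X, eval_sub, eval_one, eval_pow] at hp
    have hL0 : (lg N 0).eval r = lx N 0 (-r) := by unfold lx; rw [neg_neg]
    have hL1 : (lg N 1).eval r = lx N 1 (-r) := by unfold lx; rw [neg_neg]
    rw [hL0, hL1] at hp
    obtain ⟨x, hx⟩ : ∃ x, x = -r := ⟨_, rfl⟩
    have hrx : r = -x := by linarith
    rw [← hx] at hA hB ho ho0 hp
    obtain ⟨K, hK⟩ : ∃ K, K = lx N 1 x := ⟨_, rfl⟩
    obtain ⟨B, hB'⟩ : ∃ B, B = lx N 3 x := ⟨_, rfl⟩
    rw [hrx] at hp
    rw [← hK] at ho ho0 hp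
    rw [← hB'] at ho hB
    have hx0 : 0 < x := by linarith
    have hn0 : (0 : ℝ) < (N : ℝ) - 1 := by linarith
    -- p(r) = 1 - (K/N)(1 + (N-1) x)
    have hpr : (N : ℝ) * ((-x) ^ 2 * (ph N).eval (-x)) = N - K * (1 + ((N : ℝ) - 1) * x) := by
      rw [hp]
      linear_combination -ho0
    have hpos1 : 0 < 1 + ((N : ℝ) - 1) * x := by positivity
    have hNx : 0 < (N : ℝ) * (-x) ^ 2 := by
      rw [neg_sq]
      positivity
    rw [hB, hrx]
    have hcase : (K < 0 ∧ 0 < B) ∨ (0 < K ∧ B < 0 ∧ (N : ℝ) < K * (1 + ((N : ℝ) - 1) * x)) := by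
      rcases le_or_gt (-(8 / (N : ℝ))) r with hsm | hlg
      · left
        have h1 := small_zero hN hr hsm
        have h2 : (lg N 3).eval r = B := by
          rw [hB', hx]
          unfold lx
          rw [neg_neg]
        rw [h2] at h1
        refine ⟨?_, h1⟩
        have h3 : 0 < x * B := mul_pos hx0 h1
        rw [ho] at h3
        by_contra hcon
        push Not at hcon
        have := mul_nonneg hn0.le hcon
        linarith
      · have h1 := large_zero hk hU (x := x) (by linarith) hA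
        rw [← hK] at h1
        rcases lt_trichotomy K 0 with h2 | h2 | h2
        · left
          refine ⟨h2, ?_⟩
          by_contra hcon
          push Not at hcon
          have h3 : x * B ≤ 0 := mul_nonpos_of_nonneg_of_nonpos hx0.le hcon
          rw [ho] at h3
          have := mul_neg_of_pos_of_neg hn0 h2
          linarith
        · exfalso
          rw [h2] at h1
          nlinarith
        · right
          refine ⟨h2, ?_, ?_⟩
          · by_contra hcon
            push Not at hcon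
            have h3 : 0 ≤ x * B := mul_nonneg hx0.le hcon
            rw [ho] at h3
            have := mul_pos hn0 h2
            linarith
          · exact lt_of_pow_lt_pow_left₀ 2 (by positivity) h1
    rcases hcase with ⟨h1, h2⟩ | ⟨h1, h2, h3⟩
    · apply mul_pos _ h2
      have h4 : 0 < (N : ℝ) * ((-x) ^ 2 * (ph N).eval (-x)) := by
        rw [hpr]
        have := mul_neg_of_neg_of_pos h1 hpos1
        linarith
      rw [← mul_assoc] at h4
      by_contra hcon
      push Not at hcon
      have := mul_nonpos_of_nonneg_of_nonpos hNx.le hcon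
      linarith
    · apply mul_pos_of_neg_of_neg _ h2
      have h4 : (N : ℝ) * ((-x) ^ 2 * (ph N).eval (-x)) < 0 := by
        rw [hpr]
        linarith
      rw [← mul_assoc] at h4
      by_contra hcon
      push Not at hcon
      have := mul_nonneg hNx.le hcon
      linarith
  intro z hz hcon
  have h1 := (il (lg_ne_zero hk) (lg_card hk) (lg_nodup hk) (g := ph N) (by
    rw [lg_natDegree hk]
    exact ph_natDegree_le N) (fun r hr => (key r hr).le) hz).2 (by
      have h2 : 0 < (lg N 2).roots.card := by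
        rw [lg_card hk, lg_natDegree hk]
        omega
      obtain ⟨r, hr⟩ := Multiset.card_pos_iff_exists_mem.1 h2
      exact ⟨r, hr, key r hr⟩)
  rw [hcon, zero_div] at h1
  simp at h1

theorem ph_rec (N : ℕ) : C ((N : ℝ) + 1) * ph N =
    C ((N : ℝ) - 1) * ph (N + 1) - X * derivative (ph (N + 1)) := by
  ext k
  have hX : (X * derivative (ph (N + 1))).coeff k = k * (ph (N + 1)).coeff k := by
    cases k with
    | zero => simp
    | succ k =>
      rw [coeff_X_mul, coeff_derivative]
      push_cast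
      ring
  rw [coeff_sub, coeff_C_mul, coeff_C_mul, hX, ph_coeff, ph_coeff]
  have h1 : ((N : ℝ) + 1) * (N.choose (k + 2) : ℝ) =
      ((N : ℝ) - 1 - k) * ((N + 1).choose (k + 2) : ℝ) := by
    rcases Nat.lt_or_ge N (k + 1) with h | h
    · rw [Nat.choose_eq_zero_of_lt (show N < k + 2 by omega),
        Nat.choose_eq_zero_of_lt (show N + 1 < k + 2 by omega)]
      simp
    · have h2 := Nat.choose_mul_succ_eq N (k + 2)
      have h3 : ((N + 1 - (k + 2) : ℕ) : ℝ) = (N : ℝ) - 1 - k := by
        rw [Nat.cast_sub (by omega)]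
        push_cast
        ring
      rw [← h3]
      have h4 : (N.choose (k + 2) : ℝ) * ((N : ℝ) + 1) =
          ((N + 1).choose (k + 2) : ℝ) * ((N + 1 - (k + 2) : ℕ) : ℝ) := by
        exact_mod_cast h2
      linarith
  have h5 : ((k + 2).factorial : ℝ) ≠ 0 := by positivity
  field_simp
  linear_combination h1

theorem ph_descent {N : ℕ} (hN : 2 ≤ N) (h : HS ((ph (N + 1)).map Complex.ofRealHom)) :
    HS ((ph N).map Complex.ofRealHom) := by
  intro z hz hcon
  set f := (ph (N + 1)).map Complex.ofRealHom with hf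
  have hfz := h z hz
  have hm := hsm_of_hs_real h
  have h1 := congrArg (fun p => (p.map Complex.ofRealHom).eval z) (ph_rec N)
  simp only [Polynomial.map_mul, Polynomial.map_sub, map_C, map_X, eval_mul, eval_sub, eval_C,
    eval_X, ← derivative_map] at h1
  rw [hcon, mul_zero] at h1
  have h2 := (IsAlgClosed.splits f).eval_derivative_eq_eval_mul_sum hfz
  rw [h2] at h1
  have hroot : ∀ ζ ∈ f.roots, 0 < (z * (1 / (z - ζ))).im := by
    intro ζ hζ
    have h3 : ζ.im ≤ 0 := h.root_im hζ
    have h4 : 0 ≤ ζ.im := hm.root_im hζ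
    have h5 : ζ.im = 0 := le_antisymm h3 h4
    have h6 : ζ = ((ζ.re : ℝ) : ℂ) := by
      apply Complex.ext
      · simp
      · simp [h5]
    have h7 : ζ.re < 0 := by
      by_contra hc
      push Not at hc
      have h8 : f.eval ζ = 0 := isRoot_of_mem_roots hζ
      rw [h6, hf, show ((ζ.re : ℝ) : ℂ) = Complex.ofRealHom ζ.re from rfl, eval_map,
        eval₂_hom] at h8
      have h9 := ph_eval_pos (show 2 ≤ N + 1 by omega) hc
      rw [Complex.ofRealHom_eq_coe, Complex.ofReal_eq_zero] at h8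
      linarith
    have h10 : z - ζ ≠ 0 := by
      intro h11
      have := congrArg Complex.im h11
      rw [Complex.sub_im, Complex.zero_im] at this
      linarith
    have h11 : z * (1 / (z - ζ)) = 1 + ((ζ.re : ℝ) : ℂ) * (1 / (z - ζ)) := by
      rw [← h6]
      field_simp
      ring
    rw [h11, Complex.add_im, Complex.one_im, zero_add, Complex.im_ofReal_mul]
    apply mul_pos_of_neg_of_neg h7
    apply inv_im_neg
    rw [Complex.sub_im]
    linarith
  have hsum : z * (f.roots.map fun ζ => 1 / (z - ζ)).sum =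
      (f.roots.map fun ζ => z * (1 / (z - ζ))).sum := by
    rw [Multiset.sum_map_mul_left]
  have hne : f.roots ≠ 0 := by
    apply (IsAlgClosed.splits f).roots_ne_zero
    rw [hf, natDegree_map, ph_natDegree (by omega)]
    omega
  have him := (multiset_sum_im_pos (fun ζ => z * (1 / (z - ζ))) f.roots hroot).2 hne
  have h12 : f.eval z * ((((N : ℝ) - 1 : ℝ) : ℂ) - z * (f.roots.map fun ζ => 1 / (z - ζ)).sum) = 0 := by
    have h13 : Complex.ofRealHom ((N : ℝ) - 1) = (((N : ℝ) - 1 : ℝ) : ℂ) := rfl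
    rw [h13] at h1
    linear_combination -h1
  have h14 := (mul_eq_zero.1 h12).resolve_left hfz
  rw [hsum] at h14
  have h15 := congrArg Complex.im h14
  rw [Complex.sub_im, Complex.ofReal_im, Complex.zero_im] at h15
  linarith

theorem ph_hs {N : ℕ} (hN : 2 ≤ N) : HS ((ph N).map Complex.ofRealHom) := by
  obtain ⟨M, hM⟩ := (UU_eventually.and (eventually_ge_atTop (max N 3))).exists
  obtain ⟨hU, hMN⟩ := hM
  have hM3 : 3 ≤ M := le_trans (le_max_right _ _) hMN
  have hNM : N ≤ M := le_trans (le_max_left _ _) hMN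
  have h1 := ph_hs_large hM3 hU
  have h2 : ∀ d, N + d ≤ M → HS ((ph (M - d)).map Complex.ofRealHom) := by
    intro d
    induction d with
    | zero => intro _; simpa using h1
    | succ d ih =>
      intro hd
      have h3 := ih (by omega)
      have h4 : M - d = (M - (d + 1)) + 1 := by omega
      rw [h4] at h3
      exact ph_descent (by omega) h3
  have h3 := h2 (M - N) (by omega)
  rwa [show M - (M - N) = N by omega] at h3

end Pool.Agent.Lib.ThreeRun
end

section

set_option autoImplicit false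

namespace Pool.Agent.Lib.ThreeRun

open Polynomial

/-- `∑ (k+1) C(N,k+2) C(M,k+2) X^k` -/
noncomputable def SS (N M : ℕ) : ℝ[X] :=
  ∑ k ∈ Finset.range (N + 1), C (((k : ℝ) + 1) * (N.choose (k + 2) : ℝ) * (M.choose (k + 2) : ℝ)) * X ^ k

theorem SS_coeff (N M k : ℕ) :
    (SS N M).coeff k = ((k : ℝ) + 1) * (N.choose (k + 2) : ℝ) * (M.choose (k + 2) : ℝ) := by
  unfold SS
  rw [finsetSum_coeff]
  simp only [coeff_C_mul, coeff_X_pow, mul_ite, mul_one, mul_zero]
  rw [Finset.sum_ite_eq]
  split_ifs with h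
  · rfl
  · rw [Finset.mem_range] at h
    rw [Nat.choose_eq_zero_of_lt (show N < k + 2 by omega)]
    simp

theorem SS_hs {N M : ℕ} (hN : 2 ≤ N) (hM : 2 ≤ M) : HS ((SS N M).map Complex.ofRealHom) := by
  intro t ht hcon
  set f : ℂ[X] := X ^ 2 * (ph N).map Complex.ofRealHom with hf
  have hfS : HS f := by
    intro z hz
    rw [hf, eval_mul, eval_pow, eval_X]
    apply mul_ne_zero _ (ph_hs hN z hz)
    apply pow_ne_zero
    rintro rfl
    simp at hz
  have h1 := mul_ne_zero_of_hs M hfS ⟨2, hM, by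
    rw [hf, show (2 : ℕ) = 0 + 2 from rfl, coeff_X_pow_mul, coeff_map, ph_coeff]
    have h2 : (N.choose (0 + 2) : ℂ) ≠ 0 := by exact_mod_cast (Nat.choose_pos hN).ne'
    simp only [Complex.ofRealHom_eq_coe]
    push_cast
    have h3 : ((0 + 2 : ℕ).factorial : ℂ) ≠ 0 := by exact_mod_cast (Nat.factorial_pos _).ne'
    simp only [zero_add, one_mul]
    exact div_ne_zero h2 h3⟩ ht
  apply h1
  have h2 : ∑ i ∈ Finset.range (M + 1), f.coeff i * (M.descFactorial i : ℂ) * t ^ i =
      t ^ 2 * ((SS N M).map Complex.ofRealHom).eval t := by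
    obtain ⟨M', rfl⟩ : ∃ M', M = M' + 1 := ⟨M - 1, by omega⟩
    rw [Finset.sum_range_succ', Finset.sum_range_succ']
    have h3 : f.coeff 0 = 0 := by
      rw [hf, pow_two, mul_assoc, coeff_X_mul_zero]
    have h4 : f.coeff (0 + 1) = 0 := by
      rw [hf, pow_two, mul_assoc, coeff_X_mul, coeff_X_mul_zero]
    rw [h3, h4, zero_mul, zero_mul, zero_mul, zero_mul, add_zero, add_zero]
    have h5 : ∀ k, f.coeff (k + 1 + 1) * ((M' + 1).descFactorial (k + 1 + 1) : ℂ) * t ^ (k + 1 + 1) =
        t ^ 2 * (((((k : ℝ) + 1) * (N.choose (k + 2) : ℝ) * ((M' + 1).choose (k + 2) : ℝ) : ℝ) : ℂ) *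
          t ^ k) := by
      intro k
      rw [hf, show k + 1 + 1 = k + 2 from rfl, coeff_X_pow_mul, coeff_map, ph_coeff,
        descFactorial_cast]
      simp only [Complex.ofRealHom_eq_coe]
      push_cast
      have h6 : ((k + 2).factorial : ℂ) ≠ 0 := by exact_mod_cast (Nat.factorial_pos _).ne'
      field_simp
      ring
    rw [Finset.sum_congr rfl fun k _ => h5 k, ← Finset.mul_sum]
    congr 1
    unfold SS
    rw [Polynomial.map_sum, eval_finsetSum]
    simp only [Polynomial.map_mul, map_C, Polynomial.map_pow, map_X, eval_mul, eval_C, eval_pow,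
      eval_X, Complex.ofRealHom_eq_coe]
    have e1 : ∑ k ∈ Finset.range M', ((((k : ℝ) + 1) * (N.choose (k + 2) : ℝ) *
        ((M' + 1).choose (k + 2) : ℝ) : ℝ) : ℂ) * t ^ k =
        ∑ k ∈ Finset.range (M' + N + 1), ((((k : ℝ) + 1) * (N.choose (k + 2) : ℝ) *
        ((M' + 1).choose (k + 2) : ℝ) : ℝ) : ℂ) * t ^ k := by
      apply Finset.sum_subset
      · intro i hi
        rw [Finset.mem_range] at hi ⊢
        omega
      · intro i _ hi
        rw [Finset.mem_range] at hi
        rw [Nat.choose_eq_zero_of_lt (show M' + 1 < i + 2 by omega)]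
        simp
    have e2 : ∑ k ∈ Finset.range (N + 1), ((((k : ℝ) + 1) * (N.choose (k + 2) : ℝ) *
        ((M' + 1).choose (k + 2) : ℝ) : ℝ) : ℂ) * t ^ k =
        ∑ k ∈ Finset.range (M' + N + 1), ((((k : ℝ) + 1) * (N.choose (k + 2) : ℝ) *
        ((M' + 1).choose (k + 2) : ℝ) : ℝ) : ℂ) * t ^ k := by
      apply Finset.sum_subset
      · intro i hi
        rw [Finset.mem_range] at hi ⊢
        omega
      · intro i _ hi
        rw [Finset.mem_range] at hi
        rw [Nat.choose_eq_zero_of_lt (show N < i + 2 by omega)]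
        simp
    rw [e1, e2]
  rw [h2, hcon, mul_zero]

/-- `∑ multichoose b k C(N,b+k) C(M,b+k) X^k` -/
noncomputable def PP (N M b : ℕ) : ℝ[X] :=
  ∑ k ∈ Finset.range (N + 1),
    C ((Nat.multichoose b k : ℝ) * (N.choose (b + k) : ℝ) * (M.choose (b + k) : ℝ)) * X ^ k

theorem PP_coeff {N M b : ℕ} (hb : 1 ≤ b) (k : ℕ) :
    (PP N M b).coeff k =
      (Nat.multichoose b k : ℝ) * (N.choose (b + k) : ℝ) * (M.choose (b + k) : ℝ) := by
  unfold PP
  rw [finsetSum_coeff]
  simp only [coeff_C_mul, coeff_X_pow, mul_ite, mul_one, mul_zero]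
  rw [Finset.sum_ite_eq]
  split_ifs with h
  · rfl
  · rw [Finset.mem_range] at h
    rw [Nat.choose_eq_zero_of_lt (show N < b + k by omega)]
    simp

theorem iter_deriv_SS (N M b : ℕ) : Polynomial.derivative^[b] (SS N M) =
    C ((b + 1).factorial : ℝ) * PP N M (b + 2) := by
  ext k
  rw [coeff_iterate_derivative, coeff_C_mul, PP_coeff (by omega), SS_coeff, nsmul_eq_mul]
  have h1 : (k + b + 1) * (k + b).descFactorial b = (b + 1).factorial * Nat.multichoose (b + 2) k := by
    rw [← Nat.succ_descFactorial_succ, Nat.descFactorial_eq_factorial_mul_choose,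
      Nat.multichoose_eq, show b + 2 + k - 1 = k + b + 1 by omega]
    congr 1
    exact Nat.choose_symm_of_eq_add (by omega)
  have h2 : ((k : ℝ) + b + 1) * ((k + b).descFactorial b : ℝ) =
      ((b + 1).factorial : ℝ) * (Nat.multichoose (b + 2) k : ℝ) := by exact_mod_cast h1
  rw [show b + 2 + k = k + b + 2 by omega]
  push_cast
  linear_combination ((N.choose (k + b + 2) : ℝ) * (M.choose (k + b + 2) : ℝ)) * h2

theorem PP_hs {N M b : ℕ} (hb : 2 ≤ b) (hN : b ≤ N) (hM : b ≤ M) :
    HS ((PP N M b).map Complex.ofRealHom) := by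
  obtain ⟨b', rfl⟩ : ∃ b', b = b' + 2 := ⟨b - 2, by omega⟩
  have h1 := iter_deriv_SS N M b'
  have h2 : HS (Polynomial.derivative^[b'] ((SS N M).map Complex.ofRealHom)) := by
    apply (SS_hs (by omega) (by omega)).iterate_derivative
    rw [natDegree_map]
    apply le_natDegree_of_ne_zero
    rw [SS_coeff]
    have h3 : (0 : ℝ) < (N.choose (b' + 2) : ℝ) := by exact_mod_cast Nat.choose_pos hN
    have h4 : (0 : ℝ) < (M.choose (b' + 2) : ℝ) := by exact_mod_cast Nat.choose_pos hM
    positivity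
  intro z hz hcon
  apply h2 z hz
  rw [iterate_derivative_map, h1, Polynomial.map_mul, eval_mul, hcon, mul_zero]

/-- `PP` has no zeros outside the negative half line. -/
theorem PP_ne_zero {N M b : ℕ} (hb : 2 ≤ b) (hN : b ≤ N) (hM : b ≤ M) {u : ℂ}
    (hu : u.im ≠ 0 ∨ 0 ≤ u.re) : ((PP N M b).map Complex.ofRealHom).eval u ≠ 0 := by
  have h1 := PP_hs hb hN hM
  rcases lt_trichotomy u.im 0 with h | h | h
  · exact hsm_of_hs_real h1 u h
  · have h2 : 0 ≤ u.re := hu.resolve_left (by simpa using h)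
    have h3 : u = Complex.ofRealHom u.re := by
      apply Complex.ext
      · simp
      · simp [h]
    rw [h3, eval_map, eval₂_hom, Complex.ofRealHom_eq_coe, Ne, Complex.ofReal_eq_zero]
    apply ne_of_gt
    unfold PP
    rw [eval_finsetSum]
    have h4 : ∀ k ∈ Finset.range (N + 1), 0 ≤ (C ((Nat.multichoose b k : ℝ) *
        (N.choose (b + k) : ℝ) * (M.choose (b + k) : ℝ)) * X ^ k : ℝ[X]).eval u.re := by
      intro i _
      rw [eval_mul, eval_C, eval_pow, eval_X]
      positivity
    apply Finset.sum_pos' h4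
    refine ⟨0, by simp, ?_⟩
    rw [eval_mul, eval_C, eval_pow, eval_X, pow_zero, mul_one, add_zero, Nat.multichoose_zero_right]
    have h5 : (0 : ℝ) < (N.choose b : ℝ) := by exact_mod_cast Nat.choose_pos hN
    have h6 : (0 : ℝ) < (M.choose b : ℝ) := by exact_mod_cast Nat.choose_pos hM
    positivity
  · exact h1 u h

/-- elementary symmetric functions of a list, as coefficients -/
noncomputable def es (W : List ℂ) (j : ℕ) : ℂ := ((W.map (fun w => 1 + C w * X)).prod).coeff j

theorem es_zero_of_lt {W : List ℂ} {j : ℕ} (h : W.length < j) : es W j = 0 := by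
  unfold es
  apply coeff_eq_zero_of_natDegree_lt
  refine lt_of_le_of_lt ?_ h
  clear h
  induction W with
  | nil => simp
  | cons a l ihl =>
    rw [List.map_cons, List.prod_cons, List.length_cons]
    refine (natDegree_mul_le).trans ?_
    have h3 : (1 + C a * X : ℂ[X]).natDegree ≤ 1 := by
      rw [add_comm, ← C_1]
      exact natDegree_linear_le
    omega

theorem mid1 {a b c : ℕ} (hb : 2 ≤ b) {W : List ℂ} (hW : W.length = a + b)
    (hpos : ∀ w ∈ W, 0 < w.im) {y : ℂ} (hy : 0 < y.im) :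
    ∑ k ∈ Finset.range (a + 1), (Nat.multichoose b k : ℂ) * ((b + c).choose (b + k) : ℂ) *
      es W (a - k) * y ^ (b + k) ≠ 0 := by
  set f : ℂ[X] := ∑ k ∈ Finset.range (a + 1), C ((Nat.multichoose b k : ℂ) *
    ((a + b).choose (b + k) : ℂ) * ((b + c).choose (b + k) : ℂ) * y ^ (b + k)) * X ^ (a - k) with hf
  have hy0 : y ≠ 0 := by rintro rfl; simp at hy
  have hfS : HS f := by
    intro x hx
    have hx0 : x ≠ 0 := by rintro rfl; simp at hx
    have h1 : f.eval x = x ^ a * y ^ b *
        ((PP (a + b) (b + c) b).map Complex.ofRealHom).eval (y / x) := by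
      rw [hf, eval_finsetSum]
      unfold PP
      rw [Polynomial.map_sum, eval_finsetSum, Finset.mul_sum]
      simp only [Polynomial.map_mul, map_C, Polynomial.map_pow, map_X, eval_mul, eval_C, eval_pow,
        eval_X, Complex.ofRealHom_eq_coe]
      have e1 : ∑ k ∈ Finset.range (a + b + 1), x ^ a * y ^ b * ((((Nat.multichoose b k : ℝ) *
          ((a + b).choose (b + k) : ℝ) * ((b + c).choose (b + k) : ℝ) : ℝ) : ℂ) * (y / x) ^ k) =
          ∑ k ∈ Finset.range (a + 1), x ^ a * y ^ b * ((((Nat.multichoose b k : ℝ) *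
          ((a + b).choose (b + k) : ℝ) * ((b + c).choose (b + k) : ℝ) : ℝ) : ℂ) * (y / x) ^ k) := by
        symm
        apply Finset.sum_subset
        · intro i hi
          rw [Finset.mem_range] at hi ⊢
          omega
        · intro i _ hi
          rw [Finset.mem_range] at hi
          rw [Nat.choose_eq_zero_of_lt (show a + b < b + i by omega)]
          simp
      rw [e1]
      refine Finset.sum_congr rfl fun k hk => ?_
      rw [Finset.mem_range] at hk
      have e2 : x ^ a = x ^ (a - k) * x ^ k := by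
        rw [← pow_add]
        congr 1
        omega
      rw [e2, div_pow, pow_add]
      push_cast
      field_simp
    rw [h1]
    apply mul_ne_zero (mul_ne_zero (pow_ne_zero _ hx0) (pow_ne_zero _ hy0))
    apply PP_ne_zero hb (by omega) (by omega)
    by_contra hcon
    push Not at hcon
    obtain ⟨hc1, hc2⟩ := hcon
    have h2 : y = ((y / x).re : ℂ) * x := by
      have h3 : y / x = (((y / x).re : ℝ) : ℂ) := by
        apply Complex.ext
        · simp
        · simp [hc1]
      rw [← h3]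
      field_simp
    have h4 := congrArg Complex.im h2
    rw [Complex.im_ofReal_mul] at h4
    have h5 := mul_neg_of_neg_of_pos hc2 hx
    linarith
  have hcoef : ∀ k, k ≤ a → f.coeff (a - k) = (Nat.multichoose b k : ℂ) *
      ((a + b).choose (b + k) : ℂ) * ((b + c).choose (b + k) : ℂ) * y ^ (b + k) := by
    intro k hk
    rw [hf, finsetSum_coeff, Finset.sum_eq_single k]
    · rw [coeff_C_mul, coeff_X_pow, if_pos rfl, mul_one]
    · intro j hj hji
      rw [Finset.mem_range] at hj
      rw [coeff_C_mul, coeff_X_pow, if_neg (by omega), mul_zero]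
    · intro h
      exact absurd (Finset.mem_range.2 (by omega)) h
  have hdeg : f.natDegree ≤ a := by
    rw [hf]
    apply natDegree_sum_le_of_forall_le
    intro k _
    refine (natDegree_C_mul_X_pow_le _ _).trans (Nat.sub_le _ _)
  have h6 := gws (a + b) f W hfS (by omega) hW hpos
  intro hcon
  apply h6
  rw [← hcon]
  unfold gsum
  have e3 : ∑ j ∈ Finset.range (a + b + 1), f.coeff j / ((a + b).choose j : ℂ) *
      ((W.map (fun w => 1 + C w * X)).prod).coeff j =
      ∑ j ∈ Finset.range (a + 1), f.coeff j / ((a + b).choose j : ℂ) *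
      ((W.map (fun w => 1 + C w * X)).prod).coeff j := by
    symm
    apply Finset.sum_subset
    · intro i hi
      rw [Finset.mem_range] at hi ⊢
      omega
    · intro i _ hi
      rw [Finset.mem_range] at hi
      rw [coeff_eq_zero_of_natDegree_lt (show f.natDegree < i by omega)]
      simp
  rw [e3, ← Finset.sum_range_reflect]
  refine Finset.sum_congr rfl fun k hk => ?_
  rw [Finset.mem_range] at hk
  rw [show a + 1 - 1 - k = a - k by omega, hcoef k (by omega)]
  have e4 : ((a + b).choose (a - k) : ℂ) = ((a + b).choose (b + k) : ℂ) := by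
    rw [← Nat.choose_symm_of_eq_add (show a + b = (b + k) + (a - k) by omega)]
  have e5 : ((a + b).choose (b + k) : ℂ) ≠ 0 := by
    exact_mod_cast (Nat.choose_pos (by omega)).ne'
  rw [e4]
  unfold es
  field_simp

theorem mid2 {a b c : ℕ} (hb : 2 ≤ b) {W V : List ℂ} (hW : W.length = a + b)
    (hV : V.length = b + c) (hpos : ∀ w ∈ W, 0 < w.im) (hposV : ∀ w ∈ V, 0 < w.im) :
    ∑ k ∈ Finset.range (a + 1), (Nat.multichoose b k : ℂ) * es W (a - k) * es V (b + k) ≠ 0 := by
  set g : ℂ[X] := ∑ k ∈ Finset.range (a + 1), C ((Nat.multichoose b k : ℂ) *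
    ((b + c).choose (b + k) : ℂ) * es W (a - k)) * X ^ (b + k) with hg
  have hgS : HS g := by
    intro y hy
    have h1 := mid1 (c := c) hb hW hpos hy
    rw [hg, eval_finsetSum]
    simpa only [eval_mul, eval_C, eval_pow, eval_X] using h1
  have hcoef : ∀ k, k ≤ a → g.coeff (b + k) = (Nat.multichoose b k : ℂ) *
      ((b + c).choose (b + k) : ℂ) * es W (a - k) := by
    intro k hk
    rw [hg, finsetSum_coeff, Finset.sum_eq_single k]
    · rw [coeff_C_mul, coeff_X_pow, if_pos rfl, mul_one]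
    · intro j hj hji
      rw [coeff_C_mul, coeff_X_pow, if_neg (by omega), mul_zero]
    · intro h
      exact absurd (Finset.mem_range.2 (by omega)) h
  have hcoef0 : ∀ j, (j < b ∨ a + b < j) → g.coeff j = 0 := by
    intro j hj
    rw [hg, finsetSum_coeff]
    apply Finset.sum_eq_zero
    intro k hk
    rw [Finset.mem_range] at hk
    rw [coeff_C_mul, coeff_X_pow, if_neg (by omega), mul_zero]
  have hdeg : g.natDegree ≤ b + c := by
    rw [natDegree_le_iff_coeff_eq_zero]
    intro j hj
    by_cases h1 : j < b ∨ a + b < j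
    · exact hcoef0 j h1
    · push Not at h1
      have h2 := hcoef (j - b) (by omega)
      rw [show b + (j - b) = j by omega] at h2
      rw [h2, Nat.choose_eq_zero_of_lt hj]
      simp
  have h6 := gws (b + c) g V hgS hdeg hV hposV
  intro hcon
  apply h6
  rw [← hcon]
  unfold gsum
  have e1 : ∑ j ∈ Finset.range (b + c + 1), g.coeff j / ((b + c).choose j : ℂ) *
      ((V.map (fun w => 1 + C w * X)).prod).coeff j =
      ∑ j ∈ Finset.range (b + (a + c + 1)), g.coeff j / ((b + c).choose j : ℂ) *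
      ((V.map (fun w => 1 + C w * X)).prod).coeff j := by
    apply Finset.sum_subset
    · intro i hi
      rw [Finset.mem_range] at hi ⊢
      omega
    · intro i _ hi
      rw [Finset.mem_range] at hi
      rw [coeff_eq_zero_of_natDegree_lt (show g.natDegree < i by omega)]
      simp
  have e2 : ∑ k ∈ Finset.range (a + 1), (Nat.multichoose b k : ℂ) * es W (a - k) * es V (b + k) =
      ∑ k ∈ Finset.range (a + c + 1), g.coeff (b + k) / ((b + c).choose (b + k) : ℂ) *
      ((V.map (fun w => 1 + C w * X)).prod).coeff (b + k) := by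
    have e3 : ∑ k ∈ Finset.range (a + 1), (Nat.multichoose b k : ℂ) * es W (a - k) * es V (b + k) =
        ∑ k ∈ Finset.range (a + 1), g.coeff (b + k) / ((b + c).choose (b + k) : ℂ) *
      ((V.map (fun w => 1 + C w * X)).prod).coeff (b + k) := by
      refine Finset.sum_congr rfl fun k hk => ?_
      rw [Finset.mem_range] at hk
      rw [hcoef k (by omega)]
      rcases Nat.lt_or_ge c k with h | h
      · rw [es_zero_of_lt (show V.length < b + k by omega)]
        have := es_zero_of_lt (show V.length < b + k by omega)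
        unfold es at this
        rw [this]
        simp
      · have e5 : ((b + c).choose (b + k) : ℂ) ≠ 0 := by
          exact_mod_cast (Nat.choose_pos (by omega)).ne'
        change _ * _ * es V (b + k) = _ / _ * es V (b + k)
        field_simp
    rw [e3]
    apply Finset.sum_subset
    · intro i hi
      rw [Finset.mem_range] at hi ⊢
      omega
    · intro i _ hi
      rw [Finset.mem_range] at hi
      rw [hcoef0 (b + i) (Or.inr (by omega))]
      simp
  rw [e1, e2, Finset.sum_range_add]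
  have e4 : ∑ x ∈ Finset.range b, g.coeff x / ((b + c).choose x : ℂ) *
      ((V.map (fun w => 1 + C w * X)).prod).coeff x = 0 := by
    apply Finset.sum_eq_zero
    intro x hx
    rw [Finset.mem_range] at hx
    rw [hcoef0 x (Or.inl hx)]
    simp
  rw [e4, zero_add]

end Pool.Agent.Lib.ThreeRun
end

section

set_option autoImplicit false

namespace Pool.Agent.Lib.ThreeRun

open Polynomial

/-- `∑ C(a,p+i) C(b,i) t^i` -/
noncomputable def AC (b p a : ℕ) (t : ℂ) : ℂ :=
  ∑ i ∈ Finset.range (b + 1), (a.choose (p + i) : ℂ) * (b.choose i : ℂ) * t ^ i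

theorem coeff_pow_lin (n : ℕ) (u : ℂ) (i : ℕ) :
    ((1 + C u * X : ℂ[X]) ^ n).coeff i = (n.choose i : ℂ) * u ^ i := by
  have h1 : (1 + C u * X : ℂ[X]) ^ n = ((1 + X : ℂ[X]) ^ n).comp (C u * X) := by
    simp
  rw [h1, comp_C_mul_X_coeff, coeff_one_add_X_pow]

theorem es_two (m n : ℕ) (u v : ℂ) (j : ℕ) :
    es (List.replicate m u ++ List.replicate n v) j =
      ∑ i ∈ Finset.range (j + 1), ((m.choose (j - i) : ℂ) * u ^ (j - i)) *
        ((n.choose i : ℂ) * v ^ i) := by
  unfold es
  rw [List.map_append, List.prod_append, List.map_replicate, List.map_replicate,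
    List.prod_replicate, List.prod_replicate, coeff_mul,
    ← Finset.Nat.sum_antidiagonal_swap,
    Finset.Nat.sum_antidiagonal_eq_sum_range_succ_mk]
  refine Finset.sum_congr rfl fun i _ => ?_
  simp only [Prod.swap]
  rw [coeff_pow_lin, coeff_pow_lin]

theorem es_W {a b k : ℕ} (hk : k ≤ a) (τ t : ℂ) :
    es (List.replicate a τ ++ List.replicate b (τ * t)) (a - k) = τ ^ (a - k) * AC b k a t := by
  rw [es_two]
  unfold AC
  rw [Finset.mul_sum]
  have e1 : ∀ i ∈ Finset.range (a - k + 1), ((a.choose (a - k - i) : ℂ) * τ ^ (a - k - i)) *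
      ((b.choose i : ℂ) * (τ * t) ^ i) = τ ^ (a - k) * ((a.choose (k + i) : ℂ) * (b.choose i : ℂ) * t ^ i) := by
    intro i hi
    rw [Finset.mem_range] at hi
    have h1 : a.choose (a - k - i) = a.choose (k + i) :=
      Nat.choose_symm_of_eq_add (by omega)
    have h2 : τ ^ (a - k) = τ ^ (a - k - i) * τ ^ i := by
      rw [← pow_add]
      congr 1
      omega
    rw [h1, h2, mul_pow]
    ring
  rw [Finset.sum_congr rfl e1]
  have e2 : ∑ i ∈ Finset.range (a - k + 1), τ ^ (a - k) * ((a.choose (k + i) : ℂ) * (b.choose i : ℂ) * t ^ i) =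
      ∑ i ∈ Finset.range (a + b + 1), τ ^ (a - k) * ((a.choose (k + i) : ℂ) * (b.choose i : ℂ) * t ^ i) := by
    apply Finset.sum_subset
    · intro i hi
      rw [Finset.mem_range] at hi ⊢
      omega
    · intro i _ hi
      rw [Finset.mem_range] at hi
      rw [Nat.choose_eq_zero_of_lt (show a < k + i by omega)]
      simp
  have e3 : ∑ i ∈ Finset.range (b + 1), τ ^ (a - k) * ((a.choose (k + i) : ℂ) * (b.choose i : ℂ) * t ^ i) =
      ∑ i ∈ Finset.range (a + b + 1), τ ^ (a - k) * ((a.choose (k + i) : ℂ) * (b.choose i : ℂ) * t ^ i) := by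
    apply Finset.sum_subset
    · intro i hi
      rw [Finset.mem_range] at hi ⊢
      omega
    · intro i _ hi
      rw [Finset.mem_range] at hi
      rw [Nat.choose_eq_zero_of_lt (show b < i by omega)]
      simp
  rw [e2, e3]

theorem es_V {b c k : ℕ} (τ t : ℂ) :
    es (List.replicate b τ ++ List.replicate c (τ * t)) (b + k) =
      τ ^ (b + k) * t ^ k * AC b k c t := by
  rw [es_two]
  unfold AC
  rw [Finset.mul_sum, show b + k + 1 = k + (b + 1) by ring, Finset.sum_range_add]
  have e0 : ∑ x ∈ Finset.range k, ((b.choose (b + k - x) : ℂ) * τ ^ (b + k - x)) *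
      ((c.choose x : ℂ) * (τ * t) ^ x) = 0 := by
    apply Finset.sum_eq_zero
    intro x hx
    rw [Finset.mem_range] at hx
    rw [Nat.choose_eq_zero_of_lt (show b < b + k - x by omega)]
    simp
  rw [e0, zero_add]
  refine Finset.sum_congr rfl fun i hi => ?_
  rw [Finset.mem_range] at hi
  have h1 : b.choose (b + k - (k + i)) = b.choose i := Nat.choose_symm_of_eq_add (by omega)
  have h2 : τ ^ (b + k) = τ ^ (b + k - (k + i)) * τ ^ (k + i) := by
    rw [← pow_add]
    congr 1
    omega
  rw [h1, h2, mul_pow, pow_add t k i]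
  ring

theorem exists_tau {t : ℂ} (ht : 0 < t.im) : ∃ τ : ℂ, 0 < τ.im ∧ 0 < (τ * t).im := by
  obtain ⟨ε, hε0, hε⟩ : ∃ ε : ℝ, 0 < ε ∧ ε * (1 + |t.re|) = t.im := by
    refine ⟨t.im / (1 + |t.re|), ?_, ?_⟩
    · have := abs_nonneg t.re
      positivity
    · have : (1 + |t.re|) ≠ 0 := by positivity
      field_simp
  refine ⟨⟨1, ε⟩, hε0, ?_⟩
  rw [Complex.mul_im]
  change 0 < 1 * t.im + ε * t.re
  have h1 := neg_abs_le t.re
  nlinarith

/-- The polynomial of a three-run fence does not vanish in the upper half plane. -/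
theorem h_ne_zero {a b c : ℕ} (hb : 1 ≤ b) {t : ℂ} (ht : 0 < t.im) :
    ∑ p ∈ Finset.range (a + 1), (Nat.multichoose b p : ℂ) * t ^ p * AC b p a t * AC b p c t ≠ 0 := by
  rcases Nat.eq_or_lt_of_le hb with h1 | h2
  · subst h1
    have h3 := b1_ne_zero a (M := c + 1) (by omega) ht
    intro hcon
    apply h3
    rw [← hcon]
    have e1 : ∀ p a : ℕ, AC 1 p a t = (a.choose p : ℂ) + (a.choose (p + 1) : ℂ) * t := by
      intro p a
      unfold AC
      rw [Finset.sum_range_succ, Finset.sum_range_succ, Finset.sum_range_zero]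
      simp
    rw [Finset.sum_range_succ']
    have e2 : ∀ p ∈ Finset.range (a + 1), ((a + 1).choose (p + 1) : ℂ) * ((c + 1).choose (p + 1) : ℂ) *
        t ^ (p + 1) = (Nat.multichoose 1 p : ℂ) * t ^ p * AC 1 p a t * AC 1 p c t +
        ((a.choose (p + 1) : ℂ) * (c.choose (p + 1) : ℂ) * t ^ (p + 1) -
          (a.choose p : ℂ) * (c.choose p : ℂ) * t ^ p) * (1 - t) := by
      intro p _
      rw [e1, e1, Nat.multichoose_one, Nat.choose_succ_succ, Nat.choose_succ_succ]
      push_cast
      ring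
    rw [Finset.sum_congr rfl e2, Finset.sum_add_distrib, ← Finset.sum_mul,
      Finset.sum_range_sub (fun p => (a.choose p : ℂ) * (c.choose p : ℂ) * t ^ p)]
    simp
    ring
  · obtain ⟨τ, hτ, hτt⟩ := exists_tau ht
    have h3 := mid2 (a := a) (b := b) (c := c) (by omega)
      (W := List.replicate a τ ++ List.replicate b (τ * t))
      (V := List.replicate b τ ++ List.replicate c (τ * t)) (by simp) (by simp)
      (by
        intro w hw
        rw [List.mem_append, List.mem_replicate, List.mem_replicate] at hw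
        rcases hw with ⟨-, rfl⟩ | ⟨-, rfl⟩
        · exact hτ
        · exact hτt)
      (by
        intro w hw
        rw [List.mem_append, List.mem_replicate, List.mem_replicate] at hw
        rcases hw with ⟨-, rfl⟩ | ⟨-, rfl⟩
        · exact hτ
        · exact hτt)
    intro hcon
    apply h3
    have e1 : ∑ k ∈ Finset.range (a + 1), (Nat.multichoose b k : ℂ) *
        es (List.replicate a τ ++ List.replicate b (τ * t)) (a - k) *
        es (List.replicate b τ ++ List.replicate c (τ * t)) (b + k) =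
        τ ^ (a + b) * ∑ p ∈ Finset.range (a + 1),
          (Nat.multichoose b p : ℂ) * t ^ p * AC b p a t * AC b p c t := by
      rw [Finset.mul_sum]
      refine Finset.sum_congr rfl fun k hk => ?_
      rw [Finset.mem_range] at hk
      rw [es_W (by omega), es_V]
      have h2 : τ ^ (a + b) = τ ^ (a - k) * τ ^ (b + k) := by
        rw [← pow_add]
        congr 1
        omega
      rw [h2]
      ring
    rw [e1, hcon, mul_zero]

end Pool.Agent.Lib.ThreeRun
end

section

set_option autoImplicit false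

namespace Pool.Agent.Lib.ThreeRun

open Polynomial

theorem AA_eval (b p a : ℕ) (t : ℂ) :
    ((AA b p a).map (Int.castRingHom ℂ)).eval t = AC b p a t := by
  unfold AA AC
  rw [Polynomial.map_sum, eval_finsetSum]
  refine Finset.sum_congr rfl fun i _ => ?_
  rw [Polynomial.map_mul, map_C, Polynomial.map_pow, map_X, eval_mul, eval_C, eval_pow, eval_X]
  simp

theorem HH_eval (b a c : ℕ) (t : ℂ) :
    ((HH b a c).map (Int.castRingHom ℂ)).eval t =
      ∑ p ∈ Finset.range (a + 1), (Nat.multichoose b p : ℂ) * t ^ p * AC b p a t * AC b p c t := by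
  unfold HH HK
  rw [Polynomial.map_sum, eval_finsetSum]
  refine Finset.sum_congr rfl fun p _ => ?_
  rw [Polynomial.map_mul, Polynomial.map_mul, Polynomial.map_mul, map_C, Polynomial.map_pow, map_X,
    eval_mul, eval_mul, eval_mul, eval_C, eval_pow, eval_X, AA_eval, AA_eval]
  simp

theorem HH_real_rooted (b a c : ℕ) :
    ((HH b a c).map (Int.castRingHom ℝ)).roots.card = (HH b a c).natDegree := by
  rcases Nat.eq_zero_or_pos b with hb | hb
  · subst hb
    rw [HH_b_zero]
    simp
  · have h1 : HS (((HH b a c).map (Int.castRingHom ℝ)).map Complex.ofRealHom) := by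
      intro t ht
      rw [Polynomial.map_map, show Complex.ofRealHom.comp (Int.castRingHom ℝ) = Int.castRingHom ℂ from
        RingHom.ext_int _ _, HH_eval]
      exact h_ne_zero hb ht
    rw [roots_card_of_hs h1]
    exact natDegree_map_eq_of_injective (Int.castRingHom ℝ).injective_int _

/-- The counts and the polynomial, first step up. -/
theorem three_run_up (N : ℕ) (s : ℕ → Bool) (a b : ℕ)
    (hs : ∀ i, i < N → s i = if i < a then true else if i < a + b then false else true)
    (h : Polynomial ℤ)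
    (hh : PowerSeries.mk (fun m : ℕ =>
          ((Nat.card {f : Fin (N + 1) → Fin (m + 1) //
              ∀ i : Fin (N + 1), ∀ hi : i.val + 1 < N + 1,
                (s i.val = true → f i ≤ f ⟨i.val + 1, hi⟩) ∧
                (s i.val = false → f ⟨i.val + 1, hi⟩ ≤ f i)} : ℕ) : ℤ))
        * (1 - PowerSeries.X) ^ (N + 1 + 1) = (↑h : PowerSeries ℤ)) :
    (h.map (Int.castRingHom ℝ)).roots.card = h.natDegree := by
  obtain ⟨a', ha'⟩ : ∃ a', a' = min a N := ⟨_, rfl⟩
  obtain ⟨b', hb'⟩ : ∃ b', b' = min b (N - a') := ⟨_, rfl⟩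
  obtain ⟨c', hc'⟩ : ∃ c', c' = N - a' - b' := ⟨_, rfl⟩
  have hN : N = a' + b' + c' := by omega
  have h1 : ∀ i, i < a' → s i = true := by
    intro i hi
    rw [hs i (by omega), if_pos (by omega)]
  have h2 : ∀ i, a' ≤ i → i < a' + b' → s i = false := by
    intro i hi1 hi2
    rw [hs i (by omega), if_neg (by omega), if_pos (by omega)]
  have h3 : ∀ i, a' + b' ≤ i → i < a' + b' + c' → s i = true := by
    intro i hi1 hi2
    rw [hs i (by omega), if_neg (by omega), if_neg (by omega)]
  clear ha' hb' hc' hs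
  subst hN
  have h4 : (h : PowerSeries ℤ) = (HH b' a' c' : PowerSeries ℤ) := by
    rw [← Gf_eq, ← hh]
    unfold Gf
    congr 2
    funext m
    rw [card_up a' b' c' m s h1 h2 h3]
  have h5 : h = HH b' a' c' := Polynomial.coe_injective ℤ h4
  rw [h5]
  exact HH_real_rooted b' a' c'

/-- **Fences with at most three runs.** -/
theorem three_run_real_rooted (n : ℕ) (s : ℕ → Bool) (a b : ℕ) (e : Bool)
    (hs : ∀ i, i + 1 < n → s i = if i < a then e else if i < a + b then !e else e)
    (h : Polynomial ℤ)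
    (hh : PowerSeries.mk (fun m : ℕ =>
          ((Nat.card {f : Fin n → Fin (m + 1) //
              ∀ i : Fin n, ∀ hi : i.val + 1 < n,
                (s i.val = true → f i ≤ f ⟨i.val + 1, hi⟩) ∧
                (s i.val = false → f ⟨i.val + 1, hi⟩ ≤ f i)} : ℕ) : ℤ))
        * (1 - PowerSeries.X) ^ (n + 1) = (↑h : PowerSeries ℤ)) :
    (h.map (Int.castRingHom ℝ)).roots.card = h.natDegree := by
  cases n with
  | zero =>
    have h1 : (h : PowerSeries ℤ) = ((1 : Polynomial ℤ) : PowerSeries ℤ) := by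
      rw [← hh, Polynomial.coe_one, zero_add, pow_one]
      have h2 : (PowerSeries.mk (fun m : ℕ =>
          ((Nat.card {f : Fin 0 → Fin (m + 1) //
              ∀ i : Fin 0, ∀ hi : i.val + 1 < 0,
                (s i.val = true → f i ≤ f ⟨i.val + 1, hi⟩) ∧
                (s i.val = false → f ⟨i.val + 1, hi⟩ ≤ f i)} : ℕ) : ℤ))) =
          PowerSeries.mk (fun n : ℕ => ((Nat.choose (0 + n) 0 : ℕ) : ℤ)) := by
        congr 1
        funext m
        rw [Nat.choose_zero_right]
        congr 1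
        have : Unique {f : Fin 0 → Fin (m + 1) //
              ∀ i : Fin 0, ∀ hi : i.val + 1 < 0,
                (s i.val = true → f i ≤ f ⟨i.val + 1, hi⟩) ∧
                (s i.val = false → f ⟨i.val + 1, hi⟩ ≤ f i)} :=
          { default := ⟨fun l => l.elim0, fun i => i.elim0⟩
            uniq := fun g => Subtype.ext (funext fun l => l.elim0) }
        exact Nat.card_unique
      rw [h2]
      have h3 := PowerSeries.mk_add_choose_mul_one_sub_pow_eq_one ℤ 0
      simpa using h3
    have h5 : h = 1 := Polynomial.coe_injective ℤ h1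
    rw [h5]
    simp
  | succ N =>
    cases e with
    | true =>
      exact three_run_up N s a b (fun i hi => hs i (by omega)) h hh
    | false =>
      apply three_run_up N (fun i => !(s i)) a b _ h
      · rw [← hh]
        congr 2
        funext m
        congr 1
        exact (card_compl (N + 1) m s).symm
      · intro i hi
        have h1 := hs i (by omega)
        simp only [h1]
        split_ifs <;> rfl

end Pool.Agent.Lib.ThreeRun
end
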