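import Pool.Agent.Lib.MP_7d55f0_co.ZDefs

section

set_option autoImplicit false

namespace Pool.Agent.Lib.Zigzag

open Real

theorem choose_half_eq_cb (n : ℕ) : Ring.choose ((1 / 2 : ℝ) + n - 1) n = cb n := by
  have h1 : ((n.factorial : ℕ) : ℝ) * Ring.choose ((1 / 2 : ℝ) + n - 1) n
      = (ascPochhammer ℝ n).eval (1 / 2 : ℝ) := by
    have h := Ring.factorial_nsmul_multichoose_eq_ascPochhammer ((1 / 2 : ℝ) + n - 1 - n + 1) n
    have h2 : Ring.choose ((1 / 2 : ℝ) + n - 1) n
        = Ring.multichoose ((1 / 2 : ℝ) + n - 1 - n + 1) n := rfl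
    rw [h2]
    rw [nsmul_eq_mul, Polynomial.ascPochhammer_smeval_eq_eval] at h
    rw [h]
    congr 1
    ring
  have h3 : ∀ m : ℕ, (ascPochhammer ℝ m).eval (1 / 2 : ℝ) = ((m.factorial : ℕ) : ℝ) * cb m := by
    intro m
    induction m with
    | zero => simp [cb]
    | succ m ih =>
      rw [ascPochhammer_succ_eval, ih]
      have h4 := Nat.succ_mul_centralBinom_succ m
      have h5 : ((m : ℝ) + 1) * (Nat.centralBinom (m + 1) : ℝ)
          = 2 * (2 * (m : ℝ) + 1) * (Nat.centralBinom m : ℝ) := by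
        exact_mod_cast h4
      simp only [cb, Nat.factorial_succ, pow_succ]
      push_cast
      have h6 : (4 : ℝ) ^ m ≠ 0 := by positivity
      field_simp
      linear_combination (-2 : ℝ) * h5
  have h4 : ((n.factorial : ℕ) : ℝ) ≠ 0 := by exact_mod_cast n.factorial_ne_zero
  have h5 := h1.trans (h3 n)
  exact mul_left_cancel₀ h4 h5

/-- Binomial series of exponent -1/2. Proof: Mathlib `Mathlib/Analysis/Analytic/Binomial.lean`
(`one_div_one_sub_rpow_hasFPowerSeriesOnBall_zero` with `a = 1/2` at `x^2`), or the differential equation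
`(1-z) B' = B/2` for `B(z) = ∑ centralBinom i (z/4)^i` (recursion `Nat.succ_mul_centralBinom_succ`). -/
theorem hasSum_cb {x : ℝ} (hx : |x| < 1) :
    HasSum (fun i : ℕ => cb i * x ^ (2 * i)) (1 / √(1 - x ^ 2)) := by
  have hb := Real.one_div_one_sub_rpow_hasFPowerSeriesOnBall_zero (1 / 2)
  have hx2 : x ^ 2 < 1 := by
    rw [← sq_abs]
    have := abs_nonneg x
    nlinarith
  have hy : x ^ 2 ∈ Metric.eball (0 : ℝ) 1 := by
    rw [← ENNReal.ofReal_one, Metric.eball_ofReal]
    simp only [Metric.mem_ball, dist_zero_right, Real.norm_eq_abs]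
    rw [abs_of_nonneg (sq_nonneg x)]
    exact hx2
  have hs := hb.hasSum hy
  simp only [zero_add] at hs
  rw [← Real.sqrt_eq_rpow] at hs
  have hf : (fun i : ℕ => cb i * x ^ (2 * i)) = fun n : ℕ =>
      ((FormalMultilinearSeries.ofScalars ℝ fun n : ℕ => Ring.choose ((1 / 2 : ℝ) + n - 1) n) n)
        (fun _ : Fin n => x ^ 2) := by
    funext n
    rw [FormalMultilinearSeries.ofScalars_apply_eq, choose_half_eq_cb, smul_eq_mul, pow_mul]
  rw [hf]
  exact hs

/-- Taylor series of arcsin. Proof: integrate `hasSum_cb` termwise (both sides have the same derivative on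
(-1,1), `Real.hasDerivAt_arcsin`, and vanish at 0; termwise differentiation of a power series, e.g.
`hasDerivAt_tsum_of_isPreconnected` or `HasFPowerSeriesOnBall`). -/
theorem hasSum_al {x : ℝ} (hx : |x| < 1) :
    HasSum (fun i : ℕ => al i * x ^ (2 * i + 1)) (arcsin x) := by
  obtain ⟨r, hxr, hr1⟩ := exists_between hx
  have hr0 : 0 < r := lt_of_le_of_lt (abs_nonneg x) hxr
  have hrabs : |r| < 1 := by rwa [abs_of_pos hr0]
  have hcb0 : ∀ i : ℕ, 0 ≤ cb i := fun i => by unfold cb; positivity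
  have hu : Summable (fun i : ℕ => cb i * r ^ (2 * i)) := (hasSum_cb hrabs).summable
  have hg : ∀ n : ℕ, ∀ y ∈ Set.Ioo (-r) r,
      HasDerivAt (fun z : ℝ => al n * z ^ (2 * n + 1)) (cb n * y ^ (2 * n)) y := by
    intro n y _
    have h := (hasDerivAt_pow (2 * n + 1) y).const_mul (al n)
    have he : al n * (((2 * n + 1 : ℕ) : ℝ) * y ^ (2 * n + 1 - 1)) = cb n * y ^ (2 * n) := by
      simp only [al, cb, Nat.add_sub_cancel]
      push_cast
      have h1 : (2 * (n : ℝ) + 1) ≠ 0 := by positivity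
      have h2 : (4 : ℝ) ^ n ≠ 0 := by positivity
      field_simp
    rw [he] at h
    exact h
  have hg' : ∀ n : ℕ, ∀ y ∈ Set.Ioo (-r) r, ‖cb n * y ^ (2 * n)‖ ≤ cb n * r ^ (2 * n) := by
    intro n y hy
    rw [Real.norm_eq_abs, abs_mul, abs_of_nonneg (hcb0 n), abs_pow]
    apply mul_le_mul_of_nonneg_left _ (hcb0 n)
    apply pow_le_pow_left₀ (abs_nonneg y)
    rw [abs_le]
    exact ⟨hy.1.le, hy.2.le⟩
  have h0mem : (0 : ℝ) ∈ Set.Ioo (-r) r := ⟨by linarith, hr0⟩
  have hg0 : Summable (fun n : ℕ => al n * (0 : ℝ) ^ (2 * n + 1)) := by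
    have : (fun n : ℕ => al n * (0 : ℝ) ^ (2 * n + 1)) = fun _ => 0 := by
      funext n; simp
    rw [this]
    exact summable_zero
  have hpc : IsPreconnected (Set.Ioo (-r) r) := isPreconnected_Ioo
  have hsum : ∀ y ∈ Set.Ioo (-r) r, Summable (fun n : ℕ => al n * y ^ (2 * n + 1)) := by
    intro y hy
    exact summable_of_summable_hasDerivAt_of_isPreconnected hu isOpen_Ioo hpc hg hg' h0mem hg0 hy
  have hder : ∀ y ∈ Set.Ioo (-r) r,
      HasDerivAt (fun z : ℝ => ∑' n : ℕ, al n * z ^ (2 * n + 1))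
        (∑' n : ℕ, cb n * y ^ (2 * n)) y := by
    intro y hy
    exact hasDerivAt_tsum_of_isPreconnected hu isOpen_Ioo hpc hg hg' h0mem hg0 hy
  have hdiff : ∀ y ∈ Set.Ioo (-r) r,
      HasDerivAt (fun z : ℝ => (∑' n : ℕ, al n * z ^ (2 * n + 1)) - arcsin z) 0 y := by
    intro y hy
    have hy1 : |y| < 1 := by
      rw [abs_lt]; exact ⟨by linarith [hy.1], by linarith [hy.2]⟩
    have h1 := hder y hy
    rw [(hasSum_cb hy1).tsum_eq] at h1
    have h2 := Real.hasDerivAt_arcsin (x := y) (by linarith [hy.1]) (by linarith [hy.2])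
    have h3 := h1.sub h2
    rw [sub_self] at h3
    exact h3
  have hxmem : x ∈ Set.Ioo (-r) r := by
    rw [Set.mem_Ioo, ← abs_lt]; exact hxr
  have hconst : (∑' n : ℕ, al n * x ^ (2 * n + 1)) - arcsin x
      = (∑' n : ℕ, al n * (0 : ℝ) ^ (2 * n + 1)) - arcsin 0 := by
    have hd : DifferentiableOn ℝ (fun z : ℝ => (∑' n : ℕ, al n * z ^ (2 * n + 1)) - arcsin z)
        (Set.Ioo (-r) r) := fun y hy => (hdiff y hy).differentiableAt.differentiableWithinAt
    exact isOpen_Ioo.is_const_of_deriv_eq_zero hpc hd (fun y hy => (hdiff y hy).deriv)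
      hxmem h0mem
  have hz : (∑' n : ℕ, al n * (0 : ℝ) ^ (2 * n + 1)) = 0 := by
    simp
  rw [hz, arcsin_zero, sub_self, sub_eq_zero] at hconst
  rw [← hconst]
  exact (hsum x hxmem).hasSum

end Pool.Agent.Lib.Zigzag
end

section

set_option autoImplicit false

namespace Pool.Agent.Lib.Zigzag

open Real

/-- Proof: induction on `n` from `W`. -/
theorem Om_zero_right {n : ℕ} (hn : 1 ≤ n) : Om n 0 = 0 := by
  obtain ⟨m, rfl⟩ : ∃ m, n = m + 1 := ⟨n - 1, by omega⟩
  simp [Om, W]

/-- Proof: `W 1 n 0 = 1` by induction. -/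
theorem Om_one_right (n : ℕ) : Om n 1 = 1 := by
  unfold Om
  induction n with
  | zero => simp [W]
  | succ n ih => simp [W, ih]

theorem W_le_pow (M : ℕ) : ∀ n i : ℕ, W M n i ≤ M ^ n := by
  intro n
  induction n with
  | zero => intro i; simp [W]
  | succ n ih =>
    intro i
    rw [W]
    calc ∑ j ∈ Finset.range (M - i), W M n j ≤ ∑ _j ∈ Finset.range (M - i), M ^ n :=
          Finset.sum_le_sum (fun j _ => ih j)
      _ = (M - i) * M ^ n := by rw [Finset.sum_const, Finset.card_range, smul_eq_mul]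
      _ ≤ M * M ^ n := Nat.mul_le_mul_right _ (Nat.sub_le _ _)
      _ = M ^ (n + 1) := by rw [pow_succ]; ring

/-- Proof: `W M n i ≤ M ^ n`. -/
theorem Om_le_pow (n M : ℕ) : Om n M ≤ M ^ n := W_le_pow M n 0

theorem W_mono (M : ℕ) : ∀ n i : ℕ, W M n i ≤ W (M + 1) n i := by
  intro n
  induction n with
  | zero => intro i; simp [W]
  | succ n ih =>
    intro i
    rw [W, W]
    calc ∑ j ∈ Finset.range (M - i), W M n j ≤ ∑ j ∈ Finset.range (M - i), W (M + 1) n j :=
          Finset.sum_le_sum (fun j _ => ih j)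
      _ ≤ ∑ j ∈ Finset.range (M + 1 - i), W (M + 1) n j := by
          apply Finset.sum_le_sum_of_subset
          intro j hj
          rw [Finset.mem_range] at hj ⊢
          omega

/-- Proof: `W` is monotone in `M` and antitone in `i`: prove `W M n i ≤ W (M+1) n i` by induction. -/
theorem Om_mono (n M : ℕ) : Om n M ≤ Om n (M + 1) := W_mono M n 0

/-- Proof: `Om_one_right` and `Om_mono`. -/
theorem Om_pos (n : ℕ) {M : ℕ} (hM : 1 ≤ M) : 0 < Om n M := by
  induction M, hM using Nat.le_induction with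
  | base => rw [Om_one_right]; norm_num
  | succ M _ ih => exact lt_of_lt_of_le ih (Om_mono n M)

end Pool.Agent.Lib.Zigzag
end

section

set_option autoImplicit false

namespace Pool.Agent.Lib.Zigzag

open Real

/-- Cauchy product of two absolutely convergent real power series at a point. -/
theorem zab_mul (A B : PowerSeries ℝ) (x a b : ℝ)
    (hA : HasSum (fun n : ℕ => PowerSeries.coeff n A * x ^ n) a)
    (hA' : Summable (fun n : ℕ => |PowerSeries.coeff n A| * |x| ^ n))
    (hB : HasSum (fun n : ℕ => PowerSeries.coeff n B * x ^ n) b)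
    (hB' : Summable (fun n : ℕ => |PowerSeries.coeff n B| * |x| ^ n)) :
    HasSum (fun n : ℕ => PowerSeries.coeff n (A * B) * x ^ n) (a * b) ∧
    Summable (fun n : ℕ => |PowerSeries.coeff n (A * B)| * |x| ^ n) ∧
    ∑' n : ℕ, |PowerSeries.coeff n (A * B)| * |x| ^ n ≤
      (∑' n : ℕ, |PowerSeries.coeff n A| * |x| ^ n) *
        (∑' n : ℕ, |PowerSeries.coeff n B| * |x| ^ n) := by
  have hnA : Summable (fun n : ℕ => ‖PowerSeries.coeff n A * x ^ n‖) := by
    refine hA'.congr fun n => ?_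
    rw [norm_mul, norm_pow, Real.norm_eq_abs, Real.norm_eq_abs]
  have hnB : Summable (fun n : ℕ => ‖PowerSeries.coeff n B * x ^ n‖) := by
    refine hB'.congr fun n => ?_
    rw [norm_mul, norm_pow, Real.norm_eq_abs, Real.norm_eq_abs]
  have key : ∀ n : ℕ, ∑ kl ∈ Finset.HasAntidiagonal.antidiagonal n,
      (PowerSeries.coeff kl.1 A * x ^ kl.1) * (PowerSeries.coeff kl.2 B * x ^ kl.2) =
      PowerSeries.coeff n (A * B) * x ^ n := by
    intro n
    rw [PowerSeries.coeff_mul, Finset.sum_mul]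
    refine Finset.sum_congr rfl fun p hp => ?_
    rw [Finset.HasAntidiagonal.mem_antidiagonal] at hp
    rw [← hp, pow_add]
    ring
  have h1 := summable_norm_sum_mul_antidiagonal_of_summable_norm hnA hnB
  have h2 := tsum_mul_tsum_eq_tsum_sum_antidiagonal_of_summable_norm hnA hnB
  simp only [key] at h1 h2
  have h3 : Summable (fun n : ℕ => |PowerSeries.coeff n (A * B)| * |x| ^ n) := by
    refine h1.congr fun n => ?_
    rw [norm_mul, norm_pow, Real.norm_eq_abs, Real.norm_eq_abs]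
  refine ⟨?_, h3, ?_⟩
  · rw [hA.tsum_eq, hB.tsum_eq] at h2
    rw [h2]
    exact h1.of_norm.hasSum
  · have hnA2 : Summable (fun n : ℕ => ‖|PowerSeries.coeff n A| * |x| ^ n‖) := hA'.norm
    have hnB2 : Summable (fun n : ℕ => ‖|PowerSeries.coeff n B| * |x| ^ n‖) := hB'.norm
    have h4 := summable_norm_sum_mul_antidiagonal_of_summable_norm hnA2 hnB2
    have h5 := tsum_mul_tsum_eq_tsum_sum_antidiagonal_of_summable_norm hnA2 hnB2
    rw [h5]
    refine h3.tsum_le_tsum (fun n => ?_) h4.of_norm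
    rw [PowerSeries.coeff_mul]
    calc |∑ p ∈ Finset.HasAntidiagonal.antidiagonal n, PowerSeries.coeff p.1 A * PowerSeries.coeff p.2 B| * |x| ^ n
        ≤ (∑ p ∈ Finset.HasAntidiagonal.antidiagonal n, |PowerSeries.coeff p.1 A * PowerSeries.coeff p.2 B|)
            * |x| ^ n :=
          mul_le_mul_of_nonneg_right (Finset.abs_sum_le_sum_abs _ _) (by positivity)
      _ = ∑ p ∈ Finset.HasAntidiagonal.antidiagonal n, (|PowerSeries.coeff p.1 A| * |x| ^ p.1) *
            (|PowerSeries.coeff p.2 B| * |x| ^ p.2) := by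
          rw [Finset.sum_mul]
          refine Finset.sum_congr rfl fun p hp => ?_
          rw [Finset.HasAntidiagonal.mem_antidiagonal] at hp
          rw [← hp, pow_add, abs_mul]
          ring

theorem zab_al_nonneg (i : ℕ) : 0 ≤ al i := by
  unfold al; positivity

theorem zab_aS_nonneg (n : ℕ) : 0 ≤ PowerSeries.coeff n aS := by
  unfold aS
  rw [PowerSeries.coeff_mk]
  split_ifs
  · exact zab_al_nonneg _
  · exact le_rfl

theorem gc_nonneg (n k : ℕ) : 0 ≤ gc n k := by
  unfold gc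
  induction k generalizing n with
  | zero =>
    rw [pow_zero, PowerSeries.coeff_one]
    split_ifs <;> norm_num
  | succ k ih =>
    rw [pow_succ, PowerSeries.coeff_mul]
    exact Finset.sum_nonneg fun p _ => mul_nonneg (ih _) (zab_aS_nonneg _)

theorem zab_hasSum_aS {x : ℝ} (hx : |x| < 1) :
    HasSum (fun n : ℕ => PowerSeries.coeff n aS * x ^ n) (arcsin x) := by
  have hinj : Function.Injective (fun i : ℕ => 2 * i + 1) := by
    intro a b h
    simp only at h
    omega
  refine (hinj.hasSum_iff ?_).mp ?_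
  · intro n hn
    unfold aS
    rw [PowerSeries.coeff_mk, if_neg, zero_mul]
    rintro ⟨m, hm⟩
    exact hn ⟨m, hm.symm⟩
  · have h := hasSum_al hx
    convert h using 1
    funext i
    simp only [Function.comp]
    unfold aS
    rw [PowerSeries.coeff_mk, if_pos ⟨i, rfl⟩]
    congr 2
    omega

theorem zab_summable_aS {x : ℝ} (hx : |x| < 1) :
    Summable (fun n : ℕ => |PowerSeries.coeff n aS| * |x| ^ n) := by
  have h := (zab_hasSum_aS (x := |x|) (by rwa [abs_abs])).summable
  refine h.congr fun n => ?_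
  rw [abs_of_nonneg (zab_aS_nonneg n)]

theorem zab_gc (k : ℕ) {x : ℝ} (hx : |x| < 1) :
    HasSum (fun n : ℕ => PowerSeries.coeff n (aS ^ k) * x ^ n) (arcsin x ^ k) ∧
    Summable (fun n : ℕ => |PowerSeries.coeff n (aS ^ k)| * |x| ^ n) := by
  induction k with
  | zero =>
    constructor
    · rw [pow_zero, pow_zero]
      convert hasSum_ite_eq (0 : ℕ) (1 : ℝ) using 1
      funext n
      rw [PowerSeries.coeff_one]
      split_ifs with h
      · rw [h]; norm_num
      · norm_num
    · refine summable_of_ne_finset_zero (s := {0}) fun n hn => ?_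
      rw [Finset.mem_singleton] at hn
      rw [pow_zero, PowerSeries.coeff_one, if_neg hn]
      norm_num
  | succ k ih =>
    rw [pow_succ, pow_succ]
    have h := zab_mul (aS ^ k) aS x (arcsin x ^ k) (arcsin x) ih.1 ih.2 (zab_hasSum_aS hx)
      (zab_summable_aS hx)
    exact ⟨h.1, h.2.1⟩

/-- Proof: induction on `k`, Cauchy product of absolutely summable series
(`tsum_mul_tsum_eq_tsum_sum_antidiagonal_of_summable_norm`, `PowerSeries.coeff_mul`), `hasSum_al`. -/
theorem hasSum_gc (k : ℕ) {x : ℝ} (hx : |x| < 1) :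
    HasSum (fun n : ℕ => gc n k * x ^ n) (arcsin x ^ k) :=
  (zab_gc k hx).1

theorem zab_cb_pos (i : ℕ) : 0 < cb i := by
  unfold cb
  have := Nat.centralBinom_pos i
  positivity

theorem zab_cb_succ (i : ℕ) : cb (i + 1) ≤ cb i := by
  unfold cb
  have h := Nat.succ_mul_centralBinom_succ i
  have h' : ((i : ℝ) + 1) * (Nat.centralBinom (i + 1) : ℝ) =
      2 * (2 * (i : ℝ) + 1) * (Nat.centralBinom i : ℝ) := by exact_mod_cast h
  have hpos : (0 : ℝ) < (i : ℝ) + 1 := by positivity
  have hc : (0 : ℝ) ≤ (Nat.centralBinom i : ℝ) := by positivity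
  rw [pow_succ, div_le_div_iff₀ (by positivity) (by positivity)]
  have h4 : (0 : ℝ) < 4 ^ i := by positivity
  have h5 : (Nat.centralBinom (i + 1) : ℝ) ≤ 4 * (Nat.centralBinom i : ℝ) := by
    nlinarith
  nlinarith

theorem zab_hasSum_cS {x : ℝ} (hx : |x| < 1) :
    HasSum (fun n : ℕ => PowerSeries.coeff n cS * x ^ n) (1 / √(1 - x ^ 2)) := by
  have hinj : Function.Injective (fun i : ℕ => 2 * i) := by
    intro a b h
    simp only at h
    omega
  refine (hinj.hasSum_iff ?_).mp ?_
  · intro n hn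
    unfold cS
    rw [PowerSeries.coeff_mk, if_neg, zero_mul]
    intro he
    obtain ⟨m, hm⟩ := he
    exact hn ⟨m, by simp only; omega⟩
  · have h := hasSum_cb hx
    convert h using 1
    funext i
    simp only [Function.comp]
    unfold cS
    rw [PowerSeries.coeff_mk, if_pos ⟨i, by ring⟩]
    congr 2
    omega

theorem zab_cS_nonneg (n : ℕ) : 0 ≤ PowerSeries.coeff n cS := by
  unfold cS
  rw [PowerSeries.coeff_mk]
  split_ifs
  · exact (zab_cb_pos _).le
  · exact le_rfl

theorem zab_summable_cS {x : ℝ} (hx : |x| < 1) :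
    Summable (fun n : ℕ => |PowerSeries.coeff n cS| * |x| ^ n) := by
  have h := (zab_hasSum_cS (x := |x|) (by rwa [abs_abs])).summable
  refine h.congr fun n => ?_
  rw [abs_of_nonneg (zab_cS_nonneg n)]

theorem zab_coeff_q (n : ℕ) : PowerSeries.coeff n (1 - PowerSeries.X ^ 2 : PowerSeries ℝ) =
    (if n = 0 then 1 else 0) - (if n = 2 then 1 else 0) := by
  rw [map_sub, PowerSeries.coeff_one, PowerSeries.coeff_X_pow]

theorem zab_q (x : ℝ) :
    HasSum (fun n : ℕ => PowerSeries.coeff n (1 - PowerSeries.X ^ 2 : PowerSeries ℝ) * x ^ n)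
      (1 - x ^ 2) ∧
    Summable (fun n : ℕ => |PowerSeries.coeff n (1 - PowerSeries.X ^ 2 : PowerSeries ℝ)| *
      |x| ^ n) := by
  constructor
  · have h := (hasSum_ite_eq (0 : ℕ) (1 : ℝ)).sub (hasSum_ite_eq (2 : ℕ) (x ^ 2))
    have hfun : (fun n : ℕ => PowerSeries.coeff n (1 - PowerSeries.X ^ 2 : PowerSeries ℝ) * x ^ n)
        = fun n : ℕ => (if n = 0 then (1 : ℝ) else 0) - (if n = 2 then x ^ 2 else 0) := by
      funext n
      rw [zab_coeff_q, sub_mul]
      congr 1
      · split_ifs with h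
        · rw [h]; norm_num
        · norm_num
      · split_ifs with h
        · rw [h]; norm_num
        · norm_num
    rw [hfun]
    exact h
  · refine summable_of_ne_finset_zero (s := {0, 2}) fun n hn => ?_
    simp only [Finset.mem_insert, Finset.mem_singleton, not_or] at hn
    rw [zab_coeff_q, if_neg hn.1, if_neg hn.2]
    norm_num

theorem zab_bS_coeff_zero : PowerSeries.coeff 0 bS = 1 := by
  unfold bS
  rw [sub_mul, one_mul, map_sub, PowerSeries.coeff_X_pow_mul', if_neg (by norm_num)]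
  unfold cS
  rw [PowerSeries.coeff_mk]
  simp [cb]

theorem zab_bS_coeff_nonpos (n : ℕ) (hn : n ≠ 0) : PowerSeries.coeff n bS ≤ 0 := by
  unfold bS
  rw [sub_mul, one_mul, map_sub, PowerSeries.coeff_X_pow_mul']
  split_ifs with h
  · obtain ⟨m, rfl⟩ : ∃ m, n = m + 2 := ⟨n - 2, by omega⟩
    rw [Nat.add_sub_cancel]
    unfold cS
    rw [PowerSeries.coeff_mk, PowerSeries.coeff_mk]
    by_cases he : Even m
    · have he2 : Even (m + 2) := by
        obtain ⟨r, hr⟩ := he
        exact ⟨r + 1, by omega⟩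
      rw [if_pos he, if_pos he2]
      have : (m + 2) / 2 = m / 2 + 1 := by omega
      rw [this]
      linarith [zab_cb_succ (m / 2)]
    · have he2 : ¬ Even (m + 2) := by
        rintro ⟨r, hr⟩
        exact he ⟨r - 1, by omega⟩
      rw [if_neg he, if_neg he2]
      norm_num
  · have : n = 1 := by omega
    subst this
    unfold cS
    rw [PowerSeries.coeff_mk, if_neg (by decide)]
    norm_num

/-- Proof: `bS = (1 - X^2) cS`, coefficient 1 at 0 and `cb i - cb (i-1) ≤ 0` at `2i`, `i ≥ 1`. So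
`∑ |coeff| |x|^n = 2 - √(1-x²) ≤ 2`. -/
theorem hasSum_bS {x : ℝ} (hx : |x| < 1) :
    HasSum (fun n : ℕ => PowerSeries.coeff n bS * x ^ n) (√(1 - x ^ 2)) ∧
    Summable (fun n : ℕ => |PowerSeries.coeff n bS| * |x| ^ n) ∧
    ∑' n : ℕ, |PowerSeries.coeff n bS| * |x| ^ n ≤ 2 := by
  have main : ∀ y : ℝ, |y| < 1 →
      HasSum (fun n : ℕ => PowerSeries.coeff n bS * y ^ n) (√(1 - y ^ 2)) ∧
      Summable (fun n : ℕ => |PowerSeries.coeff n bS| * |y| ^ n) := by
    intro y hy
    have h := zab_mul (1 - PowerSeries.X ^ 2) cS y (1 - y ^ 2) (1 / √(1 - y ^ 2)) (zab_q y).1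
      (zab_q y).2 (zab_hasSum_cS hy) (zab_summable_cS hy)
    refine ⟨?_, h.2.1⟩
    have h1 := h.1
    have hpos : 0 < 1 - y ^ 2 := by
      have := (sq_lt_one_iff_abs_lt_one y).mpr hy
      linarith
    have h2 : (1 - y ^ 2) * (1 / √(1 - y ^ 2)) = √(1 - y ^ 2) := by
      have hs : 0 < √(1 - y ^ 2) := Real.sqrt_pos.mpr hpos
      field_simp
      exact (Real.sq_sqrt hpos.le).symm
    rw [h2] at h1
    exact h1
  refine ⟨(main x hx).1, (main x hx).2, ?_⟩
  have h1 := (main |x| (by rwa [abs_abs])).1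
  have h2 : HasSum (fun n : ℕ => |PowerSeries.coeff n bS| * |x| ^ n) (2 - √(1 - |x| ^ 2)) := by
    have h3 := (hasSum_ite_eq (0 : ℕ) (2 : ℝ)).sub h1
    have hfun : (fun n : ℕ => |PowerSeries.coeff n bS| * |x| ^ n) =
        fun n : ℕ => (if n = 0 then (2 : ℝ) else 0) - PowerSeries.coeff n bS * |x| ^ n := by
      funext n
      by_cases hn : n = 0
      · subst hn
        rw [if_pos rfl, zab_bS_coeff_zero]
        norm_num
      · rw [if_neg hn, abs_of_nonpos (zab_bS_coeff_nonpos n hn)]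
        ring
    rw [hfun]
    exact h3
  rw [h2.tsum_eq]
  linarith [Real.sqrt_nonneg (1 - |x| ^ 2)]

/-- Proof: Cauchy product of `hasSum_gc` and `hasSum_bS`. -/
theorem hasSum_ac (k : ℕ) {x : ℝ} (hx : |x| < 1) :
    HasSum (fun n : ℕ => ac n k * x ^ n) (arcsin x ^ k * √(1 - x ^ 2)) :=
  (zab_mul (aS ^ k) bS x _ _ (zab_gc k hx).1 (zab_gc k hx).2 (hasSum_bS hx).1
    (hasSum_bS hx).2.1).1

/-- Proof: `|ac n k| ≤ ∑ gc i k |coeff j bS|` over the antidiagonal; the tsum is at most the product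
`arcsin |x| ^ k * 2`. -/
theorem summable_abs_ac (k : ℕ) {x : ℝ} (hx : |x| < 1) :
    Summable (fun n : ℕ => |ac n k| * |x| ^ n) ∧
    ∑' n : ℕ, |ac n k| * |x| ^ n ≤ 2 * arcsin |x| ^ k := by
  have h := zab_mul (aS ^ k) bS x _ _ (zab_gc k hx).1 (zab_gc k hx).2 (hasSum_bS hx).1
    (hasSum_bS hx).2.1
  refine ⟨h.2.1, h.2.2.trans ?_⟩
  have h1 := (zab_gc k (x := |x|) (by rwa [abs_abs])).1
  have h2 : ∑' n : ℕ, |PowerSeries.coeff n (aS ^ k)| * |x| ^ n = arcsin |x| ^ k := by
    rw [← h1.tsum_eq]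
    refine tsum_congr fun n => ?_
    have : 0 ≤ PowerSeries.coeff n (aS ^ k) := gc_nonneg n k
    rw [abs_of_nonneg this]
  rw [h2, mul_comm]
  refine mul_le_mul_of_nonneg_right (hasSum_bS hx).2.2 ?_
  exact pow_nonneg (Real.arcsin_nonneg.mpr (abs_nonneg x)) k

end Pool.Agent.Lib.Zigzag
end

section

set_option autoImplicit false

namespace Pool.Agent.Lib.Zigzag

/-- parity of a power series -/
def zcPar (e : ℕ) (f : PowerSeries ℝ) : Prop :=
  ∀ n : ℕ, (n + e) % 2 = 1 → PowerSeries.coeff n f = 0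

theorem zcPar_mul {a b : ℕ} {f g : PowerSeries ℝ} (hf : zcPar a f) (hg : zcPar b g) :
    zcPar (a + b) (f * g) := by
  intro n hn
  rw [PowerSeries.coeff_mul]
  apply Finset.sum_eq_zero
  rintro ⟨i, j⟩ hij
  rw [Finset.HasAntidiagonal.mem_antidiagonal] at hij
  simp only at hij ⊢
  rcases Nat.mod_two_eq_zero_or_one (i + a) with h1 | h1
  · rw [hg j (by omega), mul_zero]
  · rw [hf i h1, zero_mul]

theorem zcPar_aS : zcPar 1 aS := by
  intro n hn
  unfold aS
  rw [PowerSeries.coeff_mk, if_neg]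
  rw [Nat.odd_iff]
  omega

theorem zcPar_one : zcPar 0 (1 : PowerSeries ℝ) := by
  intro n hn
  rw [PowerSeries.coeff_one, if_neg]
  omega

theorem zcPar_pow (k : ℕ) : zcPar k (aS ^ k) := by
  induction k with
  | zero => simpa using zcPar_one
  | succ k ih =>
    rw [pow_succ]
    exact zcPar_mul ih zcPar_aS

theorem zcPar_bS : zcPar 0 bS := by
  have h1 : zcPar 0 cS := by
    intro n hn
    unfold cS
    rw [PowerSeries.coeff_mk, if_neg]
    rw [Nat.even_iff]
    omega
  have h2 : zcPar 0 (1 - PowerSeries.X ^ 2 : PowerSeries ℝ) := by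
    intro n hn
    rw [map_sub, PowerSeries.coeff_one, PowerSeries.coeff_X_pow, if_neg (by omega),
      if_neg (by omega), sub_zero]
  exact zcPar_mul h2 h1

theorem zc_al_zero : al 0 = 1 := by
  unfold al
  simp

theorem zc_cb_zero : cb 0 = 1 := by
  unfold cb
  simp

/-- `aS / X` -/
noncomputable def zcg : PowerSeries ℝ := PowerSeries.mk fun p => PowerSeries.coeff (p + 1) aS

theorem zc_aS_eq : aS = PowerSeries.X * zcg := by
  have h1 := PowerSeries.eq_X_mul_shift_add_const aS
  have h2 : PowerSeries.constantCoeff aS = 0 := by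
    rw [← PowerSeries.coeff_zero_eq_constantCoeff_apply]
    exact zcPar_aS 0 rfl
  rw [h2, map_zero, add_zero] at h1
  exact h1

theorem zc_g_zero : PowerSeries.constantCoeff zcg = 1 := by
  rw [← PowerSeries.coeff_zero_eq_constantCoeff_apply]
  unfold zcg aS
  rw [PowerSeries.coeff_mk, PowerSeries.coeff_mk, if_pos (by decide)]
  exact zc_al_zero

theorem zc_b_zero : PowerSeries.constantCoeff bS = 1 := by
  unfold bS
  rw [map_mul, map_sub, map_one, map_pow, PowerSeries.constantCoeff_X]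
  have h1 : PowerSeries.constantCoeff cS = 1 := by
    rw [← PowerSeries.coeff_zero_eq_constantCoeff_apply]
    unfold cS
    rw [PowerSeries.coeff_mk, if_pos (by decide)]
    exact zc_cb_zero
  rw [h1]
  norm_num

/-- Proof: coefficients of `aS` vanish at 0 and even indices, coefficient of X is 1. Write
`aS = X * (PowerSeries in X^2)`; or use induction on `k` with `PowerSeries.coeff_mul`. -/
theorem gc_eq_zero {n k : ℕ} (h : n < k ∨ (n + k) % 2 = 1) : gc n k = 0 := by
  unfold gc
  rcases h with h | h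
  · rw [zc_aS_eq, mul_pow, PowerSeries.coeff_X_pow_mul', if_neg (by omega)]
  · exact zcPar_pow k n h

theorem gc_self (k : ℕ) : gc k k = 1 := by
  unfold gc
  rw [zc_aS_eq, mul_pow, PowerSeries.coeff_X_pow_mul', if_pos le_rfl, Nat.sub_self,
    PowerSeries.coeff_zero_eq_constantCoeff_apply, map_pow, zc_g_zero, one_pow]

theorem ac_eq_zero {n k : ℕ} (h : n < k ∨ (n + k) % 2 = 1) : ac n k = 0 := by
  unfold ac
  rcases h with h | h
  · rw [zc_aS_eq, mul_pow, mul_assoc, PowerSeries.coeff_X_pow_mul', if_neg (by omega)]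
  · exact zcPar_mul (zcPar_pow k) zcPar_bS n (by omega)

theorem ac_self (k : ℕ) : ac k k = 1 := by
  unfold ac
  rw [zc_aS_eq, mul_pow, mul_assoc, PowerSeries.coeff_X_pow_mul', if_pos le_rfl, Nat.sub_self,
    PowerSeries.coeff_zero_eq_constantCoeff_apply, map_mul, map_pow, zc_g_zero, one_pow, zc_b_zero,
    one_mul]

theorem zc_al_cb (i : ℕ) : al i * (2 * (i : ℝ) + 1) = cb i := by
  unfold al cb
  have h1 : (2 * (i : ℝ) + 1) ≠ 0 := by positivity
  field_simp

theorem zc_deriv : PowerSeries.derivative ℝ aS = cS := by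
  ext n
  rw [PowerSeries.coeff_derivative]
  unfold aS cS
  rw [PowerSeries.coeff_mk, PowerSeries.coeff_mk]
  rcases Nat.even_or_odd n with hn | hn
  · have h1 : Odd (n + 1) := hn.add_one
    rw [if_pos hn, if_pos h1]
    obtain ⟨i, rfl⟩ := hn
    have h2 : (i + i + 1) / 2 = i := by omega
    have h3 : (i + i) / 2 = i := by omega
    rw [h2, h3, ← zc_al_cb]
    push_cast
    ring
  · have h1 : ¬ Odd (n + 1) := by
      rw [Nat.odd_iff] at hn ⊢
      omega
    have h2 : ¬ Even n := by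
      rw [Nat.odd_iff] at hn
      rw [Nat.even_iff]
      omega
    rw [if_neg h1, if_neg h2, zero_mul]

/-- Proof: the formal derivative of `aS` is `cS` (`(2i+1) al i = cb i`), so
`aS^k bS = (1-X^2) aS^k cS = (1-X^2) (aS^{k+1})'/(k+1)` (`PowerSeries.derivative`, `Derivation.leibniz_pow`). -/
theorem ac_formula (n k : ℕ) (hn : 1 ≤ n) :
    ((k : ℝ) + 1) * ac n k = ((n : ℝ) + 1) * gc (n + 1) (k + 1) - ((n : ℝ) - 1) * gc (n - 1) (k + 1) := by
  have h1 : PowerSeries.derivative ℝ (aS ^ (k + 1)) = ((k : PowerSeries ℝ) + 1) * (aS ^ k * cS) := by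
    rw [Derivation.leibniz_pow, zc_deriv, Nat.add_sub_cancel, nsmul_eq_mul, smul_eq_mul]
    push_cast
    ring
  have h2 : ((k : PowerSeries ℝ) + 1) * (aS ^ k * bS)
      = PowerSeries.derivative ℝ (aS ^ (k + 1))
        - PowerSeries.X ^ 2 * PowerSeries.derivative ℝ (aS ^ (k + 1)) := by
    rw [h1]
    unfold bS
    ring
  have h3 : ((k : PowerSeries ℝ) + 1) * (aS ^ k * bS) = ((k : ℝ) + 1) • (aS ^ k * bS) := by
    rw [PowerSeries.smul_eq_C_mul, map_add, map_one, map_natCast]
  have h4 := congrArg (PowerSeries.coeff n) h2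
  rw [h3, map_smul, smul_eq_mul, map_sub, PowerSeries.coeff_X_pow_mul',
    PowerSeries.coeff_derivative] at h4
  unfold ac gc
  rw [h4]
  split_ifs with h5
  · rw [PowerSeries.coeff_derivative]
    have h6 : n - 2 + 1 = n - 1 := by omega
    have h7 : ((n - 2 : ℕ) : ℝ) = (n : ℝ) - 2 := by
      rw [Nat.cast_sub h5]
      norm_num
    rw [h6, h7]
    ring
  · have h6 : n = 1 := by omega
    subst h6
    norm_num
    ring

end Pool.Agent.Lib.Zigzag
end
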