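import Mathlib

/-!
# MP_7d55f0_co, zigzag fences: definitions

`Om n M` is the number of words `g_1, ..., g_n` in `{0, ..., M-1}` with `g_l + g_{l+1} < M`, i.e.
the order polynomial of the zigzag poset on `n` elements at `M` levels (flip every second
coordinate). Everything else is analytic machinery for the proof that the numerator of
`∑_m Om n (m+1) t^m` has only real zeros.
-/

set_option autoImplicit false

namespace Pool.Agent.Lib.Zigzag

open Real

/-- `W M n i`: number of words `g_0 = i, g_1, ..., g_n` in `{0..M-1}` with `g_l + g_{l+1} < M`. -/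
def W (M : ℕ) : ℕ → ℕ → ℕ
  | 0, _ => 1
  | n + 1, i => ∑ j ∈ Finset.range (M - i), W M n j

/-- The number of words of length `n` (order polynomial of the zigzag at `M` levels). -/
def Om (n M : ℕ) : ℕ := W M n 0

/-- Coefficients of arcsin: `arcsin x = ∑ al i * x^(2i+1)`. -/
noncomputable def al (i : ℕ) : ℝ := (Nat.centralBinom i : ℝ) / (4 ^ i * (2 * i + 1))

/-- Coefficients of `1/√(1-x²) = ∑ cb i * x^(2i)`. -/
noncomputable def cb (i : ℕ) : ℝ := (Nat.centralBinom i : ℝ) / 4 ^ i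

/-- Formal series of arcsin. -/
noncomputable def aS : PowerSeries ℝ := PowerSeries.mk (fun n => if Odd n then al (n / 2) else 0)

/-- Formal series of `1/√(1-x²)`. -/
noncomputable def cS : PowerSeries ℝ := PowerSeries.mk (fun n => if Even n then cb (n / 2) else 0)

/-- Formal series of `√(1-x²)`. -/
noncomputable def bS : PowerSeries ℝ := (1 - PowerSeries.X ^ 2) * cS

/-- Coefficient of `x^n` in `arcsin(x)^k`. -/
noncomputable def gc (n k : ℕ) : ℝ := PowerSeries.coeff n (aS ^ k)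

/-- Coefficient of `x^n` in `arcsin(x)^k * √(1-x²)`. -/
noncomputable def ac (n k : ℕ) : ℝ := PowerSeries.coeff n (aS ^ k * bS)

/-- `SS k = ∑_{d ∈ ℤ} (4d+1)^{-(k+1)}` (paired). -/
noncomputable def SS (k : ℕ) : ℝ :=
  1 + ∑' d : ℕ, (1 / (4 * (d : ℝ) + 5) ^ (k + 1) + (-1) ^ (k + 1) / (4 * (d : ℝ) + 3) ^ (k + 1))

/-- Coefficients of `sec x + tan x = ∑ eps k * x^k`. -/
noncomputable def eps (k : ℕ) : ℝ := 2 * (2 / π) ^ (k + 1) * SS k

/-- Coefficients of the order polynomial in the variable `N = 2M+1`. -/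
noncomputable def cc (n k : ℕ) : ℝ := eps k * ac n k / 2 ^ n

/-- The order polynomial in the variable `N = 2M+1` (for `n ≥ 2`). -/
noncomputable def PP (n : ℕ) (c : ℝ) : ℝ := ∑ k ∈ Finset.range (n + 1), cc n k * c ^ k

/-- `KK k v = ∑_m (-1)^m (2m+1)^k e^{-(2m+1)v}`. -/
noncomputable def KK (k : ℕ) (v : ℝ) : ℝ :=
  ∑' m : ℕ, (-1) ^ m * (2 * (m : ℝ) + 1) ^ k * exp (-((2 * (m : ℝ) + 1) * v))

/-- `YY n v = ∑_m (-1)^m Om n m e^{-(2m+1)v}`. -/
noncomputable def YY (n : ℕ) (v : ℝ) : ℝ :=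
  ∑' m : ℕ, (-1) ^ m * (Om n m : ℝ) * exp (-((2 * (m : ℝ) + 1) * v))

/-- The pole part: `ff n N ≈ Om n M` for `N = 2M+1`. -/
noncomputable def ff (n : ℕ) (x : ℝ) : ℝ :=
  1 / (tan (π / (2 * x)) ^ 2 * x * (2 * sin (π / (2 * x))) ^ (n - 1))

/-- The abscissa belonging to the angle `θ`. -/
noncomputable def vv (θ : ℝ) : ℝ := π / 2 * (cos θ / sin θ)

/-- The modulus belonging to the angle `θ`. -/
noncomputable def rr (θ : ℝ) : ℝ := π / 2 / sin θ

/-- The test angles. -/
noncomputable def th (n m : ℕ) : ℝ := (2 * (m : ℝ) + 1) * π / (2 * ((n : ℝ) + 1))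

/-- The polynomial `h` of the frozen statement, characterised by the power series identity. -/
def IsH (n : ℕ) (h : Polynomial ℤ) : Prop :=
  PowerSeries.mk (fun m : ℕ => ((Om n (m + 1) : ℕ) : ℤ)) * (1 - PowerSeries.X) ^ (n + 1)
    = (↑h : PowerSeries ℤ)

/-- Real version of `h`. -/
noncomputable def HR (h : Polynomial ℤ) : Polynomial ℝ := h.map (Int.castRingHom ℝ)

end Pool.Agent.Lib.Zigzag
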