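import Mathlib
import Pool.Agent.Lib.MP_7d55f0_co.ZDefs
import Pool.Agent.Lib.MP_7d55f0_co.ZCoefA

section

set_option autoImplicit false

namespace Pool.Agent.Lib.Zigzag

theorem alt_aux (b : ℕ → ℝ) (hb : ∀ M, 0 < b M) (hlc : ∀ M, b (M + 2) * b M ≤ b (M + 1) ^ 2)
    (p : ℕ) (hp : 1 ≤ p) (ρ : ℝ) (hρ0 : 0 < ρ) (hρ1 : 3 * ρ < 1)
    (h1 : b (p + 1) = ρ * b p) (h2 : b (p - 1) = ρ * b p) (S : ℝ)
    (hS : HasSum (fun M : ℕ => (-1) ^ M * b M) S) : 0 < (-1) ^ p * S := by
  -- upward
  have hup : ∀ i, b (p + i + 1) ≤ ρ * b (p + i) := by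
    intro i
    induction i with
    | zero => exact h1.le
    | succ i ih =>
      have e1 := hlc (p + i)
      have e2 : b (p + i + 1) ^ 2 ≤ (ρ * b (p + i + 1)) * b (p + i) := by
        have := mul_le_mul_of_nonneg_left ih (hb (p + i + 1)).le
        nlinarith
      have e3 : b (p + i + 2) * b (p + i) ≤ (ρ * b (p + i + 1)) * b (p + i) := e1.trans e2
      exact le_of_mul_le_mul_right e3 (hb (p + i))
  have hup' : ∀ i, b (p + i) ≤ ρ ^ i * b p := by
    intro i
    induction i with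
    | zero => simp
    | succ i ih =>
      calc b (p + (i + 1)) ≤ ρ * b (p + i) := hup i
        _ ≤ ρ * (ρ ^ i * b p) := mul_le_mul_of_nonneg_left ih hρ0.le
        _ = ρ ^ (i + 1) * b p := by ring
  -- downward
  have hdn : ∀ i M, M + i + 1 = p → b M ≤ ρ * b (M + 1) := by
    intro i
    induction i with
    | zero =>
      intro M hM
      have : M = p - 1 := by omega
      have h' : M + 1 = p := by omega
      rw [h', this]
      exact h2.le
    | succ i ih =>
      intro M hM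
      have ih' := ih (M + 1) (by omega)
      have e1 := hlc M
      have e2 : b (M + 1) ^ 2 ≤ (ρ * b (M + 1)) * b (M + 2) := by
        have := mul_le_mul_of_nonneg_left ih' (hb (M + 1)).le
        have h3 : M + 1 + 1 = M + 2 := rfl
        rw [h3] at this
        nlinarith
      have e3 : b M * b (M + 2) ≤ (ρ * b (M + 1)) * b (M + 2) := by
        rw [mul_comm (b M)]
        exact e1.trans e2
      exact le_of_mul_le_mul_right e3 (hb (M + 2))
  have hdn' : ∀ i M, M + i = p → b M ≤ ρ ^ i * b p := by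
    intro i
    induction i with
    | zero => intro M hM; have : M = p := by omega
              rw [this]; simp
    | succ i ih =>
      intro M hM
      calc b M ≤ ρ * b (M + 1) := hdn i M (by omega)
        _ ≤ ρ * (ρ ^ i * b p) := mul_le_mul_of_nonneg_left (ih (M + 1) (by omega)) hρ0.le
        _ = ρ ^ (i + 1) * b p := by ring
  have hρ1' : ρ < 1 := by linarith
  have hgeo := summable_geometric_of_lt_one hρ0.le hρ1'
  have hgeo' := tsum_geometric_of_lt_one hρ0.le hρ1'
  -- the lower part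
  have hlow : |∑ M ∈ Finset.range p, (-1) ^ M * b M| ≤ ρ / (1 - ρ) * b p := by
    refine (Finset.abs_sum_le_sum_abs _ _).trans ?_
    have e1 : ∀ M ∈ Finset.range p, |(-1 : ℝ) ^ M * b M| ≤ ρ ^ (p - 1 - M) * (ρ * b p) := by
      intro M hM
      rw [Finset.mem_range] at hM
      rw [abs_mul, abs_pow, abs_neg, abs_one, one_pow, one_mul, abs_of_pos (hb M)]
      have := hdn' (p - M) M (by omega)
      calc b M ≤ ρ ^ (p - M) * b p := this
        _ = ρ ^ (p - 1 - M) * (ρ * b p) := by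
          have : p - M = (p - 1 - M) + 1 := by omega
          rw [this]; ring
    refine (Finset.sum_le_sum e1).trans ?_
    rw [← Finset.sum_mul, Finset.sum_range_reflect (fun i => ρ ^ i) p]
    have e2 : ∑ j ∈ Finset.range p, ρ ^ j ≤ (1 - ρ)⁻¹ := by
      rw [← hgeo']
      exact hgeo.sum_le_tsum _ (fun i _ => pow_nonneg hρ0.le i)
    calc (∑ j ∈ Finset.range p, ρ ^ j) * (ρ * b p) ≤ (1 - ρ)⁻¹ * (ρ * b p) :=
          mul_le_mul_of_nonneg_right e2 (mul_pos hρ0 (hb p)).le
      _ = ρ / (1 - ρ) * b p := by ring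
  -- the upper part
  have hsum := hS.summable
  have htail : Summable (fun M => (-1 : ℝ) ^ (M + (p + 1)) * b (M + (p + 1))) :=
    (summable_nat_add_iff (p + 1)).2 hsum
  have hdom : ∀ M : ℕ, ‖(-1 : ℝ) ^ (M + (p + 1)) * b (M + (p + 1))‖ ≤ ρ ^ M * (ρ * b p) := by
    intro M
    rw [Real.norm_eq_abs, abs_mul, abs_pow, abs_neg, abs_one, one_pow, one_mul,
      abs_of_pos (hb _)]
    have := hup' (M + 1)
    have h3 : M + (p + 1) = p + (M + 1) := by omega
    rw [h3]
    calc b (p + (M + 1)) ≤ ρ ^ (M + 1) * b p := this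
      _ = ρ ^ M * (ρ * b p) := by ring
  have hupp : |∑' M, (-1 : ℝ) ^ (M + (p + 1)) * b (M + (p + 1))| ≤ ρ / (1 - ρ) * b p := by
    have h3 : HasSum (fun M => ρ ^ M * (ρ * b p)) ((1 - ρ)⁻¹ * (ρ * b p)) :=
      (hasSum_geometric_of_lt_one hρ0.le hρ1').mul_right _
    have h4 := tsum_of_norm_bounded h3 hdom
    rw [Real.norm_eq_abs] at h4
    calc _ ≤ (1 - ρ)⁻¹ * (ρ * b p) := h4
      _ = ρ / (1 - ρ) * b p := by ring
  have hsplit := hsum.sum_add_tsum_nat_add (p + 1)
  rw [hS.tsum_eq, Finset.sum_range_succ] at hsplit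
  have hbp := hb p
  have hq : ρ / (1 - ρ) < 1 / 2 := by
    rw [div_lt_div_iff₀ (by linarith) (by norm_num)]
    linarith
  have hq' : ρ / (1 - ρ) * b p < 1 / 2 * b p := mul_lt_mul_of_pos_right hq hbp
  have hpp : (-1 : ℝ) ^ p * ((-1) ^ p * b p) = b p := by
    rw [← mul_assoc, ← mul_pow]; simp
  set X := ∑ M ∈ Finset.range p, (-1 : ℝ) ^ M * b M
  set Y := ∑' M, (-1 : ℝ) ^ (M + (p + 1)) * b (M + (p + 1))
  have hXY : (-1 : ℝ) ^ p * S = b p + (-1) ^ p * X + (-1) ^ p * Y := by
    rw [← hsplit, mul_add, mul_add, hpp]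
    ring
  have hX : -|X| ≤ (-1 : ℝ) ^ p * X := by
    rcases neg_one_pow_eq_or ℝ p with h | h <;> rw [h]
    · rw [one_mul]; exact neg_abs_le X
    · rw [neg_one_mul]; exact neg_le_neg (le_abs_self X)
  have hY : -|Y| ≤ (-1 : ℝ) ^ p * Y := by
    rcases neg_one_pow_eq_or ℝ p with h | h <;> rw [h]
    · rw [one_mul]; exact neg_abs_le Y
    · rw [neg_one_mul]; exact neg_le_neg (le_abs_self Y)
  rw [hXY]
  linarith

/-- Sign of an alternating log-concave series at the balanced point.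
Proof. Let `t = -q`, `q = √(a (m-1)/a (m+1))`, `0 < q ≤ 1`, `b M = a M q^{M-1}`, `ρ = b (m+1)/b m = b (m-1)/b m =
√(a (m+1) a (m-1))/a m ≤ √0.1 < 1/3`. Log-concavity gives `b (m+i)/b m ≤ ρ^i` and `b (m-i)/b m ≤ ρ^i`, so
`∑_{M ≠ m} b M ≤ 2ρ/(1-ρ) b m < b m`; the term `M = m` of the series has sign `(-1)^{m-1}`. -/
theorem alt_sign (a : ℕ → ℝ) (ha : ∀ M, 1 ≤ M → 0 < a M)
    (hlc : ∀ M, 1 ≤ M → a (M + 2) * a M ≤ a (M + 1) ^ 2) (m : ℕ) (hm : 2 ≤ m)
    (h1 : a (m + 1) * a (m - 1) ≤ 0.1 * a m ^ 2) (S : ℝ)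
    (hS : HasSum (fun M : ℕ => a (M + 1) * (-√(a (m - 1) / a (m + 1))) ^ M) S) :
    0 < (-1) ^ (m - 1) * S := by
  obtain ⟨p, rfl⟩ : ∃ p, m = p + 2 := ⟨m - 2, by omega⟩
  have e0 : p + 2 - 1 = p + 1 := by omega
  rw [e0] at h1 hS ⊢
  have hA : 0 < a (p + 1) := ha _ (by omega)
  have hB : 0 < a (p + 2) := ha _ (by omega)
  have hC : 0 < a (p + 2 + 1) := ha _ (by omega)
  set q := √(a (p + 1) / a (p + 2 + 1)) with hq
  have hq0 : 0 < q := Real.sqrt_pos.2 (div_pos hA hC)
  have hq2 : q ^ 2 = a (p + 1) / a (p + 2 + 1) := Real.sq_sqrt (div_pos hA hC).le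
  have hq2' : q ^ 2 * a (p + 2 + 1) = a (p + 1) := by
    rw [hq2]; field_simp
  refine alt_aux (fun M => a (M + 1) * q ^ M) (fun M => mul_pos (ha _ (by omega)) (pow_pos hq0 M))
    ?_ (p + 1) (by omega) (a (p + 2 + 1) * q / a (p + 2)) (by positivity) ?_ ?_ ?_ S ?_
  · intro M
    have := hlc (M + 1) (by omega)
    have h3 : a (M + 2 + 1) * q ^ (M + 2) * (a (M + 1) * q ^ M) =
        (a (M + 1 + 2) * a (M + 1)) * (q ^ (M + 1)) ^ 2 := by
      have : M + 2 + 1 = M + 1 + 2 := by omega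
      rw [this]; ring
    have h4 : (a (M + 1 + 1) * q ^ (M + 1)) ^ 2 = a (M + 1 + 1) ^ 2 * (q ^ (M + 1)) ^ 2 := by ring
    rw [h3, h4]
    exact mul_le_mul_of_nonneg_right this (sq_nonneg _)
  · -- 3 ρ < 1
    have h3 : (a (p + 2 + 1) * q / a (p + 2)) ^ 2 ≤ 0.1 := by
      rw [div_pow, div_le_iff₀ (pow_pos hB 2)]
      calc (a (p + 2 + 1) * q) ^ 2 = a (p + 2 + 1) * (q ^ 2 * a (p + 2 + 1)) := by ring
        _ = a (p + 2 + 1) * a (p + 1) := by rw [hq2']
        _ ≤ 0.1 * a (p + 2) ^ 2 := h1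
    by_contra hcon
    push Not at hcon
    have h4 : (0 : ℝ) ≤ a (p + 2 + 1) * q / a (p + 2) := by positivity
    nlinarith
  · show a (p + 1 + 1 + 1) * q ^ (p + 1 + 1) = _ * (a (p + 1 + 1) * q ^ (p + 1))
    have : p + 1 + 1 = p + 2 := rfl
    rw [this]
    field_simp
    ring
  · show a (p + 1 - 1 + 1) * q ^ (p + 1 - 1) = _ * (a (p + 1 + 1) * q ^ (p + 1))
    have h3 : p + 1 + 1 = p + 2 := rfl
    rw [h3, Nat.add_sub_cancel, ← hq2']
    field_simp
    ring
  · have h3 : (fun M : ℕ => (-1 : ℝ) ^ M * (a (M + 1) * q ^ M)) =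
        fun M : ℕ => a (M + 1) * (-q) ^ M := by
      funext M
      rw [neg_pow q M]
      ring
    show HasSum (fun M : ℕ => (-1 : ℝ) ^ M * (a (M + 1) * q ^ M)) S
    rw [h3]
    exact hS

end Pool.Agent.Lib.Zigzag
end

section

set_option autoImplicit false

namespace Pool.Agent.Lib.Zigzag

theorem zroots_ivt (H : Polynomial ℝ) (i : ℕ) {a b : ℝ} (hab : a ≤ b)
    (hb : 0 < (-1) ^ i * H.eval b) (ha : 0 < (-1) ^ (i + 1) * H.eval a) :
    ∃ r, a < r ∧ r < b ∧ H.eval r = 0 := by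
  have hc : ContinuousOn (fun x => (-1 : ℝ) ^ i * H.eval x) (Set.Icc a b) := by
    fun_prop
  have h1 := intermediate_value_Ioo hab hc
  have h2 : (0 : ℝ) ∈ Set.Ioo ((-1) ^ i * H.eval a) ((-1) ^ i * H.eval b) := by
    constructor
    · rw [pow_succ] at ha
      linarith
    · exact hb
  obtain ⟨r, hr, hr0⟩ := h1 h2
  refine ⟨r, hr.1, hr.2, ?_⟩
  rcases mul_eq_zero.1 hr0 with h | h
  · exact absurd h (pow_ne_zero _ (by norm_num))
  · exact h

/-- Proof: intermediate value theorem on each `[τ (i+1), τ i]`; the `d` zeros are in disjoint open intervals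
(opposite strict signs imply `τ (i+1) < τ i`), so `H.roots.toFinset.card ≥ d ≥ natDegree ≥ roots.card`. -/
theorem roots_card_of_points (H : Polynomial ℝ) (d : ℕ) (hd : H.natDegree ≤ d) (τ : ℕ → ℝ)
    (anti : ∀ i < d, τ (i + 1) ≤ τ i) (sign : ∀ i ≤ d, 0 < (-1) ^ i * H.eval (τ i)) :
    H.roots.card = H.natDegree := by
  have hH : H ≠ 0 := by
    rintro rfl
    have := sign 0 (Nat.zero_le _)
    simp at this
  have hex : ∀ i, ∃ r, i < d → τ (i + 1) < r ∧ r < τ i ∧ H.eval r = 0 := by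
    intro i
    by_cases hi : i < d
    · obtain ⟨r, hr⟩ := zroots_ivt H i (anti i hi) (sign i hi.le) (sign (i + 1) hi)
      exact ⟨r, fun _ => hr⟩
    · exact ⟨0, fun h => absurd h hi⟩
  choose r hr using hex
  have hanti : ∀ j, j ≤ d → ∀ i, i ≤ j → τ j ≤ τ i := by
    intro j
    induction j with
    | zero => intro _ i hi; rw [Nat.le_zero.1 hi]
    | succ j ih =>
      intro hj i hi
      rcases Nat.of_le_succ hi with h | h
      · exact (anti j hj).trans (ih (by omega) i h)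
      · rw [h]
  have hlt : ∀ i j, i < j → j < d → r j < r i := by
    intro i j hij hj
    have h1 := (hr j hj).2.1
    have h2 := (hr i (by omega)).1
    have h3 := hanti j hj.le (i + 1) hij
    linarith
  have hinj : Set.InjOn r (Finset.range d : Set ℕ) := by
    intro i hi j hj hij
    have hi' : i < d := by simpa using hi
    have hj' : j < d := by simpa using hj
    rcases lt_trichotomy i j with h | h | h
    · exact absurd hij (ne_of_gt (hlt i j h hj'))
    · exact h
    · exact absurd hij (ne_of_lt (hlt j i h hi'))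
  have hsub : (Finset.range d).image r ⊆ H.roots.toFinset := by
    intro x hx
    obtain ⟨i, hi, rfl⟩ := Finset.mem_image.1 hx
    rw [Multiset.mem_toFinset, Polynomial.mem_roots hH]
    exact (hr i (Finset.mem_range.1 hi)).2.2
  have hcard : d ≤ H.roots.toFinset.card := by
    have := Finset.card_le_card hsub
    rwa [Finset.card_image_of_injOn hinj, Finset.card_range] at this
  have h1 := Multiset.toFinset_card_le H.roots
  have h2 := Polynomial.card_roots' H
  omega

/-- Palindromic version. `d = n - 2`, `K = n/2`, test points `τ 1 ≥ ... ≥ τ K` in `(-1,0)` with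
`(-1)^{m-1} H(τ m) > 0`. Proof: apply `roots_card_of_points` to the `n - 1` points
`τ 1, ..., τ K` and `1/τ (n-m)` for `K < m ≤ n-1` (`n - m < n/2`... for `n` even the index `K` is not reflected):
`H(1/τ) = H(τ)/τ^{n-2}`, sign `(-1)^{n-2} (-1)^{(n-m)-1} = (-1)^{m-1}`. -/
theorem roots_card_of_symm (H : Polynomial ℝ) (n : ℕ) (hn : 3 ≤ n) (hd : H.natDegree ≤ n - 2)
    (hsym : ∀ t : ℝ, t ≠ 0 → H.eval t = t ^ (n - 2) * H.eval t⁻¹) (τ : ℕ → ℝ)
    (hneg : ∀ m, 1 ≤ m → m ≤ n / 2 → τ m < 0) (hone : ∀ m, 1 ≤ m → m ≤ n / 2 → -1 < τ m)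
    (anti : ∀ m, 1 ≤ m → m + 1 ≤ n / 2 → τ (m + 1) ≤ τ m)
    (sign : ∀ m, 1 ≤ m → m ≤ n / 2 → 0 < (-1) ^ (m - 1) * H.eval (τ m)) :
    H.roots.card = H.natDegree := by
  refine roots_card_of_points H (n - 2) hd
    (fun i => if i + 1 ≤ n / 2 then τ (i + 1) else (τ (n - (i + 1)))⁻¹) ?_ ?_
  · intro i hi
    by_cases h1 : i + 1 + 1 ≤ n / 2
    · rw [if_pos h1, if_pos (by omega)]
      exact anti (i + 1) (by omega) h1
    · rw [if_neg h1]
      by_cases h2 : i + 1 ≤ n / 2
      · rw [if_pos h2]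
        have h3 := hneg (n - (i + 1 + 1)) (by omega) (by omega)
        have h4 := hone (n - (i + 1 + 1)) (by omega) (by omega)
        have h5 := hone (i + 1) (by omega) h2
        have h6 : (τ (n - (i + 1 + 1)))⁻¹ ≤ -1 := by
          rw [inv_le_of_neg h3 (by norm_num)]
          rw [show ((-1 : ℝ))⁻¹ = -1 by norm_num]
          linarith
        linarith
      · rw [if_neg h2]
        have h3 := hneg (n - (i + 1 + 1)) (by omega) (by omega)
        have h4 := hneg (n - (i + 1)) (by omega) (by omega)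
        have h5 := anti (n - (i + 1 + 1)) (by omega) (by omega)
        have h6 : n - (i + 1 + 1) + 1 = n - (i + 1) := by omega
        rw [h6] at h5
        exact (inv_le_inv_of_neg h3 h4).2 h5
  · intro i hi
    by_cases h1 : i + 1 ≤ n / 2
    · rw [if_pos h1]
      have := sign (i + 1) (by omega) h1
      simpa using this
    · rw [if_neg h1]
      set s := n - (i + 1) with hs
      have hs1 : 1 ≤ s := by omega
      have hs2 : s ≤ n / 2 := by omega
      have ht := hneg s hs1 hs2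
      have hsg := sign s hs1 hs2
      have h2 := hsym (τ s)⁻¹ (inv_ne_zero ht.ne)
      rw [inv_inv] at h2
      rw [h2]
      have h3 : ((τ s)⁻¹) ^ (n - 2) = (-1) ^ (n - 2) * (-(τ s)⁻¹) ^ (n - 2) := by
        rw [← mul_pow]
        congr 1
        ring
      rw [h3]
      have h4 : 0 < (-(τ s)⁻¹) ^ (n - 2) := by
        apply pow_pos
        have := inv_lt_zero.2 ht
        linarith
      have h5 : (-1 : ℝ) ^ i * (-1) ^ (n - 2) = (-1) ^ (s - 1) := by
        rw [← pow_add]
        have h6 : i + (n - 2) = (s - 1) + 2 * i := by omega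
        rw [h6, pow_add, pow_mul]
        norm_num
      calc (0 : ℝ) < (-(τ s)⁻¹) ^ (n - 2) * ((-1) ^ (s - 1) * H.eval (τ s)) := mul_pos h4 hsg
        _ = (-1) ^ i * ((-1) ^ (n - 2) * (-(τ s)⁻¹) ^ (n - 2) * H.eval (τ s)) := by
          rw [← h5]
          ring

end Pool.Agent.Lib.Zigzag
end

section

set_option autoImplicit false

namespace Pool.Agent.Lib.Zigzag

/-- words with bounded neighbouring sums, the first letter being bounded by `M - i` -/
private def zcPr (M n i : ℕ) (g : Fin n → Fin M) : Prop :=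
  (∀ h : 0 < n, (g ⟨0, h⟩).val + i < M) ∧
    ∀ (l : ℕ) (h : l + 1 < n), (g ⟨l, Nat.lt_of_succ_lt h⟩).val + (g ⟨l + 1, h⟩).val < M

private def zcEquiv (M n i : ℕ) : {g : Fin (n + 1) → Fin M // zcPr M (n + 1) i g} ≃
    Σ j : {j : Fin M // j.val + i < M}, {g : Fin n → Fin M // zcPr M n j.1.val g} where
  toFun g := ⟨⟨g.1 0, g.2.1 (Nat.succ_pos n)⟩, ⟨fun l => g.1 l.succ, by
    refine ⟨fun h => ?_, fun l h => ?_⟩
    · have h1 := g.2.2 0 (by omega)
      have h2 : (⟨0, Nat.lt_of_succ_lt (by omega : 0 + 1 < n + 1)⟩ : Fin (n + 1)) = 0 := rfl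
      have h3 : (⟨0 + 1, by omega⟩ : Fin (n + 1)) = Fin.succ ⟨0, h⟩ := rfl
      rw [h2, h3] at h1
      change (g.1 (Fin.succ ⟨0, h⟩)).val + (g.1 0).val < M
      omega
    · exact g.2.2 (l + 1) (by omega)⟩⟩
  invFun x := ⟨Fin.cons x.1.1 x.2.1, by
    obtain ⟨⟨j, hj⟩, ⟨g, hg⟩⟩ := x
    refine ⟨fun h => ?_, fun l h => ?_⟩
    · have h2 : (⟨0, h⟩ : Fin (n + 1)) = 0 := rfl
      rw [h2, Fin.cons_zero]
      exact hj
    · cases l with
      | zero =>
        have h2 : (⟨0, Nat.lt_of_succ_lt h⟩ : Fin (n + 1)) = 0 := rfl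
        have h4 : 0 < n := by omega
        have h3 : (⟨0 + 1, h⟩ : Fin (n + 1)) = Fin.succ ⟨0, h4⟩ := rfl
        rw [h2, h3, Fin.cons_zero, Fin.cons_succ]
        have h5 := hg.1 h4
        change j.val + (g ⟨0, h4⟩).val < M
        change (g ⟨0, h4⟩).val + j.val < M at h5
        omega
      | succ l =>
        have h4 : l + 1 < n := by omega
        have h2 : (⟨l + 1, Nat.lt_of_succ_lt h⟩ : Fin (n + 1)) =
            Fin.succ ⟨l, Nat.lt_of_succ_lt h4⟩ := rfl
        have h3 : (⟨l + 1 + 1, h⟩ : Fin (n + 1)) = Fin.succ ⟨l + 1, h4⟩ := rfl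
        rw [h2, h3, Fin.cons_succ, Fin.cons_succ]
        exact hg.2 l h4⟩
  left_inv g := by
    apply Subtype.ext
    funext l
    refine Fin.cases ?_ (fun l' => ?_) l
    · rfl
    · rfl
  right_inv x := by
    obtain ⟨⟨j, hj⟩, ⟨g, hg⟩⟩ := x
    rfl

private theorem zc_card (M : ℕ) : ∀ n i : ℕ, Nat.card {g : Fin n → Fin M // zcPr M n i g} =
    W M n i := by
  intro n
  induction n with
  | zero =>
    intro i
    have : Unique {g : Fin 0 → Fin M // zcPr M 0 i g} :=
      { default := ⟨fun l => l.elim0, fun h => absurd h (lt_irrefl 0),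
          fun l h => absurd h (by omega)⟩
        uniq := fun g => Subtype.ext (funext fun l => l.elim0) }
    rw [Nat.card_unique]
    rfl
  | succ n ih =>
    intro i
    rw [Nat.card_congr (zcEquiv M n i), Nat.card_sigma]
    simp only [ih]
    change _ = ∑ j ∈ Finset.range (M - i), W M n j
    refine Finset.sum_nbij (fun a => a.1.val) ?_ ?_ ?_ ?_
    · intro a _
      rw [Finset.mem_range]
      have := a.2
      omega
    · intro a _ b _ hab
      exact Subtype.ext (Fin.ext hab)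
    · intro j hj
      rw [Finset.mem_coe, Finset.mem_range] at hj
      exact ⟨⟨⟨j, by omega⟩, by simp only; omega⟩, Finset.mem_coe.2 (Finset.mem_univ _), rfl⟩
    · intro a _
      rfl

/-- Order preserving maps of an alternating fence are counted by `Om`.
Proof. Let `e i = (s i = true)`. Send `f` to `g` with `g i = f i` if `s i = true` (the step at `i`
goes up; for the last element use the parity continued) and `g i = m - f i` (Fin.rev) otherwise;
because `s` alternates, `f i ≤ f (i+1)` (with `s i = true`, so element `i+1` is flipped) reads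
`g i + g (i+1) ≤ m`, and `f (i+1) ≤ f i` (with `s i = false`, element `i` flipped, `i+1` not) reads
`g (i+1) ≤ m - g i`, i.e. the same. So the set is in bijection with
`{g : Fin n → Fin (m+1) // ∀ i, i+1 < n → g i + g (i+1) < m + 1}`; the latter is counted by
`W (m+1) n 0` by induction on `n` (`Fin.consEquiv`): more generally the number of `g : Fin n → Fin M` with
`g 0 < M - i` (if n > 0) and `g l + g (l+1) < M` is `W M n i`. (If `s` alternates only for `i + 2 < n`,
first replace `s` by the alternating sequence with the same `s 0`.) -/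
theorem card_fence (n m : ℕ) (s : ℕ → Bool) (hs : ∀ i, i + 2 < n → s (i + 1) ≠ s i) :
    Nat.card {f : Fin n → Fin (m + 1) //
              ∀ i : Fin n, ∀ hi : i.val + 1 < n,
                (s i.val = true → f i ≤ f ⟨i.val + 1, hi⟩) ∧
                (s i.val = false → f ⟨i.val + 1, hi⟩ ≤ f i)} = Om n (m + 1) := by
  set b : ℕ → Bool := fun i => if i % 2 = 0 then s 0 else !(s 0) with hbdef
  have hbs : ∀ i, b (i + 1) = !(b i) := by
    intro i
    simp only [hbdef]
    rcases Nat.mod_two_eq_zero_or_one i with h | h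
    · have h2 : (i + 1) % 2 = 1 := by omega
      rw [if_neg (by omega), if_pos h]
    · have h2 : (i + 1) % 2 = 0 := by omega
      rw [if_pos h2, if_neg (by omega), Bool.not_not]
  have hb : ∀ i, i + 1 < n → s i = b i := by
    intro i
    induction i with
    | zero => intro _; simp [hbdef]
    | succ i ih =>
      intro hi
      have h1 := hs i (by omega)
      have h2 := ih (by omega)
      rw [hbs i, ← h2]
      cases h3 : s i <;> cases h4 : s (i + 1)
      · exact absurd (h4.trans h3.symm) h1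
      · rfl
      · rfl
      · exact absurd (h4.trans h3.symm) h1
  unfold Om
  rw [← zc_card (m + 1) n 0]
  set e : (Fin n → Fin (m + 1)) ≃ (Fin n → Fin (m + 1)) :=
    Equiv.piCongrRight (fun i => if b i.val = true then Equiv.refl (Fin (m + 1))
      else Fin.revPerm) with he
  have he1 : ∀ f (i : Fin n), b i.val = true → e f i = f i := by
    intro f i hi
    simp [he, hi]
  have he2 : ∀ f (i : Fin n), b i.val = false → (e f i).val = m - (f i).val := by
    intro f i hi
    simp [he, hi, Fin.revPerm_apply, Fin.val_rev]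
  refine Nat.card_congr (Equiv.subtypeEquiv e (fun f => ?_))
  have hstep : ∀ (l : ℕ) (h : l + 1 < n),
      (((s l = true → f ⟨l, Nat.lt_of_succ_lt h⟩ ≤ f ⟨l + 1, h⟩) ∧
        (s l = false → f ⟨l + 1, h⟩ ≤ f ⟨l, Nat.lt_of_succ_lt h⟩)) ↔
      (e f ⟨l, Nat.lt_of_succ_lt h⟩).val + (e f ⟨l + 1, h⟩).val < m + 1) := by
    intro l h
    have h1 := hb l h
    have h2 := hbs l
    have h5 := (f ⟨l, Nat.lt_of_succ_lt h⟩).isLt
    have h6 := (f ⟨l + 1, h⟩).isLt
    cases h3 : b l with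
    | true =>
      have h4 : b (l + 1) = false := by rw [h2, h3]; rfl
      rw [he1 f ⟨l, Nat.lt_of_succ_lt h⟩ h3, he2 f ⟨l + 1, h⟩ h4, h1, h3, Fin.le_def]
      simp only [forall_true_left, Bool.true_eq_false, false_imp_iff, and_true]
      omega
    | false =>
      have h4 : b (l + 1) = true := by rw [h2, h3]; rfl
      rw [he2 f ⟨l, Nat.lt_of_succ_lt h⟩ h3, he1 f ⟨l + 1, h⟩ h4, h1, h3]
      simp only [Fin.le_def, forall_true_left, Bool.false_eq_true, false_imp_iff, true_and]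
      omega
  constructor
  · intro hf
    refine ⟨fun h => (e f ⟨0, h⟩).isLt, fun l h => ?_⟩
    exact (hstep l h).1 (hf ⟨l, Nat.lt_of_succ_lt h⟩ h)
  · rintro ⟨-, hf⟩ ⟨l, hl⟩ hi
    exact (hstep l hi).2 (hf l hi)

end Pool.Agent.Lib.Zigzag
end

section

set_option autoImplicit false

namespace Pool.Agent.Lib.Zigzag

open Real

private theorem eg_sum (x : ℝ) (K : ℕ) :
    (∑ j ∈ Finset.range K, cos ((2 * (j : ℝ) + 1) * x)) * (2 * sin x) = sin (2 * (K : ℝ) * x) := by
  induction K with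
  | zero => simp
  | succ K ih =>
    rw [Finset.sum_range_succ, add_mul, ih]
    push_cast
    have h1 : 2 * ((K : ℝ) + 1) * x = (2 * (K : ℝ) + 1) * x + x := by ring
    have h2 : 2 * (K : ℝ) * x = (2 * (K : ℝ) + 1) * x - x := by ring
    rw [h1, h2, sin_add, sin_sub]
    ring

private theorem eg_row (M i : ℕ) (hi : i < M) (f : ℕ → ℝ) :
    ∑ j ∈ Finset.range (M - i), f j = ∑ j ∈ Finset.range M, (if i + j < M then 1 else 0) * f j := by
  have h1 : Finset.range (M - i) = (Finset.range M).filter (fun j => i + j < M) := by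
    ext j
    simp only [Finset.mem_range, Finset.mem_filter]
    omega
  rw [h1, Finset.sum_filter]
  apply Finset.sum_congr rfl
  intro j _
  split_ifs <;> simp

private theorem eg_swap (M : ℕ) (w u : ℕ → ℝ) :
    ∑ i ∈ Finset.range M, w i * ∑ j ∈ Finset.range (M - i), u j =
      ∑ j ∈ Finset.range M, u j * ∑ i ∈ Finset.range (M - j), w i := by
  have h1 : ∀ (a b : ℕ → ℝ), ∑ i ∈ Finset.range M, a i * ∑ j ∈ Finset.range (M - i), b j =
      ∑ i ∈ Finset.range M, ∑ j ∈ Finset.range M, (if i + j < M then 1 else 0) * (a i * b j) := by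
    intro a b
    apply Finset.sum_congr rfl
    intro i hi
    rw [eg_row M i (Finset.mem_range.1 hi), Finset.mul_sum]
    apply Finset.sum_congr rfl
    intro j _
    ring
  rw [h1, h1, Finset.sum_comm]
  apply Finset.sum_congr rfl
  intro j _
  apply Finset.sum_congr rfl
  intro i _
  rw [add_comm i j, mul_comm (w i) (u j)]

private theorem eg_tri (M : ℕ) :
    ∑ i ∈ Finset.range M, ((M - i : ℕ) : ℝ) = (M : ℝ) * (M + 1) / 2 := by
  induction M with
  | zero => simp
  | succ M ih =>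
    rw [Finset.sum_range_succ']
    have : ∀ i, M + 1 - (i + 1) = M - i := fun i => by omega
    simp_rw [this]
    rw [ih]
    push_cast
    ring

/-- contraction on the complement of the Perron vector. -/
private theorem eg_contr (M : ℕ) (w u : ℕ → ℝ) (lam q : ℝ) (hq : 0 < q)
    (hqw : ∑ i ∈ Finset.range M, w i ^ 2 = q)
    (hw : ∀ i < M, ∑ j ∈ Finset.range (M - i), w j = lam * w i)
    (hu : ∑ j ∈ Finset.range M, w j * u j = 0) :
    ∑ i ∈ Finset.range M, (∑ j ∈ Finset.range (M - i), u j) ^ 2 ≤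
      ((M : ℝ) * (M + 1) / 2 - lam ^ 2) * ∑ j ∈ Finset.range M, u j ^ 2 := by
  have h1 : ∀ i ∈ Finset.range M, (∑ j ∈ Finset.range (M - i), u j) ^ 2 ≤
      (∑ j ∈ Finset.range M, ((if i + j < M then 1 else 0) - lam * w i * w j / q) ^ 2) *
        ∑ j ∈ Finset.range M, u j ^ 2 := by
    intro i hi
    have h2 : ∑ j ∈ Finset.range (M - i), u j =
        ∑ j ∈ Finset.range M, ((if i + j < M then 1 else 0) - lam * w i * w j / q) * u j := by
      rw [eg_row M i (Finset.mem_range.1 hi)]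
      have h3 : ∑ j ∈ Finset.range M, ((if i + j < M then (1 : ℝ) else 0) - lam * w i * w j / q)
          * u j = ∑ j ∈ Finset.range M, (if i + j < M then (1 : ℝ) else 0) * u j -
            lam * w i / q * ∑ j ∈ Finset.range M, w j * u j := by
        rw [Finset.mul_sum, ← Finset.sum_sub_distrib]
        apply Finset.sum_congr rfl
        intro j _
        ring
      rw [h3, hu, mul_zero, sub_zero]
    rw [h2]
    exact Finset.sum_mul_sq_le_sq_mul_sq _ _ _
  refine (Finset.sum_le_sum h1).trans ?_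
  rw [← Finset.sum_mul]
  have h4 : ∑ i ∈ Finset.range M, ∑ j ∈ Finset.range M,
      ((if i + j < M then (1 : ℝ) else 0) - lam * w i * w j / q) ^ 2 =
      (M : ℝ) * (M + 1) / 2 - lam ^ 2 := by
    have h5 : ∀ i ∈ Finset.range M, ∑ j ∈ Finset.range M,
        ((if i + j < M then (1 : ℝ) else 0) - lam * w i * w j / q) ^ 2 =
        ((M - i : ℕ) : ℝ) - 2 * lam * w i / q * (lam * w i) + lam ^ 2 * w i ^ 2 / q := by
      intro i hi
      have hi' := Finset.mem_range.1 hi
      have h6 : ∀ j ∈ Finset.range M,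
          ((if i + j < M then (1 : ℝ) else 0) - lam * w i * w j / q) ^ 2 =
          (if i + j < M then 1 else 0) * (1 : ℝ) -
            2 * lam * w i / q * ((if i + j < M then 1 else 0) * w j) +
            lam ^ 2 * w i ^ 2 / q ^ 2 * w j ^ 2 := by
        intro j _
        split_ifs
        · field_simp
          ring
        · field_simp
          ring
      rw [Finset.sum_congr rfl h6, Finset.sum_add_distrib, Finset.sum_sub_distrib,
        ← eg_row M i hi' (fun _ => (1 : ℝ)), ← Finset.mul_sum, ← eg_row M i hi' w, hw i hi',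
        ← Finset.mul_sum, hqw]
      simp only [Finset.sum_const, Finset.card_range, nsmul_eq_mul, mul_one]
      field_simp
    rw [Finset.sum_congr rfl h5, Finset.sum_add_distrib, Finset.sum_sub_distrib, eg_tri]
    have h7 : ∑ i ∈ Finset.range M, 2 * lam * w i / q * (lam * w i) = 2 * lam ^ 2 := by
      have : ∀ i ∈ Finset.range M, 2 * lam * w i / q * (lam * w i) =
          2 * lam ^ 2 / q * w i ^ 2 := by
        intro i _
        ring
      rw [Finset.sum_congr rfl this, ← Finset.mul_sum, hqw]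
      field_simp
    have h8 : ∑ i ∈ Finset.range M, lam ^ 2 * w i ^ 2 / q = lam ^ 2 := by
      have : ∀ i ∈ Finset.range M, lam ^ 2 * w i ^ 2 / q = lam ^ 2 / q * w i ^ 2 := by
        intro i _
        ring
      rw [Finset.sum_congr rfl this, ← Finset.mul_sum, hqw]
      field_simp
    rw [h7, h8]
    ring
  rw [h4]

/-- Approximation of `Om n M` by the Perron part.
Proof. `A` is the `M × M` matrix `A i j = 1` if `i + j < M`, else `0` (indices from 0), symmetric, and
`Om n M = 1ᵀ A^{n-1} 1` (`W M n i = (A^n 1)_i`). Let `N = 2M+1`, `x = π/(2N)`, `w i = cos((2i+1)x)`, `λ = 1/(2 sin x)`.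
Then `A w = λ w`: `2 sin x ∑_{j<M-i} cos((2j+1)x) = sin(2(M-i)x) = sin(Nx - (2i+1)x) = cos((2i+1)x)` as `Nx = π/2`.
`∑ w i = sin(2Mx)/(2 sin x) = cos x/(2 sin x)`, `∑ (w i)² = M/2 + sin(4Mx)/(4 sin 2x) = N/4`.
Let `B = A - λ w wᵀ/|w|²`; then `B w = 0`, `A^{n-1} = λ^{n-1} w wᵀ/|w|² + B^{n-1}` and
`‖B‖_F² = ‖A‖_F² - λ² = M(M+1)/2 - λ² ≤ λ²/4`, because
`(M(M+1)/2)/λ² = 2M(M+1) sin²x ≤ 2M(M+1)π²/(4(2M+1)²) ≤ π²/8 < 5/4`.
So `|Om n M - λ^{n-1} (∑w)²/|w|²| = |1ᵀ B^{n-1} 1| ≤ M ‖B‖_F^{n-1} ≤ M (λ/2)^{n-1}` (`n ≥ 2`; operator norm ≤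
Frobenius norm, or direct Cauchy-Schwarz), `λ^{n-1} (∑w)²/|w|² = ff n N`, and
`M (λ/2)^{n-1}/ff n N = M N tan²x 2^{1-n} ≤ 2 * 2^{1-n}`: `M N tan² x ≤ (N²/2) tan² x ≤ 2` since
`tan x ≤ 1.2 x` for `x ≤ π/6` (`(N x)² = π²/4`, `(π²/8) 1.44 < 2`). -/
theorem Om_approx {n M : ℕ} (hn : 2 ≤ n) (hM : 1 ≤ M) :
    |(Om n M : ℝ) - ff n (2 * M + 1)| ≤ 2 * (1 / 2) ^ (n - 1) * ff n (2 * M + 1) := by
  have hMr : (1 : ℝ) ≤ M := by exact_mod_cast hM
  set N : ℝ := 2 * M + 1 with hN
  have hN3 : 3 ≤ N := by rw [hN]; linarith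
  have hN0 : 0 < N := by linarith
  set x : ℝ := π / (2 * N) with hx
  have hπ : π < 3.15 := pi_lt_d2
  have hπ0 : 0 < π := pi_pos
  have hπ2 : π ^ 2 < 10 := by nlinarith
  have hx0 : 0 < x := by positivity
  have hNx : N * x = π / 2 := by rw [hx]; field_simp
  have hx6 : x ≤ π / 6 := by
    rw [hx]
    apply div_le_div_of_nonneg_left hπ0.le (by norm_num) (by linarith)
  have hxpi : x < π / 2 := by linarith
  have hsin : 0 < sin x := sin_pos_of_pos_of_lt_pi hx0 (by linarith)
  have hcos : 0 < cos x := cos_pos_of_mem_Ioo ⟨by linarith, hxpi⟩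
  set lam : ℝ := 1 / (2 * sin x) with hlam
  have hlam0 : 0 < lam := by positivity
  set w : ℕ → ℝ := fun i => cos ((2 * (i : ℝ) + 1) * x) with hw
  -- eigenvector
  have heig : ∀ i < M, ∑ j ∈ Finset.range (M - i), w j = lam * w i := by
    intro i hi
    have h1 := eg_sum x (M - i)
    have h2 : 2 * ((M - i : ℕ) : ℝ) * x = π / 2 - (2 * (i : ℝ) + 1) * x := by
      rw [Nat.cast_sub hi.le, ← hNx, hN]
      ring
    rw [h2, sin_pi_div_two_sub] at h1
    show _ = 1 / (2 * sin x) * cos ((2 * (i : ℝ) + 1) * x)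
    rw [← h1]
    field_simp
    rfl
  -- sum of squares
  have hsq : ∑ i ∈ Finset.range M, w i ^ 2 = N / 4 := by
    have h1 := eg_sum (2 * x) M
    have h2 : 2 * (M : ℝ) * (2 * x) = π - 2 * x := by
      have : π = 2 * (N * x) := by rw [hNx]; ring
      rw [this, hN]
      ring
    rw [h2, sin_pi_sub] at h1
    have h3 : 0 < sin (2 * x) := sin_pos_of_pos_of_lt_pi (by linarith) (by linarith)
    have h4 : ∑ j ∈ Finset.range M, cos ((2 * (j : ℝ) + 1) * (2 * x)) = 1 / 2 := by
      have h5 : (∑ j ∈ Finset.range M, cos ((2 * (j : ℝ) + 1) * (2 * x)) - 1 / 2) *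
          (2 * sin (2 * x)) = 0 := by
        rw [sub_mul, h1]
        ring
      rcases mul_eq_zero.1 h5 with h6 | h6
      · linarith
      · exfalso
        linarith
    have h7 : ∀ i ∈ Finset.range M, w i ^ 2 =
        1 / 2 + 1 / 2 * cos ((2 * (i : ℝ) + 1) * (2 * x)) := by
      intro i _
      rw [hw]
      simp only
      rw [cos_sq]
      ring_nf
    rw [Finset.sum_congr rfl h7, Finset.sum_add_distrib, ← Finset.mul_sum, h4]
    simp only [Finset.sum_const, Finset.card_range, nsmul_eq_mul]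
    rw [hN]
    ring
  have hw0 : w 0 = cos x := by
    rw [hw]
    simp
  have hsum : ∑ i ∈ Finset.range M, w i = lam * cos x := by
    have := heig 0 (by omega)
    rw [hw0] at this
    simpa using this
  set a : ℝ := lam * cos x / (N / 4) with ha
  -- the remainders
  set u : ℕ → ℕ → ℝ := fun n i => (W M n i : ℝ) - a * lam ^ n * w i with hu
  have hrec : ∀ n, ∀ i < M, u (n + 1) i = ∑ j ∈ Finset.range (M - i), u n j := by
    intro n i hi
    rw [hu]
    simp only
    rw [Finset.sum_sub_distrib, ← Finset.mul_sum, heig i hi]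
    simp only [W]
    push_cast
    ring
  have horth : ∀ n, ∑ j ∈ Finset.range M, w j * u n j = 0 := by
    intro n
    induction n with
    | zero =>
      have h1 : ∀ j ∈ Finset.range M, w j * u 0 j = w j - a * w j ^ 2 := by
        intro j _
        rw [hu]
        simp only [W]
        push_cast
        ring
      rw [Finset.sum_congr rfl h1, Finset.sum_sub_distrib, ← Finset.mul_sum, hsum, hsq, ha]
      field_simp
      ring
    | succ n ih =>
      have h1 : ∀ j ∈ Finset.range M, w j * u (n + 1) j =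
          w j * ∑ i ∈ Finset.range (M - j), u n i := by
        intro j hj
        rw [hrec n j (Finset.mem_range.1 hj)]
      rw [Finset.sum_congr rfl h1, eg_swap]
      have h2 : ∀ j ∈ Finset.range M, u n j * ∑ i ∈ Finset.range (M - j), w i =
          lam * (w j * u n j) := by
        intro j hj
        rw [heig j (Finset.mem_range.1 hj)]
        ring
      rw [Finset.sum_congr rfl h2, ← Finset.mul_sum, ih, mul_zero]
  have hsinx : sin x ≤ x := sin_le hx0.le
  have hx2 : x ^ 2 * (4 * N ^ 2) = π ^ 2 := by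
    have : x ^ 2 * (4 * N ^ 2) = 4 * (N * x) ^ 2 := by ring
    rw [this, hNx]
    ring
  have hx2' : x ^ 2 * (4 * N ^ 2) ≤ 10 := by rw [hx2]; exact hπ2.le
  have hs2 : sin x ^ 2 ≤ x ^ 2 := by
    apply pow_le_pow_left₀ hsin.le hsinx
  have hs2' : sin x ^ 2 * (4 * N ^ 2) ≤ 10 :=
    (mul_le_mul_of_nonneg_right hs2 (by positivity)).trans hx2'
  have hbeta : (M : ℝ) * (M + 1) / 2 - lam ^ 2 ≤ (lam / 2) ^ 2 := by
    have h1 : lam ^ 2 * (4 * sin x ^ 2) = 1 := by
      rw [hlam]
      field_simp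
      ring
    have h2 : N ^ 2 ≤ 10 * lam ^ 2 := by
      have h3 : N ^ 2 = lam ^ 2 * (sin x ^ 2 * (4 * N ^ 2)) := by
        calc N ^ 2 = N ^ 2 * (lam ^ 2 * (4 * sin x ^ 2)) := by rw [h1, mul_one]
          _ = _ := by ring
      rw [h3]
      have := mul_le_mul_of_nonneg_left hs2' (sq_nonneg lam)
      linarith
    rw [hN] at h2
    nlinarith
  have hE : ∀ n, ∑ j ∈ Finset.range M, u n j ^ 2 ≤ M * ((lam / 2) ^ 2) ^ n := by
    intro n
    induction n with
    | zero =>
      have h1 : ∀ j ∈ Finset.range M, u 0 j ^ 2 = 1 - 2 * a * w j + a ^ 2 * w j ^ 2 := by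
        intro j _
        rw [hu]
        simp only [W]
        push_cast
        ring
      rw [Finset.sum_congr rfl h1, Finset.sum_add_distrib, Finset.sum_sub_distrib,
        ← Finset.mul_sum, ← Finset.mul_sum, hsum, hsq]
      simp only [Finset.sum_const, Finset.card_range, nsmul_eq_mul, mul_one, pow_zero]
      have h2 : a * (N / 4) = lam * cos x := by
        rw [ha]
        field_simp
      have h3 : a ^ 2 * (N / 4) = a * (lam * cos x) := by
        rw [← h2]
        ring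
      rw [h3]
      have h4 : 0 ≤ a * (lam * cos x) := by
        rw [ha]
        positivity
      nlinarith
    | succ n ih =>
      have h1 : ∀ j ∈ Finset.range M, u (n + 1) j ^ 2 =
          (∑ i ∈ Finset.range (M - j), u n i) ^ 2 := by
        intro j hj
        rw [hrec n j (Finset.mem_range.1 hj)]
      rw [Finset.sum_congr rfl h1]
      refine (eg_contr M w (u n) lam (N / 4) (by positivity) hsq heig (horth n)).trans ?_
      have h2 : 0 ≤ ∑ j ∈ Finset.range M, u n j ^ 2 :=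
        Finset.sum_nonneg fun j _ => sq_nonneg _
      calc ((M : ℝ) * (M + 1) / 2 - lam ^ 2) * ∑ j ∈ Finset.range M, u n j ^ 2
          ≤ (lam / 2) ^ 2 * ∑ j ∈ Finset.range M, u n j ^ 2 :=
            mul_le_mul_of_nonneg_right hbeta h2
        _ ≤ (lam / 2) ^ 2 * (M * ((lam / 2) ^ 2) ^ n) :=
            mul_le_mul_of_nonneg_left ih (sq_nonneg _)
        _ = M * ((lam / 2) ^ 2) ^ (n + 1) := by ring
  obtain ⟨m, rfl⟩ : ∃ m, n = m + 1 := ⟨n - 1, by omega⟩
  have hff : ff (m + 1) N = a * lam ^ (m + 1) * w 0 := by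
    have h1 : ff (m + 1) N = 1 / (tan x ^ 2 * N * (2 * sin x) ^ m) := by
      unfold ff
      rw [← hx]
      simp
    have h2 : lam ^ (m + 1) = lam * (1 / (2 * sin x) ^ m) := by
      rw [pow_succ', hlam, one_div_pow]
    have h3 : 0 < (2 * sin x) ^ m := by positivity
    rw [h1, hw0, ha, h2, hlam, tan_eq_sin_div_cos]
    generalize (2 * sin x) ^ m = P at h3
    field_simp
    ring
  have hOm : (Om (m + 1) M : ℝ) - ff (m + 1) N = ∑ j ∈ Finset.range M, u m j := by
    rw [hff]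
    have := hrec m 0 (by omega)
    rw [Nat.sub_zero] at this
    rw [← this]
    rfl
  have hbd : |(Om (m + 1) M : ℝ) - ff (m + 1) N| ≤ M * (lam / 2) ^ m := by
    rw [hOm]
    apply abs_le_of_sq_le_sq _ (by positivity)
    have h1 := sq_sum_le_card_mul_sum_sq (s := Finset.range M) (f := u m)
    rw [Finset.card_range] at h1
    refine h1.trans ?_
    have h2 := mul_le_mul_of_nonneg_left (hE m) (show (0 : ℝ) ≤ M by positivity)
    refine h2.trans (le_of_eq ?_)
    rw [mul_pow, ← pow_mul, ← pow_mul, mul_comm 2 m]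
    ring
  refine hbd.trans ?_
  have hcx : 31 / 36 ≤ cos x := by
    have h1 := one_sub_sq_div_two_le_cos (x := x)
    have h2 : x ^ 2 ≤ 10 / 36 := by
      have h3 : x ^ 2 * (4 * 3 ^ 2) ≤ x ^ 2 * (4 * N ^ 2) := by
        apply mul_le_mul_of_nonneg_left _ (sq_nonneg x)
        nlinarith
      linarith
    linarith
  rw [hff, hw0, ha]
  have h3 : (M : ℝ) * (lam / 2) ^ m = (1 / 2) ^ m * (M * lam ^ m) := by
    have h5 : lam / 2 = 1 / 2 * lam := by ring
    rw [h5, mul_pow]
    ring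
  have h4 : 2 * (1 / 2 : ℝ) ^ (m + 1 - 1) * (lam * cos x / (N / 4) * lam ^ (m + 1) * cos x) =
      (1 / 2) ^ m * (8 * lam ^ 2 * cos x ^ 2 / N * lam ^ m) := by
    rw [Nat.add_sub_cancel]
    ring_nf
  rw [h3, h4]
  apply mul_le_mul_of_nonneg_left _ (by positivity)
  apply mul_le_mul_of_nonneg_right _ (by positivity)
  rw [le_div_iff₀ hN0]
  have h5 : lam ^ 2 * (4 * sin x ^ 2) = 1 := by
    rw [hlam]
    field_simp
    ring
  -- `M N ≤ 2 cos² / sin²`
  have h6 : (M : ℝ) * N * sin x ^ 2 ≤ 5 / 4 := by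
    have h7 : (M : ℝ) * N * sin x ^ 2 * (4 * N) ≤ 10 * M := by
      have := mul_le_mul_of_nonneg_left hs2' (show (0 : ℝ) ≤ M by positivity)
      nlinarith
    have h8 : 10 * (M : ℝ) ≤ 5 / 4 * (4 * N) := by
      rw [hN]
      linarith
    have h9 := h7.trans h8
    exact le_of_mul_le_mul_right h9 (by positivity)
  have h10 : 5 / 4 ≤ 2 * cos x ^ 2 := by nlinarith
  have h11 : (M : ℝ) * N * sin x ^ 2 ≤ 2 * cos x ^ 2 := h6.trans h10
  have h12 : (M : ℝ) * N = (M * N * sin x ^ 2) * (4 * lam ^ 2) := by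
    calc (M : ℝ) * N = M * N * (lam ^ 2 * (4 * sin x ^ 2)) := by rw [h5, mul_one]
      _ = _ := by ring
  rw [h12]
  have h13 := mul_le_mul_of_nonneg_right h11 (show 0 ≤ 4 * lam ^ 2 by positivity)
  refine h13.trans (le_of_eq ?_)
  ring

theorem ff_pos {n : ℕ} {x : ℝ} (hx : 1 < x) : 0 < ff n x := by
  have h0 : 0 < x := by linarith
  have h1 : 0 < π / (2 * x) := by
    have := pi_pos
    positivity
  have h2 : π / (2 * x) < π / 2 := by
    apply div_lt_div_of_pos_left pi_pos (by norm_num) (by linarith)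
  have h3 : 0 < sin (π / (2 * x)) := sin_pos_of_pos_of_lt_pi h1 (by linarith [pi_pos])
  have h4 : 0 < tan (π / (2 * x)) := tan_pos_of_pos_of_lt_pi_div_two h1 h2
  unfold ff
  positivity

end Pool.Agent.Lib.Zigzag
end

section

set_option autoImplicit false

namespace Pool.Agent.Lib.Zigzag

open Real

theorem hasSum_one_sub_X_mul (F : PowerSeries ℝ) {s t : ℝ}
    (hF : HasSum (fun m : ℕ => PowerSeries.coeff m F * t ^ m) s) :
    HasSum (fun m : ℕ => PowerSeries.coeff m ((1 - PowerSeries.X) * F) * t ^ m) ((1 - t) * s) := by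
  have h1 : HasSum (fun m : ℕ => PowerSeries.coeff m (PowerSeries.X * F) * t ^ m) (t * s) := by
    rw [← hasSum_nat_add_iff' 1]
    have h2 : (fun m : ℕ => PowerSeries.coeff (m + 1) (PowerSeries.X * F) * t ^ (m + 1))
        = fun m : ℕ => t * (PowerSeries.coeff m F * t ^ m) := by
      funext m
      rw [PowerSeries.coeff_succ_X_mul]
      ring
    rw [h2]
    have h3 := hF.mul_left t
    simpa using h3
  have h4 := hF.sub h1
  have h5 : (fun m : ℕ => PowerSeries.coeff m ((1 - PowerSeries.X) * F) * t ^ m)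
      = fun m : ℕ => PowerSeries.coeff m F * t ^ m - PowerSeries.coeff m (PowerSeries.X * F) * t ^ m := by
    funext m
    rw [sub_mul, one_mul, map_sub, sub_mul]
  rw [h5]
  have h6 : (1 - t) * s = s - t * s := by ring
  rw [h6]
  exact h4

theorem hasSum_one_sub_X_pow_mul (F : PowerSeries ℝ) {s t : ℝ}
    (hF : HasSum (fun m : ℕ => PowerSeries.coeff m F * t ^ m) s) (k : ℕ) :
    HasSum (fun m : ℕ => PowerSeries.coeff m ((1 - PowerSeries.X) ^ k * F) * t ^ m)
      ((1 - t) ^ k * s) := by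
  induction k with
  | zero => simpa using hF
  | succ k ih =>
    have h := hasSum_one_sub_X_mul _ ih
    have e1 : (1 - PowerSeries.X : PowerSeries ℝ) ^ (k + 1) * F
        = (1 - PowerSeries.X) * ((1 - PowerSeries.X) ^ k * F) := by ring
    have e2 : (1 - t) ^ (k + 1) * s = (1 - t) * ((1 - t) ^ k * s) := by ring
    rw [e1, e2]
    exact h

theorem summable_Om {n : ℕ} {t : ℝ} (ht : |t| < 1) :
    Summable (fun m : ℕ => (Om n (m + 1) : ℝ) * t ^ m) := by
  have h1 : Summable (fun m : ℕ => ((m : ℝ) ^ n * |t| ^ m)) :=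
    summable_pow_mul_geometric_of_norm_lt_one n (by simpa using ht)
  by_cases ht0 : t = 0
  · subst ht0
    apply summable_of_ne_finset_zero (s := {0})
    intro b hb
    have : b ≠ 0 := by simpa using hb
    simp [this]
  · have hpos : 0 < |t| := abs_pos.mpr ht0
    have h2 : Summable (fun m : ℕ => (((m + 1 : ℕ) : ℝ) ^ n * |t| ^ (m + 1))) :=
      (summable_nat_add_iff 1).2 h1
    have h3 : Summable (fun m : ℕ => |t|⁻¹ * (((m + 1 : ℕ) : ℝ) ^ n * |t| ^ (m + 1))) :=
      h2.mul_left _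
    refine Summable.of_norm_bounded h3 ?_
    intro m
    rw [norm_mul, norm_pow, Real.norm_eq_abs, Real.norm_eq_abs, abs_of_nonneg (Nat.cast_nonneg _)]
    have h4 : |t|⁻¹ * (((m + 1 : ℕ) : ℝ) ^ n * |t| ^ (m + 1)) = ((m + 1 : ℕ) : ℝ) ^ n * |t| ^ m := by
      rw [pow_succ]
      field_simp
    rw [h4]
    apply mul_le_mul_of_nonneg_right _ (by positivity)
    exact_mod_cast Om_le_pow n (m + 1)

/-- Proof: the series converges absolutely for `|t| < 1` (`Om n M ≤ M^n`), and
`(∑ Om n (m+1) t^m) (1-t)^{n+1}` has the coefficients of `h` (Cauchy product of the series and the polynomial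
`(1-t)^{n+1}`; e.g. evaluate the identity of power series). -/
theorem hasSum_of_isH {n : ℕ} {h : Polynomial ℤ} (hh : IsH n h) {t : ℝ} (ht : |t| < 1) :
    HasSum (fun m : ℕ => (Om n (m + 1) : ℝ) * t ^ m) ((HR h).eval t / (1 - t) ^ (n + 1)) := by
  have hsum := summable_Om (n := n) ht
  set s : ℝ := ∑' m : ℕ, (Om n (m + 1) : ℝ) * t ^ m with hs
  have hF : HasSum (fun m : ℕ => PowerSeries.coeff m
      (PowerSeries.mk (fun m : ℕ => (Om n (m + 1) : ℝ))) * t ^ m) s := by
    simpa [PowerSeries.coeff_mk] using hsum.hasSum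
  have h1 := hasSum_one_sub_X_pow_mul _ hF (n + 1)
  have h2 : ((1 - PowerSeries.X) ^ (n + 1) * PowerSeries.mk (fun m : ℕ => (Om n (m + 1) : ℝ)) :
      PowerSeries ℝ) = (↑(HR h) : PowerSeries ℝ) := by
    have h3 := congrArg (PowerSeries.map (Int.castRingHom ℝ)) hh
    rw [map_mul, map_pow, map_sub, map_one, PowerSeries.map_X] at h3
    have h4 : PowerSeries.map (Int.castRingHom ℝ)
        (PowerSeries.mk (fun m : ℕ => ((Om n (m + 1) : ℕ) : ℤ)))
        = PowerSeries.mk (fun m : ℕ => (Om n (m + 1) : ℝ)) := by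
      ext m
      simp
    rw [h4] at h3
    rw [mul_comm, h3]
    unfold HR
    rw [Polynomial.polynomial_map_coe]
  rw [h2] at h1
  have h5 : HasSum (fun m : ℕ => PowerSeries.coeff m (↑(HR h) : PowerSeries ℝ) * t ^ m)
      ((HR h).eval t) := by
    rw [Polynomial.eval_eq_sum_range]
    have h6 : ∑ i ∈ Finset.range ((HR h).natDegree + 1), (HR h).coeff i * t ^ i
        = ∑ i ∈ Finset.range ((HR h).natDegree + 1),
          PowerSeries.coeff i (↑(HR h) : PowerSeries ℝ) * t ^ i := by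
      apply Finset.sum_congr rfl
      intro i _
      rw [Polynomial.coeff_coe]
    rw [h6]
    apply hasSum_sum_of_ne_finset_zero
    intro b hb
    rw [Polynomial.coeff_coe]
    rw [Finset.mem_range, not_lt] at hb
    rw [Polynomial.coeff_eq_zero_of_natDegree_lt (by omega), zero_mul]
  have h7 : (1 - t) ^ (n + 1) * s = (HR h).eval t := h1.unique h5
  have h8 : (1 - t) ^ (n + 1) ≠ 0 := by
    apply pow_ne_zero
    have := (abs_lt.mp ht).2
    linarith
  have h9 : (HR h).eval t / (1 - t) ^ (n + 1) = s := by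
    rw [← h7]
    field_simp
  rw [h9]
  exact hsum.hasSum

/-- Proof: `YY n v = ∑_m (-1)^m Om n m e^{-(2m+1)v}`, the term `m = 0` vanishes, shift by one. -/
theorem YY_eq_of_isH {n : ℕ} (hn : 1 ≤ n) {h : Polynomial ℤ} (hh : IsH n h) {v : ℝ} (hv : 0 < v) :
    YY n v = -exp (-(3 * v)) * ((HR h).eval (-exp (-(2 * v))) / (1 + exp (-(2 * v))) ^ (n + 1)) := by
  have he : exp (-(2 * v)) < 1 := by
    rw [Real.exp_lt_one_iff]
    linarith
  have ht : |(-exp (-(2 * v)))| < 1 := by
    rw [abs_neg, abs_of_pos (Real.exp_pos _)]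
    exact he
  have h1 := (hasSum_of_isH hh ht).mul_left (-exp (-(3 * v)))
  rw [sub_neg_eq_add] at h1
  unfold YY
  have h2 : HasSum (fun m : ℕ => (-1) ^ m * (Om n m : ℝ) * exp (-((2 * (m : ℝ) + 1) * v)))
      (-exp (-(3 * v)) * ((HR h).eval (-exp (-(2 * v))) / (1 + exp (-(2 * v))) ^ (n + 1))) := by
    rw [← hasSum_nat_add_iff' 1]
    simp only [Finset.sum_range_one, Om_zero_right hn, Nat.cast_zero, mul_zero, zero_mul, sub_zero]
    have h10 : (fun m : ℕ => (-1 : ℝ) ^ (m + 1) * (Om n (m + 1) : ℝ)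
        * exp (-((2 * ((m + 1 : ℕ) : ℝ) + 1) * v)))
        = fun m : ℕ => -exp (-(3 * v)) * ((Om n (m + 1) : ℝ) * (-exp (-(2 * v))) ^ m) := by
      funext m
      have h3 : exp (-((2 * ((m + 1 : ℕ) : ℝ) + 1) * v))
          = exp (-(3 * v)) * (exp (-(2 * v))) ^ m := by
        rw [← Real.exp_nat_mul, ← Real.exp_add]
        congr 1
        push_cast
        ring
      rw [h3, neg_pow (exp (-(2 * v))), pow_succ]
      ring
    rw [h10]
    exact h1
  exact h2.tsum_eq

end Pool.Agent.Lib.Zigzag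
end

section

set_option autoImplicit false

namespace Pool.Agent.Lib.Zigzag

open Real

section LogC

/-- Words of length `n` with levels `< M`, consecutive sums `< M` and first letter `< M - i`. -/
private def wdSet (n M i : ℕ) : Finset (Fin n → ℕ) :=
  (Fintype.piFinset fun _ : Fin n => Finset.range M).filter
    (fun g => (∀ l : Fin n, ∀ h : l.val + 1 < n, g l + g ⟨l.val + 1, h⟩ < M) ∧
      ∀ h : 0 < n, g ⟨0, h⟩ < M - i)

private theorem mem_wdSet {n M i : ℕ} {g : Fin n → ℕ} :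
    g ∈ wdSet n M i ↔ (∀ l, g l < M) ∧
      (∀ l : Fin n, ∀ h : l.val + 1 < n, g l + g ⟨l.val + 1, h⟩ < M) ∧
      ∀ h : 0 < n, g ⟨0, h⟩ < M - i := by
  unfold wdSet
  rw [Finset.mem_filter, Fintype.mem_piFinset]
  simp only [Finset.mem_range]

private theorem card_wdSet (n M : ℕ) : ∀ i, (wdSet n M i).card = W M n i := by
  induction n with
  | zero =>
    intro i
    have : wdSet 0 M i = {fun l => l.elim0} := by
      ext g
      rw [mem_wdSet, Finset.mem_singleton]
      constructor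
      · intro _; funext l; exact l.elim0
      · intro _
        exact ⟨fun l => l.elim0, fun l => l.elim0, fun h => absurd h (lt_irrefl _)⟩
    rw [this]
    simp [W]
  | succ n ih =>
    intro i
    show _ = ∑ j ∈ Finset.range (M - i), W M n j
    rw [Finset.card_eq_sum_card_fiberwise (f := fun g : Fin (n + 1) → ℕ => g 0)
      (t := Finset.range (M - i))]
    · apply Finset.sum_congr rfl
      intro j hj
      rw [Finset.mem_range] at hj
      rw [← ih j]
      apply Finset.card_nbij' (fun g => Fin.tail g) (fun g => (Fin.cons j g : Fin (n + 1) → ℕ))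
      · intro g hg
        rw [Finset.mem_coe, Finset.mem_filter, mem_wdSet] at hg
        obtain ⟨⟨h1, h2, h3⟩, h4⟩ := hg
        rw [Finset.mem_coe, mem_wdSet]
        refine ⟨fun l => h1 l.succ, fun l h => ?_, fun h => ?_⟩
        · exact h2 l.succ (by simp; omega)
        · have := h2 0 (by simp; omega)
          have e : (⟨(0 : Fin (n + 1)).val + 1, by simp; omega⟩ : Fin (n + 1)) = Fin.succ ⟨0, h⟩ := by
            ext; simp
          rw [e, h4] at this
          show g (Fin.succ ⟨0, h⟩) < M - j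
          omega
      · intro g hg
        rw [Finset.mem_coe, mem_wdSet] at hg
        obtain ⟨h1, h2, h3⟩ := hg
        rw [Finset.mem_coe, Finset.mem_filter, mem_wdSet]
        beta_reduce
        refine ⟨⟨?_, ?_, ?_⟩, ?_⟩
        · intro l
          refine Fin.cases ?_ (fun l => ?_) l
          · simp only [Fin.cons_zero]; omega
          · simp only [Fin.cons_succ]; exact h1 l
        · intro l
          refine Fin.cases ?_ (fun l => ?_) l
          · intro h
            have hn : 0 < n := by simp at h; omega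
            have e : (⟨(0 : Fin (n + 1)).val + 1, h⟩ : Fin (n + 1)) = Fin.succ ⟨0, hn⟩ := by
              ext; simp
            rw [e, Fin.cons_zero, Fin.cons_succ]
            have := h3 hn
            omega
          · intro h
            have hn : l.val + 1 < n := by simp at h; omega
            have e : (⟨l.succ.val + 1, h⟩ : Fin (n + 1)) = Fin.succ ⟨l.val + 1, hn⟩ := by
              ext; simp
            rw [e, Fin.cons_succ, Fin.cons_succ]
            exact h2 l hn
        · intro h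
          have e : (⟨0, h⟩ : Fin (n + 1)) = 0 := rfl
          rw [e, Fin.cons_zero]
          exact hj
        · simp
      · intro g hg
        rw [Finset.mem_coe, Finset.mem_filter] at hg
        obtain ⟨_, h4⟩ := hg
        show (Fin.cons j (Fin.tail g) : Fin (n + 1) → ℕ) = g
        rw [← h4]
        exact Fin.cons_self_tail g
      · intro g hg
        exact Fin.tail_cons _ _
    · intro g hg
      rw [Finset.mem_coe, mem_wdSet] at hg
      rw [Finset.mem_coe, Finset.mem_range]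
      exact hg.2.2 (Nat.succ_pos n)

/-- Order preserving maps of the fence into `[c, c + M)`. -/
private def feSet (n c M : ℕ) : Finset (Fin n → ℕ) :=
  (Fintype.piFinset fun _ : Fin n => Finset.Ico c (c + M)).filter
    (fun f => ∀ l : Fin n, ∀ h : l.val + 1 < n,
      (l.val % 2 = 0 → f l ≤ f ⟨l.val + 1, h⟩) ∧ (l.val % 2 = 1 → f ⟨l.val + 1, h⟩ ≤ f l))

private theorem mem_feSet {n c M : ℕ} {f : Fin n → ℕ} :
    f ∈ feSet n c M ↔ (∀ l, c ≤ f l ∧ f l < c + M) ∧
      (∀ l : Fin n, ∀ h : l.val + 1 < n,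
      (l.val % 2 = 0 → f l ≤ f ⟨l.val + 1, h⟩) ∧ (l.val % 2 = 1 → f ⟨l.val + 1, h⟩ ≤ f l)) := by
  unfold feSet
  rw [Finset.mem_filter, Fintype.mem_piFinset]
  simp only [Finset.mem_Ico]

private theorem card_feSet (n c M : ℕ) : (feSet n c M).card = Om n M := by
  unfold Om
  rw [← card_wdSet n M 0]
  apply Finset.card_nbij'
    (fun f l => if l.val % 2 = 0 then f l - c else c + M - 1 - f l)
    (fun g l => if l.val % 2 = 0 then c + g l else c + M - 1 - g l)
  · intro f hf
    rw [Finset.mem_coe, mem_feSet] at hf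
    obtain ⟨h1, h2⟩ := hf
    rw [Finset.mem_coe, mem_wdSet]
    refine ⟨fun l => ?_, fun l h => ?_, fun h => ?_⟩
    · have := h1 l
      dsimp only
      split_ifs <;> omega
    · have a := h1 l
      have b := h1 ⟨l.val + 1, h⟩
      have cc := h2 l h
      dsimp only
      rcases Nat.mod_two_eq_zero_or_one l.val with h0 | h0
      · have h0' : (l.val + 1) % 2 = 1 := by omega
        have := cc.1 h0
        rw [if_pos h0, if_neg (by omega)]
        omega
      · have h0' : (l.val + 1) % 2 = 0 := by omega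
        have := cc.2 h0
        rw [if_neg (by omega), if_pos h0']
        omega
    · have := h1 ⟨0, h⟩
      dsimp only
      rw [if_pos (by simp)]
      omega
  · intro g hg
    rw [Finset.mem_coe, mem_wdSet] at hg
    obtain ⟨h1, h2, h3⟩ := hg
    rw [Finset.mem_coe, mem_feSet]
    refine ⟨fun l => ?_, fun l h => ⟨fun h0 => ?_, fun h0 => ?_⟩⟩
    · have := h1 l
      dsimp only
      split_ifs <;> omega
    · have h0' : (l.val + 1) % 2 = 1 := by omega
      have := h2 l h
      dsimp only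
      rw [if_pos h0, if_neg (by omega)]
      omega
    · have h0' : (l.val + 1) % 2 = 0 := by omega
      have := h2 l h
      dsimp only
      rw [if_neg (by omega : ¬ l.val % 2 = 0), if_pos h0']
      omega
  · intro f hf
    rw [Finset.mem_coe, mem_feSet] at hf
    obtain ⟨h1, h2⟩ := hf
    funext l
    have := h1 l
    dsimp only
    split_ifs <;> omega
  · intro g hg
    rw [Finset.mem_coe, mem_wdSet] at hg
    obtain ⟨h1, h2, h3⟩ := hg
    funext l
    have := h1 l
    dsimp only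
    split_ifs <;> omega

/-- Log-concavity of the order polynomial. Proof: `Om n M` is the number of `f : Fin n → ℕ` (or ℤ) with
`f i < M` and `f i ≤ f (i+1)` for even `i`, `f (i+1) ≤ f i` for odd `i` (flip every second coordinate of the
word). Let `s` be the set of such `f` with `0 ≤ f ≤ M+1` and `t` the set with `1 ≤ f ≤ M` (a translate
of the set for `M` levels). For `f ∈ s`, `g ∈ t`: `f ⊓ g` is order preserving with values in `[0, M]`
and `f ⊔ g` with values in `[1, M+1]`. So `Finset.le_card_infs_mul_card_sups` (Daykin inequality, in the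
distributive lattice `Fin n → ℕ`) gives `#s * #t ≤ #(s ⊼ t) * #(s ⊻ t) ≤ (Om n (M+1))^2`. -/
theorem Om_logconcave (n M : ℕ) : Om n (M + 2) * Om n M ≤ Om n (M + 1) ^ 2 := by
  classical
  rw [← card_feSet n 0 (M + 2), ← card_feSet n 1 M, sq]
  refine le_trans (Finset.le_card_infs_mul_card_sups _ _) ?_
  refine Nat.mul_le_mul ?_ ?_
  · rw [← card_feSet n 0 (M + 1)]
    apply Finset.card_le_card
    intro f hf
    rw [Finset.mem_infs] at hf
    obtain ⟨a, ha, b, hb, rfl⟩ := hf
    rw [mem_feSet] at ha hb ⊢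
    obtain ⟨a1, a2⟩ := ha
    obtain ⟨b1, b2⟩ := hb
    refine ⟨fun l => ?_, fun l h => ⟨fun h0 => ?_, fun h0 => ?_⟩⟩
    · have := a1 l
      have := b1 l
      simp only [Pi.inf_apply]
      omega
    · have := (a2 l h).1 h0
      have := (b2 l h).1 h0
      simp only [Pi.inf_apply]
      omega
    · have := (a2 l h).2 h0
      have := (b2 l h).2 h0
      simp only [Pi.inf_apply]
      omega
  · rw [← card_feSet n 1 (M + 1)]
    apply Finset.card_le_card
    intro f hf
    rw [Finset.mem_sups] at hf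
    obtain ⟨a, ha, b, hb, rfl⟩ := hf
    rw [mem_feSet] at ha hb ⊢
    obtain ⟨a1, a2⟩ := ha
    obtain ⟨b1, b2⟩ := hb
    refine ⟨fun l => ?_, fun l h => ⟨fun h0 => ?_, fun h0 => ?_⟩⟩
    · have := a1 l
      have := b1 l
      simp only [Pi.sup_apply]
      omega
    · have := (a2 l h).1 h0
      have := (b2 l h).1 h0
      simp only [Pi.sup_apply]
      omega
    · have := (a2 l h).2 h0
      have := (b2 l h).2 h0
      simp only [Pi.sup_apply]
      omega

end LogC

end Pool.Agent.Lib.Zigzag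
end

section

set_option autoImplicit false

namespace Pool.Agent.Lib.Zigzag

/-- Coefficients of `(1 - X)^(-x)`. -/
noncomputable def zcD (x : ℝ) (j : ℕ) : ℝ := ∏ i ∈ Finset.range j, ((x + i) / ((i : ℝ) + 1))

theorem zcD_zero (x : ℝ) : zcD x 0 = 1 := by simp [zcD]

theorem zcD_succ (x : ℝ) (j : ℕ) : zcD x (j + 1) = zcD x j * ((x + j) / ((j : ℝ) + 1)) := by
  unfold zcD
  rw [Finset.prod_range_succ]

theorem zcD_succ' (x : ℝ) (j : ℕ) : ((j : ℝ) + 1) * zcD x (j + 1) = (x + j) * zcD x j := by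
  rw [zcD_succ]
  have : (j : ℝ) + 1 ≠ 0 := by positivity
  field_simp

theorem zcD_nonneg {x : ℝ} (hx : 0 ≤ x) (j : ℕ) : 0 ≤ zcD x j := by
  unfold zcD
  exact Finset.prod_nonneg fun i _ => by positivity

/-- Vandermonde. -/
theorem zcD_add (x y : ℝ) (J : ℕ) :
    ∑ p ∈ Finset.HasAntidiagonal.antidiagonal J, zcD x p.1 * zcD y p.2 = zcD (x + y) J := by
  induction J with
  | zero => simp [zcD_zero]
  | succ J ih =>
    have hJ : ((J : ℝ) + 1) ≠ 0 := by positivity
    apply mul_left_cancel₀ hJ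
    rw [zcD_succ', ← ih, Finset.mul_sum, Finset.mul_sum]
    have h1 : ∑ p ∈ Finset.HasAntidiagonal.antidiagonal (J + 1), (p.1 : ℝ) * (zcD x p.1 * zcD y p.2) =
        ∑ p ∈ Finset.HasAntidiagonal.antidiagonal J, (x + p.1) * (zcD x p.1 * zcD y p.2) := by
      rw [Finset.Nat.sum_antidiagonal_succ]
      simp only [Nat.cast_zero, zero_mul, zero_add]
      refine Finset.sum_congr rfl fun p _ => ?_
      have := zcD_succ' x p.1
      push_cast
      linear_combination (zcD y p.2) * this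
    have h2 : ∑ p ∈ Finset.HasAntidiagonal.antidiagonal (J + 1), (p.2 : ℝ) * (zcD x p.1 * zcD y p.2) =
        ∑ p ∈ Finset.HasAntidiagonal.antidiagonal J, (y + p.2) * (zcD x p.1 * zcD y p.2) := by
      rw [Finset.Nat.sum_antidiagonal_succ']
      simp only [Nat.cast_zero, zero_mul, zero_add]
      refine Finset.sum_congr rfl fun p _ => ?_
      have := zcD_succ' y p.2
      push_cast
      linear_combination (zcD x p.1) * this
    have h3 : ∑ p ∈ Finset.HasAntidiagonal.antidiagonal (J + 1), ((J : ℝ) + 1) * (zcD x p.1 * zcD y p.2) =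
        ∑ p ∈ Finset.HasAntidiagonal.antidiagonal (J + 1), (p.1 : ℝ) * (zcD x p.1 * zcD y p.2) +
        ∑ p ∈ Finset.HasAntidiagonal.antidiagonal (J + 1), (p.2 : ℝ) * (zcD x p.1 * zcD y p.2) := by
      rw [← Finset.sum_add_distrib]
      refine Finset.sum_congr rfl fun p hp => ?_
      have h4 : p.1 + p.2 = J + 1 := Finset.HasAntidiagonal.mem_antidiagonal.1 hp
      have h5 : (p.1 : ℝ) + p.2 = J + 1 := by exact_mod_cast h4
      rw [← h5]
      ring
    rw [h3, h1, h2, ← Finset.sum_add_distrib]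
    refine Finset.sum_congr rfl fun p hp => ?_
    have h4 : p.1 + p.2 = J := Finset.HasAntidiagonal.mem_antidiagonal.1 hp
    have h5 : (p.1 : ℝ) + p.2 = J := by exact_mod_cast h4
    rw [← h5]
    ring

theorem zc_al_nonneg (i : ℕ) : 0 ≤ al i := by unfold al; positivity

theorem zc_al_le (i : ℕ) : al i ≤ zcD (1 / 6) i := by
  induction i with
  | zero => simp [al, zcD_zero]
  | succ i ih =>
    have h1 : al (i + 1) =
        al i * ((2 * (i : ℝ) + 1) ^ 2 / ((2 * (i : ℝ) + 2) * (2 * (i : ℝ) + 3))) := by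
      have h2 : ((i : ℝ) + 1) * (Nat.centralBinom (i + 1) : ℝ) =
          2 * (2 * (i : ℝ) + 1) * (Nat.centralBinom i : ℝ) := by
        exact_mod_cast Nat.succ_mul_centralBinom_succ i
      have h3 : (Nat.centralBinom (i + 1) : ℝ) =
          2 * (2 * (i : ℝ) + 1) * (Nat.centralBinom i : ℝ) / ((i : ℝ) + 1) := by
        rw [eq_div_iff (by positivity)]
        linarith
      unfold al
      rw [h3]
      push_cast
      have h4 : (i : ℝ) + 1 ≠ 0 := by positivity
      have h5 : 2 * (i : ℝ) + 1 ≠ 0 := by positivity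
      have h6 : 2 * (i : ℝ) + 3 ≠ 0 := by positivity
      have h7 : 2 * (i : ℝ) + 2 ≠ 0 := by positivity
      have h8 : 2 * ((i : ℝ) + 1) + 1 ≠ 0 := by positivity
      rw [pow_succ (4 : ℝ) i]
      field_simp
      ring
    rw [h1, zcD_succ]
    refine mul_le_mul ih ?_ (by positivity) (zcD_nonneg (by norm_num) i)
    rw [div_le_div_iff₀ (by positivity) (by positivity)]
    have hi : (0 : ℝ) ≤ i := Nat.cast_nonneg i
    nlinarith [mul_nonneg hi hi]

theorem zc_coeff_aS (n : ℕ) :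
    PowerSeries.coeff n aS = if Odd n then al (n / 2) else 0 := by
  unfold aS
  rw [PowerSeries.coeff_mk]

/-- the recursion in `k`. -/
theorem zc_gc_succ (k j : ℕ) : gc (k + 1 + 2 * j) (k + 1) =
    ∑ i ∈ Finset.range (j + 1), al i * gc (k + 2 * (j - i)) k := by
  have h1 : gc (k + 1 + 2 * j) (k + 1) =
      ∑ b ∈ Finset.range (k + 1 + 2 * j + 1),
        PowerSeries.coeff b aS * gc (k + 1 + 2 * j - b) k := by
    unfold gc
    rw [pow_succ', PowerSeries.coeff_mul, Finset.Nat.sum_antidiagonal_eq_sum_range_succ_mk]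
  have hinj : Set.InjOn (fun i : ℕ => 2 * i + 1) (Finset.range (j + 1) : Set ℕ) := by
    intro a _ b _ hab
    have : 2 * a + 1 = 2 * b + 1 := hab
    omega
  have hsub : (Finset.range (j + 1)).image (fun i : ℕ => 2 * i + 1) ⊆
      Finset.range (k + 1 + 2 * j + 1) := by
    intro b hb
    rw [Finset.mem_image] at hb
    obtain ⟨i, hi, rfl⟩ := hb
    rw [Finset.mem_range] at hi ⊢
    omega
  rw [h1, ← Finset.sum_subset hsub, Finset.sum_image hinj]
  · refine Finset.sum_congr rfl fun i hi => ?_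
    rw [Finset.mem_range] at hi
    have h2 : Odd (2 * i + 1) := ⟨i, rfl⟩
    rw [zc_coeff_aS, if_pos h2]
    have h3 : (2 * i + 1) / 2 = i := by omega
    have h4 : k + 1 + 2 * j - (2 * i + 1) = k + 2 * (j - i) := by omega
    rw [h3, h4]
  · intro b hb hb'
    rw [Finset.mem_range] at hb
    rw [zc_coeff_aS]
    by_cases hodd : Odd b
    · obtain ⟨i, rfl⟩ := hodd
      have hij : j < i := by
        by_contra hcon
        apply hb'
        rw [Finset.mem_image]
        exact ⟨i, Finset.mem_range.2 (by omega), rfl⟩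
      rw [gc_eq_zero (Or.inl (by omega)), mul_zero]
    · rw [if_neg hodd, zero_mul]

theorem zc_gc_le (k : ℕ) : ∀ j : ℕ, gc (k + 2 * j) k ≤ zcD ((k : ℝ) / 6) j := by
  induction k with
  | zero =>
    intro j
    rcases Nat.eq_zero_or_pos j with rfl | hj
    · simp [gc, zcD_zero]
    · have h1 : gc (0 + 2 * j) 0 = 0 := by
        unfold gc
        rw [pow_zero, PowerSeries.coeff_one, if_neg (by omega)]
      rw [h1]
      exact zcD_nonneg (by positivity) j
  | succ k ih =>
    intro j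
    rw [zc_gc_succ]
    have h1 : zcD (((k + 1 : ℕ) : ℝ) / 6) j =
        ∑ i ∈ Finset.range (j + 1), zcD (1 / 6) i * zcD ((k : ℝ) / 6) (j - i) := by
      have h2 : ((k + 1 : ℕ) : ℝ) / 6 = 1 / 6 + (k : ℝ) / 6 := by push_cast; ring
      rw [h2, ← zcD_add, Finset.Nat.sum_antidiagonal_eq_sum_range_succ_mk]
    rw [h1]
    refine Finset.sum_le_sum fun i _ => ?_
    exact mul_le_mul (zc_al_le i) (ih (j - i)) (gc_nonneg _ _)
      (zcD_nonneg (by norm_num) i)

/-- Proof: `al i ≤ ∏_{l<i} (1/6+l)/(l+1)` by induction: `al (i+1)/al i = (2i+1)²/((2i+2)(2i+3))` and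
`3(2i+1)² ≤ (6i+1)(2i+3)`. So `aS/X` is dominated coefficientwise (in X²) by `(1-X²)^{-1/6}`, its k-th power by
`(1-X²)^{-k/6}`; coefficients of the latter: `∏_{l<j}(k/6+l)/(l+1)`. The product rule
`∑_{i+j=J} [a]_i/i! [b]_j/j! = [a+b]_J/J!` for rising factorials `[a]_i` (Vandermonde; prove by induction on J or
use Mathlib `Ring.choose`/`ascPochhammer` Vandermonde) gives the induction on `k`. -/
theorem gc_le (k j : ℕ) :
    gc (k + 2 * j) k ≤ ∏ i ∈ Finset.range j, (((k : ℝ) / 6 + i) / ((i : ℝ) + 1)) :=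
  zc_gc_le k j

/-- Proof: `ac_formula`, `|a - b| ≤ max a b` for `a, b ≥ 0`, `gc_le` for `k+1`; and
`(n-1) Q_{j-1} ≤ (n+1) Q_j` for `Q_j = ∏_{i<j} ((k+1)/6+i)/(i+1)`, since this is
`(n-1) j ≤ (n+1) ((k+1)/6 + j - 1)`, i.e. (with `n + 1 = k + 1 + 2j`) `(k+1) ≤ (n+1)(k+1)/6`, true for `n ≥ 5`. -/
theorem abs_ac_le (k j : ℕ) (hn : 5 ≤ k + 2 * j) :
    |ac (k + 2 * j) k| ≤ (((k : ℝ) + 2 * j + 1) / ((k : ℝ) + 1)) *
      ∏ i ∈ Finset.range j, ((((k : ℝ) + 1) / 6 + i) / ((i : ℝ) + 1)) := by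
  change |ac (k + 2 * j) k| ≤ (((k : ℝ) + 2 * j + 1) / ((k : ℝ) + 1)) * zcD (((k : ℝ) + 1) / 6) j
  have hk : (0 : ℝ) < (k : ℝ) + 1 := by positivity
  have hf := ac_formula (k + 2 * j) k (by omega)
  have hD : ((k + 1 : ℕ) : ℝ) / 6 = ((k : ℝ) + 1) / 6 := by push_cast; ring
  have hA : gc (k + 2 * j + 1) (k + 1) ≤ zcD (((k : ℝ) + 1) / 6) j := by
    have := zc_gc_le (k + 1) j
    rw [hD] at this
    have h2 : k + 2 * j + 1 = k + 1 + 2 * j := by omega
    rw [h2]
    exact this
  have hA0 : 0 ≤ gc (k + 2 * j + 1) (k + 1) := gc_nonneg _ _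
  have hB0 : 0 ≤ gc (k + 2 * j - 1) (k + 1) := gc_nonneg _ _
  have hn' : (5 : ℝ) ≤ (k : ℝ) + 2 * j := by exact_mod_cast hn
  have hB : ((k : ℝ) + 2 * j - 1) * gc (k + 2 * j - 1) (k + 1) ≤
      ((k : ℝ) + 2 * j + 1) * zcD (((k : ℝ) + 1) / 6) j := by
    rcases Nat.eq_zero_or_pos j with rfl | hj
    · rw [gc_eq_zero (Or.inl (by omega)), mul_zero]
      exact mul_nonneg (by linarith) (zcD_nonneg (by positivity) _)
    · obtain ⟨i, rfl⟩ : ∃ i, j = i + 1 := ⟨j - 1, by omega⟩
      have h1 := zc_gc_le (k + 1) i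
      rw [hD] at h1
      have h2 : k + 2 * (i + 1) - 1 = k + 1 + 2 * i := by omega
      rw [h2]
      have h3 := zcD_succ' (((k : ℝ) + 1) / 6) i
      have hQ : 0 ≤ zcD (((k : ℝ) + 1) / 6) i := zcD_nonneg (by positivity) _
      push_cast at hn' ⊢
      have hi : (0 : ℝ) < (i : ℝ) + 1 := by positivity
      have h4 : ((k : ℝ) + 2 * (i + 1) - 1) * gc (k + 1 + 2 * i) (k + 1) ≤
          ((k : ℝ) + 2 * (i + 1) - 1) * zcD (((k : ℝ) + 1) / 6) i :=
        mul_le_mul_of_nonneg_left h1 (by linarith)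
      refine h4.trans ?_
      have h5 : ((i : ℝ) + 1) * (((k : ℝ) + 2 * (i + 1) - 1) * zcD (((k : ℝ) + 1) / 6) i) ≤
          ((i : ℝ) + 1) * (((k : ℝ) + 2 * (i + 1) + 1) * zcD (((k : ℝ) + 1) / 6) (i + 1)) := by
        have h6 : ((i : ℝ) + 1) * (((k : ℝ) + 2 * (i + 1) + 1) * zcD (((k : ℝ) + 1) / 6) (i + 1)) =
            ((k : ℝ) + 2 * (i + 1) + 1) * ((((k : ℝ) + 1) / 6 + i) * zcD (((k : ℝ) + 1) / 6) i) := by
          rw [← h3]; ring
        rw [h6]
        have h7 : 0 ≤ (((k : ℝ) + 2 * (i + 1) + 1) * (((k : ℝ) + 1) / 6 + i) -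
            ((i : ℝ) + 1) * ((k : ℝ) + 2 * (i + 1) - 1)) := by
          have h8 : (((k : ℝ) + 2 * (i + 1) + 1) * (((k : ℝ) + 1) / 6 + i) -
            ((i : ℝ) + 1) * ((k : ℝ) + 2 * (i + 1) - 1)) =
              ((k : ℝ) + 1) * (((k : ℝ) + 2 * (i + 1)) - 5) / 6 := by ring
          rw [h8]
          apply div_nonneg _ (by norm_num)
          exact mul_nonneg hk.le (by linarith)
        nlinarith [mul_nonneg h7 hQ]
      exact le_of_mul_le_mul_left h5 hi
  push_cast at hf
  have hAA : ((k : ℝ) + 2 * j + 1) * gc (k + 2 * j + 1) (k + 1) ≤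
      ((k : ℝ) + 2 * j + 1) * zcD (((k : ℝ) + 1) / 6) j :=
    mul_le_mul_of_nonneg_left hA (by linarith)
  have hAA0 : 0 ≤ ((k : ℝ) + 2 * j + 1) * gc (k + 2 * j + 1) (k + 1) :=
    mul_nonneg (by linarith) hA0
  have hBB0 : 0 ≤ ((k : ℝ) + 2 * j - 1) * gc (k + 2 * j - 1) (k + 1) :=
    mul_nonneg (by linarith) hB0
  rw [div_mul_eq_mul_div, le_div_iff₀ hk, ← abs_of_pos hk, ← abs_mul, mul_comm, hf, abs_of_pos hk,
    abs_le]
  constructor <;> linarith

end Pool.Agent.Lib.Zigzag
end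

section

set_option autoImplicit false

namespace Pool.Agent.Lib.Zigzag

open Real

/-- Proof: `rr θ² = (π²/4)/sin²θ`. Let `θ_b² = (π²/4)(4n/3)/(n+1)²`; `θ = th n m ≥ θ_b` since `3(2m+1)² ≥ 4n`, and
`sin θ ≥ sin θ_b ≥ θ_b - θ_b³/6` (sin increasing on `[0, π/2]`). `n sin² θ ≥ (π²/4)(4/3)(n/(n+1))²(1-θ_b²/6)²`,
`θ_b² ≤ 0.0323`, `(100/101)² * (4/3) * (1-0.00539)² * 0.78 = 1.0088 > 1`. Holds for every `θ` in
`[th n m, π/2]`. -/
theorem rr_sq_le {n m : ℕ} (hn : 100 ≤ n) (hm : 4 * n ≤ 3 * (2 * m + 1) ^ 2) {θ : ℝ}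
    (h0 : th n m ≤ θ) (h1 : θ ≤ π / 2) : rr θ ^ 2 ≤ 0.78 * n := by
  have hn' : (100 : ℝ) ≤ n := by exact_mod_cast hn
  have hm' : 4 * (n : ℝ) ≤ 3 * (2 * (m : ℝ) + 1) ^ 2 := by exact_mod_cast hm
  have hπ := Real.pi_pos
  have hπ2 : π ^ 2 < 9.8697 := by
    have h := Real.pi_lt_d6
    nlinarith
  set s : ℝ := Real.sqrt ((n : ℝ) / 3) with hs
  have hs0 : 0 < s := Real.sqrt_pos.2 (by positivity)
  have hs2 : s ^ 2 = (n : ℝ) / 3 := Real.sq_sqrt (by positivity)
  set x : ℝ := π / ((n : ℝ) + 1) * s with hx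
  have hn1 : (0 : ℝ) < (n : ℝ) + 1 := by positivity
  have hx0 : 0 < x := by positivity
  have hx2 : x ^ 2 = π ^ 2 * n / (3 * ((n : ℝ) + 1) ^ 2) := by
    rw [hx, mul_pow, div_pow, hs2]
    field_simp
  have hx2' : x ^ 2 ≤ 0.0326 := by
    rw [hx2, div_le_iff₀ (by positivity)]
    have h1 : π ^ 2 * n ≤ 9.8697 * n := by
      apply mul_le_mul_of_nonneg_right hπ2.le (by positivity)
    nlinarith
  have hx1 : x ≤ 1 := by nlinarith
  have hxth : x ≤ th n m := by
    have h2 : 2 * s ≤ 2 * (m : ℝ) + 1 := by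
      apply le_of_sq_le_sq _ (by positivity)
      nlinarith
    have : x = 2 * s * π / (2 * ((n : ℝ) + 1)) := by
      rw [hx]; field_simp
    rw [this, th]
    gcongr
  have hsin : sin x ≤ sin θ := by
    apply Real.sin_le_sin_of_le_of_le_pi_div_two (by linarith) h1 (hxth.trans h0)
  have h3 := Real.sin_gt_sub_cube hx0
  have h4 : x * 0.99185 ≤ sin x := by
    have : x * 0.99185 ≤ x - x ^ 3 / 6 := by
      have : x - x ^ 3 / 6 = x * (1 - x ^ 2 / 6) := by ring
      rw [this]
      apply mul_le_mul_of_nonneg_left _ hx0.le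
      linarith
    linarith
  have h5 : x * 0.99185 ≤ sin θ := h4.trans hsin
  have hsθ : 0 < sin θ := lt_of_lt_of_le (by positivity) h5
  have h6 : (x * 0.99185) ^ 2 ≤ sin θ ^ 2 := pow_le_pow_left₀ (by positivity) h5 2
  rw [rr, div_pow, div_le_iff₀ (by positivity)]
  have h7 : 0.78 * (n : ℝ) * (x * 0.99185) ^ 2 ≤ 0.78 * n * sin θ ^ 2 :=
    mul_le_mul_of_nonneg_left h6 (by positivity)
  refine le_trans ?_ h7
  rw [mul_pow, hx2]
  have h8 : (100 / 101 : ℝ) ^ 2 ≤ (n : ℝ) ^ 2 / ((n : ℝ) + 1) ^ 2 := by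
    rw [← div_pow]
    apply pow_le_pow_left₀ (by norm_num)
    rw [div_le_div_iff₀ (by norm_num) hn1]
    linarith
  have h9 : 0.78 * (n : ℝ) * (π ^ 2 * n / (3 * ((n : ℝ) + 1) ^ 2) * 0.99185 ^ 2) =
      π ^ 2 * (0.78 / 3 * 0.99185 ^ 2) * ((n : ℝ) ^ 2 / ((n : ℝ) + 1) ^ 2) := by
    field_simp
  rw [h9]
  have h10 : π ^ 2 * (0.78 / 3 * 0.99185 ^ 2) * (100 / 101 : ℝ) ^ 2 ≤
      π ^ 2 * (0.78 / 3 * 0.99185 ^ 2) * ((n : ℝ) ^ 2 / ((n : ℝ) + 1) ^ 2) :=
    mul_le_mul_of_nonneg_left h8 (by positivity)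
  refine le_trans ?_ h10
  nlinarith [sq_nonneg π]

theorem vv_anti {θ θ' : ℝ} (h0 : 0 < θ) (h1 : θ ≤ θ') (h2 : θ' < π) : vv θ' ≤ vv θ := by
  have hs := Real.sin_pos_of_pos_of_lt_pi h0 (h1.trans_lt h2)
  have hs' := Real.sin_pos_of_pos_of_lt_pi (h0.trans_le h1) h2
  have h3 : 0 ≤ sin (θ' - θ) :=
    Real.sin_nonneg_of_nonneg_of_le_pi (by linarith) (by linarith)
  rw [Real.sin_sub] at h3
  unfold vv
  apply mul_le_mul_of_nonneg_left _ (by positivity)
  rw [div_le_div_iff₀ hs' hs]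
  linarith

theorem vv_pos {θ : ℝ} (h0 : 0 < θ) (h1 : θ < π / 2) : 0 < vv θ := by
  have hs := Real.sin_pos_of_pos_of_lt_pi h0 (by linarith [Real.pi_pos])
  have hc := Real.cos_pos_of_mem_Ioo ⟨by linarith [Real.pi_pos], h1⟩
  have hπ := Real.pi_pos
  unfold vv
  positivity

/-- Proof: `(n+1) th n m = (2m+1)π/2`. -/
theorem sin_th (n m : ℕ) : sin (((n : ℝ) + 1) * th n m) = (-1) ^ m := by
  have hn1 : (n : ℝ) + 1 ≠ 0 := by positivity
  have h1 : ((n : ℝ) + 1) * th n m = m * π + π / 2 := by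
    rw [th]; field_simp
  rw [h1, Real.sin_add_pi_div_two, Real.cos_nat_mul_pi]

/-- The middle angle for even `n = 2m`: `θ = π/2 - 1/(2(n+1))`,
`(n+1)θ = mπ + π/2 - 1/2`, `sin = (-1)^m cos(1/2)`, `cos(1/2) ≥ 1 - 1/8 = 0.875`. -/
theorem sin_mid {n m : ℕ} (hn : n = 2 * m) :
    0.8 ≤ (-1) ^ m * sin (((n : ℝ) + 1) * (π / 2 - 1 / (2 * ((n : ℝ) + 1)))) := by
  have hn1 : (n : ℝ) + 1 ≠ 0 := by positivity
  have hn2 : (n : ℝ) = 2 * m := by rw [hn]; push_cast; ring
  have h1 : ((n : ℝ) + 1) * (π / 2 - 1 / (2 * ((n : ℝ) + 1))) = (π / 2 - 1 / 2) + m * π := by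
    have : ((n : ℝ) + 1) * (π / 2 - 1 / (2 * ((n : ℝ) + 1))) = ((n : ℝ) + 1) * π / 2 - 1 / 2 := by
      field_simp
    rw [this, hn2]; ring
  rw [h1, Real.sin_add_nat_mul_pi, ← mul_assoc, ← mul_pow, Real.sin_pi_div_two_sub]
  have h2 := Real.one_sub_sq_div_two_le_cos (x := (1 / 2 : ℝ))
  norm_num at h2 ⊢
  linarith

/-- `cot θ ≤ 1/θ`, i.e. `tan θ ≥ θ`. -/
theorem vv_le {θ : ℝ} (h0 : 0 < θ) (h1 : θ < π / 2) : vv θ ≤ π / (2 * θ) := by
  have hs := Real.sin_pos_of_pos_of_lt_pi h0 (by linarith [Real.pi_pos])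
  have hc := Real.cos_pos_of_mem_Ioo ⟨by linarith [Real.pi_pos], h1⟩
  have hπ := Real.pi_pos
  have h2 := Real.lt_tan h0 h1
  rw [Real.tan_eq_sin_div_cos, lt_div_iff₀ hc] at h2
  have h3 : cos θ / sin θ ≤ 1 / θ := by
    rw [div_le_div_iff₀ hs h0]
    linarith
  calc vv θ = π / 2 * (cos θ / sin θ) := rfl
    _ ≤ π / 2 * (1 / θ) := mul_le_mul_of_nonneg_left h3 (by positivity)
    _ = π / (2 * θ) := by field_simp

end Pool.Agent.Lib.Zigzag
end
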