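import Pool.Agent.Lib.MP_7d55f0_co.ZDefs
import Pool.Agent.Lib.MP_7d55f0_co.ZCoefA

section

set_option autoImplicit false

namespace Pool.Agent.Lib.Zigzag

open Real

theorem zgf_W_le (M : ℕ) : ∀ n i : ℕ, W M n i ≤ M ^ n := by
  intro n
  induction n with
  | zero => intro i; simp [W]
  | succ n ih =>
    intro i
    calc W M (n + 1) i = ∑ j ∈ Finset.range (M - i), W M n j := rfl
      _ ≤ ∑ j ∈ Finset.range (M - i), M ^ n := Finset.sum_le_sum fun j _ => ih j
      _ = (M - i) * M ^ n := by rw [Finset.sum_const, Finset.card_range, smul_eq_mul]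
      _ ≤ M * M ^ n := Nat.mul_le_mul_right _ (Nat.sub_le _ _)
      _ = M ^ (n + 1) := by ring

theorem zgf_summable (M : ℕ) (y : ℝ) (hy : (M : ℝ) * |y| < 1) (i : ℕ) :
    Summable (fun n : ℕ => (W M n i : ℝ) * y ^ n) := by
  have h1 : Summable (fun n : ℕ => ((M : ℝ) * |y|) ^ n) :=
    summable_geometric_of_lt_one (by positivity) hy
  refine Summable.of_norm_bounded h1 (fun n => ?_)
  rw [Real.norm_eq_abs, abs_mul, abs_pow, mul_pow, Nat.abs_cast]
  apply mul_le_mul_of_nonneg_right _ (by positivity)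
  exact_mod_cast zgf_W_le M n i

/-- the generating function -/
noncomputable def zgfG (M : ℕ) (y : ℝ) (i : ℕ) : ℝ := ∑' n : ℕ, (W M n i : ℝ) * y ^ n

theorem zgfG_eq (M : ℕ) (y : ℝ) (hy : (M : ℝ) * |y| < 1) (i : ℕ) :
    zgfG M y i = 1 + y * ∑ j ∈ Finset.range (M - i), zgfG M y j := by
  have h1 := (zgf_summable M y hy i).tsum_eq_zero_add
  have h2 : ∀ n : ℕ, (W M (n + 1) i : ℝ) * y ^ (n + 1)
      = y * ∑ j ∈ Finset.range (M - i), (W M n j : ℝ) * y ^ n := by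
    intro n
    have h3 : W M (n + 1) i = ∑ j ∈ Finset.range (M - i), W M n j := rfl
    rw [h3, Nat.cast_sum, Finset.sum_mul, Finset.mul_sum]
    apply Finset.sum_congr rfl
    intro j _
    ring
  unfold zgfG
  rw [h1]
  simp only [h2]
  rw [tsum_mul_left, Summable.tsum_finsetSum (fun j _ => zgf_summable M y hy j)]
  simp [W]

theorem zgf_cos (ψ : ℝ) (L : ℕ) :
    2 * sin ψ * ∑ j ∈ Finset.range L, cos ((2 * (j : ℝ) + 1) * ψ) = sin (2 * (L : ℝ) * ψ) := by
  induction L with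
  | zero => simp
  | succ L ih =>
    rw [Finset.sum_range_succ, mul_add, ih]
    have e1 : 2 * ((L + 1 : ℕ) : ℝ) * ψ = (2 * (L : ℝ) + 1) * ψ + ψ := by push_cast; ring
    have e2 : 2 * (L : ℝ) * ψ = (2 * (L : ℝ) + 1) * ψ - ψ := by ring
    rw [e1, e2, sin_add, sin_sub]
    ring

theorem zgf_sin (ψ : ℝ) (L : ℕ) :
    2 * sin ψ * ∑ j ∈ Finset.range L, sin ((2 * (j : ℝ) + 1) * ψ)
      = 1 - cos (2 * (L : ℝ) * ψ) := by
  induction L with
  | zero => simp
  | succ L ih =>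
    rw [Finset.sum_range_succ, mul_add, ih]
    have e1 : 2 * ((L + 1 : ℕ) : ℝ) * ψ = (2 * (L : ℝ) + 1) * ψ + ψ := by push_cast; ring
    have e2 : 2 * (L : ℝ) * ψ = (2 * (L : ℝ) + 1) * ψ - ψ := by ring
    rw [e1, e2, cos_add, cos_sub]
    ring

/-- the trigonometric solution -/
noncomputable def zgfu (N ψ : ℝ) (i : ℕ) : ℝ :=
  (1 + sin (N * ψ)) / cos (N * ψ) * cos ((2 * (i : ℝ) + 1) * ψ) - sin ((2 * (i : ℝ) + 1) * ψ)

theorem zgfu_eq (M : ℕ) (ψ : ℝ) (hc : cos ((2 * (M : ℝ) + 1) * ψ) ≠ 0) (i : ℕ) (hi : i ≤ M) :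
    zgfu (2 * (M : ℝ) + 1) ψ i
      = 1 + 2 * sin ψ * ∑ j ∈ Finset.range (M - i), zgfu (2 * (M : ℝ) + 1) ψ j := by
  set N : ℝ := 2 * (M : ℝ) + 1 with hN
  have h1 : 2 * sin ψ * ∑ j ∈ Finset.range (M - i), zgfu N ψ j
      = (1 + sin (N * ψ)) / cos (N * ψ)
          * (2 * sin ψ * ∑ j ∈ Finset.range (M - i), cos ((2 * (j : ℝ) + 1) * ψ))
        - 2 * sin ψ * ∑ j ∈ Finset.range (M - i), sin ((2 * (j : ℝ) + 1) * ψ) := by
    unfold zgfu
    rw [Finset.sum_sub_distrib, ← Finset.mul_sum]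
    ring
  rw [h1, zgf_cos, zgf_sin]
  have e1 : 2 * ((M - i : ℕ) : ℝ) * ψ = N * ψ - (2 * (i : ℝ) + 1) * ψ := by
    rw [Nat.cast_sub hi, hN]
    ring
  rw [e1, sin_sub, cos_sub]
  unfold zgfu
  have h2 := sin_sq_add_cos_sq (N * ψ)
  set s := sin (N * ψ) with hs
  set c := cos (N * ψ) with hcc
  have h3 : (1 + s) / c * s + c = (1 + s) / c := by
    field_simp
    linarith
  have h4 : (1 + s) / c * c = 1 + s := by
    field_simp
  set a := cos ((2 * (i : ℝ) + 1) * ψ) with ha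
  set b := sin ((2 * (i : ℝ) + 1) * ψ) with hb
  have h5 : 1 + ((1 + s) / c * (s * a - c * b) - (1 - (c * a + s * b)))
      = a * ((1 + s) / c * s + c) - b * ((1 + s) / c * c) + s * b := by ring
  rw [h5, h3, h4]
  ring

theorem zgf_unique (M : ℕ) (y : ℝ) (hy : (M : ℝ) * |y| < 1) (D : ℕ → ℝ)
    (hD : ∀ i ≤ M, D i = y * ∑ j ∈ Finset.range (M - i), D j) : D 0 = 0 := by
  set B := ∑ j ∈ Finset.range M, |D j| with hB
  have hB0 : 0 ≤ B := Finset.sum_nonneg fun _ _ => abs_nonneg _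
  have h1 : ∀ i ≤ M, |D i| ≤ |y| * B := by
    intro i hi
    rw [hD i hi, abs_mul]
    apply mul_le_mul_of_nonneg_left _ (abs_nonneg _)
    refine (Finset.abs_sum_le_sum_abs _ _).trans ?_
    apply Finset.sum_le_sum_of_subset_of_nonneg
    · exact Finset.range_mono (Nat.sub_le _ _)
    · intro j _ _
      exact abs_nonneg _
  have h2 : B ≤ (M : ℝ) * (|y| * B) := by
    calc B ≤ ∑ j ∈ Finset.range M, |y| * B :=
          Finset.sum_le_sum fun j hj => h1 j (Finset.mem_range.1 hj).le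
      _ = (M : ℝ) * (|y| * B) := by rw [Finset.sum_const, Finset.card_range, nsmul_eq_mul]
  have h3 : B = 0 := by nlinarith
  have h4 := h1 0 (Nat.zero_le _)
  rw [h3, mul_zero] at h4
  exact abs_eq_zero.1 (le_antisymm h4 (abs_nonneg _))

/-- Generating function of `Om n M` in `n`.
Proof. Let `N = 2M+1`, `ψ = arcsin (y/2)`, so `y = 2 sin ψ`, `cos (N ψ) ≠ 0` because
`N|ψ| ≤ N (π/2) |y|/2 < π/2`. Put `E = (1 + sin Nψ)/cos Nψ`, `u i = E cos((2i+1)ψ) - sin((2i+1)ψ)`.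
Then for all `i ≤ M`: `u i = 1 + y ∑_{j < M-i} u j`: multiply out with
`2 sin ψ ∑_{j<L} cos((2j+1)ψ) = sin(2Lψ)`, `2 sin ψ ∑_{j<L} sin((2j+1)ψ) = 1 - cos(2Lψ)` and
`2(M-i) = N - (2i+1)`. Let `G i = ∑' n, W M n i * y^n` (summable: `W M n i ≤ M^n`, `|y| M < 1`); it satisfies
the same equations (recursion of `W`). The differences `D i = G i - u i` satisfy
`|D i| ≤ |y| M max_{j<M} |D j|`, so they vanish for `i < M` and then for all `i ≤ M`. Take `i = 0`:
`u 0 = E cos ψ - sin ψ`. (For `M = 0` both sides are 1.) -/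
theorem gf (M : ℕ) (y : ℝ) (hy : |y| < 1 / (2 * (M : ℝ) + 1)) :
    HasSum (fun n : ℕ => (Om n M : ℝ) * y ^ n)
      ((1 / cos ((2 * (M : ℝ) + 1) * arcsin (y / 2)) + tan ((2 * (M : ℝ) + 1) * arcsin (y / 2)))
        * cos (arcsin (y / 2)) - y / 2) := by
  have hN : (0 : ℝ) < 2 * (M : ℝ) + 1 := by positivity
  have hNy : (2 * (M : ℝ) + 1) * |y| < 1 := by
    rw [lt_div_iff₀ hN] at hy
    linarith
  have hM0 : (0 : ℝ) ≤ M := Nat.cast_nonneg M
  have hy0 := abs_nonneg y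
  have hMy : (M : ℝ) * |y| < 1 := by nlinarith
  have hy1 : |y| < 1 := by nlinarith
  obtain ⟨hya, hyb⟩ := abs_lt.1 hy1
  set ψ := arcsin (y / 2) with hψ
  have hsin : sin ψ = y / 2 := Real.sin_arcsin (by linarith) (by linarith)
  have hψ1 : |ψ| ≤ π / 2 := by
    rw [abs_le]
    exact ⟨Real.neg_pi_div_two_le_arcsin _, Real.arcsin_le_pi_div_two _⟩
  have hψ2 : 2 / π * |ψ| ≤ |y| / 2 := by
    have h1 := Real.mul_abs_le_abs_sin hψ1
    rw [hsin, abs_div, abs_of_pos (by norm_num : (0 : ℝ) < 2)] at h1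
    exact h1
  have hpi := Real.pi_pos
  have hψ3 : |ψ| ≤ π / 2 * (|y| / 2) := by
    have h1 : π / 2 * (2 / π * |ψ|) ≤ π / 2 * (|y| / 2) :=
      mul_le_mul_of_nonneg_left hψ2 (by positivity)
    have h2 : π / 2 * (2 / π * |ψ|) = |ψ| := by
      field_simp
    linarith
  have hNψ : |(2 * (M : ℝ) + 1) * ψ| < π / 2 := by
    rw [abs_mul, abs_of_pos hN]
    calc (2 * (M : ℝ) + 1) * |ψ| ≤ (2 * (M : ℝ) + 1) * (π / 2 * (|y| / 2)) :=
          mul_le_mul_of_nonneg_left hψ3 hN.le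
      _ = π / 4 * ((2 * (M : ℝ) + 1) * |y|) := by ring
      _ ≤ π / 4 * 1 := mul_le_mul_of_nonneg_left hNy.le (by positivity)
      _ < π / 2 := by linarith
  have hcos : cos ((2 * (M : ℝ) + 1) * ψ) ≠ 0 := by
    have h1 := abs_lt.1 hNψ
    exact (Real.cos_pos_of_mem_Ioo ⟨by linarith [h1.1], h1.2⟩).ne'
  have hD : ∀ i ≤ M, zgfG M y i - zgfu (2 * (M : ℝ) + 1) ψ i
      = y * ∑ j ∈ Finset.range (M - i), (zgfG M y j - zgfu (2 * (M : ℝ) + 1) ψ j) := by
    intro i hi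
    rw [zgfG_eq M y hMy i, zgfu_eq M ψ hcos i hi, hsin, Finset.sum_sub_distrib]
    ring
  have h0 := zgf_unique M y hMy (fun i => zgfG M y i - zgfu (2 * (M : ℝ) + 1) ψ i) hD
  have h1 : zgfG M y 0 = zgfu (2 * (M : ℝ) + 1) ψ 0 := sub_eq_zero.1 h0
  have h2 : HasSum (fun n : ℕ => (Om n M : ℝ) * y ^ n) (zgfG M y 0) :=
    (zgf_summable M y hMy 0).hasSum
  rw [h1] at h2
  have h3 : zgfu (2 * (M : ℝ) + 1) ψ 0
      = (1 / cos ((2 * (M : ℝ) + 1) * ψ) + tan ((2 * (M : ℝ) + 1) * ψ)) * cos ψ - y / 2 := by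
    unfold zgfu
    rw [tan_eq_sin_div_cos, Nat.cast_zero, mul_zero, zero_add, one_mul, hsin, add_div]
  rw [h3] at h2
  exact h2

end Pool.Agent.Lib.Zigzag
end

section

set_option autoImplicit false

namespace Pool.Agent.Lib.Zigzag

open Real

private theorem zst_trig {x : ℝ} (hx : |x| < π / 2) :
    1 / cos x + tan x = cos (π * (1 / 4 - x / (2 * π))) / sin (π * (1 / 4 - x / (2 * π))) := by
  have hpi : (0 : ℝ) < π := Real.pi_pos
  rw [abs_lt] at hx
  set a : ℝ := π * (1 / 4 - x / (2 * π)) with ha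
  have ha' : a = π / 4 - x / 2 := by
    rw [ha]
    field_simp
  have hs : 0 < sin a := by
    apply Real.sin_pos_of_pos_of_lt_pi <;> rw [ha'] <;> linarith
  have hc : 0 < cos a := by
    apply Real.cos_pos_of_mem_Ioo
    rw [Set.mem_Ioo, ha']
    constructor <;> linarith
  have h1 : cos x = 2 * sin a * cos a := by
    rw [← Real.sin_two_mul, ← Real.sin_pi_div_two_sub]
    congr 1
    rw [ha']
    ring
  have h2 : sin x = 2 * cos a ^ 2 - 1 := by
    rw [← Real.cos_two_mul, ← Real.cos_pi_div_two_sub]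
    congr 1
    rw [ha']
    ring
  rw [Real.tan_eq_sin_div_cos, h1, h2]
  field_simp
  ring

/-- Partial fractions of sec + tan.
Proof. `1/cos x + tan x = cot(π/4 - x/2)` (half-angle), and with `z = 1/4 - x/(2π)` (not an integer)
Mathlib `cot_series_rep'` gives
`π cot(π z) = 1/z + ∑' n, (1/(z-(n+1)) + 1/(z+(n+1)))`; here `1/(z + (n+1)) = 2π/((4n+5)π/2 - x)` and
`1/(z - (n+1)) = -2π/((4n+3)π/2 + x)`. Take real parts / `Complex.ofReal` casts. -/
theorem secTan_pf {x : ℝ} (hx : |x| < π / 2) :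
    HasSum (fun d : ℕ => 2 / ((4 * (d : ℝ) + 5) * (π / 2) - x) - 2 / ((4 * (d : ℝ) + 3) * (π / 2) + x))
      (1 / cos x + tan x - 2 / (π / 2 - x)) := by
  have hpi : (0 : ℝ) < π := Real.pi_pos
  have hx' := abs_lt.1 hx
  set z : ℝ := 1 / 4 - x / (2 * π) with hz
  have hz0 : 0 < z := by
    rw [hz, sub_pos, div_lt_iff₀ (by positivity)]
    linarith [hx'.2]
  have hz1 : z < 1 := by
    rw [hz]
    have : -(x / (2 * π)) < 1 / 4 := by
      rw [← neg_div, div_lt_iff₀ (by positivity)]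
      linarith [hx'.1]
    linarith
  have hzc : (z : ℂ) ∈ Complex.integerComplement := by
    rintro ⟨m, hm⟩
    have h1 : (m : ℝ) = z := by exact_mod_cast hm
    have h2 : (0 : ℝ) < m := by rw [h1]; exact hz0
    have h3 : (m : ℝ) < 1 := by rw [h1]; exact hz1
    have h4 : 0 < m := by exact_mod_cast h2
    have h5 : m < 1 := by exact_mod_cast h3
    omega
  have hsumm := summable_cotTerm hzc
  have hval := cot_series_rep' hzc
  have h1 : HasSum (fun n : ℕ => (1 / ((z : ℂ) - (n + 1)) + 1 / ((z : ℂ) + (n + 1))))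
      (π * Complex.cot (π * z) - 1 / z) := by
    rw [hval]
    exact hsumm.hasSum
  have h2 : HasSum (fun n : ℕ => (1 / (z - ((n : ℝ) + 1)) + 1 / (z + ((n : ℝ) + 1))))
      (π * (cos (π * z) / sin (π * z)) - 1 / z) := by
    rw [← Complex.hasSum_ofReal]
    convert h1 using 2
    · push_cast
      ring
    · rw [Complex.cot]
      push_cast
      ring
  have h3 := h2.mul_left (1 / π)
  have hf : (fun d : ℕ => 2 / ((4 * (d : ℝ) + 5) * (π / 2) - x)
      - 2 / ((4 * (d : ℝ) + 3) * (π / 2) + x))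
      = fun d : ℕ => 1 / π * (1 / (z - ((d : ℝ) + 1)) + 1 / (z + ((d : ℝ) + 1))) := by
    funext d
    have hd : (0 : ℝ) ≤ d := Nat.cast_nonneg d
    have e1 : (4 * (d : ℝ) + 5) * (π / 2) - x ≠ 0 := by nlinarith
    have e2 : (4 * (d : ℝ) + 3) * (π / 2) + x ≠ 0 := by nlinarith
    have e5 : z + ((d : ℝ) + 1) = ((4 * (d : ℝ) + 5) * (π / 2) - x) / (2 * π) := by
      rw [hz]
      field_simp
      ring
    have e6 : z - ((d : ℝ) + 1) = -((4 * (d : ℝ) + 3) * (π / 2) + x) / (2 * π) := by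
      rw [hz]
      field_simp
      ring
    rw [e5, e6]
    field_simp
    ring
  have hv : 1 / cos x + tan x - 2 / (π / 2 - x)
      = 1 / π * (π * (cos (π * z) / sin (π * z)) - 1 / z) := by
    have ht := zst_trig hx
    rw [← hz] at ht
    rw [ht]
    have e7 : π / 2 - x = 2 * π * z := by
      rw [hz]
      field_simp
      ring
    rw [e7]
    field_simp
  rw [hf, hv]
  exact h3

end Pool.Agent.Lib.Zigzag
end

section

set_option autoImplicit false

namespace Pool.Agent.Lib.Zigzag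

open Real

private theorem zsb_sq : Summable (fun d : ℕ => 1 / ((d : ℝ) + 1) ^ 2) := by
  have h := (summable_nat_add_iff 1).2 (Real.summable_one_div_nat_pow.2 (by norm_num : 1 < 2))
  simpa using h

private theorem zsb_bound0 (d : ℕ) :
    |1 / (4 * (d : ℝ) + 5) + -1 / (4 * (d : ℝ) + 3)| ≤ 1 / ((d : ℝ) + 1) ^ 2 := by
  have hd : (0 : ℝ) ≤ d := Nat.cast_nonneg d
  have h1 : 1 / (4 * (d : ℝ) + 5) + -1 / (4 * (d : ℝ) + 3)
      = -(2 / ((4 * (d : ℝ) + 5) * (4 * (d : ℝ) + 3))) := by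
    field_simp
    ring
  rw [h1, abs_neg, abs_of_pos (by positivity), div_le_div_iff₀ (by positivity) (by positivity)]
  nlinarith

private theorem zsb_bound1 (k d : ℕ) :
    |1 / (4 * (d : ℝ) + 5) ^ (k + 2) + (-1) ^ (k + 2) / (4 * (d : ℝ) + 3) ^ (k + 2)|
      ≤ 1 / ((d : ℝ) + 1) ^ 2 := by
  have hd : (0 : ℝ) ≤ d := Nat.cast_nonneg d
  have h0 : ∀ a : ℝ, 2 * ((d : ℝ) + 1) ≤ a → 1 / a ^ (k + 2) ≤ 1 / (4 * ((d : ℝ) + 1) ^ 2) := by
    intro a ha
    have ha1 : 1 ≤ a := by linarith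
    apply one_div_le_one_div_of_le (by positivity)
    calc 4 * ((d : ℝ) + 1) ^ 2 = (2 * ((d : ℝ) + 1)) ^ 2 := by ring
      _ ≤ a ^ 2 := by gcongr
      _ ≤ a ^ (k + 2) := pow_le_pow_right₀ ha1 (by omega)
  have h1 := h0 (4 * (d : ℝ) + 5) (by linarith)
  have h2 := h0 (4 * (d : ℝ) + 3) (by linarith)
  refine le_trans (abs_add_le _ _) ?_
  have e1 : |(-1 : ℝ) ^ (k + 2)| = 1 := by rw [abs_pow, abs_neg, abs_one, one_pow]
  rw [abs_div, abs_div, e1, abs_one,
    abs_of_pos (by positivity : (0 : ℝ) < (4 * (d : ℝ) + 5) ^ (k + 2)),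
    abs_of_pos (by positivity : (0 : ℝ) < (4 * (d : ℝ) + 3) ^ (k + 2))]
  have h3 : 1 / (4 * ((d : ℝ) + 1) ^ 2) + 1 / (4 * ((d : ℝ) + 1) ^ 2) ≤ 1 / ((d : ℝ) + 1) ^ 2 := by
    have h4 : 1 / (4 * ((d : ℝ) + 1) ^ 2) = (1 / 4) * (1 / ((d : ℝ) + 1) ^ 2) := by
      field_simp
    rw [h4]
    have h5 : 0 ≤ 1 / ((d : ℝ) + 1) ^ 2 := by positivity
    linarith
  linarith

/-- Summability of the paired series in `SS`. Proof: for `k ≥ 1` both parts are summable; for `k = 0` the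
term is `1/(4d+5) - 1/(4d+3)`, of size `1/d²`. -/
theorem summable_SS (k : ℕ) : Summable (fun d : ℕ =>
    (1 / (4 * (d : ℝ) + 5) ^ (k + 1) + (-1) ^ (k + 1) / (4 * (d : ℝ) + 3) ^ (k + 1))) := by
  refine Summable.of_norm_bounded zsb_sq (fun d => ?_)
  rw [Real.norm_eq_abs]
  rcases k with _ | k
  · simpa using zsb_bound0 d
  · exact zsb_bound1 k d

private theorem zsb_geo {x ρ : ℝ} (h : |x| < |ρ|) :
    HasSum (fun k : ℕ => 2 * (1 / ρ) ^ (k + 1) * x ^ k) (2 / (ρ - x)) := by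
  have hρ : ρ ≠ 0 := by
    intro h0
    rw [h0, abs_zero] at h
    exact absurd h (not_lt.2 (abs_nonneg x))
  have h1 : |x / ρ| < 1 := by
    rw [abs_div, div_lt_one (abs_pos.2 hρ)]
    exact h
  have h2 := (hasSum_geometric_of_abs_lt_one h1).mul_left (2 / ρ)
  have h3 : ρ - x ≠ 0 := by
    intro h0
    have : x = ρ := by linarith
    rw [this] at h
    exact absurd h (lt_irrefl _)
  have e1 : (fun k : ℕ => 2 * (1 / ρ) ^ (k + 1) * x ^ k) = fun k : ℕ => 2 / ρ * (x / ρ) ^ k := by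
    funext k
    rw [div_pow, div_pow, one_pow, pow_succ]
    field_simp
  have e2 : 2 / (ρ - x) = 2 / ρ * (1 - x / ρ)⁻¹ := by
    have h4 : 1 - x / ρ = (ρ - x) / ρ := by
      field_simp
    rw [h4, inv_div]
    field_simp
  rw [e1, e2]
  exact h2

/-- the double family -/
private noncomputable def zsbG (x : ℝ) (p : ℕ × ℕ) : ℝ :=
  2 * (1 / ((4 * (p.1 : ℝ) + 5) * (π / 2))) ^ (p.2 + 1) * x ^ p.2 +
    2 * (1 / (-((4 * (p.1 : ℝ) + 3) * (π / 2)))) ^ (p.2 + 1) * x ^ p.2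

private theorem zsb_G_eq (x : ℝ) (d k : ℕ) :
    zsbG x (d, k) = 2 * (2 / π) ^ (k + 1) * x ^ k *
      (1 / (4 * (d : ℝ) + 5) ^ (k + 1) + (-1) ^ (k + 1) / (4 * (d : ℝ) + 3) ^ (k + 1)) := by
  have hpi : (0 : ℝ) < π := Real.pi_pos
  have hd : (0 : ℝ) ≤ d := Nat.cast_nonneg d
  have e1 : (1 / ((4 * (d : ℝ) + 5) * (π / 2))) = (2 / π) * (1 / (4 * (d : ℝ) + 5)) := by
    field_simp
  have e2 : (1 / (-((4 * (d : ℝ) + 3) * (π / 2)))) = (2 / π) * ((-1) / (4 * (d : ℝ) + 3)) := by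
    have : (4 * (d : ℝ) + 3) ≠ 0 := by positivity
    field_simp
  unfold zsbG
  simp only
  rw [e1, e2, mul_pow, mul_pow, div_pow 1, one_pow, div_pow (-1)]
  ring

private theorem zsb_G_bound (x : ℝ) (d k : ℕ) :
    |zsbG x (d, k)| ≤ (8 * (1 / ((d : ℝ) + 1) ^ 2)) * (|x| * (2 / π)) ^ k := by
  have hpi : (0 : ℝ) < π := Real.pi_pos
  have hpi3 : (3 : ℝ) < π := Real.pi_gt_three
  rw [zsb_G_eq, abs_mul, abs_mul, abs_mul, abs_pow, abs_pow,
    abs_of_pos (by positivity : (0 : ℝ) < 2 / π), abs_of_pos (by norm_num : (0 : ℝ) < 2)]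
  have h1 : |1 / (4 * (d : ℝ) + 5) ^ (k + 1) + (-1) ^ (k + 1) / (4 * (d : ℝ) + 3) ^ (k + 1)|
      ≤ 1 / ((d : ℝ) + 1) ^ 2 := by
    rcases k with _ | k
    · simpa using zsb_bound0 d
    · exact zsb_bound1 k d
  have h2 : 2 / π ≤ 1 := by
    rw [div_le_one hpi]
    linarith
  have h3 : 2 * (2 / π) ^ (k + 1) * |x| ^ k ≤ 8 * (|x| * (2 / π)) ^ k := by
    rw [pow_succ, mul_pow]
    have h4 : 0 ≤ |x| ^ k * (2 / π) ^ k := by positivity
    nlinarith
  calc 2 * (2 / π) ^ (k + 1) * |x| ^ k *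
        |1 / (4 * (d : ℝ) + 5) ^ (k + 1) + (-1) ^ (k + 1) / (4 * (d : ℝ) + 3) ^ (k + 1)|
      ≤ (8 * (|x| * (2 / π)) ^ k) * (1 / ((d : ℝ) + 1) ^ 2) := by
        apply mul_le_mul h3 h1 (abs_nonneg _) (by positivity)
    _ = _ := by ring

private theorem zsb_G_summable {x : ℝ} (hx : |x| < π / 2) : Summable (zsbG x) := by
  have hpi : (0 : ℝ) < π := Real.pi_pos
  have hq : |x| * (2 / π) < 1 := by
    have h1 : |x| * (2 / π) < (π / 2) * (2 / π) := by
      apply mul_lt_mul_of_pos_right hx (by positivity)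
    have h2 : (π / 2) * (2 / π) = 1 := by field_simp
    linarith
  have h1 : Summable (fun k : ℕ => (|x| * (2 / π)) ^ k) :=
    summable_geometric_of_lt_one (by positivity) hq
  have h2 : Summable (fun d : ℕ => 8 * (1 / ((d : ℝ) + 1) ^ 2)) := zsb_sq.mul_left 8
  have h3 := h2.mul_of_nonneg h1 (fun d => by positivity) (fun k => by positivity)
  refine Summable.of_norm_bounded h3 (fun p => ?_)
  rw [Real.norm_eq_abs]
  exact zsb_G_bound x p.1 p.2

/-- Taylor series of sec + tan. Proof: expand every term of `secTan_pf` in a geometric series: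
`2/(ρ-x) = ∑_k 2 ρ^{-k-1} x^k`, `-2/(ρ'+x) = ∑_k 2 (-1)^{k+1} ρ'^{-k-1} x^k` with
`ρ = (4d+5)π/2`, `ρ' = (4d+3)π/2`, and exchange the sums over `d` and `k` (the double series of the PAIRED terms
is absolutely summable: for k = 0 it is `|2/ρ - 2/ρ'| = O(1/d²)`, for `k ≥ 1` it is at most
`4 ρ'^{-k-1} |x|^k ≤ 4 ρ'^{-2} |x| (1/3)^{k-1}`). The term `2/(π/2-x)` gives `2 (2/π)^{k+1} x^k`. -/
theorem hasSum_eps {x : ℝ} (hx : |x| < π / 2) :
    HasSum (fun k : ℕ => eps k * x ^ k) (1 / cos x + tan x) := by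
  have hpi : (0 : ℝ) < π := Real.pi_pos
  obtain ⟨a, ha⟩ := zsb_G_summable hx
  -- sum over `k` first
  have h1 : HasSum (fun d : ℕ => 2 / ((4 * (d : ℝ) + 5) * (π / 2) - x)
      - 2 / ((4 * (d : ℝ) + 3) * (π / 2) + x)) a := by
    refine ha.prod_fiberwise (fun d => ?_)
    have hd : (0 : ℝ) ≤ d := Nat.cast_nonneg d
    have g1 : |x| < |(4 * (d : ℝ) + 5) * (π / 2)| := by
      rw [abs_of_pos (by positivity : (0 : ℝ) < (4 * (d : ℝ) + 5) * (π / 2))]
      nlinarith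
    have g2 : |x| < |-((4 * (d : ℝ) + 3) * (π / 2))| := by
      rw [abs_neg, abs_of_pos (by positivity : (0 : ℝ) < (4 * (d : ℝ) + 3) * (π / 2))]
      nlinarith
    have g3 := (zsb_geo g1).add (zsb_geo g2)
    have e : 2 / ((4 * (d : ℝ) + 5) * (π / 2) - x) - 2 / ((4 * (d : ℝ) + 3) * (π / 2) + x)
        = 2 / ((4 * (d : ℝ) + 5) * (π / 2) - x) + 2 / (-((4 * (d : ℝ) + 3) * (π / 2)) - x) := by
      rw [sub_eq_add_neg, ← div_neg]
      congr 2
      ring
    rw [e]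
    exact g3
  have hval : a = 1 / cos x + tan x - 2 / (π / 2 - x) := h1.unique (secTan_pf hx)
  -- sum over `d` first
  have h2 : HasSum (fun k : ℕ => 2 * (2 / π) ^ (k + 1) * x ^ k * (SS k - 1)) a := by
    have ha' : HasSum (fun q : ℕ × ℕ => zsbG x (q.2, q.1)) a := by
      have := (Equiv.prodComm ℕ ℕ).hasSum_iff (f := zsbG x) (a := a)
      exact this.2 ha
    refine ha'.prod_fiberwise (fun k => ?_)
    have e : SS k - 1 = ∑' d : ℕ, (1 / (4 * (d : ℝ) + 5) ^ (k + 1)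
        + (-1) ^ (k + 1) / (4 * (d : ℝ) + 3) ^ (k + 1)) := by
      unfold SS
      ring
    rw [e]
    have g := (summable_SS k).hasSum.mul_left (2 * (2 / π) ^ (k + 1) * x ^ k)
    have e2 : (fun d : ℕ => zsbG x (d, k)) = fun d : ℕ => 2 * (2 / π) ^ (k + 1) * x ^ k *
        (1 / (4 * (d : ℝ) + 5) ^ (k + 1) + (-1) ^ (k + 1) / (4 * (d : ℝ) + 3) ^ (k + 1)) := by
      funext d
      exact zsb_G_eq x d k
    show HasSum (fun d : ℕ => zsbG x (d, k)) _
    rw [e2]
    exact g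
  have g0 : |x| < |π / 2| := by
    rw [abs_of_pos (by positivity : (0 : ℝ) < π / 2)]
    exact hx
  have h3 := (zsb_geo g0).add h2
  rw [hval] at h3
  have e3 : 2 / (π / 2 - x) + (1 / cos x + tan x - 2 / (π / 2 - x)) = 1 / cos x + tan x := by ring
  rw [e3] at h3
  have e4 : (fun k : ℕ => eps k * x ^ k) = fun k : ℕ =>
      2 * (1 / (π / 2)) ^ (k + 1) * x ^ k + 2 * (2 / π) ^ (k + 1) * x ^ k * (SS k - 1) := by
    funext k
    have e5 : (1 / (π / 2)) = 2 / π := by field_simp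
    rw [e5]
    unfold eps
    ring
  rw [e4]
  exact h3

end Pool.Agent.Lib.Zigzag
end

section

set_option autoImplicit false

namespace Pool.Agent.Lib.Zigzag

open Real

private theorem zeps_hasSum_tel :
    HasSum (fun d : ℕ => 1 / 2 * (1 / (4 * (d : ℝ) + 2) - 1 / (4 * (d : ℝ) + 6))) (1 / 4) := by
  rw [hasSum_iff_tendsto_nat_of_nonneg]
  · have hps : ∀ n : ℕ, ∑ d ∈ Finset.range n,
        (1 / 2 * (1 / (4 * (d : ℝ) + 2) - 1 / (4 * (d : ℝ) + 6))) =
          1 / 4 - 1 / 8 * (1 / ((n : ℝ) + 1 / 2)) := by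
      intro n
      induction n with
      | zero => norm_num
      | succ n ih =>
        rw [Finset.sum_range_succ, ih]
        push_cast
        have h1 : (4 * (n : ℝ) + 2) ≠ 0 := by positivity
        have h2 : (4 * (n : ℝ) + 6) ≠ 0 := by positivity
        have h3 : ((n : ℝ) + 1 / 2) ≠ 0 := by positivity
        have h4 : ((n : ℝ) + 1 + 1 / 2) ≠ 0 := by positivity
        have e1 : (4 * (n : ℝ) + 2) = 4 * ((n : ℝ) + 1 / 2) := by ring
        have e2 : (4 * (n : ℝ) + 6) = 4 * ((n : ℝ) + 1 + 1 / 2) := by ring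
        rw [e1, e2]
        field_simp
        ring
    have hlim : Filter.Tendsto (fun n : ℕ => (1 : ℝ) / 4 - 1 / 8 * (1 / ((n : ℝ) + 1 / 2)))
        Filter.atTop (nhds (1 / 4 - 1 / 8 * 0)) := by
      apply Filter.Tendsto.const_sub
      apply Filter.Tendsto.const_mul
      have h5 : Filter.Tendsto (fun n : ℕ => (n : ℝ) + 1 / 2) Filter.atTop Filter.atTop :=
        Filter.tendsto_atTop_add_const_right _ _ tendsto_natCast_atTop_atTop
      have h6 := h5.inv_tendsto_atTop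
      refine h6.congr (fun n => ?_)
      simp [one_div]
    rw [mul_zero, sub_zero] at hlim
    exact hlim.congr (fun n => (hps n).symm)
  · intro d
    have h1 : (0 : ℝ) < 4 * (d : ℝ) + 2 := by positivity
    have h2 : 1 / (4 * (d : ℝ) + 6) ≤ 1 / (4 * (d : ℝ) + 2) :=
      one_div_le_one_div_of_le h1 (by linarith)
    linarith

private theorem zeps_pow_bound {y : ℝ} (hy : 3 ≤ y) (k : ℕ) (hk : 1 ≤ k) :
    1 / y ^ (k + 1) ≤ (1 / 3) ^ (k - 1) * (1 / 2 * (1 / (y - 1) - 1 / (y + 1))) := by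
  obtain ⟨m, rfl⟩ : ∃ m, k = m + 1 := ⟨k - 1, by omega⟩
  have hy0 : 0 < y := by linarith
  have e1 : 1 / y ^ (m + 1 + 1) = (1 / y) ^ m * (1 / y ^ 2) := by
    rw [one_div_pow]
    field_simp
    ring
  have e2 : m + 1 - 1 = m := by omega
  rw [e1, e2]
  apply mul_le_mul
  · apply pow_le_pow_left₀ (by positivity)
    exact one_div_le_one_div_of_le (by norm_num) hy
  · have h1 : 0 < y - 1 := by linarith
    have h2 : 0 < y + 1 := by linarith
    have e3 : 1 / 2 * (1 / (y - 1) - 1 / (y + 1)) = 1 / ((y - 1) * (y + 1)) := by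
      field_simp
      ring
    rw [e3]
    apply one_div_le_one_div_of_le (by positivity)
    nlinarith
  · positivity
  · positivity

/-- Proof: `|SS k - 1| ≤ ∑_{l≥1} (2l+1)^{-(k+1)} ≤ 3^{-(k-1)} ∑_{l ≥ 1} (2l+1)^{-2}` and
`∑_{l≥1} (2l+1)^{-2} = π²/8 - 1 < 1/4` (`hasSum_zeta_two`; or telescoping: `1/(2l+1)² ≤ 1/(4l(l+1))`, whose sum
over `l ≥ 1` is `1/4`). -/
theorem abs_SS_sub_one_le {k : ℕ} (hk : 1 ≤ k) : |SS k - 1| ≤ 1 / 4 * (1 / 3) ^ (k - 1) := by
  have h := zeps_hasSum_tel.mul_left ((1 / 3 : ℝ) ^ (k - 1))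
  have hb : ∀ d : ℕ, ‖(1 / (4 * (d : ℝ) + 5) ^ (k + 1) + (-1) ^ (k + 1) / (4 * (d : ℝ) + 3) ^ (k + 1))‖
      ≤ (1 / 3 : ℝ) ^ (k - 1) * (1 / 2 * (1 / (4 * (d : ℝ) + 2) - 1 / (4 * (d : ℝ) + 6))) := by
    intro d
    have hd : (0 : ℝ) ≤ (d : ℝ) := Nat.cast_nonneg d
    have b1 := zeps_pow_bound (y := 4 * (d : ℝ) + 5) (by linarith) k hk
    have b2 := zeps_pow_bound (y := 4 * (d : ℝ) + 3) (by linarith) k hk
    have n1 : ‖(1 : ℝ) / (4 * (d : ℝ) + 5) ^ (k + 1)‖ = 1 / (4 * (d : ℝ) + 5) ^ (k + 1) := by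
      rw [Real.norm_eq_abs, abs_of_nonneg (by positivity)]
    have n2 : ‖((-1 : ℝ)) ^ (k + 1) / (4 * (d : ℝ) + 3) ^ (k + 1)‖
        = 1 / (4 * (d : ℝ) + 3) ^ (k + 1) := by
      rw [norm_div, norm_pow, norm_neg, norm_one, one_pow, Real.norm_eq_abs,
        abs_of_nonneg (by positivity)]
    refine (norm_add_le _ _).trans ?_
    rw [n1, n2]
    have e1 : 4 * (d : ℝ) + 5 - 1 = 4 * (d : ℝ) + 4 := by ring
    have e2 : 4 * (d : ℝ) + 5 + 1 = 4 * (d : ℝ) + 6 := by ring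
    have e3 : 4 * (d : ℝ) + 3 - 1 = 4 * (d : ℝ) + 2 := by ring
    have e4 : 4 * (d : ℝ) + 3 + 1 = 4 * (d : ℝ) + 4 := by ring
    rw [e1, e2] at b1
    rw [e3, e4] at b2
    calc _ ≤ (1 / 3 : ℝ) ^ (k - 1) * (1 / 2 * (1 / (4 * (d : ℝ) + 4) - 1 / (4 * (d : ℝ) + 6)))
          + (1 / 3 : ℝ) ^ (k - 1) * (1 / 2 * (1 / (4 * (d : ℝ) + 2) - 1 / (4 * (d : ℝ) + 4))) :=
          add_le_add b1 b2
      _ = _ := by ring
  have key := tsum_of_norm_bounded h hb
  have e : SS k - 1 = ∑' d : ℕ,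
      (1 / (4 * (d : ℝ) + 5) ^ (k + 1) + (-1) ^ (k + 1) / (4 * (d : ℝ) + 3) ^ (k + 1)) := by
    unfold SS
    ring
  rw [e, ← Real.norm_eq_abs]
  calc _ ≤ _ := key
    _ = _ := by ring

/-- Proof: `hasSum_eps` at `x = 0` gives `eps 0 = 1`. -/
theorem SS_zero : SS 0 = π / 4 := by
  have h := hasSum_eps (x := 0) (by rw [abs_zero]; positivity)
  have h2 : HasSum (fun k : ℕ => eps k * (0 : ℝ) ^ k) (eps 0 * (0 : ℝ) ^ 0) := by
    apply hasSum_single 0
    intro k hk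
    rw [zero_pow hk, mul_zero]
  have h3 := h.unique h2
  rw [Real.cos_zero, Real.tan_zero, pow_zero, mul_one] at h3
  unfold eps at h3
  have hpi : π ≠ 0 := Real.pi_ne_zero
  have h4 : 2 * (2 / π) ^ (0 + 1) * SS 0 = 4 * SS 0 / π := by
    rw [zero_add, pow_one]
    field_simp
    ring
  rw [h4, eq_div_iff hpi] at h3
  linarith

private theorem zeps_abs_le {k : ℕ} (hk : 1 ≤ k) : |SS k - 1| ≤ 1 / 4 := by
  refine (abs_SS_sub_one_le hk).trans ?_
  have h : ((1 : ℝ) / 3) ^ (k - 1) ≤ 1 := pow_le_one₀ (by norm_num) (by norm_num)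
  linarith

theorem SS_pos (k : ℕ) : 0 < SS k := by
  rcases Nat.eq_zero_or_pos k with rfl | hk
  · rw [SS_zero]; positivity
  · have := abs_le.1 (zeps_abs_le hk)
    linarith [this.1]

theorem SS_le (k : ℕ) : SS k ≤ 5 / 4 := by
  rcases Nat.eq_zero_or_pos k with rfl | hk
  · rw [SS_zero]
    have := Real.pi_lt_d2
    linarith
  · have := abs_le.1 (zeps_abs_le hk)
    linarith [this.2]

theorem SS_near {k : ℕ} (hk : 20 ≤ k) : 999 / 1000 ≤ SS k ∧ SS k ≤ 1001 / 1000 := by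
  have h1 := abs_SS_sub_one_le (k := k) (by omega)
  have h2 : ((1 : ℝ) / 3) ^ (k - 1) ≤ (1 / 3) ^ 19 :=
    pow_le_pow_of_le_one (by norm_num) (by norm_num) (by omega)
  have h3 : ((1 : ℝ) / 3) ^ 19 ≤ 1 / 1000 := by norm_num
  have h4 := abs_le.1 h1
  constructor
  · linarith [h4.1]
  · linarith [h4.2]

theorem eps_pos (k : ℕ) : 0 < eps k := by
  unfold eps
  have h1 := SS_pos k
  have h2 := Real.pi_pos
  positivity

end Pool.Agent.Lib.Zigzag
end

section

set_option autoImplicit false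

namespace Pool.Agent.Lib.Zigzag

open Real

private theorem ZPForm_arcsin_abs (x : ℝ) : arcsin |x| = |arcsin x| := by
  rcases le_total 0 x with h | h
  · rw [abs_of_nonneg h, abs_of_nonneg (arcsin_nonneg.2 h)]
  · rw [abs_of_nonpos h, abs_of_nonpos (arcsin_nonpos.2 h), arcsin_neg]

/-- Proof: `(sec + tan)(cψ) = ∑_k eps k c^k ψ^k`, `ψ^k √(1-x²) = ∑_n ac n k x^n`, exchange the sums:
absolutely summable since `∑_n |ac n k| |x|^n ≤ 2 arcsin|x|^k` (`summable_abs_ac`), `eps k ≥ 0` and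
`∑_k eps k |c|^k arcsin|x|^k` converges (`hasSum_eps`). For fixed `n` only `k ≤ n` contribute (`ac_eq_zero`). -/
theorem hasSum_PP (c x : ℝ) (hx : |x| < 1) (hc : |c| * arcsin |x| < π / 2) :
    HasSum (fun n : ℕ => PP n c * (2 * x) ^ n)
      ((1 / cos (c * arcsin x) + tan (c * arcsin x)) * √(1 - x ^ 2)) := by
  have hA : 0 ≤ |c| * arcsin |x| := mul_nonneg (abs_nonneg _) (arcsin_nonneg.2 (abs_nonneg _))
  let F : ℕ × ℕ → ℝ := fun p => eps p.1 * c ^ p.1 * (ac p.2 p.1 * x ^ p.2)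
  have hnF : ∀ p, ‖F p‖ = eps p.1 * |c| ^ p.1 * (|ac p.2 p.1| * |x| ^ p.2) := by
    intro p
    simp only [F, norm_mul, norm_eq_abs, abs_pow, abs_of_pos (eps_pos p.1)]
  have hsum : Summable F := by
    refine Summable.of_norm ?_
    rw [summable_prod_of_nonneg (fun p => norm_nonneg _)]
    refine ⟨fun k => ?_, ?_⟩
    · simp only [hnF]
      exact (summable_abs_ac k hx).1.mul_left _
    · have h1 : Summable (fun k : ℕ => 2 * (eps k * (|c| * arcsin |x|) ^ k)) := by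
        have := (hasSum_eps (x := |c| * arcsin |x|) (by rwa [abs_of_nonneg hA])).summable
        exact this.mul_left 2
      refine Summable.of_nonneg_of_le (fun k => tsum_nonneg fun n => norm_nonneg _) (fun k => ?_) h1
      simp only [hnF]
      rw [tsum_mul_left]
      have h2 := (summable_abs_ac k hx).2
      have h3 : 0 ≤ eps k * |c| ^ k := mul_nonneg (eps_pos k).le (pow_nonneg (abs_nonneg _) _)
      calc eps k * |c| ^ k * ∑' n : ℕ, |ac n k| * |x| ^ n
          ≤ eps k * |c| ^ k * (2 * arcsin |x| ^ k) := mul_le_mul_of_nonneg_left h2 h3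
        _ = 2 * (eps k * (|c| * arcsin |x|) ^ k) := by rw [mul_pow]; ring
  -- sum over `n` first
  have hin : ∀ k, HasSum (fun n => F (k, n)) (eps k * (c * arcsin x) ^ k * √(1 - x ^ 2)) := by
    intro k
    have h1 := (hasSum_ac k hx).mul_left (eps k * c ^ k)
    have h2 : eps k * c ^ k * (arcsin x ^ k * √(1 - x ^ 2)) =
        eps k * (c * arcsin x) ^ k * √(1 - x ^ 2) := by rw [mul_pow]; ring
    rw [h2] at h1
    exact h1
  have hout : HasSum (fun k => eps k * (c * arcsin x) ^ k * √(1 - x ^ 2))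
      ((1 / cos (c * arcsin x) + tan (c * arcsin x)) * √(1 - x ^ 2)) := by
    have h1 : |c * arcsin x| < π / 2 := by
      rw [abs_mul, ← ZPForm_arcsin_abs]; exact hc
    exact (hasSum_eps h1).mul_right _
  have hF : HasSum F ((1 / cos (c * arcsin x) + tan (c * arcsin x)) * √(1 - x ^ 2)) := by
    have h1 := hsum.hasSum
    have h2 := h1.prod_fiberwise hin
    rw [← h2.unique hout]
    exact h1
  -- sum over `k` first
  have hF' : HasSum (F ∘ Prod.swap)
      ((1 / cos (c * arcsin x) + tan (c * arcsin x)) * √(1 - x ^ 2)) :=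
    (Equiv.prodComm ℕ ℕ).hasSum_iff.2 hF
  refine hF'.prod_fiberwise (g := fun n => PP n c * (2 * x) ^ n) fun n => ?_
  have h1 : PP n c * (2 * x) ^ n = ∑ k ∈ Finset.range (n + 1), (F ∘ Prod.swap) (n, k) := by
    unfold PP
    rw [Finset.sum_mul]
    refine Finset.sum_congr rfl fun k _ => ?_
    simp only [Function.comp, Prod.swap, F, cc]
    have h2 : (2 : ℝ) ^ n ≠ 0 := by positivity
    rw [mul_pow]
    field_simp
  rw [h1]
  refine hasSum_sum_of_ne_finset_zero fun k hk => ?_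
  simp only [Function.comp, Prod.swap, F]
  rw [ac_eq_zero (Or.inl (by simpa using hk))]
  simp

end Pool.Agent.Lib.Zigzag
end

section

set_option autoImplicit false

namespace Pool.Agent.Lib.Zigzag

open Real

/-- A power series with sum zero near `0` has zero coefficients. -/
private theorem ZPFormB_coeff_zero {d : ℕ → ℝ} {ρ : ℝ} (hρ : 0 < ρ)
    (h : ∀ y : ℝ, |y| < ρ → HasSum (fun n : ℕ => d n * y ^ n) 0) (n : ℕ) : d n = 0 := by
  have h1 : HasFPowerSeriesAt (0 : ℝ → ℝ) (FormalMultilinearSeries.ofScalars ℝ d) 0 := by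
    rw [hasFPowerSeriesAt_iff]
    have : ∀ᶠ z : ℝ in nhds 0, |z| < ρ := by
      have := Metric.ball_mem_nhds (0 : ℝ) hρ
      filter_upwards [this] with z hz
      simpa [Metric.mem_ball, Real.dist_eq] using hz
    filter_upwards [this] with z hz
    simp only [FormalMultilinearSeries.coeff_ofScalars, smul_eq_mul, Pi.zero_apply]
    simpa [mul_comm] using h z hz
  have h2 := h1.eq_zero
  have h3 := FormalMultilinearSeries.coeff_ofScalars (𝕜 := ℝ) (p := d) (n := n)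
  rw [h2] at h3
  rw [← h3]
  simp [FormalMultilinearSeries.coeff]

private theorem ZPFormB_arcsin_le {t : ℝ} (h0 : 0 ≤ t) (h1 : t ≤ 1) : arcsin t ≤ π / 2 * t := by
  have h := Real.mul_le_sin (arcsin_nonneg.2 h0) (arcsin_le_pi_div_two t)
  rw [sin_arcsin (by linarith) h1] at h
  have hpi := pi_pos
  have h2 : 2 / π * arcsin t * (π / 2) ≤ t * (π / 2) :=
    mul_le_mul_of_nonneg_right h (by positivity)
  have h3 : 2 / π * arcsin t * (π / 2) = arcsin t := by field_simp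
  rw [h3] at h2
  linarith

/-- Proof: compare `gf` and `hasSum_PP` at `x = y/2` (`cos (arcsin x) = √(1-x²)`) for all small `y`: two power
series that agree near 0 have equal coefficients (e.g. `HasFPowerSeriesAt.eq_formalMultilinearSeries`, or a
direct argument); `- y/2` only changes the coefficient of `n = 1`. -/
theorem Om_eq_PP {n : ℕ} (hn : 2 ≤ n) (M : ℕ) : (Om n M : ℝ) = PP n (2 * M + 1) := by
  have hc : (1 : ℝ) ≤ 2 * (M : ℝ) + 1 := by
    have : (0 : ℝ) ≤ (M : ℝ) := Nat.cast_nonneg M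
    linarith
  have hρ : (0 : ℝ) < 1 / (2 * (M : ℝ) + 1) := by positivity
  have key : ∀ y : ℝ, |y| < 1 / (2 * (M : ℝ) + 1) →
      HasSum (fun n : ℕ => ((Om n M : ℝ) - PP n (2 * M + 1) + (if n = 1 then 1 / 2 else 0)) * y ^ n)
        0 := by
    intro y hy
    have h1 := gf M y hy
    have hy1 : |y| < 1 := by
      refine lt_of_lt_of_le hy ?_
      rw [div_le_one (by linarith)]
      exact hc
    have hx : |y / 2| < 1 := by
      rw [abs_div, abs_two]
      linarith [abs_nonneg y]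
    have hx2 : |2 * (M : ℝ) + 1| * arcsin |y / 2| < π / 2 := by
      rw [abs_of_pos (by linarith : (0 : ℝ) < 2 * (M : ℝ) + 1)]
      have h3 := ZPFormB_arcsin_le (abs_nonneg (y / 2)) hx.le
      have h4 : |y / 2| = |y| / 2 := by rw [abs_div, abs_two]
      have h5 : (2 * (M : ℝ) + 1) * |y| < 1 := by
        rw [lt_div_iff₀ (by linarith)] at hy
        linarith
      have hpi := pi_pos
      calc (2 * (M : ℝ) + 1) * arcsin |y / 2|
          ≤ (2 * (M : ℝ) + 1) * (π / 2 * |y / 2|) :=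
            mul_le_mul_of_nonneg_left h3 (by linarith)
        _ = π / 4 * ((2 * (M : ℝ) + 1) * |y|) := by rw [h4]; ring
        _ < π / 4 * 1 := mul_lt_mul_of_pos_left h5 (by positivity)
        _ < π / 2 := by linarith
    have h2 := hasSum_PP (2 * (M : ℝ) + 1) (y / 2) hx hx2
    have h3 : HasSum (fun n : ℕ => (if n = 1 then (1 / 2 : ℝ) else 0) * y ^ n) (1 / 2 * y ^ 1) := by
      have := hasSum_single (f := fun n : ℕ => (if n = 1 then (1 / 2 : ℝ) else 0) * y ^ n) 1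
        (by intro n hn; simp [hn])
      simpa using this
    have h4 := (h1.sub h2).add h3
    rw [show 2 * (y / 2) = y by ring] at h4
    have hf : (fun n : ℕ => ((Om n M : ℝ) - PP n (2 * M + 1) + (if n = 1 then 1 / 2 else 0)) * y ^ n)
        = fun n : ℕ => (Om n M : ℝ) * y ^ n - PP n (2 * (M : ℝ) + 1) * y ^ n +
          (if n = 1 then (1 / 2 : ℝ) else 0) * y ^ n := by
      funext n; ring
    rw [hf]
    exact (by
      rw [cos_arcsin] at h4
      have e : (0 : ℝ) = (1 / cos ((2 * (M : ℝ) + 1) * arcsin (y / 2)) +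
        tan ((2 * (M : ℝ) + 1) * arcsin (y / 2))) * √(1 - (y / 2) ^ 2) - y / 2 -
        (1 / cos ((2 * (M : ℝ) + 1) * arcsin (y / 2)) +
        tan ((2 * (M : ℝ) + 1) * arcsin (y / 2))) * √(1 - (y / 2) ^ 2) + 1 / 2 * y ^ 1 := by ring
      rw [← e] at h4
      exact h4)
  have h := ZPFormB_coeff_zero hρ key n
  simp only [show n ≠ 1 by omega, if_false, add_zero] at h
  linarith

/-- Proof: `hasSum_PP` at `c = -1`: `(sec ψ - tan ψ) cos ψ = 1 - sin ψ = 1 - x`. -/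
theorem PP_neg_one {n : ℕ} (hn : 2 ≤ n) : PP n (-1) = 0 := by
  have key : ∀ y : ℝ, |y| < 1 →
      HasSum (fun n : ℕ => (PP n (-1) - (if n = 0 then 1 else 0) + (if n = 1 then 1 / 2 else 0)) * y ^ n)
        0 := by
    intro y hy
    have hx : |y / 2| < 1 := by
      rw [abs_div, abs_two]
      linarith [abs_nonneg y]
    have hlt : ∀ t : ℝ, t < 1 → arcsin t < π / 2 := fun t ht => arcsin_lt_pi_div_two.2 ht
    have hx2 : |(-1 : ℝ)| * arcsin |y / 2| < π / 2 := by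
      rw [abs_neg, abs_one, one_mul]
      exact hlt _ hx
    have h2 := hasSum_PP (-1) (y / 2) hx hx2
    have habs := abs_lt.1 hx
    have hcos : cos (arcsin (y / 2)) = √(1 - (y / 2) ^ 2) := cos_arcsin _
    have hsin : sin (arcsin (y / 2)) = y / 2 := sin_arcsin habs.1.le habs.2.le
    have hcpos : 0 < cos (arcsin (y / 2)) :=
      cos_pos_of_mem_Ioo ⟨neg_pi_div_two_lt_arcsin.2 habs.1, hlt _ habs.2⟩
    have hval : (1 / cos (-1 * arcsin (y / 2)) + tan (-1 * arcsin (y / 2))) * √(1 - (y / 2) ^ 2)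
        = 1 - y / 2 := by
      rw [← hcos, neg_one_mul, cos_neg, tan_neg, tan_eq_sin_div_cos, hsin]
      field_simp
      ring
    rw [hval] at h2
    have h3 : HasSum (fun n : ℕ => (if n = 1 then (1 / 2 : ℝ) else 0) * y ^ n) (1 / 2 * y ^ 1) := by
      have := hasSum_single (f := fun n : ℕ => (if n = 1 then (1 / 2 : ℝ) else 0) * y ^ n) 1
        (by intro n hn; simp [hn])
      simpa using this
    have h3' : HasSum (fun n : ℕ => (if n = 0 then (1 : ℝ) else 0) * y ^ n) 1 := by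
      have := hasSum_single (f := fun n : ℕ => (if n = 0 then (1 : ℝ) else 0) * y ^ n) 0
        (by intro n hn; simp [hn])
      simpa using this
    have h4 := (h2.sub h3').add h3
    rw [show 2 * (y / 2) = y by ring] at h4
    have hf : (fun n : ℕ => (PP n (-1) - (if n = 0 then 1 else 0) + (if n = 1 then 1 / 2 else 0)) * y ^ n)
        = fun n : ℕ => PP n (-1) * y ^ n - (if n = 0 then (1 : ℝ) else 0) * y ^ n +
          (if n = 1 then (1 / 2 : ℝ) else 0) * y ^ n := by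
      funext n; ring
    rw [hf]
    exact (by
      have e : (0 : ℝ) = 1 - y / 2 - 1 + 1 / 2 * y ^ 1 := by ring
      rw [← e] at h4
      exact h4)
  have h := ZPFormB_coeff_zero one_pos key n
  simp only [show n ≠ 1 by omega, show n ≠ 0 by omega, if_false, add_zero, sub_zero] at h
  exact h

/-- Proof: `ac n k = 0` unless `n + k` is even. -/
theorem PP_neg (n : ℕ) (c : ℝ) : PP n (-c) = (-1) ^ n * PP n c := by
  unfold PP
  rw [Finset.mul_sum]
  refine Finset.sum_congr rfl fun k _ => ?_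
  rcases Nat.even_or_odd (n + k) with he | ho
  · have h1 : ((-1 : ℝ)) ^ n = (-1) ^ k := by
      have h2 : ((-1 : ℝ)) ^ n * (-1) ^ k = 1 := by
        rw [← pow_add, he.neg_one_pow]
      rcases neg_one_pow_eq_or ℝ n with h | h <;> rcases neg_one_pow_eq_or ℝ k with h' | h' <;>
        rw [h, h'] at h2 ⊢ <;> norm_num at h2
    rw [neg_pow c k, h1]
    ring
  · have : ac n k = 0 := ac_eq_zero (Or.inr (by rcases ho with ⟨j, hj⟩; omega))
    simp [cc, this]

end Pool.Agent.Lib.Zigzag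
end
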