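import Pool.Agent.Lib.MP_7d55f0_co.ZTC
import Pool.Agent.Lib.MP_7d55f0_co.ZAngle
import Pool.Agent.Lib.MP_7d55f0_co.ZPFormB
import Pool.Agent.Lib.MP_7d55f0_co.ZCoefA

section

set_option autoImplicit false

namespace Pool.Agent.Lib.Zigzag

open Real

/-- The factor of the `k`-th term. -/
noncomputable def FF (n k : ℕ) (r : ℝ) : ℝ := if n ≤ 2 * (k + 1) then 1.06 else 1 + r ^ 2 / 6

/-- Proof: `KK_main`, `|sin| ≤ 1`, `lip_tail_mid`, `lip_tail_crude`; for `k = 0` (then `n > 2`) `abs_KK_zero_le` and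
`r/2 ≤ 1 + r²/6`. -/
theorem abs_KK_le {n k : ℕ} (hn : 100 ≤ n) (hkn : k ≤ n) {θ : ℝ} (h0 : 0 < θ) (h1 : θ < π / 2)
    (hr2 : rr θ ^ 2 ≤ 0.78 * n) :
    |KK k (vv θ)| ≤ (k.factorial : ℝ) / rr θ ^ (k + 1) * FF n k (rr θ) := by
  have hs : 0 < sin θ := sin_pos_of_pos_of_lt_pi h0 (by linarith [pi_pos])
  have hc : 0 < cos θ := cos_pos_of_mem_Ioo ⟨by linarith [pi_pos], h1⟩
  have hr : 0 < rr θ := by
    unfold rr
    have := pi_pos
    positivity
  have hv : 0 < vv θ := by
    unfold vv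
    have := pi_pos
    positivity
  rcases Nat.eq_zero_or_pos k with rfl | hk
  · have h2 : ¬ n ≤ 2 * (0 + 1) := by omega
    unfold FF
    rw [if_neg h2, Nat.factorial_zero, Nat.cast_one, zero_add, pow_one]
    refine (abs_KK_zero_le hv).trans ?_
    rw [div_mul_eq_mul_div, le_div_iff₀ hr]
    nlinarith [sq_nonneg (rr θ - 3 / 2)]
  · have h2 := KK_main hk h0 h1
    set T := 2 * ∑' e : ℕ, (1 / (1 + 2 * π ^ 2 * ((e : ℝ) + 1) ^ 2 / rr θ ^ 2)) ^ (((k : ℝ) + 1) / 2)
      with hT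
    have hA : 0 < (k.factorial : ℝ) / rr θ ^ (k + 1) := by
      have := Nat.factorial_pos k
      positivity
    have h3 : |(k.factorial : ℝ) * (sin ((k + 1) * θ) / rr θ ^ (k + 1))|
        ≤ (k.factorial : ℝ) / rr θ ^ (k + 1) := by
      have e1 : (k.factorial : ℝ) * (sin ((k + 1) * θ) / rr θ ^ (k + 1))
          = (k.factorial : ℝ) / rr θ ^ (k + 1) * sin ((k + 1) * θ) := by ring
      rw [e1, abs_mul, abs_of_pos hA]
      exact mul_le_of_le_one_right hA.le (Real.abs_sin_le_one _)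
    have h4 : |KK k (vv θ)| ≤ (k.factorial : ℝ) / rr θ ^ (k + 1) * (1 + T) := by
      have e1 := abs_sub_abs_le_abs_sub (KK k (vv θ))
        ((k.factorial : ℝ) * (sin ((k + 1) * θ) / rr θ ^ (k + 1)))
      rw [mul_add, mul_one]
      linarith
    refine h4.trans (mul_le_mul_of_nonneg_left ?_ hA.le)
    unfold FF
    split_ifs with h5
    · have h6 := lip_tail_mid hn h5 hr hr2
      rw [← hT] at h6
      linarith
    · have h6 := (lip_tail_crude hk hr).2
      rw [← hT] at h6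
      linarith

end Pool.Agent.Lib.Zigzag
end

section

set_option autoImplicit false

namespace Pool.Agent.Lib.Zigzag

open Real

/-- The direct test point. -/
noncomputable def tD (n m : ℕ) : ℝ := -√((Om n (m - 1) : ℝ) / (Om n (m + 1) : ℝ))

private theorem ZDirect_delta {n : ℕ} (hn : 100 ≤ n) : 2 * (1 / 2 : ℝ) ^ (n - 1) ≤ 1 / 1000 := by
  have h1 : (1 / 2 : ℝ) ^ (n - 1) ≤ (1 / 2) ^ 11 :=
    pow_le_pow_of_le_one (by norm_num) (by norm_num) (by omega)
  have h2 : (1 / 2 : ℝ) ^ 11 ≤ 1 / 2000 := by norm_num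
  linarith

private theorem ZDirect_approx {n M : ℕ} (hn : 100 ≤ n) (hM : 1 ≤ M) :
    999 / 1000 * ff n (2 * M + 1) ≤ (Om n M : ℝ) ∧
      (Om n M : ℝ) ≤ 1001 / 1000 * ff n (2 * M + 1) := by
  have h1 := Om_approx (n := n) (M := M) (by omega) hM
  have hM' : (1 : ℝ) ≤ M := by exact_mod_cast hM
  have h2 : 0 < ff n (2 * M + 1) := ff_pos (by linarith)
  have h3 : 2 * (1 / 2 : ℝ) ^ (n - 1) * ff n (2 * M + 1) ≤ 1 / 1000 * ff n (2 * M + 1) :=
    mul_le_mul_of_nonneg_right (ZDirect_delta hn) h2.le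
  rw [abs_le] at h1
  constructor <;> linarith [h1.1, h1.2]

/-- Proof: `Om_approx` at `m-1, m, m+1` (`2 * (1/2)^(n-1) ≤ 2^{-98}` tiny) and `ff_ratio` with `N = 2m+1`
(`N ± 2 = 2(m±1)+1`): `0.09 (1+δ)²/(1-δ)² ≤ 0.1`. -/
theorem Om_ratio {n m : ℕ} (hn : 100 ≤ n) (hm : 2 ≤ m) (h2 : 3 * (2 * m + 1) ^ 2 ≤ 4 * n) :
    (Om n (m + 1) : ℝ) * (Om n (m - 1) : ℝ) ≤ 0.1 * (Om n m : ℝ) ^ 2 := by
  obtain ⟨k, rfl⟩ : ∃ k, m = k + 2 := ⟨m - 2, by omega⟩
  rw [show k + 2 - 1 = k + 1 by omega]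
  have hN2 : 3 * (2 * ((k + 2 : ℕ) : ℝ) + 1) ^ 2 ≤ 4 * (n : ℝ) := by exact_mod_cast h2
  have hk : (0 : ℝ) ≤ k := Nat.cast_nonneg _
  have h3 := ff_ratio hn (N := 2 * ((k + 2 : ℕ) : ℝ) + 1) (by push_cast; linarith) hN2
  obtain ⟨a1, a2⟩ := ZDirect_approx (M := k + 2 + 1) hn (by omega)
  obtain ⟨b1, b2⟩ := ZDirect_approx (M := k + 2) hn (by omega)
  obtain ⟨c1, c2⟩ := ZDirect_approx (M := k + 1) hn (by omega)
  have e1 : (2 * ((k + 2 : ℕ) : ℝ) + 1) + 2 = 2 * ((k + 2 + 1 : ℕ) : ℝ) + 1 := by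
    push_cast; ring
  have e2 : (2 * ((k + 2 : ℕ) : ℝ) + 1) - 2 = 2 * ((k + 1 : ℕ) : ℝ) + 1 := by
    push_cast; ring
  rw [e1, e2] at h3
  have p1 : 0 < ff n (2 * ((k + 2 + 1 : ℕ) : ℝ) + 1) := ff_pos (by push_cast; linarith)
  have p2 : 0 < ff n (2 * ((k + 2 : ℕ) : ℝ) + 1) := ff_pos (by push_cast; linarith)
  have p3 : 0 < ff n (2 * ((k + 1 : ℕ) : ℝ) + 1) := ff_pos (by push_cast; linarith)
  generalize ff n (2 * ((k + 2 + 1 : ℕ) : ℝ) + 1) = x1 at *
  generalize ff n (2 * ((k + 2 : ℕ) : ℝ) + 1) = x2 at *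
  generalize ff n (2 * ((k + 1 : ℕ) : ℝ) + 1) = x3 at *
  calc (Om n (k + 2 + 1) : ℝ) * (Om n (k + 1) : ℝ)
      ≤ (1001 / 1000 * x1) * (1001 / 1000 * x3) :=
        mul_le_mul a2 c2 (Nat.cast_nonneg _) (by positivity)
    _ = (1001 / 1000) ^ 2 * (x1 * x3) := by ring
    _ ≤ (1001 / 1000) ^ 2 * (0.09 * x2 ^ 2) := mul_le_mul_of_nonneg_left h3 (by positivity)
    _ ≤ 0.1 * (999 / 1000 * x2) ^ 2 := by nlinarith [sq_nonneg x2]
    _ ≤ 0.1 * (Om n (k + 2) : ℝ) ^ 2 :=
        mul_le_mul_of_nonneg_left (pow_le_pow_left₀ (by positivity) b1 2) (by norm_num)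

/-- Proof: `Om_ratio` and `Om_mono`: `Om n (m-1) ≤ 0.1 Om n m ≤ 0.1 Om n (m+1)`, `Om n (m-1) > 0`. -/
theorem tD_mem {n m : ℕ} (hn : 100 ≤ n) (hm : 2 ≤ m) (h2 : 3 * (2 * m + 1) ^ 2 ≤ 4 * n) :
    -1 < tD n m ∧ tD n m < 0 := by
  have h1 := Om_ratio hn hm h2
  have p1 : (0 : ℝ) < Om n (m - 1) := by exact_mod_cast Om_pos n (M := m - 1) (by omega)
  have p2 : (0 : ℝ) < Om n m := by exact_mod_cast Om_pos n (M := m) (by omega)
  have p3 : (0 : ℝ) < Om n (m + 1) := by exact_mod_cast Om_pos n (M := m + 1) (by omega)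
  have q : (Om n m : ℝ) ≤ Om n (m + 1) := by exact_mod_cast Om_mono n m
  have h3 : (Om n (m - 1) : ℝ) < Om n (m + 1) := by
    by_contra hcon
    push Not at hcon
    nlinarith
  unfold tD
  constructor
  · rw [neg_lt_neg_iff, Real.sqrt_lt' one_pos, one_pow, div_lt_one p3]
    exact h3
  · rw [neg_lt_zero]
    exact Real.sqrt_pos.2 (div_pos p1 p3)

/-- Proof: `alt_sign` with `a M = Om n M` (`Om_logconcave`, `Om_pos`, `Om_ratio`), `hasSum_of_isH` at `t = tD n m`;
`(1 - t)^(n+1) > 0`. -/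
theorem tD_sign {n m : ℕ} (hn : 100 ≤ n) (hm : 2 ≤ m) (h2 : 3 * (2 * m + 1) ^ 2 ≤ 4 * n)
    {h : Polynomial ℤ} (hh : IsH n h) : 0 < (-1) ^ (m - 1) * (HR h).eval (tD n m) := by
  obtain ⟨t1, t2⟩ := tD_mem hn hm h2
  have hS := hasSum_of_isH hh (t := tD n m) (by rw [abs_lt]; constructor <;> linarith)
  have h3 := alt_sign (fun M => (Om n M : ℝ)) (fun M hM => by exact_mod_cast Om_pos n hM)
    (fun M _ => by exact_mod_cast Om_logconcave n M) m hm (Om_ratio hn hm h2) _ hS
  have h4 : 0 < (1 - tD n m) ^ (n + 1) := pow_pos (by linarith) _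
  have h5 := mul_pos h3 h4
  have h6 : (-1 : ℝ) ^ (m - 1) * ((HR h).eval (tD n m) / (1 - tD n m) ^ (n + 1)) *
      (1 - tD n m) ^ (n + 1) = (-1) ^ (m - 1) * (HR h).eval (tD n m) := by
    field_simp
  rw [h6] at h5
  exact h5

/-- Proof: `Om n m Om n (m+1) ≥ Om n (m-1) Om n (m+2)` from two uses of `Om_logconcave`. -/
theorem tD_anti {n m : ℕ} (hm : 2 ≤ m) : tD n (m + 1) ≤ tD n m := by
  obtain ⟨k, rfl⟩ : ∃ k, m = k + 2 := ⟨m - 2, by omega⟩
  unfold tD
  rw [show k + 2 - 1 = k + 1 by omega, show k + 2 + 1 - 1 = k + 2 by omega,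
    show k + 2 + 1 + 1 = k + 4 by omega, show k + 2 + 1 = k + 3 by omega]
  have p1 : (0 : ℝ) < Om n (k + 1) := by exact_mod_cast Om_pos n (M := k + 1) (by omega)
  have p2 : (0 : ℝ) < Om n (k + 2) := by exact_mod_cast Om_pos n (M := k + 2) (by omega)
  have p3 : (0 : ℝ) < Om n (k + 3) := by exact_mod_cast Om_pos n (M := k + 3) (by omega)
  have p4 : (0 : ℝ) < Om n (k + 4) := by exact_mod_cast Om_pos n (M := k + 4) (by omega)
  have l1 : (Om n (k + 3) : ℝ) * Om n (k + 1) ≤ (Om n (k + 2) : ℝ) ^ 2 := by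
    exact_mod_cast Om_logconcave n (k + 1)
  have l2 : (Om n (k + 4) : ℝ) * Om n (k + 2) ≤ (Om n (k + 3) : ℝ) ^ 2 := by
    exact_mod_cast Om_logconcave n (k + 2)
  apply neg_le_neg
  apply Real.sqrt_le_sqrt
  rw [div_le_div_iff₀ p3 p4]
  generalize (Om n (k + 1) : ℝ) = a1 at *
  generalize (Om n (k + 2) : ℝ) = a2 at *
  generalize (Om n (k + 3) : ℝ) = a3 at *
  generalize (Om n (k + 4) : ℝ) = a4 at *
  have h1 : (a3 * a1) * (a4 * a2) ≤ a2 ^ 2 * a3 ^ 2 :=
    mul_le_mul l1 l2 (by positivity) (by positivity)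
  have h2 : (a2 * a3) * (a1 * a4) ≤ (a2 * a3) * (a2 * a3) := by nlinarith
  exact le_of_mul_le_mul_left h2 (by positivity)

/-- Junction between the two regimes. Proof: it says `√(Om n (m-1)/Om n (m+1)) ≤ exp(-2v)`,
`v = vv (th n (m+1))`, i.e. `Om n (m-1) exp(4v) ≤ Om n (m+1)`; `4v ≤ 2π/th = 4(n+1)/(2m+3)` (`vv_le`),
`ff_junction` with `N = 2m+1 ≥ 9` and `Om_approx`. -/
theorem tD_junction {n m : ℕ} (hn : 100 ≤ n) (h2 : 3 * (2 * m + 1) ^ 2 ≤ 4 * n)
    (h3 : 4 * n < 3 * (2 * (m + 1) + 1) ^ 2) :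
    -exp (-(2 * vv (th n (m + 1)))) ≤ tD n m := by
  have hm : 4 ≤ m := by
    by_contra hcon
    have h5 : m ≤ 3 := by omega
    have h6 : 3 * (2 * (m + 1) + 1) ^ 2 ≤ 3 * (2 * (3 + 1) + 1) ^ 2 := by gcongr
    omega
  obtain ⟨k, rfl⟩ : ∃ k, m = k + 2 := ⟨m - 2, by omega⟩
  have hk2 : (2 : ℝ) ≤ k := by
    have : 2 ≤ k := by omega
    exact_mod_cast this
  have hn' : (100 : ℝ) ≤ n := by exact_mod_cast hn
  have hN2 : 3 * (2 * ((k + 2 : ℕ) : ℝ) + 1) ^ 2 ≤ 4 * (n : ℝ) := by exact_mod_cast h2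
  have e1 : (2 * ((k + 2 : ℕ) : ℝ) + 1) + 2 = 2 * ((k + 2 + 1 : ℕ) : ℝ) + 1 := by
    push_cast; ring
  have e2 : (2 * ((k + 2 : ℕ) : ℝ) + 1) - 2 = 2 * ((k + 1 : ℕ) : ℝ) + 1 := by
    push_cast; ring
  have hN3 : 4 * (n : ℝ) < 3 * ((2 * ((k + 2 : ℕ) : ℝ) + 1) + 2) ^ 2 := by
    rw [e1]
    exact_mod_cast h3
  have hj := ff_junction hn (N := 2 * ((k + 2 : ℕ) : ℝ) + 1) (by push_cast; linarith) hN2 hN3
  rw [e1, e2] at hj
  -- the angle
  have hth : th n (k + 2 + 1) = (2 * ((k + 2 + 1 : ℕ) : ℝ) + 1) * π / (2 * ((n : ℝ) + 1)) := rfl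
  have hpi := Real.pi_pos
  have hth0 : 0 < th n (k + 2 + 1) := by
    rw [hth]
    positivity
  have hth1 : th n (k + 2 + 1) < π / 2 := by
    rw [hth, div_lt_div_iff₀ (by positivity) (by norm_num)]
    have h5 : 2 * ((k + 2 + 1 : ℕ) : ℝ) + 1 < (n : ℝ) + 1 := by
      rw [← e1]
      by_contra hcon
      push Not at hcon
      nlinarith
    nlinarith
  have hv := vv_le hth0 hth1
  have hv4 : 4 * vv (th n (k + 2 + 1)) ≤ 4 * ((n : ℝ) + 1) / (2 * ((k + 2 + 1 : ℕ) : ℝ) + 1) := by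
    have h5 : 4 * (π / (2 * th n (k + 2 + 1))) =
        4 * ((n : ℝ) + 1) / (2 * ((k + 2 + 1 : ℕ) : ℝ) + 1) := by
      rw [hth]
      field_simp
    linarith
  obtain ⟨a1, a2⟩ := ZDirect_approx (M := k + 2 + 1) hn (by omega)
  obtain ⟨c1, c2⟩ := ZDirect_approx (M := k + 1) hn (by omega)
  have p1 : 0 < ff n (2 * ((k + 2 + 1 : ℕ) : ℝ) + 1) := ff_pos (by push_cast; linarith)
  have p3 : 0 < ff n (2 * ((k + 1 : ℕ) : ℝ) + 1) := ff_pos (by push_cast; linarith)
  have q1 : (0 : ℝ) < Om n (k + 1) := by exact_mod_cast Om_pos n (M := k + 1) (by omega)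
  have q3 : (0 : ℝ) < Om n (k + 2 + 1) := by exact_mod_cast Om_pos n (M := k + 2 + 1) (by omega)
  have main : (Om n (k + 1) : ℝ) * exp (4 * vv (th n (k + 2 + 1))) ≤ Om n (k + 2 + 1) := by
    calc (Om n (k + 1) : ℝ) * exp (4 * vv (th n (k + 2 + 1)))
        ≤ (1001 / 1000 * ff n (2 * ((k + 1 : ℕ) : ℝ) + 1)) *
          exp (4 * ((n : ℝ) + 1) / (2 * ((k + 2 + 1 : ℕ) : ℝ) + 1)) :=
          mul_le_mul c2 (Real.exp_le_exp.2 hv4) (Real.exp_pos _).le (by positivity)
      _ ≤ 999 / 1000 * (2 * exp (4 * ((n : ℝ) + 1) / (2 * ((k + 2 + 1 : ℕ) : ℝ) + 1)) *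
          ff n (2 * ((k + 1 : ℕ) : ℝ) + 1)) := by
          have : 0 < exp (4 * ((n : ℝ) + 1) / (2 * ((k + 2 + 1 : ℕ) : ℝ) + 1)) *
            ff n (2 * ((k + 1 : ℕ) : ℝ) + 1) := mul_pos (Real.exp_pos _) p3
          nlinarith
      _ ≤ 999 / 1000 * ff n (2 * ((k + 2 + 1 : ℕ) : ℝ) + 1) :=
          mul_le_mul_of_nonneg_left hj (by norm_num)
      _ ≤ _ := a1
  unfold tD
  rw [show k + 2 - 1 = k + 1 by omega]
  apply neg_le_neg
  rw [Real.sqrt_le_left (Real.exp_pos _).le, div_le_iff₀ q3, ← Real.exp_nat_mul]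
  have e3 : ((2 : ℕ) : ℝ) * -(2 * vv (th n (k + 2 + 1))) = -(4 * vv (th n (k + 2 + 1))) := by
    push_cast; ring
  rw [e3, Real.exp_neg, inv_mul_eq_div, le_div_iff₀ (Real.exp_pos _)]
  exact main

end Pool.Agent.Lib.Zigzag
end

section

set_option autoImplicit false

namespace Pool.Agent.Lib.Zigzag

open Real

theorem zh_coeff_one_sub_X_pow (m i : ℕ) :
    PowerSeries.coeff i ((1 - PowerSeries.X : PowerSeries ℤ) ^ m) = (-1) ^ i * (m.choose i : ℤ) := by
  have h1 : (1 - PowerSeries.X : PowerSeries ℤ) = -PowerSeries.X + 1 := by ring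
  rw [h1, add_pow, map_sum]
  have h2 : ∀ k ∈ Finset.range (m + 1),
      PowerSeries.coeff i ((-PowerSeries.X : PowerSeries ℤ) ^ k * 1 ^ (m - k) * (m.choose k : PowerSeries ℤ))
        = if i = k then (-1) ^ k * (m.choose k : ℤ) else 0 := by
    intro k _
    have h3 : (-PowerSeries.X : PowerSeries ℤ) ^ k * 1 ^ (m - k) * (m.choose k : PowerSeries ℤ)
        = PowerSeries.C ((-1) ^ k * (m.choose k : ℤ)) * PowerSeries.X ^ k := by
      rw [neg_pow, one_pow, map_mul, map_pow, map_neg, map_one, map_natCast]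
      ring
    rw [h3, PowerSeries.coeff_C_mul, PowerSeries.coeff_X_pow]
    split_ifs <;> simp
  rw [Finset.sum_congr rfl h2, Finset.sum_ite_eq]
  split_ifs with h4
  · rfl
  · rw [Nat.choose_eq_zero_of_lt (by rw [Finset.mem_range] at h4; omega)]
    simp

/-- The coefficient formula. -/
theorem coeff_of_isH {n : ℕ} {h : Polynomial ℤ} (hh : IsH n h) (j : ℕ) :
    h.coeff j = ∑ i ∈ Finset.range (j + 1), (-1) ^ i * ((n + 1).choose i : ℤ) * (Om n (j - i + 1) : ℤ) := by
  have h1 := congrArg (PowerSeries.coeff j) hh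
  rw [Polynomial.coeff_coe, mul_comm, PowerSeries.coeff_mul,
    Finset.Nat.sum_antidiagonal_eq_sum_range_succ_mk] at h1
  rw [← h1]
  refine Finset.sum_congr rfl fun i _ => ?_
  rw [zh_coeff_one_sub_X_pow, PowerSeries.coeff_mk]

theorem zh_sum_choose_pow (n : ℕ) (a b : ℝ) {k : ℕ} (hk : k ≤ n) :
    ∑ i ∈ Finset.range (n + 2), (-1) ^ i * ((n + 1).choose i : ℝ) * (a + b * i) ^ k = 0 := by
  have h1 := fwdDiff_iter_sum_mul_pow_eq_zero (R := ℝ) (n := n + 1)
    (fun j => (k.choose j : ℝ) * b ^ j * a ^ (k - j))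
  have h2 : (fun r : ℝ => ∑ j ∈ Finset.range (n + 1), (k.choose j : ℝ) * b ^ j * a ^ (k - j) * r ^ j)
      = fun r : ℝ => (a + b * r) ^ k := by
    funext r
    rw [add_comm a, add_pow]
    symm
    refine Finset.sum_subset_zero_on_sdiff (Finset.range_mono (by omega)) ?_ ?_
    · intro j hj
      rw [Finset.mem_sdiff, Finset.mem_range, Finset.mem_range] at hj
      rw [Nat.choose_eq_zero_of_lt (by omega)]
      simp
    · intro j _
      rw [mul_pow]
      ring
  rw [h2] at h1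
  have h3 := congrFun h1 0
  rw [fwdDiff_iter_eq_sum_shift] at h3
  have h4 : (-1 : ℝ) ^ (n + 1) * ∑ i ∈ Finset.range (n + 1 + 1),
      ((-1 : ℤ) ^ (n + 1 - i) * ((n + 1).choose i : ℤ)) • (a + b * (0 + i • (1 : ℝ))) ^ k = 0 := by
    rw [h3]
    simp
  rw [← h4, Finset.mul_sum]
  refine Finset.sum_congr rfl fun i hi => ?_
  rw [Finset.mem_range] at hi
  rw [zsmul_eq_mul]
  push_cast
  rw [nsmul_eq_mul, zero_add, mul_one]
  have h5 : (-1 : ℝ) ^ i = (-1) ^ (n + 1) * (-1) ^ (n + 1 - i) := by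
    have h6 : (-1 : ℝ) ^ (n + 1) = (-1) ^ (n + 1 - i) * (-1) ^ i := by
      rw [← pow_add]
      congr 1
      omega
    rw [h6, mul_assoc, mul_comm, mul_assoc, ← pow_add, ← two_mul, pow_mul]
    simp
  rw [h5]
  ring

/-- Finite differences: a polynomial function of degree `≤ n` has vanishing `(n+1)`-st difference
(Mathlib: `Polynomial.fwdDiff_iter_degree_eq_factorial`/`fwdDiff_iter_eq_zero_of_degree_lt` and
`fwdDiff_iter_eq_sum_shift`, or `Finset.sum_range_choose_mul...`). Here `p(x) = PP n (2x+3)`. -/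
theorem sum_choose_PP (n : ℕ) (x : ℝ) :
    ∑ i ∈ Finset.range (n + 2), (-1) ^ i * ((n + 1).choose i : ℝ) * PP n (2 * (x - i) + 3) = 0 := by
  unfold PP
  have h1 : ∀ i ∈ Finset.range (n + 2), (-1 : ℝ) ^ i * ((n + 1).choose i : ℝ) *
      ∑ k ∈ Finset.range (n + 1), cc n k * (2 * (x - i) + 3) ^ k
      = ∑ k ∈ Finset.range (n + 1), cc n k *
        ((-1 : ℝ) ^ i * ((n + 1).choose i : ℝ) * ((2 * x + 3) + (-2) * i) ^ k) := by
    intro i _
    rw [Finset.mul_sum]
    refine Finset.sum_congr rfl fun k _ => ?_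
    rw [show 2 * (x - i) + 3 = (2 * x + 3) + (-2) * (i : ℝ) by ring]
    ring
  rw [Finset.sum_congr rfl h1, Finset.sum_comm]
  refine Finset.sum_eq_zero fun k hk => ?_
  rw [← Finset.mul_sum, zh_sum_choose_pow n _ _ (by rw [Finset.mem_range] at hk; omega), mul_zero]

theorem zh_PP_one {n : ℕ} (hn : 2 ≤ n) : PP n 1 = 0 := by
  have h1 := Om_eq_PP hn 0
  rw [Om_zero_right (by omega)] at h1
  have h2 : (2 * ((0 : ℕ) : ℝ) + 1) = 1 := by norm_num
  rw [h2] at h1
  rw [← h1]
  simp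

theorem zh_coeff_real {n : ℕ} (hn : 2 ≤ n) {h : Polynomial ℤ} (hh : IsH n h) (j : ℕ) :
    (h.coeff j : ℝ) = ∑ i ∈ Finset.range (j + 1),
      (-1) ^ i * ((n + 1).choose i : ℝ) * PP n (2 * ((j : ℝ) - i) + 3) := by
  rw [coeff_of_isH hh j]
  push_cast
  refine Finset.sum_congr rfl fun i hi => ?_
  rw [Finset.mem_range] at hi
  rw [Om_eq_PP hn]
  congr 2
  push_cast [show i ≤ j by omega]
  ring

theorem zh_coeff_real' {n : ℕ} (hn : 2 ≤ n) {h : Polynomial ℤ} (hh : IsH n h) (j : ℕ) :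
    (h.coeff j : ℝ) = ∑ i ∈ Finset.range (j + 3),
      (-1) ^ i * ((n + 1).choose i : ℝ) * PP n (2 * ((j : ℝ) - i) + 3) := by
  rw [zh_coeff_real hn hh j, Finset.sum_range_succ _ (j + 2), Finset.sum_range_succ _ (j + 1)]
  have h1 : PP n (2 * ((j : ℝ) - (j + 2 : ℕ)) + 3) = 0 := by
    rw [show (2 * ((j : ℝ) - (j + 2 : ℕ)) + 3) = -1 by push_cast; ring]
    exact PP_neg_one hn
  have h2 : PP n (2 * ((j : ℝ) - (j + 1 : ℕ)) + 3) = 0 := by
    rw [show (2 * ((j : ℝ) - (j + 1 : ℕ)) + 3) = 1 by push_cast; ring]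
    exact zh_PP_one hn
  rw [h1, h2]
  ring

/-- `h` has degree at most `n - 2`. Proof: with `p(m) = PP n (2m+3) = Om n (m+1)` one has
`h_j = ∑_{i ≤ j} (-1)^i C(n+1,i) p(j-i)`; for `j ≥ n-1` the missing terms `j < i ≤ n+1` of the full sum
`sum_choose_PP` have `j - i ∈ {-1, -2}`, where `p` vanishes (`p(-1) = PP n 1 = Om n 0 = 0`, `p(-2) = PP n (-1) = 0`). -/
theorem natDegree_of_isH {n : ℕ} (hn : 2 ≤ n) {h : Polynomial ℤ} (hh : IsH n h) :
    h.natDegree ≤ n - 2 := by
  rw [Polynomial.natDegree_le_iff_coeff_eq_zero]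
  intro j hj
  have h1 : (h.coeff j : ℝ) = 0 := by
    rw [zh_coeff_real' hn hh j, ← sum_choose_PP n (j : ℝ)]
    symm
    refine Finset.sum_subset_zero_on_sdiff (Finset.range_mono (by omega)) ?_ fun _ _ => rfl
    intro i hi
    rw [Finset.mem_sdiff, Finset.mem_range, Finset.mem_range] at hi
    rw [Nat.choose_eq_zero_of_lt (by omega)]
    simp
  exact_mod_cast h1

/-- `h` is palindromic. Proof: `p(-3-x) = (-1)^n p(x)`; see the paper (lemma R1). -/
theorem coeff_symm_of_isH {n : ℕ} (hn : 2 ≤ n) {h : Polynomial ℤ} (hh : IsH n h) {j : ℕ}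
    (hj : j ≤ n - 2) : h.coeff j = h.coeff (n - 2 - j) := by
  have h1 := sum_choose_PP n ((n - 2 - j : ℕ) : ℝ)
  have h2 : n + 2 = (n - 2 - j + 3) + (j + 1) := by omega
  rw [h2, Finset.sum_range_add, ← zh_coeff_real' hn hh (n - 2 - j)] at h1
  have h3 : ∑ i ∈ Finset.range (j + 1), (-1) ^ (n - 2 - j + 3 + i) *
      ((n + 1).choose (n - 2 - j + 3 + i) : ℝ) *
        PP n (2 * (((n - 2 - j : ℕ) : ℝ) - (n - 2 - j + 3 + i : ℕ)) + 3) = - (h.coeff j : ℝ) := by
    rw [zh_coeff_real hn hh j, ← Finset.sum_range_reflect, ← Finset.sum_neg_distrib]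
    refine Finset.sum_congr rfl fun i hi => ?_
    rw [Finset.mem_range] at hi
    have h4 : n - 2 - j + 3 + (j + 1 - 1 - i) = n + 1 - i := by omega
    rw [h4, Nat.choose_symm (by omega)]
    have h5 : 2 * (((n - 2 - j : ℕ) : ℝ) - ((n + 1 - i : ℕ) : ℝ)) + 3 = -(2 * ((j : ℝ) - i) + 3) := by
      have h6 : ((n - 2 - j : ℕ) : ℝ) = n - 2 - j := by
        rw [Nat.cast_sub (by omega), Nat.cast_sub (by omega)]
        norm_num
      have h7 : ((n + 1 - i : ℕ) : ℝ) = n + 1 - i := by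
        rw [Nat.cast_sub (by omega)]
        push_cast
        ring
      rw [h6, h7]
      ring
    rw [h5, PP_neg]
    have h8 : (-1 : ℝ) ^ (n + 1 - i) * (-1) ^ n = - (-1) ^ i := by
      rw [← pow_add]
      have h9 : n + 1 - i + n = 2 * (n - i) + i + 1 := by omega
      rw [h9, pow_succ, pow_add, pow_mul]
      simp
    calc (-1 : ℝ) ^ (n + 1 - i) * ((n + 1).choose i : ℝ) * ((-1) ^ n * PP n (2 * ((j : ℝ) - i) + 3))
        = ((-1 : ℝ) ^ (n + 1 - i) * (-1) ^ n) * ((n + 1).choose i : ℝ) * PP n (2 * ((j : ℝ) - i) + 3) := by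
          ring
      _ = _ := by rw [h8]; ring
  rw [h3] at h1
  have h10 : (h.coeff j : ℝ) = (h.coeff (n - 2 - j) : ℝ) := by linarith
  exact_mod_cast h10

theorem coeff_zero_of_isH {n : ℕ} {h : Polynomial ℤ} (hh : IsH n h) : h.coeff 0 = 1 := by
  rw [coeff_of_isH hh 0]
  simp [Om_one_right]

/-- Proof: `natDegree_of_isH`, `coeff_symm_of_isH`, `Polynomial.eval_eq_sum_range'`. -/
theorem eval_inv_of_isH {n : ℕ} (hn : 2 ≤ n) {h : Polynomial ℤ} (hh : IsH n h) {t : ℝ} (ht : t ≠ 0) :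
    (HR h).eval t = t ^ (n - 2) * (HR h).eval t⁻¹ := by
  have h1 : (HR h).natDegree < n - 2 + 1 := by
    have h2 : (HR h).natDegree ≤ h.natDegree := Polynomial.natDegree_map_le
    have h3 := natDegree_of_isH hn hh
    omega
  rw [Polynomial.eval_eq_sum_range' h1, Polynomial.eval_eq_sum_range' h1, Finset.mul_sum,
    ← Finset.sum_range_reflect]
  refine Finset.sum_congr rfl fun i hi => ?_
  rw [Finset.mem_range] at hi
  have h4 : n - 2 + 1 - 1 - i = n - 2 - i := by omega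
  have h5 : (HR h).coeff (n - 2 - i) = (HR h).coeff i := by
    unfold HR
    rw [Polynomial.coeff_map, Polynomial.coeff_map, ← coeff_symm_of_isH hn hh (by omega)]
  rw [h4, h5]
  have h6 : t ^ (n - 2) = t ^ (n - 2 - i) * t ^ i := by
    rw [← pow_add]
    congr 1
    omega
  have h7 : t ^ i * t⁻¹ ^ i = 1 := by
    rw [← mul_pow, mul_inv_cancel₀ ht, one_pow]
  rw [h6]
  calc (HR h).coeff i * t ^ (n - 2 - i) = (HR h).coeff i * t ^ (n - 2 - i) * (t ^ i * t⁻¹ ^ i) := by
        rw [h7, mul_one]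
    _ = _ := by ring

end Pool.Agent.Lib.Zigzag
end

section

set_option autoImplicit false
set_option maxRecDepth 100000

namespace Pool.Agent.Lib.Zigzag

/-! ### the program -/

/-- prefix sums, reversed -/
noncomputable def zfPf (l : List ℕ) : ℕ → List ℕ → List ℕ :=
  @List.rec ℕ (fun _ => ℕ → List ℕ → List ℕ) (fun _ o => o)
    (fun a _ ih acc o => ih (Nat.add acc a) (Nat.add acc a :: o)) l

/-- multiplication by `1 - X` -/
noncomputable def zfPas (l : List ℤ) : ℤ → List ℤ :=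
  @List.rec ℤ (fun _ => ℤ → List ℤ) (fun _ => []) (fun a _ ih p => (a - p) :: ih a) l

/-- scalar product -/
def zfDot : List ℤ → List ℤ → ℤ → ℤ
  | b :: bs, r :: rs, acc => zfDot bs rs (acc + b * r)
  | _, _, acc => acc

/-- coefficients `h_j`; `rev` is the reversed prefix of the row -/
def zfHc (b : List ℤ) : ℕ → List ℕ → List ℤ → List ℤ
  | 0, _, _ => []
  | _ + 1, [], _ => []
  | k + 1, r :: row, rev => zfDot b ((r : ℤ) :: rev) 0 :: zfHc b k row ((r : ℤ) :: rev)

/-- sign of the value of a polynomial at `-p/q` -/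
noncomputable def zfEv (p q : ℕ) (s : Bool) (cs : List ℕ) : ℕ → ℕ → ℕ → Bool :=
  @List.rec ℕ (fun _ => ℕ → ℕ → ℕ → Bool) (fun A B _ => if s then Nat.blt A B else Nat.blt B A)
   (fun c _ ih A B pp => ih (Nat.mul B q) (Nat.add (Nat.mul A q) (Nat.mul c pp)) (Nat.mul pp p)) cs

/-- palindromic completion -/
def zfFull (par : Bool) (half : List ℕ) : List ℕ :=
  half ++ (if par then half.reverse.tail else half.reverse)

/-- check of a list of points -/
noncomputable def zfChkp (fl : List ℕ) : List (ℕ × ℕ) → Bool → ℕ → ℕ → Bool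
  | [], _, _, _ => true
  | (p, q) :: ps, s, a, b =>
    Nat.blt 0 p && Nat.blt p q && Nat.ble (a * q) (p * b) && zfEv p q s fl 0 0 1 &&
      zfChkp fl ps (!s) p q

/-- check for one `n` -/
noncomputable def zfChk (n : ℕ) (b : List ℤ) (row : List ℕ) (pts : List (ℕ × ℕ)) : Bool :=
  Nat.beq pts.length (n / 2) && (zfHc b (n / 2) row []).all (fun c => decide (0 ≤ c)) &&
    zfChkp (zfFull (n % 2 == 0) ((zfHc b (n / 2) row []).map Int.toNat)) pts (n % 2 == 0) 0 1

/-- all checks -/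
noncomputable def zfGo : List (List (ℕ × ℕ)) → ℕ → List ℤ → List (List ℕ) → Bool
  | [], _, _, _ => true
  | pts :: rest, n, b, tb =>
    zfChk n b (tb.map (fun v => v.headD 0)) pts &&
      zfGo rest (n + 1) (zfPas b 0) (tb.map (fun v => zfPf v 0 []))

/-- advance `k` steps -/
noncomputable def zfSkip : ℕ → List ℤ → List (List ℕ) → List ℤ × List (List ℕ)
  | 0, b, tb => (b, tb)
  | k + 1, b, tb => zfSkip k (zfPas b 0) (tb.map (fun v => zfPf v 0 []))

/-- initial values -/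
def zfB0 : List ℤ := 1 :: -1 :: List.replicate 49 0
/-- initial values -/
def zfT0 : List (List ℕ) := (List.range 49).map (fun M => List.replicate (M + 1) 1)

/-- the test points -/
def zfPts : List (List (ℕ × ℕ)) :=
  [[(1, 2)],
   [(1, 3), (1, 2)],
   [(1, 6), (1, 2)],
   [(1, 12), (1, 3), (1, 2)],
   [(1, 22), (1, 4), (1, 2)],
   [(1, 38), (1, 6), (1, 2), (2, 3)],
   [(1, 66), (1, 10), (1, 3), (1, 2)],
   [(1, 113), (1, 15), (1, 5), (1, 2), (2, 3)],
   [(1, 192), (1, 22), (1, 7), (1, 3), (1, 2)],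
   [(1, 318), (1, 33), (1, 9), (1, 4), (1, 2), (3, 4)],
   [(1, 531), (1, 48), (1, 12), (1, 5), (1, 3), (1, 2)],
   [(1, 880), (1, 70), (1, 17), (1, 7), (1, 3), (1, 2), (3, 4)],
   [(1, 1447), (1, 101), (1, 23), (1, 9), (1, 4), (1, 2), (2, 3)],
   [(1, 2412), (1, 146), (1, 31), (1, 11), (1, 5), (1, 3), (1, 2), (4, 5)],
   [(1, 3930), (1, 209), (1, 41), (1, 14), (1, 7), (1, 4), (1, 2), (2, 3)],
   [(1, 6373), (1, 297), (1, 55), (1, 18), (1, 8), (1, 4), (1, 3), (1, 2), (4, 5)],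
   [(1, 10516), (1, 424), (1, 73), (1, 23), (1, 10), (1, 5), (1, 3), (1, 2), (2, 3)],
   [(1, 17319), (1, 598), (1, 96), (1, 29), (1, 13), (1, 7), (1, 4), (1, 3), (1, 2), (4, 5)],
   [(1, 27813), (1, 849), (1, 126), (1, 37), (1, 15), (1, 8), (1, 5), (1, 3), (1, 2), (2, 3)],
   [(1, 45619), (1, 1204), (1, 165), (1, 47), (1, 19), (1, 10), (1, 6), (1, 4), (1, 2), (2, 3), (5,
    6)],
   [(1, 74731), (1, 1686), (1, 217), (1, 59), (1, 23), (1, 12), (1, 7), (1, 4), (1, 3), (1, 2), (2,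
    3)],
   [(1, 119083), (1, 2381), (1, 285), (1, 74), (1, 28), (1, 14), (1, 8), (1, 5), (1, 3), (1, 2), (2,
    3), (5, 6)],
   [(1, 194479), (1, 3359), (1, 371), (1, 92), (1, 35), (1, 16), (1, 9), (1, 6), (1, 4), (1, 3), (1,
    2), (3, 4)],
   [(1, 317340), (1, 4732), (1, 485), (1, 115), (1, 42), (1, 20), (1, 11), (1, 7), (1, 4), (1, 3), (1,
    2), (2, 3), (5, 6)],
   [(1, 517425), (1, 6659), (1, 632), (1, 143), (1, 51), (1, 23), (1, 13), (1, 8), (1, 5), (1, 3), (2,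
    5), (1, 2), (3, 4)],
   [(1, 843093), (1, 9237), (1, 824), (1, 179), (1, 62), (1, 28), (1, 15), (1, 9), (1, 6), (1, 4), (1,
    3), (1, 2), (2, 3), (6, 7)],
   [(1, 1372897), (1, 12969), (1, 1073), (1, 223), (1, 74), (1, 33), (1, 17), (1, 10), (1, 7), (1, 5),
    (1, 3), (1, 2), (2, 3), (3, 4)],
   [(1, 2162499), (1, 18195), (1, 1384), (1, 275), (1, 89), (1, 39), (1, 20), (1, 12), (1, 8), (1, 5),
    (1, 4), (1, 3), (1, 2), (2, 3), (6, 7)],
   [(1, 3514119), (1, 25508), (1, 1798), (1, 342), (1, 108), (1, 46), (1, 23), (1, 14), (1, 9), (1,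
    6), (1, 4), (1, 3), (1, 2), (2, 3), (3, 4)],
   [(1, 5707952), (1, 35738), (1, 2333), (1, 424), (1, 130), (1, 54), (1, 27), (1, 16), (1, 10), (1,
    7), (1, 5), (1, 3), (2, 5), (1, 2), (2, 3), (7, 8)],
   [(1, 9267552), (1, 50039), (1, 3026), (1, 525), (1, 156), (1, 64), (1, 32), (1, 18), (1, 11), (1,
    7), (1, 5), (1, 4), (1, 3), (1, 2), (2, 3), (3, 4)],
   [(1, 15041325), (1, 70025), (1, 3921), (1, 650), (1, 188), (1, 75), (1, 37), (1, 21), (1, 13), (1,
    8), (1, 6), (1, 4), (1, 3), (2, 5), (1, 2), (2, 3), (7, 8)],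
   [(1, 24403793), (1, 96349), (1, 5078), (1, 804), (1, 225), (1, 88), (1, 42), (1, 23), (1, 14), (1,
    9), (1, 7), (1, 5), (1, 4), (1, 3), (1, 2), (2, 3), (4, 5)],
   [(1, 39581389), (1, 134645), (1, 6572), (1, 993), (1, 270), (1, 103), (1, 49), (1, 27), (1, 16),
    (1, 11), (1, 7), (1, 5), (1, 4), (1, 3), (1, 2), (2, 3), (3, 4), (8, 9)],
   [(1, 64179768), (1, 188084), (1, 8500), (1, 1219), (1, 322), (1, 121), (1, 56), (1, 31), (1, 18),
    (1, 12), (1, 8), (1, 6), (1, 4), (1, 3), (2, 5), (1, 2), (2, 3), (4, 5)],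
   [(1, 104037164), (1, 262630), (1, 10989), (1, 1504), (1, 385), (1, 141), (1, 65), (1, 35), (1, 21),
    (1, 13), (1, 9), (1, 7), (1, 5), (1, 4), (1, 3), (1, 2), (2, 3), (3, 4), (8, 9)],
   [(1, 168605200), (1, 366589), (1, 14200), (1, 1855), (1, 461), (1, 166), (1, 75), (1, 40), (1, 24),
    (1, 15), (1, 10), (1, 7), (1, 5), (1, 4), (1, 3), (2, 5), (1, 2), (2, 3), (4, 5)],
   [(1, 273182879), (1, 511531), (1, 18151), (1, 2287), (1, 551), (1, 194), (1, 86), (1, 45), (1, 27),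
    (1, 17), (1, 11), (1, 8), (1, 6), (1, 5), (1, 4), (1, 3), (1, 2), (2, 3), (3, 4), (8, 9)],
   [(1, 442530541), (1, 713561), (1, 23429), (1, 2818), (1, 658), (1, 226), (1, 99), (1, 51), (1, 30),
    (1, 19), (1, 13), (1, 9), (1, 7), (1, 5), (1, 4), (1, 3), (2, 5), (1, 2), (2, 3), (4, 5)],
   [(1, 716715503), (1, 995097), (1, 30231), (1, 3470), (1, 786), (1, 265), (1, 114), (1, 58), (1,
    34), (1, 21), (1, 14), (1, 10), (1, 7), (1, 6), (1, 4), (1, 3), (2, 5), (1, 2), (2, 3), (3, 4),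
    (9, 10)],
   [(1, 1160566554), (1, 1387346), (1, 38994), (1, 4271), (1, 938), (1, 309), (1, 131), (1, 66), (1,
    38), (1, 24), (1, 16), (1, 11), (1, 8), (1, 6), (1, 5), (1, 4), (1, 3), (1, 2), (3, 5), (2, 3),
    (4, 5)],
   [(1, 1878963737), (1, 1933731), (1, 50280), (1, 5256), (1, 1119), (1, 361), (1, 151), (1, 75), (1,
    42), (1, 26), (1, 17), (1, 12), (1, 9), (1, 7), (1, 5), (1, 4), (1, 3), (2, 5), (1, 2), (2, 3),
    (3, 4), (9, 10)],
   [(1, 3041562611), (1, 2694679), (1, 64814), (1, 6464), (1, 1334), (1, 421), (1, 173), (1, 85), (1,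
    48), (1, 29), (1, 19), (1, 13), (1, 10), (1, 7), (1, 6), (1, 4), (2, 7), (1, 3), (1, 2), (3,
    5), (2, 3), (5, 6)],
   [(1, 4922771022), (1, 3754256), (1, 83525), (1, 7948), (1, 1590), (1, 491), (1, 199), (1, 97), (1,
    54), (1, 33), (1, 21), (1, 15), (1, 11), (1, 8), (1, 6), (1, 5), (1, 4), (1, 3), (2, 5), (1,
    2), (2, 3), (3, 4), (10, 11)],
   [(1, 7966382252), (1, 5229409), (1, 107608), (1, 9769), (1, 1895), (1, 572), (1, 228), (1, 109),
    (1, 60), (1, 36), (1, 24), (1, 16), (1, 12), (1, 9), (1, 7), (1, 5), (1, 4), (1, 3), (2, 5),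
    (1, 2), (3, 5), (2, 3), (5, 6)],
   [(1, 12890063572), (1, 7282805), (1, 138600), (1, 12003), (1, 2256), (1, 663), (1, 261), (1, 124),
    (1, 67), (1, 40), (1, 26), (1, 18), (1, 13), (1, 9), (1, 7), (1, 6), (1, 5), (1, 4), (1, 3),
    (2, 5), (1, 2), (2, 3), (3, 4), (10, 11)],
   [(1, 20854263892), (1, 10140680), (1, 178476), (1, 14744), (1, 2686), (1, 772), (1, 299), (1, 140),
    (1, 75), (1, 45), (1, 29), (1, 20), (1, 14), (1, 10), (1, 8), (1, 6), (1, 5), (1, 4), (1, 3),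
    (2, 5), (1, 2), (2, 3), (3, 4), (5, 6)],
   [(1, 33735236521), (1, 14117651), (1, 229773), (1, 18106), (1, 3196), (1, 899), (1, 342), (1, 158),
    (1, 84), (1, 50), (1, 32), (1, 21), (1, 15), (1, 11), (1, 9), (1, 7), (1, 5), (1, 4), (2, 7),
    (1, 3), (1, 2), (3, 5), (2, 3), (3, 4), (10, 11)],
   [(1, 54566323843), (1, 19651199), (1, 295753), (1, 22228), (1, 3780), (1, 1046), (1, 391), (1,
    179), (1, 95), (1, 55), (1, 35), (1, 24), (1, 17), (1, 12), (1, 9), (1, 7), (1, 6), (1, 5), (1,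
    4), (1, 3), (2, 5), (1, 2), (2, 3), (3, 4), (5, 6)],
   [(1, 88251156232), (1, 27349590), (1, 380604), (1, 27282), (1, 4495), (1, 1216), (1, 447), (1,
    202), (1, 106), (1, 61), (1, 39), (1, 26), (1, 18), (1, 13), (1, 10), (1, 8), (1, 6), (1, 5),
    (1, 4), (1, 3), (2, 5), (1, 2), (3, 5), (2, 3), (4, 5), (11, 12)],
   [(1, 142716244363), (1, 38058475), (1, 489707), (1, 33478), (1, 5345), (1, 1414), (1, 511), (1,
    228), (1, 118), (1, 68), (1, 43), (1, 28), (1, 20), (1, 14), (1, 11), (1, 8), (1, 7), (1, 5),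
    (1, 4), (2, 7), (1, 3), (2, 5), (1, 2), (2, 3), (3, 4), (5, 6)],
   [(1, 230773560316), (1, 52953431), (1, 629975), (1, 40707), (1, 6352), (1, 1644), (1, 584), (1,
    258), (1, 132), (1, 76), (1, 47), (1, 31), (1, 22), (1, 16), (1, 12), (1, 9), (1, 7), (1, 6),
    (1, 5), (1, 4), (1, 3), (2, 5), (1, 2), (3, 5), (2, 3), (4, 5), (11, 12)],
   [(1, 373130286676), (1, 73668550), (1, 810286), (1, 49923), (1, 7548), (1, 1910), (1, 668), (1,
    291), (1, 147), (1, 84), (1, 52), (1, 34), (1, 24), (1, 17), (1, 13), (1, 10), (1, 8), (1, 6),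
    (1, 5), (1, 4), (2, 7), (2, 5), (3, 7), (1, 2), (2, 3), (3, 4), (6, 7)],
   [(1, 603252016344), (1, 102475097), (1, 1042041), (1, 61212), (1, 8967), (1, 2219), (1, 763), (1,
    328), (1, 165), (1, 93), (1, 57), (1, 37), (1, 26), (1, 18), (1, 14), (1, 11), (1, 8), (1, 7),
    (1, 5), (1, 4), (2, 7), (1, 3), (2, 5), (1, 2), (3, 5), (2, 3), (4, 5), (12, 13)],
   [(1, 975220384723), (1, 138855660), (1, 1339883), (1, 75041), (1, 10650), (1, 2577), (1, 871), (1,
    370), (1, 184), (1, 103), (1, 62), (1, 41), (1, 28), (1, 20), (1, 15), (1, 11), (1, 9), (1, 7),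
    (1, 6), (1, 5), (1, 4), (1, 3), (2, 5), (1, 2), (4, 7), (2, 3), (3, 4), (6, 7)],
   [(1, 1576428283425), (1, 193024259), (1, 1722611), (1, 91978), (1, 12647), (1, 2992), (1, 995), (1,
    417), (1, 205), (1, 114), (1, 69), (1, 45), (1, 30), (1, 22), (1, 16), (1, 12), (1, 10), (1,
    8), (1, 6), (1, 5), (1, 4), (2, 7), (1, 3), (2, 5), (1, 2), (3, 5), (2, 3), (4, 5), (12, 13)],
   [(1, 2548089970601), (1, 268297057), (1, 2214365), (1, 112719), (1, 15015), (1, 3473), (1, 1136),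
    (1, 470), (1, 229), (1, 126), (1, 76), (1, 49), (1, 33), (1, 24), (1, 17), (1, 13), (1, 10),
    (1, 8), (1, 7), (1, 5), (2, 9), (1, 4), (1, 3), (2, 5), (1, 2), (3, 5), (2, 3), (3, 4), (6,
    7)],
   [(1, 4118375272191), (1, 372887502), (1, 2846138), (1, 138114), (1, 17823), (1, 4031), (1, 1296),
    (1, 530), (1, 255), (1, 139), (1, 83), (1, 53), (1, 36), (1, 26), (1, 19), (1, 14), (1, 11),
    (1, 9), (1, 7), (1, 6), (1, 5), (1, 4), (1, 3), (2, 5), (3, 7), (1, 2), (3, 5), (2, 3), (4, 5),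
    (12, 13)],
   [(1, 6655935776034), (1, 518202735), (1, 3657717), (1, 169206), (1, 21152), (1, 4677), (1, 1479),
    (1, 597), (1, 285), (1, 154), (1, 91), (1, 58), (1, 39), (1, 28), (1, 20), (1, 15), (1, 12),
    (1, 9), (1, 8), (1, 6), (1, 5), (1, 4), (2, 7), (1, 3), (2, 5), (1, 2), (3, 5), (2, 3), (3, 4),
    (6, 7)],
   [(1, 10756369434136), (1, 720084478), (1, 4700175), (1, 207266), (1, 25098), (1, 5425), (1, 1687),
    (1, 672), (1, 317), (1, 170), (1, 100), (1, 63), (1, 43), (1, 30), (1, 22), (1, 16), (1, 13),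
    (1, 10), (1, 8), (1, 7), (1, 6), (1, 5), (1, 4), (1, 3), (2, 5), (3, 7), (1, 2), (2, 3), (3,
    4), (4, 5), (13, 14)],
   [(1, 17381887364676), (1, 1000531748), (1, 6039071), (1, 253853), (1, 29776), (1, 6292), (1, 1924),
    (1, 756), (1, 353), (1, 188), (1, 110), (1, 69), (1, 46), (1, 32), (1, 24), (1, 18), (1, 14),
    (1, 11), (1, 9), (1, 7), (1, 6), (1, 5), (1, 4), (2, 7), (1, 3), (2, 5), (1, 2), (3, 5), (2,
    3), (3, 4), (7, 8)],
   [(1, 28086909948710), (1, 1390092374), (1, 7758555), (1, 310870), (1, 35320), (1, 7297), (1, 2194),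
    (1, 851), (1, 394), (1, 208), (1, 121), (1, 76), (1, 50), (1, 35), (1, 25), (1, 19), (1, 15),
    (1, 12), (1, 9), (1, 8), (1, 6), (1, 5), (1, 4), (2, 7), (1, 3), (2, 5), (3, 7), (1, 2), (2,
    3), (3, 4), (4, 5), (13, 14)],
   [(1, 45382446536078), (1, 1931182849), (1, 9802884), (1, 380647), (1, 41890), (1, 8460), (1, 2501),
    (1, 958), (1, 439), (1, 229), (1, 132), (1, 83), (1, 55), (1, 38), (1, 27), (1, 20), (1, 16),
    (1, 12), (1, 10), (1, 8), (1, 7), (1, 6), (1, 5), (1, 4), (1, 3), (3, 8), (2, 5), (1, 2), (3,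
    5), (2, 3), (3, 4), (7, 8)],
   [(1, 73324615966661), (1, 2682696655), (1, 12588477), (1, 466030), (1, 49676), (1, 9807), (1,
    2851), (1, 1078), (1, 488), (1, 253), (1, 145), (1, 90), (1, 59), (1, 41), (1, 30), (1, 22),
    (1, 17), (1, 13), (1, 11), (1, 9), (1, 7), (1, 6), (1, 5), (1, 4), (2, 7), (1, 3), (2, 5), (1,
    2), (4, 7), (2, 3), (3, 4), (5, 6), (14, 15)],
   [(1, 118465151691748), (1, 3726400915), (1, 16164150), (1, 570500), (1, 58899), (1, 11367), (1,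
    3249), (1, 1213), (1, 544), (1, 280), (1, 159), (1, 98), (1, 64), (1, 44), (1, 32), (1, 24),
    (1, 18), (1, 14), (1, 11), (1, 9), (1, 7), (1, 6), (1, 5), (2, 9), (2, 7), (1, 3), (2, 5), (3,
    7), (1, 2), (3, 5), (2, 3), (3, 4), (7, 8)],
   [(1, 191386489827030), (1, 5175815004), (1, 20753656), (1, 698312), (1, 69827), (1, 13172), (1,
    3702), (1, 1364), (1, 605), (1, 309), (1, 175), (1, 107), (1, 70), (1, 48), (1, 34), (1, 25),
    (1, 19), (1, 15), (1, 12), (1, 10), (1, 8), (1, 7), (1, 6), (1, 5), (1, 4), (2, 7), (1, 3), (2,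
    5), (1, 2), (3, 5), (2, 3), (3, 4), (5, 6), (14, 15)],
   [(1, 309180895348522), (1, 7188533702), (1, 26644040), (1, 854671), (1, 82772), (1, 15263), (1,
    4217), (1, 1533), (1, 674), (1, 341), (1, 191), (1, 117), (1, 76), (1, 52), (1, 37), (1, 27),
    (1, 21), (1, 16), (1, 13), (1, 10), (1, 8), (1, 7), (1, 6), (1, 5), (1, 4), (2, 7), (1, 3), (2,
    5), (3, 7), (1, 2), (3, 5), (2, 3), (4, 5), (7, 8)],
   [(1, 499454064985699), (1, 10306706919), (1, 34203521), (1, 1045935), (1, 98104), (1, 17682), (1,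
    4803), (1, 1717), (1, 749), (1, 376), (1, 210), (1, 127), (1, 82), (1, 56), (1, 40), (1, 29),
    (1, 22), (1, 17), (1, 14), (1, 11), (1, 9), (1, 7), (1, 6), (1, 5), (2, 9), (1, 4), (1, 3), (3,
    8), (2, 5), (1, 2), (3, 5), (2, 3), (3, 4), (5, 6), (14, 15)],
   [(1, 806790459535606), (1, 14319324358), (1, 43904424), (1, 1279880), (1, 116263), (1, 20483), (1,
    5470), (1, 1930), (1, 834), (1, 414), (1, 230), (1, 138), (1, 89), (1, 60), (1, 43), (1, 31),
    (1, 24), (1, 18), (1, 14), (1, 12), (1, 10), (1, 8), (1, 7), (1, 6), (1, 5), (1, 4), (2, 7),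
    (1, 3), (2, 5), (4, 9), (1, 2), (3, 5), (2, 3), (4, 5), (7, 8)],
   [(1, 1406403800445514), (1, 19893027544), (1, 56352587), (1, 1566008), (1, 137768), (1, 23723), (1,
    6229), (1, 2169), (1, 927), (1, 457), (1, 252), (1, 151), (1, 96), (1, 65), (1, 46), (1, 34),
    (1, 25), (1, 19), (1, 15), (1, 12), (1, 10), (1, 8), (1, 7), (1, 6), (1, 5), (1, 4), (2, 7),
    (1, 3), (2, 5), (3, 7), (1, 2), (3, 5), (2, 3), (3, 4), (5, 6), (15, 16)],
   [(1, 2274015048635371), (1, 27634778392), (1, 72325066), (1, 1915935), (1, 163234), (1, 27474), (1,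
    7091), (1, 2437), (1, 1031), (1, 504), (1, 276), (1, 164), (1, 104), (1, 70), (1, 49), (1, 36),
    (1, 27), (1, 21), (1, 16), (1, 13), (1, 11), (1, 9), (1, 7), (1, 6), (1, 5), (2, 9), (1, 4),
    (2, 7), (1, 3), (2, 5), (1, 2), (4, 7), (2, 3), (3, 4), (4, 5), (8, 9)],
   [(1, 3676724064128619), (1, 38387406221), (1, 92818484), (1, 2343855), (1, 193388), (1, 31813), (1,
    8072), (1, 2738), (1, 1146), (1, 556), (1, 302), (1, 179), (1, 113), (1, 76), (1, 53), (1, 38),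
    (1, 29), (1, 22), (1, 17), (1, 14), (1, 11), (1, 9), (1, 8), (1, 7), (1, 6), (1, 5), (1, 4),
    (2, 7), (1, 3), (2, 5), (3, 7), (1, 2), (3, 5), (2, 3), (3, 4), (5, 6), (15, 16)],
   [(1, 5944478466828120), (1, 53321224719), (1, 119111013), (1, 2867119), (1, 229090), (1, 36833),
    (1, 9188), (1, 3076), (1, 1274), (1, 613), (1, 330), (1, 194), (1, 122), (1, 82), (1, 57), (1,
    41), (1, 31), (1, 24), (1, 19), (1, 15), (1, 12), (1, 10), (1, 8), (1, 7), (1, 6), (1, 5), (1,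
    4), (2, 7), (1, 3), (3, 8), (2, 5), (1, 2), (4, 7), (2, 3), (3, 4), (4, 5), (8, 9)],
   [(1, 9610634953663265), (1, 74061221051), (1, 152841850), (1, 3506928), (1, 271357), (1, 42642),
    (1, 10456), (1, 3454), (1, 1416), (1, 675), (1, 361), (1, 212), (1, 133), (1, 88), (1, 61), (1,
    44), (1, 33), (1, 25), (1, 20), (1, 16), (1, 13), (1, 10), (1, 9), (1, 7), (1, 6), (1, 5), (2,
    9), (1, 4), (2, 7), (1, 3), (2, 5), (3, 7), (1, 2), (3, 5), (2, 3), (3, 4), (5, 6), (16, 17)],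
   [(1, 15537336175696064), (1, 102863623835), (1, 196113108), (1, 4289194), (1, 321394), (1, 49360),
    (1, 11898), (1, 3879), (1, 1574), (1, 744), (1, 395), (1, 230), (1, 144), (1, 95), (1, 66), (1,
    47), (1, 35), (1, 27), (1, 21), (1, 17), (1, 13), (1, 11), (1, 9), (1, 8), (1, 7), (1, 6), (1,
    5), (1, 4), (2, 7), (1, 3), (2, 5), (3, 7), (1, 2), (3, 5), (2, 3), (3, 4), (4, 5), (8, 9)],
   [(1, 25118154540153179), (1, 142861013893), (1, 251620446), (1, 5245579), (1, 380624), (1, 57132),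
    (1, 13538), (1, 4355), (1, 1749), (1, 820), (1, 433), (1, 250), (1, 155), (1, 102), (1, 71),
    (1, 51), (1, 37), (1, 29), (1, 22), (1, 18), (1, 14), (1, 12), (1, 10), (1, 8), (1, 7), (1, 6),
    (1, 5), (2, 9), (1, 4), (3, 10), (1, 3), (2, 5), (4, 9), (1, 2), (3, 5), (2, 3), (3, 4), (5,
    6), (16, 17)],
   [(1, 40605613712793480), (1, 198402576944), (1, 322820528), (1, 6414770), (1, 450733), (1, 66121),
    (1, 15401), (1, 4889), (1, 1943), (1, 903), (1, 473), (1, 272), (1, 168), (1, 110), (1, 76),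
    (1, 54), (1, 40), (1, 30), (1, 24), (1, 19), (1, 15), (1, 12), (1, 10), (1, 9), (1, 7), (1, 6),
    (1, 5), (2, 9), (1, 4), (2, 7), (1, 3), (2, 5), (3, 7), (1, 2), (3, 5), (2, 3), (3, 4), (4, 5),
    (8, 9)],
   [(1, 65640531695634996), (1, 275526416570), (1, 414145714), (1, 7844042), (1, 533713), (1, 76517),
    (1, 17519), (1, 5488), (1, 2158), (1, 994), (1, 518), (1, 295), (1, 182), (1, 119), (1, 81),
    (1, 58), (1, 43), (1, 32), (1, 25), (1, 20), (1, 16), (1, 13), (1, 11), (1, 9), (1, 8), (1, 7),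
    (1, 6), (1, 5), (1, 4), (2, 7), (1, 3), (3, 8), (2, 5), (1, 2), (4, 7), (3, 5), (2, 3), (3, 4),
    (5, 6), (16, 17)],
   [(1, 106107532395165264), (1, 382615167361), (1, 531279262), (1, 9591156), (1, 631921), (1, 88539),
    (1, 19927), (1, 6160), (1, 2397), (1, 1095), (1, 566), (1, 321), (1, 197), (1, 128), (1, 87),
    (1, 62), (1, 46), (1, 34), (1, 27), (1, 21), (1, 17), (1, 14), (1, 11), (1, 10), (1, 8), (1,
    7), (1, 6), (1, 5), (2, 9), (1, 4), (2, 7), (1, 3), (2, 5), (3, 7), (1, 2), (3, 5), (2, 3), (3,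
    4), (4, 5), (8, 9)],
   [(1, 171517675853961955), (1, 531306023846), (1, 681508119), (1, 11726683), (1, 748144), (1,
    102442), (1, 22663), (1, 6913), (1, 2662), (1, 1206), (1, 619), (1, 349), (1, 213), (1, 138),
    (1, 94), (1, 66), (1, 49), (1, 37), (1, 28), (1, 22), (1, 18), (1, 15), (1, 12), (1, 10), (1,
    9), (1, 7), (1, 6), (1, 5), (2, 9), (1, 4), (2, 7), (1, 3), (3, 8), (3, 7), (1, 2), (4, 7), (3,
    5), (2, 3), (3, 4), (6, 7), (17, 18)],
   [(1, 277242946106637975), (1, 737753884447), (1, 874175150), (1, 14336846), (1, 885680), (1,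
    118518), (1, 25772), (1, 7758), (1, 2955), (1, 1327), (1, 676), (1, 379), (1, 230), (1, 148),
    (1, 100), (1, 71), (1, 52), (1, 39), (1, 30), (1, 24), (1, 19), (1, 15), (1, 13), (1, 11), (1,
    9), (1, 8), (1, 7), (1, 6), (1, 5), (1, 4), (2, 7), (3, 10), (1, 3), (2, 5), (4, 9), (1, 2),
    (3, 5), (2, 3), (3, 4), (4, 5), (9, 10)],
   [(1, 448127371831467468), (1, 1024384589516), (1, 1121258809), (1, 17526984), (1, 1048428), (1,
    137105), (1, 29305), (1, 8704), (1, 3281), (1, 1461), (1, 739), (1, 412), (1, 249), (1, 160),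
    (1, 108), (1, 76), (1, 55), (1, 41), (1, 32), (1, 25), (1, 20), (1, 16), (1, 13), (1, 11), (1,
    9), (1, 8), (1, 7), (1, 6), (1, 5), (2, 9), (1, 4), (2, 7), (1, 3), (2, 5), (3, 7), (1, 2), (4,
    7), (3, 5), (2, 3), (3, 4), (6, 7), (17, 18)],
   [(1, 724322798145459736), (1, 1422328355482), (1, 1438116174), (1, 21425784), (1, 1241000), (1,
    158595), (1, 33319), (1, 9766), (1, 3643), (1, 1608), (1, 808), (1, 448), (1, 269), (1, 172),
    (1, 115), (1, 81), (1, 59), (1, 44), (1, 34), (1, 26), (1, 21), (1, 17), (1, 14), (1, 12), (1,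
    10), (1, 8), (1, 7), (1, 6), (2, 11), (1, 5), (1, 4), (2, 7), (1, 3), (3, 8), (2, 5), (4, 9),
    (1, 2), (3, 5), (2, 3), (3, 4), (4, 5), (9, 10)],
   [(1, 1170719656418841940), (1, 1974797227486), (1, 1844435340), (1, 26190457), (1, 1468848), (1,
    182139), (1, 37880), (1, 10955), (1, 4043), (1, 1770), (1, 883), (1, 486), (1, 291), (1, 185),
    (1, 124), (1, 87), (1, 63), (1, 47), (1, 36), (1, 28), (1, 22), (1, 18), (1, 15), (1, 12), (1,
    10), (1, 9), (1, 8), (1, 7), (1, 6), (1, 5), (1, 4), (2, 7), (3, 10), (1, 3), (2, 5), (3, 7),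
    (1, 2), (4, 7), (2, 3), (3, 4), (4, 5), (6, 7), (18, 19)],
   [(1, 1892187097449790072), (1, 2741772675131), (1, 2365456138), (1, 32013051), (1, 1738422), (1,
    210640), (1, 43061), (1, 12288), (1, 4488), (1, 1947), (1, 965), (1, 528), (1, 314), (1, 199),
    (1, 133), (1, 93), (1, 67), (1, 50), (1, 38), (1, 30), (1, 24), (1, 19), (1, 16), (1, 13), (1,
    11), (1, 9), (1, 8), (1, 7), (1, 6), (1, 5), (2, 9), (1, 4), (2, 7), (1, 3), (3, 8), (2, 5),
    (1, 2), (5, 9), (3, 5), (2, 3), (3, 4), (4, 5), (9, 10)],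
   [(1, 3058200664215223223), (1, 3806511419472), (1, 3033534755), (1, 39128159), (1, 2057347), (1,
    243584), (1, 48948), (1, 13782), (1, 4981), (1, 2143), (1, 1054), (1, 574), (1, 339), (1, 214),
    (1, 142), (1, 99), (1, 71), (1, 53), (1, 40), (1, 31), (1, 25), (1, 20), (1, 17), (1, 14), (1,
    12), (1, 10), (1, 8), (1, 7), (1, 6), (2, 11), (1, 5), (1, 4), (2, 7), (1, 3), (3, 8), (2, 5),
    (3, 7), (1, 2), (3, 5), (2, 3), (3, 4), (4, 5), (6, 7), (18, 19)],
   [(1, 4942639370528230993), (1, 5284574577145), (1, 3890149078), (1, 47822346), (1, 2434641), (1,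
    281662), (1, 55635), (1, 15457), (1, 5527), (1, 2357), (1, 1152), (1, 623), (1, 367), (1, 230),
    (1, 153), (1, 106), (1, 76), (1, 56), (1, 43), (1, 33), (1, 26), (1, 21), (1, 17), (1, 14), (1,
    12), (1, 10), (1, 9), (1, 8), (1, 7), (1, 6), (1, 5), (2, 9), (1, 4), (2, 7), (1, 3), (2, 5),
    (3, 7), (1, 2), (4, 7), (3, 5), (2, 3), (3, 4), (5, 6), (9, 10)],
   [(1, 7988094799911720570), (1, 7336358570434), (1, 4988468858), (1, 58445644), (1, 2880965), (1,
    325671), (1, 63231), (1, 17333), (1, 6110), (1, 2593), (1, 1254), (1, 676), (1, 396), (1, 248),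
    (1, 163), (1, 113), (1, 81), (1, 60), (1, 45), (1, 35), (1, 28), (1, 22), (1, 18), (1, 15), (1,
    13), (1, 11), (1, 9), (1, 8), (1, 7), (1, 6), (1, 5), (2, 9), (1, 4), (2, 7), (1, 3), (3, 8),
    (2, 5), (4, 9), (1, 2), (3, 5), (2, 3), (3, 4), (4, 5), (6, 7), (19, 20)],
   [(1, 12909788263899211702), (1, 10184485577301), (1, 6396649729), (1, 71425596), (1, 3408926), (1,
    376532), (1, 71858), (1, 19436), (1, 6778), (1, 2852), (1, 1370), (1, 734), (1, 428), (1, 267),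
    (1, 175), (1, 120), (1, 86), (1, 63), (1, 48), (1, 37), (1, 29), (1, 24), (1, 19), (1, 16), (1,
    13), (1, 11), (1, 10), (1, 8), (1, 7), (1, 6), (2, 11), (1, 5), (1, 4), (2, 7), (3, 10), (1,
    3), (2, 5), (3, 7), (1, 2), (4, 7), (3, 5), (2, 3), (3, 4), (5, 6), (9, 10)],
   [(1, 20863488277268186287), (1, 14137937649069), (1, 8202054836), (1, 87284415), (1, 4033430), (1,
    435310), (1, 81657), (1, 21792), (1, 7520), (1, 3137), (1, 1496), (1, 797), (1, 462), (1, 287),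
    (1, 188), (1, 129), (1, 92), (1, 67), (1, 51), (1, 39), (1, 31), (1, 25), (1, 20), (1, 17), (1,
    14), (1, 12), (1, 10), (1, 9), (1, 8), (1, 7), (1, 6), (1, 5), (2, 9), (1, 4), (2, 7), (1, 3),
    (3, 8), (2, 5), (4, 9), (1, 2), (3, 5), (2, 3), (3, 4), (4, 5), (6, 7), (19, 20)],
   [(1, 33716840989771146942), (1, 19625548984747), (1, 10516665205), (1, 106659918), (1, 4772099),
    (1, 503234), (1, 92786), (1, 24432), (1, 8341), (1, 3450), (1, 1633), (1, 865), (1, 499), (1,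
    308), (1, 201), (1, 137), (1, 97), (1, 71), (1, 54), (1, 42), (1, 33), (1, 26), (1, 21), (1,
    18), (1, 15), (1, 12), (1, 11), (1, 9), (1, 8), (1, 7), (1, 6), (1, 5), (2, 9), (1, 4), (2, 7),
    (1, 3), (3, 8), (2, 5), (3, 7), (1, 2), (4, 7), (3, 5), (2, 3), (3, 4), (5, 6), (10, 11)],
   [(1, 54487795141713879182), (1, 27242484276975), (1, 13484013459), (1, 130331105), (1, 5645771),
    (1, 581722), (1, 104799), (1, 27389), (1, 9252), (1, 3794), (1, 1783), (1, 939), (1, 539), (1,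
    331), (1, 215), (1, 146), (1, 104), (1, 76), (1, 57), (1, 44), (1, 35), (1, 28), (1, 22), (1,
    19), (1, 15), (1, 13), (1, 11), (1, 10), (1, 8), (1, 7), (1, 6), (2, 11), (1, 5), (1, 4), (3,
    11), (2, 7), (1, 3), (2, 5), (3, 7), (1, 2), (5, 9), (3, 5), (2, 3), (3, 4), (4, 5), (6, 7),
    (19, 20)],
   [(1, 88053014775517273893), (1, 37814737223920), (1, 17288069613), (1, 159249382), (1, 6679077),
    (1, 672416), (1, 119059), (1, 30703), (1, 10261), (1, 4171), (1, 1947), (1, 1019), (1, 582),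
    (1, 355), (1, 230), (1, 156), (1, 110), (1, 80), (1, 60), (1, 46), (1, 36), (1, 29), (1, 24),
    (1, 19), (1, 16), (1, 14), (1, 12), (1, 10), (1, 9), (1, 8), (1, 7), (1, 6), (1, 5), (2, 9),
    (1, 4), (2, 7), (1, 3), (3, 8), (2, 5), (4, 9), (1, 2), (4, 7), (3, 5), (2, 3), (3, 4), (5, 6),
    (10, 11)],
   [(1, 142292527102746328347), (1, 52488634421125), (1, 22164628343), (1, 194576694), (1, 7901139),
    (1, 777207), (1, 135252), (1, 34414), (1, 11379), (1, 4586), (1, 2125), (1, 1105), (1, 628),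
    (1, 382), (1, 247), (1, 167), (1, 117), (1, 85), (1, 64), (1, 49), (1, 38), (1, 31), (1, 25),
    (1, 20), (1, 17), (1, 14), (1, 12), (1, 10), (1, 9), (1, 8), (1, 7), (1, 6), (1, 5), (2, 9),
    (1, 4), (2, 7), (3, 10), (1, 3), (2, 5), (3, 7), (1, 2), (5, 9), (3, 5), (2, 3), (3, 4), (4,
    5), (7, 8), (20, 21)],
   [(1, 229939212963548651879), (1, 72855037056072), (1, 28415901661), (1, 237732073), (1, 9346385),
    (1, 898282), (1, 153638), (1, 38572), (1, 12618), (1, 5025), (1, 2319), (1, 1199), (1, 678),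
    (1, 411), (1, 264), (1, 178), (1, 125), (1, 91), (1, 68), (1, 52), (1, 40), (1, 32), (1, 26),
    (1, 21), (1, 18), (1, 15), (1, 13), (1, 11), (1, 9), (1, 8), (1, 7), (1, 6), (2, 11), (1, 5),
    (2, 9), (1, 4), (2, 7), (1, 3), (3, 8), (2, 5), (4, 9), (1, 2), (3, 5), (2, 3), (5, 7), (3, 4),
    (5, 6), (10, 11)],
   [(1, 371567126616097923565), (1, 101121689077263), (1, 36429218993), (1, 290448490), (1, 11055514),
    (1, 1038167), (1, 174513), (1, 43230), (1, 13991), (1, 5524), (1, 2531), (1, 1301), (1, 731),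
    (1, 441), (1, 283), (1, 190), (1, 133), (1, 96), (1, 72), (1, 55), (1, 43), (1, 34), (1, 27),
    (1, 23), (1, 19), (1, 16), (1, 13), (1, 11), (1, 10), (1, 9), (1, 8), (1, 7), (1, 6), (1, 5),
    (2, 9), (1, 4), (2, 7), (1, 3), (3, 8), (2, 5), (3, 7), (1, 2), (4, 7), (3, 5), (2, 3), (3, 4),
    (4, 5), (7, 8), (20, 21)],
   [(1, 600419826054605977142), (1, 140352372239639), (1, 46700990340), (1, 354842253), (1, 13076636),
    (1, 1199776), (1, 198213), (1, 48446), (1, 15512), (1, 6071), (1, 2762), (1, 1411), (1, 789),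
    (1, 474), (1, 303), (1, 203), (1, 141), (1, 102), (1, 76), (1, 58), (1, 45), (1, 36), (1, 29),
    (1, 24), (1, 20), (1, 16), (1, 14), (1, 12), (1, 10), (1, 9), (1, 8), (1, 7), (1, 6), (1, 5),
    (2, 9), (1, 4), (2, 7), (3, 10), (1, 3), (2, 5), (3, 7), (5, 11), (1, 2), (3, 5), (2, 3), (5,
    7), (3, 4), (5, 6), (10, 11)]]

theorem zf_run : zfGo zfPts 3 (zfSkip 3 zfB0 zfT0).1 (zfSkip 3 zfB0 zfT0).2 = true := by
  decide +kernel

/-! ### soundness -/

/-- the vector of the words of length `n` -/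
def zfV (M n : ℕ) : List ℕ := (List.range M).map (W M n)

/-- signed binomials -/
def zfBB (n : ℕ) : List ℤ := (List.range 51).map (fun i => (-1) ^ i * ((n + 1).choose i : ℤ))

/-- the table -/
def zfTB (n : ℕ) : List (List ℕ) := (List.range 49).map (fun M => zfV (M + 1) n)

theorem zfPf_cons (a : ℕ) (l : List ℕ) (acc : ℕ) (o : List ℕ) :
    zfPf (a :: l) acc o = zfPf l (acc + a) ((acc + a) :: o) := rfl

theorem zfPf_range (m : ℕ) : ∀ (f : ℕ → ℕ) (acc : ℕ) (o : List ℕ),
    zfPf ((List.range m).map f) acc o =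
      (List.range m).map (fun i => acc + ∑ j ∈ Finset.range (m - i), f j) ++ o := by
  induction m with
  | zero => intro f acc o; rfl
  | succ m ih =>
    intro f acc o
    have h1 : (List.range (m + 1)).map f = f 0 :: (List.range m).map (fun i => f (i + 1)) := by
      rw [List.range_succ_eq_map, List.map_cons, List.map_map]
      rfl
    rw [h1, zfPf_cons, ih, List.range_succ, List.map_append, List.append_assoc]
    congr 1
    · apply List.map_congr_left
      intro i hi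
      have hi' : i < m := List.mem_range.1 hi
      rw [show m + 1 - i = (m - i) + 1 by omega, Finset.sum_range_succ']
      ring
    · simp

theorem zfPf_V (M n : ℕ) : zfPf (zfV M n) 0 [] = zfV M (n + 1) := by
  unfold zfV
  rw [zfPf_range, List.append_nil]
  apply List.map_congr_left
  intro i _
  rw [zero_add]
  rfl

theorem zfPas_range (m : ℕ) : ∀ (f : ℕ → ℤ) (p : ℤ),
    zfPas ((List.range m).map f) p =
      (List.range m).map (fun i => f i - (if i = 0 then p else f (i - 1))) := by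
  induction m with
  | zero => intro f p; rfl
  | succ m ih =>
    intro f p
    have h1 : ∀ g : ℕ → ℤ,
        (List.range (m + 1)).map g = g 0 :: (List.range m).map (fun i => g (i + 1)) := by
      intro g
      rw [List.range_succ_eq_map, List.map_cons, List.map_map]
      rfl
    rw [h1 f, h1]
    show (f 0 - p) :: zfPas ((List.range m).map (fun i => f (i + 1))) (f 0) = _
    rw [ih]
    simp only [if_true, Nat.add_one_ne_zero, if_false, Nat.add_sub_cancel]
    congr 1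
    apply List.map_congr_left
    intro i _
    rcases Nat.eq_zero_or_pos i with rfl | hi
    · simp
    · rw [if_neg (by omega), Nat.sub_add_cancel hi]

theorem zfPas_BB (n : ℕ) : zfPas (zfBB n) 0 = zfBB (n + 1) := by
  unfold zfBB
  rw [zfPas_range]
  apply List.map_congr_left
  intro i _
  rcases i with _ | i
  · simp
  · rw [if_neg (by omega), Nat.add_sub_cancel, Nat.choose_succ_succ (n + 1) i]
    push_cast
    ring

theorem zfTB_step (n : ℕ) : (zfTB n).map (fun v => zfPf v 0 []) = zfTB (n + 1) := by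
  unfold zfTB
  rw [List.map_map]
  apply List.map_congr_left
  intro M _
  exact zfPf_V (M + 1) n

theorem zfTB_row (n : ℕ) :
    (zfTB n).map (fun v => v.headD 0) = (List.range 49).map (fun M => Om n (M + 1)) := by
  unfold zfTB
  rw [List.map_map]
  apply List.map_congr_left
  intro M _
  show (zfV (M + 1) n).headD 0 = Om n (M + 1)
  unfold zfV
  rw [List.range_succ_eq_map, List.map_cons]
  rfl

theorem zfSkip_eq (k : ℕ) : ∀ n, zfSkip k (zfBB n) (zfTB n) = (zfBB (n + k), zfTB (n + k)) := by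
  induction k with
  | zero => intro n; rfl
  | succ k ih =>
    intro n
    show zfSkip k (zfPas (zfBB n) 0) ((zfTB n).map (fun v => zfPf v 0 [])) = _
    rw [zfPas_BB, zfTB_step, ih]
    rw [show n + 1 + k = n + (k + 1) by omega]

theorem zfB0_eq : zfB0 = zfBB 0 := by decide

theorem zfT0_eq : zfT0 = zfTB 0 := by
  unfold zfT0 zfTB
  apply List.map_congr_left
  intro M _
  unfold zfV
  refine List.ext_getElem (by simp) (fun i h1 h2 => ?_)
  rw [List.getElem_replicate, List.getElem_map]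
  rfl

theorem zfGo_sound : ∀ (data : List (List (ℕ × ℕ))) (n : ℕ), zfGo data n (zfBB n) (zfTB n) = true →
    ∀ i (hi : i < data.length),
      zfChk (n + i) (zfBB (n + i)) ((List.range 49).map (fun M => Om (n + i) (M + 1))) data[i] =
        true := by
  intro data
  induction data with
  | nil => intro n _ i hi; simp at hi
  | cons pts rest ih =>
    intro n h i hi
    have h' : (zfChk n (zfBB n) ((zfTB n).map (fun v => v.headD 0)) pts &&
      zfGo rest (n + 1) (zfPas (zfBB n) 0) ((zfTB n).map (fun v => zfPf v 0 []))) = true := h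
    rw [Bool.and_eq_true, zfTB_row, zfPas_BB, zfTB_step] at h'
    rcases i with _ | i
    · exact h'.1
    · have := ih (n + 1) h'.2 i (by simpa using hi)
      rw [show n + 1 + i = n + (i + 1) by omega] at this
      exact this

theorem zfDot_range (m : ℕ) : ∀ (L : ℕ) (f g : ℕ → ℤ) (acc : ℤ), m ≤ L →
    zfDot ((List.range L).map f) ((List.range m).map g) acc =
      acc + ∑ t ∈ Finset.range m, f t * g t := by
  induction m with
  | zero =>
    intro L f g acc _
    rcases L with _ | L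
    · simp [zfDot]
    · rw [List.range_succ_eq_map, List.map_cons]
      simp [zfDot]
  | succ m ih =>
    intro L f g acc hL
    obtain ⟨L, rfl⟩ : ∃ L', L = L' + 1 := ⟨L - 1, by omega⟩
    have h1 : ∀ (m : ℕ) (g : ℕ → ℤ),
        (List.range (m + 1)).map g = g 0 :: (List.range m).map (fun i => g (i + 1)) := by
      intro m g
      rw [List.range_succ_eq_map, List.map_cons, List.map_map]
      rfl
    rw [h1 L f, h1 m g]
    show zfDot ((List.range L).map (fun i => f (i + 1))) ((List.range m).map (fun i => g (i + 1)))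
      (acc + f 0 * g 0) = _
    rw [ih L _ _ _ (by omega), Finset.sum_range_succ']
    ring

theorem zfHc_range (L : ℕ) (f : ℕ → ℤ) (r : ℕ → ℕ) (k : ℕ) : ∀ (s m : ℕ), k ≤ m → s + k ≤ L →
    zfHc ((List.range L).map f) k ((List.range m).map (fun i => r (s + i)))
      ((List.range s).map (fun i => (r (s - 1 - i) : ℤ))) =
    (List.range k).map (fun i => ∑ t ∈ Finset.range (s + i + 1), f t * (r (s + i - t) : ℤ)) := by
  induction k with
  | zero => intro s m _ _; rfl
  | succ k ih =>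
    intro s m hm hL
    obtain ⟨m, rfl⟩ : ∃ m', m = m' + 1 := ⟨m - 1, by omega⟩
    have h1 : ∀ (m : ℕ) (g : ℕ → ℤ),
        (List.range (m + 1)).map g = g 0 :: (List.range m).map (fun i => g (i + 1)) := by
      intro m g
      rw [List.range_succ_eq_map, List.map_cons, List.map_map]
      rfl
    have h2 : (List.range (m + 1)).map (fun i => r (s + i)) =
        r s :: (List.range m).map (fun i => r (s + 1 + i)) := by
      rw [List.range_succ_eq_map, List.map_cons, List.map_map]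
      congr 1
      apply List.map_congr_left
      intro i _
      show r (s + (i + 1)) = r (s + 1 + i)
      congr 1
      omega
    have h3 : (r s : ℤ) :: (List.range s).map (fun i => (r (s - 1 - i) : ℤ)) =
        (List.range (s + 1)).map (fun i => (r (s + 1 - 1 - i) : ℤ)) := by
      rw [h1]
      congr 1
      apply List.map_congr_left
      intro i _
      congr 2
      omega
    rw [h2]
    show zfDot ((List.range L).map f) ((r s : ℤ) :: (List.range s).map (fun i => (r (s - 1 - i) : ℤ))) 0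
      :: zfHc ((List.range L).map f) k ((List.range m).map (fun i => r (s + 1 + i)))
      ((r s : ℤ) :: (List.range s).map (fun i => (r (s - 1 - i) : ℤ))) = _
    rw [h3, ih (s + 1) m (by omega) (by omega), zfDot_range (s + 1) L _ _ _ (by omega), h1]
    congr 1
    · simp
    · apply List.map_congr_left
      intro i _
      rw [show s + 1 + i + 1 = s + (i + 1) + 1 by omega]
      apply Finset.sum_congr rfl
      intro t _
      congr 2
      congr 1
      omega

/-- value of a list as a polynomial -/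
noncomputable def zfP (t : ℝ) : List ℕ → ℝ
  | [] => 0
  | c :: cs => c + t * zfP t cs

theorem zfP_range (t : ℝ) (m : ℕ) : ∀ (f : ℕ → ℕ),
    zfP t ((List.range m).map f) = ∑ j ∈ Finset.range m, (f j : ℝ) * t ^ j := by
  induction m with
  | zero => intro f; simp [zfP]
  | succ m ih =>
    intro f
    rw [List.range_succ_eq_map, List.map_cons, List.map_map]
    show (f 0 : ℝ) + t * zfP t ((List.range m).map (fun i => f (i + 1))) = _
    rw [ih, Finset.sum_range_succ', Finset.mul_sum, add_comm]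
    congr 1
    · apply Finset.sum_congr rfl
      intro j _
      ring
    · simp

theorem zfEv_sound (p q : ℕ) (hq : 0 < q) (s : Bool) (cs : List ℕ) : ∀ (A B pp : ℕ),
    zfEv p q s cs A B pp = true →
      0 < (if s then (-1 : ℝ) else 1) * (-1) ^ cs.length *
        (((A : ℝ) - B) + (pp / q) * zfP (-(p / q : ℝ)) cs) := by
  have hq' : (0 : ℝ) < q := by exact_mod_cast hq
  induction cs with
  | nil =>
    intro A B pp h
    have h' : (if s then Nat.blt A B else Nat.blt B A) = true := h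
    rcases s with _ | _
    · simp only [Bool.false_eq_true, if_false] at h' ⊢
      have h2 : B < A := by simpa [Nat.blt_eq] using h'
      simp [zfP]
      exact h2
    · simp only [if_true] at h' ⊢
      have h2 : A < B := by simpa [Nat.blt_eq] using h'
      simp [zfP]
      exact h2
  | cons c cs ih =>
    intro A B pp h
    have h' : zfEv p q s cs (B * q) (A * q + c * pp) (pp * p) = true := h
    have h2 := ih _ _ _ h'
    have h3 : (if s then (-1 : ℝ) else 1) * (-1) ^ cs.length *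
        ((((B * q : ℕ) : ℝ) - ((A * q + c * pp : ℕ) : ℝ)) +
          (((pp * p : ℕ) : ℝ) / q) * zfP (-(p / q : ℝ)) cs) =
        q * ((if s then (-1 : ℝ) else 1) * (-1) ^ (c :: cs).length *
        (((A : ℝ) - B) + (pp / q) * zfP (-(p / q : ℝ)) (c :: cs))) := by
      rw [List.length_cons]
      show _ = q * ((if s then (-1 : ℝ) else 1) * (-1) ^ (cs.length + 1) *
        (((A : ℝ) - B) + (pp / q) * (c + (-(p / q : ℝ)) * zfP (-(p / q : ℝ)) cs)))
      push_cast
      field_simp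
      ring
    rw [h3] at h2
    exact (pos_iff_pos_of_mul_pos h2).1 hq'

theorem zfChkp_sound (fl : List ℕ) : ∀ (pts : List (ℕ × ℕ)) (s : Bool) (a b : ℕ),
    zfChkp fl pts s a b = true → ∀ i (hi : i < pts.length),
      0 < (pts[i]).1 ∧ (pts[i]).1 < (pts[i]).2 ∧
      zfEv (pts[i]).1 (pts[i]).2 (if i % 2 = 0 then s else !s) fl 0 0 1 = true := by
  intro pts
  induction pts with
  | nil => intro s a b _ i hi; simp at hi
  | cons x ps ih =>
    intro s a b h i hi
    obtain ⟨p, q⟩ := x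
    have h' : (Nat.blt 0 p && Nat.blt p q && Nat.ble (a * q) (p * b) && zfEv p q s fl 0 0 1 &&
      zfChkp fl ps (!s) p q) = true := h
    simp only [Bool.and_eq_true, Nat.blt_eq] at h'
    obtain ⟨⟨⟨⟨h1, h2⟩, h3⟩, h4⟩, h5⟩ := h'
    rcases i with _ | i
    · exact ⟨h1, h2, h4⟩
    · obtain ⟨e1, e2, e3⟩ := ih (!s) p q h5 i (by simpa using hi)
      refine ⟨e1, e2, ?_⟩
      have e4 : (if i % 2 = 0 then (!s) else !(!s)) = (if (i + 1) % 2 = 0 then s else !s) := by
        rcases Nat.mod_two_eq_zero_or_one i with hi2 | hi2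
        · rw [if_pos hi2, if_neg (by omega)]
        · rw [if_neg (by omega), if_pos (by omega), Bool.not_not]
      rw [e4] at e3
      exact e3

theorem zfChkp_anti (fl : List ℕ) : ∀ (pts : List (ℕ × ℕ)) (s : Bool) (a b : ℕ),
    zfChkp fl pts s a b = true → ∀ i (hi : i + 1 < pts.length),
      (pts[i]).1 * (pts[i + 1]).2 ≤ (pts[i + 1]).1 * (pts[i]).2 := by
  intro pts
  induction pts with
  | nil => intro s a b _ i hi; simp at hi
  | cons x ps ih =>
    intro s a b h i hi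
    obtain ⟨p, q⟩ := x
    have h' : (Nat.blt 0 p && Nat.blt p q && Nat.ble (a * q) (p * b) && zfEv p q s fl 0 0 1 &&
      zfChkp fl ps (!s) p q) = true := h
    simp only [Bool.and_eq_true] at h'
    obtain ⟨_, h5⟩ := h'
    rcases i with _ | i
    · rcases ps with _ | ⟨⟨p', q'⟩, ps'⟩
      · simp at hi
      · have h6 : (Nat.blt 0 p' && Nat.blt p' q' && Nat.ble (p * q') (p' * q) &&
          zfEv p' q' (!s) fl 0 0 1 && zfChkp fl ps' (!!s) p' q') = true := h5
        simp only [Bool.and_eq_true, Nat.ble_eq] at h6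
        exact h6.1.1.2
    · exact ih (!s) p q h5 i (by simpa using hi)

theorem zfFull_eq (n : ℕ) (c : ℕ → ℕ) (hn : 3 ≤ n) (hc : ∀ j, j ≤ n - 2 → c j = c (n - 2 - j)) :
    zfFull (n % 2 == 0) ((List.range (n / 2)).map c) = (List.range (n - 1)).map c := by
  unfold zfFull
  rcases Nat.mod_two_eq_zero_or_one n with h | h
  · rw [h]
    simp only [beq_self_eq_true, if_true]
    refine List.ext_getElem ?_ (fun i h1 h2 => ?_)
    · simp
      omega
    · have h2' : i < n - 1 := by simpa using h2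
      rw [List.getElem_append]
      split_ifs with h3
      · simp
      · have h3' : n / 2 ≤ i := by simpa using h3
        simp only [List.length_map, List.length_range, List.getElem_tail, List.getElem_reverse,
          List.getElem_map, List.getElem_range]
        rw [hc i (by omega)]
        congr 1
        omega
  · rw [h]
    have hb : ((1 : ℕ) == 0) = false := rfl
    rw [hb]
    simp only [Bool.false_eq_true, if_false]
    refine List.ext_getElem ?_ (fun i h1 h2 => ?_)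
    · simp
      omega
    · have h2' : i < n - 1 := by simpa using h2
      rw [List.getElem_append]
      split_ifs with h3
      · simp
      · have h3' : n / 2 ≤ i := by simpa using h3
        simp only [List.length_map, List.length_range, List.getElem_reverse,
          List.getElem_map, List.getElem_range]
        rw [hc i (by omega)]
        congr 1
        omega

/-- `n ≤ 2`: `h = 1`. -/
theorem small_le_two {n : ℕ} (hn : n ≤ 2) {h : Polynomial ℤ} (hh : IsH n h) :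
    (HR h).roots.card = (HR h).natDegree := by
  have key : h = 1 := by
    have h1 : (PowerSeries.mk (fun m : ℕ => ((Om n (m + 1) : ℕ) : ℤ))) =
        PowerSeries.mk (fun m : ℕ => ((n + m).choose n : ℤ)) := by
      ext m
      rw [PowerSeries.coeff_mk, PowerSeries.coeff_mk]
      norm_cast
      interval_cases n
      · simp [Om, W]
      · simp [Om, W]
        omega
      · simp only [Om, W, Finset.sum_const, Finset.card_range, smul_eq_mul, mul_one, Nat.sub_zero]
        induction m with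
        | zero => rfl
        | succ m ih =>
          rw [Finset.sum_range_succ']
          have e1 : ∑ k ∈ Finset.range (m + 1), (m + 1 + 1 - (k + 1)) =
              ∑ k ∈ Finset.range (m + 1), (m + 1 - k) := by
            apply Finset.sum_congr rfl
            intro k _
            omega
          rw [e1, ih, show 2 + (m + 1) = (2 + m) + 1 by omega, Nat.choose_succ_succ (2 + m) 1,
            Nat.choose_one_right]
          simp only [Nat.succ_eq_add_one, Nat.reduceAdd]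
          omega
    have h2 : (h : PowerSeries ℤ) = 1 := by
      rw [← hh, h1]
      exact PowerSeries.mk_add_choose_mul_one_sub_pow_eq_one (S := ℤ) n
    exact_mod_cast h2
  subst key
  simp [HR]

/-- finite check, `3 ≤ n < 100` -/
theorem small_check {n : ℕ} (hn : 3 ≤ n) (hn' : n < 100) {h : Polynomial ℤ} (hh : IsH n h) :
    (HR h).roots.card = (HR h).natDegree := by
  have hrun := zf_run
  rw [zfB0_eq, zfT0_eq, zfSkip_eq 3 0] at hrun
  have hlen : zfPts.length = 97 := by decide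
  have h0 := zfGo_sound zfPts 3 hrun (n - 3) (by rw [hlen]; omega)
  rw [show 3 + (n - 3) = n by omega] at h0
  set pts := zfPts[n - 3]'(by rw [hlen]; omega) with hpts
  have h1 : (Nat.beq pts.length (n / 2) &&
    (zfHc (zfBB n) (n / 2) ((List.range 49).map (fun M => Om n (M + 1))) []).all
      (fun c => decide (0 ≤ c)) &&
    zfChkp (zfFull (n % 2 == 0)
      ((zfHc (zfBB n) (n / 2) ((List.range 49).map (fun M => Om n (M + 1))) []).map Int.toNat))
      pts (n % 2 == 0) 0 1) = true := h0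
  simp only [Bool.and_eq_true] at h1
  obtain ⟨⟨h2, h3⟩, h4⟩ := h1
  have hplen : pts.length = n / 2 := Nat.eq_of_beq_eq_true h2
  have hHc : zfHc (zfBB n) (n / 2) ((List.range 49).map (fun M => Om n (M + 1))) [] =
      (List.range (n / 2)).map (fun j => h.coeff j) := by
    have e1 := zfHc_range 51 (fun i => (-1) ^ i * ((n + 1).choose i : ℤ)) (fun i => Om n (i + 1))
      (n / 2) 0 49 (by omega) (by omega)
    have e2 : (List.range 49).map (fun i => (fun i => Om n (i + 1)) (0 + i)) =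
        (List.range 49).map (fun M => Om n (M + 1)) := by
      apply List.map_congr_left
      intro i _
      rw [Nat.zero_add]
    rw [e2] at e1
    refine e1.trans ?_
    apply List.map_congr_left
    intro j _
    rw [coeff_of_isH hh j, Nat.zero_add]
  rw [hHc] at h3 h4
  have hpos : ∀ j < n / 2, 0 ≤ h.coeff j := by
    intro j hj
    rw [List.all_eq_true] at h3
    have := h3 (h.coeff j) (List.mem_map.2 ⟨j, List.mem_range.2 hj, rfl⟩)
    exact of_decide_eq_true this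
  have hsymm : ∀ j, j ≤ n - 2 → h.coeff j = h.coeff (n - 2 - j) := fun j hj =>
    coeff_symm_of_isH (by omega) hh hj
  have hpos' : ∀ j, j ≤ n - 2 → 0 ≤ h.coeff j := by
    intro j hj
    by_cases hj2 : j < n / 2
    · exact hpos j hj2
    · rw [hsymm j hj]
      exact hpos _ (by omega)
  rw [List.map_map] at h4
  have h5 : zfFull (n % 2 == 0) ((List.range (n / 2)).map (Int.toNat ∘ fun j => h.coeff j)) =
      (List.range (n - 1)).map (Int.toNat ∘ fun j => h.coeff j) := by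
    apply zfFull_eq n _ hn
    intro j hj
    show (h.coeff j).toNat = (h.coeff (n - 2 - j)).toNat
    rw [hsymm j hj]
  rw [h5] at h4
  -- the polynomial
  have hdeg : h.natDegree ≤ n - 2 := natDegree_of_isH (by omega) hh
  have hdegR : (HR h).natDegree ≤ n - 2 := (Polynomial.natDegree_map_le).trans hdeg
  have heval : ∀ t : ℝ, (HR h).eval t =
      zfP t ((List.range (n - 1)).map (Int.toNat ∘ fun j => h.coeff j)) := by
    intro t
    rw [zfP_range, Polynomial.eval_eq_sum_range' (n := n - 1) (by omega)]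
    apply Finset.sum_congr rfl
    intro j hj
    have hj' : j < n - 1 := Finset.mem_range.1 hj
    congr 1
    have e1 : ((h.coeff j).toNat : ℤ) = h.coeff j := Int.toNat_of_nonneg (hpos' j (by omega))
    have e2 : (((h.coeff j).toNat : ℤ) : ℝ) = ((h.coeff j : ℤ) : ℝ) := by rw [e1]
    show ((HR h).coeff j) = (((h.coeff j).toNat : ℕ) : ℝ)
    unfold HR
    rw [Polynomial.coeff_map, eq_intCast]
    rw [Int.cast_natCast] at e2
    exact e2.symm
  have hget : ∀ m, 1 ≤ m → m ≤ n / 2 → m - 1 < pts.length := by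
    intro m h1 h2
    omega
  let τ : ℕ → ℝ := fun m => -(((pts.getD (m - 1) (0, 1)).1 : ℝ) / ((pts.getD (m - 1) (0, 1)).2 : ℝ))
  have hτ : ∀ m (h1 : 1 ≤ m) (h2 : m ≤ n / 2), τ m =
      -(((pts[m - 1]'(hget m h1 h2)).1 : ℝ) / ((pts[m - 1]'(hget m h1 h2)).2 : ℝ)) := by
    intro m h1 h2
    show -(((pts.getD (m - 1) (0, 1)).1 : ℝ) / ((pts.getD (m - 1) (0, 1)).2 : ℝ)) = _
    rw [List.getD_eq_getElem _ _ (hget m h1 h2)]
  refine roots_card_of_symm (HR h) n hn hdegR (fun t ht => eval_inv_of_isH (by omega) hh ht) τ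
    ?_ ?_ ?_ ?_
  · intro m hm1 hm2
    obtain ⟨e1, e2, e3⟩ := zfChkp_sound _ _ _ _ _ h4 (m - 1) (hget m hm1 hm2)
    rw [hτ m hm1 hm2]
    have e1' : (0 : ℝ) < ((pts[m - 1]'(hget m hm1 hm2)).1 : ℝ) := by exact_mod_cast e1
    have e2' : (0 : ℝ) < ((pts[m - 1]'(hget m hm1 hm2)).2 : ℝ) := by
      exact_mod_cast lt_trans e1 e2
    have := div_pos e1' e2'
    linarith
  · intro m hm1 hm2
    obtain ⟨e1, e2, e3⟩ := zfChkp_sound _ _ _ _ _ h4 (m - 1) (hget m hm1 hm2)
    rw [hτ m hm1 hm2]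
    have e1' : ((pts[m - 1]'(hget m hm1 hm2)).1 : ℝ) < ((pts[m - 1]'(hget m hm1 hm2)).2 : ℝ) := by
      exact_mod_cast e2
    have e2' : (0 : ℝ) < ((pts[m - 1]'(hget m hm1 hm2)).2 : ℝ) := by
      exact_mod_cast lt_trans e1 e2
    have := (div_lt_one e2').2 e1'
    linarith
  · intro m hm1 hm2
    have e4 := zfChkp_anti _ _ _ _ _ h4 (m - 1) (by omega)
    obtain ⟨e1, e2, e3⟩ := zfChkp_sound _ _ _ _ _ h4 (m - 1) (hget m hm1 (by omega))
    obtain ⟨f1, f2, f3⟩ := zfChkp_sound _ _ _ _ _ h4 m (by omega)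
    rw [hτ m hm1 (by omega), hτ (m + 1) (by omega) hm2]
    have hm : m + 1 - 1 = m := by omega
    have hm' : m - 1 + 1 = m := by omega
    simp only [hm, hm'] at e4 ⊢
    have e2' : (0 : ℝ) < ((pts[m - 1]'(hget m hm1 (by omega))).2 : ℝ) := by
      exact_mod_cast lt_trans e1 e2
    have f2' : (0 : ℝ) < ((pts[m]'(by omega)).2 : ℝ) := by
      exact_mod_cast lt_trans f1 f2
    have e5 : ((pts[m - 1]'(hget m hm1 (by omega))).1 : ℝ) * ((pts[m]'(by omega)).2 : ℝ) ≤
        ((pts[m]'(by omega)).1 : ℝ) * ((pts[m - 1]'(hget m hm1 (by omega))).2 : ℝ) := by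
      exact_mod_cast e4
    have := (div_le_div_iff₀ e2' f2').2 e5
    linarith
  · intro m hm1 hm2
    obtain ⟨e1, e2, e3⟩ := zfChkp_sound _ _ _ _ _ h4 (m - 1) (hget m hm1 hm2)
    have hq : 0 < (pts[m - 1]'(hget m hm1 hm2)).2 := lt_trans e1 e2
    have hq' : (0 : ℝ) < ((pts[m - 1]'(hget m hm1 hm2)).2 : ℝ) := by exact_mod_cast hq
    have e4 := zfEv_sound _ _ hq _ _ _ _ _ e3
    rw [List.length_map, List.length_range, ← heval, ← hτ m hm1 hm2] at e4
    have e5 : (if (if (m - 1) % 2 = 0 then (n % 2 == 0) else !(n % 2 == 0)) then (-1 : ℝ) else 1) *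
        (-1) ^ (n - 1) = (-1) ^ (m - 1) := by
      obtain ⟨m', rfl⟩ : ∃ m', m = m' + 1 := ⟨m - 1, by omega⟩
      obtain ⟨n', rfl⟩ : ∃ n', n = n' + 1 := ⟨n - 1, by omega⟩
      simp only [Nat.add_sub_cancel]
      rcases Nat.even_or_odd' m' with ⟨a, rfl | rfl⟩ <;>
        rcases Nat.even_or_odd' n' with ⟨b, rfl | rfl⟩
      · have g1 : 2 * a % 2 = 0 := by omega
        have g2 : (2 * b + 1) % 2 = 1 := by omega
        simp [g2, pow_mul]
      · have g1 : 2 * a % 2 = 0 := by omega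
        have g2 : (2 * b + 1 + 1) % 2 = 0 := by omega
        simp [g2, pow_mul, pow_succ]
      · have g1 : (2 * a + 1) % 2 = 1 := by omega
        have g2 : (2 * b + 1) % 2 = 1 := by omega
        simp [g1, g2, pow_mul, pow_succ]
      · have g1 : (2 * a + 1) % 2 = 1 := by omega
        have g2 : (2 * b + 1 + 1) % 2 = 0 := by omega
        simp [g1, g2, pow_mul, pow_succ]
    rw [e5] at e4
    have e6 : (-1 : ℝ) ^ (m - 1) * (((0 : ℕ) : ℝ) - ((0 : ℕ) : ℝ) +
        ((1 : ℕ) : ℝ) / ((pts[m - 1]'(hget m hm1 hm2)).2 : ℝ) * (HR h).eval (τ m)) =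
        (1 / ((pts[m - 1]'(hget m hm1 hm2)).2 : ℝ)) * ((-1) ^ (m - 1) * (HR h).eval (τ m)) := by
      push_cast
      ring
    rw [e6] at e4
    exact (pos_iff_pos_of_mul_pos e4).1 (by positivity)

end Pool.Agent.Lib.Zigzag
end

section

set_option autoImplicit false

namespace Pool.Agent.Lib.Zigzag

open Real

/-- The amplitude of the main term. -/
noncomputable def AA (n : ℕ) (θ : ℝ) : ℝ := cc n n * (n.factorial : ℝ) / rr θ ^ (n + 1)

theorem ZTerm_rr_pos {θ : ℝ} (h0 : 0 < θ) (h1 : θ < π / 2) : 0 < rr θ := by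
  have hs : 0 < sin θ := sin_pos_of_pos_of_lt_pi h0 (by linarith [pi_pos])
  have := pi_pos
  unfold rr
  positivity

theorem AA_pos (n : ℕ) {θ : ℝ} (h0 : 0 < θ) (h1 : θ < π / 2) : 0 < AA n θ := by
  have hr := ZTerm_rr_pos h0 h1
  have he := eps_pos n
  have hf : (0 : ℝ) < (n.factorial : ℝ) := by exact_mod_cast n.factorial_pos
  unfold AA cc
  rw [ac_self, mul_one]
  positivity

theorem ZTerm_summable (k : ℕ) {v : ℝ} (hv : 0 < v) :
    Summable (fun m : ℕ => (-1 : ℝ) ^ m * (2 * (m : ℝ) + 1) ^ k * exp (-((2 * (m : ℝ) + 1) * v))) := by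
  have h1 := Real.summable_pow_mul_exp_neg_nat_mul k hv
  have h2 : Function.Injective (fun m : ℕ => 2 * m + 1) := fun a b h => by
    simp only at h
    omega
  have h3 := h1.comp_injective h2
  apply Summable.of_norm
  refine h3.congr fun m => ?_
  simp only [Function.comp_apply]
  rw [norm_mul, norm_mul, norm_pow, norm_neg, norm_one, one_pow, one_mul, Real.norm_eq_abs,
    Real.norm_eq_abs, abs_of_nonneg (by positivity), abs_of_pos (exp_pos _)]
  push_cast
  congr 2
  ring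

/-- Proof: `Om n m = PP n (2m+1) = ∑_k cc n k (2m+1)^k` (`Om_eq_PP`), finite sum of the convergent series `KK k v`. -/
theorem YY_eq_sum {n : ℕ} (hn : 2 ≤ n) {v : ℝ} (hv : 0 < v) :
    YY n v = ∑ k ∈ Finset.range (n + 1), cc n k * KK k v := by
  unfold YY KK
  have h1 : ∀ m : ℕ, (-1 : ℝ) ^ m * (Om n m : ℝ) * exp (-((2 * (m : ℝ) + 1) * v)) =
      ∑ k ∈ Finset.range (n + 1),
        cc n k * ((-1) ^ m * (2 * (m : ℝ) + 1) ^ k * exp (-((2 * (m : ℝ) + 1) * v))) := by
    intro m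
    rw [Om_eq_PP hn m]
    unfold PP
    rw [Finset.mul_sum, Finset.sum_mul]
    refine Finset.sum_congr rfl fun k _ => ?_
    ring
  simp_rw [h1]
  rw [Summable.tsum_finsetSum fun k _ => (ZTerm_summable k hv).mul_left _]
  refine Finset.sum_congr rfl fun k _ => ?_
  rw [tsum_mul_left]

theorem ZTerm_ident (a b r f g s F B P : ℝ) (k j : ℕ) (hab : a * b = 1) (hr : r ≠ 0) (hf : f ≠ 0)
    (hP : P ≠ 0) :
    2 * a ^ (k + 1) * s * B / P * (g / r ^ (k + 1) * F) =
      (2 * a ^ (k + 2 * j + 1) / P * f / r ^ (k + 2 * j + 1)) * (s * F) *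
        ((b ^ 2 * r ^ 2) ^ j * B * (g / f)) := by
  have h1 : a ^ (k + 2 * j + 1) = a ^ (k + 1) * (a ^ 2) ^ j := by
    rw [← pow_mul, ← pow_add]
    congr 1
    ring
  have h2 : r ^ (k + 2 * j + 1) = r ^ (k + 1) * (r ^ 2) ^ j := by
    rw [← pow_mul, ← pow_add]
    congr 1
    ring
  have h3 : (a ^ 2) ^ j * (b ^ 2) ^ j = 1 := by
    rw [← mul_pow, ← mul_pow, hab, one_pow, one_pow]
  rw [h1, h2, mul_pow]
  have hr1 : r ^ (k + 1) ≠ 0 := pow_ne_zero _ hr
  have hr2 : (r ^ 2) ^ j ≠ 0 := pow_ne_zero _ (pow_ne_zero _ hr)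
  generalize r ^ (k + 1) = R1 at *
  generalize (r ^ 2) ^ j = R2 at *
  generalize (a ^ 2) ^ j = A2 at *
  generalize (b ^ 2) ^ j = B2 at *
  generalize a ^ (k + 1) = A1 at *
  have h4 : 2 * (A1 * A2) / P * f / (R1 * R2) * (s * F) * (B2 * R2 * B * (g / f)) =
      (A2 * B2) * (2 * A1 * s * B / P * (g / R1 * F)) := by
    field_simp
  rw [h4, h3, one_mul]

/-- One lower term. With `k = n - 2j`, `|cc n k|/cc n n ≤ (π/2)^{2j} (SS k/SS n) (n+1)/(k+1) ∏_{i<j}((k+1)/6+i)/(i+1)`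
(`abs_ac_le`, `ac_self`, definition of `eps`), `(π²/4) r² ≤ 1.925 n` (`π² < 9.8697`), and
`(SS k/SS n) FF n k r ≤ GG n j`: for `4j ≤ n` one has `k ≥ n/2 ≥ 50`, `n ≤ 2(k+1)`, `1.06 * 1.001/0.999 ≤ 1.063`; for
`4j > n` either factor is at most `(5/4)/0.999 * max(1.06, 1 + 0.13 n)`. -/
theorem term_le {n j : ℕ} (hn : 100 ≤ n) (h1j : 1 ≤ j) (hj : 2 * j ≤ n) {θ : ℝ} (h0 : 0 < θ)
    (h1 : θ < π / 2) (hr2 : rr θ ^ 2 ≤ 0.78 * n) :
    |cc n (n - 2 * j) * KK (n - 2 * j) (vv θ)| ≤ AA n θ * (GG n j * TT n j) := by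
  obtain ⟨k, rfl⟩ : ∃ k, n = k + 2 * j := ⟨n - 2 * j, by omega⟩
  have e1 : k + 2 * j - 2 * j = k := by omega
  rw [e1]
  have hr := ZTerm_rr_pos h0 h1
  have hK := abs_KK_le (k := k) hn (by omega) h0 h1 hr2
  have hA := abs_ac_le k j (by omega)
  have hSk := SS_pos k
  have hSn := SS_near (k := k + 2 * j) (by omega)
  have hfk : (0 : ℝ) < (k.factorial : ℝ) := by exact_mod_cast k.factorial_pos
  have hfn : (0 : ℝ) < ((k + 2 * j).factorial : ℝ) := by exact_mod_cast (k + 2 * j).factorial_pos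
  have hpi := pi_pos
  set B : ℝ := (((k : ℝ) + 2 * j + 1) / ((k : ℝ) + 1)) *
      ∏ i ∈ Finset.range j, ((((k : ℝ) + 1) / 6 + i) / ((i : ℝ) + 1)) with hB
  have hB0 : 0 ≤ B := (abs_nonneg _).trans hA
  have hFF0 : 0 ≤ FF (k + 2 * j) k (rr θ) := by
    unfold FF
    split_ifs
    · norm_num
    · positivity
  -- the factor
  have hn' : (100 : ℝ) ≤ ((k + 2 * j : ℕ) : ℝ) := by exact_mod_cast hn
  have hG : SS k * FF (k + 2 * j) k (rr θ) ≤ SS (k + 2 * j) * GG (k + 2 * j) j := by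
    unfold GG
    split_ifs with h4
    · have hk50 : 20 ≤ k := by omega
      have hSk2 := (SS_near hk50).2
      have hFF : FF (k + 2 * j) k (rr θ) = 1.06 := by
        unfold FF
        rw [if_pos (by omega)]
      rw [hFF]
      have := hSn.1
      nlinarith
    · have hSk2 := SS_le k
      have hFF : FF (k + 2 * j) k (rr θ) ≤ 1 + 0.13 * ((k + 2 * j : ℕ) : ℝ) := by
        unfold FF
        split_ifs
        · nlinarith
        · nlinarith
      have h5 : SS k * FF (k + 2 * j) k (rr θ) ≤ 5 / 4 * (1 + 0.13 * ((k + 2 * j : ℕ) : ℝ)) :=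
        mul_le_mul hSk2 hFF hFF0 (by norm_num)
      have h6 : (999 / 1000 : ℝ) * (1.3 * (1 + 0.13 * ((k + 2 * j : ℕ) : ℝ))) ≤
          SS (k + 2 * j) * (1.3 * (1 + 0.13 * ((k + 2 * j : ℕ) : ℝ))) :=
        mul_le_mul_of_nonneg_right hSn.1 (by positivity)
      have h7 : (0 : ℝ) ≤ 1 + 0.13 * ((k + 2 * j : ℕ) : ℝ) := by positivity
      linarith
  -- the product
  have hX : ((π / 2) ^ 2 * rr θ ^ 2) ^ j * B *
      ((k.factorial : ℝ) / ((k + 2 * j).factorial : ℝ)) ≤ TT (k + 2 * j) j := by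
    have h5 : (π / 2) ^ 2 * rr θ ^ 2 ≤ 1.925 * ((k + 2 * j : ℕ) : ℝ) := by
      have h6 : π ^ 2 < 9.8697 := by
        have h7 := pi_lt_d6
        have : π < 3.141593 := h7
        nlinarith
      have h7 : (π / 2) ^ 2 * rr θ ^ 2 ≤ (π / 2) ^ 2 * (0.78 * ((k + 2 * j : ℕ) : ℝ)) :=
        mul_le_mul_of_nonneg_left hr2 (by positivity)
      refine h7.trans ?_
      have h8 : (π / 2) ^ 2 * (0.78 * ((k + 2 * j : ℕ) : ℝ)) =
          (π ^ 2 * 0.195) * ((k + 2 * j : ℕ) : ℝ) := by ring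
      rw [h8]
      apply mul_le_mul_of_nonneg_right _ (by positivity)
      linarith
    have h9 : ((π / 2) ^ 2 * rr θ ^ 2) ^ j ≤ (1.925 * ((k + 2 * j : ℕ) : ℝ)) ^ j :=
      pow_le_pow_left₀ (by positivity) h5 j
    have h10 : TT (k + 2 * j) j = (1.925 * ((k + 2 * j : ℕ) : ℝ)) ^ j * B *
        ((k.factorial : ℝ) / ((k + 2 * j).factorial : ℝ)) := by
      unfold TT
      rw [e1, hB]
      have h11 : ((k + 2 * j : ℕ) : ℝ) - 2 * (j : ℝ) + 1 = (k : ℝ) + 1 := by
        push_cast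
        ring
      rw [h11]
      have h12 : ((k + 2 * j : ℕ) : ℝ) + 1 = (k : ℝ) + 2 * j + 1 := by push_cast; ring
      rw [h12]
      ring
    rw [h10]
    apply mul_le_mul_of_nonneg_right _ (by positivity)
    exact mul_le_mul_of_nonneg_right h9 hB0
  -- the main chain
  have hab : (2 / π) * (π / 2) = 1 := by field_simp
  have hid := ZTerm_ident (2 / π) (π / 2) (rr θ) ((k + 2 * j).factorial : ℝ) (k.factorial : ℝ)
    (SS k) (FF (k + 2 * j) k (rr θ)) B (2 ^ (k + 2 * j)) k j hab hr.ne' hfn.ne' (by positivity)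
  have hAA : AA (k + 2 * j) θ = (2 * (2 / π) ^ (k + 2 * j + 1) / 2 ^ (k + 2 * j) *
      ((k + 2 * j).factorial : ℝ) / rr θ ^ (k + 2 * j + 1)) * SS (k + 2 * j) := by
    unfold AA cc eps
    rw [ac_self]
    ring
  set Q : ℝ := 2 * (2 / π) ^ (k + 2 * j + 1) / 2 ^ (k + 2 * j) *
      ((k + 2 * j).factorial : ℝ) / rr θ ^ (k + 2 * j + 1) with hQ
  have hQ0 : 0 ≤ Q := by positivity
  have hcc : |cc (k + 2 * j) k| ≤ 2 * (2 / π) ^ (k + 1) * SS k * B / 2 ^ (k + 2 * j) := by
    unfold cc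
    rw [abs_div, abs_mul, abs_of_pos (eps_pos k), abs_of_pos (by positivity : (0:ℝ) < 2 ^ (k + 2 * j))]
    unfold eps
    apply div_le_div_of_nonneg_right _ (by positivity)
    apply mul_le_mul_of_nonneg_left hA (by positivity)
  calc |cc (k + 2 * j) k * KK k (vv θ)| = |cc (k + 2 * j) k| * |KK k (vv θ)| := abs_mul _ _
    _ ≤ (2 * (2 / π) ^ (k + 1) * SS k * B / 2 ^ (k + 2 * j)) *
        ((k.factorial : ℝ) / rr θ ^ (k + 1) * FF (k + 2 * j) k (rr θ)) :=
        mul_le_mul hcc hK (abs_nonneg _) (by positivity)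
    _ = Q * (SS k * FF (k + 2 * j) k (rr θ)) * (((π / 2) ^ 2 * rr θ ^ 2) ^ j * B *
        ((k.factorial : ℝ) / ((k + 2 * j).factorial : ℝ))) := hid
    _ ≤ Q * (SS (k + 2 * j) * GG (k + 2 * j) j) * TT (k + 2 * j) j := by
        apply mul_le_mul (mul_le_mul_of_nonneg_left hG hQ0) hX (by positivity)
        apply mul_nonneg hQ0
        exact (mul_nonneg hSk.le hFF0).trans hG
    _ = AA (k + 2 * j) θ * (GG (k + 2 * j) j * TT (k + 2 * j) j) := by
        rw [hAA]
        ring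

end Pool.Agent.Lib.Zigzag
end

section

set_option autoImplicit false

namespace Pool.Agent.Lib.Zigzag

open Real

theorem cc_eq_zero_of_odd {n k : ℕ} (h : (n + k) % 2 = 1) : cc n k = 0 := by
  unfold cc
  rw [ac_eq_zero (Or.inr h)]
  simp

theorem cc_self_pos (n : ℕ) : 0 < cc n n := by
  unfold cc
  rw [ac_self]
  have := eps_pos n
  positivity

theorem sum_range_parity (n : ℕ) (g : ℕ → ℝ) (hg : ∀ k, (n + k) % 2 = 1 → g k = 0) :
    ∑ k ∈ Finset.range n, g k = ∑ j ∈ Finset.Icc 1 (n / 2), g (n - 2 * j) := by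
  have hinj : Set.InjOn (fun j => n - 2 * j) (Finset.Icc 1 (n / 2) : Finset ℕ) := by
    intro a ha b hb e
    simp only [Finset.coe_Icc, Set.mem_Icc] at ha hb
    simp only at e
    omega
  rw [← Finset.sum_image (f := g) (g := fun j => n - 2 * j) hinj]
  symm
  apply Finset.sum_subset
  · intro k hk
    simp only [Finset.mem_image, Finset.mem_Icc] at hk
    obtain ⟨j, hj, rfl⟩ := hk
    rw [Finset.mem_range]
    omega
  · intro k hk hk'
    rw [Finset.mem_range] at hk
    apply hg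
    by_contra hcon
    apply hk'
    simp only [Finset.mem_image, Finset.mem_Icc]
    refine ⟨(n - k) / 2, ?_, ?_⟩
    · omega
    · omega

/-- The pole estimate. Proof: `YY_eq_sum`; the terms with `n + k` odd vanish (`ac_eq_zero`); the term `k = n` by
`KK_main` and `lip_tail_main`; the others by `term_le` and `sum_TT_le`. Total `0.002 + 0.6 < 0.7`. -/
theorem pole_estimate {n : ℕ} (hn : 100 ≤ n) {θ : ℝ} (h0 : 0 < θ) (h1 : θ < π / 2)
    (hr2 : rr θ ^ 2 ≤ 0.78 * n) :
    |YY n (vv θ) - AA n θ * sin ((n + 1) * θ)| ≤ 0.7 * AA n θ := by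
  have hsin : 0 < sin θ := sin_pos_of_pos_of_lt_pi h0 (by linarith [pi_pos])
  have hcos : 0 < cos θ := cos_pos_of_mem_Ioo ⟨by linarith [pi_pos], h1⟩
  have hv : 0 < vv θ := by
    unfold vv
    have := pi_pos
    positivity
  have hr : 0 < rr θ := by
    unfold rr
    have := pi_pos
    positivity
  have hA := AA_pos n h0 h1
  have hc := cc_self_pos n
  rw [YY_eq_sum (by omega) hv, Finset.sum_range_succ]
  have hmain := KK_main (k := n) (by omega) h0 h1
  have htail := lip_tail_main hn hr hr2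
  have hfac : 0 < (n.factorial : ℝ) / rr θ ^ (n + 1) := by positivity
  have hfirst : |cc n n * KK n (vv θ) - AA n θ * sin ((n + 1) * θ)| ≤ AA n θ * 0.002 := by
    have e : cc n n * KK n (vv θ) - AA n θ * sin ((n + 1) * θ) =
        cc n n * (KK n (vv θ) - (n.factorial : ℝ) * (sin ((n + 1) * θ) / rr θ ^ (n + 1))) := by
      unfold AA
      ring
    rw [e, abs_mul, abs_of_pos hc]
    have e2 : AA n θ * 0.002 = cc n n * ((n.factorial : ℝ) / rr θ ^ (n + 1) * 0.002) := by
      unfold AA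
      ring
    rw [e2]
    apply mul_le_mul_of_nonneg_left _ hc.le
    exact hmain.trans (mul_le_mul_of_nonneg_left htail hfac.le)
  have hsecond : |∑ k ∈ Finset.range n, cc n k * KK k (vv θ)| ≤ AA n θ * 0.6 := by
    refine (Finset.abs_sum_le_sum_abs _ _).trans ?_
    rw [sum_range_parity n (fun k => |cc n k * KK k (vv θ)|) (fun k hk => by
      simp only [cc_eq_zero_of_odd hk, zero_mul, abs_zero])]
    refine le_trans ?_ (mul_le_mul_of_nonneg_left (sum_TT_le hn) hA.le)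
    rw [Finset.mul_sum]
    apply Finset.sum_le_sum
    intro j hj
    rw [Finset.mem_Icc] at hj
    exact term_le hn hj.1 (by omega) h0 h1 hr2
  have e : ∑ k ∈ Finset.range n, cc n k * KK k (vv θ) + cc n n * KK n (vv θ) -
      AA n θ * sin ((n + 1) * θ) = ∑ k ∈ Finset.range n, cc n k * KK k (vv θ) +
      (cc n n * KK n (vv θ) - AA n θ * sin ((n + 1) * θ)) := by ring
  rw [e]
  refine (abs_add_le _ _).trans ?_
  linarith

end Pool.Agent.Lib.Zigzag
end

section

set_option autoImplicit false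

namespace Pool.Agent.Lib.Zigzag

open Real

/-- Proof: `pole_estimate`, `AA_pos` give `0 < (-1)^m YY n (vv θ)`; `YY_eq_of_isH` with `v = vv θ > 0` and
`(-1)^(m-1) = -(-1)^m`. -/
theorem pole_sign {n m : ℕ} (hn : 100 ≤ n) (hm : 1 ≤ m) {θ : ℝ} (h0 : 0 < θ) (h1 : θ < π / 2)
    (hr2 : rr θ ^ 2 ≤ 0.78 * n) (hs : 0.8 ≤ (-1) ^ m * sin (((n : ℝ) + 1) * θ))
    {h : Polynomial ℤ} (hh : IsH n h) :
    0 < (-1) ^ (m - 1) * (HR h).eval (-exp (-(2 * vv θ))) := by
  have hA := AA_pos n h0 h1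
  have hP := pole_estimate hn h0 h1 hr2
  have hv := vv_pos h0 h1
  have hY := YY_eq_of_isH (n := n) (by omega) hh hv
  have hsgn : ((-1 : ℝ)) ^ m = 1 ∨ ((-1 : ℝ)) ^ m = -1 := neg_one_pow_eq_or ℝ m
  have hYpos : 0 < (-1 : ℝ) ^ m * YY n (vv θ) := by
    rw [abs_le] at hP
    rcases hsgn with h | h
    · rw [h] at hs ⊢
      nlinarith [hP.1, hP.2]
    · rw [h] at hs ⊢
      nlinarith [hP.1, hP.2]
  obtain ⟨k, rfl⟩ : ∃ k, m = k + 1 := ⟨m - 1, by omega⟩
  rw [hY, pow_succ] at hYpos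
  simp only [Nat.add_sub_cancel]
  have he : 0 < exp (-(3 * vv θ)) := exp_pos _
  have hd : 0 < (1 + exp (-(2 * vv θ))) ^ (n + 1) := by positivity
  have hkey : (-1 : ℝ) ^ k * -1 * (-exp (-(3 * vv θ)) *
      ((HR h).eval (-exp (-(2 * vv θ))) / (1 + exp (-(2 * vv θ))) ^ (n + 1))) =
      (exp (-(3 * vv θ)) / (1 + exp (-(2 * vv θ))) ^ (n + 1)) *
        ((-1) ^ k * (HR h).eval (-exp (-(2 * vv θ)))) := by
    ring
  rw [hkey] at hYpos
  exact (mul_pos_iff_of_pos_left (by positivity)).1 hYpos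

end Pool.Agent.Lib.Zigzag
end

section

set_option autoImplicit false

namespace Pool.Agent.Lib.Zigzag

open Real

/-- A small negative point where `h > 0`. -/
theorem exists_first_point {h : Polynomial ℤ} (h0 : h.coeff 0 = 1) {b : ℝ} (hb : b < 0)
    (hb1 : -1 < b) : ∃ t : ℝ, b ≤ t ∧ t < 0 ∧ -1 < t ∧ 0 < (HR h).eval t := by
  have hc : Continuous (fun t : ℝ => (HR h).eval t) := (HR h).continuous
  have h1 : (HR h).eval 0 = 1 := by
    rw [← Polynomial.coeff_zero_eq_eval_zero]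
    simp [HR, h0]
  have h2 : ∀ᶠ t in nhds (0 : ℝ), 0 < (HR h).eval t := by
    apply hc.continuousAt.eventually (p := fun y => 0 < y)
    simp only [h1]
    exact lt_mem_nhds one_pos
  rw [Metric.eventually_nhds_iff] at h2
  obtain ⟨ε, hε, h3⟩ := h2
  refine ⟨max b (-(ε / 2)), le_max_left _ _, ?_, ?_, ?_⟩
  · exact max_lt hb (by linarith)
  · exact lt_of_lt_of_le hb1 (le_max_left _ _)
  · apply h3
    rw [dist_zero_right, Real.norm_eq_abs, abs_lt]
    constructor
    · exact lt_of_lt_of_le (by linarith) (le_max_right _ _)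
    · exact lt_trans (max_lt hb (by linarith)) hε

/-- The angle used for the test point `m` in the pole regime. -/
noncomputable def thP (n m : ℕ) : ℝ :=
  if 2 * m < n then th n m else π / 2 - 1 / (2 * ((n : ℝ) + 1))

theorem th_pos (n m : ℕ) : 0 < th n m := by
  unfold th
  positivity

theorem th_mono {n m m' : ℕ} (h : m ≤ m') : th n m ≤ th n m' := by
  unfold th
  have : (m : ℝ) ≤ m' := by exact_mod_cast h
  apply div_le_div_of_nonneg_right _ (by positivity)
  apply mul_le_mul_of_nonneg_right _ pi_pos.le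
  linarith

theorem thP_facts {n m : ℕ} (hn : 100 ≤ n) (hm : m ≤ n / 2) :
    th n m - (if 2 * m < n then 0 else 1 / (2 * ((n : ℝ) + 1))) = thP n m ∧
    0 < thP n m ∧ thP n m < π / 2 := by
  have hn' : (100 : ℝ) ≤ n := by exact_mod_cast hn
  have hpi := pi_gt_three
  have hpi4 := pi_lt_four
  unfold thP
  split_ifs with h
  · refine ⟨by ring, th_pos n m, ?_⟩
    unfold th
    rw [div_lt_iff₀ (by positivity)]
    have h2 : 2 * (m : ℝ) + 1 ≤ n := by exact_mod_cast h
    nlinarith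
  · have h2 : n = 2 * m := by omega
    have h3 : (n : ℝ) = 2 * m := by exact_mod_cast h2
    have hpos : (0 : ℝ) < (n : ℝ) + 1 := by linarith
    refine ⟨?_, ?_, ?_⟩
    · unfold th
      rw [← h3]
      field_simp
    · have : 1 / (2 * ((n : ℝ) + 1)) ≤ 1 := by
        rw [div_le_one (by positivity)]
        linarith
      linarith
    · have : 0 < 1 / (2 * ((n : ℝ) + 1)) := by positivity
      linarith

theorem thP_mono {n m : ℕ} (hn : 100 ≤ n) (hm : m + 1 ≤ n / 2) : thP n m ≤ thP n (m + 1) := by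
  have hn' : (100 : ℝ) ≤ n := by exact_mod_cast hn
  have hpi := pi_gt_three
  have h1 : 2 * m < n := by omega
  unfold thP
  rw [if_pos h1]
  split_ifs with h
  · exact th_mono (by omega)
  · have h2 : n = 2 * (m + 1) := by omega
    have h3 : (n : ℝ) = 2 * (m + 1) := by exact_mod_cast h2
    unfold th
    have hpos : (0 : ℝ) < 2 * ((n : ℝ) + 1) := by linarith
    have h4 : π / 2 - 1 / (2 * ((n : ℝ) + 1)) = (((n : ℝ) + 1) * π - 1) / (2 * ((n : ℝ) + 1)) := by
      field_simp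
    rw [h4]
    apply div_le_div_of_nonneg_right _ hpos.le
    nlinarith

/-- The pole angle satisfies the size condition. -/
theorem thP_rr {n m : ℕ} (hn : 100 ≤ n) (hm : m ≤ n / 2) (h3 : 4 * n < 3 * (2 * m + 1) ^ 2) :
    rr (thP n m) ^ 2 ≤ 0.78 * n := by
  obtain ⟨-, h1, h2⟩ := thP_facts hn hm
  by_cases h : 2 * m < n
  · apply rr_sq_le hn h3.le _ h2.le
    unfold thP
    rw [if_pos h]
  · -- use the previous index
    have h4 : n = 2 * m := by omega
    have h5 : thP n (m - 1) ≤ thP n m := by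
      have := thP_mono (n := n) (m := m - 1) hn (by omega)
      rwa [Nat.sub_add_cancel (by omega)] at this
    have h6 : th n (m - 1) ≤ thP n m := by
      refine le_trans (le_of_eq ?_) h5
      unfold thP
      rw [if_pos (by omega)]
    apply rr_sq_le (m := m - 1) hn _ h6 h2.le
    have h7 : 2 * (m - 1) + 1 = n - 1 := by omega
    rw [h7]
    obtain ⟨k, rfl⟩ : ∃ k, n = k + 1 := ⟨n - 1, by omega⟩
    simp only [Nat.add_sub_cancel]
    nlinarith

/-- The test point of the pole regime. -/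
noncomputable def tP (n m : ℕ) : ℝ := -exp (-(2 * vv (thP n m)))

theorem tP_facts {n m : ℕ} (hn : 100 ≤ n) (hm1 : 1 ≤ m) (hm : m ≤ n / 2)
    (h3 : 4 * n < 3 * (2 * m + 1) ^ 2) {h : Polynomial ℤ} (hh : IsH n h) :
    -1 < tP n m ∧ tP n m < 0 ∧ 0 < (-1) ^ (m - 1) * (HR h).eval (tP n m) := by
  obtain ⟨-, h1, h2⟩ := thP_facts hn hm
  have hv := vv_pos h1 h2
  refine ⟨?_, ?_, ?_⟩
  · unfold tP
    have : exp (-(2 * vv (thP n m))) < 1 := by
      rw [exp_lt_one_iff]
      linarith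
    linarith
  · unfold tP
    linarith [exp_pos (-(2 * vv (thP n m)))]
  · apply pole_sign hn hm1 h1 h2 (thP_rr hn hm h3) _ hh
    unfold thP
    split_ifs with h
    · rw [sin_th, ← mul_pow]
      norm_num
    · exact sin_mid (by omega)

theorem tP_anti {n m : ℕ} (hn : 100 ≤ n) (hm : m + 1 ≤ n / 2) : tP n (m + 1) ≤ tP n m := by
  obtain ⟨-, h1, h2⟩ := thP_facts (m := m) hn (by omega)
  obtain ⟨-, h1', h2'⟩ := thP_facts hn hm
  have h3 := vv_anti h1 (thP_mono hn hm) (by linarith [pi_pos])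
  unfold tP
  have : exp (-(2 * vv (thP n m))) ≤ exp (-(2 * vv (thP n (m + 1)))) := by
    apply exp_le_exp.2
    linarith
  linarith

/-- All test points. -/
noncomputable def tau (n : ℕ) (t1 : ℝ) (m : ℕ) : ℝ :=
  if m = 1 then t1 else if 3 * (2 * m + 1) ^ 2 ≤ 4 * n then tD n m else tP n m

/-- The large case. -/
theorem large {n : ℕ} (hn : 100 ≤ n) {h : Polynomial ℤ} (hh : IsH n h) :
    (HR h).roots.card = (HR h).natDegree := by
  have h20 : 3 * (2 * 2 + 1) ^ 2 ≤ 4 * n := by omega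
  obtain ⟨hD1, hD2⟩ := tD_mem hn (le_refl 2) h20
  obtain ⟨t1, ht1, ht1n, ht1o, ht1s⟩ := exists_first_point (coeff_zero_of_isH hh) hD2 hD1
  have hfacts : ∀ m, 1 ≤ m → m ≤ n / 2 →
      -1 < tau n t1 m ∧ tau n t1 m < 0 ∧ 0 < (-1) ^ (m - 1) * (HR h).eval (tau n t1 m) := by
    intro m hm1 hm2
    unfold tau
    split_ifs with h1 h2
    · subst h1
      refine ⟨ht1o, ht1n, ?_⟩
      simpa using ht1s
    · have hm : 2 ≤ m := by omega
      exact ⟨(tD_mem hn hm h2).1, (tD_mem hn hm h2).2, tD_sign hn hm h2 hh⟩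
    · exact tP_facts hn hm1 hm2 (by omega) hh
  apply roots_card_of_symm (HR h) n (by omega) _ _ (tau n t1)
  · intro m h1 h2; exact (hfacts m h1 h2).2.1
  · intro m h1 h2; exact (hfacts m h1 h2).1
  · -- monotonicity
    intro m h1 h2
    unfold tau
    rw [if_neg (by omega)]
    by_cases hm : m = 1
    · subst hm
      rw [if_pos rfl, if_pos h20]
      exact ht1
    · rw [if_neg hm]
      by_cases h3 : 3 * (2 * (m + 1) + 1) ^ 2 ≤ 4 * n
      · rw [if_pos h3, if_pos (by nlinarith)]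
        exact tD_anti (by omega)
      · rw [if_neg h3]
        push Not at h3
        by_cases h4 : 3 * (2 * m + 1) ^ 2 ≤ 4 * n
        · rw [if_pos h4]
          have h5 := tD_junction hn h4 h3
          have h6 : thP n (m + 1) = th n (m + 1) := by
            unfold thP
            rw [if_pos]
            by_contra hcon
            push Not at hcon
            -- then m ≥ n/2 - 1 and 3 (2m+1)^2 > 4 n
            nlinarith
          unfold tP
          rw [h6]
          exact h5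
        · rw [if_neg h4]
          exact tP_anti hn h2
  · intro m h1 h2; exact (hfacts m h1 h2).2.2
  · unfold HR
    exact (Polynomial.natDegree_map_le).trans (natDegree_of_isH (by omega) hh)
  · intro t ht
    exact eval_inv_of_isH (by omega) hh ht

/-- All `n`. -/
theorem all {n : ℕ} {h : Polynomial ℤ} (hh : IsH n h) :
    (HR h).roots.card = (HR h).natDegree := by
  rcases Nat.lt_or_ge n 3 with h1 | h1
  · exact small_le_two (by omega) hh
  · rcases Nat.lt_or_ge n 100 with h2 | h2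
    · exact small_check h1 h2 hh
    · exact large h2 hh

/-- The theorem for alternating fences. -/
theorem zigzag_real_rooted (n : ℕ) (s : ℕ → Bool) (hs : ∀ i, i + 2 < n → s (i + 1) ≠ s i)
    (h : Polynomial ℤ)
    (hh : PowerSeries.mk (fun m : ℕ =>
          ((Nat.card {f : Fin n → Fin (m + 1) //
              ∀ i : Fin n, ∀ hi : i.val + 1 < n,
                (s i.val = true → f i ≤ f ⟨i.val + 1, hi⟩) ∧
                (s i.val = false → f ⟨i.val + 1, hi⟩ ≤ f i)} : ℕ) : ℤ))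
        * (1 - PowerSeries.X) ^ (n + 1) = (↑h : PowerSeries ℤ)) :
    (h.map (Int.castRingHom ℝ)).roots.card = h.natDegree := by
  have h1 : IsH n h := by
    unfold IsH
    rw [← hh]
    congr 2
    funext m
    rw [card_fence n m s hs]
  have h2 := all h1
  have h3 : (HR h).natDegree = h.natDegree :=
    Polynomial.natDegree_map_eq_of_injective (Int.castRingHom ℝ).injective_int h
  rw [← h3]
  exact h2

end Pool.Agent.Lib.Zigzag
end
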