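import Pool.Agent.Lib.MP_7d55f0_co.GLConv
import Pool.Agent.Lib.MP_7d55f0_co.TRMain
import Pool.Agent.Lib.MP_7d55f0_co.ZMain

section

set_option autoImplicit false

namespace Pool.Agent.Lib.FenceGlue

open Finset Pool.Agent.Lib.ThreeRun Filter

theorem runs_length (α : List ℕ) : ∀ e : Bool, (runs e α).length = α.sum := by
  induction α with
  | nil => intro e; rfl
  | cons a as ih =>
    intro e
    simp only [runs, List.length_append, List.length_replicate, List.sum_cons, ih]

theorem runs_map (α : List ℕ) : ∀ e : Bool, (runs e α).map not = runs (!e) α := by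
  induction α with
  | nil => intro e; rfl
  | cons a as ih =>
    intro e
    simp only [runs, List.map_append, List.map_replicate, ih]

/-- the direction of the run after the runs in `α` -/
def par (e : Bool) : List ℕ → Bool
  | [] => e
  | _ :: as => par (!e) as

theorem par_not (α : List ℕ) : ∀ e : Bool, par (!e) α = !(par e α) := by
  induction α with
  | nil => intro e; rfl
  | cons a as ih => intro e; simp only [par, ih]

theorem par_append (α β : List ℕ) : ∀ e : Bool, par e (α ++ β) = par (par e α) β := by
  induction α with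
  | nil => intro e; rfl
  | cons a as ih => intro e; simp only [List.cons_append, par, ih]

theorem par_reverse (α : List ℕ) : ∀ e : Bool, par e α.reverse = par e α := by
  induction α with
  | nil => intro e; rfl
  | cons a as ih =>
    intro e
    rw [List.reverse_cons, par_append, ih]
    simp only [par]
    rw [par_not]

theorem par_par (α : List ℕ) : ∀ e : Bool, par (par e α) α = e := by
  induction α with
  | nil => intro e; rfl
  | cons a as ih =>
    intro e
    simp only [par]
    rw [par_not, ih, Bool.not_not]

theorem runs_append (α β : List ℕ) : ∀ e : Bool,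
    runs e (α ++ β) = runs e α ++ runs (par e α) β := by
  induction α with
  | nil => intro e; rfl
  | cons a as ih =>
    intro e
    simp only [List.cons_append, runs, par, ih, List.append_assoc]

theorem rn_append (u v : List Bool) : rn (u ++ v) = rn v ++ rn u := by
  simp [rn]

theorem rn_replicate (a : ℕ) (e : Bool) : rn (List.replicate a e) = List.replicate a (!e) := by
  simp [rn]

theorem rn_runs (α : List ℕ) : ∀ e : Bool, rn (runs e α) = runs (par e α) α.reverse := by
  induction α with
  | nil => intro e; rfl
  | cons a as ih =>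
    intro e
    simp only [runs]
    rw [rn_append, ih, rn_replicate, List.reverse_cons, runs_append, par_reverse]
    simp only [par]
    rw [par_par]
    simp only [runs, List.append_nil]

/-- splitting at a run in the direction up -/
theorem runs_split (l₁ l₂ : List ℕ) (x : ℕ) : runs (par true l₁) (l₁ ++ x :: l₂) =
    rn (runs true l₁.reverse) ++ (List.replicate x true ++ runs false l₂) := by
  rw [runs_append, par_par]
  have h1 : rn (runs true l₁.reverse) = runs (par true l₁) l₁ := by
    rw [rn_runs, List.reverse_reverse, par_reverse]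
  rw [h1]
  rfl

theorem rc_map_not (w : List Bool) : ∀ A B, rc (w.map not) A B = rc w B A := by
  induction w with
  | nil => intro A B; rfl
  | cons e w ih =>
    intro A B
    cases e with
    | true =>
      change ∑ p ∈ antidiagonal A, rc (w.map not) p.1 (p.2 + B) =
        ∑ p ∈ antidiagonal A, rc w (B + p.1) p.2
      rw [← Nat.sum_antidiagonal_swap]
      refine sum_congr rfl fun p _ => ?_
      rw [ih]
      simp only [Prod.fst_swap, Prod.snd_swap]
      rw [add_comm]
    | false =>
      change ∑ p ∈ antidiagonal B, rc (w.map not) (A + p.1) p.2 =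
        ∑ p ∈ antidiagonal B, rc w p.1 (p.2 + A)
      rw [← Nat.sum_antidiagonal_swap]
      refine sum_congr rfl fun p _ => ?_
      rw [ih]
      simp only [Prod.fst_swap, Prod.snd_swap]
      rw [add_comm]

theorem Om_map_not (w : List Bool) (m : ℕ) : Om (w.map not) m = Om w m := by
  unfold Om
  rw [← Nat.sum_antidiagonal_swap]
  refine sum_congr rfl fun p _ => ?_
  rw [rc_map_not]
  rfl

theorem Good.congr {w w' : List Bool} (h : Good w) (hl : w.length = w'.length)
    (ho : ∀ m, Om w m = Om w' m) : Good w' := by
  obtain ⟨E, h1, h2, h3⟩ := h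
  exact ⟨E, fun m => by rw [← ho, h1], by rw [← hl, h2], h3⟩

theorem Good.map_not {w : List Bool} (h : Good w) : Good (w.map not) :=
  h.congr (by simp) fun m => (Om_map_not w m).symm

theorem Good.rn {w : List Bool} (h : Good w) : Good (rn w) :=
  h.congr (rn_length w).symm fun m => (Om_rn m w).symm

theorem Good.runs_not {e : Bool} {α : List ℕ} (h : Good (runs e α)) (e' : Bool) :
    Good (runs e' α) := by
  rcases Bool.eq_or_eq_not e' e with h1 | h1
  · rw [h1]; exact h
  · rw [h1, ← runs_map]; exact h.map_not

/-- the part of a fence beyond a long run -/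
def decr : List ℕ → Option (List ℕ)
  | [] => none
  | y :: ys => some ((y - 1) :: ys)

def GCO : Option (List ℕ) → Prop
  | none => True
  | some α => Good (runs true α)

theorem xo_decr (e : Bool) (l : List ℕ) (hl : ∀ a ∈ l, 0 < a) :
    runs e l = xo e ((decr l).map (runs e)) := by
  cases l with
  | nil => rfl
  | cons y ys =>
    obtain ⟨z, rfl⟩ : ∃ z, y = z + 1 := ⟨y - 1, by have := hl y List.mem_cons_self; omega⟩
    simp only [decr, Option.map_some, xo, runs, Nat.add_sub_cancel, List.replicate_succ,
      List.cons_append]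

theorem glue_runs (l₁ l₂ : List ℕ) (hl₁ : ∀ a ∈ l₁, 0 < a) (hl₂ : ∀ a ∈ l₂, 0 < a)
    (h₁ : GCO (decr l₁.reverse)) (h₂ : GCO (decr l₂)) :
    ∃ B : ℕ, ∀ x, B ≤ x → Good (runs true (l₁ ++ x :: l₂)) := by
  have g1 : GoodO ((decr l₁.reverse).map (runs true)) := by
    cases h : decr l₁.reverse with
    | none => exact trivial
    | some α =>
      rw [h] at h₁
      exact h₁
  have g2 : GoodO ((decr l₂).map (runs false)) := by
    cases h : decr l₂ with
    | none => exact trivial
    | some α =>
      rw [h] at h₂
      exact Good.runs_not h₂ false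
  obtain ⟨B, hB⟩ := Filter.eventually_atTop.1 (glue_words _ _ g1 g2)
  refine ⟨B + 1, fun x hx => ?_⟩
  obtain ⟨b, rfl⟩ : ∃ b, x = b + 1 := ⟨x - 1, by omega⟩
  have h3 := hB b (by omega)
  rw [← xo_decr true l₁.reverse (fun a ha => hl₁ a (List.mem_reverse.1 ha)),
    ← xo_decr false l₂ hl₂, ← runs_split] at h3
  exact h3.runs_not true

/-- the condition on the run lengths -/
def Cond (T : ℕ → ℕ) (α : List ℕ) : Prop :=
  ∀ x ∈ α, 2 ≤ x → 4 ≤ α.countP (fun y => decide (y ≤ x)) →
    α.count x = 1 ∧ ∀ y ∈ α, y < x → T y ≤ x

theorem Cond.subperm {T T' : ℕ → ℕ} {α β : List ℕ} (h : Cond T α) (hs : β.Subperm α)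
    (hT : ∀ x, T' x ≤ T x) : Cond T' β := by
  intro x hx h2 h4
  have h5 := h x (hs.subset hx) h2 (h4.trans (hs.countP_le _))
  refine ⟨?_, fun y hy hyx => (hT y).trans (h5.2 y (hs.subset hy) hyx)⟩
  apply le_antisymm
  · rw [← h5.1]; exact hs.count_le x
  · exact List.count_pos_iff.2 hx

theorem Cond.dec {T T' : ℕ → ℕ} {y : ℕ} {ys : List ℕ} (h : Cond T ((y + 1) :: ys))
    (hy : 0 < y) (hmono : Monotone T) (h2 : ∀ x, x + 2 ≤ T x) (hT : ∀ x, T' x + 1 ≤ T x) :
    Cond T' (y :: ys) := by
  intro x hx hx2 hc
  have hcP : ∀ v w : ℕ, (v :: ys).countP (fun y => decide (y ≤ w)) =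
      ys.countP (fun y => decide (y ≤ w)) + if v ≤ w then 1 else 0 := by
    intro v w
    rw [List.countP_cons]
    simp
  rw [hcP] at hc
  rcases eq_or_ne x y with rfl | hne
  · rw [if_pos le_rfl] at hc
    have h3 : ys.countP (fun y => decide (y ≤ x)) ≤ ys.countP (fun y => decide (y ≤ x + 1)) := by
      apply List.countP_mono_left
      intro z _ hz
      simp only [decide_eq_true_eq] at hz ⊢
      omega
    have h4 := h (x + 1) List.mem_cons_self (by omega) (by rw [hcP, if_pos le_rfl]; omega)
    have h5 : x ∉ ys := by
      intro hmem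
      have h6 := h4.2 x (List.mem_cons_of_mem _ hmem) (by omega)
      have := h2 x
      omega
    refine ⟨?_, ?_⟩
    · rw [List.count_cons_self, List.count_eq_zero_of_not_mem h5]
    · intro z hz hzx
      have hz' : z ∈ ys := by
        rcases List.mem_cons.1 hz with h7 | h7
        · omega
        · exact h7
      have h6 := h4.2 z (List.mem_cons_of_mem _ hz') (by omega)
      have := hT z
      omega
  · have hx' : x ∈ ys := by
      rcases List.mem_cons.1 hx with h7 | h7
      · exact absurd h7 hne
      · exact h7
    have h8 : 4 ≤ ((y + 1) :: ys).countP (fun y => decide (y ≤ x)) := by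
      rw [hcP]
      rcases Nat.lt_or_ge y x with h9 | h9
      · rw [if_pos (by omega)] at hc
        rw [if_pos (by omega)]
        exact hc
      · rw [if_neg (by omega)] at hc
        omega
    have h4 := h x (List.mem_cons_of_mem _ hx') hx2 h8
    have h10 : x ≠ y + 1 := by
      intro h11
      have h12 := h4.1
      rw [h11, List.count_cons_self] at h12
      have h13 : 0 < ys.count (y + 1) := List.count_pos_iff.2 (h11 ▸ hx')
      omega
    have h14 : ys.count x = 1 := by
      have h12 := h4.1
      rwa [List.count_cons_of_ne (Ne.symm h10)] at h12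
    refine ⟨?_, ?_⟩
    · rw [List.count_cons_of_ne (Ne.symm hne), h14]
    · intro z hz hzx
      rcases List.mem_cons.1 hz with h7 | h7
      · have h15 := h4.2 (y + 1) List.mem_cons_self (by omega)
        have h16 := hmono (Nat.le_succ y)
        have h17 := hT z
        rw [h7] at h17 ⊢
        simp only [Nat.succ_eq_add_one] at h16
        omega
      · have h15 := h4.2 z (List.mem_cons_of_mem _ h7) hzx
        have h17 := hT z
        omega

/-- a function of a bounded list is bounded -/
theorem fin_bound (x : ℕ) : ∀ (k : ℕ) (g : List ℕ → ℕ), ∃ M, ∀ l : List ℕ, l.length ≤ k →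
    (∀ a ∈ l, a ≤ x) → g l ≤ M := by
  intro k
  induction k with
  | zero =>
    intro g
    refine ⟨g [], fun l hl _ => ?_⟩
    rw [List.length_eq_zero_iff.1 (by omega : l.length = 0)]
  | succ k ih =>
    intro g
    choose M hM using fun a : ℕ => ih (fun l => g (a :: l))
    refine ⟨g [] + ∑ a ∈ range (x + 1), M a, fun l hl hx => ?_⟩
    cases l with
    | nil => omega
    | cons a l =>
      have h1 := hM a l (by rw [List.length_cons] at hl; omega)
        (fun b hb => hx b (List.mem_cons_of_mem _ hb))
      have h2 : M a ≤ ∑ a ∈ range (x + 1), M a :=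
        Finset.single_le_sum (fun _ _ => Nat.zero_le _)
          (mem_range.2 (by have := hx a List.mem_cons_self; omega))
      have h3 : g (a :: l) ≤ M a := h1
      omega

theorem fin_bound2 (x k : ℕ) (g : List ℕ → List ℕ → ℕ) : ∃ M, ∀ l₁ l₂ : List ℕ,
    l₁.length ≤ k → l₂.length ≤ k → (∀ a ∈ l₁, a ≤ x) → (∀ a ∈ l₂, a ≤ x) → g l₁ l₂ ≤ M := by
  choose M hM using fun l₁ => fin_bound x k (g l₁)
  obtain ⟨N, hN⟩ := fin_bound x k M
  exact ⟨N, fun l₁ l₂ h1 h2 h3 h4 => (hM l₁ l₂ h2 h4).trans (hN l₁ h1 h3)⟩

/-- The theorem on three runs for abstract patterns. -/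
theorem rr_three (n : ℕ) (s : ℕ → Bool) (a b : ℕ) (e : Bool)
    (hs : ∀ i, i + 1 < n → s i = if i < a then e else if i < a + b then !e else e) : RR n s :=
  fun h hh => three_run_real_rooted n s a b e hs h hh

theorem rr_zigzag (n : ℕ) (s : ℕ → Bool) (hs : ∀ i, i + 2 < n → s (i + 1) ≠ s i) : RR n s :=
  fun h hh => Pool.Agent.Lib.Zigzag.zigzag_real_rooted n s hs h hh

theorem runs_three_getD (a b c i : ℕ) (hi : i < a + b + c) :
    (runs true [a, b, c]).getD i false = if i < a then true else if i < a + b then false else true := by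
  simp only [runs, List.append_nil, Bool.not_true, Bool.not_false]
  rcases Nat.lt_or_ge i a with h1 | h1
  · rw [if_pos h1, List.getD_append _ _ _ _ (by simpa using h1)]
    simp [List.getD_eq_getElem?_getD, h1]
  · rw [if_neg (by omega), List.getD_append_right _ _ _ _ (by simpa using h1)]
    rw [List.length_replicate]
    rcases Nat.lt_or_ge i (a + b) with h2 | h2
    · rw [if_pos h2, List.getD_append _ _ _ _ (by simp; omega)]
      have h4 : i - a < b := by omega
      simp [List.getD_eq_getElem?_getD, h4]
    · rw [if_neg (by omega), List.getD_append_right _ _ _ _ (by simp; omega)]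
      rw [List.length_replicate]
      have h3 : i - a - b < c := by omega
      simp [List.getD_eq_getElem?_getD, h3]

/-- at most three runs -/
theorem good_three (a b c : ℕ) : Good (runs true [a, b, c]) := by
  apply Good.of_rr
  obtain ⟨w, hw⟩ : ∃ w, w = runs true [a, b, c] := ⟨_, rfl⟩
  have hl : w.length = a + b + c := by
    rw [hw, runs_length]
    simp only [List.sum_cons, List.sum_nil]
    ring
  have h1 : ∀ i, i < a + b + c →
      w.getD i false = if i < a then true else if i < a + b then false else true := by
    intro i hi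
    rw [hw]
    exact runs_three_getD a b c i hi
  rw [← hw]
  clear hw
  exact rr_three _ _ a b true (fun i hi => h1 i (by omega))

theorem good_short (α : List ℕ) (h : α.length ≤ 3) : Good (runs true α) := by
  match α, h with
  | [], _ => simpa [runs] using good_three 0 0 0
  | [a], _ => simpa [runs] using good_three a 0 0
  | [a, b], _ => simpa [runs] using good_three a b 0
  | [a, b, c], _ => exact good_three a b c
  | a :: b :: c :: d :: l, h => simp only [List.length_cons] at h; omega

theorem runs_ones (k : ℕ) : ∀ (e : Bool) (i : ℕ), i + 1 < k →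
    (runs e (List.replicate k 1)).getD (i + 1) false ≠
      (runs e (List.replicate k 1)).getD i false := by
  induction k with
  | zero => intro e i hi; omega
  | succ k ih =>
    intro e i hi
    rw [List.replicate_succ]
    simp only [runs, List.replicate_one, List.singleton_append]
    cases i with
    | zero =>
      obtain ⟨k', rfl⟩ : ∃ k', k = k' + 1 := ⟨k - 1, by omega⟩
      rw [List.replicate_succ]
      simp only [runs, List.replicate_one, List.singleton_append]
      cases e <;> simp
    | succ i =>
      rw [List.getD_cons_succ, List.getD_cons_succ]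
      exact ih (!e) i (by omega)

/-- zigzags -/
theorem good_zigzag (k : ℕ) : Good (runs true (List.replicate k 1)) := by
  apply Good.of_rr
  obtain ⟨w, hw⟩ : ∃ w, w = runs true (List.replicate k 1) := ⟨_, rfl⟩
  have hl : w.length = k := by
    rw [hw, runs_length, List.sum_replicate]
    simp
  have h1 : ∀ i, i + 1 < k → w.getD (i + 1) false ≠ w.getD i false := by
    intro i hi
    rw [hw]
    exact runs_ones k true i hi
  rw [← hw]
  clear hw
  exact rr_zigzag _ _ (fun i hi => h1 i (by omega))

theorem good_ones (α : List ℕ) (h : ∀ a ∈ α, a = 1) : Good (runs true α) := by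
  rw [List.eq_replicate_iff.2 ⟨rfl, h⟩]
  exact good_zigzag _

theorem good_zero_cons {ys : List ℕ} (h : Good (runs true ys)) : Good (runs true (0 :: ys)) := by
  simp only [runs, List.replicate_zero, List.nil_append]
  exact h.runs_not _

/-- **Separated run lengths.** -/
theorem separated : ∀ k : ℕ, ∃ T : ℕ → ℕ, Monotone T ∧ (∀ x, x + 2 ≤ T x) ∧
    ∀ α : List ℕ, α.length = k → (∀ a ∈ α, 0 < a) → Cond T α → Good (runs true α) := by
  intro k
  induction k using Nat.strong_induction_on with
  | _ k ih =>
    classical
    choose! T hTm hT2 hT using ih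
    -- the thresholds of the glueing theorem
    have hg : ∀ l₁ l₂ : List ℕ, ∃ B : ℕ, (∀ a ∈ l₁, 0 < a) → (∀ a ∈ l₂, 0 < a) →
        GCO (decr l₁.reverse) → GCO (decr l₂) → ∀ x, B ≤ x → Good (runs true (l₁ ++ x :: l₂)) := by
      intro l₁ l₂
      by_cases h : (∀ a ∈ l₁, 0 < a) ∧ (∀ a ∈ l₂, 0 < a) ∧ GCO (decr l₁.reverse) ∧ GCO (decr l₂)
      · obtain ⟨B, hB⟩ := glue_runs l₁ l₂ h.1 h.2.1 h.2.2.1 h.2.2.2
        exact ⟨B, fun _ _ _ _ => hB⟩
      · exact ⟨0, fun h1 h2 h3 h4 => absurd ⟨h1, h2, h3, h4⟩ h⟩
    choose B hB using hg
    choose M hM using fun x => fin_bound2 x k B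
    obtain ⟨T', hT'⟩ : ∃ T' : ℕ → ℕ, T' = fun x => x + 2 + ∑ i ∈ range (x + 1),
        (M i + ∑ j ∈ range k, T j i) := ⟨_, rfl⟩
    have hM' : ∀ x, M x ≤ T' x := by
      intro x
      rw [hT']
      have h1 : M x + ∑ j ∈ range k, T j x ≤ ∑ i ∈ range (x + 1), (M i + ∑ j ∈ range k, T j i) :=
        Finset.single_le_sum (f := fun i => M i + ∑ j ∈ range k, T j i)
          (fun _ _ => Nat.zero_le _) (mem_range.2 (Nat.lt_succ_self x))
      change M x ≤ x + 2 + _
      omega
    have hT'' : ∀ j, j < k → ∀ x, T j x + 1 ≤ T' x := by
      intro j hj x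
      rw [hT']
      have h1 : M x + ∑ j ∈ range k, T j x ≤ ∑ i ∈ range (x + 1), (M i + ∑ j ∈ range k, T j i) :=
        Finset.single_le_sum (f := fun i => M i + ∑ j ∈ range k, T j i)
          (fun _ _ => Nat.zero_le _) (mem_range.2 (Nat.lt_succ_self x))
      have h2 : T j x ≤ ∑ j ∈ range k, T j x :=
        Finset.single_le_sum (f := fun j => T j x) (fun _ _ => Nat.zero_le _) (mem_range.2 hj)
      change T j x + 1 ≤ x + 2 + _
      omega
    have hT'2 : ∀ x, x + 2 ≤ T' x := by
      intro x
      rw [hT']
      exact Nat.le_add_right _ _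
    have hT'm : Monotone T' := by
      rw [hT']
      intro x y hxy
      apply Nat.add_le_add (by omega)
      apply Finset.sum_le_sum_of_subset
      intro i
      simp only [mem_range]
      omega
    refine ⟨T', hT'm, hT'2, fun α hα hpos hcond => ?_⟩
    by_cases h3 : k ≤ 3
    · exact good_short α (by omega)
    by_cases h1 : ∀ a ∈ α, a = 1
    · exact good_ones α h1
    -- a longest run
    obtain ⟨x, hx, hmax⟩ : ∃ x ∈ α, ∀ y ∈ α, y ≤ x := by
      have hne : α.toFinset.Nonempty := by
        rw [List.toFinset_nonempty_iff]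
        rintro rfl
        simp at hα
        omega
      refine ⟨α.toFinset.max' hne, List.mem_toFinset.1 (Finset.max'_mem _ _), fun y hy => ?_⟩
      exact Finset.le_max' _ _ (List.mem_toFinset.2 hy)
    have hx2 : 2 ≤ x := by
      by_contra hcon
      apply h1
      intro a ha
      have := hmax a ha
      have := hpos a ha
      omega
    have hcnt : α.countP (fun y => decide (y ≤ x)) = α.length := by
      rw [List.countP_eq_length]
      intro a ha
      simpa using hmax a ha
    obtain ⟨hx1, hxT⟩ := hcond x hx hx2 (by rw [hcnt]; omega)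
    obtain ⟨l₁, l₂, rfl⟩ := List.append_of_mem hx
    have hx0 : x ∉ l₁ ∧ x ∉ l₂ := by
      rw [List.count_append, List.count_cons_self] at hx1
      constructor
      · intro h
        have := List.count_pos_iff.2 h
        omega
      · intro h
        have := List.count_pos_iff.2 h
        omega
    have hp1 : ∀ a ∈ l₁, 0 < a := fun a ha => hpos a (List.mem_append_left _ ha)
    have hp2 : ∀ a ∈ l₂, 0 < a := fun a ha =>
      hpos a (List.mem_append_right _ (List.mem_cons_of_mem _ ha))
    have hlt1 : ∀ a ∈ l₁, a < x := fun a ha =>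
      lt_of_le_of_ne (hmax a (List.mem_append_left _ ha)) (fun h => hx0.1 (h ▸ ha))
    have hlt2 : ∀ a ∈ l₂, a < x := fun a ha =>
      lt_of_le_of_ne (hmax a (List.mem_append_right _ (List.mem_cons_of_mem _ ha)))
        (fun h => hx0.2 (h ▸ ha))
    have hlen : l₁.length + l₂.length + 1 = k := by
      rw [← hα, List.length_append, List.length_cons]
      ring
    -- the second longest run
    obtain ⟨z, hz, hz1, hz2⟩ : ∃ z, T' z ≤ x ∧ (∀ a ∈ l₁, a ≤ z) ∧ (∀ a ∈ l₂, a ≤ z) := by
      have hne : (l₁ ++ l₂).toFinset.Nonempty := by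
        rw [List.toFinset_nonempty_iff]
        intro h
        have := congrArg List.length h
        rw [List.length_append, List.length_nil] at this
        omega
      obtain ⟨z, hz⟩ : ∃ z, z = (l₁ ++ l₂).toFinset.max' hne := ⟨_, rfl⟩
      have hzm : z ∈ l₁ ++ l₂ := by
        rw [hz]
        exact List.mem_toFinset.1 (Finset.max'_mem _ _)
      have hzle : ∀ a ∈ l₁ ++ l₂, a ≤ z := by
        intro a ha
        rw [hz]
        exact Finset.le_max' _ _ (List.mem_toFinset.2 ha)
      refine ⟨z, hxT z ?_ ?_, fun a ha => hzle a (List.mem_append_left _ ha),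
        fun a ha => hzle a (List.mem_append_right _ ha)⟩
      · rcases List.mem_append.1 hzm with h | h
        · exact List.mem_append_left _ h
        · exact List.mem_append_right _ (List.mem_cons_of_mem _ h)
      · rcases List.mem_append.1 hzm with h | h
        · exact hlt1 z h
        · exact hlt2 z h
    -- the parts
    have part : ∀ l : List ℕ, l.Subperm (l₁ ++ x :: l₂) → l.length < k → (∀ a ∈ l, 0 < a) →
        GCO (decr l) := by
      intro l hs hlk hlp
      cases l with
      | nil => exact trivial
      | cons y ys =>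
        change Good (runs true ((y - 1) :: ys))
        have hlk' : ys.length + 1 < k := by rwa [List.length_cons] at hlk
        have hyp := hlp y List.mem_cons_self
        have hysp : ∀ a ∈ ys, 0 < a := fun a ha => hlp a (List.mem_cons_of_mem _ ha)
        rcases Nat.lt_or_ge 1 y with h | h
        · obtain ⟨y', rfl⟩ : ∃ y', y = y' + 1 := ⟨y - 1, by omega⟩
          rw [Nat.add_sub_cancel]
          apply hT (ys.length + 1) hlk' (y' :: ys) rfl
          · intro a ha
            rcases List.mem_cons.1 ha with h5 | h5
            · omega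
            · exact hysp a h5
          · exact (hcond.subperm hs (fun _ => le_rfl)).dec (by omega) hT'm hT'2
              (hT'' (ys.length + 1) hlk')
        · have hy1 : y = 1 := by omega
          rw [hy1]
          apply good_zero_cons
          apply hT ys.length (by omega) ys rfl hysp
          refine hcond.subperm ((List.sublist_cons_self y ys).subperm.trans hs) fun v => ?_
          · have := hT'' ys.length (by omega) v
            omega
    have hs1 : l₁.reverse.Subperm (l₁ ++ x :: l₂) :=
      (List.reverse_perm l₁).subperm.trans (List.sublist_append_left l₁ _).subperm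
    have hs2 : l₂.Subperm (l₁ ++ x :: l₂) :=
      ((List.sublist_cons_self x l₂).trans (List.sublist_append_right l₁ _)).subperm
    apply hB l₁ l₂ hp1 hp2
    · exact part _ hs1 (by rw [List.length_reverse]; omega) (fun a ha =>
        hp1 a (List.mem_reverse.1 ha))
    · exact part _ hs2 (by omega) hp2
    · exact ((hM z l₁ l₂ (by omega) (by omega) hz1 hz2).trans (hM' z)).trans hz

end Pool.Agent.Lib.FenceGlue
end

section

set_option autoImplicit false

namespace Pool.Agent.Lib.FenceGlue

open Finset Pool.Agent.Lib.ThreeRun Filter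

/-- the word of a pattern -/
def wrd (n : ℕ) (s : ℕ → Bool) : List Bool := (List.range n).map s

theorem wrd_length (n : ℕ) (s : ℕ → Bool) : (wrd n s).length = n := by
  simp [wrd]

theorem wrd_getD {n i : ℕ} (s : ℕ → Bool) (h : i < n) : (wrd n s).getD i false = s i := by
  simp [wrd, List.getD_eq_getElem?_getD, h]

theorem good_wrd {n : ℕ} {s : ℕ → Bool} (h : RR (n + 1) s) : Good (wrd n s) := by
  apply Good.of_rr
  rw [wrd_length]
  exact RR_congr (fun i hi => (wrd_getD s (by omega)).symm) h

/-- the left part -/
def lft (p : ℕ) (s : ℕ → Bool) : Option (List Bool) :=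
  match p with
  | 0 => none
  | p + 1 => some (rn (wrd p s))

/-- the right part -/
def rgt (q : ℕ) (s : ℕ → Bool) : Option (List Bool) :=
  match q with
  | 0 => none
  | q + 1 => some (wrd q s)

theorem lft_good {p : ℕ} {s : ℕ → Bool} (h : RR p s) : GoodO (lft p s) := by
  cases p with
  | zero => exact trivial
  | succ p => exact (good_wrd h).rn

theorem rgt_good {q : ℕ} {s : ℕ → Bool} (h : RR q s) : GoodO (rgt q s) := by
  cases q with
  | zero => exact trivial
  | succ q => exact good_wrd h

theorem lft_length (p : ℕ) (s : ℕ → Bool) : (rn (xo true (lft p s))).length = p := by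
  rw [rn_length]
  cases p with
  | zero => rfl
  | succ p => simp [lft, xo, rn_length, wrd_length]

theorem rgt_length (q : ℕ) (s : ℕ → Bool) : (xo false (rgt q s)).length = q := by
  cases q with
  | zero => rfl
  | succ q => simp [rgt, xo, wrd_length]

theorem lft_getD {p i : ℕ} (s : ℕ → Bool) (h : i < p) :
    (rn (xo true (lft p s))).getD i false = if i + 1 < p then s i else false := by
  cases p with
  | zero => omega
  | succ p =>
    have e1 : rn (xo true (lft (p + 1) s)) = wrd p s ++ [false] := by
      change rn (true :: rn (wrd p s)) = _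
      have e2 : true :: rn (wrd p s) = [true] ++ rn (wrd p s) := rfl
      rw [e2, rn_append, rn_rn]
      rfl
    rw [e1]
    rcases Nat.lt_or_ge i p with h1 | h1
    · rw [if_pos (by omega), List.getD_append _ _ _ _ (by rw [wrd_length]; exact h1), wrd_getD s h1]
    · rw [if_neg (by omega), List.getD_append_right _ _ _ _ (by rw [wrd_length]; exact h1),
        wrd_length, show i - p = 0 by omega]
      rfl

theorem rgt_getD {q i : ℕ} (s : ℕ → Bool) (h : i < q) :
    (xo false (rgt q s)).getD i false = if i = 0 then false else s (i - 1) := by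
  cases q with
  | zero => omega
  | succ q =>
    change (false :: wrd q s).getD i false = _
    cases i with
    | zero => rfl
    | succ i =>
      rw [List.getD_cons_succ, wrd_getD s (by omega), if_neg (by omega), Nat.add_sub_cancel]

/-- **The gluing theorem.** -/
theorem gluing_up (p q : ℕ) (s s' : ℕ → Bool) (hp : RR p s) (hq : RR q s') :
    ∃ B : ℕ, ∀ b, B ≤ b → RR (p + b + 1 + q) (glued true p b s s') := by
  obtain ⟨B, hB⟩ := Filter.eventually_atTop.1 (glue_words _ _ (lft_good hp) (rgt_good hq))
  refine ⟨B + 1, fun b hb => ?_⟩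
  obtain ⟨b, rfl⟩ : ∃ b', b = b' + 1 := ⟨b - 1, by omega⟩
  have h1 := (hB b (by omega)).rr
  have hl : (rn (xo true (lft p s)) ++ (List.replicate (b + 1) true ++
      xo false (rgt q s'))).length + 1 = p + (b + 1) + 1 + q := by
    rw [List.length_append, List.length_append, List.length_replicate, lft_length, rgt_length]
    ring
  rw [hl] at h1
  refine RR_congr (fun i hi => ?_) h1
  unfold glued
  rcases Nat.lt_or_ge i p with h2 | h2
  · rw [List.getD_append _ _ _ _ (by rw [lft_length]; exact h2), lft_getD s h2]
    by_cases h3 : i + 1 < p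
    · rw [if_pos h3, if_pos h3]
    · rw [if_neg h3, if_neg h3, if_pos (by omega)]
      rfl
  · rw [List.getD_append_right _ _ _ _ (by rw [lft_length]; exact h2), lft_length,
      if_neg (by omega), if_neg (by omega)]
    rcases Nat.lt_or_ge i (p + (b + 1)) with h3 | h3
    · rw [List.getD_append _ _ _ _ (by rw [List.length_replicate]; omega), if_pos h3]
      have h4 : i - p < b + 1 := by omega
      simp [List.getD_eq_getElem?_getD, h4]
    · rw [List.getD_append_right _ _ _ _ (by rw [List.length_replicate]; omega),
        List.length_replicate, if_neg (by omega), rgt_getD s' (by omega)]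
      by_cases h5 : i = p + (b + 1)
      · rw [if_pos (by omega), if_pos h5]
        rfl
      · rw [if_neg (by omega), if_neg h5]
        congr 1
        omega

/-- The gluing theorem, both directions. -/
theorem gluing (e : Bool) (p q : ℕ) (s s' : ℕ → Bool) (hp : RR p s) (hq : RR q s') :
    ∃ B : ℕ, ∀ b, B ≤ b → RR (p + b + 1 + q) (glued e p b s s') := by
  cases e with
  | true => exact gluing_up p q s s' hp hq
  | false =>
    obtain ⟨B, hB⟩ := gluing_up p q _ _ (RR_compl hp) (RR_compl hq)
    refine ⟨B, fun b hb => ?_⟩
    refine RR_congr (fun i _ => ?_) (RR_compl (hB b hb))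
    unfold glued
    split_ifs <;> simp

/-- **Separated run lengths.** -/
theorem separated_runs : ∃ T : ℕ → ℕ → ℕ, ∀ (α : List ℕ) (e : Bool), (∀ a ∈ α, 0 < a) →
    (∀ x ∈ α, 2 ≤ x → 4 ≤ α.countP (fun y => decide (y ≤ x)) →
      α.count x = 1 ∧ ∀ y ∈ α, y < x → T α.length y ≤ x) →
    RR (α.sum + 1) (fun i => (runs e α).getD i false) := by
  choose T _ _ hT using separated
  refine ⟨T, fun α e hα hc => ?_⟩
  have h1 := ((hT α.length α rfl hα hc).runs_not e).rr
  rwa [runs_length] at h1

end Pool.Agent.Lib.FenceGlue
end
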