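import Mathlib
import Pool.Agent.Lib.MP_7d55f0_co.GLWord
import Pool.Agent.Lib.MP_7d55f0_co.GLConv
import Pool.Agent.Lib.MP_7d55f0_co.GLMain

section

set_option autoImplicit false

namespace Pool.Agent.Lib.FenceNewton

open Finset

/-- the bilinear form of a matrix -/
def bq (A : Fin 4 → Fin 4 → ℝ) (v w : Fin 4 → ℝ) : ℝ := ∑ i, ∑ j, v i * w j * A i j

/-- at most one positive direction: nonpositive on a hyperplane -/
def NHq (q : (Fin 4 → ℝ) → ℝ) : Prop :=
  ∃ lam : Fin 4 → ℝ, ∀ v : Fin 4 → ℝ, ∑ i, lam i * v i = 0 → q v ≤ 0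

def NH (A : Fin 4 → Fin 4 → ℝ) : Prop := NHq fun v => bq A v v

def Sy (A : Fin 4 → Fin 4 → ℝ) : Prop := ∀ i j, A i j = A j i

theorem bq_symm {A : Fin 4 → Fin 4 → ℝ} (h : Sy A) (v w : Fin 4 → ℝ) : bq A v w = bq A w v := by
  unfold bq
  rw [sum_comm]
  refine sum_congr rfl fun i _ => sum_congr rfl fun j _ => ?_
  rw [h j i]
  ring

theorem bq_eq (A : Fin 4 → Fin 4 → ℝ) (v w : Fin 4 → ℝ) :
    bq A v w = ∑ i, v i * ∑ j, A i j * w j := by
  unfold bq
  refine sum_congr rfl fun i _ => ?_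
  rw [mul_sum]
  exact sum_congr rfl fun j _ => by ring

theorem bq_expand {A : Fin 4 → Fin 4 → ℝ} (h : Sy A) (v w : Fin 4 → ℝ) (t : ℝ) :
    bq A (fun i => v i + t * w i) (fun i => v i + t * w i) =
      bq A v v + 2 * t * bq A v w + t ^ 2 * bq A w w := by
  have h1 : bq A (fun i => v i + t * w i) (fun i => v i + t * w i) =
      bq A v v + t * bq A v w + t * bq A w v + t ^ 2 * bq A w w := by
    unfold bq
    simp only [mul_sum, ← sum_add_distrib]
    exact sum_congr rfl fun i _ => sum_congr rfl fun j _ => by ring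
  rw [h1, bq_symm h w v]
  ring

theorem bq_expand_left {A : Fin 4 → Fin 4 → ℝ} (u v w : Fin 4 → ℝ) (t : ℝ) :
    bq A u (fun i => v i + t * w i) = bq A u v + t * bq A u w := by
  unfold bq
  simp only [mul_sum, ← sum_add_distrib]
  exact sum_congr rfl fun i _ => sum_congr rfl fun j _ => by ring

theorem bq_add (A B : Fin 4 → Fin 4 → ℝ) (v w : Fin 4 → ℝ) :
    bq (fun i j => A i j + B i j) v w = bq A v w + bq B v w := by
  unfold bq
  simp only [← sum_add_distrib]
  exact sum_congr rfl fun i _ => sum_congr rfl fun j _ => by ring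

theorem bq_smul (c : ℝ) (A : Fin 4 → Fin 4 → ℝ) (v w : Fin 4 → ℝ) :
    bq (fun i j => c * A i j) v w = c * bq A v w := by
  unfold bq
  simp only [mul_sum]
  exact sum_congr rfl fun i _ => sum_congr rfl fun j _ => by ring

/-- reversed Cauchy-Schwarz inequality -/
theorem NH.rcs {A : Fin 4 → Fin 4 → ℝ} (h : NH A) (hs : Sy A) {u : Fin 4 → ℝ} (hu : 0 < bq A u u)
    (v : Fin 4 → ℝ) : bq A u u * bq A v v ≤ (bq A u v) ^ 2 := by
  obtain ⟨lam, hl⟩ := h
  have h0 : ∑ i, lam i * u i ≠ 0 := by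
    intro h1
    exact absurd (hl u h1) (not_le.2 hu)
  obtain ⟨t, ht⟩ : ∃ t, t = -(∑ i, lam i * v i) / (∑ i, lam i * u i) := ⟨_, rfl⟩
  have h1 : ∑ i, lam i * (v i + t * u i) = 0 := by
    have h2 : ∑ i, lam i * (v i + t * u i) = ∑ i, lam i * v i + t * ∑ i, lam i * u i := by
      rw [mul_sum, ← sum_add_distrib]
      exact sum_congr rfl fun i _ => by ring
    rw [h2, ht]
    field_simp
    ring
  have h2 := hl _ h1
  beta_reduce at h2
  rw [bq_expand hs] at h2
  have h3 : bq A v u = bq A u v := bq_symm hs v u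
  rw [h3] at h2
  nlinarith [sq_nonneg (bq A u v + t * bq A u u), mul_le_mul_of_nonneg_left h2 hu.le]

/-- the unit vectors -/
def ev (s : Fin 4) : Fin 4 → ℝ := fun i => if i = s then 1 else 0

theorem bq_ev_left (A : Fin 4 → Fin 4 → ℝ) (s : Fin 4) (v : Fin 4 → ℝ) :
    bq A (ev s) v = ∑ j, A s j * v j := by
  rw [bq_eq]
  unfold ev
  simp

theorem bq_ev_ev (A : Fin 4 → Fin 4 → ℝ) (s : Fin 4) : bq A (ev s) (ev s) = A s s := by
  rw [bq_ev_left]
  unfold ev
  simp

theorem NH.rcs_ev {A : Fin 4 → Fin 4 → ℝ} (h : NH A) (hs : Sy A) {s : Fin 4} (hu : 0 < A s s)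
    (v : Fin 4 → ℝ) : A s s * bq A v v ≤ (∑ j, A s j * v j) ^ 2 := by
  have h1 := h.rcs hs (u := ev s) (by rw [bq_ev_ev]; exact hu) v
  rwa [bq_ev_ev, bq_ev_left] at h1

theorem NH.nonpos {A : Fin 4 → Fin 4 → ℝ} (h : NH A) (hs : Sy A) {s : Fin 4} (hu : 0 < A s s)
    {v : Fin 4 → ℝ} (hv : ∑ j, A s j * v j = 0) : bq A v v ≤ 0 := by
  have h1 := h.rcs_ev hs hu v
  rw [hv] at h1
  nlinarith

/-- The rank one update. -/
theorem NH.rank_one {A : Fin 4 → Fin 4 → ℝ} (h : NH A) (hs : Sy A) {u f : Fin 4 → ℝ}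
    (hu : 0 < bq A u u) {c : ℝ} (hc : 0 ≤ c) (hf : 0 ≤ 1 + c * bq A f f) :
    NHq fun v => bq A v v + c * (bq A f v) ^ 2 := by
  refine ⟨fun i => ∑ j, A i j * u j + c * bq A f u * ∑ j, A i j * f j, fun v hv => ?_⟩
  have hv' : bq A u v + c * bq A f u * bq A f v = 0 := by
    have h1 : ∑ i, (∑ j, A i j * u j + c * bq A f u * ∑ j, A i j * f j) * v i =
        bq A v u + c * bq A f u * bq A v f := by
      rw [bq_eq A v u, bq_eq A v f, mul_sum, ← sum_add_distrib]
      exact sum_congr rfl fun i _ => by ring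
    rw [h1, bq_symm hs v u, bq_symm hs v f] at hv
    exact hv
  obtain ⟨a, ha⟩ : ∃ a, a = bq A u u := ⟨_, rfl⟩
  obtain ⟨b, hb⟩ : ∃ b, b = bq A u v := ⟨_, rfl⟩
  obtain ⟨d, hd⟩ : ∃ d, d = bq A v v := ⟨_, rfl⟩
  obtain ⟨p, hp⟩ : ∃ p, p = bq A f u := ⟨_, rfl⟩
  obtain ⟨q, hq⟩ : ∃ q, q = bq A f v := ⟨_, rfl⟩
  obtain ⟨r, hr⟩ : ∃ r, r = bq A f f := ⟨_, rfl⟩
  have key : ∀ t : ℝ, 0 ≤ (p ^ 2 - a * r) * (t * t) + (2 * (b * p - a * q)) * t + (b ^ 2 - a * d) := by
    intro t
    have h1 := h.rcs hs hu (fun i => v i + t * f i)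
    rw [bq_expand hs, bq_expand_left, bq_symm hs v f, bq_symm hs u f, ← ha, ← hb, ← hd, ← hp, ← hq,
      ← hr] at h1
    nlinarith
  have h2 := discrim_le_zero key
  unfold discrim at h2
  have h3 : a * d ≤ b ^ 2 := by
    have := key 0
    nlinarith
  rw [← hb, ← hp, ← hq] at hv'
  rw [← ha] at hu
  rw [← hr] at hf
  change bq A v v + c * (bq A f v) ^ 2 ≤ 0
  rw [← hd, ← hq]
  -- the determinant inequality
  have h4 : a * (a * q ^ 2 - 2 * b * p * q + d * p ^ 2 - r * (a * d - b ^ 2)) ≤ 0 := by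
    nlinarith
  have h5 : a * q ^ 2 - 2 * b * p * q + d * p ^ 2 - r * (a * d - b ^ 2) ≤ 0 := by
    by_contra hcon
    push Not at hcon
    have := mul_pos hu hcon
    linarith
  have h6 : (a + c * p ^ 2) * (d + c * q ^ 2) - (b + c * p * q) ^ 2 ≤ 0 := by
    have e1 : (a + c * p ^ 2) * (d + c * q ^ 2) - (b + c * p * q) ^ 2 =
        (a * d - b ^ 2) * (1 + c * r) +
          c * (a * q ^ 2 - 2 * b * p * q + d * p ^ 2 - r * (a * d - b ^ 2)) := by ring
    rw [e1]
    have h7 : (a * d - b ^ 2) * (1 + c * r) ≤ 0 :=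
      mul_nonpos_of_nonpos_of_nonneg (by linarith) hf
    have h8 : c * (a * q ^ 2 - 2 * b * p * q + d * p ^ 2 - r * (a * d - b ^ 2)) ≤ 0 :=
      mul_nonpos_of_nonneg_of_nonpos hc h5
    linarith
  rw [hv'] at h6
  have h9 : 0 < a + c * p ^ 2 := by positivity
  by_contra hcon
  push Not at hcon
  have := mul_pos h9 hcon
  nlinarith

/-- The chain step: the sum of two forms with a common linear form. -/
theorem NH.chain {B Q : Fin 4 → Fin 4 → ℝ} (hB : NH B) (hBs : Sy B) (hQ : NH Q) (hQs : Sy Q)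
    (hB0 : 0 < B 0 0) (hB1 : 0 < B 0 1) (hQ1 : 0 < Q 1 1)
    (hlink : ∀ j, Q 1 j - Q 0 j = B 0 j) : NH (fun i j => B i j + Q i j) := by
  have hf : ∀ v, bq Q (fun i => ev 1 i + (-1) * ev 0 i) v = ∑ j, B 0 j * v j := by
    intro v
    rw [bq_symm hQs, bq_expand_left, bq_symm hQs v, bq_symm hQs v, bq_ev_left, bq_ev_left, mul_sum,
      ← sum_add_distrib]
    refine sum_congr rfl fun j _ => ?_
    rw [← hlink j]
    ring
  have hff : bq Q (fun i => ev 1 i + (-1) * ev 0 i) (fun i => ev 1 i + (-1) * ev 0 i) =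
      B 0 1 - B 0 0 := by
    rw [hf]
    unfold ev
    simp only [Fin.sum_univ_four]
    simp
    ring
  have h1 := hQ.rank_one hQs (u := ev 1) (f := fun i => ev 1 i + (-1) * ev 0 i)
    (by rw [bq_ev_ev]; exact hQ1) (c := 1 / B 0 0) (by positivity) (by
      rw [hff]
      have : 1 + 1 / B 0 0 * (B 0 1 - B 0 0) = B 0 1 / B 0 0 := by field_simp; ring
      rw [this]
      positivity)
  obtain ⟨lam, hl⟩ := h1
  refine ⟨lam, fun v hv => ?_⟩
  have h2 := hl v hv
  beta_reduce at h2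
  rw [hf] at h2
  change bq (fun i j => B i j + Q i j) v v ≤ 0
  rw [bq_add]
  have h3 := hB.rcs_ev hBs hB0 v
  have h4 : bq B v v ≤ 1 / B 0 0 * (∑ j, B 0 j * v j) ^ 2 := by
    rw [one_div, inv_mul_eq_div, le_div_iff₀ hB0]
    linarith
  linarith

end Pool.Agent.Lib.FenceNewton
end

section

set_option autoImplicit false

namespace Pool.Agent.Lib.FenceNewton

open Finset

/-- arrays of derivatives at the origin of a polynomial in four variables -/
abbrev Ar := ℕ → ℕ → ℕ → ℕ → ℝ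

/-- derivative in the variable `i` -/
def sh (i : Fin 4) (C : Ar) : Ar :=
  match i with
  | 0 => fun l k a b => C (l + 1) k a b
  | 1 => fun l k a b => C l (k + 1) a b
  | 2 => fun l k a b => C l k (a + 1) b
  | 3 => fun l k a b => C l k a (b + 1)

theorem sh0 (C : Ar) (l k a b : ℕ) : sh 0 C l k a b = C (l + 1) k a b := rfl
theorem sh1 (C : Ar) (l k a b : ℕ) : sh 1 C l k a b = C l (k + 1) a b := rfl
theorem sh2 (C : Ar) (l k a b : ℕ) : sh 2 C l k a b = C l k (a + 1) b := rfl
theorem sh3 (C : Ar) (l k a b : ℕ) : sh 3 C l k a b = C l k a (b + 1) := rfl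

/-- the Hessian -/
def HM (C : Ar) (l k a b : ℕ) : Fin 4 → Fin 4 → ℝ := fun i j => sh i (sh j C) l k a b

theorem HM_symm (C : Ar) (l k a b : ℕ) : Sy (HM C l k a b) := by
  intro i j
  fin_cases i <;> fin_cases j <;> rfl

/-- the class: positive coefficients, all quadratic derivatives have one positive direction -/
structure Lor (d : ℕ) (C : Ar) : Prop where
  pos : ∀ l k a b, l + k + a + b = d → 0 < C l k a b
  nh : ∀ l k a b, l + k + a + b + 2 = d → NH (HM C l k a b)

theorem Lor.sh0 {d : ℕ} {C : Ar} (h : Lor (d + 1) C) : Lor d (sh 0 C) := by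
  refine ⟨fun l k a b hd => h.pos _ _ _ _ (by omega), fun l k a b hd => ?_⟩
  have h1 := h.nh (l + 1) k a b (by omega)
  have e : HM (sh 0 C) l k a b = HM C (l + 1) k a b := by
    funext i j
    fin_cases i <;> fin_cases j <;> rfl
  rw [e]
  exact h1

/-- multiplication by the last two variables -/
def m3 (C : Ar) : Ar := fun l k a b => (b : ℝ) * C l k a (b - 1)
def m2 (C : Ar) : Ar := fun l k a b => (a : ℝ) * C l k (a - 1) b

/-- integration in the first two variables -/
def i1 (C : Ar) : Ar := fun l k a b => match k with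
  | 0 => 0
  | k + 1 => C l k a b
def i0 (C : Ar) : Ar := fun l k a b => match l with
  | 0 => 0
  | l + 1 => C l k a b

/-- the linear form -/
def lf (C : Ar) (l k a b : ℕ) (v : Fin 4 → ℝ) : ℝ := ∑ j, sh j C l k a b * v j

theorem bq_m3_zero (C : Ar) (l k a : ℕ) (v : Fin 4 → ℝ) :
    bq (HM (m3 C) l k a 0) v v = 2 * v 3 * lf C l k a 0 v := by
  unfold bq lf
  simp only [Fin.sum_univ_four, HM, Pool.Agent.Lib.FenceNewton.sh0, sh1, sh2, sh3, m3]
  push_cast
  simp
  ring

theorem bq_m3_succ (C : Ar) (l k a b : ℕ) (v : Fin 4 → ℝ) :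
    bq (HM (m3 C) l k a (b + 1)) v v =
      ((b : ℝ) + 1) * bq (HM C l k a b) v v + 2 * v 3 * lf C l k a (b + 1) v := by
  unfold bq lf
  simp only [Fin.sum_univ_four, HM, Pool.Agent.Lib.FenceNewton.sh0, sh1, sh2, sh3, m3,
    Nat.add_sub_cancel]
  push_cast
  ring

theorem bq_m2_zero (C : Ar) (l k b : ℕ) (v : Fin 4 → ℝ) :
    bq (HM (m2 C) l k 0 b) v v = 2 * v 2 * lf C l k 0 b v := by
  unfold bq lf
  simp only [Fin.sum_univ_four, HM, Pool.Agent.Lib.FenceNewton.sh0, sh1, sh2, sh3, m2]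
  push_cast
  simp
  ring

theorem bq_m2_succ (C : Ar) (l k a b : ℕ) (v : Fin 4 → ℝ) :
    bq (HM (m2 C) l k (a + 1) b) v v =
      ((a : ℝ) + 1) * bq (HM C l k a b) v v + 2 * v 2 * lf C l k (a + 1) b v := by
  unfold bq lf
  simp only [Fin.sum_univ_four, HM, Pool.Agent.Lib.FenceNewton.sh0, sh1, sh2, sh3, m2,
    Nat.add_sub_cancel]
  push_cast
  ring

theorem bq_i1_zero (C : Ar) (l a b : ℕ) (v : Fin 4 → ℝ) :
    bq (HM (i1 C) l 0 a b) v v = 2 * v 1 * lf C l 0 a b v - v 1 ^ 2 * C l 1 a b := by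
  unfold bq lf
  simp only [Fin.sum_univ_four, HM, Pool.Agent.Lib.FenceNewton.sh0, sh1, sh2, sh3, i1, zero_add]
  ring

theorem bq_i1_succ (C : Ar) (l k a b : ℕ) (v : Fin 4 → ℝ) :
    bq (HM (i1 C) l (k + 1) a b) v v = bq (HM C l k a b) v v := by
  unfold bq
  simp only [Fin.sum_univ_four, HM, Pool.Agent.Lib.FenceNewton.sh0, sh1, sh2, sh3, i1]

theorem bq_i0_zero (C : Ar) (k a b : ℕ) (v : Fin 4 → ℝ) :
    bq (HM (i0 C) 0 k a b) v v = 2 * v 0 * lf C 0 k a b v - v 0 ^ 2 * C 1 k a b := by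
  unfold bq lf
  simp only [Fin.sum_univ_four, HM, Pool.Agent.Lib.FenceNewton.sh0, sh1, sh2, sh3, i0, zero_add]
  ring

theorem bq_i0_succ (C : Ar) (l k a b : ℕ) (v : Fin 4 → ℝ) :
    bq (HM (i0 C) (l + 1) k a b) v v = bq (HM C l k a b) v v := by
  unfold bq
  simp only [Fin.sum_univ_four, HM, Pool.Agent.Lib.FenceNewton.sh0, sh1, sh2, sh3, i0]

/-- all the terms are nonpositive on the kernel of the linear form -/
theorem m3_nonpos {d : ℕ} {C : Ar} (h : Lor d C) {l k a b : ℕ} (hd : l + k + a + b + 1 = d)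
    {v : Fin 4 → ℝ} (hv : lf C l k a b v = 0) : bq (HM (m3 C) l k a b) v v ≤ 0 := by
  cases b with
  | zero => rw [bq_m3_zero, hv, mul_zero]
  | succ b =>
    rw [bq_m3_succ, hv, mul_zero, add_zero]
    apply mul_nonpos_of_nonneg_of_nonpos (by positivity)
    exact (h.nh l k a b (by omega)).nonpos (HM_symm _ _ _ _ _) (s := 3)
      (h.pos l k a (b + 1 + 1) (by omega)) (by
        rw [← hv]
        unfold lf
        refine sum_congr rfl fun j _ => ?_
        fin_cases j <;> rfl)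

theorem m2_nonpos {d : ℕ} {C : Ar} (h : Lor d C) {l k a b : ℕ} (hd : l + k + a + b + 1 = d)
    {v : Fin 4 → ℝ} (hv : lf C l k a b v = 0) : bq (HM (m2 C) l k a b) v v ≤ 0 := by
  cases a with
  | zero => rw [bq_m2_zero, hv, mul_zero]
  | succ a =>
    rw [bq_m2_succ, hv, mul_zero, add_zero]
    apply mul_nonpos_of_nonneg_of_nonpos (by positivity)
    exact (h.nh l k a b (by omega)).nonpos (HM_symm _ _ _ _ _) (s := 2)
      (h.pos l k (a + 1 + 1) b (by omega)) (by
        rw [← hv]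
        unfold lf
        refine sum_congr rfl fun j _ => ?_
        fin_cases j <;> rfl)

theorem i1_nonpos {d : ℕ} {C : Ar} (h : Lor d C) {l k a b : ℕ} (hd : l + k + a + b + 1 = d)
    {v : Fin 4 → ℝ} (hv : lf C l k a b v = 0) : bq (HM (i1 C) l k a b) v v ≤ 0 := by
  cases k with
  | zero =>
    rw [bq_i1_zero, hv, mul_zero, zero_sub, neg_nonpos]
    exact mul_nonneg (sq_nonneg _) (h.pos l 1 a b (by omega)).le
  | succ k =>
    rw [bq_i1_succ]
    exact (h.nh l k a b (by omega)).nonpos (HM_symm _ _ _ _ _) (s := 1)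
      (h.pos l (k + 1 + 1) a b (by omega)) (by
        rw [← hv]
        unfold lf
        refine sum_congr rfl fun j _ => ?_
        fin_cases j <;> rfl)

theorem i0_nonpos {d : ℕ} {C : Ar} (h : Lor d C) {l k a b : ℕ} (hd : l + k + a + b + 1 = d)
    {v : Fin 4 → ℝ} (hv : lf C l k a b v = 0) : bq (HM (i0 C) l k a b) v v ≤ 0 := by
  cases l with
  | zero =>
    rw [bq_i0_zero, hv, mul_zero, zero_sub, neg_nonpos]
    exact mul_nonneg (sq_nonneg _) (h.pos 1 k a b (by omega)).le
  | succ l =>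
    rw [bq_i0_succ]
    exact (h.nh l k a b (by omega)).nonpos (HM_symm _ _ _ _ _) (s := 0)
      (h.pos (l + 1 + 1) k a b (by omega)) (by
        rw [← hv]
        unfold lf
        refine sum_congr rfl fun j _ => ?_
        fin_cases j <;> rfl)

/-- the multiplication step -/
def MM (ε : ℝ) (C : Ar) : Ar := fun l k a b =>
  (m3 C l k a b + ε * m2 C l k a b) + (i1 C l k a b + ε * i0 C l k a b)

theorem HM_MM (ε : ℝ) (C : Ar) (l k a b : ℕ) : HM (MM ε C) l k a b = fun i j =>
    (HM (m3 C) l k a b i j + ε * HM (m2 C) l k a b i j) +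
      (HM (i1 C) l k a b i j + ε * HM (i0 C) l k a b i j) := by
  funext i j
  fin_cases i <;> fin_cases j <;> rfl

theorem Lor.mm {d : ℕ} {C : Ar} (h : Lor d C) {ε : ℝ} (hε : 0 < ε) : Lor (d + 1) (MM ε C) := by
  constructor
  · intro l k a b hd
    have hm3 : 0 ≤ m3 C l k a b := by
      unfold m3
      cases b with
      | zero => simp
      | succ b =>
        have := h.pos l k a b (by omega)
        rw [Nat.add_sub_cancel]
        positivity
    have hm2 : 0 ≤ m2 C l k a b := by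
      unfold m2
      cases a with
      | zero => simp
      | succ a =>
        have := h.pos l k a b (by omega)
        rw [Nat.add_sub_cancel]
        positivity
    have hi1 : 0 ≤ i1 C l k a b := by
      cases k with
      | zero => exact le_rfl
      | succ k => exact (h.pos l k a b (by omega)).le
    have hi0 : 0 ≤ i0 C l k a b := by
      cases l with
      | zero => exact le_rfl
      | succ l => exact (h.pos l k a b (by omega)).le
    unfold MM
    rcases Nat.eq_zero_or_pos b with hb | hb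
    · rcases Nat.eq_zero_or_pos a with ha | ha
      · rcases Nat.eq_zero_or_pos k with hk | hk
        · obtain ⟨l', rfl⟩ : ∃ l', l = l' + 1 := ⟨l - 1, by omega⟩
          have h1 : 0 < i0 C (l' + 1) k a b := h.pos l' k a b (by omega)
          have := mul_pos hε h1
          have := mul_nonneg hε.le hm2
          linarith
        · obtain ⟨k', rfl⟩ : ∃ k', k = k' + 1 := ⟨k - 1, by omega⟩
          have h1 : 0 < i1 C l (k' + 1) a b := h.pos l k' a b (by omega)
          have := mul_nonneg hε.le hi0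
          have := mul_nonneg hε.le hm2
          linarith
      · obtain ⟨a', rfl⟩ : ∃ a', a = a' + 1 := ⟨a - 1, by omega⟩
        have h1 : 0 < m2 C l k (a' + 1) b := by
          unfold m2
          have := h.pos l k a' b (by omega)
          rw [Nat.add_sub_cancel]
          positivity
        have := mul_pos hε h1
        have := mul_nonneg hε.le hi0
        linarith
    · obtain ⟨b', rfl⟩ : ∃ b', b = b' + 1 := ⟨b - 1, by omega⟩
      have h1 : 0 < m3 C l k a (b' + 1) := by
        unfold m3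
        have := h.pos l k a b' (by omega)
        rw [Nat.add_sub_cancel]
        positivity
      have := mul_nonneg hε.le hi0
      have := mul_nonneg hε.le hm2
      linarith
  · intro l k a b hd
    refine ⟨fun j => sh j C l k a b, fun v hv => ?_⟩
    have hv' : lf C l k a b v = 0 := hv
    change bq (HM (MM ε C) l k a b) v v ≤ 0
    rw [HM_MM, bq_add (fun i j => HM (m3 C) l k a b i j + ε * HM (m2 C) l k a b i j)
      (fun i j => HM (i1 C) l k a b i j + ε * HM (i0 C) l k a b i j),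
      bq_add (HM (m3 C) l k a b) (fun i j => ε * HM (m2 C) l k a b i j),
      bq_add (HM (i1 C) l k a b) (fun i j => ε * HM (i0 C) l k a b i j), bq_smul, bq_smul]
    have hd' : l + k + a + b + 1 = d := by omega
    have h1 := m3_nonpos h hd' hv'
    have h2 := mul_nonpos_of_nonneg_of_nonpos hε.le (m2_nonpos h hd' hv')
    have h3 := i1_nonpos h hd' hv'
    have h4 := mul_nonpos_of_nonneg_of_nonpos hε.le (i0_nonpos h hd' hv')
    linarith

/-- the operator `1 + x ∂_ξ` -/
def T1 (C : Ar) : Ar := fun l k a b => C l k a b + m2 (sh 0 C) l k a b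

theorem HM_T1 (C : Ar) (l k a b : ℕ) : HM (T1 C) l k a b = fun i j =>
    HM C l k a b i j + HM (m2 (sh 0 C)) l k a b i j := by
  funext i j
  fin_cases i <;> fin_cases j <;> rfl

theorem Lor.t1 {d : ℕ} {C : Ar} (h : Lor d C) : Lor d (T1 C) := by
  constructor
  · intro l k a b hd
    have h1 := h.pos l k a b hd
    have h2 : 0 ≤ m2 (sh 0 C) l k a b := by
      unfold m2
      cases a with
      | zero => simp
      | succ a =>
        have := h.pos (l + 1) k a b (by omega)
        rw [Nat.add_sub_cancel]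
        exact mul_nonneg (by positivity) this.le
    unfold T1
    linarith
  · intro l k a b hd
    obtain ⟨d', rfl⟩ : ∃ d', d = d' + 1 := ⟨d - 1, by omega⟩
    refine ⟨fun j => sh j (sh 0 C) l k a b, fun v hv => ?_⟩
    have hv' : lf (sh 0 C) l k a b v = 0 := hv
    change bq (HM (T1 C) l k a b) v v ≤ 0
    rw [HM_T1, bq_add (HM C l k a b) (HM (m2 (sh 0 C)) l k a b)]
    have h1 := m2_nonpos h.sh0 (by omega : l + k + a + b + 1 = d') hv'
    have h2 := (h.nh l k a b hd).nonpos (HM_symm _ _ _ _ _) (s := 0)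
      (h.pos (l + 1 + 1) k a b (by omega)) (v := v) (by
        rw [← hv']
        unfold lf
        refine sum_congr rfl fun j _ => ?_
        fin_cases j <;> rfl)
    linarith

/-- the merging operator -/
def Jr (C : Ar) : ℕ → ℕ → ℕ → ℕ → ℝ
  | l, 0, a, b => C l 0 a b
  | l, k + 1, a, b => C l (k + 1) a b + Jr C (l + 1) k a b

theorem Jr_zero (C : Ar) (l a b : ℕ) : Jr C l 0 a b = C l 0 a b := by
  unfold Jr; rfl

theorem Jr_succ (C : Ar) (l k a b : ℕ) : Jr C l (k + 1) a b = C l (k + 1) a b + Jr C (l + 1) k a b := by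
  conv_lhs => unfold Jr

theorem Jr_pos {d : ℕ} {C : Ar} (h : Lor d C) : ∀ k l a b, l + k + a + b = d → 0 < Jr C l k a b := by
  intro k
  induction k with
  | zero => intro l a b hd; rw [Jr_zero]; exact h.pos _ _ _ _ hd
  | succ k ih =>
    intro l a b hd
    rw [Jr_succ]
    have h1 := h.pos l (k + 1) a b hd
    have h2 := ih (l + 1) a b (by omega)
    linarith

/-- the form at the end of the chain -/
def PM (C : Ar) (l a b : ℕ) : Fin 4 → Fin 4 → ℝ := fun i j =>
  (if i = 1 then (if j = 0 then C (l + 2) 0 a b else if j = 1 then C (l + 1) 1 a b + C (l + 2) 0 a b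
    else sh j C (l + 1) 0 a b) else
    if j = 1 then (if i = 0 then C (l + 2) 0 a b else sh i C (l + 1) 0 a b) else 0)

theorem PM_symm (C : Ar) (l a b : ℕ) : Sy (PM C l a b) := by
  intro i j
  fin_cases i <;> fin_cases j <;> simp [PM]

theorem HM_Jr_zero (C : Ar) (l a b : ℕ) : HM (Jr C) l 0 a b = fun i j =>
    HM C l 0 a b i j + PM C l a b i j := by
  funext i j
  fin_cases i <;> fin_cases j <;>
    simp [HM, PM, Pool.Agent.Lib.FenceNewton.sh0, sh1, sh2, sh3, Jr_zero, Jr_succ]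

theorem HM_Jr_succ (C : Ar) (l k a b : ℕ) : HM (Jr C) l (k + 1) a b = fun i j =>
    HM C l (k + 1) a b i j + HM (Jr C) (l + 1) k a b i j := by
  funext i j
  fin_cases i <;> fin_cases j <;>
    simp only [HM, Pool.Agent.Lib.FenceNewton.sh0, sh1, sh2, sh3, Jr_succ, Fin.zero_eta,
      Fin.mk_one, Fin.reduceFinMk]

theorem PM_NH {C : Ar} {l a b : ℕ} : NH (PM C l a b) := by
  refine ⟨fun i => if i = 1 then 1 else 0, fun v hv => ?_⟩
  have hv1 : v 1 = 0 := by
    simpa [Fin.sum_univ_four] using hv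
  change bq (PM C l a b) v v ≤ 0
  unfold bq
  simp [Fin.sum_univ_four, PM, hv1]

theorem Jr_nh {d : ℕ} {C : Ar} (h : Lor d C) : ∀ k l a b, l + k + a + b + 2 = d →
    NH (HM (Jr C) l k a b) := by
  intro k
  induction k with
  | zero =>
    intro l a b hd
    rw [HM_Jr_zero]
    apply NH.chain (h.nh l 0 a b hd) (HM_symm _ _ _ _ _) PM_NH (PM_symm _ _ _ _)
    · exact h.pos (l + 1 + 1) 0 a b (by omega)
    · exact h.pos (l + 1) (0 + 1) a b (by omega)
    · have h1 := h.pos (l + 1) 1 a b (by omega)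
      have h2 := h.pos (l + 2) 0 a b (by omega)
      simp only [PM]
      simp
      linarith
    · intro j
      fin_cases j <;> simp [HM, PM, Pool.Agent.Lib.FenceNewton.sh0, sh1, sh2, sh3]
  | succ k ih =>
    intro l a b hd
    rw [HM_Jr_succ]
    apply NH.chain (h.nh l (k + 1) a b hd) (HM_symm _ _ _ _ _) (ih (l + 1) a b (by omega))
      (HM_symm _ _ _ _ _)
    · exact h.pos (l + 1 + 1) (k + 1) a b (by omega)
    · exact h.pos (l + 1) (k + 1 + 1) a b (by omega)
    · exact Jr_pos h (k + 1 + 1) (l + 1) a b (by omega)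
    · intro j
      fin_cases j <;>
        simp only [HM, Pool.Agent.Lib.FenceNewton.sh0, sh1, sh2, sh3, Jr_succ, Fin.zero_eta,
          Fin.mk_one, Fin.reduceFinMk] <;> ring

theorem Lor.jr {d : ℕ} {C : Ar} (h : Lor d C) : Lor d (Jr C) :=
  ⟨fun l k a b hd => Jr_pos h k l a b hd, fun l k a b hd => Jr_nh h k l a b hd⟩

/-- exchanging the first two variables -/
def sw (C : Ar) : Ar := fun l k a b => C k l a b

theorem sw_sw (C : Ar) : sw (sw C) = C := rfl

/-- the permutation of the variables -/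
def sg (i : Fin 4) : Fin 4 := match i with
  | 0 => 1
  | 1 => 0
  | 2 => 2
  | 3 => 3

theorem HM_sw (C : Ar) (l k a b : ℕ) (i j : Fin 4) :
    HM (sw C) l k a b i j = HM C k l a b (sg i) (sg j) := by
  fin_cases i <;> fin_cases j <;> rfl

theorem Lor.sw {d : ℕ} {C : Ar} (h : Lor d C) : Lor d (sw C) := by
  refine ⟨fun l k a b hd => h.pos k l a b (by omega), fun l k a b hd => ?_⟩
  obtain ⟨lam, hl⟩ := h.nh k l a b (by omega)
  refine ⟨fun i => lam (sg i), fun v hv => ?_⟩
  have h1 := hl (fun i => v (sg i)) (by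
    simp only [Fin.sum_univ_four, sg] at hv ⊢
    linarith)
  have h2 : bq (HM (Pool.Agent.Lib.FenceNewton.sw C) l k a b) v v =
      bq (HM C k l a b) (fun i => v (sg i)) (fun i => v (sg i)) := by
    unfold bq
    simp only [HM_sw, Fin.sum_univ_four, sg]
    ring
  change bq (HM (Pool.Agent.Lib.FenceNewton.sw C) l k a b) v v ≤ 0
  rw [h2]
  exact h1

/-- the steps of the fence -/
def stepU (ε : ℝ) (C : Ar) : Ar := MM ε (Jr (T1 C))
def stepD (ε : ℝ) (C : Ar) : Ar := sw (stepU ε (sw C))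

theorem Lor.stepU {d : ℕ} {C : Ar} (h : Lor d C) {ε : ℝ} (hε : 0 < ε) :
    Lor (d + 1) (stepU ε C) := h.t1.jr.mm hε

theorem Lor.stepD {d : ℕ} {C : Ar} (h : Lor d C) {ε : ℝ} (hε : 0 < ε) :
    Lor (d + 1) (stepD ε C) := (h.sw.stepU hε).sw

/-- the array of the constant one -/
def dl : Ar := fun l k a b => if l = 0 ∧ k = 0 ∧ a = 0 ∧ b = 0 then 1 else 0

/-- the array of a word -/
def arr (ε : ℝ) : List Bool → Ar
  | [] => dl
  | true :: w => stepU ε (arr ε w)
  | false :: w => stepD ε (arr ε w)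

theorem arr_lor {ε : ℝ} (hε : 0 < ε) (w : List Bool) : Lor w.length (arr ε w) := by
  induction w with
  | nil =>
    refine ⟨fun l k a b hd => ?_, fun l k a b hd => absurd hd (by simp)⟩
    rw [List.length_nil] at hd
    unfold arr dl
    rw [if_pos (by omega)]
    exact one_pos
  | cons e w ih =>
    cases e with
    | true => exact ih.stepU hε
    | false => exact ih.stepD hε

end Pool.Agent.Lib.FenceNewton
end

section

set_option autoImplicit false

namespace Pool.Agent.Lib.FenceNewton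

open Finset Pool.Agent.Lib.FenceGlue

/-! Elementary relations between the operators -/

theorem sh0_i0 (C : Ar) : sh 0 (i0 C) = C := by
  funext l k a b; rfl

theorem sh0_i1 (C : Ar) : sh 0 (i1 C) = i1 (sh 0 C) := by
  funext l k a b; cases k <;> rfl

theorem sh0_m2 (C : Ar) : sh 0 (m2 C) = m2 (sh 0 C) := by
  funext l k a b; rfl

theorem sh0_m3 (C : Ar) : sh 0 (m3 C) = m3 (sh 0 C) := by
  funext l k a b; rfl

theorem i0_i1 (C : Ar) : i0 (i1 C) = i1 (i0 C) := by
  funext l k a b; cases l <;> cases k <;> rfl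

theorem i0_m2 (C : Ar) : i0 (m2 C) = m2 (i0 C) := by
  funext l k a b; cases l <;> simp [i0, m2]

theorem i0_m3 (C : Ar) : i0 (m3 C) = m3 (i0 C) := by
  funext l k a b; cases l <;> simp [i0, m3]

theorem i1_m2 (C : Ar) : i1 (m2 C) = m2 (i1 C) := by
  funext l k a b; cases k <;> simp [i1, m2]

theorem i1_m3 (C : Ar) : i1 (m3 C) = m3 (i1 C) := by
  funext l k a b; cases k <;> simp [i1, m3]

theorem m2_m3 (C : Ar) : m2 (m3 C) = m3 (m2 C) := by
  funext l k a b; simp only [m2, m3]; ring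

theorem sh0_add (C D : Ar) : sh 0 (C + D) = sh 0 C + sh 0 D := rfl
theorem sh0_sub (C D : Ar) : sh 0 (C - D) = sh 0 C - sh 0 D := rfl

theorem i0_add (C D : Ar) : i0 (C + D) = i0 C + i0 D := by
  funext l k a b; cases l <;> simp [i0]
theorem i1_add (C D : Ar) : i1 (C + D) = i1 C + i1 D := by
  funext l k a b; cases k <;> simp [i1]
theorem m2_add (C D : Ar) : m2 (C + D) = m2 C + m2 D := by
  funext l k a b; simp [m2, mul_add]
theorem m3_add (C D : Ar) : m3 (C + D) = m3 C + m3 D := by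
  funext l k a b; simp [m3, mul_add]
theorem i0_sub (C D : Ar) : i0 (C - D) = i0 C - i0 D := by
  funext l k a b; cases l <;> simp [i0]
theorem i1_sub (C D : Ar) : i1 (C - D) = i1 C - i1 D := by
  funext l k a b; cases k <;> simp [i1]
theorem m2_sub (C D : Ar) : m2 (C - D) = m2 C - m2 D := by
  funext l k a b; simp [m2, mul_sub]
theorem m3_sub (C D : Ar) : m3 (C - D) = m3 C - m3 D := by
  funext l k a b; simp [m3, mul_sub]

/-- `Jr` solves a fixed point equation -/
theorem Jr_fix (C : Ar) : Jr C = C + i1 (sh 0 (Jr C)) := by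
  funext l k a b
  cases k with
  | zero => simp [Jr_zero, i1]
  | succ k => rw [Jr_succ]; rfl

theorem Jr_unique {C F : Ar} (h : F = C + i1 (sh 0 F)) : F = Jr C := by
  funext l k a b
  induction k generalizing l with
  | zero =>
    rw [h, Jr_zero]
    simp [i1]
  | succ k ih =>
    rw [Jr_succ, ← ih]
    conv_lhs => rw [h]
    rfl

theorem Jr_add (C D : Ar) : Jr (C + D) = Jr C + Jr D := by
  symm
  apply Jr_unique
  conv_lhs => rw [Jr_fix C, Jr_fix D]
  rw [sh0_add, i1_add]
  abel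

theorem Jr_sub (C D : Ar) : Jr (C - D) = Jr C - Jr D := by
  symm
  apply Jr_unique
  conv_lhs => rw [Jr_fix C, Jr_fix D]
  rw [sh0_sub, i1_sub]
  abel

theorem Jr_m2 (C : Ar) : Jr (m2 C) = m2 (Jr C) := by
  symm
  apply Jr_unique
  conv_lhs => rw [Jr_fix C]
  rw [m2_add, ← i1_m2, ← sh0_m2]

theorem Jr_m3 (C : Ar) : Jr (m3 C) = m3 (Jr C) := by
  symm
  apply Jr_unique
  conv_lhs => rw [Jr_fix C]
  rw [m3_add, ← i1_m3, ← sh0_m3]

theorem Jr_i1 (C : Ar) : Jr (i1 C) = i1 (Jr C) := by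
  symm
  apply Jr_unique
  conv_lhs => rw [Jr_fix C]
  rw [i1_add, ← sh0_i1]

theorem Jr_sh0 (C : Ar) : Jr (sh 0 C) = sh 0 (Jr C) := by
  symm
  apply Jr_unique
  conv_lhs => rw [Jr_fix C]
  rw [sh0_add, sh0_i1]

/-- the part without the first variable -/
def z0 (C : Ar) : Ar := fun l k a b => if l = 0 then C l k a b else 0

theorem i0_sh0 (C : Ar) : i0 (sh 0 C) = C - z0 C := by
  funext l k a b
  cases l <;> simp [i0, z0, sh0]

theorem z0_m2 (C : Ar) : z0 (m2 C) = m2 (z0 C) := by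
  funext l k a b
  simp only [z0, m2]
  split_ifs <;> simp

theorem z0_i1 (C : Ar) : z0 (i1 C) = i1 (z0 C) := by
  funext l k a b
  cases k <;> simp [z0, i1]

theorem z0_add (C D : Ar) : z0 (C + D) = z0 C + z0 D := by
  funext l k a b
  simp only [z0, Pi.add_apply]
  split_ifs <;> simp

theorem sh0_z0 (C : Ar) : sh 0 (z0 C) = 0 := by
  funext l k a b
  simp [sh0, z0]

theorem i1_zero : i1 0 = 0 := by
  funext l k a b
  cases k <;> rfl

theorem m2_zero : m2 0 = 0 := by
  funext l k a b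
  simp [m2]

theorem Jr_z0 (C : Ar) : Jr (z0 C) = z0 C := by
  symm
  apply Jr_unique
  rw [sh0_z0, i1_zero, add_zero]

/-- evaluation of the first variable at the second -/
def EE (C : Ar) : Ar := z0 (Jr C)

theorem EE_eq (C : Ar) : EE C = z0 C + i1 (EE (sh 0 C)) := by
  unfold EE
  conv_lhs => rw [Jr_fix]
  rw [z0_add, z0_i1, ← Jr_sh0]

theorem Jr_i0 (C : Ar) : Jr (i0 C) = i0 (Jr C) + i1 (EE C) := by
  symm
  apply Jr_unique
  have h1 : i0 (Jr C) = i0 C + i1 (Jr C) - i1 (EE C) := by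
    conv_lhs => rw [Jr_fix]
    rw [i0_add, i0_i1, i0_sh0, i1_sub]
    unfold EE
    abel
  have h2 : sh 0 (i0 (Jr C) + i1 (EE C)) = Jr C := by
    rw [sh0_add, sh0_i0, sh0_i1]
    unfold EE
    rw [sh0_z0, i1_zero, add_zero]
  rw [h2, h1]
  abel

theorem T1_eq (C : Ar) : T1 C = C + m2 (sh 0 C) := rfl

/-- the divided difference -/
def TT (C : Ar) : Ar := Jr (T1 C)

def XX (C : Ar) : Ar := m2 C + i0 C
def ZZ (C : Ar) : Ar := m2 C + i1 C
def SS (C : Ar) : Ar := m3 C - m2 C

theorem TT_ZZ (C : Ar) : TT (ZZ C) = ZZ (TT C) := by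
  unfold TT ZZ
  rw [T1_eq, sh0_add, sh0_m2, sh0_i1, m2_add, T1_eq]
  simp only [Jr_add, Jr_m2, Jr_i1, m2_add, i1_add, i1_m2]
  abel

theorem TT_SS (C : Ar) : TT (SS C) = SS (TT C) := by
  unfold TT SS
  rw [T1_eq, sh0_sub, sh0_m2, sh0_m3, m2_sub, T1_eq]
  simp only [Jr_add, Jr_sub, Jr_m2, Jr_m3, m2_add, m3_add, m2_m3]
  abel

theorem TT_XX (C : Ar) : TT (XX C) = XX (TT C) + ZZ (EE C) := by
  have e1 : T1 (XX C) = m2 (T1 C) + i0 (T1 C) + m2 (z0 C) := by
    unfold XX
    rw [T1_eq, T1_eq, sh0_add, sh0_m2, sh0_i0, m2_add, m2_add, i0_add, i0_m2, i0_sh0, m2_sub]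
    abel
  have e2 : EE (T1 C) = EE C + m2 (EE (sh 0 C)) := by
    unfold EE
    rw [T1_eq, Jr_add, z0_add, Jr_m2, z0_m2]
  unfold TT
  rw [e1, Jr_add, Jr_add, Jr_m2, Jr_m2, Jr_z0, Jr_i0, e2]
  unfold XX ZZ
  have e3 : m2 (EE C) = m2 (z0 C) + m2 (i1 (EE (sh 0 C))) := by
    conv_lhs => rw [EE_eq]
    rw [m2_add]
  rw [e3, i1_add, i1_m2]
  abel

theorem EE_XX (C : Ar) : EE (XX C) = ZZ (EE C) := by
  unfold XX ZZ
  have e1 : EE (i0 C) = i1 (EE C) := by
    unfold EE
    rw [Jr_i0]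
    funext l k a b
    cases l with
    | zero =>
      unfold EE
      cases k <;> simp [z0, i0, i1]
    | succ l =>
      cases k <;> simp [z0, i1]
  have e2 : EE (m2 C) = m2 (EE C) := by
    unfold EE
    rw [Jr_m2, z0_m2]
  have e3 : EE (m2 C + i0 C) = EE (m2 C) + EE (i0 C) := by
    unfold EE
    rw [Jr_add, z0_add]
  rw [e3, e1, e2]

theorem EE_ZZ (C : Ar) : EE (ZZ C) = ZZ (EE C) := by
  unfold EE ZZ
  rw [Jr_add, z0_add, Jr_m2, z0_m2, Jr_i1, z0_i1]

theorem z0_m3 (C : Ar) : z0 (m3 C) = m3 (z0 C) := by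
  funext l k a b
  simp only [z0, m3]
  split_ifs <;> simp

theorem z0_sub (C D : Ar) : z0 (C - D) = z0 C - z0 D := by
  funext l k a b
  simp only [z0, Pi.sub_apply]
  split_ifs <;> simp

theorem EE_SS (C : Ar) : EE (SS C) = SS (EE C) := by
  unfold EE SS
  rw [Jr_sub, z0_sub, Jr_m2, z0_m2, Jr_m3, z0_m3]

theorem z0_dl : z0 dl = dl := by
  funext l k a b
  simp only [z0, dl]
  split_ifs <;> simp_all

theorem Jr_dl : Jr dl = dl := by
  rw [← z0_dl, Jr_z0]

theorem EE_dl : EE dl = dl := by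
  unfold EE
  rw [Jr_dl, z0_dl]

theorem TT_dl : TT dl = dl := by
  unfold TT
  have : T1 dl = dl := by
    rw [T1_eq]
    have h : sh 0 dl = 0 := by
      rw [← z0_dl, sh0_z0]
    rw [h, m2_zero, add_zero]
  rw [this, Jr_dl]

theorem XX_ZZ (C : Ar) : XX (ZZ C) = ZZ (XX C) := by
  unfold XX ZZ
  rw [m2_add, m2_add, i0_add, i1_add, i0_i1, i0_m2, i1_m2]
  abel

theorem XX_SS (C : Ar) : XX (SS C) = SS (XX C) := by
  unfold XX SS
  rw [m2_add, m3_add, i0_sub, m2_sub, m2_m3, i0_m3, i0_m2]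
  abel

theorem ZZ_SS (C : Ar) : ZZ (SS C) = SS (ZZ C) := by
  unfold ZZ SS
  rw [m2_add, m3_add, i1_sub, m2_sub, m2_m3, i1_m3, i1_m2]
  abel

/-- the array of the monomial `(t + ξ) ^ j (t + η) ^ k (Y - t) ^ i` -/
def mon (j k i : ℕ) : Ar := XX^[j] (ZZ^[k] (SS^[i] dl))

theorem iter_comm {f g : Ar → Ar} (h : ∀ C, f (g C) = g (f C)) (n : ℕ) (C : Ar) :
    f (g^[n] C) = g^[n] (f C) := by
  induction n generalizing C with
  | zero => rfl
  | succ n ih => rw [Function.iterate_succ_apply, ih, h, Function.iterate_succ_apply]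

theorem mon_XX (j k i : ℕ) : XX (mon j k i) = mon (j + 1) k i := by
  unfold mon
  rw [Function.iterate_succ_apply']

theorem mon_ZZ (j k i : ℕ) : ZZ (mon j k i) = mon j (k + 1) i := by
  unfold mon
  rw [iter_comm (f := ZZ) (g := XX) (fun C => (XX_ZZ C).symm), ← Function.iterate_succ_apply' ZZ]

theorem mon_SS (j k i : ℕ) : SS (mon j k i) = mon j k (i + 1) := by
  unfold mon
  rw [iter_comm (f := SS) (g := XX) (fun C => (XX_SS C).symm),
    iter_comm (f := SS) (g := ZZ) (fun C => (ZZ_SS C).symm), ← Function.iterate_succ_apply' SS]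

theorem EE_mon (j k i : ℕ) : EE (mon j k i) = mon 0 (j + k) i := by
  induction j with
  | zero =>
    rw [zero_add]
    change EE (ZZ^[k] (SS^[i] dl)) = ZZ^[k] (SS^[i] dl)
    rw [iter_comm (f := EE) (g := ZZ) EE_ZZ, iter_comm (f := EE) (g := SS) EE_SS, EE_dl]
  | succ j ih =>
    rw [← mon_XX, EE_XX, ih, mon_ZZ]
    congr 1
    ring

theorem TT_mon (j k i : ℕ) : TT (mon j k i) = ∑ r ∈ antidiagonal j, mon r.1 (r.2 + k) i := by
  induction j with
  | zero =>
    rw [Nat.antidiagonal_zero, sum_singleton, zero_add]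
    change TT (ZZ^[k] (SS^[i] dl)) = ZZ^[k] (SS^[i] dl)
    rw [iter_comm (f := TT) (g := ZZ) TT_ZZ, iter_comm (f := TT) (g := SS) TT_SS, TT_dl]
  | succ j ih =>
    rw [← mon_XX, TT_XX, ih, EE_mon, mon_ZZ, Nat.sum_antidiagonal_succ, add_comm]
    congr 1
    · congr 1
      ring
    · have h1 : ∀ (s : Finset (ℕ × ℕ)) (f : ℕ × ℕ → Ar), XX (∑ r ∈ s, f r) = ∑ r ∈ s, XX (f r) := by
        intro s f
        classical
        induction s using Finset.induction_on with
        | empty =>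
          rw [sum_empty, sum_empty]
          funext l k a b
          cases l <;> simp [XX, m2, i0]
        | insert a s ha ih =>
          rw [sum_insert ha, sum_insert ha, ← ih]
          unfold XX
          rw [m2_add, i0_add]
          abel
      rw [h1]
      exact sum_congr rfl fun r _ => mon_XX _ _ _

theorem MM_zero (C : Ar) : MM 0 C = SS C + ZZ C := by
  funext l k a b
  simp only [MM, SS, ZZ, Pi.add_apply, Pi.sub_apply]
  ring

theorem MM_add (C D : Ar) : MM 0 (C + D) = MM 0 C + MM 0 D := by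
  rw [MM_zero, MM_zero, MM_zero]
  unfold SS ZZ
  rw [m3_add, m2_add, i1_add]
  abel

theorem MM_sum (s : Finset (ℕ × ℕ)) (f : ℕ × ℕ → Ar) : MM 0 (∑ r ∈ s, f r) = ∑ r ∈ s, MM 0 (f r) := by
  classical
  induction s using Finset.induction_on with
  | empty =>
    rw [sum_empty, sum_empty]
    funext l k a b
    cases l <;> cases k <;> simp [MM, m2, m3, i0, i1]
  | insert a s ha ih =>
    rw [sum_insert ha, sum_insert ha, ← ih, MM_add]

theorem stepU_mon (j k i : ℕ) : stepU 0 (mon j k i) =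
    ∑ r ∈ antidiagonal j, (mon r.1 (r.2 + k) (i + 1) + mon r.1 (r.2 + k + 1) i) := by
  have h : stepU 0 (mon j k i) = MM 0 (TT (mon j k i)) := rfl
  rw [h, TT_mon, MM_sum]
  exact sum_congr rfl fun r _ => by rw [MM_zero, mon_SS, mon_ZZ]

theorem sw_i0 (C : Ar) : sw (i0 C) = i1 (sw C) := by
  funext l k a b; cases k <;> rfl
theorem sw_i1 (C : Ar) : sw (i1 C) = i0 (sw C) := by
  funext l k a b; cases l <;> rfl
theorem sw_m2 (C : Ar) : sw (m2 C) = m2 (sw C) := rfl
theorem sw_m3 (C : Ar) : sw (m3 C) = m3 (sw C) := rfl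
theorem sw_add (C D : Ar) : sw (C + D) = sw C + sw D := rfl
theorem sw_sub (C D : Ar) : sw (C - D) = sw C - sw D := rfl

theorem sw_XX (C : Ar) : sw (XX C) = ZZ (sw C) := by
  unfold XX ZZ
  rw [sw_add, sw_i0, sw_m2]
theorem sw_ZZ (C : Ar) : sw (ZZ C) = XX (sw C) := by
  unfold XX ZZ
  rw [sw_add, sw_i1, sw_m2]
theorem sw_SS (C : Ar) : sw (SS C) = SS (sw C) := by
  unfold SS
  rw [sw_sub, sw_m3, sw_m2]

theorem sw_dl : sw dl = dl := by
  funext l k a b
  simp only [sw, dl]
  congr 1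
  apply propext
  tauto

theorem sw_mon (j k i : ℕ) : sw (mon j k i) = mon k j i := by
  have h1 : ∀ i, sw (SS^[i] dl) = SS^[i] dl := by
    intro i
    rw [iter_comm (f := sw) (g := SS) sw_SS, sw_dl]
  have h2 : ∀ k i, sw (mon 0 k i) = mon k 0 i := by
    intro k
    induction k with
    | zero => intro i; exact h1 i
    | succ k ih => intro i; rw [← mon_ZZ, sw_ZZ, ih, mon_XX]
  induction j with
  | zero => exact h2 k i
  | succ j ih => rw [← mon_XX, sw_XX, ih, mon_ZZ]

theorem sw_sum (s : Finset (ℕ × ℕ)) (f : ℕ × ℕ → Ar) : sw (∑ r ∈ s, f r) = ∑ r ∈ s, sw (f r) := by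
  classical
  induction s using Finset.induction_on with
  | empty => rfl
  | insert a s ha ih => rw [sum_insert ha, sum_insert ha, ← ih, sw_add]

theorem stepD_mon (j k i : ℕ) : stepD 0 (mon j k i) =
    ∑ r ∈ antidiagonal k, (mon (j + r.1) r.2 (i + 1) + mon (j + r.1 + 1) r.2 i) := by
  unfold stepD
  rw [sw_mon, stepU_mon, sw_sum, ← Nat.sum_antidiagonal_swap]
  refine sum_congr rfl fun r _ => ?_
  rw [sw_add, sw_mon, sw_mon]
  simp only [Prod.fst_swap, Prod.snd_swap]
  rw [add_comm r.1 j]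

theorem T1_add (C D : Ar) : T1 (C + D) = T1 C + T1 D := by
  rw [T1_eq, T1_eq, T1_eq, sh0_add, m2_add]
  abel

theorem stepU_add (C D : Ar) : stepU 0 (C + D) = stepU 0 C + stepU 0 D := by
  unfold stepU
  rw [T1_add, Jr_add, MM_add]

theorem stepD_add (C D : Ar) : stepD 0 (C + D) = stepD 0 C + stepD 0 D := by
  unfold stepD
  rw [sw_add, stepU_add, sw_add]

end Pool.Agent.Lib.FenceNewton
end

section

set_option autoImplicit false

namespace Pool.Agent.Lib.FenceNewton

open Finset Pool.Agent.Lib.FenceGlue Polynomial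

/-- pairs of a counting function and an array -/
def Rl (d : ℕ) : AddSubmonoid ((ℕ → ℕ → ℕ) × Ar) :=
  AddSubmonoid.closure {x | ∃ j k i, j + k + i = d ∧
    x = (fun A B => A.choose j * B.choose k, mon j k i)}

theorem Rl_gen {d j k i : ℕ} (h : j + k + i = d) :
    ((fun A B => A.choose j * B.choose k, mon j k i) : (ℕ → ℕ → ℕ) × Ar) ∈ Rl d :=
  AddSubmonoid.subset_closure ⟨j, k, i, h, rfl⟩

theorem Rl_stepU {d : ℕ} {x : (ℕ → ℕ → ℕ) × Ar} (h : x ∈ Rl d) :
    ((stU x.1, stepU 0 x.2) : (ℕ → ℕ → ℕ) × Ar) ∈ Rl (d + 1) := by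
  unfold Rl at h
  induction h using AddSubmonoid.closure_induction with
  | mem x hx =>
    obtain ⟨j, k, i, hd, rfl⟩ := hx
    beta_reduce
    rw [stU_gen, stepU_mon]
    have h1 : ((∑ r ∈ antidiagonal j, ((fun A B => A.choose r.1 * B.choose (r.2 + k)) +
        (fun A B => A.choose r.1 * B.choose (r.2 + k + 1))),
        ∑ r ∈ antidiagonal j, (mon r.1 (r.2 + k) (i + 1) + mon r.1 (r.2 + k + 1) i)) :
        (ℕ → ℕ → ℕ) × Ar) =
        ∑ r ∈ antidiagonal j, (((fun A B => A.choose r.1 * B.choose (r.2 + k),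
          mon r.1 (r.2 + k) (i + 1)) : (ℕ → ℕ → ℕ) × Ar) +
          (fun A B => A.choose r.1 * B.choose (r.2 + k + 1), mon r.1 (r.2 + k + 1) i)) := by
      apply Prod.ext
      · rw [Prod.fst_sum]
        rfl
      · rw [Prod.snd_sum]
        rfl
    rw [h1]
    refine sum_mem fun r hr => add_mem (Rl_gen ?_) (Rl_gen ?_)
    · rw [HasAntidiagonal.mem_antidiagonal] at hr; omega
    · rw [HasAntidiagonal.mem_antidiagonal] at hr; omega
  | zero =>
    have h1 : ((stU (0 : (ℕ → ℕ → ℕ) × Ar).1, stepU 0 (0 : (ℕ → ℕ → ℕ) × Ar).2) :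
        (ℕ → ℕ → ℕ) × Ar) = 0 := by
      apply Prod.ext
      · exact map_zero stU
      · have := stepU_add 0 0
        rw [add_zero] at this
        have h2 : stepU 0 (0 : Ar) = 0 := by
          have h3 := this
          exact left_eq_add.1 h3
        exact h2
    rw [h1]
    exact zero_mem _
  | add x y _ _ hx hy =>
    have h1 : ((stU (x + y).1, stepU 0 (x + y).2) : (ℕ → ℕ → ℕ) × Ar) =
        (stU x.1, stepU 0 x.2) + (stU y.1, stepU 0 y.2) := by
      apply Prod.ext
      · exact map_add stU x.1 y.1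
      · exact stepU_add x.2 y.2
    rw [h1]
    exact add_mem hx hy

theorem Rl_stepD {d : ℕ} {x : (ℕ → ℕ → ℕ) × Ar} (h : x ∈ Rl d) :
    ((stD x.1, stepD 0 x.2) : (ℕ → ℕ → ℕ) × Ar) ∈ Rl (d + 1) := by
  unfold Rl at h
  induction h using AddSubmonoid.closure_induction with
  | mem x hx =>
    obtain ⟨j, k, i, hd, rfl⟩ := hx
    beta_reduce
    rw [stD_gen, stepD_mon]
    have h1 : ((∑ r ∈ antidiagonal k, ((fun A B => A.choose (j + r.1) * B.choose r.2) +
        (fun A B => A.choose (j + r.1 + 1) * B.choose r.2)),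
        ∑ r ∈ antidiagonal k, (mon (j + r.1) r.2 (i + 1) + mon (j + r.1 + 1) r.2 i)) :
        (ℕ → ℕ → ℕ) × Ar) =
        ∑ r ∈ antidiagonal k, (((fun A B => A.choose (j + r.1) * B.choose r.2,
          mon (j + r.1) r.2 (i + 1)) : (ℕ → ℕ → ℕ) × Ar) +
          (fun A B => A.choose (j + r.1 + 1) * B.choose r.2, mon (j + r.1 + 1) r.2 i)) := by
      apply Prod.ext
      · rw [Prod.fst_sum]
        rfl
      · rw [Prod.snd_sum]
        rfl
    rw [h1]
    refine sum_mem fun r hr => add_mem (Rl_gen ?_) (Rl_gen ?_)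
    · rw [HasAntidiagonal.mem_antidiagonal] at hr; omega
    · rw [HasAntidiagonal.mem_antidiagonal] at hr; omega
  | zero =>
    have h1 : ((stD (0 : (ℕ → ℕ → ℕ) × Ar).1, stepD 0 (0 : (ℕ → ℕ → ℕ) × Ar).2) :
        (ℕ → ℕ → ℕ) × Ar) = 0 := by
      apply Prod.ext
      · exact map_zero stD
      · have := stepD_add 0 0
        rw [add_zero] at this
        exact left_eq_add.1 this
    rw [h1]
    exact zero_mem _
  | add x y _ _ hx hy =>
    have h1 : ((stD (x + y).1, stepD 0 (x + y).2) : (ℕ → ℕ → ℕ) × Ar) =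
        (stD x.1, stepD 0 x.2) + (stD y.1, stepD 0 y.2) := by
      apply Prod.ext
      · exact map_add stD x.1 y.1
      · exact stepD_add x.2 y.2
    rw [h1]
    exact add_mem hx hy

theorem rc_arr (w : List Bool) : ((rc w, arr 0 w) : (ℕ → ℕ → ℕ) × Ar) ∈ Rl w.length := by
  induction w with
  | nil =>
    have h := Rl_gen (show 0 + 0 + 0 = 0 from rfl)
    have e : ((rc [], arr 0 []) : (ℕ → ℕ → ℕ) × Ar) =
        (fun A B => A.choose 0 * B.choose 0, mon 0 0 0) := by
      apply Prod.ext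
      · funext A B
        simp [rc]
      · rfl
    rw [e]
    exact h
  | cons e w ih =>
    cases e with
    | true => exact Rl_stepU ih
    | false => exact Rl_stepD ih

/-- the polynomial of an array -/
noncomputable def EP (n : ℕ) (C : Ar) : ℝ[X] :=
  ∑ p ∈ antidiagonal n, Polynomial.C (C 0 0 p.1 p.2 / (p.1.factorial * p.2.factorial)) * X ^ p.1

theorem EP_m2 (n : ℕ) (C : Ar) : EP (n + 1) (m2 C) = X * EP n C := by
  unfold EP
  rw [Nat.sum_antidiagonal_succ, mul_sum]
  have h0 : m2 C 0 0 0 (n + 1) = 0 := by simp [m2]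
  simp only [h0, zero_div, C_0, zero_mul, zero_add]
  refine sum_congr rfl fun p _ => ?_
  have h1 : m2 C 0 0 (p.1 + 1) p.2 / (((p.1 + 1).factorial : ℝ) * p.2.factorial) =
      C 0 0 p.1 p.2 / (p.1.factorial * p.2.factorial) := by
    unfold m2
    rw [Nat.add_sub_cancel, Nat.factorial_succ]
    push_cast
    have h2 : (p.1.factorial : ℝ) ≠ 0 := by exact_mod_cast p.1.factorial_ne_zero
    have h3 : (p.2.factorial : ℝ) ≠ 0 := by exact_mod_cast p.2.factorial_ne_zero
    have h4 : (p.1 : ℝ) + 1 ≠ 0 := by positivity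
    field_simp
  rw [h1, pow_succ]
  ring

theorem EP_m3 (n : ℕ) (C : Ar) : EP (n + 1) (m3 C) = EP n C := by
  unfold EP
  rw [Nat.sum_antidiagonal_succ']
  have h0 : m3 C 0 0 (n + 1) 0 = 0 := by simp [m3]
  simp only [h0, zero_div, C_0, zero_mul, zero_add]
  refine sum_congr rfl fun p _ => ?_
  have h1 : m3 C 0 0 p.1 (p.2 + 1) / ((p.1.factorial : ℝ) * (p.2 + 1).factorial) =
      C 0 0 p.1 p.2 / (p.1.factorial * p.2.factorial) := by
    unfold m3
    rw [Nat.add_sub_cancel, Nat.factorial_succ]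
    push_cast
    have h2 : (p.1.factorial : ℝ) ≠ 0 := by exact_mod_cast p.1.factorial_ne_zero
    have h3 : (p.2.factorial : ℝ) ≠ 0 := by exact_mod_cast p.2.factorial_ne_zero
    have h4 : (p.2 : ℝ) + 1 ≠ 0 := by positivity
    field_simp
  rw [h1]

theorem EP_i0 (n : ℕ) (C : Ar) : EP n (i0 C) = 0 := by
  unfold EP
  exact sum_eq_zero fun p _ => by simp [i0]

theorem EP_i1 (n : ℕ) (C : Ar) : EP n (i1 C) = 0 := by
  unfold EP
  exact sum_eq_zero fun p _ => by simp [i1]

theorem EP_add (n : ℕ) (C D : Ar) : EP n (C + D) = EP n C + EP n D := by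
  unfold EP
  rw [← sum_add_distrib]
  refine sum_congr rfl fun p _ => ?_
  rw [← add_mul, ← C_add, ← add_div]
  rfl

theorem EP_sub (n : ℕ) (C D : Ar) : EP n (C - D) = EP n C - EP n D := by
  unfold EP
  rw [← sum_sub_distrib]
  refine sum_congr rfl fun p _ => ?_
  rw [← sub_mul, ← C_sub, ← sub_div]
  rfl

theorem EP_mon (j k i : ℕ) : EP (j + k + i) (mon j k i) = X ^ (j + k) * (1 - X) ^ i := by
  induction j with
  | zero =>
    induction k with
    | zero =>
      induction i with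
      | zero =>
        unfold EP
        rw [Nat.antidiagonal_zero, sum_singleton]
        simp [mon, dl]
      | succ i ih =>
        rw [← mon_SS]
        unfold SS
        rw [show 0 + 0 + (i + 1) = (0 + 0 + i) + 1 by ring, EP_sub, EP_m3, EP_m2, ih]
        ring
    | succ k ih =>
      rw [← mon_ZZ]
      unfold ZZ
      rw [show 0 + (k + 1) + i = (0 + k + i) + 1 by ring, EP_add, EP_m2, EP_i1, ih]
      ring
  | succ j ih =>
    rw [← mon_XX]
    unfold XX
    rw [show j + 1 + k + i = (j + k + i) + 1 by ring, EP_add, EP_m2, EP_i0, ih]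
    ring

theorem numer_add (n : ℕ) (E F : ℝ[X]) : numer n (E + F) = numer n E + numer n F := by
  unfold numer
  rw [← sum_add_distrib]
  exact sum_congr rfl fun k _ => by rw [coeff_add, C_add, add_mul]

theorem numer_X_pow {n K : ℕ} (h : K ≤ n) : numer n (X ^ K) = X ^ K * (1 - X) ^ (n - K) := by
  unfold numer
  rw [Finset.sum_eq_single K]
  · rw [coeff_X_pow, if_pos rfl, C_1, one_mul]
  · intro k _ hk
    rw [coeff_X_pow, if_neg hk, C_0, zero_mul]
  · intro h1
    rw [mem_range] at h1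
    omega

theorem Rl_poly {d : ℕ} {x : (ℕ → ℕ → ℕ) × Ar} (h : x ∈ Rl d) : ∃ E : ℝ[X],
    (∀ m, ((∑ p ∈ antidiagonal m, x.1 p.1 p.2 : ℕ) : ℝ) = WW E m) ∧
    numer (d + 1) E = EP d x.2 := by
  unfold Rl at h
  induction h using AddSubmonoid.closure_induction with
  | mem x hx =>
    obtain ⟨j, k, i, hd, rfl⟩ := hx
    refine ⟨(1 + X) ^ 1 * X ^ (j + k), fun m => ?_, ?_⟩
    · rw [WW_one_add_X_pow, ← conv_choose]
    · beta_reduce
      rw [← hd, EP_mon]
      have e1 : ((1 + X) ^ 1 * X ^ (j + k) : ℝ[X]) = X ^ (j + k) + X ^ (j + k + 1) := by ring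
      rw [e1, numer_add, numer_X_pow (by omega), numer_X_pow (by omega),
        show j + k + i + 1 - (j + k) = i + 1 by omega, show j + k + i + 1 - (j + k + 1) = i by omega]
      ring
  | zero =>
    refine ⟨0, fun m => ?_, ?_⟩
    · rw [WW_zero]
      simp
    · simp [numer, EP]
  | add x y _ _ hx hy =>
    obtain ⟨E, h1, h2⟩ := hx
    obtain ⟨F, h1', h2'⟩ := hy
    refine ⟨E + F, fun m => ?_, ?_⟩
    · rw [WW_add, ← h1, ← h1', ← Nat.cast_add, ← sum_add_distrib]
      rfl
    · rw [numer_add, h2, h2', Prod.snd_add, EP_add]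

/-- The h*-polynomial is the polynomial of the array. -/
theorem h_eq_EP {w : List Bool} {h : ℤ[X]}
    (hh : PowerSeries.mk (fun m : ℕ => ((Om w m : ℕ) : ℤ)) *
      (1 - PowerSeries.X) ^ (w.length + 1 + 1) = (↑h : PowerSeries ℤ)) :
    h.map (Int.castRingHom ℝ) = EP w.length (arr 0 w) := by
  obtain ⟨E, h1, h2⟩ := Rl_poly (rc_arr w)
  obtain ⟨E', h3, h4, -, -⟩ := exists_poly w
  have h5 : E = E' := WW_inj fun c => by rw [← h1, ← h3]; rfl
  rw [glc_h (E := E) h1 (by rw [h5, h4]) hh, h2]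

end Pool.Agent.Lib.FenceNewton
end

section

set_option autoImplicit false

namespace Pool.Agent.Lib.FenceNewton

open Finset Pool.Agent.Lib.FenceGlue Polynomial Filter Topology

theorem EP_coeff (d : ℕ) (C : Ar) {a b : ℕ} (h : a + b = d) :
    (EP d C).coeff a = C 0 0 a b / (a.factorial * b.factorial) := by
  unfold EP
  rw [finsetSum_coeff, sum_eq_single (a, b)]
  · rw [coeff_C_mul_X_pow, if_pos rfl]
  · intro p hp hne
    rw [coeff_C_mul_X_pow, if_neg]
    intro h1
    apply hne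
    rw [HasAntidiagonal.mem_antidiagonal] at hp
    apply Prod.ext
    · exact h1.symm
    · change p.2 = b
      omega
  · intro h1
    exact absurd (HasAntidiagonal.mem_antidiagonal.2 h) h1

theorem EP_coeff_big (d : ℕ) (C : Ar) {a : ℕ} (h : d < a) : (EP d C).coeff a = 0 := by
  unfold EP
  rw [finsetSum_coeff]
  refine sum_eq_zero fun p hp => ?_
  rw [HasAntidiagonal.mem_antidiagonal] at hp
  rw [coeff_C_mul_X_pow, if_neg (by omega)]

/-- families of arrays with continuous entries -/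
def Cn (F : ℝ → Ar) : Prop := ∀ l k a b, Continuous fun ε => F ε l k a b

theorem Cn.t1 {F : ℝ → Ar} (h : Cn F) : Cn fun ε => T1 (F ε) := fun l k a b =>
  (h l k a b).add (continuous_const.mul (h (l + 1) k (a - 1) b))

theorem Cn.jr {F : ℝ → Ar} (h : Cn F) : Cn fun ε => Jr (F ε) := by
  intro l k
  induction k generalizing l with
  | zero => intro a b; simp only [Jr_zero]; exact h l 0 a b
  | succ k ih =>
    intro a b
    simp only [Jr_succ]
    exact (h l (k + 1) a b).add (ih (l + 1) a b)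

theorem Cn.mm {F : ℝ → Ar} (h : Cn F) : Cn fun ε => MM ε (F ε) := by
  intro l k a b
  have h3 : Continuous fun ε => m3 (F ε) l k a b := continuous_const.mul (h l k a (b - 1))
  have h2 : Continuous fun ε => m2 (F ε) l k a b := continuous_const.mul (h l k (a - 1) b)
  have h1 : Continuous fun ε => i1 (F ε) l k a b := by
    cases k with
    | zero => exact continuous_const
    | succ k => exact h l k a b
  have h0 : Continuous fun ε => i0 (F ε) l k a b := by
    cases l with
    | zero => exact continuous_const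
    | succ l => exact h l k a b
  exact (h3.add (continuous_id.mul h2)).add (h1.add (continuous_id.mul h0))

theorem Cn.sw {F : ℝ → Ar} (h : Cn F) : Cn fun ε => sw (F ε) := fun l k a b => h k l a b

theorem arr_cont (w : List Bool) : Cn fun ε => arr ε w := by
  induction w with
  | nil => exact fun _ _ _ _ => continuous_const
  | cons e w ih =>
    cases e with
    | true => exact ih.t1.jr.mm
    | false => exact ih.sw.t1.jr.mm.sw

theorem arr_tendsto (w : List Bool) (l k a b : ℕ) :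
    Tendsto (fun ε => arr ε w l k a b) (𝓝[>] 0) (𝓝 (arr 0 w l k a b)) :=
  ((arr_cont w l k a b).tendsto 0).mono_left nhdsWithin_le_nhds

/-- entries of a positive log-concave sequence -/
theorem lc_chain {d : ℕ} {c : ℕ → ℝ} (hp : ∀ i, i ≤ d → 0 < c i)
    (hc : ∀ i, i + 2 ≤ d → c i * c (i + 2) ≤ c (i + 1) ^ 2) (i m : ℕ) (h : i + m + 2 ≤ d) :
    c i * c (i + m + 2) ≤ c (i + 1) * c (i + m + 1) := by
  induction m with
  | zero =>
    have := hc i h
    rw [add_zero, ← sq]
    exact this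
  | succ m ih =>
    have h1 := ih (by omega)
    have h2 := hc (i + m + 1) (by omega)
    have p0 := hp i (by omega)
    have p1 := hp (i + 1) (by omega)
    have p2 := hp (i + m + 1) (by omega)
    have p3 := hp (i + m + 2) (by omega)
    have p4 := hp (i + m + 3) (by omega)
    have e1 : i + m + 1 + 2 = i + m + 3 := by ring
    have e2 : i + m + 1 + 1 = i + m + 2 := by ring
    have e3 : i + (m + 1) + 2 = i + m + 3 := by ring
    have e4 : i + (m + 1) + 1 = i + m + 2 := by ring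
    rw [e1, e2] at h2
    rw [e3, e4]
    have h3 : c (i + m + 1) * (c i * c (i + m + 3)) ≤
        c (i + m + 1) * (c (i + 1) * c (i + m + 2)) := by
      calc c (i + m + 1) * (c i * c (i + m + 3)) = c i * (c (i + m + 1) * c (i + m + 3)) := by ring
        _ ≤ c i * c (i + m + 2) ^ 2 := mul_le_mul_of_nonneg_left h2 p0.le
        _ = (c i * c (i + m + 2)) * c (i + m + 2) := by ring
        _ ≤ (c (i + 1) * c (i + m + 1)) * c (i + m + 2) := mul_le_mul_of_nonneg_right h1 p3.le
        _ = c (i + m + 1) * (c (i + 1) * c (i + m + 2)) := by ring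
    exact le_of_mul_le_mul_left h3 p2

/-- the coefficients with the factorials -/
noncomputable def cc (d : ℕ) (F : ℝ → Ar) (ε : ℝ) (a : ℕ) : ℝ := F ε 0 0 a (d - a)

section

variable {d : ℕ} {F : ℝ → Ar}

theorem cc_pos (hL : ∀ ε, 0 < ε → Lor d (F ε)) {ε : ℝ} (hε : 0 < ε) {a : ℕ} (h : a ≤ d) :
    0 < cc d F ε a :=
  (hL ε hε).pos 0 0 a (d - a) (by omega)

theorem cc_lc (hL : ∀ ε, 0 < ε → Lor d (F ε)) {ε : ℝ} (hε : 0 < ε) {a : ℕ} (h : a + 2 ≤ d) :
    cc d F ε a * cc d F ε (a + 2) ≤ cc d F ε (a + 1) ^ 2 := by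
  obtain ⟨b, hb⟩ : ∃ b, b = d - (a + 2) := ⟨_, rfl⟩
  have h1 := (hL ε hε).nh 0 0 a b (by omega)
  have h2 := (hL ε hε).pos 0 0 (a + 1 + 1) b (by omega)
  have h3 := h1.rcs_ev (HM_symm _ _ _ _ _) (s := 2) h2 (ev 3)
  rw [bq_ev_ev] at h3
  have e : ∑ j, HM (F ε) 0 0 a b 2 j * ev 3 j = HM (F ε) 0 0 a b 2 3 := by
    unfold ev
    simp
  rw [e] at h3
  change F ε 0 0 (a + 1 + 1) b * F ε 0 0 a (b + 1 + 1) ≤ F ε 0 0 (a + 1) (b + 1) ^ 2 at h3
  unfold cc
  rw [show d - a = b + 1 + 1 by omega, show d - (a + 1) = b + 1 by omega, ← hb]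
  linarith

theorem cc_tendsto (hF : Cn F) (a : ℕ) :
    Tendsto (fun ε => cc d F ε a) (𝓝[>] 0) (𝓝 (cc d F 0 a)) :=
  ((hF 0 0 a (d - a)).tendsto 0).mono_left nhdsWithin_le_nhds

theorem cc_nonneg (hF : Cn F) (hL : ∀ ε, 0 < ε → Lor d (F ε)) {a : ℕ} (h : a ≤ d) :
    0 ≤ cc d F 0 a :=
  ge_of_tendsto (cc_tendsto hF a) (eventually_of_mem self_mem_nhdsWithin fun _ hε =>
    (cc_pos hL hε h).le)

theorem cc_newton (hF : Cn F) (hL : ∀ ε, 0 < ε → Lor d (F ε)) {a : ℕ} (h : a + 2 ≤ d) :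
    cc d F 0 a * cc d F 0 (a + 2) ≤ cc d F 0 (a + 1) ^ 2 :=
  le_of_tendsto_of_tendsto ((cc_tendsto hF a).mul (cc_tendsto hF (a + 2)))
    ((cc_tendsto hF (a + 1)).pow 2)
    (eventually_of_mem self_mem_nhdsWithin fun _ hε => cc_lc hL hε h)

theorem cc_chain (hF : Cn F) (hL : ∀ ε, 0 < ε → Lor d (F ε)) {m : ℕ} (h : m + 2 ≤ d) :
    cc d F 0 0 * cc d F 0 (m + 2) ≤ cc d F 0 1 * cc d F 0 (m + 1) :=
  le_of_tendsto_of_tendsto ((cc_tendsto hF 0).mul (cc_tendsto hF (m + 2)))
    ((cc_tendsto hF 1).mul (cc_tendsto hF (m + 1)))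
    (eventually_of_mem self_mem_nhdsWithin fun ε hε => by
      have := lc_chain (c := cc d F ε) (fun i hi => cc_pos hL hε hi) (fun i hi => cc_lc hL hε hi)
        0 m (by omega)
      simpa using this)

theorem cc_down (hF : Cn F) (hL : ∀ ε, 0 < ε → Lor d (F ε)) (h0 : 0 < cc d F 0 0) (k : ℕ)
    (hk : k ≤ d) (h : 0 < cc d F 0 k) (j : ℕ) (hj : j ≤ k) : 0 < cc d F 0 j := by
  induction k with
  | zero =>
    obtain rfl : j = 0 := by omega
    exact h0
  | succ k ih =>
    rcases Nat.lt_or_ge j (k + 1) with h1 | h1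
    · refine ih (by omega) ?_ (by omega)
      cases k with
      | zero => exact h0
      | succ k =>
        have h2 := cc_chain hF hL (m := k) (by omega)
        have h3 : 0 < cc d F 0 0 * cc d F 0 (k + 2) := mul_pos h0 h
        have h4 := cc_nonneg hF hL (a := k + 1) (by omega)
        rcases h4.eq_or_lt with h5 | h5
        · rw [← h5, mul_zero] at h2
          linarith
        · exact h5
    · obtain rfl : j = k + 1 := by omega
      exact h

/-- Newton's inequalities from an array. -/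
theorem newton_gen (hF : Cn F) (hL : ∀ ε, 0 < ε → Lor d (F ε)) {h : ℤ[X]}
    (hE : h.map (Int.castRingHom ℝ) = EP d (F 0)) (h0 : h.coeff 0 = 1) :
    (∀ j, 0 ≤ h.coeff j) ∧ (∀ j, j ≤ h.natDegree → 0 < h.coeff j) ∧
    ∀ i : ℕ, ((i : ℤ) + 2) * ((d : ℤ) - i) * (h.coeff i * h.coeff (i + 2)) ≤
      ((i : ℤ) + 1) * ((d : ℤ) - 1 - i) * h.coeff (i + 1) ^ 2 := by
  have hco : ∀ a, a ≤ d →
      (h.coeff a : ℝ) * (a.factorial * (d - a).factorial) = cc d F 0 a := by
    intro a ha
    have h1 : (h.map (Int.castRingHom ℝ)).coeff a = (h.coeff a : ℝ) := by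
      rw [coeff_map]; rfl
    rw [← h1, hE, EP_coeff d _ (show a + (d - a) = d by omega)]
    have h2 : (a.factorial : ℝ) ≠ 0 := by exact_mod_cast a.factorial_ne_zero
    have h3 : ((d - a).factorial : ℝ) ≠ 0 := by
      exact_mod_cast (d - a).factorial_ne_zero
    unfold cc
    field_simp
  have hbig : ∀ a, d < a → h.coeff a = 0 := by
    intro a ha
    have h1 : (h.map (Int.castRingHom ℝ)).coeff a = (h.coeff a : ℝ) := by
      rw [coeff_map]; rfl
    have h2 : (h.coeff a : ℝ) = 0 := by rw [← h1, hE, EP_coeff_big _ _ ha]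
    exact_mod_cast h2
  have hfac : ∀ a, a ≤ d → (0 : ℝ) < a.factorial * (d - a).factorial := by
    intro a _
    have := a.factorial_pos
    have := (d - a).factorial_pos
    positivity
  have hnn : ∀ j, 0 ≤ h.coeff j := by
    intro j
    rcases Nat.lt_or_ge d j with h1 | h1
    · rw [hbig j h1]
    · have h2 := hco j h1
      have h3 := cc_nonneg hF hL h1
      rw [← h2] at h3
      have h4 : (0 : ℝ) ≤ h.coeff j := nonneg_of_mul_nonneg_left h3 (hfac j h1)
      exact_mod_cast h4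
  have hc0 : 0 < cc d F 0 0 := by
    rw [← hco 0 (by omega), h0]
    have := hfac 0 (by omega)
    push_cast
    linarith
  refine ⟨hnn, fun j hj => ?_, fun i => ?_⟩
  · have hne : h ≠ 0 := by
      intro h1
      rw [h1, coeff_zero] at h0
      exact absurd h0 (by norm_num)
    have h1 : h.coeff h.natDegree ≠ 0 := by
      rw [coeff_natDegree]
      exact leadingCoeff_ne_zero.2 hne
    have h2 : h.natDegree ≤ d := by
      by_contra hcon
      exact h1 (hbig _ (by omega))
    have h3 : 0 < cc d F 0 h.natDegree := by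
      rw [← hco _ h2]
      refine mul_pos ?_ (hfac _ h2)
      have h4 := hnn h.natDegree
      have h5 : 0 < h.coeff h.natDegree := lt_of_le_of_ne h4 (Ne.symm h1)
      exact_mod_cast h5
    have h4 := cc_down hF hL hc0 _ h2 h3 j hj
    rw [← hco j (by omega)] at h4
    have h5 : (0 : ℝ) < h.coeff j := pos_of_mul_pos_left h4 (hfac j (by omega)).le
    exact_mod_cast h5
  · rcases Nat.lt_or_ge d (i + 2) with h1 | h1
    · rw [hbig (i + 2) h1, mul_zero, mul_zero]
      rcases Nat.lt_or_ge d (i + 1) with h2 | h2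
      · rw [hbig (i + 1) h2]
        simp
      · have h3 : d = i + 1 := by omega
        rw [h3]
        push_cast
        have : ((i : ℤ) + 1) * ((i : ℤ) + 1 - 1 - i) * h.coeff (i + 1) ^ 2 = 0 := by ring
        rw [this]
    · have h2 := cc_newton hF hL h1
      rw [← hco i (by omega), ← hco (i + 1) (by omega), ← hco (i + 2) (by omega)] at h2
      obtain ⟨b, hb⟩ : ∃ b, d = i + 2 + b := ⟨d - (i + 2), by omega⟩
      have e0 : d - i = b + 1 + 1 := by omega
      have e1 : d - (i + 1) = b + 1 := by omega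
      have e2 : d - (i + 2) = b := by omega
      rw [e0, e1, e2] at h2
      obtain ⟨x, hx⟩ : ∃ x : ℝ, x = (h.coeff i : ℝ) := ⟨_, rfl⟩
      obtain ⟨y, hy⟩ : ∃ y : ℝ, y = (h.coeff (i + 1) : ℝ) := ⟨_, rfl⟩
      obtain ⟨z, hz⟩ : ∃ z : ℝ, z = (h.coeff (i + 2) : ℝ) := ⟨_, rfl⟩
      rw [← hx, ← hy, ← hz] at h2
      have f1 : ((i + 1).factorial : ℝ) = (i + 1) * i.factorial := by
        rw [Nat.factorial_succ]; push_cast; ring
      have f2 : ((i + 2).factorial : ℝ) = (i + 2) * ((i + 1) * i.factorial) := by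
        rw [Nat.factorial_succ, Nat.factorial_succ]; push_cast; ring
      have f3 : ((b + 1).factorial : ℝ) = (b + 1) * b.factorial := by
        rw [Nat.factorial_succ]; push_cast; ring
      have f4 : ((b + 1 + 1).factorial : ℝ) = (b + 2) * ((b + 1) * b.factorial) := by
        rw [Nat.factorial_succ, Nat.factorial_succ]; push_cast; ring
      rw [f1, f2, f3, f4] at h2
      have p1 : (0 : ℝ) < i.factorial := by exact_mod_cast i.factorial_pos
      have p2 : (0 : ℝ) < b.factorial := by exact_mod_cast b.factorial_pos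
      have p3 : (0 : ℝ) < (i + 1) * (b + 1) * (i.factorial * b.factorial) ^ 2 := by positivity
      have h3 : ((i : ℝ) + 1) * (b + 1) * (i.factorial * b.factorial) ^ 2 *
          (((i : ℝ) + 2) * (b + 2) * (x * z)) ≤
          ((i : ℝ) + 1) * (b + 1) * (i.factorial * b.factorial) ^ 2 *
          (((i : ℝ) + 1) * (b + 1) * y ^ 2) := by
        calc ((i : ℝ) + 1) * (b + 1) * (i.factorial * b.factorial) ^ 2 *
            (((i : ℝ) + 2) * (b + 2) * (x * z)) =
            x * (↑i.factorial * ((↑b + 2) * ((↑b + 1) * ↑b.factorial))) *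
              (z * ((↑i + 2) * ((↑i + 1) * ↑i.factorial) * ↑b.factorial)) := by ring
          _ ≤ (y * ((↑i + 1) * ↑i.factorial * ((↑b + 1) * ↑b.factorial))) ^ 2 := h2
          _ = ((i : ℝ) + 1) * (b + 1) * (i.factorial * b.factorial) ^ 2 *
          (((i : ℝ) + 1) * (b + 1) * y ^ 2) := by ring
      have h4 := le_of_mul_le_mul_left h3 p3
      rw [hx, hy, hz] at h4
      have h5 : ((d : ℤ) - i) = b + 2 := by rw [hb]; push_cast; ring
      have h6 : ((d : ℤ) - 1 - i) = b + 1 := by rw [hb]; push_cast; ring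
      rw [h5, h6]
      exact_mod_cast h4

end

/-- iterating the operator `T1` -/
def TI : ℕ → Ar → Ar
  | 0, C => C
  | r + 1, C => T1 (TI r C)

/-- iterating the multiplication by the last variable -/
def YI : ℕ → Ar → Ar
  | 0, C => C
  | r + 1, C => m3 (YI r C)

theorem Lor.tt {d : ℕ} {C : Ar} (h : Lor d C) (r : ℕ) : Lor d (TI r C) := by
  induction r with
  | zero => exact h
  | succ r ih => exact ih.t1

theorem Cn.tt {F : ℝ → Ar} (h : Cn F) (r : ℕ) : Cn fun ε => TI r (F ε) := by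
  induction r with
  | zero => exact h
  | succ r ih => exact ih.t1

theorem T1_m3 (C : Ar) : T1 (m3 C) = m3 (T1 C) := by
  funext l k a b
  unfold T1 m2 m3 sh
  ring

theorem T1_YY (C : Ar) (r : ℕ) : T1 (YI r C) = YI r (T1 C) := by
  induction r with
  | zero => rfl
  | succ r ih =>
    change T1 (m3 (YI r C)) = m3 (YI r (T1 C))
    rw [T1_m3, ih]

theorem EP_YY (n r : ℕ) (C : Ar) : EP (n + r) (YI r C) = EP n C := by
  induction r with
  | zero => rfl
  | succ r ih =>
    rw [← add_assoc]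
    change EP (n + r + 1) (m3 (YI r C)) = _
    rw [EP_m3, ih]

/-- the arrays agree when the second index is zero -/
def Ag (C D : Ar) : Prop := ∀ l a b, C l 0 a b = D l 0 a b

theorem Ag.ep {C D : Ar} (h : Ag C D) (n : ℕ) : EP n C = EP n D := by
  unfold EP
  exact sum_congr rfl fun p _ => by rw [h]

theorem Ag.step {C D : Ar} (h : Ag C D) : Ag (stepU 0 C) (m3 (T1 D)) := by
  intro l a b
  have h1 : stepU 0 C l 0 a b = (b : ℝ) * Jr (T1 C) l 0 a (b - 1) := by
    unfold stepU MM i1 m3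
    ring
  rw [h1, Jr_zero]
  change (b : ℝ) * (C l 0 a (b - 1) + (a : ℝ) * C (l + 1) 0 (a - 1) (b - 1)) =
    (b : ℝ) * (D l 0 a (b - 1) + (a : ℝ) * D (l + 1) 0 (a - 1) (b - 1))
  rw [h, h]

theorem arr_replicate (r : ℕ) (w : List Bool) :
    Ag (arr 0 (List.replicate r true ++ w)) (YI r (TI r (arr 0 w))) := by
  induction r with
  | zero => exact fun _ _ _ => rfl
  | succ r ih =>
    have h1 := ih.step
    rw [T1_YY] at h1
    exact h1

theorem coeff_zero_word {w : List Bool} {h : ℤ[X]}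
    (hh : PowerSeries.mk (fun m : ℕ => ((Om w m : ℕ) : ℤ)) *
      (1 - PowerSeries.X) ^ (w.length + 1 + 1) = (↑h : PowerSeries ℤ)) : h.coeff 0 = 1 := by
  have h1 : PowerSeries.coeff 0 (↑h : PowerSeries ℤ) = h.coeff 0 := Polynomial.coeff_coe h 0
  rw [← h1, ← hh]
  simp [Om_zero]

/-- **Newton's inequalities for words.** -/
theorem newton_word {r : ℕ} {w : List Bool} {h : ℤ[X]}
    (hh : PowerSeries.mk (fun m : ℕ => ((Om (List.replicate r true ++ w) m : ℕ) : ℤ)) *
      (1 - PowerSeries.X) ^ ((List.replicate r true ++ w).length + 1 + 1) =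
        (↑h : PowerSeries ℤ)) :
    (∀ j, 0 ≤ h.coeff j) ∧ (∀ j, j ≤ h.natDegree → 0 < h.coeff j) ∧
    ∀ i : ℕ, ((i : ℤ) + 2) * ((w.length : ℤ) - i) * (h.coeff i * h.coeff (i + 2)) ≤
      ((i : ℤ) + 1) * ((w.length : ℤ) - 1 - i) * h.coeff (i + 1) ^ 2 := by
  refine newton_gen (F := fun ε => TI r (arr ε w)) ((arr_cont w).tt r)
    (fun ε hε => (arr_lor hε w).tt r) ?_ (coeff_zero_word hh)
  rw [h_eq_EP hh, (arr_replicate r w).ep, List.length_append, List.length_replicate,
    add_comm r w.length, EP_YY]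

end Pool.Agent.Lib.FenceNewton
end

section

set_option autoImplicit false

namespace Pool.Agent.Lib.FenceNewton

open Finset Pool.Agent.Lib.FenceGlue Polynomial

/-- the conclusion -/
def Nw (d : ℤ) (h : ℤ[X]) : Prop :=
  ∀ i : ℕ, ((i : ℤ) + 2) * (d - i) * (h.coeff i * h.coeff (i + 2)) ≤
      ((i : ℤ) + 1) * (d - 1 - i) * h.coeff (i + 1) ^ 2

/-- nonnegative coefficients without internal zeros -/
def Ps (h : ℤ[X]) : Prop := (∀ j, 0 ≤ h.coeff j) ∧ ∀ j, j ≤ h.natDegree → 0 < h.coeff j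

/-- the polynomial belongs to the word -/
def Hs (w : List Bool) (h : ℤ[X]) : Prop :=
  PowerSeries.mk (fun m : ℕ => ((Om w m : ℕ) : ℤ)) *
      (1 - PowerSeries.X) ^ (w.length + 1 + 1) = (↑h : PowerSeries ℤ)

theorem Hs.congr {w w' : List Bool} {h : ℤ[X]} (hh : Hs w h) (hl : w.length = w'.length)
    (ho : ∀ m, Om w m = Om w' m) : Hs w' h := by
  unfold Hs at hh ⊢
  rw [← hh, ← hl]
  congr 2
  funext m
  rw [ho]

theorem Hs.ps {w : List Bool} {h : ℤ[X]} (hh : Hs w h) : Ps h := by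
  have h1 := newton_word (r := 0) (w := w) (h := h) hh
  exact ⟨h1.1, h1.2.1⟩

theorem newton_true {w : List Bool} {h : ℤ[X]} (hh : Hs w h) {r : ℕ} (hr : r ≤ w.length)
    (hw : ∀ i, i < r → w.getD i false = true) : Nw ((w.length : ℤ) - r) h := by
  have h1 : w.take r = List.replicate r true := by
    rw [List.eq_replicate_iff]
    refine ⟨by rw [List.length_take]; omega, fun b hb => ?_⟩
    obtain ⟨i, hi, rfl⟩ := List.getElem_of_mem hb
    rw [List.length_take] at hi
    have h2 := hw i (by omega)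
    rw [List.getD_eq_getElem?_getD, List.getElem?_eq_getElem (by omega), Option.getD_some] at h2
    rw [List.getElem_take]
    exact h2
  have h3 : w = List.replicate r true ++ w.drop r := by
    rw [← h1, List.take_append_drop]
  have h4 : ((w.drop r).length : ℤ) = (w.length : ℤ) - r := by
    rw [List.length_drop]
    omega
  unfold Hs at hh
  rw [h3] at hh
  have h5 := (newton_word hh).2.2
  rw [h4] at h5
  exact h5

theorem newton_list {w : List Bool} {h : ℤ[X]} (hh : Hs w h) {r : ℕ} {e : Bool}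
    (hr : r ≤ w.length) (hw : ∀ i, i < r → w.getD i false = e) : Nw ((w.length : ℤ) - r) h := by
  cases e with
  | true => exact newton_true hh hr hw
  | false =>
    have h1 := newton_true (w := w.map not) (r := r)
      (hh.congr (by simp) fun m => (Om_map_not w m).symm) (by simpa using hr) (fun i hi => by
        have h2 := hw i hi
        rw [List.getD_eq_getElem?_getD, List.getElem?_eq_getElem (by omega),
          Option.getD_some] at h2
        rw [List.getD_eq_getElem?_getD, List.getElem?_map, List.getElem?_eq_getElem (by omega)]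
        simp [h2])
    rw [List.length_map] at h1
    exact h1

theorem rn_getD' {w : List Bool} {i : ℕ} (h : i < w.length) :
    (rn w).getD i false = !(w.getD (w.length - 1 - i) false) := by
  unfold rn
  rw [List.getD_eq_getElem?_getD, List.getElem?_reverse (by simpa using h), List.length_map,
    List.getElem?_map, List.getD_eq_getElem?_getD, List.getElem?_eq_getElem (by omega)]
  rfl

theorem newton_list_right {w : List Bool} {h : ℤ[X]} (hh : Hs w h) {r : ℕ} {e : Bool}
    (hr : r ≤ w.length) (hw : ∀ i, i < r → w.getD (w.length - 1 - i) false = e) :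
    Nw ((w.length : ℤ) - r) h := by
  have h1 := newton_list (w := rn w) (r := r) (e := !e)
    (hh.congr (rn_length w).symm fun m => (Om_rn m w).symm) (by rw [rn_length]; exact hr)
    (fun i hi => by rw [rn_getD' (by omega), hw i hi])
  rw [rn_length] at h1
  exact h1

theorem hs_wrd {d : ℕ} {s : ℕ → Bool} {h : ℤ[X]}
    (hh : PowerSeries.mk (fun m : ℕ => ((PatCount (d + 1) s m : ℕ) : ℤ)) *
      (1 - PowerSeries.X) ^ (d + 1 + 1) = (↑h : PowerSeries ℤ)) : Hs (wrd d s) h := by
  unfold Hs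
  rw [← hh, wrd_length]
  congr 2
  funext m
  rw [← PatCount_word (wrd d s) m, wrd_length]
  exact congrArg _ (PatCount_congr (fun i hi => wrd_getD s (by omega)) m)

/-- **Newton's inequalities for fences.** -/
theorem newton_fence (n : ℕ) (s : ℕ → Bool) (h : ℤ[X])
    (hh : PowerSeries.mk (fun m : ℕ => ((PatCount n s m : ℕ) : ℤ)) *
      (1 - PowerSeries.X) ^ (n + 1) = (↑h : PowerSeries ℤ)) :
    (∀ j, 0 ≤ h.coeff j) ∧ (∀ j, j ≤ h.natDegree → 0 < h.coeff j) ∧
    ∀ (r : ℕ) (e : Bool), r + 1 ≤ n →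
      ((∀ i, i < r → s i = e) ∨ (∀ i, i < r → s (n - 2 - i) = e)) →
      ∀ i : ℕ, ((i : ℤ) + 2) * ((n : ℤ) - 1 - r - i) * (h.coeff i * h.coeff (i + 2)) ≤
        ((i : ℤ) + 1) * ((n : ℤ) - 2 - r - i) * h.coeff (i + 1) ^ 2 := by
  cases n with
  | zero =>
    have h1 : ∀ m, PatCount 0 s m = 1 := by
      intro m
      unfold PatCount
      rw [Nat.card_eq_one_iff_unique]
      refine ⟨⟨fun f g => Subtype.ext (funext fun i => i.elim0)⟩,
        ⟨⟨fun i => i.elim0, fun i => i.elim0⟩⟩⟩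
    simp only [h1] at hh
    have h2 : (PowerSeries.mk (fun _ : ℕ => ((1 : ℕ) : ℤ))) * (1 - PowerSeries.X) ^ (0 + 1) = 1 := by
      rw [zero_add, pow_one, Nat.cast_one]
      exact PowerSeries.mk_one_mul_one_sub_eq_one ℤ
    rw [h2] at hh
    have h3 : h = 1 := by
      apply Polynomial.coe_injective ℤ
      rw [← hh, Polynomial.coe_one]
    subst h3
    refine ⟨fun j => ?_, fun j hj => ?_, fun r e hr => absurd hr (by omega)⟩
    · rw [coeff_one]
      split_ifs <;> norm_num
    · rw [natDegree_one] at hj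
      obtain rfl : j = 0 := by omega
      rw [coeff_one_zero]
      norm_num
  | succ d =>
    have h1 := hs_wrd hh
    refine ⟨h1.ps.1, h1.ps.2, fun r e hr hs i => ?_⟩
    have h2 : Nw (((wrd d s).length : ℤ) - r) h := by
      rcases hs with hs | hs
      · exact newton_list h1 (e := e) (by rw [wrd_length]; omega) fun i hi => by
          rw [wrd_getD s (by omega)]
          exact hs i hi
      · exact newton_list_right h1 (e := e) (by rw [wrd_length]; omega) fun i hi => by
          rw [wrd_length, wrd_getD s (by omega)]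
          have := hs i hi
          rwa [show d + 1 - 2 - i = d - 1 - i by omega] at this
    rw [wrd_length] at h2
    have h3 := h2 i
    have e1 : ((d + 1 : ℕ) : ℤ) - 1 - r - i = (d : ℤ) - r - i := by push_cast; ring
    have e2 : ((d + 1 : ℕ) : ℤ) - 2 - r - i = (d : ℤ) - r - 1 - i := by push_cast; ring
    rw [e1, e2]
    exact h3

end Pool.Agent.Lib.FenceNewton
end
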