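import Mathlib

section

set_option autoImplicit false

namespace Pool.Agent.Lib.FenceRB

open MeasureTheory Set

/-- integration from `0` -/
noncomputable def V {E : Type*} [NormedAddCommGroup E] [NormedSpace ℝ E] (g : ℝ → E) (x : ℝ) : E :=
  ∫ y in (0 : ℝ)..x, g y

/-- reflection -/
def S0 {E : Type*} (g : ℝ → E) (x : ℝ) : E := g (1 - x)

/-- one run with `a + 1` letters: `a` integrations, reflection, one integration -/
noncomputable def B {E : Type*} [NormedAddCommGroup E] [NormedSpace ℝ E] (a : ℕ) (g : ℝ → E) :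
    ℝ → E := V (S0 (V^[a] g))

section general

variable {E F : Type*} [NormedAddCommGroup E] [NormedSpace ℝ E] [NormedAddCommGroup F]
  [NormedSpace ℝ F]

theorem V_cont {g : ℝ → E} (hg : Continuous g) : Continuous (V g) :=
  intervalIntegral.continuous_primitive (fun a b => hg.intervalIntegrable a b) 0

theorem V_zero (g : ℝ → E) : V g 0 = 0 := by
  unfold V
  exact intervalIntegral.integral_same

theorem Vn_cont {g : ℝ → E} (hg : Continuous g) (n : ℕ) : Continuous (V^[n] g) := by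
  induction n with
  | zero => exact hg
  | succ n ih =>
    rw [Function.iterate_succ_apply']
    exact V_cont ih

theorem S0_cont {g : ℝ → E} (hg : Continuous g) : Continuous (S0 g) := by
  unfold S0
  fun_prop

theorem B_cont {g : ℝ → E} (hg : Continuous g) (a : ℕ) : Continuous (B a g) :=
  V_cont (S0_cont (Vn_cont hg a))

variable [CompleteSpace E] [CompleteSpace F]

theorem V_comp (L : E →L[ℝ] F) {g : ℝ → E} (hg : Continuous g) :
    V (fun y => L (g y)) = fun x => L (V g x) := by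
  funext x
  unfold V
  exact L.intervalIntegral_comp_comm (hg.intervalIntegrable 0 x)

theorem Vn_comp (L : E →L[ℝ] F) {g : ℝ → E} (hg : Continuous g) (n : ℕ) :
    V^[n] (fun y => L (g y)) = fun x => L (V^[n] g x) := by
  induction n with
  | zero => rfl
  | succ n ih =>
    rw [Function.iterate_succ_apply', ih, V_comp L (Vn_cont hg n), Function.iterate_succ_apply']

theorem B_comp (L : E →L[ℝ] F) {g : ℝ → E} (hg : Continuous g) (a : ℕ) :
    B a (fun y => L (g y)) = fun x => L (B a g x) := by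
  unfold B
  rw [Vn_comp L hg a]
  exact V_comp L (S0_cont (Vn_cont hg a))

end general

theorem V_mono {g h : ℝ → ℝ} (hg : Continuous g) (hh : Continuous h)
    (H : ∀ x ∈ Icc (0 : ℝ) 1, g x ≤ h x) : ∀ x ∈ Icc (0 : ℝ) 1, V g x ≤ V h x := by
  intro x hx
  unfold V
  apply intervalIntegral.integral_mono_on hx.1 (hg.intervalIntegrable _ _)
    (hh.intervalIntegrable _ _)
  intro y hy
  exact H y ⟨hy.1, hy.2.trans hx.2⟩

theorem V_norm_le {E : Type*} [NormedAddCommGroup E] [NormedSpace ℝ E] {g : ℝ → E} {h : ℝ → ℝ}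
    (hh : Continuous h) (H : ∀ x ∈ Icc (0 : ℝ) 1, ‖g x‖ ≤ h x) :
    ∀ x ∈ Icc (0 : ℝ) 1, ‖V g x‖ ≤ V h x := by
  intro x hx
  unfold V
  apply intervalIntegral.norm_integral_le_of_norm_le hx.1 _ (hh.intervalIntegrable _ _)
  refine Filter.Eventually.of_forall fun y hy => ?_
  exact H y ⟨hy.1.le, hy.2.trans hx.2⟩

theorem Vn_mono {g h : ℝ → ℝ} (hg : Continuous g) (hh : Continuous h)
    (H : ∀ x ∈ Icc (0 : ℝ) 1, g x ≤ h x) (n : ℕ) :
    ∀ x ∈ Icc (0 : ℝ) 1, V^[n] g x ≤ V^[n] h x := by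
  induction n with
  | zero => exact H
  | succ n ih =>
    rw [Function.iterate_succ_apply', Function.iterate_succ_apply']
    exact V_mono (Vn_cont hg n) (Vn_cont hh n) ih

theorem Vn_norm_le {E : Type*} [NormedAddCommGroup E] [NormedSpace ℝ E] {g : ℝ → E} {h : ℝ → ℝ}
    (hh : Continuous h) (H : ∀ x ∈ Icc (0 : ℝ) 1, ‖g x‖ ≤ h x) (n : ℕ) :
    ∀ x ∈ Icc (0 : ℝ) 1, ‖V^[n] g x‖ ≤ V^[n] h x := by
  induction n with
  | zero => exact H
  | succ n ih =>
    rw [Function.iterate_succ_apply', Function.iterate_succ_apply']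
    exact V_norm_le (Vn_cont hh n) ih

theorem refl_mem {x : ℝ} (hx : x ∈ Icc (0 : ℝ) 1) : 1 - x ∈ Icc (0 : ℝ) 1 :=
  ⟨by linarith [hx.2], by linarith [hx.1]⟩

theorem B_norm_le {E : Type*} [NormedAddCommGroup E] [NormedSpace ℝ E] {g : ℝ → E} {h : ℝ → ℝ}
    (hh : Continuous h) (H : ∀ x ∈ Icc (0 : ℝ) 1, ‖g x‖ ≤ h x) (a : ℕ) :
    ∀ x ∈ Icc (0 : ℝ) 1, ‖B a g x‖ ≤ B a h x := by
  unfold B
  apply V_norm_le (S0_cont (Vn_cont hh a))
  intro x hx
  exact Vn_norm_le hh H a (1 - x) (refl_mem hx)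

/-- continuous and nonnegative on the unit interval -/
structure Good0 (g : ℝ → ℝ) : Prop where
  cont : Continuous g
  nn : ∀ x ∈ Icc (0 : ℝ) 1, 0 ≤ g x

/-- moreover monotone -/
structure Good1 (g : ℝ → ℝ) : Prop extends Good0 g where
  mono : ∀ x ∈ Icc (0 : ℝ) 1, ∀ y ∈ Icc (0 : ℝ) 1, x ≤ y → g x ≤ g y

/-- a homogeneity inequality -/
def HH (c : ℕ) (g : ℝ → ℝ) : Prop :=
  ∀ x ∈ Icc (0 : ℝ) 1, ∀ l ∈ Icc (0 : ℝ) 1, l ^ c * g x ≤ g (l * x)

/-- the profiles at the beginning of a run -/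
structure Prof (p : ℝ → ℝ) : Prop extends Good1 p where
  star : HH 1 p
  pos : 0 < p 1

theorem mem_one : (1 : ℝ) ∈ Icc (0 : ℝ) 1 := ⟨zero_le_one, le_rfl⟩

theorem V_scale (g : ℝ → ℝ) (l x : ℝ) : V g (l * x) = l * ∫ s in (0 : ℝ)..x, g (l * s) := by
  unfold V
  have h := intervalIntegral.mul_integral_comp_mul_left (a := (0 : ℝ)) (b := x) (f := g) (c := l)
  rw [mul_zero] at h
  exact h.symm

theorem Good0.V {g : ℝ → ℝ} (hg : Good0 g) : Good1 (V g) := by
  refine ⟨⟨V_cont hg.cont, fun x hx => ?_⟩, fun x hx y hy hxy => ?_⟩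
  · unfold FenceRB.V
    exact intervalIntegral.integral_nonneg hx.1 fun u hu => hg.nn u ⟨hu.1, hu.2.trans hx.2⟩
  · unfold FenceRB.V
    rw [← intervalIntegral.integral_add_adjacent_intervals
      (hg.cont.intervalIntegrable (μ := volume) 0 x) (hg.cont.intervalIntegrable x y)]
    have : 0 ≤ ∫ u in x..y, g u :=
      intervalIntegral.integral_nonneg hxy fun u hu => hg.nn u ⟨hx.1.trans hu.1, hu.2.trans hy.2⟩
    linarith

theorem Good1.S0 {g : ℝ → ℝ} (hg : Good1 g) : Good0 (S0 g) :=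
  ⟨S0_cont hg.cont, fun x hx => hg.nn (1 - x) (refl_mem hx)⟩

theorem Good0.Vn {g : ℝ → ℝ} (hg : Good0 g) (n : ℕ) : Good0 (FenceRB.V^[n] g) := by
  induction n with
  | zero => exact hg
  | succ n ih =>
    rw [Function.iterate_succ_apply']
    exact ih.V.toGood0

theorem Good1.Vn {g : ℝ → ℝ} (hg : Good1 g) (n : ℕ) : Good1 (FenceRB.V^[n] g) := by
  induction n with
  | zero => exact hg
  | succ n ih =>
    rw [Function.iterate_succ_apply']
    exact ih.toGood0.V

theorem Good0.B {g : ℝ → ℝ} (hg : Good0 g) (a : ℕ) : Good1 (B a g) := by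
  unfold FenceRB.B
  apply Good0.V
  exact ⟨S0_cont (Vn_cont hg.cont a), fun x hx => (hg.Vn a).nn (1 - x) (refl_mem hx)⟩

theorem V_HH {g : ℝ → ℝ} (hg : Continuous g) {c : ℕ} (h : HH c g) : HH (c + 1) (V g) := by
  intro x hx l hl
  rw [V_scale]
  have h1 : l ^ c * V g x ≤ ∫ s in (0 : ℝ)..x, g (l * s) := by
    unfold V
    rw [← intervalIntegral.integral_const_mul]
    apply intervalIntegral.integral_mono_on hx.1
    · exact (continuous_const.mul hg).intervalIntegrable _ _
    · exact (hg.comp (continuous_const.mul continuous_id)).intervalIntegrable _ _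
    · intro s hs
      exact h s ⟨hs.1, hs.2.trans hx.2⟩ l hl
  calc l ^ (c + 1) * V g x = l * (l ^ c * V g x) := by ring
    _ ≤ _ := mul_le_mul_of_nonneg_left h1 hl.1

theorem Vn_HH {g : ℝ → ℝ} (hg : Continuous g) {c : ℕ} (h : HH c g) (n : ℕ) :
    HH (c + n) (V^[n] g) := by
  induction n with
  | zero => exact h
  | succ n ih =>
    rw [Function.iterate_succ_apply']
    exact V_HH (Vn_cont hg n) ih

theorem HH_one_le {g : ℝ → ℝ} (hg : Continuous g) {c : ℕ} (h : HH c g) :
    g 1 ≤ ((c : ℝ) + 1) * V g 1 := by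
  have h1 : ∫ y in (0 : ℝ)..1, y ^ c * g 1 ≤ V g 1 := by
    unfold V
    apply intervalIntegral.integral_mono_on zero_le_one
    · exact ((continuous_pow c).mul continuous_const).intervalIntegrable _ _
    · exact hg.intervalIntegrable _ _
    · intro y hy
      have := h 1 mem_one y hy
      rwa [mul_one] at this
  rw [intervalIntegral.integral_mul_const, integral_pow] at h1
  have h2 : (0 : ℝ) < (c : ℝ) + 1 := by positivity
  have h3 : ((1 : ℝ) ^ (c + 1) - 0 ^ (c + 1)) / ((c : ℝ) + 1) * g 1 = g 1 / ((c : ℝ) + 1) := by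
    rw [one_pow, zero_pow (by omega)]
    ring
  rw [h3, div_le_iff₀ h2] at h1
  linarith

/-- the last step of a run and the first step of the next one, for a monotone function -/
theorem VS0_HH {G : ℝ → ℝ} (hG : Good1 G) : HH 1 (V (S0 G)) := by
  intro x hx l hl
  rw [V_scale, pow_one]
  apply mul_le_mul_of_nonneg_left _ hl.1
  unfold V S0
  apply intervalIntegral.integral_mono_on hx.1
  · exact (hG.cont.comp (continuous_const.sub continuous_id)).intervalIntegrable _ _
  · exact (hG.cont.comp (continuous_const.sub (continuous_const.mul continuous_id))).intervalIntegrable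
      _ _
  · intro s hs
    have hs1 : s ∈ Icc (0 : ℝ) 1 := ⟨hs.1, hs.2.trans hx.2⟩
    have hls : l * s ∈ Icc (0 : ℝ) 1 :=
      ⟨mul_nonneg hl.1 hs1.1, mul_le_one₀ hl.2 hs1.1 hs1.2⟩
    apply hG.mono (1 - s) (refl_mem hs1) (1 - l * s) (refl_mem hls)
    have : l * s ≤ 1 * s := mul_le_mul_of_nonneg_right hl.2 hs1.1
    linarith

theorem VS0_one {G : ℝ → ℝ} : V (S0 G) 1 = V G 1 := by
  unfold V S0
  rw [intervalIntegral.integral_comp_sub_left]
  norm_num

theorem Prof.lower {p : ℝ → ℝ} (hp : Prof p) {x : ℝ} (hx : x ∈ Icc (0 : ℝ) 1) :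
    x * p 1 ≤ p x := by
  have := hp.star 1 mem_one x hx
  rwa [mul_one, pow_one] at this

theorem Good1.Vn_one_pos {p : ℝ → ℝ} (hp : Prof p) (n : ℕ) : 0 < V^[n] p 1 := by
  induction n with
  | zero => exact hp.pos
  | succ n ih =>
    rw [Function.iterate_succ_apply']
    have h1 := HH_one_le (Vn_cont hp.cont n) (Vn_HH hp.cont hp.star n)
    have h2 : (0 : ℝ) < ((1 + n : ℕ) : ℝ) + 1 := by positivity
    by_contra h
    push Not at h
    have := mul_nonpos_of_nonneg_of_nonpos h2.le h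
    linarith

theorem Prof.B {p : ℝ → ℝ} (hp : Prof p) (a : ℕ) : Prof (B a p) := by
  refine ⟨hp.toGood1.toGood0.B a, ?_, ?_⟩
  · exact VS0_HH (hp.toGood1.Vn a)
  · unfold FenceRB.B
    rw [VS0_one]
    have := Good1.Vn_one_pos hp (a + 1)
    rwa [Function.iterate_succ_apply'] at this

theorem B_one {p : ℝ → ℝ} (a : ℕ) : B a p 1 = V^[a + 1] p 1 := by
  unfold B
  rw [VS0_one, Function.iterate_succ_apply']

/-- upper bound of the next profile -/
theorem Prof.B_upper {p : ℝ → ℝ} (hp : Prof p) (a : ℕ) {x : ℝ} (hx : x ∈ Icc (0 : ℝ) 1) :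
    FenceRB.B a p x ≤ x * (((a : ℝ) + 2) * FenceRB.B a p 1) := by
  have h1 := HH_one_le (Vn_cont hp.cont a) (Vn_HH hp.cont hp.star a)
  have h2 : FenceRB.B a p x ≤ x * V^[a] p 1 := by
    unfold FenceRB.B FenceRB.V
    have h3 : ∫ y in (0 : ℝ)..x, S0 (FenceRB.V^[a] p) y ≤ ∫ _ in (0 : ℝ)..x, V^[a] p 1 := by
      apply intervalIntegral.integral_mono_on hx.1
      · exact (S0_cont (Vn_cont hp.cont a)).intervalIntegrable _ _
      · exact continuous_const.intervalIntegrable _ _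
      · intro y hy
        have hy1 : y ∈ Icc (0 : ℝ) 1 := ⟨hy.1, hy.2.trans hx.2⟩
        exact (hp.toGood1.Vn a).mono (1 - y) (refl_mem hy1) 1 mem_one (by linarith [hy.1])
    rw [intervalIntegral.integral_const, smul_eq_mul, sub_zero] at h3
    exact h3
  have h4 : FenceRB.B a p 1 = FenceRB.V (V^[a] p) 1 := by
    unfold FenceRB.B
    exact VS0_one
  rw [h4]
  refine h2.trans (mul_le_mul_of_nonneg_left ?_ hx.1)
  refine h1.trans (le_of_eq ?_)
  push_cast
  ring

end Pool.Agent.Lib.FenceRB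

end
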