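import Mathlib

section

set_option autoImplicit false

namespace Pool.Agent.Lib.FenceRB

open Polynomial Finset

theorem iter_bound {e s : ℝ} {b : ℕ → ℝ} (he : 0 ≤ e) (hs : 0 ≤ s)
    (hr : ∀ k, e * b (k + 1) ≤ s * b k) (k j : ℕ) : e ^ j * b (k + j) ≤ s ^ j * b k := by
  induction j with
  | zero => simp
  | succ j ih =>
    calc e ^ (j + 1) * b (k + (j + 1)) = e ^ j * (e * b (k + j + 1)) := by
          rw [← add_assoc]; ring
      _ ≤ e ^ j * (s * b (k + j)) := mul_le_mul_of_nonneg_left (hr _) (pow_nonneg he _)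
      _ = s * (e ^ j * b (k + j)) := by ring
      _ ≤ s * (s ^ j * b k) := mul_le_mul_of_nonneg_left ih hs
      _ = s ^ (j + 1) * b k := by ring

theorem geo6 (N : ℕ) : ∑ j ∈ range N, ((1 : ℝ) / 6) ^ j ≤ 6 / 5 := by
  rw [geom_sum_eq (by norm_num)]
  have : (0 : ℝ) ≤ (1 / 6 : ℝ) ^ N := by positivity
  rw [div_le_iff_of_neg (by norm_num)]
  linarith

theorem geo3 (N : ℕ) : ∑ j ∈ range N, ((1 : ℝ) / 3) ^ j ≤ 3 / 2 := by
  rw [geom_sum_eq (by norm_num)]
  have : (0 : ℝ) ≤ (1 / 3 : ℝ) ^ N := by positivity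
  rw [div_le_iff_of_neg (by norm_num)]
  linarith

theorem two_pow_le_fact (j : ℕ) : (2 : ℝ) ^ (j + 1) ≤ ((j + 2).factorial : ℝ) := by
  have : (2 : ℕ) ^ (j + 1) ≤ (j + 2).factorial := by
    induction j with
    | zero => decide
    | succ j ih =>
      rw [pow_succ, Nat.factorial_succ, mul_comm]
      exact Nat.mul_le_mul (by omega) ih
  exact_mod_cast this

/-- the inverse of the averaging operator, pointwise -/
theorem seqD {ε : ℂ} {N : ℕ} {u v : ℕ → ℂ} {b : ℕ → ℝ} {s : ℝ}
    (hu : ∀ k, N ≤ k → u k = 0)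
    (hv : ∀ k, v k = ∑ j ∈ range (N + 1), (-ε) ^ j / ((j + 1).factorial : ℂ) * u (k + j))
    (hb : ∀ k, 0 ≤ b k) (hvb : ∀ k, ‖v k‖ ≤ b k) (hs0 : 0 ≤ s) (hs : s ≤ 1 / 3)
    (hr : ∀ k, ‖ε‖ * b (k + 1) ≤ s * b k) :
    ∀ k, ‖u k‖ ≤ (1 + s) * b k ∧ ‖u k - v k‖ ≤ s * b k := by
  -- the step
  have step : ∀ k, (∀ j, ‖u (k + j + 1)‖ ≤ (1 + s) * b (k + j + 1)) → ‖u k - v k‖ ≤ s * b k := by
    intro k hk
    rw [hv, sum_range_succ']
    have e0 : (-ε) ^ 0 / ((0 + 1).factorial : ℂ) * u (k + 0) = u k := by simp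
    rw [e0, sub_add_cancel_right, norm_neg]
    calc ‖∑ j ∈ range N, (-ε) ^ (j + 1) / ((j + 1 + 1).factorial : ℂ) * u (k + (j + 1))‖
        ≤ ∑ j ∈ range N, ‖(-ε) ^ (j + 1) / ((j + 1 + 1).factorial : ℂ) * u (k + (j + 1))‖ :=
          norm_sum_le _ _
      _ ≤ ∑ j ∈ range N, (1 + s) * b k * (s / 2) * (1 / 6) ^ j := by
          apply sum_le_sum
          intro j _
          rw [norm_mul, norm_div, norm_pow, norm_neg, Complex.norm_natCast]
          have h1 := hk j
          have h2 := two_pow_le_fact j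
          have h3 := iter_bound (norm_nonneg ε) hs0 hr k (j + 1)
          have h4 : (0 : ℝ) < ((j + 1 + 1).factorial : ℝ) := by positivity
          have h5 : ‖ε‖ ^ (j + 1) / ((j + 1 + 1).factorial : ℝ) * ‖u (k + (j + 1))‖ ≤
              ‖ε‖ ^ (j + 1) / ((j + 1 + 1).factorial : ℝ) * ((1 + s) * b (k + (j + 1))) :=
            mul_le_mul_of_nonneg_left h1 (by positivity)
          refine h5.trans ?_
          have h6 : ‖ε‖ ^ (j + 1) / ((j + 1 + 1).factorial : ℝ) * ((1 + s) * b (k + (j + 1))) =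
              (1 + s) * (‖ε‖ ^ (j + 1) * b (k + (j + 1))) / ((j + 1 + 1).factorial : ℝ) := by ring
          rw [h6, div_le_iff₀ h4]
          have h7 : (1 + s) * (‖ε‖ ^ (j + 1) * b (k + (j + 1))) ≤ (1 + s) * (s ^ (j + 1) * b k) :=
            mul_le_mul_of_nonneg_left h3 (by linarith)
          refine h7.trans ?_
          have h8 : (s / 2) ^ j ≤ (1 / 6) ^ j :=
            pow_le_pow_left₀ (by linarith) (by linarith) j
          have h9 : 0 ≤ (1 + s) * b k * (s / 2) :=
            mul_nonneg (mul_nonneg (by linarith) (hb k)) (by linarith)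
          calc (1 + s) * (s ^ (j + 1) * b k)
              = (1 + s) * b k * (s / 2) * (s / 2) ^ j * 2 ^ (j + 1) := by
                rw [div_pow, pow_succ, pow_succ]
                field_simp
            _ ≤ (1 + s) * b k * (s / 2) * (1 / 6) ^ j * 2 ^ (j + 1) := by
                apply mul_le_mul_of_nonneg_right _ (by positivity)
                exact mul_le_mul_of_nonneg_left h8 h9
            _ ≤ (1 + s) * b k * (s / 2) * (1 / 6) ^ j * ((j + 1 + 1).factorial : ℝ) := by
                apply mul_le_mul_of_nonneg_left h2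
                exact mul_nonneg h9 (by positivity)
      _ = (1 + s) * b k * (s / 2) * ∑ j ∈ range N, ((1 : ℝ) / 6) ^ j := by rw [mul_sum]
      _ ≤ (1 + s) * b k * (s / 2) * (6 / 5) := by
          apply mul_le_mul_of_nonneg_left (geo6 N)
          exact mul_nonneg (mul_nonneg (by linarith) (hb k)) (by linarith)
      _ ≤ s * b k := by
          have : 0 ≤ s * b k := mul_nonneg hs0 (hb k)
          nlinarith [mul_nonneg this hs0, mul_le_mul_of_nonneg_right hs this]
  have main : ∀ d k, N ≤ k + d → ‖u k‖ ≤ (1 + s) * b k := by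
    intro d
    induction d with
    | zero =>
      intro k hk
      rw [hu k (by omega), norm_zero]
      exact mul_nonneg (by linarith) (hb k)
    | succ d ih =>
      intro k hk
      have h1 := step k (fun j => ih (k + j + 1) (by omega))
      calc ‖u k‖ = ‖v k + (u k - v k)‖ := by congr 1; ring
        _ ≤ ‖v k‖ + ‖u k - v k‖ := norm_add_le _ _
        _ ≤ b k + s * b k := add_le_add (hvb k) h1
        _ = _ := by ring
  intro k
  exact ⟨main N k (by omega), step k fun j => main N _ (by omega)⟩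

theorem seqT {ε : ℂ} {N : ℕ} {u : ℕ → ℂ} {b : ℕ → ℝ} {s : ℝ}
    (hb : ∀ k, 0 ≤ b k) (hub : ∀ k, ‖u k‖ ≤ b k) (hs0 : 0 ≤ s) (hs : s ≤ 1 / 3)
    (hr : ∀ k, ‖ε‖ * b (k + 1) ≤ s * b k) :
    ‖∑ j ∈ range (N + 1), ε ^ j / (j.factorial : ℂ) * u j - u 0‖ ≤ 3 / 2 * s * b 0 := by
  rw [sum_range_succ']
  have e0 : ε ^ 0 / ((0 : ℕ).factorial : ℂ) * u 0 = u 0 := by simp
  rw [e0, add_sub_cancel_right]
  calc ‖∑ j ∈ range N, ε ^ (j + 1) / ((j + 1).factorial : ℂ) * u (j + 1)‖
      ≤ ∑ j ∈ range N, ‖ε ^ (j + 1) / ((j + 1).factorial : ℂ) * u (j + 1)‖ := norm_sum_le _ _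
    _ ≤ ∑ j ∈ range N, s * b 0 * (1 / 3) ^ j := by
        apply sum_le_sum
        intro j _
        rw [norm_mul, norm_div, norm_pow, Complex.norm_natCast]
        have h1 := hub (j + 1)
        have h3 := iter_bound (norm_nonneg ε) hs0 hr 0 (j + 1)
        rw [zero_add] at h3
        have h4 : (1 : ℝ) ≤ ((j + 1).factorial : ℝ) := by
          exact_mod_cast Nat.one_le_iff_ne_zero.mpr (Nat.factorial_ne_zero _)
        have h5 : ‖ε‖ ^ (j + 1) / ((j + 1).factorial : ℝ) ≤ ‖ε‖ ^ (j + 1) :=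
          div_le_self (by positivity) h4
        calc ‖ε‖ ^ (j + 1) / ((j + 1).factorial : ℝ) * ‖u (j + 1)‖
            ≤ ‖ε‖ ^ (j + 1) * b (j + 1) :=
              mul_le_mul h5 h1 (norm_nonneg _) (by positivity)
          _ ≤ s ^ (j + 1) * b 0 := h3
          _ = s * b 0 * s ^ j := by ring
          _ ≤ s * b 0 * (1 / 3) ^ j :=
              mul_le_mul_of_nonneg_left (pow_le_pow_left₀ hs0 hs j) (mul_nonneg hs0 (hb 0))
    _ = s * b 0 * ∑ j ∈ range N, ((1 : ℝ) / 3) ^ j := by rw [mul_sum]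
    _ ≤ s * b 0 * (3 / 2) := mul_le_mul_of_nonneg_left (geo3 N) (mul_nonneg hs0 (hb 0))
    _ = _ := by ring

theorem taylor_sum (f : ℂ[X]) (z δ : ℂ) {N : ℕ} (hN : f.natDegree < N) :
    f.eval (z + δ) = ∑ j ∈ range N, δ ^ j / (j.factorial : ℂ) * (derivative^[j] f).eval z := by
  have h1 : f.eval (z + δ) = (taylor z f).eval δ := by
    rw [taylor_eval, add_comm]
  rw [h1, eval_eq_sum_range' (by rwa [natDegree_taylor])]
  refine sum_congr rfl fun j _ => ?_
  rw [taylor_coeff]
  have h2 : derivative^[j] f = (j.factorial : ℂ) • hasseDeriv j f := by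
    have := congrFun (factorial_smul_hasseDeriv (R := ℂ) j) f
    rw [← this]
    simp [Nat.cast_smul_eq_nsmul]
  rw [h2, eval_smul, smul_eq_mul]
  have h3 : ((j.factorial : ℕ) : ℂ) ≠ 0 := by exact_mod_cast Nat.factorial_ne_zero j
  field_simp

theorem iter_deriv_comp (F : ℂ[X]) (c : ℂ) (k : ℕ) :
    derivative^[k] (F.comp (X - C c)) = (derivative^[k] F).comp (X - C c) := by
  induction k with
  | zero => rfl
  | succ k ih =>
    rw [Function.iterate_succ_apply', ih, derivative_comp, Function.iterate_succ_apply']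
    simp

theorem iter_deriv_flip (F : ℂ[X]) (c : ℂ) (k : ℕ) :
    derivative^[k] (F.comp (C c - X)) = (-1) ^ k * (derivative^[k] F).comp (C c - X) := by
  induction k with
  | zero => simp
  | succ k ih =>
    rw [Function.iterate_succ_apply', ih, derivative_mul, derivative_comp,
      Function.iterate_succ_apply']
    have : derivative ((-1 : ℂ[X]) ^ k) = 0 := by
      have : ((-1 : ℂ[X]) ^ k) = C ((-1) ^ k) := by simp
      rw [this, derivative_C]
    rw [this]
    simp
    ring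

/-- discrete integration and integration, pointwise -/
theorem disc {ε : ℂ} (hε : ε ≠ 0) {F f : ℂ[X]} (hF : F - F.comp (X - C ε) = C ε * f) (z : ℂ)
    {b : ℕ → ℝ} {s : ℝ} (hb : ∀ k, 0 ≤ b k) (hvb : ∀ k, ‖(derivative^[k] f).eval z‖ ≤ b k)
    (hs0 : 0 ≤ s) (hs : s ≤ 1 / 3) (hr : ∀ k, ‖ε‖ * b (k + 1) ≤ s * b k) (k : ℕ) :
    ‖(derivative^[k + 1] F).eval z‖ ≤ (1 + s) * b k ∧
      ‖(derivative^[k + 1] F).eval z - (derivative^[k] f).eval z‖ ≤ s * b k := by
  refine seqD (ε := ε) (N := F.natDegree + 1) (u := fun k => (derivative^[k + 1] F).eval z)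
    (v := fun k => (derivative^[k] f).eval z) ?_ ?_ hb hvb hs0 hs hr k
  · intro k hk
    have : derivative^[k + 1] F = 0 := iterate_derivative_eq_zero (by omega)
    simp only [this, eval_zero]
  · intro k
    have h1 : derivative^[k] (F - F.comp (X - C ε)) = derivative^[k] (C ε * f) := by rw [hF]
    rw [iterate_derivative_sub, iter_deriv_comp, iterate_derivative_C_mul] at h1
    have h2 := congrArg (fun p => p.eval z) h1
    simp only [eval_sub, eval_comp, eval_X, eval_C, eval_mul] at h2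
    have hdeg : (derivative^[k] F).natDegree < F.natDegree + 1 + 2 := by
      have := natDegree_iterate_derivative F k
      omega
    rw [sub_eq_add_neg z ε, taylor_sum (derivative^[k] F) z (-ε) hdeg, sum_range_succ'] at h2
    have e0 : (-ε) ^ 0 / ((0 : ℕ).factorial : ℂ) * (derivative^[0] (derivative^[k] F)).eval z =
        (derivative^[k] F).eval z := by simp
    rw [e0] at h2
    have h3 : ε * (derivative^[k] f).eval z =
        ε * ∑ j ∈ range (F.natDegree + 1 + 1), (-ε) ^ j / ((j + 1).factorial : ℂ) *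
          (derivative^[k + j + 1] F).eval z := by
      rw [← h2, mul_sum]
      rw [sub_add_cancel_right, ← sum_neg_distrib]
      refine sum_congr rfl fun j _ => ?_
      rw [← Function.iterate_add_apply, pow_succ, show j + 1 + k = k + j + 1 by ring]
      ring
    exact mul_left_cancel₀ hε h3

end Pool.Agent.Lib.FenceRB

end
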