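import Pool.Agent.Lib.MP_7d55f0_co.RBContr
import Pool.Agent.Lib.MP_7d55f0_co.RBDisc

section

set_option autoImplicit false

namespace Pool.Agent.Lib.FenceRB

open MeasureTheory Set Polynomial

/-- a discrete integration with step `ε` -/
structure Sum1 (ε : ℂ) (U : ℂ[X] → ℂ[X]) : Prop where
  ne : ε ≠ 0
  eq : ∀ f, U f - (U f).comp (X - C ε) = C ε * f
  zero : ∀ f, (U f).eval 0 = 0
  one : U 1 = X

/-- a polynomial as a function on the line -/
noncomputable def ev (f : ℂ[X]) (x : ℝ) : ℂ := f.eval (x : ℂ)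

/-- the discrete reflection -/
noncomputable def flip (ε : ℂ) (f : ℂ[X]) : ℂ[X] := f.comp (C (1 + ε) - X)

theorem ev_cont (f : ℂ[X]) : Continuous (ev f) := by
  unfold ev
  exact f.continuous.comp Complex.continuous_ofReal

theorem ev_deriv (f : ℂ[X]) (x : ℝ) : HasDerivAt (ev f) (ev (derivative f) x) x := by
  unfold ev
  exact (f.hasDerivAt (x : ℂ)).comp_ofReal

theorem ev_eq_V {F : ℂ[X]} (h : F.eval 0 = 0) (x : ℝ) : ev F x = V (ev (derivative F)) x := by
  unfold V
  rw [intervalIntegral.integral_eq_sub_of_hasDerivAt (fun y _ => ev_deriv F y)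
    ((ev_cont _).intervalIntegrable _ _)]
  unfold ev
  rw [Complex.ofReal_zero, h, sub_zero]

theorem V_sub {g h : ℝ → ℂ} (hg : Continuous g) (hh : Continuous h) (x : ℝ) :
    V g x - V h x = V (fun y => g y - h y) x := by
  unfold V
  rw [← intervalIntegral.integral_sub (hg.intervalIntegrable _ _) (hh.intervalIntegrable _ _)]

/-- the majorants inside a run -/
noncomputable def psi (L : ℝ) (m : ℕ) (x : ℝ) : ℝ := (x + 1 / L) ^ m / (m.factorial : ℝ)

theorem psi_cont (L : ℝ) (m : ℕ) : Continuous (psi L m) := by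
  unfold psi
  fun_prop

theorem psi_nonneg {L : ℝ} (hL : 0 < L) (m : ℕ) {x : ℝ} (hx : 0 ≤ x) : 0 ≤ psi L m x := by
  unfold psi
  positivity

theorem psi_deriv (L : ℝ) (m : ℕ) (x : ℝ) : HasDerivAt (psi L (m + 1)) (psi L m x) x := by
  have h1 : HasDerivAt (fun y : ℝ => (y + 1 / L) ^ (m + 1))
      (((m + 1 : ℕ) : ℝ) * (x + 1 / L) ^ m * 1) x :=
    ((hasDerivAt_id x).add_const (1 / L)).pow (m + 1)
  have h2 := h1.div_const ((m + 1).factorial : ℝ)
  refine h2.congr_deriv ?_
  unfold psi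
  rw [Nat.factorial_succ]
  have h3 : ((m.factorial : ℕ) : ℝ) ≠ 0 := by positivity
  have h4 : ((m : ℝ) + 1) ≠ 0 := by positivity
  push_cast
  field_simp

theorem V_psi {L : ℝ} (hL : 0 < L) (m : ℕ) {x : ℝ} : V (psi L m) x ≤ psi L (m + 1) x := by
  unfold V
  rw [intervalIntegral.integral_eq_sub_of_hasDerivAt (fun y _ => psi_deriv L m y)
    ((psi_cont L m).intervalIntegrable _ _)]
  have := psi_nonneg hL (m + 1) (le_refl (0 : ℝ))
  linarith

/-- the majorants of the derivatives -/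
noncomputable def Phi (L K : ℝ) (m k : ℕ) (x : ℝ) : ℝ :=
  if k ≤ m then psi L (m - k) x else K ^ (k - m)

theorem Phi_nonneg {L K : ℝ} (hL : 0 < L) (hK : 0 ≤ K) (m k : ℕ) {x : ℝ} (hx : 0 ≤ x) :
    0 ≤ Phi L K m k x := by
  unfold Phi
  split_ifs
  · exact psi_nonneg hL _ hx
  · positivity

theorem Phi_succ (L K : ℝ) (m k : ℕ) (x : ℝ) : Phi L K (m + 1) (k + 1) x = Phi L K m k x := by
  unfold Phi
  simp only [Nat.add_le_add_iff_right, Nat.add_sub_add_right]

theorem Phi_ratio {L K : ℝ} (hL : 0 < L) {m : ℕ} (hK : (m : ℝ) * L ≤ K) (k : ℕ) {x : ℝ}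
    (hx : 0 ≤ x) : Phi L K m (k + 1) x ≤ K * Phi L K m k x := by
  unfold Phi
  rcases Nat.lt_trichotomy k m with h | h | h
  · rw [if_pos (by omega : k + 1 ≤ m), if_pos h.le]
    obtain ⟨d, rfl⟩ : ∃ d, m = k + 1 + d := ⟨m - (k + 1), by omega⟩
    rw [show k + 1 + d - (k + 1) = d by omega, show k + 1 + d - k = d + 1 by omega]
    unfold psi
    rw [Nat.factorial_succ]
    have h1 : (0 : ℝ) < (d.factorial : ℝ) := by positivity
    have h2 : (0 : ℝ) < (d : ℝ) + 1 := by positivity
    have h3 : (0 : ℝ) < x + 1 / L := by positivity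
    have h4 : (d : ℝ) + 1 ≤ K * (x + 1 / L) := by
      have h5 : ((d : ℝ) + 1) * L ≤ K := by
        refine le_trans (mul_le_mul_of_nonneg_right ?_ hL.le) hK
        push_cast
        have : (0 : ℝ) ≤ (k : ℝ) := Nat.cast_nonneg k
        linarith
      have h6 : (d : ℝ) + 1 ≤ K * (1 / L) := by
        rw [mul_one_div, le_div_iff₀ hL]
        exact h5
      have h7 : 0 ≤ K * x := mul_nonneg (by
        have : 0 ≤ ((d : ℝ) + 1) * L := by positivity
        linarith) hx
      linarith [mul_add K x (1 / L)]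
    push_cast
    rw [div_le_iff₀ h1]
    have e : K * ((x + 1 / L) ^ (d + 1) / (((d : ℝ) + 1) * (d.factorial : ℝ))) * (d.factorial : ℝ) =
        (x + 1 / L) ^ d * (K * (x + 1 / L) / ((d : ℝ) + 1)) := by
      rw [pow_succ]
      field_simp
    rw [e]
    have h8 : 1 ≤ K * (x + 1 / L) / ((d : ℝ) + 1) := by
      rw [le_div_iff₀ h2]
      linarith
    exact le_mul_of_one_le_right (by positivity) h8
  · subst h
    rw [if_neg (by omega), if_pos le_rfl, Nat.sub_self, show k + 1 - k = 1 by omega]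
    unfold psi
    simp
  · rw [if_neg (by omega), if_neg (by omega), show k + 1 - m = (k - m) + 1 by omega, pow_succ,
      mul_comm]

/-- inside a run -/
theorem run_bound {ε : ℂ} {U : ℂ[X] → ℂ[X]} (hU : Sum1 ε U) {L K r M : ℝ} (hL : 0 < L)
    (hr : r = ‖ε‖ * K) (hr3 : r ≤ 1 / 3) (hK0 : 0 ≤ K) {R : ℕ} (hK : (R : ℝ) * L ≤ K)
    (hM : 0 ≤ M) {q : ℂ[X]}
    (hq : ∀ k, ∀ x ∈ Icc (0 : ℝ) 1, ‖ev (derivative^[k] q) x‖ ≤ M * K ^ k) :
    ∀ m ≤ R, (∀ k, ∀ x ∈ Icc (0 : ℝ) 1,
        ‖ev (derivative^[k] (U^[m] q)) x‖ ≤ (1 + r) ^ m * M * Phi L K m k x) ∧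
      (∀ x ∈ Icc (0 : ℝ) 1,
        ‖ev (U^[m] q) x - V^[m] (ev q) x‖ ≤ (m : ℝ) * r * ((1 + r) ^ m * M * psi L m x)) := by
  have hr0 : 0 ≤ r := by rw [hr]; positivity
  intro m
  induction m with
  | zero =>
    intro _
    refine ⟨fun k x hx => ?_, fun x hx => by simp⟩
    have h1 : Phi L K 0 k x = K ^ k := by
      unfold Phi
      rcases Nat.eq_zero_or_pos k with h | h
      · subst h
        simp [psi]
      · rw [if_neg (by omega), Nat.sub_zero]
    rw [h1, pow_zero, one_mul]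
    exact hq k x hx
  | succ m ih =>
    intro hm
    obtain ⟨ih1, ih2⟩ := ih (by omega)
    have hmK : (m : ℝ) * L ≤ K := by
      refine le_trans (mul_le_mul_of_nonneg_right ?_ hL.le) hK
      exact_mod_cast (by omega : m ≤ R)
    have hb : ∀ x ∈ Icc (0 : ℝ) 1, ∀ k, 0 ≤ (1 + r) ^ m * M * Phi L K m k x := fun x hx k =>
      mul_nonneg (by positivity) (Phi_nonneg hL hK0 m k hx.1)
    have hrat : ∀ x ∈ Icc (0 : ℝ) 1, ∀ k, ‖ε‖ * ((1 + r) ^ m * M * Phi L K m (k + 1) x) ≤
        r * ((1 + r) ^ m * M * Phi L K m k x) := by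
      intro x hx k
      have h1 := Phi_ratio hL hmK k hx.1
      calc ‖ε‖ * ((1 + r) ^ m * M * Phi L K m (k + 1) x)
          ≤ ‖ε‖ * ((1 + r) ^ m * M * (K * Phi L K m k x)) := by
            apply mul_le_mul_of_nonneg_left _ (norm_nonneg _)
            exact mul_le_mul_of_nonneg_left h1 (by positivity)
        _ = ‖ε‖ * K * ((1 + r) ^ m * M * Phi L K m k x) := by ring
        _ = _ := by rw [hr]
    have hd : ∀ x ∈ Icc (0 : ℝ) 1, ∀ k,
        ‖ev (derivative^[k + 1] (U (U^[m] q))) x‖ ≤ (1 + r) * ((1 + r) ^ m * M * Phi L K m k x) ∧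
        ‖ev (derivative^[k + 1] (U (U^[m] q))) x - ev (derivative^[k] (U^[m] q)) x‖ ≤
          r * ((1 + r) ^ m * M * Phi L K m k x) := fun x hx k =>
      disc hU.ne (hU.eq (U^[m] q)) (x : ℂ) (hb x hx) (fun k => ih1 k x hx) hr0 hr3 (hrat x hx) k
    have hV := ev_eq_V (hU.zero (U^[m] q))
    have hVpsi : ∀ c : ℝ, 0 ≤ c → ∀ x ∈ Icc (0 : ℝ) 1,
        V (fun y => c * psi L m y) x ≤ c * psi L (m + 1) x := by
      intro c hc x hx
      unfold V
      rw [intervalIntegral.integral_const_mul]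
      exact mul_le_mul_of_nonneg_left (V_psi hL m) hc
    have hP0 : ∀ x, Phi L K m 0 x = psi L m x := fun x => by
      unfold Phi
      rw [if_pos (Nat.zero_le _), Nat.sub_zero]
    have hrw : U^[m + 1] q = U (U^[m] q) := Function.iterate_succ_apply' _ _ _
    rw [hrw]
    refine ⟨fun k x hx => ?_, fun x hx => ?_⟩
    · cases k with
      | zero =>
        have h1 : ∀ y ∈ Icc (0 : ℝ) 1, ‖ev (derivative (U (U^[m] q))) y‖ ≤
            (1 + r) ^ (m + 1) * M * psi L m y := by
          intro y hy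
          have := (hd y hy 0).1
          rw [hP0] at this
          calc ‖ev (derivative (U (U^[m] q))) y‖ ≤ (1 + r) * ((1 + r) ^ m * M * psi L m y) := this
            _ = _ := by ring
        have h2 := V_norm_le (h := fun y => (1 + r) ^ (m + 1) * M * psi L m y)
          (continuous_const.mul (psi_cont L m)) h1 x hx
        have e1 : derivative^[0] (U (U^[m] q)) = U (U^[m] q) := rfl
        rw [e1, hV x]
        refine h2.trans ((hVpsi _ (by positivity) x hx).trans (le_of_eq ?_))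
        unfold Phi
        rw [if_pos (Nat.zero_le _), Nat.sub_zero]
      | succ k =>
        rw [Phi_succ]
        refine (hd x hx k).1.trans (le_of_eq ?_)
        ring
    · rw [Function.iterate_succ_apply', hV x]
      rw [V_sub (ev_cont _) (Vn_cont (ev_cont q) m)]
      have h1 : ∀ y ∈ Icc (0 : ℝ) 1, ‖ev (derivative (U (U^[m] q))) y - V^[m] (ev q) y‖ ≤
          ((m : ℝ) + 1) * r * ((1 + r) ^ m * M) * psi L m y := by
        intro y hy
        have h2 := (hd y hy 0).2
        have h3 := ih2 y hy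
        rw [hP0] at h2
        calc ‖ev (derivative (U (U^[m] q))) y - V^[m] (ev q) y‖
            = ‖(ev (derivative (U (U^[m] q))) y - ev (U^[m] q) y) +
                (ev (U^[m] q) y - V^[m] (ev q) y)‖ := by congr 1; ring
          _ ≤ _ := norm_add_le _ _
          _ ≤ r * ((1 + r) ^ m * M * psi L m y) + (m : ℝ) * r * ((1 + r) ^ m * M * psi L m y) :=
              add_le_add h2 h3
          _ = _ := by ring
      have h2 := V_norm_le (h := fun y => ((m : ℝ) + 1) * r * ((1 + r) ^ m * M) * psi L m y)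
        (continuous_const.mul (psi_cont L m)) h1 x hx
      refine h2.trans ((hVpsi _ (by positivity) x hx).trans ?_)
      have h4 : 0 ≤ psi L (m + 1) x := psi_nonneg hL _ hx.1
      have h5 : (1 + r) ^ m ≤ (1 + r) ^ (m + 1) := by
        rw [pow_succ]
        exact le_mul_of_one_le_right (by positivity) (by linarith)
      push_cast
      calc ((m : ℝ) + 1) * r * ((1 + r) ^ m * M) * psi L (m + 1) x
          = (((m : ℝ) + 1) * r * M * psi L (m + 1) x) * (1 + r) ^ m := by ring
        _ ≤ (((m : ℝ) + 1) * r * M * psi L (m + 1) x) * (1 + r) ^ (m + 1) :=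
            mul_le_mul_of_nonneg_left h5 (by positivity)
        _ = _ := by ring

end Pool.Agent.Lib.FenceRB

end
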