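import Pool.Agent.Lib.MP_7d55f0_co.RBAna

section

set_option autoImplicit false

namespace Pool.Agent.Lib.FenceRB

open MeasureTheory Set

theorem BB_comp {E F : Type*} [NormedAddCommGroup E] [NormedSpace ℝ E] [NormedAddCommGroup F]
    [NormedSpace ℝ F] [CompleteSpace E] [CompleteSpace F] (L : E →L[ℝ] F) {g : ℝ → E}
    (hg : Continuous g) (a b : ℕ) :
    B b (B a (fun y => L (g y))) = fun x => L (B b (B a g) x) := by
  rw [B_comp L hg a]
  exact B_comp L (B_cont hg a) b

theorem B_smul (κ : ℝ) {p : ℝ → ℝ} (hp : Continuous p) (a : ℕ) :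
    B a (fun y => κ * p y) = fun x => κ * B a p x := by
  have h := B_comp (κ • ContinuousLinearMap.id ℝ ℝ) hp a
  simpa using h

/-- Two blocks contract: the last block averages with a common part. -/
theorem contr {p : ℝ → ℝ} (hp : Prof p) {u : ℝ → ℂ} (hu : Continuous u) {κ : ℝ}
    (H : ∀ x ∈ Icc (0 : ℝ) 1, ‖u x‖ ≤ κ * p x) (a b : ℕ) :
    ∃ c : ℂ, ‖c‖ ≤ κ / ((b : ℝ) + 2) ∧ ∀ x ∈ Icc (0 : ℝ) 1,
      ‖B b (B a u) x - c * (B b (B a p) x : ℝ)‖ ≤ (1 - 1 / ((b : ℝ) + 2)) * κ * B b (B a p) x := by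
  have hp1 := hp.B a
  have hp2 := hp1.B b
  have hb : (0 : ℝ) < (b : ℝ) + 2 := by positivity
  have hpos := hp2.pos
  have hw : ∀ x ∈ Icc (0 : ℝ) 1, ‖B b (B a u) x‖ ≤ κ * B b (B a p) x := by
    have h1 : ∀ x ∈ Icc (0 : ℝ) 1, ‖B a u x‖ ≤ κ * B a p x := by
      intro x hx
      have := B_norm_le (h := fun y => κ * p y) (continuous_const.mul hp.cont) H a x hx
      rwa [B_smul κ hp.cont a] at this
    intro x hx
    have := B_norm_le (h := fun y => κ * B a p y) (continuous_const.mul hp1.cont) h1 b x hx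
    rwa [B_smul κ hp1.cont b] at this
  refine ⟨(1 / ((b : ℝ) + 2) : ℝ) * (B b (B a u) 1 / (B b (B a p) 1 : ℝ)), ?_, ?_⟩
  · rw [norm_mul, norm_div, Complex.norm_real, Complex.norm_real, Real.norm_of_nonneg hpos.le,
      Real.norm_of_nonneg (by positivity : (0 : ℝ) ≤ 1 / ((b : ℝ) + 2))]
    have h1 : ‖B b (B a u) 1‖ / B b (B a p) 1 ≤ κ := by
      rw [div_le_iff₀ hpos]
      exact hw 1 mem_one
    calc 1 / ((b : ℝ) + 2) * (‖B b (B a u) 1‖ / B b (B a p) 1) ≤ 1 / ((b : ℝ) + 2) * κ :=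
          mul_le_mul_of_nonneg_left h1 (by positivity)
      _ = κ / ((b : ℝ) + 2) := by ring
  · intro x hx
    set P2 := B b (B a p) with hP2
    set w := B b (B a u) with hwdef
    set θ : ℝ := 1 / ((b : ℝ) + 2) with hθ
    set c : ℂ := (θ : ℝ) * (w 1 / (P2 1 : ℝ)) with hc
    have hθ0 : 0 ≤ θ := by rw [hθ]; positivity
    -- the real part inequality
    have key : ∀ ω : ℂ, ‖ω‖ ≤ 1 → (ω * (w x - c * (P2 x : ℝ))).re ≤ (1 - θ) * κ * P2 x := by
      intro ω hω
      let uu : ℝ → ℂ × ℝ := fun y => (u y, p y)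
      have huu : Continuous uu := hu.prodMk hp.cont
      let L : ℂ × ℝ →L[ℝ] ℝ := κ • (ContinuousLinearMap.snd ℝ ℂ ℝ) -
        (Complex.reCLM.comp ((ω • ContinuousLinearMap.id ℝ ℂ : ℂ →L[ℝ] ℂ).comp
          (ContinuousLinearMap.fst ℝ ℂ ℝ)))
      have hL : ∀ z : ℂ × ℝ, L z = κ * z.2 - (ω * z.1).re := by
        intro z
        simp [L]
      have e1 : B b (B a (fun y => L (uu y))) = fun x => L (B b (B a uu) x) := BB_comp L huu a b
      have e2 : w = fun x => (B b (B a uu) x).1 := by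
        rw [hwdef]
        exact BB_comp (ContinuousLinearMap.fst ℝ ℂ ℝ) huu a b
      have e3 : P2 = fun x => (B b (B a uu) x).2 := by
        rw [hP2]
        exact BB_comp (ContinuousLinearMap.snd ℝ ℂ ℝ) huu a b
      have hg : Good0 (fun y => L (uu y)) := by
        refine ⟨L.continuous.comp huu, fun y hy => ?_⟩
        rw [hL]
        have h1 : (ω * u y).re ≤ ‖ω * u y‖ := Complex.re_le_norm _
        rw [norm_mul] at h1
        have h2 : ‖ω‖ * ‖u y‖ ≤ 1 * ‖u y‖ := mul_le_mul_of_nonneg_right hω (norm_nonneg _)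
        have h3 := H y hy
        change 0 ≤ κ * p y - (ω * u y).re
        linarith
      have hG1 : Good1 (B a (fun y => L (uu y))) := hg.B a
      have hG : HH 1 (B b (B a (fun y => L (uu y)))) := VS0_HH (hG1.Vn b)
      have hG2 : Good0 (B b (B a (fun y => L (uu y)))) := (hG1.toGood0.B b).toGood0
      have h4 := hG 1 mem_one x hx
      have h5 := hG2.nn 1 mem_one
      rw [mul_one, pow_one] at h4
      rw [e1] at h4 h5
      simp only [hL] at h4 h5
      have f1 : (B b (B a uu) x).1 = w x := by rw [e2]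
      have f2 : (B b (B a uu) x).2 = P2 x := by rw [e3]
      have f3 : (B b (B a uu) 1).1 = w 1 := by rw [e2]
      have f4 : (B b (B a uu) 1).2 = P2 1 := by rw [e3]
      rw [f1, f2, f3, f4] at h4
      rw [f3, f4] at h5
      have h6 := hp1.B_upper b hx
      rw [← hP2] at h6
      have h7 : θ * P2 x ≤ x * P2 1 := by
        rw [hθ, div_mul_eq_mul_div, one_mul, div_le_iff₀ hb]
        calc P2 x ≤ x * (((b : ℝ) + 2) * P2 1) := h6
          _ = x * P2 1 * ((b : ℝ) + 2) := by ring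
      have h8 : θ * (P2 x / P2 1) ≤ x := by
        rw [← mul_div_assoc, div_le_iff₀ hpos]
        exact h7
      have h9 : θ * (P2 x / P2 1) * (κ * P2 1 - (ω * w 1).re) ≤ κ * P2 x - (ω * w x).re :=
        (mul_le_mul_of_nonneg_right h8 h5).trans h4
      have h10 : (ω * (c * (P2 x : ℝ))).re = θ * (P2 x / P2 1) * (ω * w 1).re := by
        have : ω * (c * (P2 x : ℝ)) = ((θ * (P2 x / P2 1) : ℝ) : ℂ) * (ω * w 1) := by
          rw [hc]
          push_cast
          ring
        rw [this, Complex.re_ofReal_mul]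
      rw [mul_sub, Complex.sub_re, h10]
      have h11 : θ * (P2 x / P2 1) * (κ * P2 1) = θ * κ * P2 x := by
        field_simp
      nlinarith [h9, h11]
    rcases eq_or_ne (w x - c * (P2 x : ℝ)) 0 with h0 | h0
    · rw [h0, norm_zero]
      have := key 0 (by simp)
      simpa using this
    · set z := w x - c * (P2 x : ℝ) with hz
      have hn : ‖z‖ ≠ 0 := by simpa using h0
      have := key ((starRingEnd ℂ z) / (‖z‖ : ℝ)) (by
        rw [norm_div, Complex.norm_conj, Complex.norm_real, norm_norm, div_self hn])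
      have e : (starRingEnd ℂ z) / (‖z‖ : ℝ) * z = (‖z‖ : ℝ) := by
        rw [div_mul_eq_mul_div, mul_comm, Complex.mul_conj, Complex.normSq_eq_norm_sq,
          div_eq_iff (by exact_mod_cast hn)]
        push_cast
        ring
      rw [e, Complex.ofReal_re] at this
      exact this

end Pool.Agent.Lib.FenceRB

end
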