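import Pool.Agent.Lib.MP_7d55f0_co.RBStep

section

set_option autoImplicit false

namespace Pool.Agent.Lib.FenceRB

open MeasureTheory Set Polynomial

/-- the states at the beginning of the runs; an entry `a` stands for a run with `a + 1` letters -/
noncomputable def Qs (ε : ℂ) (U : ℂ[X] → ℂ[X]) : List ℕ → ℂ[X]
  | [] => X
  | a :: l => U (flip ε (U^[a] (Qs ε U l)))

/-- the profiles at the beginning of the runs -/
noncomputable def Ps : List ℕ → ℝ → ℝ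
  | [] => fun x => x
  | a :: l => B a (Ps l)

theorem Ps_prof : ∀ l : List ℕ, Prof (Ps l)
  | [] => by
    refine ⟨⟨⟨continuous_id, fun x hx => hx.1⟩, fun x _ y _ h => h⟩, fun x _ l _ => ?_, one_pos⟩
    rw [pow_one]
    exact le_rfl
  | a :: l => (Ps_prof l).B a

/-- the invariant -/
def Inv (K : ℝ) (q : ℂ[X]) (p : ℝ → ℝ) : Prop :=
  ∃ lam : ℂ, lam ≠ 0 ∧ (∀ x ∈ Icc (0 : ℝ) 1, ‖ev q x - lam * (p x : ℝ)‖ ≤ 1 / 2 * ‖lam‖ * p x) ∧
    (∀ k, ∀ x ∈ Icc (0 : ℝ) 1, ‖ev (derivative^[k] q) x‖ ≤ 4 * ‖lam‖ * p 1 * K ^ k)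

theorem B_cmul (lam : ℂ) {g : ℝ → ℂ} (hg : Continuous g) (a : ℕ) (x : ℝ) :
    B a (fun y => lam * g y) x = lam * B a g x := by
  have h := B_comp (lam • ContinuousLinearMap.id ℝ ℂ) hg a
  have := congrFun h x
  simpa using this

theorem B_ofReal {p : ℝ → ℝ} (hp : Continuous p) (a : ℕ) (x : ℝ) :
    B a (fun y => ((p y : ℝ) : ℂ)) x = ((B a p x : ℝ) : ℂ) :=
  congrFun (B_comp Complex.ofRealCLM hp a) x

theorem B_sub' {g h : ℝ → ℂ} (hg : Continuous g) (hh : Continuous h) (a : ℕ) (x : ℝ) :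
    B a (fun y => g y - h y) x = B a g x - B a h x := by
  have h1 := congrFun (B_comp (ContinuousLinearMap.fst ℝ ℂ ℂ - ContinuousLinearMap.snd ℝ ℂ ℂ)
    (hg.prodMk hh) a) x
  have h2 := congrFun (B_comp (ContinuousLinearMap.fst ℝ ℂ ℂ) (hg.prodMk hh) a) x
  have h3 := congrFun (B_comp (ContinuousLinearMap.snd ℝ ℂ ℂ) (hg.prodMk hh) a) x
  change B a (fun y => g y - h y) x =
    (B a (fun y => (g y, h y)) x).1 - (B a (fun y => (g y, h y)) x).2 at h1
  change B a g x = (B a (fun y => (g y, h y)) x).1 at h2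
  change B a h x = (B a (fun y => (g y, h y)) x).2 at h3
  rw [h1, h2, h3]

theorem B_lin (lam : ℂ) {g : ℝ → ℂ} {p : ℝ → ℝ} (hg : Continuous g) (hp : Continuous p) (a : ℕ)
    (x : ℝ) : B a (fun y => g y - lam * ((p y : ℝ) : ℂ)) x = B a g x - lam * ((B a p x : ℝ) : ℂ) := by
  have hc : Continuous (fun y => ((p y : ℝ) : ℂ)) := Complex.continuous_ofReal.comp hp
  have h1 := B_sub' (h := fun y => lam * ((p y : ℝ) : ℂ)) hg (continuous_const.mul hc) a x
  have h2 := B_cmul lam hc a x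
  have h3 := B_ofReal hp a x
  rw [h1, h2, h3]

theorem lin_cont (lam : ℂ) {g : ℝ → ℂ} {p : ℝ → ℝ} (hg : Continuous g) (hp : Continuous p) :
    Continuous (fun y => g y - lam * ((p y : ℝ) : ℂ)) :=
  hg.sub (continuous_const.mul (Complex.continuous_ofReal.comp hp))

theorem Vn_lin (lam : ℂ) {g : ℝ → ℂ} {p : ℝ → ℝ} (hg : Continuous g) (hp : Continuous p) (a : ℕ)
    (x : ℝ) : V^[a] (fun y => g y - lam * ((p y : ℝ) : ℂ)) x =
      V^[a] g x - lam * ((V^[a] p x : ℝ) : ℂ) := by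
  have h1 := congrFun (Vn_comp (ContinuousLinearMap.fst ℝ ℂ ℂ - ContinuousLinearMap.snd ℝ ℂ ℂ)
    (hg.prodMk (continuous_const.mul (Complex.continuous_ofReal.comp hp) :
      Continuous (fun y => lam * ((p y : ℝ) : ℂ)))) a) x
  have h2 := congrFun (Vn_comp (ContinuousLinearMap.fst ℝ ℂ ℂ)
    (hg.prodMk (continuous_const.mul (Complex.continuous_ofReal.comp hp) :
      Continuous (fun y => lam * ((p y : ℝ) : ℂ)))) a) x
  have h3 := congrFun (Vn_comp (ContinuousLinearMap.snd ℝ ℂ ℂ)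
    (hg.prodMk (continuous_const.mul (Complex.continuous_ofReal.comp hp) :
      Continuous (fun y => lam * ((p y : ℝ) : ℂ)))) a) x
  change V^[a] (fun y => g y - lam * ((p y : ℝ) : ℂ)) x =
    (V^[a] (fun y => (g y, lam * ((p y : ℝ) : ℂ))) x).1 -
    (V^[a] (fun y => (g y, lam * ((p y : ℝ) : ℂ))) x).2 at h1
  change V^[a] g x = (V^[a] (fun y => (g y, lam * ((p y : ℝ) : ℂ))) x).1 at h2
  change V^[a] (fun y => lam * ((p y : ℝ) : ℂ)) x =
    (V^[a] (fun y => (g y, lam * ((p y : ℝ) : ℂ))) x).2 at h3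
  have h4 := congrFun (Vn_comp ((lam • ContinuousLinearMap.id ℝ ℂ).comp Complex.ofRealCLM) hp a) x
  have h5 : V^[a] (fun y => lam * ((p y : ℝ) : ℂ)) x = lam * ((V^[a] p x : ℝ) : ℂ) := by
    simpa using h4
  rw [h1, ← h2, ← h3, h5]

theorem Vn_smul (c : ℝ) {p : ℝ → ℝ} (hp : Continuous p) (a : ℕ) (x : ℝ) :
    V^[a] (fun y => c * p y) x = c * V^[a] p x := by
  have h := congrFun (Vn_comp (c • ContinuousLinearMap.id ℝ ℝ) hp a) x
  simpa using h

/-- the parameters -/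
structure Par (ε : ℂ) (U : ℂ[X] → ℂ[X]) (R : ℕ) (K : ℝ) : Prop where
  sum : Sum1 ε U
  hR : 1 ≤ R
  hK : K = 54 * ((R : ℝ) + 1) ^ 2
  hε : ‖ε‖ * K ≤ 1 / (576 * ((R : ℝ) + 1) ^ 4)

theorem Par.hK1 {ε : ℂ} {U : ℂ[X] → ℂ[X]} {R : ℕ} {K : ℝ} (h : Par ε U R K) : 1 ≤ K := by
  have h1 := h.hK
  have h2 : (1 : ℝ) ≤ (R : ℝ) := by exact_mod_cast h.hR
  nlinarith

/-- one block preserves the bounds, with a loss -/
theorem one_block {ε : ℂ} {U : ℂ[X] → ℂ[X]} {R : ℕ} {K : ℝ} (hP : Par ε U R K) {a : ℕ}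
    (ha : a + 1 ≤ R) {q : ℂ[X]} {p : ℝ → ℝ} (hp : Prof p) {lam : ℂ} {δ : ℝ} (hδ : δ ≤ 1 / 2)
    (h1 : ∀ x ∈ Icc (0 : ℝ) 1, ‖ev q x - lam * (p x : ℝ)‖ ≤ δ * ‖lam‖ * p x)
    (h2 : ∀ k, ∀ x ∈ Icc (0 : ℝ) 1, ‖ev (derivative^[k] q) x‖ ≤ 4 * ‖lam‖ * p 1 * K ^ k) :
    (∀ x ∈ Icc (0 : ℝ) 1, ‖ev (U (flip ε (U^[a] q))) x - B a (ev q) x‖ ≤
      1 / (8 * ((R : ℝ) + 1)) * ‖lam‖ * B a p x) ∧
    (∀ x ∈ Icc (0 : ℝ) 1, ‖B a (ev q) x - lam * (B a p x : ℝ)‖ ≤ δ * ‖lam‖ * B a p x) ∧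
    (∀ k, ∀ x ∈ Icc (0 : ℝ) 1, ‖ev (derivative^[k + 1] (U (flip ε (U^[a] q)))) x‖ ≤
      2 * ‖lam‖ * B a p 1 * K ^ (k + 1)) ∧
    (∀ x ∈ Icc (0 : ℝ) 1, ‖ev (U (flip ε (U^[a] q))) x‖ ≤ 2 * ‖lam‖ * B a p 1) := by
  obtain ⟨b1, b2⟩ := block hP.sum ha hP.hK hP.hε hp (N := 4 * ‖lam‖) (by positivity) h2
  have hBa := hp.B a
  have hR1 : (1 : ℝ) ≤ (R : ℝ) := by exact_mod_cast hP.hR
  have c1 : ∀ x ∈ Icc (0 : ℝ) 1, ‖ev (U (flip ε (U^[a] q))) x - B a (ev q) x‖ ≤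
      1 / (8 * ((R : ℝ) + 1)) * ‖lam‖ * B a p x := by
    intro x hx
    refine (b1 x hx).trans (le_of_eq ?_)
    field_simp
    ring
  have c2 : ∀ x ∈ Icc (0 : ℝ) 1, ‖B a (ev q) x - lam * (B a p x : ℝ)‖ ≤ δ * ‖lam‖ * B a p x := by
    intro x hx
    have h3 := B_norm_le (g := fun y => ev q y - lam * ((p y : ℝ) : ℂ))
      (h := fun y => δ * ‖lam‖ * p y) (continuous_const.mul hp.cont) h1 a x hx
    rw [B_smul _ hp.cont a, B_lin lam (ev_cont q) hp.cont a x] at h3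
    exact h3
  refine ⟨c1, c2, fun k x hx => (b2 k x hx).trans (le_of_eq (by ring)), fun x hx => ?_⟩
  have h5 : B a p x ≤ B a p 1 := hBa.mono x hx 1 mem_one hx.2
  have h6 := hBa.nn x hx
  have h7 := c1 x hx
  have h8 := c2 x hx
  have h9 : ‖lam * ((B a p x : ℝ) : ℂ)‖ = ‖lam‖ * B a p x := by
    rw [norm_mul, Complex.norm_real, Real.norm_of_nonneg h6]
  have h10 : 1 / (8 * ((R : ℝ) + 1)) ≤ 1 / 2 := by
    rw [div_le_div_iff₀ (by positivity) (by norm_num)]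
    linarith
  have hl : 0 ≤ ‖lam‖ * B a p x := mul_nonneg (norm_nonneg _) h6
  calc ‖ev (U (flip ε (U^[a] q))) x‖
      = ‖(ev (U (flip ε (U^[a] q))) x - B a (ev q) x) +
          (B a (ev q) x - lam * (B a p x : ℝ)) + lam * (B a p x : ℝ)‖ := by
        congr 1
        ring
    _ ≤ _ := norm_add₃_le
    _ ≤ 1 / (8 * ((R : ℝ) + 1)) * ‖lam‖ * B a p x + δ * ‖lam‖ * B a p x + ‖lam‖ * B a p x := by
        rw [h9]
        linarith
    _ ≤ 2 * (‖lam‖ * B a p x) := by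
        have e1 : 1 / (8 * ((R : ℝ) + 1)) * ‖lam‖ * B a p x =
            1 / (8 * ((R : ℝ) + 1)) * (‖lam‖ * B a p x) := by ring
        have e2 : δ * ‖lam‖ * B a p x = δ * (‖lam‖ * B a p x) := by ring
        rw [e1, e2]
        nlinarith [mul_le_mul_of_nonneg_right h10 hl, mul_le_mul_of_nonneg_right hδ hl]
    _ ≤ 2 * ‖lam‖ * B a p 1 := by
        have := mul_le_mul_of_nonneg_left h5 (norm_nonneg lam)
        linarith

theorem Inv.two {ε : ℂ} {U : ℂ[X] → ℂ[X]} {R : ℕ} {K : ℝ} (hP : Par ε U R K) {a b : ℕ}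
    (ha : a + 1 ≤ R) (hb : b + 1 ≤ R) {q : ℂ[X]} {p : ℝ → ℝ} (hp : Prof p) (h : Inv K q p) :
    Inv K (U (flip ε (U^[b] (U (flip ε (U^[a] q)))))) (B b (B a p)) := by
  obtain ⟨lam, hl0, h1, h2⟩ := h
  have hK1 := hP.hK1
  have hR1 : (1 : ℝ) ≤ (R : ℝ) := by exact_mod_cast hP.hR
  have hlpos : 0 < ‖lam‖ := norm_pos_iff.mpr hl0
  have hp1 := hp.B a
  have hp2 := hp1.B b
  obtain ⟨a1, a2, a3, a4⟩ := one_block hP ha hp le_rfl h1 h2
  set q1 := U (flip ε (U^[a] q)) with hq1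
  -- derivative bounds of `q1`
  have h2' : ∀ k, ∀ x ∈ Icc (0 : ℝ) 1, ‖ev (derivative^[k] q1) x‖ ≤
      4 * ‖lam‖ * B a p 1 * K ^ k := by
    intro k x hx
    have hpos : 0 ≤ ‖lam‖ * B a p 1 := mul_nonneg hlpos.le hp1.pos.le
    cases k with
    | zero =>
      refine (a4 x hx).trans ?_
      rw [pow_zero, mul_one]
      linarith
    | succ k =>
      refine (a3 k x hx).trans ?_
      apply mul_le_mul_of_nonneg_right _ (by positivity)
      linarith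
  obtain ⟨c1, c2⟩ := block hP.sum hb hP.hK hP.hε hp1 (N := 4 * ‖lam‖) (by positivity) h2'
  set q2 := U (flip ε (U^[b] q1)) with hq2
  -- the contraction
  obtain ⟨c, hc, hcx⟩ := contr hp (u := fun y => ev q y - lam * ((p y : ℝ) : ℂ))
    (lin_cont lam (ev_cont q) hp.cont) (κ := 1 / 2 * ‖lam‖) h1 a b
  have hθ : 1 / ((R : ℝ) + 1) ≤ 1 / ((b : ℝ) + 2) := by
    have hb' : (b : ℝ) + 1 ≤ (R : ℝ) := by exact_mod_cast hb
    exact one_div_le_one_div_of_le (by positivity) (by linarith)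
  set θ : ℝ := 1 / ((b : ℝ) + 2) with hθdef
  have hθ2 : θ ≤ 1 / 2 := by
    rw [hθdef]
    have : (0 : ℝ) ≤ (b : ℝ) := Nat.cast_nonneg b
    exact one_div_le_one_div_of_le (by norm_num) (by linarith)
  have hθ0 : 0 < θ := by rw [hθdef]; positivity
  have hc' : ‖c‖ ≤ θ / 2 * ‖lam‖ := by
    refine hc.trans (le_of_eq ?_)
    rw [hθdef]
    ring
  -- the new centre
  have hlam1 : (1 - θ / 2) * ‖lam‖ ≤ ‖lam + c‖ := by
    have : ‖lam‖ ≤ ‖lam + c‖ + ‖c‖ := by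
      calc ‖lam‖ = ‖(lam + c) - c‖ := by rw [add_sub_cancel_right]
        _ ≤ _ := norm_sub_le _ _
    linarith
  have hBB : ∀ x, B b (B a (fun y => ev q y - lam * ((p y : ℝ) : ℂ))) x =
      B b (B a (ev q)) x - lam * ((B b (B a p) x : ℝ) : ℂ) := by
    intro x
    have e1 : B a (fun y => ev q y - lam * ((p y : ℝ) : ℂ)) =
        fun y => B a (ev q) y - lam * ((B a p y : ℝ) : ℂ) := by
      funext y
      exact B_lin lam (ev_cont q) hp.cont a y
    rw [e1, B_lin lam (B_cont (ev_cont q) a) hp1.cont b x]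
  have hq1B : ∀ x ∈ Icc (0 : ℝ) 1, ‖B b (ev q1) x - B b (B a (ev q)) x‖ ≤
      1 / (8 * ((R : ℝ) + 1)) * ‖lam‖ * B b (B a p) x := by
    intro x hx
    have h3 := B_norm_le (g := fun y => ev q1 y - B a (ev q) y)
      (h := fun y => 1 / (8 * ((R : ℝ) + 1)) * ‖lam‖ * B a p y)
      (continuous_const.mul hp1.cont) a1 b x hx
    rwa [B_smul _ hp1.cont b, B_sub' (ev_cont q1) (B_cont (ev_cont q) a) b x] at h3
  have hmain : ∀ x ∈ Icc (0 : ℝ) 1,
      ‖ev q2 x - (lam + c) * ((B b (B a p) x : ℝ) : ℂ)‖ ≤ 1 / 2 * ‖lam + c‖ * B b (B a p) x := by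
    intro x hx
    have h3 := c1 x hx
    have h4 := hq1B x hx
    have h5 := hcx x hx
    rw [hBB] at h5
    have h6 := hp2.nn x hx
    have e : ev q2 x - (lam + c) * ((B b (B a p) x : ℝ) : ℂ) =
        (ev q2 x - B b (ev q1) x) + (B b (ev q1) x - B b (B a (ev q)) x) +
        (B b (B a (ev q)) x - lam * ((B b (B a p) x : ℝ) : ℂ) - c * ((B b (B a p) x : ℝ) : ℂ)) := by
      ring
    rw [e]
    refine norm_add₃_le.trans ?_
    have hP2 : 0 ≤ ‖lam‖ * B b (B a p) x := mul_nonneg hlpos.le h6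
    have h3' : ‖ev q2 x - B b (ev q1) x‖ ≤
        1 / 8 * (1 / ((R : ℝ) + 1)) * (‖lam‖ * B b (B a p) x) := by
      refine h3.trans (le_of_eq ?_)
      field_simp
      ring
    have h4' : ‖B b (ev q1) x - B b (B a (ev q)) x‖ ≤
        1 / 8 * (1 / ((R : ℝ) + 1)) * (‖lam‖ * B b (B a p) x) := by
      refine h4.trans (le_of_eq ?_)
      field_simp
    have h5' : ‖B b (B a (ev q)) x - lam * ((B b (B a p) x : ℝ) : ℂ) -
        c * ((B b (B a p) x : ℝ) : ℂ)‖ ≤ (1 - θ) / 2 * (‖lam‖ * B b (B a p) x) := by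
      refine h5.trans (le_of_eq ?_)
      ring
    have h7 : 1 / 8 * (1 / ((R : ℝ) + 1)) * (‖lam‖ * B b (B a p) x) ≤
        1 / 8 * θ * (‖lam‖ * B b (B a p) x) :=
      mul_le_mul_of_nonneg_right (mul_le_mul_of_nonneg_left hθ (by norm_num)) hP2
    have h8 : 1 / 2 * ((1 - θ / 2) * ‖lam‖) * B b (B a p) x ≤
        1 / 2 * ‖lam + c‖ * B b (B a p) x :=
      mul_le_mul_of_nonneg_right (mul_le_mul_of_nonneg_left hlam1 (by norm_num)) h6
    refine le_trans ?_ h8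
    linarith
  have hlamc : ‖lam‖ ≤ 2 * ‖lam + c‖ := by nlinarith
  refine ⟨lam + c, ?_, hmain, fun k x hx => ?_⟩
  · intro h0
    rw [h0, norm_zero] at hlamc
    linarith
  · have hpos : 0 ≤ B b (B a p) 1 := hp2.pos.le
    cases k with
    | zero =>
      rw [pow_zero, mul_one]
      have h3 := hmain x hx
      have h4 : B b (B a p) x ≤ B b (B a p) 1 := hp2.mono x hx 1 mem_one hx.2
      have h6 := hp2.nn x hx
      have h5 : ‖(lam + c) * ((B b (B a p) x : ℝ) : ℂ)‖ = ‖lam + c‖ * B b (B a p) x := by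
        rw [norm_mul, Complex.norm_real, Real.norm_of_nonneg h6]
      have e0 : derivative^[0] q2 = q2 := rfl
      rw [e0]
      calc ‖ev q2 x‖ = ‖(ev q2 x - (lam + c) * ((B b (B a p) x : ℝ) : ℂ)) +
            (lam + c) * ((B b (B a p) x : ℝ) : ℂ)‖ := by rw [sub_add_cancel]
        _ ≤ _ := norm_add_le _ _
        _ ≤ 1 / 2 * ‖lam + c‖ * B b (B a p) x + ‖lam + c‖ * B b (B a p) x := by
            rw [h5]
            linarith
        _ ≤ 4 * (‖lam + c‖ * B b (B a p) x) := by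
            have := mul_nonneg (norm_nonneg (lam + c)) h6
            linarith
        _ ≤ 4 * ‖lam + c‖ * B b (B a p) 1 := by
            have := mul_le_mul_of_nonneg_left h4 (norm_nonneg (lam + c))
            linarith
    | succ k =>
      refine (c2 k x hx).trans ?_
      apply mul_le_mul_of_nonneg_right _ (by positivity)
      have := mul_le_mul_of_nonneg_right hlamc hpos
      linarith

theorem Inv.nil {ε : ℂ} {U : ℂ[X] → ℂ[X]} {R : ℕ} {K : ℝ} (hP : Par ε U R K) :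
    (∀ x ∈ Icc (0 : ℝ) 1, ‖ev X x - 1 * (((fun y : ℝ => y) x : ℝ) : ℂ)‖ ≤
      0 * ‖(1 : ℂ)‖ * (fun y : ℝ => y) x) ∧
    (∀ k, ∀ x ∈ Icc (0 : ℝ) 1, ‖ev (derivative^[k] (X : ℂ[X])) x‖ ≤
      4 * ‖(1 : ℂ)‖ * (fun y : ℝ => y) 1 * K ^ k) := by
  have hK1 := hP.hK1
  refine ⟨fun x _ => ?_, fun k x hx => ?_⟩
  · unfold ev
    simp
  · have h1 : ‖ev (derivative^[k] (X : ℂ[X])) x‖ ≤ 1 := by
      match k with
      | 0 =>
        unfold ev
        simp only [Function.iterate_zero, id_eq, eval_X, Complex.norm_real]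
        rw [Real.norm_of_nonneg hx.1]
        exact hx.2
      | 1 =>
        unfold ev
        simp
      | k + 2 =>
        unfold ev
        have : derivative^[k + 2] (X : ℂ[X]) = 0 := by
          rw [Function.iterate_add_apply]
          simp
        rw [this]
        simp
    have h2 : 1 ≤ K ^ k := one_le_pow₀ hK1
    have e : 4 * ‖(1 : ℂ)‖ * (fun y : ℝ => y) 1 * K ^ k = 4 * K ^ k := by
      simp
    rw [e]
    linarith

theorem Inv.nil' {ε : ℂ} {U : ℂ[X] → ℂ[X]} {R : ℕ} {K : ℝ} (hP : Par ε U R K) :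
    Inv K X (fun y : ℝ => y) := by
  obtain ⟨h1, h2⟩ := Inv.nil hP
  refine ⟨1, one_ne_zero, fun x hx => (h1 x hx).trans ?_, h2⟩
  have := hx.1
  apply mul_le_mul_of_nonneg_right _ this
  apply mul_le_mul_of_nonneg_right (by norm_num) (norm_nonneg _)

theorem Inv.one {ε : ℂ} {U : ℂ[X] → ℂ[X]} {R : ℕ} {K : ℝ} (hP : Par ε U R K) {a : ℕ}
    (ha : a + 1 ≤ R) : Inv K (U (flip ε (U^[a] X))) (B a (fun y : ℝ => y)) := by
  obtain ⟨h1, h2⟩ := Inv.nil hP
  have hp : Prof (fun y : ℝ => y) := Ps_prof []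
  have hpB := hp.B a
  have hR1 : (1 : ℝ) ≤ (R : ℝ) := by exact_mod_cast hP.hR
  obtain ⟨a1, a2, a3, a4⟩ := one_block hP ha hp (by norm_num) h1 h2
  refine ⟨1, one_ne_zero, fun x hx => ?_, fun k x hx => ?_⟩
  · have h3 := a1 x hx
    have h4 := a2 x hx
    have h5 := hpB.nn x hx
    have h6 : 1 / (8 * ((R : ℝ) + 1)) ≤ 1 / 2 := by
      rw [div_le_div_iff₀ (by positivity) (by norm_num)]
      linarith
    calc ‖ev (U (flip ε (U^[a] X))) x - 1 * ((B a (fun y : ℝ => y) x : ℝ) : ℂ)‖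
        = ‖(ev (U (flip ε (U^[a] X))) x - B a (ev X) x) +
            (B a (ev X) x - 1 * ((B a (fun y : ℝ => y) x : ℝ) : ℂ))‖ := by
          congr 1
          ring
      _ ≤ _ := norm_add_le _ _
      _ ≤ 1 / (8 * ((R : ℝ) + 1)) * ‖(1 : ℂ)‖ * B a (fun y : ℝ => y) x +
          0 * ‖(1 : ℂ)‖ * B a (fun y : ℝ => y) x := add_le_add h3 h4
      _ ≤ _ := by
          rw [norm_one]
          nlinarith
  · have hpos : 0 ≤ B a (fun y : ℝ => y) 1 := hpB.pos.le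
    have hK1 := hP.hK1
    cases k with
    | zero =>
      refine (a4 x hx).trans ?_
      rw [norm_one, pow_zero]
      linarith
    | succ k =>
      refine (a3 k x hx).trans ?_
      apply mul_le_mul_of_nonneg_right _ (by positivity)
      rw [norm_one]
      linarith

theorem inv_all {ε : ℂ} {U : ℂ[X] → ℂ[X]} {R : ℕ} {K : ℝ} (hP : Par ε U R K) :
    ∀ l : List ℕ, (∀ a ∈ l, a + 1 ≤ R) → Inv K (Qs ε U l) (Ps l)
  | [], _ => Inv.nil' hP
  | [a], h => Inv.one hP (h a (by simp))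
  | b :: a :: l, h => by
    have h1 := inv_all hP l (fun c hc => h c (by simp [hc]))
    exact Inv.two hP (h a (by simp)) (h b (by simp)) (Ps_prof l) h1

/-- the value at the end of the last run does not vanish -/
theorem final_ne {ε : ℂ} {U : ℂ[X] → ℂ[X]} {R : ℕ} {K : ℝ} (hP : Par ε U R K) {a : ℕ}
    (ha : a + 1 ≤ R) {q : ℂ[X]} {p : ℝ → ℝ} (hp : Prof p) (h : Inv K q p) :
    (U^[a + 1] q).eval 1 ≠ 0 := by
  obtain ⟨lam, hl0, h1, h2⟩ := h
  have hR1 : (1 : ℝ) ≤ (R : ℝ) := by exact_mod_cast hP.hR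
  have hlpos : 0 < ‖lam‖ := norm_pos_iff.mpr hl0
  set L : ℝ := (R : ℝ) + 1 with hLdef
  have hL0 : 0 < L := by linarith
  have hL2 : 2 ≤ L := by linarith
  have hKeq : K = 54 * L ^ 2 := hP.hK
  have hK0 : 0 ≤ K := by rw [hKeq]; positivity
  set r : ℝ := ‖ε‖ * K with hr
  have hr0 : 0 ≤ r := by rw [hr]; positivity
  have hεr : r ≤ 1 / (576 * L ^ 4) := hP.hε
  have hL4 : 16 ≤ L ^ 4 := by
    have : (2 : ℝ) ^ 4 ≤ L ^ 4 := pow_le_pow_left₀ (by norm_num) hL2 4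
    linarith
  have hr3 : r ≤ 1 / 3 := by
    refine hεr.trans ?_
    rw [div_le_div_iff₀ (by positivity) (by norm_num)]
    linarith
  have hKL : (R : ℝ) * L ≤ K := by
    rw [hKeq]
    nlinarith
  have hM : 0 ≤ 4 * ‖lam‖ * p 1 := by
    have := hp.pos.le
    positivity
  have hb := (run_bound hP.sum hL0 hr hr3 hK0 hKL hM h2 (a + 1) ha).2 1 mem_one
  have haL : ((a + 1 : ℕ) : ℝ) ≤ L := by
    have : ((a + 1 : ℕ) : ℝ) ≤ (R : ℝ) := by exact_mod_cast ha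
    linarith
  have h3 : (1 + r) ^ (a + 1) ≤ 3 := by
    apply pow_le_three hr0
    have h4 : ((a + 1 : ℕ) : ℝ) * r ≤ L * (1 / (576 * L ^ 4)) :=
      mul_le_mul haL hεr hr0 hL0.le
    refine h4.trans ?_
    rw [mul_one_div, div_le_one (by positivity)]
    have : 1 ≤ L ^ 3 := one_le_pow₀ (by linarith)
    nlinarith
  have h5 : psi L (a + 1) 1 ≤ 3 / ((a + 1).factorial : ℝ) := psi_le hL0 haL mem_one
  have hpsi0 : 0 ≤ psi L (a + 1) 1 := psi_nonneg hL0 _ zero_le_one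
  have hlow := Prof.Vn_lower hp (a + 1) 1 mem_one
  rw [one_pow, mul_one] at hlow
  set W : ℝ := V^[a + 1] p 1 with hW
  have hW0 : 0 < W := by
    refine lt_of_lt_of_le ?_ hlow
    have := hp.pos
    positivity
  -- the discretization error
  have h6 : ‖ev (U^[a + 1] q) 1 - V^[a + 1] (ev q) 1‖ ≤ 1 / 4 * (‖lam‖ * W) := by
    refine hb.trans ?_
    have hf1 : (0 : ℝ) < ((a + 1).factorial : ℝ) := by positivity
    have hf2 : ((a + 1 + 1).factorial : ℝ) = ((a : ℝ) + 2) * ((a + 1).factorial : ℝ) := by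
      rw [Nat.factorial_succ]
      push_cast
      ring
    have h7 : p 1 ≤ ((a : ℝ) + 2) * ((a + 1).factorial : ℝ) * W := by
      rw [← hf2]
      rw [div_le_iff₀ (by positivity)] at hlow
      linarith
    have hA : ((a + 1 : ℕ) : ℝ) = (a : ℝ) + 1 := by push_cast; ring
    have ha2 : (a : ℝ) + 2 ≤ L := by
      have : ((a + 1 : ℕ) : ℝ) ≤ (R : ℝ) := by exact_mod_cast ha
      rw [hA] at this
      linarith
    calc ((a + 1 : ℕ) : ℝ) * r * ((1 + r) ^ (a + 1) * (4 * ‖lam‖ * p 1) * psi L (a + 1) 1)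
        ≤ L * r * (3 * (4 * ‖lam‖ * p 1) * (3 / ((a + 1).factorial : ℝ))) := by
          apply mul_le_mul (mul_le_mul_of_nonneg_right haL hr0) _ (by positivity) (by positivity)
          exact mul_le_mul (mul_le_mul_of_nonneg_right h3 hM) h5 hpsi0 (by positivity)
      _ = 36 * (L * r) * ‖lam‖ / ((a + 1).factorial : ℝ) * p 1 := by
          field_simp
          ring
      _ ≤ 36 * (L * r) * ‖lam‖ / ((a + 1).factorial : ℝ) *
          (((a : ℝ) + 2) * ((a + 1).factorial : ℝ) * W) := by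
          apply mul_le_mul_of_nonneg_left h7 (by positivity)
      _ = 36 * (L * r) * ((a : ℝ) + 2) * (‖lam‖ * W) := by
          field_simp
      _ ≤ 1 / 4 * (‖lam‖ * W) := by
          apply mul_le_mul_of_nonneg_right _ (by positivity)
          have h8 : 36 * (L * r) * ((a : ℝ) + 2) ≤ 36 * (L * (1 / (576 * L ^ 4))) * L := by
            apply mul_le_mul _ ha2 (by positivity) (by positivity)
            apply mul_le_mul_of_nonneg_left _ (by norm_num)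
            exact mul_le_mul_of_nonneg_left hεr hL0.le
          refine h8.trans ?_
          have e : 36 * (L * (1 / (576 * L ^ 4))) * L = 1 / (16 * L ^ 2) := by
            field_simp
            norm_num
          rw [e, div_le_div_iff₀ (by positivity) (by norm_num)]
          nlinarith
  -- the continuous part
  have h7 : ‖V^[a + 1] (ev q) 1 - lam * (W : ℂ)‖ ≤ 1 / 2 * (‖lam‖ * W) := by
    have hc : Continuous (fun y => ev q y - lam * ((p y : ℝ) : ℂ)) :=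
      lin_cont lam (ev_cont q) hp.cont
    have e1 := Vn_norm_le (g := fun y => ev q y - lam * ((p y : ℝ) : ℂ))
      (h := fun y => 1 / 2 * ‖lam‖ * p y) (continuous_const.mul hp.cont) h1 (a + 1) 1 mem_one
    rw [Vn_lin lam (ev_cont q) hp.cont, Vn_smul _ hp.cont] at e1
    refine e1.trans (le_of_eq ?_)
    rw [hW]
    ring
  intro h0
  have h8 : ev (U^[a + 1] q) 1 = 0 := by
    unfold ev
    rw [Complex.ofReal_one]
    exact h0
  have h9 : ‖lam * (W : ℂ)‖ = ‖lam‖ * W := by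
    rw [norm_mul, Complex.norm_real, Real.norm_of_nonneg hW0.le]
  have h10 : ‖lam‖ * W ≤ 1 / 4 * (‖lam‖ * W) + 1 / 2 * (‖lam‖ * W) := by
    calc ‖lam‖ * W = ‖lam * (W : ℂ)‖ := h9.symm
      _ = ‖-(ev (U^[a + 1] q) 1 - V^[a + 1] (ev q) 1) -
          (V^[a + 1] (ev q) 1 - lam * (W : ℂ))‖ := by
          rw [h8]
          congr 1
          ring
      _ ≤ ‖-(ev (U^[a + 1] q) 1 - V^[a + 1] (ev q) 1)‖ +
          ‖V^[a + 1] (ev q) 1 - lam * (W : ℂ)‖ := norm_sub_le _ _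
      _ ≤ _ := by
          rw [norm_neg]
          exact add_le_add h6 h7
  have h11 : 0 < ‖lam‖ * W := by positivity
  linarith

theorem root_free {ε : ℂ} {U : ℂ[X] → ℂ[X]} {R : ℕ} {K : ℝ} (hP : Par ε U R K) {a : ℕ}
    {l : List ℕ} (h : ∀ b ∈ a :: l, b + 1 ≤ R) : (U^[a + 1] (Qs ε U l)).eval 1 ≠ 0 :=
  final_ne hP (h a (by simp)) (Ps_prof l) (inv_all hP l (fun c hc => h c (by simp [hc])))

end Pool.Agent.Lib.FenceRB

end
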