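import Pool.Agent.Lib.MP_7d55f0_co.RBSum
import Pool.Agent.Lib.MP_7d55f0_co.AF.CountA

section

set_option autoImplicit false

namespace Pool.Agent.Lib.FenceRB

open Polynomial Finset
open Pool.Agent.Lib.FenceAF (bn co PP Short co_zero)
open Pool.Agent.Lib.FenceGlue (runs)

theorem bn_pascal (k : ℕ) (y : ℝ) :
    (bn (k + 1)).eval y = (bn (k + 1)).eval (y - 1) + (bn k).eval (y - 1) := by
  unfold bn
  simp only [eval_mul, eval_C, eval_prod, eval_sub, eval_X]
  rw [prod_range_succ' (fun i : ℕ => y - (i : ℝ)), prod_range_succ (fun i : ℕ => y - 1 - (i : ℝ))]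
  have h1 : ∏ i ∈ range k, (y - ((i + 1 : ℕ) : ℝ)) = ∏ i ∈ range k, (y - 1 - (i : ℝ)) := by
    apply prod_congr rfl
    intro i _
    push_cast
    ring
  rw [h1, Nat.factorial_succ]
  have h2 : (k.factorial : ℝ) ≠ 0 := by exact_mod_cast k.factorial_ne_zero
  have h3 : ((k : ℝ) + 1) ≠ 0 := by positivity
  push_cast
  field_simp
  ring

/-- the complex version -/
noncomputable def bc (k : ℕ) : ℂ[X] := (bn k).map Complex.ofRealHom

theorem bc_pascal (k : ℕ) : bc (k + 1) = (bc (k + 1)).comp (X - C 1) + (bc k).comp (X - C 1) := by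
  have h1 : bn (k + 1) = (bn (k + 1)).comp (X - C 1) + (bn k).comp (X - C 1) := by
    apply Polynomial.funext
    intro y
    rw [bn_pascal k y]
    simp
  have h2 := congrArg (Polynomial.map Complex.ofRealHom) h1
  rw [Polynomial.map_add, Polynomial.map_comp, Polynomial.map_comp] at h2
  have h3 : Polynomial.map Complex.ofRealHom (X - C 1) = X - C 1 := by simp
  rw [h3] at h2
  exact h2

theorem bc_pascal' (k : ℕ) (y : ℂ) :
    (bc (k + 1)).eval y = (bc (k + 1)).eval (y - 1) + (bc k).eval (y - 1) := by
  have h := congrArg (Polynomial.eval y) (bc_pascal k)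
  simpa using h

theorem bc_zero (k : ℕ) : (bc (k + 1)).eval 0 = 0 := by
  unfold bc
  rw [Polynomial.eval_zero_map]
  have h : (bn (k + 1)).eval 0 = 0 := by
    unfold bn
    rw [eval_mul, eval_prod, prod_eq_zero (mem_range.mpr (Nat.succ_pos k)), mul_zero]
    simp
  rw [h, map_zero]

theorem bc_nil : bc 0 = 1 := by
  unfold bc bn
  simp

theorem S_lin (c : ℕ → ℂ) (n : ℕ) : S (∑ k ∈ range n, C (c k) * (bc k).comp (X - C 1)) =
    ∑ k ∈ range n, C (c k) * bc (k + 1) := by
  apply S_unique
  · intro y
    simp only [eval_finsetSum, eval_mul, eval_C, eval_comp, eval_sub, eval_X]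
    rw [← sum_sub_distrib]
    apply sum_congr rfl
    intro k _
    rw [bc_pascal' k y]
    ring
  · simp only [eval_finsetSum, eval_mul, eval_C, bc_zero, mul_zero, sum_const_zero]

/-- the states of a word -/
noncomputable def gw (t : ℂ) : List Bool → ℂ[X]
  | [] => 1
  | false :: w => S (gw t w)
  | true :: w => J t (S (J t (gw t w)))

/-- the coefficients -/
noncomputable def cw (t : ℂ) (w : List Bool) (k : ℕ) : ℂ :=
  ((co w k).map Complex.ofRealHom).eval t

theorem gw_eq (t : ℂ) : ∀ w : List Bool,
    gw t w = ∑ k ∈ range (w.length + 1), C (cw t w k) * (bc k).comp (X - C 1)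
  | [] => by
    have h : cw t [] 0 = 1 := by
      unfold cw co
      simp
    simp only [List.length_nil, zero_add, range_one, sum_singleton]
    rw [h, bc_nil, one_comp]
    simp [gw]
  | false :: w => by
    have ih := gw_eq t w
    change S (gw t w) = _
    rw [ih, S_lin]
    have h1 : ∀ k, cw t (false :: w) k = cw t w k + (if k = 0 then 0 else cw t w (k - 1)) := by
      intro k
      unfold cw
      rw [co]
      split_ifs
      · simp
      · simp
    have h2 : cw t w (w.length + 1) = 0 := by
      unfold cw
      rw [co_zero w _ (Nat.lt_succ_self _)]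
      simp
    rw [List.length_cons]
    simp only [h1, C_add, add_mul, sum_add_distrib]
    rw [sum_range_succ (fun k => C (cw t w k) * (bc k).comp (X - C 1)) (w.length + 1), h2,
      sum_range_succ' (fun k => C (if k = 0 then 0 else cw t w (k - 1)) * (bc k).comp (X - C 1))]
    simp only [C_0, zero_mul, add_zero, if_true, Nat.add_eq_zero_iff, one_ne_zero, and_false,
      if_false, Nat.add_sub_cancel]
    rw [← sum_add_distrib]
    apply sum_congr rfl
    intro k _
    rw [← mul_add]
    congr 1
    exact (bc_pascal k).trans (add_comm _ _)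
  | true :: w => by
    have ih := gw_eq t w
    have hS : S (gw t w) = ∑ k ∈ range (w.length + 1), C (cw t w k) * bc (k + 1) := by
      rw [ih, S_lin]
    have h0 : cw t (true :: w) 0 = (S (gw t w)).eval t := by
      rw [hS]
      unfold cw bc
      rw [co]
      simp [Polynomial.map_sum, eval_finsetSum]
    have h1 : ∀ k, cw t (true :: w) (k + 1) = - cw t w k := by
      intro k
      unfold cw
      rw [co]
      simp
    apply Polynomial.funext
    intro y
    change (J t (S (J t (gw t w)))).eval y = _
    rw [J_eval, S_J, List.length_cons, sum_range_succ', h0, bc_nil]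
    have h2 : t - (t + 1 - y) = y - 1 := by ring
    rw [h2, hS]
    simp only [h1, eval_add, eval_finsetSum, eval_mul, eval_C, eval_comp, eval_sub, eval_X,
      eval_one, mul_one, neg_mul, sum_neg_distrib]
    ring

theorem PP_S (t : ℂ) (w : List Bool) :
    ((PP w).map Complex.ofRealHom).eval t = (S (gw t w)).eval t := by
  rw [gw_eq, S_lin]
  unfold PP cw bc
  simp [Polynomial.map_sum, eval_finsetSum]

theorem gw_false (t : ℂ) (v : List Bool) (n : ℕ) :
    gw t (List.replicate n false ++ v) = S^[n] (gw t v) := by
  induction n with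
  | zero => rfl
  | succ n ih =>
    rw [Function.iterate_succ_apply', ← ih]
    rfl

theorem gw_true (t : ℂ) (v : List Bool) (n : ℕ) :
    gw t (List.replicate n true ++ v) = J t (S^[n] (J t (gw t v))) := by
  induction n with
  | zero =>
    change gw t v = J t (J t (gw t v))
    rw [J_J]
  | succ n ih =>
    have h1 : gw t (List.replicate (n + 1) true ++ v) =
        J t (S (J t (gw t (List.replicate n true ++ v)))) := rfl
    rw [h1, ih, J_J, Function.iterate_succ_apply']

theorem gw_runs (t : ℂ) : ∀ (l : List ℕ) (e : Bool),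
    gw t (runs e (l.map (· + 1))) = if e then J t (gs t l) else gs t l
  | [], e => by
    have h : J t (gs t []) = 1 := by
      unfold J gs
      exact one_comp
    rw [h]
    cases e <;> rfl
  | a :: l, false => by
    change gw t (List.replicate (a + 1) false ++ runs true (l.map (· + 1))) = _
    rw [gw_false, gw_runs t l true]
    rfl
  | a :: l, true => by
    change gw t (List.replicate (a + 1) true ++ runs false (l.map (· + 1))) = _
    rw [gw_true, gw_runs t l false]
    rfl

theorem short_runs {R : ℕ} : ∀ w : List Bool, Short R w →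
    ∃ (e : Bool) (l : List ℕ), w = runs e (l.map (· + 1)) ∧ ∀ a ∈ l, a + 1 ≤ R
  | [], _ => ⟨false, [], rfl, by simp⟩
  | c :: w, h => by
    have h1 : Short R w := by
      intro d u v a hw
      apply h d (c :: u) v a
      rw [hw]
      rfl
    have hR : 1 ≤ R := h c [] w 1 rfl
    obtain ⟨e, l, hw, hl⟩ := short_runs w h1
    cases l with
    | nil =>
      refine ⟨c, [0], ?_, ?_⟩
      · rw [hw]
        rfl
      · intro a ha
        simp only [List.mem_singleton] at ha
        omega
    | cons a l =>
      by_cases hc : c = e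
      · subst hc
        have e1 : c :: w = [] ++ List.replicate (a + 1 + 1) c ++ runs (!c) (l.map (· + 1)) := by
          rw [hw]
          rfl
        refine ⟨c, (a + 1) :: l, ?_, ?_⟩
        · rw [hw]
          rfl
        · intro b hb
          rcases List.mem_cons.mp hb with hb | hb
          · rw [hb]
            exact h c [] _ (a + 1 + 1) e1
          · exact hl b (List.mem_cons_of_mem _ hb)
      · have he : e = !c := by
          cases c <;> cases e <;> simp_all
        refine ⟨c, 0 :: a :: l, ?_, ?_⟩
        · rw [hw, he]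
          rfl
        · intro b hb
          rcases List.mem_cons.mp hb with hb | hb
          · omega
          · exact hl b hb

/-- the zeros of the polynomial are bounded in terms of the longest run -/
theorem PP_ne_aux {R : ℕ} (hR : 1 ≤ R) (w : List Bool) (hw : Short R w) (t : ℂ)
    (ht : 2 ^ 14 * ((R : ℝ) + 1) ^ 7 ≤ ‖t‖) :
    ((PP w).map Complex.ofRealHom).eval t ≠ 0 := by
  have hR1 : (1 : ℝ) ≤ (R : ℝ) := by exact_mod_cast hR
  have hL : (0 : ℝ) < (R : ℝ) + 1 := by linarith
  have htpos : 0 < ‖t‖ := lt_of_lt_of_le (by positivity) ht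
  have ht0 : t ≠ 0 := norm_pos_iff.mp htpos
  obtain ⟨e, l, hwl, hl⟩ := short_runs w hw
  have key : ((PP w).map Complex.ofRealHom).eval t = (S (gs t l)).eval t := by
    rw [PP_S, hwl, gw_runs]
    cases e
    · rfl
    · exact S_J_end t (gs t l)
  rw [key]
  cases l with
  | nil =>
    have h : (S (gs t [])).eval t = t := by
      change (S 1).eval t = t
      rw [S_one, eval_X]
    rw [h]
    exact ht0
  | cons a l =>
    refine gs_ne (K := 54 * ((R : ℝ) + 1) ^ 2) (ε := t⁻¹) (inv_mul_cancel₀ ht0) hR rfl ?_ hl
    rw [norm_inv, inv_mul_le_iff₀ htpos]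
    have h1 : (2 : ℝ) ≤ (R : ℝ) + 1 := by linarith
    rw [mul_one_div, le_div_iff₀ (by positivity)]
    refine le_trans ?_ ht
    have h2 : (0 : ℝ) < ((R : ℝ) + 1) ^ 6 := by positivity
    calc 54 * ((R : ℝ) + 1) ^ 2 * (576 * ((R : ℝ) + 1) ^ 4)
        = 31104 * ((R : ℝ) + 1) ^ 6 := by ring
      _ ≤ 2 ^ 14 * (((R : ℝ) + 1) ^ 6 * ((R : ℝ) + 1)) := by nlinarith
      _ = _ := by ring

end Pool.Agent.Lib.FenceRB

end
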