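import Pool.Agent.Lib.MP_7d55f0_co.RBBlock

section

set_option autoImplicit false

namespace Pool.Agent.Lib.FenceRB

open MeasureTheory Set Polynomial

theorem pow_le_three {y : ℝ} (hy : 0 ≤ y) {m : ℕ} (h : (m : ℝ) * y ≤ 1) : (1 + y) ^ m ≤ 3 := by
  have h1 : 1 + y ≤ Real.exp y := by linarith [Real.add_one_le_exp y]
  calc (1 + y) ^ m ≤ (Real.exp y) ^ m := pow_le_pow_left₀ (by linarith) h1 m
    _ = Real.exp ((m : ℝ) * y) := by rw [← Real.exp_nat_mul]
    _ ≤ Real.exp 1 := Real.exp_le_exp.mpr h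
    _ ≤ 3 := by linarith [Real.exp_one_lt_d9]

theorem base_pow_le {L : ℝ} (hL : 0 < L) {m : ℕ} (hm : (m : ℝ) ≤ L) {z : ℝ}
    (hz : z ∈ Icc (0 : ℝ) 1) : (z + 1 / L) ^ m ≤ 3 := by
  have h1 : (z + 1 / L) ^ m ≤ (1 + 1 / L) ^ m := by
    apply pow_le_pow_left₀
    · have := hz.1
      positivity
    · linarith [hz.2]
  refine h1.trans (pow_le_three (by positivity) ?_)
  rw [mul_one_div, div_le_one hL]
  exact hm

theorem psi_le {L : ℝ} (hL : 0 < L) {m : ℕ} (hm : (m : ℝ) ≤ L) {z : ℝ}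
    (hz : z ∈ Icc (0 : ℝ) 1) : psi L m z ≤ 3 / (m.factorial : ℝ) := by
  unfold psi
  exact div_le_div_of_nonneg_right (base_pow_le hL hm hz) (by positivity)

theorem Phi_le {L K : ℝ} (hL : 0 < L) {a : ℕ} (ha : (a : ℝ) ≤ L) (hK : (a : ℝ) ≤ K) (k : ℕ)
    {z : ℝ} (hz : z ∈ Icc (0 : ℝ) 1) : Phi L K a k z ≤ 3 * K ^ k / (a.factorial : ℝ) := by
  have ha0 : (0 : ℝ) ≤ (a : ℝ) := Nat.cast_nonneg a
  unfold Phi
  split_ifs with h
  · have h1 : psi L (a - k) z ≤ 3 / ((a - k).factorial : ℝ) := by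
      apply psi_le hL _ hz
      refine le_trans ?_ ha
      exact_mod_cast Nat.sub_le a k
    refine h1.trans ?_
    rw [div_le_div_iff₀ (by positivity) (by positivity)]
    have h2 : ((a - k).factorial : ℝ) * (a.descFactorial k : ℝ) = (a.factorial : ℝ) := by
      exact_mod_cast Nat.factorial_mul_descFactorial h
    have h3 : (a.descFactorial k : ℝ) ≤ (a : ℝ) ^ k := by
      exact_mod_cast Nat.descFactorial_le_pow a k
    have h4 : (a : ℝ) ^ k ≤ K ^ k := pow_le_pow_left₀ ha0 hK k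
    rw [← h2]
    have h5 : (0 : ℝ) ≤ ((a - k).factorial : ℝ) := by positivity
    nlinarith [mul_le_mul_of_nonneg_left (h3.trans h4) h5]
  · rw [le_div_iff₀ (by positivity)]
    push Not at h
    have h1 : (a.factorial : ℝ) ≤ (a : ℝ) ^ a := by exact_mod_cast Nat.factorial_le_pow a
    have h2 : (a.factorial : ℝ) ≤ K ^ a := h1.trans (pow_le_pow_left₀ ha0 hK a)
    have h3 : K ^ k = K ^ (k - a) * K ^ a := by rw [← pow_add, Nat.sub_add_cancel h.le]
    rw [h3]
    have hK0 : 0 ≤ K := ha0.trans hK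
    have h4 : 0 ≤ K ^ (k - a) := by positivity
    have h5 : 0 ≤ K ^ a := by positivity
    nlinarith [mul_le_mul_of_nonneg_left h2 h4, mul_nonneg h4 h5]

theorem Prof.Vn_lower {p : ℝ → ℝ} (hp : Prof p) (m : ℕ) :
    ∀ x ∈ Icc (0 : ℝ) 1, p 1 * x ^ (m + 1) / ((m + 1).factorial : ℝ) ≤ V^[m] p x := by
  induction m with
  | zero =>
    intro x hx
    have := hp.lower hx
    simpa [mul_comm] using this
  | succ m ih =>
    intro x hx
    rw [Function.iterate_succ_apply']
    have h1 := V_mono (g := fun x => p 1 * x ^ (m + 1) / ((m + 1).factorial : ℝ)) (by fun_prop)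
      (Vn_cont hp.cont m) ih x hx
    refine le_trans (le_of_eq ?_) h1
    unfold V
    rw [intervalIntegral.integral_div, intervalIntegral.integral_const_mul, integral_pow,
      Nat.factorial_succ (m + 1)]
    rw [zero_pow (by omega), sub_zero]
    have h2 : ((m + 1).factorial : ℝ) ≠ 0 := by positivity
    have h3 : ((m : ℝ) + 1 + 1) ≠ 0 := by positivity
    push_cast
    field_simp

/-- one block: discrete versus continuous -/
theorem block {ε : ℂ} {U : ℂ[X] → ℂ[X]} (hU : Sum1 ε U) {R : ℕ} {a : ℕ} (ha : a + 1 ≤ R)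
    {K : ℝ} (hK : K = 54 * ((R : ℝ) + 1) ^ 2)
    (hε : ‖ε‖ * K ≤ 1 / (576 * ((R : ℝ) + 1) ^ 4)) {p : ℝ → ℝ} (hp : Prof p) {q : ℂ[X]} {N : ℝ}
    (hN : 0 ≤ N)
    (hq : ∀ k, ∀ x ∈ Icc (0 : ℝ) 1, ‖ev (derivative^[k] q) x‖ ≤ N * p 1 * K ^ k) :
    (∀ x ∈ Icc (0 : ℝ) 1, ‖ev (U (flip ε (U^[a] q))) x - B a (ev q) x‖ ≤
      1 / (32 * ((R : ℝ) + 1)) * N * B a p x) ∧
    (∀ k, ∀ x ∈ Icc (0 : ℝ) 1, ‖ev (derivative^[k + 1] (U (flip ε (U^[a] q)))) x‖ ≤
      1 / 2 * N * B a p 1 * K ^ (k + 1)) := by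
  set L : ℝ := (R : ℝ) + 1 with hLdef
  have hR1 : (1 : ℝ) ≤ (R : ℝ) := by exact_mod_cast (by omega : 1 ≤ R)
  have hL2 : 2 ≤ L := by linarith
  have hL0 : 0 < L := by linarith
  have haR : (a : ℝ) + 1 ≤ (R : ℝ) := by exact_mod_cast ha
  have ha0 : (0 : ℝ) ≤ (a : ℝ) := Nat.cast_nonneg a
  set r : ℝ := ‖ε‖ * K with hr
  have hK0 : 0 ≤ K := by rw [hK]; positivity
  have hr0 : 0 ≤ r := by rw [hr]; positivity
  have hL4 : 16 ≤ L ^ 4 := by
    have : (2 : ℝ) ^ 4 ≤ L ^ 4 := pow_le_pow_left₀ (by norm_num) hL2 4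
    linarith
  have hr3 : r ≤ 1 / 3 := by
    refine hε.trans ?_
    rw [div_le_div_iff₀ (by positivity) (by norm_num)]
    linarith
  have hL3 : 1 ≤ L ^ 3 := one_le_pow₀ (by linarith)
  have hr1 : r * L ≤ 1 := by
    have h1 : r * L ≤ 1 / (576 * L ^ 4) * L := mul_le_mul_of_nonneg_right hε hL0.le
    refine h1.trans ?_
    rw [div_mul_eq_mul_div, one_mul, div_le_one (by positivity)]
    nlinarith
  have hKL : (R : ℝ) * L ≤ K := by
    rw [hK]
    nlinarith
  have hM : 0 ≤ N * p 1 := mul_nonneg hN hp.pos.le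
  obtain ⟨hrun1, hrun2⟩ := run_bound hU hL0 hr hr3 hK0 hKL hM hq a (by omega)
  -- the constant `D`
  set D : ℝ := 9 * (N * p 1) / (a.factorial : ℝ) with hD
  have hD0 : 0 ≤ D := by rw [hD]; positivity
  have h1r : (1 + r) ^ a ≤ 3 := by
    apply pow_le_three hr0
    have : (a : ℝ) * r ≤ L * r := mul_le_mul_of_nonneg_right (by linarith) hr0
    linarith
  have haK : (a : ℝ) ≤ K := by
    have : (a : ℝ) ≤ (R : ℝ) * L := by nlinarith
    linarith
  have hf : ∀ k, ∀ z ∈ Icc (0 : ℝ) 1, ‖ev (derivative^[k] (U^[a] q)) z‖ ≤ D * K ^ k := by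
    intro k z hz
    refine (hrun1 k z hz).trans ?_
    have h1 := Phi_le hL0 (by linarith : (a : ℝ) ≤ L) haK k hz
    have h2 : 0 ≤ Phi L K a k z := Phi_nonneg hL0 hK0 a k hz.1
    calc (1 + r) ^ a * (N * p 1) * Phi L K a k z
        ≤ 3 * (N * p 1) * (3 * K ^ k / (a.factorial : ℝ)) := by
          apply mul_le_mul _ h1 h2 (by positivity)
          exact mul_le_mul_of_nonneg_right h1r hM
      _ = D * K ^ k := by rw [hD]; ring
  have hfa : ∀ z ∈ Icc (0 : ℝ) 1, ‖ev (U^[a] q) z - V^[a] (ev q) z‖ ≤ (a : ℝ) * r * D := by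
    intro z hz
    refine (hrun2 z hz).trans ?_
    have h1 := psi_le hL0 (by linarith : (a : ℝ) ≤ L) hz
    have h2 := psi_nonneg hL0 a hz.1
    apply mul_le_mul_of_nonneg_left _ (by positivity)
    calc (1 + r) ^ a * (N * p 1) * psi L a z ≤ 3 * (N * p 1) * (3 / (a.factorial : ℝ)) := by
          apply mul_le_mul _ h1 h2 (by positivity)
          exact mul_le_mul_of_nonneg_right h1r hM
      _ = D := by rw [hD]; ring
  -- the reflected polynomial
  have hflip : ∀ k, ∀ y ∈ Icc (0 : ℝ) 1,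
      ‖ev (derivative^[k] (flip ε (U^[a] q))) y -
        (-1) ^ k * ev (derivative^[k] (U^[a] q)) (1 - y)‖ ≤ 3 / 2 * r * (D * K ^ k) := by
    intro k y hy
    have e1 : ev (derivative^[k] (flip ε (U^[a] q))) y =
        (-1) ^ k * (derivative^[k] (U^[a] q)).eval (((1 - y : ℝ) : ℂ) + ε) := by
      unfold ev flip
      rw [iter_deriv_flip, eval_mul, eval_comp]
      simp only [eval_pow, eval_neg, eval_one, eval_sub, eval_C, eval_X]
      congr 2
      push_cast
      ring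
    rw [e1, ← mul_sub, norm_mul, norm_pow, norm_neg, norm_one, one_pow, one_mul,
      taylor_sum (derivative^[k] (U^[a] q)) (((1 - y : ℝ) : ℂ)) ε (Nat.lt_succ_self _)]
    refine (seqT (u := fun j => (derivative^[j] (derivative^[k] (U^[a] q))).eval (((1 - y : ℝ) : ℂ)))
      (b := fun j => D * K ^ (k + j)) (s := r) ?_ ?_ hr0 hr3 ?_).trans (le_of_eq ?_)
    · intro j
      positivity
    · intro j
      have := hf (k + j) (1 - y) (refl_mem hy)
      rw [← Function.iterate_add_apply, add_comm j k]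
      exact this
    · intro j
      have e : ‖ε‖ * (D * K ^ (k + (j + 1))) = r * (D * K ^ (k + j)) := by
        rw [hr, ← add_assoc, pow_succ]
        ring
      exact e.le
    · simp
  have hg : ∀ k, ∀ y ∈ Icc (0 : ℝ) 1, ‖ev (derivative^[k] (flip ε (U^[a] q))) y‖ ≤
      2 * D * K ^ k := by
    intro k y hy
    have h1 := hflip k y hy
    have h2 := hf k (1 - y) (refl_mem hy)
    have h3 : ‖(-1 : ℂ) ^ k * ev (derivative^[k] (U^[a] q)) (1 - y)‖ ≤ D * K ^ k := by
      rw [norm_mul, norm_pow, norm_neg, norm_one, one_pow, one_mul]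
      exact h2
    have h4 : 0 ≤ D * K ^ k := by positivity
    calc ‖ev (derivative^[k] (flip ε (U^[a] q))) y‖
        = ‖(ev (derivative^[k] (flip ε (U^[a] q))) y -
            (-1) ^ k * ev (derivative^[k] (U^[a] q)) (1 - y)) +
            (-1) ^ k * ev (derivative^[k] (U^[a] q)) (1 - y)‖ := by rw [sub_add_cancel]
      _ ≤ _ := norm_add_le _ _
      _ ≤ 3 / 2 * r * (D * K ^ k) + D * K ^ k := add_le_add h1 h3
      _ ≤ 2 * D * K ^ k := by nlinarith
  have hd : ∀ y ∈ Icc (0 : ℝ) 1, ∀ k,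
      ‖ev (derivative^[k + 1] (U (flip ε (U^[a] q)))) y‖ ≤ (1 + r) * (2 * D * K ^ k) ∧
      ‖ev (derivative^[k + 1] (U (flip ε (U^[a] q)))) y -
        ev (derivative^[k] (flip ε (U^[a] q))) y‖ ≤ r * (2 * D * K ^ k) := by
    intro y hy k
    refine disc hU.ne (hU.eq _) (y : ℂ) (b := fun k => 2 * D * K ^ k) (s := r)
      (fun k => by positivity) (fun k => hg k y hy) hr0 hr3 (fun k => ?_) k
    have e : ‖ε‖ * (2 * D * K ^ (k + 1)) = r * (2 * D * K ^ k) := by
      rw [hr, pow_succ]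
      ring
    exact e.le
  -- `D` against the next profile
  have hDp : D ≤ 9 * N * L ^ 2 * B a p 1 := by
    have h1 := hp.Vn_lower (a + 1) 1 mem_one
    rw [← B_one a, one_pow, mul_one] at h1
    have h2 : ((a + 1 + 1).factorial : ℝ) = ((a : ℝ) + 2) * (((a : ℝ) + 1) * (a.factorial : ℝ)) := by
      rw [Nat.factorial_succ, Nat.factorial_succ]
      push_cast
      ring
    have h3 : (0 : ℝ) < (a.factorial : ℝ) := by positivity
    rw [h2, div_le_iff₀ (by positivity)] at h1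
    rw [hD, div_le_iff₀ h3]
    have h4 : ((a : ℝ) + 2) * ((a : ℝ) + 1) ≤ L ^ 2 := by nlinarith
    have h5 : 0 < B a p 1 := (hp.B a).pos
    calc 9 * (N * p 1) ≤ 9 * (N * (B a p 1 * (((a : ℝ) + 2) * (((a : ℝ) + 1) * (a.factorial : ℝ))))) := by
          apply mul_le_mul_of_nonneg_left _ (by norm_num)
          exact mul_le_mul_of_nonneg_left h1 hN
      _ = 9 * N * (((a : ℝ) + 2) * ((a : ℝ) + 1)) * B a p 1 * (a.factorial : ℝ) := by ring
      _ ≤ 9 * N * L ^ 2 * B a p 1 * (a.factorial : ℝ) := by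
          apply mul_le_mul_of_nonneg_right _ h3.le
          apply mul_le_mul_of_nonneg_right _ h5.le
          exact mul_le_mul_of_nonneg_left h4 (by positivity)
  constructor
  · intro x hx
    rw [ev_eq_V (hU.zero _)]
    unfold B
    rw [V_sub (ev_cont _) (S0_cont (Vn_cont (ev_cont q) a))]
    have h1 : ∀ y ∈ Icc (0 : ℝ) 1,
        ‖ev (derivative (U (flip ε (U^[a] q)))) y - S0 (V^[a] (ev q)) y‖ ≤ ((a : ℝ) + 4) * r * D := by
      intro y hy
      have h2 := (hd y hy 0).2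
      have h3 := hflip 0 y hy
      have h4 := hfa (1 - y) (refl_mem hy)
      simp only [pow_zero, one_mul, mul_one, Function.iterate_zero, id_eq] at h2 h3
      have e : ev (derivative (U (flip ε (U^[a] q)))) y - S0 (V^[a] (ev q)) y =
          (ev (derivative (U (flip ε (U^[a] q)))) y - ev (flip ε (U^[a] q)) y) +
          (ev (flip ε (U^[a] q)) y - ev (U^[a] q) (1 - y)) +
          (ev (U^[a] q) (1 - y) - V^[a] (ev q) (1 - y)) := by
        unfold S0
        ring
      rw [e]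
      refine (norm_add₃_le).trans ?_
      have h5 : 0 ≤ r * D := mul_nonneg hr0 hD0
      have h6 : ‖ev (derivative (U (flip ε (U^[a] q)))) y - ev (flip ε (U^[a] q)) y‖ ≤
          r * (2 * D) := h2
      nlinarith
    have h2 := V_norm_le (h := fun _ => ((a : ℝ) + 4) * r * D) continuous_const h1 x hx
    refine h2.trans ?_
    have h3 : V (fun _ => ((a : ℝ) + 4) * r * D) x = x * (((a : ℝ) + 4) * r * D) := by
      unfold V
      rw [intervalIntegral.integral_const, smul_eq_mul, sub_zero]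
    rw [h3]
    have h4 := (hp.B a).lower hx
    have h5 : 0 ≤ x := hx.1
    have hBp : 0 < B a p 1 := (hp.B a).pos
    have h6 : ((a : ℝ) + 4) * r * D ≤ 1 / (32 * L) * N * B a p 1 := by
      have h7 : ((a : ℝ) + 4) * r ≤ 2 * L * (1 / (576 * L ^ 4)) := by
        apply mul_le_mul _ hε hr0 (by positivity)
        linarith
      calc ((a : ℝ) + 4) * r * D ≤ 2 * L * (1 / (576 * L ^ 4)) * (9 * N * L ^ 2 * B a p 1) :=
            mul_le_mul h7 hDp hD0 (by positivity)
        _ = 1 / (32 * L) * N * B a p 1 := by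
            field_simp
            ring
    calc x * (((a : ℝ) + 4) * r * D) ≤ x * (1 / (32 * L) * N * B a p 1) :=
          mul_le_mul_of_nonneg_left h6 h5
      _ = 1 / (32 * L) * N * (x * B a p 1) := by ring
      _ ≤ 1 / (32 * L) * N * B a p x :=
          mul_le_mul_of_nonneg_left h4 (by positivity)
  · intro k x hx
    refine ((hd x hx k).1).trans ?_
    have hBp : 0 < B a p 1 := (hp.B a).pos
    have h1 : (1 + r) * (2 * D * K ^ k) ≤ 3 * (9 * N * L ^ 2 * B a p 1) * K ^ k := by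
      have h2 : 0 ≤ K ^ k := by positivity
      have h3 : (1 + r) * (2 * D) ≤ 3 * (9 * N * L ^ 2 * B a p 1) := by nlinarith
      calc (1 + r) * (2 * D * K ^ k) = (1 + r) * (2 * D) * K ^ k := by ring
        _ ≤ _ := mul_le_mul_of_nonneg_right h3 h2
    refine h1.trans ?_
    rw [pow_succ K k]
    have h4 : 0 ≤ N * B a p 1 * K ^ k := by positivity
    have h5 : 3 * (9 * N * L ^ 2 * B a p 1) * K ^ k = 27 * L ^ 2 * (N * B a p 1 * K ^ k) := by ring
    have h6 : 1 / 2 * N * B a p 1 * (K ^ k * K) = K / 2 * (N * B a p 1 * K ^ k) := by ring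
    rw [h5, h6]
    apply mul_le_mul_of_nonneg_right _ h4
    rw [hK]
    nlinarith [sq_nonneg L]

end Pool.Agent.Lib.FenceRB

end
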