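import Pool.Agent.Lib.MP_7d55f0_co.RBInd

section

set_option autoImplicit false

namespace Pool.Agent.Lib.FenceRB

open Polynomial

theorem sum_exists (f : ℂ[X]) :
    ∃ F : ℂ[X], (∀ y, F.eval y - F.eval (y - 1) = f.eval y) ∧ F.eval 0 = 0 := by
  induction f using Polynomial.induction_on' with
  | add f g hf hg =>
    obtain ⟨F, h1, h2⟩ := hf
    obtain ⟨G, h3, h4⟩ := hg
    refine ⟨F + G, fun y => ?_, ?_⟩
    · rw [eval_add, eval_add, eval_add, ← h1, ← h3]
      ring
    · rw [eval_add, h2, h4, add_zero]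
  | monomial k c =>
    set P : ℂ[X] := (Polynomial.bernoulli (k + 1)).map (algebraMap ℚ ℂ) with hP
    have h1 : P.comp (1 + X) = P + (k + 1) • X ^ k := by
      have h2 := congrArg (Polynomial.map (algebraMap ℚ ℂ))
        (Polynomial.bernoulli_comp_one_add_X (k + 1))
      rw [Polynomial.map_comp] at h2
      simpa using h2
    have h3 : ∀ y : ℂ, P.eval (1 + y) = P.eval y + ((k : ℂ) + 1) * y ^ k := by
      intro y
      have h4 := congrArg (Polynomial.eval y) h1
      simpa using h4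
    have hk : ((k : ℂ) + 1) ≠ 0 := by exact_mod_cast k.succ_ne_zero
    refine ⟨C (c / ((k : ℂ) + 1)) * (P.comp (1 + X) - C (P.eval 1)), fun y => ?_, ?_⟩
    · have h5 := h3 y
      have h6 : (1 : ℂ) + (y - 1) = y := by ring
      simp only [eval_mul, eval_C, eval_sub, eval_comp, eval_add, eval_one, eval_X, eval_monomial]
      rw [h6, h5]
      field_simp
      ring
    · simp

theorem per_zero {F : ℂ[X]} (h : ∀ y, F.eval y = F.eval (y - 1)) (h0 : F.eval 0 = 0) : F = 0 := by
  apply Polynomial.eq_zero_of_infinite_isRoot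
  apply Set.infinite_of_injective_forall_mem (f := fun n : ℕ => (n : ℂ)) Nat.cast_injective
  intro n
  induction n with
  | zero => simpa using h0
  | succ n ih =>
    change F.eval (((n + 1 : ℕ) : ℂ)) = 0
    have h1 := h (((n + 1 : ℕ) : ℂ))
    have h2 : (((n + 1 : ℕ) : ℂ)) - 1 = (n : ℂ) := by
      push_cast
      ring
    rw [h1, h2]
    exact ih

/-- summation -/
noncomputable def S (f : ℂ[X]) : ℂ[X] := (sum_exists f).choose

theorem S_eq (f : ℂ[X]) (y : ℂ) : (S f).eval y - (S f).eval (y - 1) = f.eval y :=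
  (sum_exists f).choose_spec.1 y

theorem S_zero (f : ℂ[X]) : (S f).eval 0 = 0 := (sum_exists f).choose_spec.2

theorem S_unique {f F : ℂ[X]} (h : ∀ y, F.eval y - F.eval (y - 1) = f.eval y)
    (h0 : F.eval 0 = 0) : S f = F := by
  have h1 : S f - F = 0 := by
    apply per_zero
    · intro y
      have h2 := S_eq f y
      have h3 := h y
      rw [eval_sub, eval_sub]
      linear_combination h2 - h3
    · rw [eval_sub, S_zero, h0, sub_zero]
  exact sub_eq_zero.mp h1

theorem S_one : S 1 = X := by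
  apply S_unique
  · intro y
    simp
  · simp

theorem S_smul (c : ℂ) (f : ℂ[X]) : S (C c * f) = C c * S f := by
  apply S_unique
  · intro y
    have h := S_eq f y
    simp only [eval_mul, eval_C]
    rw [← h]
    ring
  · rw [eval_mul, S_zero, mul_zero]

/-- reflection -/
noncomputable def J (t : ℂ) (f : ℂ[X]) : ℂ[X] := f.comp (C (t + 1) - X)

theorem J_eval (t : ℂ) (f : ℂ[X]) (y : ℂ) : (J t f).eval y = f.eval (t + 1 - y) := by
  unfold J
  simp

theorem J_J (t : ℂ) (f : ℂ[X]) : J t (J t f) = f := by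
  apply Polynomial.funext
  intro y
  rw [J_eval, J_eval]
  congr 1
  ring

theorem S_J (t : ℂ) (f : ℂ[X]) (y : ℂ) :
    (S (J t f)).eval y = (S f).eval t - (S f).eval (t - y) := by
  have h1 : S (J t f) = C ((S f).eval t) - (S f).comp (C t - X) := by
    apply S_unique
    · intro z
      rw [J_eval]
      have h2 := S_eq f (t + 1 - z)
      have h3 : t + 1 - z - 1 = t - z := by ring
      have h4 : t - (z - 1) = t + 1 - z := by ring
      simp only [eval_sub, eval_C, eval_comp, eval_X]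
      rw [h3] at h2
      rw [h4, ← h2]
      ring
    · simp
  rw [h1]
  simp

theorem S_J_end (t : ℂ) (f : ℂ[X]) : (S (J t f)).eval t = (S f).eval t := by
  rw [S_J, sub_self, S_zero, sub_zero]

/-- the rescaled summation -/
noncomputable def Us (ε t : ℂ) (g : ℂ[X]) : ℂ[X] :=
  C ε * (S (g.comp (C ε * X))).comp (C t * X)

theorem Us_sum {ε t : ℂ} (h : ε * t = 1) : Sum1 ε (Us ε t) := by
  have hε : ε ≠ 0 := by
    intro h0
    rw [h0, zero_mul] at h
    exact zero_ne_one h
  refine ⟨hε, fun f => ?_, fun f => ?_, ?_⟩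
  · apply Polynomial.funext
    intro x
    unfold Us
    have h1 := S_eq (f.comp (C ε * X)) (t * x)
    simp only [eval_sub, eval_mul, eval_C, eval_comp, eval_X] at h1 ⊢
    have h2 : t * (x - ε) = t * x - 1 := by
      rw [mul_sub, mul_comm t ε, h]
    have h3 : ε * (t * x) = x := by rw [← mul_assoc, h, one_mul]
    rw [h3] at h1
    rw [h2, ← h1]
    ring
  · unfold Us
    simp [S_zero]
  · unfold Us
    rw [one_comp, S_one, X_comp, ← mul_assoc, ← C_mul, h, C_1, one_mul]

/-- rescaling -/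
noncomputable def sc (ε t : ℂ) (n : ℕ) (f : ℂ[X]) : ℂ[X] := C (ε ^ n) * f.comp (C t * X)

theorem Us_sc {ε t : ℂ} (h : ε * t = 1) (n : ℕ) (f : ℂ[X]) :
    Us ε t (sc ε t n f) = sc ε t (n + 1) (S f) := by
  have h1 : (sc ε t n f).comp (C ε * X) = C (ε ^ n) * f := by
    apply Polynomial.funext
    intro x
    unfold sc
    have h3 : t * (ε * x) = x := by rw [← mul_assoc, mul_comm t ε, h, one_mul]
    simp only [eval_mul, eval_C, eval_comp, eval_X, h3]
  unfold Us
  rw [h1, S_smul]
  unfold sc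
  rw [mul_comp, C_comp, ← mul_assoc, ← C_mul, pow_succ']

theorem Us_iter_sc {ε t : ℂ} (h : ε * t = 1) (n : ℕ) (f : ℂ[X]) (a : ℕ) :
    (Us ε t)^[a] (sc ε t n f) = sc ε t (n + a) (S^[a] f) := by
  induction a with
  | zero => rfl
  | succ a ih =>
    rw [Function.iterate_succ_apply', ih, Us_sc h, Function.iterate_succ_apply']
    rfl

theorem flip_sc {ε t : ℂ} (h : ε * t = 1) (n : ℕ) (f : ℂ[X]) :
    flip ε (sc ε t n f) = sc ε t n (J t f) := by
  apply Polynomial.funext
  intro x
  unfold flip sc J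
  have h3 : t * (1 + ε - x) = t + 1 - t * x := by
    rw [mul_sub, mul_add, mul_comm t ε, h, mul_one]
  simp only [eval_mul, eval_C, eval_comp, eval_X, eval_sub, h3]

/-- the states, without rescaling -/
noncomputable def gs (t : ℂ) : List ℕ → ℂ[X]
  | [] => 1
  | a :: l => S^[a + 1] (J t (gs t l))

theorem Qs_sc {ε t : ℂ} (h : ε * t = 1) : ∀ l : List ℕ,
    ∃ n, Qs ε (Us ε t) l = sc ε t n (S (J t (gs t l)))
  | [] => by
    refine ⟨1, ?_⟩
    have h1 : J t (gs t []) = 1 := by
      unfold J gs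
      exact one_comp
    rw [h1, S_one]
    unfold Qs sc
    rw [X_comp, pow_one, ← mul_assoc, ← C_mul, h, C_1, one_mul]
  | a :: l => by
    obtain ⟨n, hn⟩ := Qs_sc h l
    refine ⟨n + a + 1, ?_⟩
    change Us ε t (flip ε ((Us ε t)^[a] (Qs ε (Us ε t) l))) = _
    rw [hn, Us_iter_sc h, flip_sc h, Us_sc h]
    congr 3

/-- the value at `t` -/
theorem gs_ne {R : ℕ} {K : ℝ} {ε t : ℂ} (h : ε * t = 1) (hR : 1 ≤ R)
    (hK : K = 54 * ((R : ℝ) + 1) ^ 2) (hε : ‖ε‖ * K ≤ 1 / (576 * ((R : ℝ) + 1) ^ 4)) {a : ℕ}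
    {l : List ℕ} (hl : ∀ b ∈ a :: l, b + 1 ≤ R) : (S (gs t (a :: l))).eval t ≠ 0 := by
  have h1 := root_free ⟨Us_sum h, hR, hK, hε⟩ hl
  obtain ⟨n, hn⟩ := Qs_sc h l
  rw [hn, Us_iter_sc h] at h1
  have e : S^[a + 1] (S (J t (gs t l))) = S (gs t (a :: l)) := by
    change S^[a + 1] (S (J t (gs t l))) = S (S^[a + 1] (J t (gs t l)))
    exact (Function.iterate_succ_apply S (a + 1) _).symm.trans
      (Function.iterate_succ_apply' S (a + 1) _)
  rw [e] at h1
  unfold sc at h1
  simp only [eval_mul, eval_C, eval_comp, eval_X, mul_one] at h1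
  exact right_ne_zero_of_mul h1

end Pool.Agent.Lib.FenceRB

end
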