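import Mathlib

section

set_option autoImplicit false

namespace Pool.Agent.Lib.ThreeRun

open Finset

/-- the relation of a step -/
def stp (e : Bool) (x y : ℕ) : Prop := (e = true → x ≤ y) ∧ (e = false → y ≤ x)

instance (e : Bool) (x y : ℕ) : Decidable (stp e x y) := by unfold stp; infer_instance

/-- number of continuations of length `n` from the value `j` -/
def GG (m : ℕ) : (ℕ → Bool) → ℕ → ℕ → ℕ
  | _, 0, _ => 1
  | s, n + 1, j => ∑ j' ∈ (range (m + 1)).filter (fun j' => stp (s 0) j j'), GG m (fun i => s (i + 1)) n j'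

/-- words with the step conditions and a condition on the first letter -/
private def trPr (m : ℕ) (s : ℕ → Bool) (R : ℕ → Prop) (n : ℕ) (g : Fin n → Fin (m + 1)) : Prop :=
  (∀ h : 0 < n, R (g ⟨0, h⟩).val) ∧
    ∀ (l : ℕ) (h : l + 1 < n), stp (s l) (g ⟨l, Nat.lt_of_succ_lt h⟩).val (g ⟨l + 1, h⟩).val

private def trEquiv (m : ℕ) (s : ℕ → Bool) (R : ℕ → Prop) (n : ℕ) :
    {g : Fin (n + 1) → Fin (m + 1) // trPr m s R (n + 1) g} ≃
    Σ j : {j : Fin (m + 1) // R j.val},
      {g : Fin n → Fin (m + 1) // trPr m (fun i => s (i + 1)) (stp (s 0) j.1.val) n g} where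
  toFun g := ⟨⟨g.1 0, g.2.1 (Nat.succ_pos n)⟩, ⟨fun l => g.1 l.succ, by
    refine ⟨fun h => ?_, fun l h => ?_⟩
    · have h1 := g.2.2 0 (by omega)
      have h2 : (⟨0, Nat.lt_of_succ_lt (by omega : 0 + 1 < n + 1)⟩ : Fin (n + 1)) = 0 := rfl
      have h3 : (⟨0 + 1, by omega⟩ : Fin (n + 1)) = Fin.succ ⟨0, h⟩ := rfl
      rw [h2, h3] at h1
      exact h1
    · exact g.2.2 (l + 1) (by omega)⟩⟩
  invFun x := ⟨Fin.cons x.1.1 x.2.1, by
    obtain ⟨⟨j, hj⟩, ⟨g, hg⟩⟩ := x
    refine ⟨fun h => ?_, fun l h => ?_⟩
    · have h2 : (⟨0, h⟩ : Fin (n + 1)) = 0 := rfl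
      rw [h2, Fin.cons_zero]
      exact hj
    · cases l with
      | zero =>
        have h2 : (⟨0, Nat.lt_of_succ_lt h⟩ : Fin (n + 1)) = 0 := rfl
        have h4 : 0 < n := by omega
        have h3 : (⟨0 + 1, h⟩ : Fin (n + 1)) = Fin.succ ⟨0, h4⟩ := rfl
        rw [h2, h3, Fin.cons_zero, Fin.cons_succ]
        exact hg.1 h4
      | succ l =>
        have h4 : l + 1 < n := by omega
        have h2 : (⟨l + 1, Nat.lt_of_succ_lt h⟩ : Fin (n + 1)) =
            Fin.succ ⟨l, Nat.lt_of_succ_lt h4⟩ := rfl
        have h3 : (⟨l + 1 + 1, h⟩ : Fin (n + 1)) = Fin.succ ⟨l + 1, h4⟩ := rfl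
        rw [h2, h3, Fin.cons_succ, Fin.cons_succ]
        exact hg.2 l h4⟩
  left_inv g := by
    apply Subtype.ext
    funext l
    refine Fin.cases ?_ (fun l' => ?_) l
    · rfl
    · rfl
  right_inv x := by
    obtain ⟨⟨j, hj⟩, ⟨g, hg⟩⟩ := x
    rfl

private theorem tr_card (m : ℕ) : ∀ (n : ℕ) (s : ℕ → Bool) (R : ℕ → Prop) [DecidablePred R],
    Nat.card {g : Fin (n + 1) → Fin (m + 1) // trPr m s R (n + 1) g} =
      ∑ j ∈ (range (m + 1)).filter R, GG m s n j := by
  classical
  intro n
  induction n with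
  | zero =>
    intro s R _
    rw [Nat.card_congr (trEquiv m s R 0), Nat.card_sigma]
    have h0 : ∀ j : {j : Fin (m + 1) // R j.val}, Nat.card {g : Fin 0 → Fin (m + 1) //
        trPr m (fun i => s (i + 1)) (stp (s 0) j.1.val) 0 g} = 1 := by
      intro j
      have : Unique {g : Fin 0 → Fin (m + 1) //
          trPr m (fun i => s (i + 1)) (stp (s 0) j.1.val) 0 g} :=
        { default := ⟨fun l => l.elim0, fun h => absurd h (lt_irrefl 0),
            fun l h => absurd h (by omega)⟩
          uniq := fun g => Subtype.ext (funext fun l => l.elim0) }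
      rw [Nat.card_unique]
    simp only [h0]
    refine Finset.sum_nbij (fun a => a.1.val) ?_ ?_ ?_ ?_
    · intro a _
      rw [Finset.mem_filter, Finset.mem_range]
      exact ⟨a.1.isLt, a.2⟩
    · intro a _ b _ hab
      exact Subtype.ext (Fin.ext hab)
    · intro j hj
      rw [Finset.mem_coe, Finset.mem_filter, Finset.mem_range] at hj
      exact ⟨⟨⟨j, hj.1⟩, hj.2⟩, Finset.mem_coe.2 (Finset.mem_univ _), rfl⟩
    · intro a _
      rfl
  | succ n ih =>
    intro s R _
    rw [Nat.card_congr (trEquiv m s R (n + 1)), Nat.card_sigma]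
    have h0 : ∀ j : {j : Fin (m + 1) // R j.val}, Nat.card {g : Fin (n + 1) → Fin (m + 1) //
        trPr m (fun i => s (i + 1)) (stp (s 0) j.1.val) (n + 1) g} = GG m s (n + 1) j.1.val := by
      intro j
      rw [ih]
      rfl
    simp only [h0]
    refine Finset.sum_nbij (fun a => a.1.val) ?_ ?_ ?_ ?_
    · intro a _
      rw [Finset.mem_filter, Finset.mem_range]
      exact ⟨a.1.isLt, a.2⟩
    · intro a _ b _ hab
      exact Subtype.ext (Fin.ext hab)
    · intro j hj
      rw [Finset.mem_coe, Finset.mem_filter, Finset.mem_range] at hj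
      exact ⟨⟨⟨j, hj.1⟩, hj.2⟩, Finset.mem_coe.2 (Finset.mem_univ _), rfl⟩
    · intro a _
      rfl

/-- The number of order preserving maps as a sum over the first value. -/
theorem card_eq_sum (n m : ℕ) (s : ℕ → Bool) :
    Nat.card {f : Fin (n + 1) → Fin (m + 1) //
              ∀ i : Fin (n + 1), ∀ hi : i.val + 1 < n + 1,
                (s i.val = true → f i ≤ f ⟨i.val + 1, hi⟩) ∧
                (s i.val = false → f ⟨i.val + 1, hi⟩ ≤ f i)} =
      ∑ j ∈ range (m + 1), GG m s n j := by
  classical
  have h1 := tr_card m n s (fun _ => True)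
  rw [Finset.filter_true_of_mem (by simp)] at h1
  rw [← h1]
  refine Nat.card_congr (Equiv.subtypeEquivRight fun f => ?_)
  constructor
  · intro hf
    refine ⟨fun _ => trivial, fun l h => ?_⟩
    have h2 := hf ⟨l, Nat.lt_of_succ_lt h⟩ h
    exact ⟨fun e => h2.1 e, fun e => h2.2 e⟩
  · rintro ⟨-, hf⟩ ⟨l, hl⟩ hi
    have h2 := hf l hi
    exact ⟨fun e => h2.1 e, fun e => h2.2 e⟩

theorem GG_congr (m : ℕ) : ∀ (n : ℕ) (s s' : ℕ → Bool) (j : ℕ), (∀ i, i < n → s i = s' i) →
    GG m s n j = GG m s' n j := by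
  intro n
  induction n with
  | zero => intro s s' j _; rfl
  | succ n ih =>
    intro s s' j h
    unfold GG
    rw [h 0 (by omega)]
    exact Finset.sum_congr rfl fun j' _ => ih _ _ _ fun i hi => h (i + 1) (by omega)

/-- going down -/
def dn (φ : ℕ → ℕ) (v : ℕ) : ℕ := ∑ i ∈ range (v + 1), φ i

theorem dn_iter_congr (b : ℕ) : ∀ (φ ψ : ℕ → ℕ) (v : ℕ), (∀ i, i ≤ v → φ i = ψ i) →
    dn^[b] φ v = dn^[b] ψ v := by
  induction b with
  | zero => intro φ ψ v h; exact h v le_rfl
  | succ b ih =>
    intro φ ψ v h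
    rw [Function.iterate_succ_apply, Function.iterate_succ_apply]
    apply ih
    intro i hi
    unfold dn
    refine Finset.sum_congr rfl fun j hj => h j ?_
    rw [Finset.mem_range] at hj
    omega

theorem GG_up_tail (m : ℕ) : ∀ (c : ℕ) (s : ℕ → Bool) (j : ℕ), (∀ i, i < c → s i = true) → j ≤ m →
    GG m s c j = (m - j + c).choose c := by
  intro c
  induction c with
  | zero => intro s j _ _; simp [GG]
  | succ c ih =>
    intro s j h hj
    unfold GG
    rw [h 0 (by omega)]
    have h1 : (range (m + 1)).filter (fun j' => stp true j j') = Finset.Ico j (m + 1) := by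
      ext x
      simp only [Finset.mem_filter, Finset.mem_range, Finset.mem_Ico, stp]
      simp only [forall_true_left, Bool.true_eq_false, false_imp_iff, and_true]
      omega
    rw [h1]
    have h2 : ∀ x ∈ Finset.Ico j (m + 1), GG m (fun i => s (i + 1)) c x = (m - x + c).choose c := by
      intro x hx
      rw [Finset.mem_Ico] at hx
      exact ih _ _ (fun i hi => h (i + 1) (by omega)) (by omega)
    rw [Finset.sum_congr rfl h2, Finset.sum_Ico_eq_sum_range]
    have h3 : ∀ x ∈ range (m + 1 - j), (m - (j + x) + c).choose c =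
        (fun y => (c + y).choose c) (m + 1 - j - 1 - x) := by
      intro x hx
      rw [Finset.mem_range] at hx
      simp only
      congr 1
      omega
    rw [Finset.sum_congr rfl h3, Finset.sum_range_reflect (fun y => (c + y).choose c)]
    have h4 : m + 1 - j = (m - j) + 1 := by omega
    rw [h4]
    clear h2 h3 h1
    induction (m - j) with
    | zero => simp
    | succ d ihd =>
      rw [Finset.sum_range_succ, ihd]
      have h5 : d + 1 + (c + 1) = (d + (c + 1)) + 1 := by ring
      rw [h5, Nat.choose_succ_succ, show c + (d + 1) = d + (c + 1) by ring]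
      ring

theorem GG_down (m : ℕ) (n : ℕ) : ∀ (b : ℕ) (s : ℕ → Bool) (j : ℕ), (∀ i, i < b → s i = false) →
    j ≤ m → GG m s (b + n) j = dn^[b] (GG m (fun i => s (i + b)) n) j := by
  intro b
  induction b with
  | zero => intro s j _ _; simp
  | succ b ih =>
    intro s j h hj
    rw [show b + 1 + n = (b + n) + 1 by ring, Function.iterate_succ_apply']
    unfold GG
    rw [h 0 (by omega)]
    have h1 : (range (m + 1)).filter (fun j' => stp false j j') = range (j + 1) := by
      ext x
      simp only [Finset.mem_filter, Finset.mem_range, stp]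
      simp only [forall_true_left, Bool.false_eq_true, false_imp_iff, true_and]
      omega
    rw [h1]
    change _ = ∑ i ∈ range (j + 1), _
    refine Finset.sum_congr rfl fun x hx => ?_
    rw [Finset.mem_range] at hx
    rw [ih (fun i => s (i + 1)) x (fun i hi => h (i + 1) (by omega)) (by omega)]
    congr 2

theorem sum_up_step (m i : ℕ) (G : ℕ → ℕ) :
    ∑ j ∈ range (m + 1), (j + i).choose i * ∑ j' ∈ Finset.Ico j (m + 1), G j' =
      ∑ j ∈ range (m + 1), (j + (i + 1)).choose (i + 1) * G j := by
  have h1 : ∀ j ∈ range (m + 1), (j + i).choose i * ∑ j' ∈ Finset.Ico j (m + 1), G j' =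
      ∑ j' ∈ range (m + 1), if j ≤ j' then (j + i).choose i * G j' else 0 := by
    intro j _
    rw [Finset.mul_sum, ← Finset.sum_filter]
    apply Finset.sum_congr _ fun _ _ => rfl
    ext x
    simp only [Finset.mem_filter, Finset.mem_range, Finset.mem_Ico]
    omega
  rw [Finset.sum_congr rfl h1, Finset.sum_comm]
  refine Finset.sum_congr rfl fun j' hj' => ?_
  rw [Finset.mem_range] at hj'
  have h2 : ∑ x ∈ range (m + 1), (if x ≤ j' then (x + i).choose i * G j' else 0) =
      (∑ x ∈ range (j' + 1), (x + i).choose i) * G j' := by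
    rw [Finset.sum_mul, ← Finset.sum_filter]
    apply Finset.sum_congr _ fun _ _ => rfl
    ext x
    simp only [Finset.mem_filter, Finset.mem_range]
    omega
  rw [h2]
  congr 1
  clear h2 hj' h1
  induction j' with
  | zero => simp
  | succ d ihd =>
    rw [Finset.sum_range_succ, ihd]
    have h5 : d + 1 + (i + 1) = (d + (i + 1)) + 1 := by ring
    rw [h5, Nat.choose_succ_succ, show d + 1 + i = d + (i + 1) by ring]
    ring

theorem sum_up (m : ℕ) (n : ℕ) : ∀ (a : ℕ) (i : ℕ) (s : ℕ → Bool), (∀ l, l < a → s l = true) →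
    ∑ j ∈ range (m + 1), (j + i).choose i * GG m s (a + n) j =
      ∑ j ∈ range (m + 1), (j + (i + a)).choose (i + a) * GG m (fun l => s (l + a)) n j := by
  intro a
  induction a with
  | zero => intro i s _; simp
  | succ a ih =>
    intro i s h
    have h0 : ∀ j ∈ range (m + 1), (j + i).choose i * GG m s (a + 1 + n) j =
        (j + i).choose i * ∑ j' ∈ Finset.Ico j (m + 1), GG m (fun l => s (l + 1)) (a + n) j' := by
      intro j _
      congr 1
      rw [show a + 1 + n = (a + n) + 1 by ring]
      conv_lhs => unfold GG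
      rw [h 0 (by omega)]
      have h1 : (range (m + 1)).filter (fun j' => stp true j j') = Finset.Ico j (m + 1) := by
        ext x
        simp only [Finset.mem_filter, Finset.mem_range, Finset.mem_Ico, stp]
        simp only [forall_true_left, Bool.true_eq_false, false_imp_iff, and_true]
        omega
      rw [h1]
    rw [Finset.sum_congr rfl h0, sum_up_step,
      ih (i + 1) (fun l => s (l + 1)) (fun l hl => h (l + 1) (by omega))]
    refine Finset.sum_congr rfl fun j _ => ?_
    rw [show i + 1 + a = i + (a + 1) by ring]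
    congr 2

/-- the count of a three-run fence -/
def NN (b a c m : ℕ) : ℕ :=
  ∑ v ∈ range (m + 1), (v + a).choose a * dn^[b] (fun v' => (m - v' + c).choose c) v

theorem sum_GG_eq (a b c m : ℕ) (s : ℕ → Bool) (h1 : ∀ i, i < a → s i = true)
    (h2 : ∀ i, a ≤ i → i < a + b → s i = false) (h3 : ∀ i, a + b ≤ i → i < a + b + c → s i = true) :
    ∑ j ∈ range (m + 1), GG m s (a + b + c) j = NN b a c m := by
  have e1 := sum_up m (b + c) a 0 s h1
  simp only [add_zero, Nat.choose_zero_right, one_mul, zero_add] at e1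
  rw [show a + b + c = a + (b + c) by ring, e1]
  unfold NN
  refine Finset.sum_congr rfl fun j hj => ?_
  rw [Finset.mem_range] at hj
  congr 1
  rw [GG_down m c b _ j (fun i hi => h2 (i + a) (by omega) (by omega)) (by omega)]
  apply dn_iter_congr
  intro i hi
  exact GG_up_tail m c _ i (fun l hl => h3 (l + b + a) (by omega) (by omega)) (by omega)

/-- The count for a three-run pattern, first step up. -/
theorem card_up (a b c m : ℕ) (s : ℕ → Bool) (h1 : ∀ i, i < a → s i = true)
    (h2 : ∀ i, a ≤ i → i < a + b → s i = false) (h3 : ∀ i, a + b ≤ i → i < a + b + c → s i = true) :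
    Nat.card {f : Fin (a + b + c + 1) → Fin (m + 1) //
              ∀ i : Fin (a + b + c + 1), ∀ hi : i.val + 1 < a + b + c + 1,
                (s i.val = true → f i ≤ f ⟨i.val + 1, hi⟩) ∧
                (s i.val = false → f ⟨i.val + 1, hi⟩ ≤ f i)} = NN b a c m := by
  rw [card_eq_sum, sum_GG_eq a b c m s h1 h2 h3]

/-- Complementation. -/
theorem card_compl (n m : ℕ) (s : ℕ → Bool) :
    Nat.card {f : Fin n → Fin (m + 1) //
              ∀ i : Fin n, ∀ hi : i.val + 1 < n,
                (s i.val = true → f i ≤ f ⟨i.val + 1, hi⟩) ∧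
                (s i.val = false → f ⟨i.val + 1, hi⟩ ≤ f i)} =
    Nat.card {f : Fin n → Fin (m + 1) //
              ∀ i : Fin n, ∀ hi : i.val + 1 < n,
                ((!(s i.val)) = true → f i ≤ f ⟨i.val + 1, hi⟩) ∧
                ((!(s i.val)) = false → f ⟨i.val + 1, hi⟩ ≤ f i)} := by
  have e : (Fin n → Fin (m + 1)) ≃ (Fin n → Fin (m + 1)) :=
    Equiv.piCongrRight (fun _ => Fin.revPerm)
  refine Nat.card_congr (Equiv.subtypeEquiv
    (Equiv.piCongrRight (fun _ : Fin n => (Fin.revPerm : Fin (m + 1) ≃ Fin (m + 1)))) (fun f => ?_))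
  have h0 : ∀ i, (Equiv.piCongrRight (fun _ : Fin n => (Fin.revPerm : Fin (m + 1) ≃ Fin (m + 1)))) f i =
      Fin.rev (f i) := fun i => rfl
  constructor
  · intro hf i hi
    have h1 := hf i hi
    rw [h0, h0, Fin.rev_le_rev, Fin.rev_le_rev]
    refine ⟨fun h => h1.2 (by simpa using h), fun h => h1.1 (by simpa using h)⟩
  · intro hf i hi
    have h1 := hf i hi
    rw [h0, h0, Fin.rev_le_rev, Fin.rev_le_rev] at h1
    refine ⟨fun h => h1.2 (by simpa using h), fun h => h1.1 (by simpa using h)⟩

end Pool.Agent.Lib.ThreeRun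
end

section

set_option autoImplicit false

namespace Pool.Agent.Lib.ThreeRun

open Polynomial

/-- no zero in the open upper half plane -/
def HS (p : ℂ[X]) : Prop := ∀ z : ℂ, 0 < z.im → p.eval z ≠ 0

/-- no zero in the open lower half plane -/
def HSm (p : ℂ[X]) : Prop := ∀ z : ℂ, z.im < 0 → p.eval z ≠ 0

theorem HS.ne_zero {p : ℂ[X]} (h : HS p) : p ≠ 0 := by
  rintro rfl
  exact h Complex.I (by simp) (by simp)

theorem HSm.ne_zero {p : ℂ[X]} (h : HSm p) : p ≠ 0 := by
  rintro rfl
  exact h (-Complex.I) (by simp) (by simp)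

theorem HS.root_im {p : ℂ[X]} (h : HS p) {ζ : ℂ} (hζ : ζ ∈ p.roots) : ζ.im ≤ 0 := by
  by_contra hcon
  push Not at hcon
  exact h ζ hcon (isRoot_of_mem_roots hζ)

theorem HSm.root_im {p : ℂ[X]} (h : HSm p) {ζ : ℂ} (hζ : ζ ∈ p.roots) : 0 ≤ ζ.im := by
  by_contra hcon
  push Not at hcon
  exact h ζ hcon (isRoot_of_mem_roots hζ)

theorem hs_of_const {c : ℂ} (hc : c ≠ 0) : HS (C c) := fun z _ => by simpa using hc

theorem hsm_of_const {c : ℂ} (hc : c ≠ 0) : HSm (C c) := fun z _ => by simpa using hc

/-- the imaginary part of a sum over a multiset is negative if all terms are -/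
theorem multiset_sum_im_neg {ι : Type*} (f : ι → ℂ) (s : Multiset ι) :
    (∀ a ∈ s, (f a).im < 0) → ((s.map f).sum).im ≤ 0 ∧ (s ≠ 0 → ((s.map f).sum).im < 0) := by
  induction s using Multiset.induction_on with
  | empty => intro _; simp
  | cons a s ih =>
    intro h
    have h1 := h a (Multiset.mem_cons_self a s)
    have h2 := (ih (fun b hb => h b (Multiset.mem_cons_of_mem hb))).1
    rw [Multiset.map_cons, Multiset.sum_cons, Complex.add_im]
    exact ⟨by linarith, fun _ => by linarith⟩

theorem multiset_sum_im_pos {ι : Type*} (f : ι → ℂ) (s : Multiset ι) :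
    (∀ a ∈ s, 0 < (f a).im) → 0 ≤ ((s.map f).sum).im ∧ (s ≠ 0 → 0 < ((s.map f).sum).im) := by
  induction s using Multiset.induction_on with
  | empty => intro _; simp
  | cons a s ih =>
    intro h
    have h1 := h a (Multiset.mem_cons_self a s)
    have h2 := (ih (fun b hb => h b (Multiset.mem_cons_of_mem hb))).1
    rw [Multiset.map_cons, Multiset.sum_cons, Complex.add_im]
    exact ⟨by linarith, fun _ => by linarith⟩

theorem inv_im_neg {u : ℂ} (h : 0 < u.im) : (1 / u).im < 0 := by
  rw [one_div, Complex.inv_im]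
  have : 0 < Complex.normSq u := Complex.normSq_pos.2 (by rintro rfl; simp at h)
  exact div_neg_of_neg_of_pos (by linarith) this

theorem inv_im_pos {u : ℂ} (h : u.im < 0) : 0 < (1 / u).im := by
  rw [one_div, Complex.inv_im]
  have : 0 < Complex.normSq u := Complex.normSq_pos.2 (by rintro rfl; simp at h)
  exact div_pos (by linarith) this

/-- The logarithmic derivative maps the upper half plane to the lower one. -/
theorem HS.logDeriv_im {p : ℂ[X]} (h : HS p) (hd : p.natDegree ≠ 0) {z : ℂ} (hz : 0 < z.im) :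
    ((derivative p).eval z / p.eval z).im < 0 := by
  rw [(IsAlgClosed.splits p).eval_derivative_div_eval_of_ne_zero (h z hz)]
  refine (multiset_sum_im_neg (fun ζ => 1 / (z - ζ)) p.roots fun ζ hζ => ?_).2 ?_
  · apply inv_im_neg
    have := h.root_im hζ
    rw [Complex.sub_im]
    linarith
  · exact (IsAlgClosed.splits p).roots_ne_zero hd

theorem HSm.logDeriv_im {p : ℂ[X]} (h : HSm p) (hd : p.natDegree ≠ 0) {z : ℂ} (hz : z.im < 0) :
    0 < ((derivative p).eval z / p.eval z).im := by
  rw [(IsAlgClosed.splits p).eval_derivative_div_eval_of_ne_zero (h z hz)]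
  refine (multiset_sum_im_pos (fun ζ => 1 / (z - ζ)) p.roots fun ζ hζ => ?_).2 ?_
  · apply inv_im_pos
    have := h.root_im hζ
    rw [Complex.sub_im]
    linarith
  · exact (IsAlgClosed.splits p).roots_ne_zero hd

/-- The derivative of a polynomial without zeros in the upper half plane has none either. -/
theorem HS.derivative {p : ℂ[X]} (h : HS p) (hd : p.natDegree ≠ 0) : HS (derivative p) := by
  intro z hz hcon
  have := h.logDeriv_im hd hz
  rw [hcon] at this
  simp at this

theorem natDegree_iter (p : ℂ[X]) (k : ℕ) :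
    (Polynomial.derivative^[k] p).natDegree = p.natDegree - k := by
  induction k with
  | zero => simp
  | succ k ih =>
    rw [Function.iterate_succ_apply', natDegree_derivative, ih]
    omega

theorem HS.iterate_derivative {p : ℂ[X]} (h : HS p) {k : ℕ} (hd : k ≤ p.natDegree) :
    HS (Polynomial.derivative^[k] p) := by
  induction k with
  | zero => exact h
  | succ k ih =>
    rw [Function.iterate_succ_apply']
    apply (ih (by omega)).derivative
    intro hcon
    rw [natDegree_iter] at hcon
    omega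

/-- The operator `D - ζ` with `Im ζ ≤ 0` on polynomials without zeros in the lower half plane. -/
theorem HSm.sub_mul {q : ℂ[X]} (hq : HSm q) {ζ : ℂ} (hζ : ζ.im ≤ 0) :
    HSm (Polynomial.derivative q - C ζ * q) ∨ Polynomial.derivative q - C ζ * q = 0 := by
  by_cases hd : q.natDegree = 0
  · obtain ⟨c, rfl⟩ : ∃ c, q = C c := ⟨q.coeff 0, eq_C_of_natDegree_eq_zero hd⟩
    have hc : c ≠ 0 := by
      intro hc
      exact hq.ne_zero (by simp [hc])
    by_cases h0 : ζ = 0
    · right; simp [h0]
    · left
      rw [derivative_C, zero_sub, ← C_mul, ← C_neg]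
      exact hsm_of_const (neg_ne_zero.2 (mul_ne_zero h0 hc))
  · left
    intro z hz hcon
    have h1 := hq.logDeriv_im hd hz
    rw [eval_sub, eval_mul, eval_C, sub_eq_zero] at hcon
    rw [hcon, mul_div_assoc, div_self (hq z hz), mul_one] at h1
    linarith

/-- A real polynomial whose complexification has no zero in the upper half plane splits. -/
theorem roots_card_of_hs {f : ℝ[X]} (h : HS (f.map Complex.ofRealHom)) :
    f.roots.card = f.natDegree := by
  rw [← splits_iff_card_roots]
  have h0 : f.map Complex.ofRealHom ≠ 0 := h.ne_zero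
  apply Splits.of_splits_map Complex.ofRealHom (IsAlgClosed.splits _)
  intro a ha
  have h1 := isRoot_of_mem_roots ha
  have h2 : a.im ≤ 0 := h.root_im ha
  have h3 : 0 ≤ a.im := by
    by_contra hcon
    push Not at hcon
    apply h (starRingEnd ℂ a) (by rw [Complex.conj_im]; linarith)
    have h4 : (f.map Complex.ofRealHom).eval (starRingEnd ℂ a) =
        starRingEnd ℂ ((f.map Complex.ofRealHom).eval a) := by
      rw [eval_map, eval_map, hom_eval₂]
      congr 1
      ext x
      simp
    rw [h4, h1.eq_zero, map_zero]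
  refine ⟨a.re, ?_⟩
  apply Complex.ext
  · simp
  · simp; linarith

theorem hs_of_hsm_real {f : ℝ[X]} (h : HSm (f.map Complex.ofRealHom)) :
    HS (f.map Complex.ofRealHom) := by
  intro a ha hcon
  apply h (starRingEnd ℂ a) (by rw [Complex.conj_im]; linarith)
  have h4 : (f.map Complex.ofRealHom).eval (starRingEnd ℂ a) =
      starRingEnd ℂ ((f.map Complex.ofRealHom).eval a) := by
    rw [eval_map, eval_map, hom_eval₂]
    congr 1
    ext x
    simp
  rw [h4, hcon, map_zero]

theorem hsm_of_hs_real {f : ℝ[X]} (h : HS (f.map Complex.ofRealHom)) :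
    HSm (f.map Complex.ofRealHom) := by
  intro a ha hcon
  apply h (starRingEnd ℂ a) (by rw [Complex.conj_im]; linarith)
  have h4 : (f.map Complex.ofRealHom).eval (starRingEnd ℂ a) =
      starRingEnd ℂ ((f.map Complex.ofRealHom).eval a) := by
    rw [eval_map, eval_map, hom_eval₂]
    congr 1
    ext x
    simp
  rw [h4, hcon, map_zero]

/-- A real polynomial that splits over the reals has no zero in the upper half plane. -/
theorem hs_of_roots_card {f : ℝ[X]} (hf : f ≠ 0) (h : f.roots.card = f.natDegree) :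
    HS (f.map Complex.ofRealHom) := by
  intro z hz hcon
  have h1 : f.Splits := splits_iff_card_roots.2 h
  obtain ⟨x, hx⟩ := h1.mem_range_of_isRoot hf (i := Complex.ofRealHom) hcon
  rw [← hx] at hz
  simp at hz

end Pool.Agent.Lib.ThreeRun
end
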