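import Mathlib
import Pool.Agent.Lib.MP_7d55f0_co.TRStable

section

set_option autoImplicit false

namespace Pool.Agent.Lib.ThreeRun

open Polynomial Finset

/-- `∑ C(a,p+i) C(b,i) X^i` -/
noncomputable def AA (b p a : ℕ) : ℤ[X] :=
  ∑ i ∈ range (b + 1), C ((a.choose (p + i) : ℤ) * (b.choose i : ℤ)) * X ^ i

theorem AA_coeff (b p a j : ℕ) :
    (AA b p a).coeff j = (a.choose (p + j) : ℤ) * (b.choose j : ℤ) := by
  unfold AA
  rw [finsetSum_coeff]
  simp only [coeff_C_mul, coeff_X_pow, mul_ite, mul_one, mul_zero]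
  rw [Finset.sum_ite_eq]
  split_ifs with h
  · rfl
  · rw [Finset.mem_range] at h
    rw [Nat.choose_eq_zero_of_lt (show b < j by omega)]
    simp

theorem AA_R1 (b p a : ℕ) :
    AA (b + 1) p (a + 1) - AA (b + 1) p a = AA b p (a + 1) - (1 - X) * AA b p a := by
  ext j
  rw [coeff_sub, coeff_sub, sub_mul, one_mul, coeff_sub]
  cases j with
  | zero =>
    rw [coeff_X_mul_zero]
    simp only [AA_coeff, Nat.choose_zero_right, add_zero]
    ring
  | succ j =>
    rw [coeff_X_mul]
    simp only [AA_coeff]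
    rw [show p + (j + 1) = (p + j) + 1 by ring, Nat.choose_succ_succ a (p + j),
      Nat.choose_succ_succ b j]
    push_cast
    ring

theorem AA_R2 (b p a : ℕ) : AA b (p + 1) (a + 1) - AA b (p + 1) a = AA b p a := by
  ext j
  rw [coeff_sub]
  simp only [AA_coeff]
  rw [show p + 1 + j = (p + j) + 1 by ring, Nat.choose_succ_succ a (p + j)]
  push_cast
  ring

theorem AA_zero_zero (b : ℕ) : AA b 0 0 = 1 := by
  ext j
  rw [AA_coeff]
  cases j with
  | zero => simp
  | succ j => simp [coeff_one]

theorem AA_of_lt {b p a : ℕ} (h : a < p) : AA b p a = 0 := by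
  ext j
  rw [AA_coeff, Nat.choose_eq_zero_of_lt (by omega)]
  simp

theorem AA_b_zero (a : ℕ) : AA 0 0 a = 1 := by
  ext j
  rw [AA_coeff]
  cases j with
  | zero => simp
  | succ j => simp [coeff_one]

/-- the sum with `K` terms -/
noncomputable def HK (K b a c : ℕ) : ℤ[X] :=
  ∑ p ∈ range K, C (Nat.multichoose b p : ℤ) * X ^ p * AA b p a * AA b p c

/-- the polynomial of the three-run fence -/
noncomputable def HH (b a c : ℕ) : ℤ[X] := HK (a + 1) b a c

theorem HK_eq {K b a c : ℕ} (h : a + 1 ≤ K) : HK K b a c = HH b a c := by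
  unfold HH HK
  symm
  apply Finset.sum_subset
  · intro i hi
    rw [Finset.mem_range] at hi ⊢
    omega
  · intro i _ hi
    rw [Finset.mem_range] at hi
    rw [AA_of_lt (show a < i by omega)]
    ring

theorem HK_eq' {K b a c : ℕ} (h : c + 1 ≤ K) : HK K b a c = HH b a c := by
  rw [← HK_eq (K := K + a + 1) (by omega)]
  unfold HK
  apply Finset.sum_subset
  · intro i hi
    rw [Finset.mem_range] at hi ⊢
    omega
  · intro i _ hi
    rw [Finset.mem_range] at hi
    rw [AA_of_lt (show c < i by omega)]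
    ring

theorem HH_zero_left (b c : ℕ) : HH b 0 c = AA b 0 c := by
  unfold HH HK
  simp [AA_zero_zero]

theorem HH_zero_right (b a : ℕ) : HH b a 0 = AA b 0 a := by
  rw [← HK_eq' (K := 1) (by omega)]
  unfold HK
  simp [AA_zero_zero]

theorem HH_b_zero (a c : ℕ) : HH 0 a c = 1 := by
  unfold HH HK
  rw [Finset.sum_eq_single 0]
  · simp [AA_b_zero]
  · intro p _ hp
    obtain ⟨q, rfl⟩ : ∃ q, p = q + 1 := ⟨p - 1, by omega⟩
    simp
  · intro h
    simp at h

theorem HH_rec (b a c : ℕ) :
    HH (b + 1) (a + 1) (c + 1) - HH (b + 1) a (c + 1) - HH (b + 1) (a + 1) c +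
      (1 - X) * HH (b + 1) a c =
    HH b (a + 1) (c + 1) - (1 - X) * HH b a (c + 1) - (1 - X) * HH b (a + 1) c +
      (1 - X) ^ 2 * HH b a c := by
  obtain ⟨K, hK⟩ : ∃ K, K = a + 1 := ⟨_, rfl⟩
  have e1 : HH (b + 1) (a + 1) (c + 1) - HH (b + 1) a (c + 1) - HH (b + 1) (a + 1) c +
      HH (b + 1) a c = ∑ p ∈ range (K + 1), C (Nat.multichoose (b + 1) p : ℤ) * X ^ p *
        (AA (b + 1) p (a + 1) - AA (b + 1) p a) * (AA (b + 1) p (c + 1) - AA (b + 1) p c) := by
    rw [← HK_eq (K := K + 1) (b := b + 1) (a := a + 1) (c := c + 1) (by omega),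
      ← HK_eq (K := K + 1) (b := b + 1) (a := a) (c := c + 1) (by omega),
      ← HK_eq (K := K + 1) (b := b + 1) (a := a + 1) (c := c) (by omega),
      ← HK_eq (K := K + 1) (b := b + 1) (a := a) (c := c) (by omega)]
    unfold HK
    rw [← Finset.sum_sub_distrib, ← Finset.sum_sub_distrib, ← Finset.sum_add_distrib]
    refine Finset.sum_congr rfl fun p _ => ?_
    ring
  have e2 : X * HH (b + 1) a c = ∑ p ∈ range K, C (Nat.multichoose (b + 1) p : ℤ) * X ^ (p + 1) *
        (AA (b + 1) (p + 1) (a + 1) - AA (b + 1) (p + 1) a) *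
        (AA (b + 1) (p + 1) (c + 1) - AA (b + 1) (p + 1) c) := by
    rw [← HK_eq (K := K) (by omega)]
    unfold HK
    rw [Finset.mul_sum]
    refine Finset.sum_congr rfl fun p _ => ?_
    rw [AA_R2, AA_R2]
    ring
  have e3 : HH b (a + 1) (c + 1) - (1 - X) * HH b a (c + 1) - (1 - X) * HH b (a + 1) c +
      (1 - X) ^ 2 * HH b a c = ∑ p ∈ range (K + 1), C (Nat.multichoose b p : ℤ) * X ^ p *
        (AA (b + 1) p (a + 1) - AA (b + 1) p a) * (AA (b + 1) p (c + 1) - AA (b + 1) p c) := by
    rw [← HK_eq (K := K + 1) (b := b) (a := a + 1) (c := c + 1) (by omega),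
      ← HK_eq (K := K + 1) (b := b) (a := a) (c := c + 1) (by omega),
      ← HK_eq (K := K + 1) (b := b) (a := a + 1) (c := c) (by omega),
      ← HK_eq (K := K + 1) (b := b) (a := a) (c := c) (by omega)]
    unfold HK
    rw [Finset.mul_sum, Finset.mul_sum, Finset.mul_sum,
      ← Finset.sum_sub_distrib, ← Finset.sum_sub_distrib, ← Finset.sum_add_distrib]
    refine Finset.sum_congr rfl fun p _ => ?_
    rw [AA_R1, AA_R1]
    ring
  have e4 : ∑ p ∈ range (K + 1), C (Nat.multichoose (b + 1) p : ℤ) * X ^ p *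
        (AA (b + 1) p (a + 1) - AA (b + 1) p a) * (AA (b + 1) p (c + 1) - AA (b + 1) p c) =
      ∑ p ∈ range (K + 1), C (Nat.multichoose b p : ℤ) * X ^ p *
        (AA (b + 1) p (a + 1) - AA (b + 1) p a) * (AA (b + 1) p (c + 1) - AA (b + 1) p c) +
      ∑ p ∈ range K, C (Nat.multichoose (b + 1) p : ℤ) * X ^ (p + 1) *
        (AA (b + 1) (p + 1) (a + 1) - AA (b + 1) (p + 1) a) *
        (AA (b + 1) (p + 1) (c + 1) - AA (b + 1) (p + 1) c) := by
    rw [Finset.sum_range_succ', Finset.sum_range_succ' _ K]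
    rw [Nat.multichoose_zero_right, Nat.multichoose_zero_right]
    have e5 : ∀ p ∈ range K, C (Nat.multichoose (b + 1) (p + 1) : ℤ) * X ^ (p + 1) *
        (AA (b + 1) (p + 1) (a + 1) - AA (b + 1) (p + 1) a) *
        (AA (b + 1) (p + 1) (c + 1) - AA (b + 1) (p + 1) c) =
        C (Nat.multichoose b (p + 1) : ℤ) * X ^ (p + 1) *
        (AA (b + 1) (p + 1) (a + 1) - AA (b + 1) (p + 1) a) *
        (AA (b + 1) (p + 1) (c + 1) - AA (b + 1) (p + 1) c) +
        C (Nat.multichoose (b + 1) p : ℤ) * X ^ (p + 1) *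
        (AA (b + 1) (p + 1) (a + 1) - AA (b + 1) (p + 1) a) *
        (AA (b + 1) (p + 1) (c + 1) - AA (b + 1) (p + 1) c) := by
      intro p _
      rw [Nat.multichoose_succ_succ]
      push_cast
      rw [C_add]
      ring
    rw [Finset.sum_congr rfl e5, Finset.sum_add_distrib]
    ring
  rw [e3]
  linear_combination e1 - e2 + e4

end Pool.Agent.Lib.ThreeRun
end

section

set_option autoImplicit false

namespace Pool.Agent.Lib.ThreeRun

open Polynomial

theorem trgws_step {s a b c e d : ℝ} (hs : 0 < s) (hd : 0 < d) (h1 : s * (a ^ 2 + b ^ 2) + d * b ≤ 0)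
    (h2 : s * (c ^ 2 + e ^ 2) + e ≤ 0) :
    s * ((a + c) ^ 2 + (b + e) ^ 2) + (d + 1) * (b + e) ≤ 0 := by
  have h3 : 0 ≤ s * ((a - d * c) ^ 2 + (b - d * e) ^ 2) := by positivity
  have h4 : d * (s * ((a + c) ^ 2 + (b + e) ^ 2) + (d + 1) * (b + e)) =
      (d + 1) * (s * (a ^ 2 + b ^ 2) + d * b) + d * (d + 1) * (s * (c ^ 2 + e ^ 2) + e) -
        s * ((a - d * c) ^ 2 + (b - d * e) ^ 2) := by ring
  have h5 : d * (s * ((a + c) ^ 2 + (b + e) ^ 2) + (d + 1) * (b + e)) ≤ 0 := by
    rw [h4]
    have h6 : (d + 1) * (s * (a ^ 2 + b ^ 2) + d * b) ≤ 0 :=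
      mul_nonpos_of_nonneg_of_nonpos (by linarith) h1
    have h7 : d * (d + 1) * (s * (c ^ 2 + e ^ 2) + e) ≤ 0 :=
      mul_nonpos_of_nonneg_of_nonpos (by positivity) h2
    linarith
  by_contra hcon
  push Not at hcon
  have := mul_pos hd hcon
  linarith

theorem trgws_sum {ι : Type*} (f : ι → ℂ) {s : ℝ} (hs : 0 < s) (S : Multiset ι)
    (h : ∀ i ∈ S, s * ((f i).re ^ 2 + (f i).im ^ 2) + (f i).im ≤ 0) :
    s * (((S.map f).sum).re ^ 2 + ((S.map f).sum).im ^ 2) + S.card * ((S.map f).sum).im ≤ 0 := by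
  induction S using Multiset.induction_on with
  | empty => simp
  | cons a S ih =>
    have h1 := ih (fun i hi => h i (Multiset.mem_cons_of_mem hi))
    have h2 := h a (Multiset.mem_cons_self a S)
    rw [Multiset.map_cons, Multiset.sum_cons, Multiset.card_cons, Complex.add_re, Complex.add_im]
    rcases Multiset.empty_or_exists_mem S with h0 | ⟨b, hb⟩
    · subst h0
      simpa using h2
    · have hd : (0 : ℝ) < S.card := by
        have : 0 < S.card := Multiset.card_pos.2 (by rintro rfl; simp at hb)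
        exact_mod_cast this
      have h3 := trgws_step hs hd h1 h2
      push_cast
      rw [add_comm (f a).re, add_comm (f a).im]
      exact h3

/-- Laguerre's theorem in the form of the polar derivative. -/
theorem lag {p : ℂ[X]} (hp : HS p) {N : ℕ} (hN : 0 < N) (hd : p.natDegree ≤ N) {z w : ℂ}
    (hz : 0 < z.im) (hw : 0 < w.im) :
    p.eval z + (w - z) / N * (derivative p).eval z ≠ 0 := by
  intro hcon
  have hpz := hp z hz
  have hN' : (0 : ℝ) < N := by exact_mod_cast hN
  have hNc : (N : ℂ) ≠ 0 := by exact_mod_cast hN.ne'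
  set U := (p.roots.map fun ζ => 1 / (z - ζ)).sum with hU
  have hU1 : (derivative p).eval z = p.eval z * U :=
    (IsAlgClosed.splits p).eval_derivative_eq_eval_mul_sum hpz
  have hU2 : (w - z) * U = -N := by
    rw [hU1] at hcon
    have h1 : p.eval z * (1 + (w - z) / N * U) = 0 := by linear_combination hcon
    have h2 := (mul_eq_zero.1 h1).resolve_left hpz
    field_simp at h2
    linear_combination h2
  have hsum := trgws_sum (fun ζ => 1 / (z - ζ)) hz p.roots (by
    intro ζ hζ
    have h1 := hp.root_im hζ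
    have h2 : z - ζ ≠ 0 := by
      intro h
      have := congrArg Complex.im h
      rw [Complex.sub_im, Complex.zero_im] at this
      linarith
    have h3 : 0 < Complex.normSq (z - ζ) := Complex.normSq_pos.2 h2
    have h4 : (1 / (z - ζ)).re = (z - ζ).re / Complex.normSq (z - ζ) := by
      rw [one_div, Complex.inv_re]
    have h5 : (1 / (z - ζ)).im = -(z - ζ).im / Complex.normSq (z - ζ) := by
      rw [one_div, Complex.inv_im]
    have h6 : ((z - ζ).re / Complex.normSq (z - ζ)) ^ 2 +
        (-(z - ζ).im / Complex.normSq (z - ζ)) ^ 2 = 1 / Complex.normSq (z - ζ) := by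
      rw [div_pow, div_pow, neg_pow, ← add_div]
      have : (z - ζ).re ^ 2 + (-1) ^ 2 * (z - ζ).im ^ 2 = Complex.normSq (z - ζ) := by
        rw [Complex.normSq_apply]; ring
      rw [this]
      field_simp
    rw [h4, h5, h6, mul_one_div, ← add_div]
    apply div_nonpos_of_nonpos_of_nonneg _ h3.le
    rw [Complex.sub_im]
    linarith)
  have hcard : ((p.roots.card : ℕ) : ℝ) ≤ N := by
    exact_mod_cast (card_roots' p).trans hd
  have hwz : w - z ≠ 0 := by
    intro h
    rw [h, zero_mul] at hU2
    exact hNc (neg_eq_zero.1 hU2.symm)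
  have hq : 0 < Complex.normSq (w - z) := Complex.normSq_pos.2 hwz
  have hU3 : U = -N / (w - z) := by
    rw [eq_div_iff hwz]
    linear_combination hU2
  have hre : U.re = -N * (w - z).re / Complex.normSq (w - z) := by
    rw [hU3, div_eq_mul_inv, Complex.mul_re, Complex.inv_re, Complex.inv_im]
    simp
    ring
  have him : U.im = N * (w - z).im / Complex.normSq (w - z) := by
    rw [hU3, div_eq_mul_inv, Complex.mul_im, Complex.inv_re, Complex.inv_im]
    simp
    ring
  have hsq : U.re ^ 2 + U.im ^ 2 = N ^ 2 / Complex.normSq (w - z) := by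
    rw [hre, him, div_pow, div_pow, ← add_div]
    have : (-(N : ℝ) * (w - z).re) ^ 2 + ((N : ℝ) * (w - z).im) ^ 2 =
        N ^ 2 * Complex.normSq (w - z) := by
      rw [Complex.normSq_apply]; ring
    rw [this]
    field_simp
  change z.im * (U.re ^ 2 + U.im ^ 2) + _ * U.im ≤ 0 at hsum
  rw [hsq, him, ← mul_div_assoc, ← mul_div_assoc, ← add_div] at hsum
  have h7 : z.im * (N : ℝ) ^ 2 + (p.roots.card : ℝ) * (N * (w - z).im) ≤ 0 := by
    by_contra h
    push Not at h
    have := div_pos h hq
    linarith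
  rw [Complex.sub_im] at h7
  have h8 : 0 ≤ (p.roots.card : ℝ) := by positivity
  have h9 : (N : ℝ) * (z.im * (N - p.roots.card) + (p.roots.card : ℝ) * w.im) ≤ 0 := by
    nlinarith
  have h10 : z.im * (N - p.roots.card) + (p.roots.card : ℝ) * w.im ≤ 0 := by
    by_contra h
    push Not at h
    have := mul_pos hN' h
    linarith
  have h11 : 0 ≤ z.im * (N - p.roots.card) := mul_nonneg hz.le (by linarith)
  have h12 : 0 ≤ (p.roots.card : ℝ) * w.im := mul_nonneg h8 hw.le
  have h13 : (p.roots.card : ℝ) * w.im = 0 := by linarith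
  have h14 : (p.roots.card : ℝ) = 0 := by
    rcases mul_eq_zero.1 h13 with h | h
    · exact h
    · linarith
  rw [h14] at h10
  simp at h10
  nlinarith

/-- The coefficient sum of the Grace, Walsh, Szegő theorem. -/
noncomputable def gsum (N : ℕ) (f : ℂ[X]) (W : List ℂ) : ℂ :=
  ∑ j ∈ Finset.range (N + 1), f.coeff j / (N.choose j : ℂ) *
    ((W.map (fun w => 1 + C w * X)).prod).coeff j

/-- Grace, Walsh, Szegő: symmetrisation with `N` points in the upper half plane. -/
theorem gws : ∀ (N : ℕ) (f : ℂ[X]) (W : List ℂ), HS f → f.natDegree ≤ N → W.length = N →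
    (∀ w ∈ W, 0 < w.im) → gsum N f W ≠ 0 := by
  intro N
  induction N with
  | zero =>
    intro f W hf hd hW _
    rw [List.length_eq_zero_iff] at hW
    subst hW
    unfold gsum
    simp only [zero_add, Finset.sum_range_one, Nat.choose_self, Nat.cast_one, div_one,
      List.map_nil, List.prod_nil, coeff_one_zero, mul_one]
    intro hcon
    apply hf.ne_zero
    rw [eq_C_of_natDegree_le_zero hd, hcon, C_0]
  | succ N ih =>
    intro f W hf hd hW hpos
    obtain ⟨w, W', rfl⟩ : ∃ w W', W = w :: W' := by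
      cases W with
      | nil => simp at hW
      | cons w W' => exact ⟨w, W', rfl⟩
    have hlen : W'.length = N := by simpa using hW
    have hw := hpos w (by simp)
    have hN1 : ((N : ℂ) + 1) ≠ 0 := by exact_mod_cast Nat.succ_ne_zero N
    set g : ℂ[X] := f + C (1 / ((N : ℂ) + 1)) * ((C w - X) * derivative f) with hg
    have hgS : HS g := by
      intro z hz
      have h1 := lag hf (Nat.succ_pos N) hd hz hw
      rw [hg]
      simp only [eval_add, eval_mul, eval_C, eval_sub, eval_X]
      convert h1 using 2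
      push_cast
      ring
    have hgc : ∀ j, g.coeff j =
        (((N : ℂ) + 1 - j) * f.coeff j + w * (j + 1) * f.coeff (j + 1)) / ((N : ℂ) + 1) := by
      intro j
      rw [hg, coeff_add, coeff_C_mul, sub_mul, coeff_sub, coeff_C_mul, coeff_derivative]
      have hXd : (X * derivative f).coeff j = j * f.coeff j := by
        cases j with
        | zero => simp
        | succ j =>
          rw [coeff_X_mul, coeff_derivative]
          push_cast
          ring
      rw [hXd]
      field_simp
      ring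
    have hgd : g.natDegree ≤ N := by
      rw [natDegree_le_iff_coeff_eq_zero]
      intro j hj
      rw [hgc j]
      rcases Nat.eq_or_lt_of_le (Nat.succ_le_of_lt hj) with h | h
      · rw [coeff_eq_zero_of_natDegree_lt (show f.natDegree < j + 1 by omega), ← h]
        push_cast
        simp
      · rw [coeff_eq_zero_of_natDegree_lt (show f.natDegree < j + 1 by omega),
          coeff_eq_zero_of_natDegree_lt (show f.natDegree < j by omega)]
        simp
    have h2 := ih g W' hgS hgd hlen (fun x hx => hpos x (List.mem_cons_of_mem w hx))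
    intro hcon
    apply h2
    rw [← hcon]
    unfold gsum
    set Q := (W'.map (fun w => 1 + C w * X)).prod with hQ
    have hQd : Q.natDegree ≤ N := by
      rw [hQ, ← hlen]
      clear_value g
      clear * -
      induction W' with
      | nil => simp
      | cons a l ihl =>
        rw [List.map_cons, List.prod_cons, List.length_cons]
        refine (natDegree_mul_le).trans ?_
        have h3 : (1 + C a * X : ℂ[X]).natDegree ≤ 1 := by
          rw [add_comm, ← C_1]
          exact natDegree_linear_le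
        omega
    have hmul : ∀ j, ((1 + C w * X) * Q).coeff j = Q.coeff j +
        w * (if j = 0 then 0 else Q.coeff (j - 1)) := by
      intro j
      rw [add_mul, one_mul, coeff_add, mul_assoc, coeff_C_mul]
      cases j with
      | zero => simp
      | succ j => simp [coeff_X_mul]
    rw [List.map_cons, List.prod_cons, ← hQ]
    simp_rw [hmul, mul_add]
    rw [Finset.sum_add_distrib]
    have hA : ∑ j ∈ Finset.range (N + 1 + 1), f.coeff j / ((N + 1).choose j : ℂ) * Q.coeff j =
        ∑ j ∈ Finset.range (N + 1), f.coeff j / ((N + 1).choose j : ℂ) * Q.coeff j := by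
      rw [Finset.sum_range_succ, coeff_eq_zero_of_natDegree_lt (show Q.natDegree < N + 1 by omega),
        mul_zero, add_zero]
    have hB : ∑ j ∈ Finset.range (N + 1 + 1), f.coeff j / ((N + 1).choose j : ℂ) *
        (w * (if j = 0 then 0 else Q.coeff (j - 1))) =
        ∑ j ∈ Finset.range (N + 1), f.coeff (j + 1) / ((N + 1).choose (j + 1) : ℂ) *
          (w * Q.coeff j) := by
      rw [Finset.sum_range_succ']
      simp
    rw [hA, hB, ← Finset.sum_add_distrib]
    refine Finset.sum_congr rfl fun j hj => ?_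
    rw [Finset.mem_range] at hj
    have hj' : j ≤ N := by omega
    rw [hgc j]
    have hc1 : (N.choose j : ℂ) ≠ 0 := by
      exact_mod_cast (Nat.choose_pos hj').ne'
    have hc2 : ((N + 1).choose j : ℂ) ≠ 0 := by
      exact_mod_cast (Nat.choose_pos (by omega : j ≤ N + 1)).ne'
    have hc3 : ((N + 1).choose (j + 1) : ℂ) ≠ 0 := by
      exact_mod_cast (Nat.choose_pos (by omega : j + 1 ≤ N + 1)).ne'
    have he1 : ((N : ℂ) + 1) * (N.choose j : ℂ) = ((N + 1).choose (j + 1) : ℂ) * (j + 1) := by
      have := Nat.add_one_mul_choose_eq N j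
      exact_mod_cast this
    have he2 : ((N + 1).choose (j + 1) : ℂ) * (j + 1) = ((N + 1).choose j : ℂ) * ((N : ℂ) + 1 - j) := by
      have h4 := Nat.choose_succ_right_eq (N + 1) j
      have h5 : ((N + 1 - j : ℕ) : ℂ) = (N : ℂ) + 1 - j := by
        rw [Nat.cast_sub (by omega)]
        push_cast
        ring
      rw [← h5]
      exact_mod_cast h4
    have hj1 : ((j : ℂ) + 1) ≠ 0 := by exact_mod_cast Nat.succ_ne_zero j
    have hj2 : ((N : ℂ) + 1 - j) ≠ 0 := by
      have h5 : ((N + 1 - j : ℕ) : ℂ) = (N : ℂ) + 1 - j := by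
        rw [Nat.cast_sub (by omega)]
        push_cast
        ring
      rw [← h5]
      exact_mod_cast (by omega : N + 1 - j ≠ 0)
    have e1 : (((N : ℂ) + 1 - j) * f.coeff j) / (((N : ℂ) + 1) * (N.choose j : ℂ)) =
        f.coeff j / ((N + 1).choose j : ℂ) := by
      rw [he1, he2]
      field_simp
    have e2 : (w * (j + 1) * f.coeff (j + 1)) / (((N : ℂ) + 1) * (N.choose j : ℂ)) =
        f.coeff (j + 1) / ((N + 1).choose (j + 1) : ℂ) * w := by
      rw [he1]
      field_simp
    have e3 : (((N : ℂ) + 1 - j) * f.coeff j + w * (j + 1) * f.coeff (j + 1)) / ((N : ℂ) + 1) /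
        (N.choose j : ℂ) = (((N : ℂ) + 1 - j) * f.coeff j) / (((N : ℂ) + 1) * (N.choose j : ℂ)) +
          (w * (j + 1) * f.coeff (j + 1)) / (((N : ℂ) + 1) * (N.choose j : ℂ)) := by
      rw [div_div, add_div]
    rw [e3, e1, e2]
    ring

end Pool.Agent.Lib.ThreeRun
end

section

set_option autoImplicit false

namespace Pool.Agent.Lib.ThreeRun

open Polynomial

/-- Partial fractions of a real rational function with simple real poles, at a complex point. -/
theorem partial_fractions (S : Finset ℝ) (g : ℝ[X]) (hg : g.degree < S.card) {z : ℂ}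
    (hz : 0 < z.im) :
    (g.map Complex.ofRealHom).eval z =
      ((Lagrange.nodal S (id : ℝ → ℝ)).map Complex.ofRealHom).eval z *
        ∑ r ∈ S, (((g.eval r / (derivative (Lagrange.nodal S (id : ℝ → ℝ))).eval r : ℝ) : ℂ) *
          (1 / (z - r))) := by
  have hinj : Set.InjOn (fun r : ℝ => (r : ℂ)) S := fun x _ y _ hxy => Complex.ofReal_injective hxy
  have hnod : (Lagrange.nodal S (id : ℝ → ℝ)).map Complex.ofRealHom =
      Lagrange.nodal S (fun r : ℝ => (r : ℂ)) := by
    rw [Lagrange.nodal_eq, Lagrange.nodal_eq, Polynomial.map_prod]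
    refine Finset.prod_congr rfl fun r _ => ?_
    simp
  have hev : ∀ (p : ℝ[X]) (r : ℝ), (p.map Complex.ofRealHom).eval (r : ℂ) = ((p.eval r : ℝ) : ℂ) := by
    intro p r
    rw [show (r : ℂ) = Complex.ofRealHom r from rfl, eval_map, eval₂_hom]
    rfl
  have h1 : g.map Complex.ofRealHom = Lagrange.interpolate S (fun r : ℝ => (r : ℂ))
      (fun r => ((g.eval r : ℝ) : ℂ)) := by
    apply Lagrange.eq_interpolate_of_eval_eq _ hinj
    · rwa [degree_map]
    · intro r _
      exact hev g r
  have hne : ∀ r ∈ S, z ≠ (r : ℂ) := by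
    intro r _ hcon
    rw [hcon] at hz
    simp at hz
  rw [h1, Lagrange.eval_interpolate_not_at_node _ hne, hnod]
  congr 1
  refine Finset.sum_congr rfl fun r hr => ?_
  rw [Lagrange.nodalWeight_eq_eval_derivative_nodal hr, ← hnod, derivative_map, hev]
  push_cast
  rw [one_div, div_eq_mul_inv]
  ring

/-- The interlacing lemma: a real polynomial `g` with `g(r) f'(r) ≥ 0` at all zeros `r` of a
real-rooted `f` with simple zeros. -/
theorem il {f g : ℝ[X]} (hf : f ≠ 0) (hroots : f.roots.card = f.natDegree)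
    (hnd : f.roots.Nodup) (hg : g.natDegree ≤ f.natDegree)
    (hpos : ∀ r ∈ f.roots, 0 ≤ g.eval r * (derivative f).eval r) {z : ℂ} (hz : 0 < z.im) :
    ((g.map Complex.ofRealHom).eval z / (f.map Complex.ofRealHom).eval z).im ≤ 0 ∧
      ((∃ r ∈ f.roots, 0 < g.eval r * (derivative f).eval r) →
        ((g.map Complex.ofRealHom).eval z / (f.map Complex.ofRealHom).eval z).im < 0) := by
  classical
  set S := f.roots.toFinset with hS
  set a := f.leadingCoeff with ha
  have ha0 : a ≠ 0 := leadingCoeff_ne_zero.2 hf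
  have hcard : S.card = f.natDegree := by
    rw [hS, Multiset.toFinset_card_of_nodup hnd, hroots]
  have hfN : f = C a * Lagrange.nodal S (id : ℝ → ℝ) := by
    conv_lhs => rw [← C_leadingCoeff_mul_prod_multiset_X_sub_C hroots]
    rw [Lagrange.nodal_eq, Finset.prod_eq_multiset_prod, hS, Multiset.toFinset_val,
      Multiset.dedup_eq_self.2 hnd]
    rfl
  set κ := g.coeff f.natDegree / a with hκ
  set g1 := g - C κ * f with hg1
  have hg1d : g1.degree < S.card := by
    rw [hcard, degree_lt_iff_coeff_zero]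
    intro m hm
    rw [hg1, coeff_sub, coeff_C_mul]
    rcases Nat.eq_or_lt_of_le hm with h | h
    · rw [← h, hκ, show f.coeff f.natDegree = a from rfl]
      field_simp
      ring
    · rw [coeff_eq_zero_of_natDegree_lt (lt_of_le_of_lt hg h), coeff_eq_zero_of_natDegree_lt h]
      ring
  have hfz : (f.map Complex.ofRealHom).eval z ≠ 0 := hs_of_roots_card hf hroots z hz
  have hNz : ((Lagrange.nodal S (id : ℝ → ℝ)).map Complex.ofRealHom).eval z ≠ 0 := by
    intro hcon
    apply hfz
    rw [hfN, Polynomial.map_mul, eval_mul, hcon, mul_zero]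
  have ha0c : (a : ℂ) ≠ 0 := by exact_mod_cast ha0
  have hg1r : ∀ r ∈ S, g1.eval r = g.eval r := by
    intro r hr
    have h1 : f.eval r = 0 := isRoot_of_mem_roots (Multiset.mem_toFinset.1 hr)
    rw [hg1, eval_sub, eval_mul, h1]
    ring
  have hder : ∀ r : ℝ, (derivative f).eval r =
      a * (derivative (Lagrange.nodal S (id : ℝ → ℝ))).eval r := by
    intro r
    conv_lhs => rw [hfN]
    rw [derivative_C_mul, eval_mul, eval_C]
  have key : (g.map Complex.ofRealHom).eval z / (f.map Complex.ofRealHom).eval z =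
      (κ : ℂ) + ∑ r ∈ S, (((g.eval r / (derivative f).eval r : ℝ) : ℂ) * (1 / (z - r))) := by
    have h1 : g = C κ * f + g1 := by rw [hg1]; ring
    conv_lhs => rw [h1]
    rw [Polynomial.map_add, Polynomial.map_mul, eval_add, eval_mul, add_div,
      mul_div_assoc, div_self hfz, mul_one, map_C, eval_C]
    congr 1
    rw [partial_fractions S g1 hg1d hz]
    conv_lhs => rw [hfN]
    rw [Polynomial.map_mul, eval_mul, map_C, eval_C, Complex.ofRealHom_eq_coe,
      mul_comm (a : ℂ), mul_div_mul_left _ _ hNz, Finset.sum_div]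
    refine Finset.sum_congr rfl fun r hr => ?_
    rw [hder r, hg1r r hr]
    push_cast
    field_simp
  have him : ((g.map Complex.ofRealHom).eval z / (f.map Complex.ofRealHom).eval z).im =
      ∑ r ∈ S, (g.eval r / (derivative f).eval r) * (1 / (z - r)).im := by
    rw [key, Complex.add_im, Complex.ofReal_im, zero_add, Complex.im_sum]
    refine Finset.sum_congr rfl fun r _ => ?_
    rw [Complex.im_ofReal_mul]
  have hneg : ∀ r : ℝ, (1 / (z - r)).im < 0 := by
    intro r
    apply inv_im_neg
    simpa using hz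
  have hle : ∀ r ∈ S, (g.eval r / (derivative f).eval r) * (1 / (z - r)).im ≤ 0 := by
    intro r hr
    apply mul_nonpos_of_nonneg_of_nonpos _ (hneg r).le
    have h1 := hpos r (Multiset.mem_toFinset.1 hr)
    rw [div_eq_mul_inv]
    rcases eq_or_ne ((derivative f).eval r) 0 with h2 | h2
    · rw [h2]; simp
    · have h3 : g.eval r * ((derivative f).eval r)⁻¹ =
          (g.eval r * (derivative f).eval r) / ((derivative f).eval r) ^ 2 := by
        field_simp
      rw [h3]
      positivity
  rw [him]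
  refine ⟨Finset.sum_nonpos hle, ?_⟩
  rintro ⟨r, hr, hr2⟩
  apply Finset.sum_neg' hle
  refine ⟨r, Multiset.mem_toFinset.2 hr, ?_⟩
  apply mul_neg_of_pos_of_neg _ (hneg r)
  have h2 : (derivative f).eval r ≠ 0 := by
    intro h
    rw [h] at hr2
    simp at hr2
  have h3 : g.eval r / ((derivative f).eval r) =
      (g.eval r * (derivative f).eval r) / ((derivative f).eval r) ^ 2 := by
    field_simp
  rw [h3]
  positivity

end Pool.Agent.Lib.ThreeRun
end

section

set_option autoImplicit false

namespace Pool.Agent.Lib.ThreeRun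

open Finset

theorem dn_add (φ ψ : ℕ → ℕ) : dn (fun v => φ v + ψ v) = fun v => dn φ v + dn ψ v := by
  funext v
  unfold dn
  rw [Finset.sum_add_distrib]

theorem dn_iter_add (b : ℕ) (φ ψ : ℕ → ℕ) (v : ℕ) :
    dn^[b] (fun v => φ v + ψ v) v = dn^[b] φ v + dn^[b] ψ v := by
  induction b generalizing φ ψ with
  | zero => rfl
  | succ b ih =>
    rw [Function.iterate_succ_apply, dn_add, ih, Function.iterate_succ_apply,
      Function.iterate_succ_apply]

theorem dn_iter_succ (b : ℕ) (φ : ℕ → ℕ) (v : ℕ) :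
    dn^[b + 1] φ (v + 1) = dn^[b + 1] φ v + dn^[b] φ (v + 1) := by
  rw [Function.iterate_succ_apply']
  change ∑ i ∈ range (v + 1 + 1), _ = ∑ i ∈ range (v + 1), _ + _
  rw [Finset.sum_range_succ]

theorem dn_iter_zero (b : ℕ) (φ : ℕ → ℕ) : dn^[b] φ 0 = φ 0 := by
  induction b with
  | zero => rfl
  | succ b ih =>
    rw [Function.iterate_succ_apply']
    change ∑ i ∈ range (0 + 1), _ = _
    rw [Finset.sum_range_one, ih]

theorem NN_zero (b a c : ℕ) : NN b a c 0 = 1 := by
  unfold NN
  rw [zero_add, Finset.sum_range_one, dn_iter_zero]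
  simp

/-- the double difference -/
def EE (b a c m : ℕ) : ℕ :=
  ∑ v ∈ range (m + 1), (v + a).choose (a + 1) * dn^[b] (fun v' => (m - v' + c).choose (c + 1)) v

theorem phi_split (c m : ℕ) : (fun v' => (m - v' + (c + 1)).choose (c + 1)) =
    fun v' => (m - v' + c).choose c + (m - v' + c).choose (c + 1) := by
  funext v'
  rw [show m - v' + (c + 1) = (m - v' + c) + 1 by ring, Nat.choose_succ_succ]

theorem NN_dd (b a c m : ℕ) :
    NN b (a + 1) (c + 1) m + NN b a c m = NN b a (c + 1) m + NN b (a + 1) c m + EE b a c m := by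
  unfold NN EE
  rw [← Finset.sum_add_distrib, ← Finset.sum_add_distrib, ← Finset.sum_add_distrib]
  refine Finset.sum_congr rfl fun v _ => ?_
  rw [phi_split, dn_iter_add, show v + (a + 1) = (v + a) + 1 by ring, Nat.choose_succ_succ]
  ring

theorem EE_rec (b a c m : ℕ) :
    EE (b + 1) a c (m + 1) = NN (b + 1) (a + 1) (c + 1) m + EE b a c (m + 1) := by
  unfold EE NN
  rw [Finset.sum_range_succ', Finset.sum_range_succ' _ (m + 1)]
  rw [zero_add, Nat.choose_succ_self, zero_mul, zero_mul, add_zero, add_zero,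
    ← Finset.sum_add_distrib]
  refine Finset.sum_congr rfl fun v hv => ?_
  rw [Finset.mem_range] at hv
  rw [dn_iter_succ]
  have h1 : dn^[b + 1] (fun v' => (m + 1 - v' + c).choose (c + 1)) v =
      dn^[b + 1] (fun v' => (m - v' + (c + 1)).choose (c + 1)) v := by
    apply dn_iter_congr
    intro i hi
    rw [show m + 1 - i + c = m - i + (c + 1) by omega]
  rw [h1, show v + (a + 1) = v + 1 + a by ring]
  ring

/-- single differences -/
def E0 (b c m : ℕ) : ℕ := ∑ v ∈ range (m + 1), dn^[b] (fun v' => (m - v' + c).choose (c + 1)) v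

theorem NN_d0 (b c m : ℕ) : NN b 0 (c + 1) m = NN b 0 c m + E0 b c m := by
  unfold NN E0
  rw [← Finset.sum_add_distrib]
  refine Finset.sum_congr rfl fun v _ => ?_
  rw [phi_split, dn_iter_add]
  simp

theorem E0_rec (b c m : ℕ) : E0 (b + 1) c (m + 1) = NN (b + 1) 0 (c + 1) m + E0 b c (m + 1) := by
  unfold E0 NN
  rw [Finset.sum_range_succ]
  congr 1
  · refine Finset.sum_congr rfl fun v hv => ?_
    rw [Finset.mem_range] at hv
    rw [Nat.choose_zero_right, one_mul]
    apply dn_iter_congr
    intro i hi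
    rw [show m + 1 - i + c = m - i + (c + 1) by omega]
  · rw [Function.iterate_succ_apply']
    rfl

def E1 (b a m : ℕ) : ℕ :=
  ∑ v ∈ range (m + 1), (v + a).choose (a + 1) * dn^[b] (fun v' => (m - v' + 0).choose 0) v

theorem NN_d1 (b a m : ℕ) : NN b (a + 1) 0 m = NN b a 0 m + E1 b a m := by
  unfold NN E1
  rw [← Finset.sum_add_distrib]
  refine Finset.sum_congr rfl fun v _ => ?_
  rw [show v + (a + 1) = (v + a) + 1 by ring, Nat.choose_succ_succ]
  ring

theorem E1_rec (b a m : ℕ) : E1 (b + 1) a (m + 1) = NN (b + 1) (a + 1) 0 m + E1 b a (m + 1) := by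
  unfold E1 NN
  rw [Finset.sum_range_succ', Finset.sum_range_succ' _ (m + 1)]
  rw [zero_add, Nat.choose_succ_self, zero_mul, zero_mul, add_zero, add_zero,
    ← Finset.sum_add_distrib]
  refine Finset.sum_congr rfl fun v hv => ?_
  rw [dn_iter_succ]
  simp only [Nat.choose_zero_right]
  rw [show v + (a + 1) = v + 1 + a by ring]
  ring

theorem NN_d2 (b m : ℕ) : NN (b + 1) 0 0 (m + 1) = NN (b + 1) 0 0 m + NN b 0 0 (m + 1) := by
  unfold NN
  rw [Finset.sum_range_succ]
  simp only [Nat.choose_zero_right, one_mul]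
  rw [Function.iterate_succ_apply']
  rfl

open PowerSeries in
/-- generating function -/
noncomputable def Gf (b a c : ℕ) : PowerSeries ℤ := PowerSeries.mk fun m => (NN b a c m : ℤ)

theorem Gf_coeff (b a c m : ℕ) : PowerSeries.coeff m (Gf b a c) = (NN b a c m : ℤ) :=
  PowerSeries.coeff_mk _ _

theorem Gf_rec (b a c : ℕ) :
    Gf (b + 1) (a + 1) (c + 1) + Gf (b + 1) a c + Gf b a (c + 1) + Gf b (a + 1) c =
      Gf (b + 1) a (c + 1) + Gf (b + 1) (a + 1) c + PowerSeries.X * Gf (b + 1) (a + 1) (c + 1) +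
        Gf b (a + 1) (c + 1) + Gf b a c := by
  ext m
  cases m with
  | zero =>
    simp only [map_add, PowerSeries.coeff_zero_X_mul]
    simp only [Gf_coeff, NN_zero]
    norm_num
  | succ m =>
    simp only [map_add, PowerSeries.coeff_succ_X_mul]
    simp only [Gf_coeff]
    have h1 := NN_dd (b + 1) a c (m + 1)
    have h2 := NN_dd b a c (m + 1)
    have h3 := EE_rec b a c m
    rw [h3] at h1
    zify at h1 h2
    linarith

theorem Gf_rec0 (b c : ℕ) :
    Gf (b + 1) 0 (c + 1) + Gf b 0 c =
      Gf (b + 1) 0 c + PowerSeries.X * Gf (b + 1) 0 (c + 1) + Gf b 0 (c + 1) := by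
  ext m
  cases m with
  | zero =>
    simp only [map_add, PowerSeries.coeff_zero_X_mul]
    simp only [Gf_coeff, NN_zero]
    norm_num
  | succ m =>
    simp only [map_add, PowerSeries.coeff_succ_X_mul]
    simp only [Gf_coeff]
    have h1 := NN_d0 (b + 1) c (m + 1)
    have h2 := NN_d0 b c (m + 1)
    have h3 := E0_rec b c m
    rw [h3] at h1
    zify at h1 h2
    linarith

theorem Gf_rec1 (b a : ℕ) :
    Gf (b + 1) (a + 1) 0 + Gf b a 0 =
      Gf (b + 1) a 0 + PowerSeries.X * Gf (b + 1) (a + 1) 0 + Gf b (a + 1) 0 := by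
  ext m
  cases m with
  | zero =>
    simp only [map_add, PowerSeries.coeff_zero_X_mul]
    simp only [Gf_coeff, NN_zero]
    norm_num
  | succ m =>
    simp only [map_add, PowerSeries.coeff_succ_X_mul]
    simp only [Gf_coeff]
    have h1 := NN_d1 (b + 1) a (m + 1)
    have h2 := NN_d1 b a (m + 1)
    have h3 := E1_rec b a m
    rw [h3] at h1
    zify at h1 h2
    linarith

theorem Gf_rec2 (b : ℕ) :
    Gf (b + 1) 0 0 = PowerSeries.X * Gf (b + 1) 0 0 + Gf b 0 0 := by
  ext m
  cases m with
  | zero =>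
    simp only [map_add, PowerSeries.coeff_zero_X_mul]
    simp only [Gf_coeff, NN_zero]
    norm_num
  | succ m =>
    simp only [map_add, PowerSeries.coeff_succ_X_mul]
    simp only [Gf_coeff]
    have h1 := NN_d2 b m
    zify at h1
    linarith

theorem Gf_b_zero (a c : ℕ) :
    Gf 0 a c * (1 - PowerSeries.X) ^ (a + 0 + c + 2) = 1 := by
  have h1 : Gf 0 a c = (PowerSeries.mk fun n => ((a + n).choose a : ℤ)) *
      (PowerSeries.mk fun n => ((c + n).choose c : ℤ)) := by
    ext m
    rw [Gf_coeff, PowerSeries.coeff_mul, Finset.Nat.sum_antidiagonal_eq_sum_range_succ_mk]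
    unfold NN
    push_cast
    refine Finset.sum_congr rfl fun v _ => ?_
    rw [PowerSeries.coeff_mk, PowerSeries.coeff_mk]
    simp only [Function.iterate_zero, id_eq]
    rw [add_comm v a, add_comm (m - v) c]
  have h2 := PowerSeries.mk_add_choose_mul_one_sub_pow_eq_one ℤ a
  have h3 := PowerSeries.mk_add_choose_mul_one_sub_pow_eq_one ℤ c
  rw [h1, show a + 0 + c + 2 = (a + 1) + (c + 1) by ring, pow_add]
  calc _ = ((PowerSeries.mk fun n => ((a + n).choose a : ℤ)) * (1 - PowerSeries.X) ^ (a + 1)) *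
      ((PowerSeries.mk fun n => ((c + n).choose c : ℤ)) * (1 - PowerSeries.X) ^ (c + 1)) := by ring
    _ = 1 := by rw [h2, h3, one_mul]

theorem coe_one_sub_X : (((1 - Polynomial.X : Polynomial ℤ)) : PowerSeries ℤ) =
    1 - PowerSeries.X := by
  rw [Polynomial.coe_sub, Polynomial.coe_one, Polynomial.coe_X]

/-- The generating function of the counts. -/
theorem Gf_eq (b a c : ℕ) :
    Gf b a c * (1 - PowerSeries.X) ^ (a + b + c + 2) = (HH b a c : PowerSeries ℤ) := by
  induction b generalizing a c with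
  | zero => rw [Gf_b_zero, HH_b_zero, Polynomial.coe_one]
  | succ b ihb =>
    obtain ⟨Y, hY⟩ : ∃ Y : PowerSeries ℤ, Y = 1 - PowerSeries.X := ⟨_, rfl⟩
    rw [← hY] at ihb ⊢
    have hX : PowerSeries.X = 1 - Y := by rw [hY]; ring
    induction a generalizing c with
    | zero =>
      induction c with
      | zero =>
        have h1 := Gf_rec2 b
        have h2 := ihb 0 0
        rw [HH_zero_left, AA_zero_zero] at h2 ⊢
        rw [← h2]
        rw [hX] at h1
        rw [show 0 + (b + 1) + 0 + 2 = (b + 2) + 1 by ring, show 0 + b + 0 + 2 = b + 2 by ring,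
          pow_succ]
        linear_combination Y ^ (b + 2) * h1
      | succ c ihc =>
        have h1 := Gf_rec0 b c
        have h2 := ihb 0 (c + 1)
        have h3 := ihb 0 c
        have h4 := congrArg (fun p : Polynomial ℤ => (p : PowerSeries ℤ)) (AA_R1 b 0 c)
        simp only [Polynomial.coe_sub, Polynomial.coe_mul, Polynomial.coe_one,
          Polynomial.coe_X] at h4
        rw [← hY] at h4
        rw [HH_zero_left] at h2 h3 ihc ⊢
        rw [hX] at h1
        have e1 : 0 + (b + 1) + (c + 1) + 2 = (b + c + 3) + 1 := by ring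
        have e2 : 0 + (b + 1) + c + 2 = b + c + 3 := by ring
        have e3 : 0 + b + (c + 1) + 2 = b + c + 3 := by ring
        have e4 : 0 + b + c + 2 = b + c + 2 := by ring
        rw [e1]
        rw [e2] at ihc
        rw [e3] at h2
        rw [e4] at h3
        have e5 : Y ^ (b + c + 3) = Y * Y ^ (b + c + 2) := by ring
        rw [pow_succ]
        rw [e5] at ihc h2 ⊢
        linear_combination (Y * Y ^ (b + c + 2)) * h1 + ihc + h2 - Y * h3 - h4
    | succ a iha =>
      induction c with
      | zero =>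
        have h1 := Gf_rec1 b a
        have h2 := ihb (a + 1) 0
        have h3 := ihb a 0
        have h5 := iha 0
        have h4 := congrArg (fun p : Polynomial ℤ => (p : PowerSeries ℤ)) (AA_R1 b 0 a)
        simp only [Polynomial.coe_sub, Polynomial.coe_mul, Polynomial.coe_one,
          Polynomial.coe_X] at h4
        rw [← hY] at h4
        rw [HH_zero_right] at h2 h3 h5 ⊢
        rw [hX] at h1
        have e1 : a + 1 + (b + 1) + 0 + 2 = (b + a + 3) + 1 := by ring
        have e2 : a + (b + 1) + 0 + 2 = b + a + 3 := by ring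
        have e3 : a + 1 + b + 0 + 2 = b + a + 3 := by ring
        have e4 : a + b + 0 + 2 = b + a + 2 := by ring
        rw [e1]
        rw [e2] at h5
        rw [e3] at h2
        rw [e4] at h3
        have e5 : Y ^ (b + a + 3) = Y * Y ^ (b + a + 2) := by ring
        rw [pow_succ]
        rw [e5] at h5 h2 ⊢
        linear_combination (Y * Y ^ (b + a + 2)) * h1 + h5 + h2 - Y * h3 - h4
      | succ c ihc =>
        have h1 := Gf_rec b a c
        have g1 := iha (c + 1)
        have g2 := ihc
        have g3 := iha c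
        have g4 := ihb (a + 1) (c + 1)
        have g5 := ihb a (c + 1)
        have g6 := ihb (a + 1) c
        have g7 := ihb a c
        have h4 := congrArg (fun p : Polynomial ℤ => (p : PowerSeries ℤ)) (HH_rec b a c)
        simp only [Polynomial.coe_sub, Polynomial.coe_mul, Polynomial.coe_one,
          Polynomial.coe_X, Polynomial.coe_add, Polynomial.coe_pow] at h4
        rw [← hY] at h4
        rw [hX] at h1
        obtain ⟨Z, hZ⟩ : ∃ Z : PowerSeries ℤ, Z = Y ^ (a + b + c + 2) := ⟨_, rfl⟩
        have e1 : Y ^ (a + 1 + (b + 1) + (c + 1) + 2) = Y ^ 3 * Z := by rw [hZ]; ring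
        have e2 : Y ^ (a + (b + 1) + (c + 1) + 2) = Y ^ 2 * Z := by rw [hZ]; ring
        have e3 : Y ^ (a + 1 + (b + 1) + c + 2) = Y ^ 2 * Z := by rw [hZ]; ring
        have e4 : Y ^ (a + (b + 1) + c + 2) = Y * Z := by rw [hZ]; ring
        have e5 : Y ^ (a + 1 + b + (c + 1) + 2) = Y ^ 2 * Z := by rw [hZ]; ring
        have e6 : Y ^ (a + b + (c + 1) + 2) = Y * Z := by rw [hZ]; ring
        have e7 : Y ^ (a + 1 + b + c + 2) = Y * Z := by rw [hZ]; ring
        rw [e2] at g1
        rw [e3] at g2
        rw [e4] at g3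
        rw [e5] at g4
        rw [e6] at g5
        rw [e7] at g6
        rw [← hZ] at g7
        rw [e1]
        linear_combination (Y ^ 2 * Z) * h1 + g1 + g2 - Y * g3 + g4 - Y * g5 - Y * g6 +
          Y ^ 2 * g7 - h4

end Pool.Agent.Lib.ThreeRun
end

section

set_option autoImplicit false

namespace Pool.Agent.Lib.ThreeRun

open Polynomial

/-- the polynomial `f(D) X^M` -/
noncomputable def opX (M : ℕ) (f : ℂ[X]) : ℂ[X] :=
  aeval (derivative : Module.End ℂ ℂ[X]) f (X ^ M)

theorem opX_eq (M : ℕ) (f : ℂ[X]) : opX M f =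
    ∑ i ∈ Finset.range (M + 1), C (f.coeff i * (M.descFactorial i : ℂ)) * X ^ (M - i) := by
  unfold opX
  rw [aeval_eq_sum_range' (n := max (M + 1) (f.natDegree + 1)) (by omega),
    LinearMap.sum_apply]
  have h1 : ∀ i, ((f.coeff i • (derivative : Module.End ℂ ℂ[X]) ^ i) (X ^ M) : ℂ[X]) =
      C (f.coeff i * (M.descFactorial i : ℂ)) * X ^ (M - i) := by
    intro i
    rw [LinearMap.smul_apply, Module.End.pow_apply, iterate_derivative_X_pow_eq_smul,
      smul_smul, smul_eq_C_mul]
  rw [Finset.sum_congr rfl fun i _ => h1 i]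
  symm
  apply Finset.sum_subset
  · intro i hi
    rw [Finset.mem_range] at hi ⊢
    omega
  · intro i _ hi
    rw [Finset.mem_range] at hi
    rw [Nat.descFactorial_of_lt (by omega)]
    simp

theorem aeval_prod_hsm (s : Multiset ℂ) (hs : ∀ ζ ∈ s, ζ.im ≤ 0) (q : ℂ[X])
    (hq : HSm q ∨ q = 0) :
    HSm (aeval (derivative : Module.End ℂ ℂ[X]) ((s.map (fun ζ => X - C ζ)).prod) q) ∨
      aeval (derivative : Module.End ℂ ℂ[X]) ((s.map (fun ζ => X - C ζ)).prod) q = 0 := by
  induction s using Multiset.induction_on with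
  | empty => simpa using hq
  | cons ζ s ih =>
    have h1 := ih (fun ξ hξ => hs ξ (Multiset.mem_cons_of_mem hξ))
    rw [Multiset.map_cons, Multiset.prod_cons, map_mul, Module.End.mul_apply, map_sub, aeval_X,
      aeval_C, LinearMap.sub_apply, Module.algebraMap_end_apply, smul_eq_C_mul]
    rcases h1 with h1 | h1
    · exact h1.sub_mul (hs ζ (Multiset.mem_cons_self ζ s))
    · right
      rw [h1]
      simp

theorem opX_hsm (M : ℕ) {f : ℂ[X]} (hf : HS f) : HSm (opX M f) ∨ opX M f = 0 := by
  have hX : HSm ((X : ℂ[X]) ^ M) := by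
    intro z hz
    rw [eval_pow, eval_X]
    apply pow_ne_zero
    rintro rfl
    simp at hz
  have h1 := aeval_prod_hsm f.roots (fun ζ hζ => hf.root_im hζ) (X ^ M) (Or.inl hX)
  have h2 : opX M f = C f.leadingCoeff *
      aeval (derivative : Module.End ℂ ℂ[X]) ((f.roots.map (fun ζ => X - C ζ)).prod) (X ^ M) := by
    unfold opX
    conv_lhs => rw [(IsAlgClosed.splits f).eq_prod_roots]
    rw [map_mul, Module.End.mul_apply, aeval_C, Module.algebraMap_end_apply, smul_eq_C_mul]
  have h3 : f.leadingCoeff ≠ 0 := leadingCoeff_ne_zero.2 hf.ne_zero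
  rw [h2]
  rcases h1 with h1 | h1
  · left
    intro z hz
    rw [eval_mul, eval_C]
    exact mul_ne_zero h3 (h1 z hz)
  · right
    rw [h1, mul_zero]

/-- The multiplier lemma: `∑ f_i M(M-1)...(M-i+1) t^i` has no zero in the upper half plane. -/
theorem mul_ne_zero_of_hs (M : ℕ) {f : ℂ[X]} (hf : HS f) (hex : ∃ i ≤ M, f.coeff i ≠ 0) {t : ℂ}
    (ht : 0 < t.im) :
    ∑ i ∈ Finset.range (M + 1), f.coeff i * (M.descFactorial i : ℂ) * t ^ i ≠ 0 := by
  have ht0 : t ≠ 0 := by rintro rfl; simp at ht
  have h1 : opX M f ≠ 0 := by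
    obtain ⟨i, hi, hfi⟩ := hex
    intro hcon
    have h2 : (opX M f).coeff (M - i) = f.coeff i * (M.descFactorial i : ℂ) := by
      rw [opX_eq, finsetSum_coeff, Finset.sum_eq_single i]
      · rw [coeff_C_mul, coeff_X_pow, if_pos rfl, mul_one]
      · intro j hj hji
        rw [Finset.mem_range] at hj
        rw [coeff_C_mul, coeff_X_pow, if_neg (by omega), mul_zero]
      · intro h
        exact absurd (Finset.mem_range.2 (by omega)) h
    rw [hcon, coeff_zero] at h2
    have h3 : (M.descFactorial i : ℂ) ≠ 0 := by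
      rw [Nat.cast_ne_zero, Ne, Nat.descFactorial_eq_zero_iff_lt]
      omega
    exact mul_ne_zero hfi h3 h2.symm
  have h4 : HSm (opX M f) := (opX_hsm M hf).resolve_right h1
  have h5 := h4 (1 / t) (by
    have := inv_im_neg ht
    exact this)
  intro hcon
  apply h5
  rw [opX_eq, eval_finsetSum]
  have h6 : ∑ i ∈ Finset.range (M + 1), (C (f.coeff i * (M.descFactorial i : ℂ)) *
      X ^ (M - i) : ℂ[X]).eval (1 / t) = (1 / t) ^ M * ∑ i ∈ Finset.range (M + 1),
        f.coeff i * (M.descFactorial i : ℂ) * t ^ i := by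
    rw [Finset.mul_sum]
    refine Finset.sum_congr rfl fun i hi => ?_
    rw [Finset.mem_range] at hi
    have h7 : (1 / t) ^ M = (1 / t) ^ (M - i) * (1 / t) ^ i := by
      rw [← pow_add]
      congr 1
      omega
    have h8 : (1 / t) ^ i * t ^ i = 1 := by
      rw [← mul_pow, one_div_mul_cancel ht0, one_pow]
    rw [eval_mul, eval_C, eval_pow, eval_X, h7]
    linear_combination (-(f.coeff i * (M.descFactorial i : ℂ)) * (1 / t) ^ (M - i)) * h8
  rw [h6, hcon, mul_zero]

end Pool.Agent.Lib.ThreeRun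
end
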