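import Mathlib
import Pool.Agent.Lib.MP_7d55f0_co.ZDefs

section

set_option autoImplicit false

namespace Pool.Agent.Lib.Zigzag

/-- `TT n j` bounds the ratio of the term `k = n - 2j` to the main term (without zeta-like factors). -/
noncomputable def TT (n j : ℕ) : ℝ :=
  (((n : ℝ) + 1) / ((n : ℝ) - 2 * j + 1)) *
    (∏ i ∈ Finset.range j, ((((n : ℝ) - 2 * j + 1) / 6 + i) / ((i : ℝ) + 1))) *
    ((((n - 2 * j).factorial : ℕ) : ℝ) / (n.factorial : ℝ)) * (1.925 * n) ^ j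

theorem TT_nonneg {n j : ℕ} (hj : 2 * j ≤ n) : 0 ≤ TT n j := by
  have h : (0 : ℝ) ≤ (n : ℝ) - 2 * j := by
    have : ((2 * j : ℕ) : ℝ) ≤ n := by exact_mod_cast hj
    push_cast at this
    linarith
  unfold TT
  have h1 : (0 : ℝ) ≤ (n : ℝ) - 2 * j + 1 := by linarith
  have h2 : (0 : ℝ) ≤ ∏ i ∈ Finset.range j, ((((n : ℝ) - 2 * j + 1) / 6 + i) / ((i : ℝ) + 1)) := by
    apply Finset.prod_nonneg
    intro i _
    positivity
  positivity

/-- Explicit: `TT n 1 = 1.925/6 * (n+1)/(n-1)`; value at n = 100 is 0.32732, decreasing. -/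
theorem TT_one {n : ℕ} (hn : 100 ≤ n) : TT n 1 ≤ 0.328 := by
  obtain ⟨m, rfl⟩ : ∃ m, n = m + 100 := ⟨n - 100, by omega⟩
  have e1 : m + 100 - 2 * 1 = m + 98 := by omega
  have e2 : ((m + 100).factorial : ℝ) = (m + 100) * (m + 99) * ((m + 98).factorial : ℝ) := by
    rw [Nat.factorial_succ (m + 99), Nat.factorial_succ (m + 98)]
    push_cast; ring
  have hf : (0 : ℝ) < ((m + 98).factorial : ℝ) := Nat.cast_pos.mpr (Nat.factorial_pos _)
  unfold TT
  rw [e1, e2]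
  generalize ((m + 98).factorial : ℝ) = F at hf ⊢
  simp only [Finset.prod_range_succ, Finset.prod_range_zero]
  push_cast
  generalize hx : (m : ℝ) = x
  have hx0 : (0 : ℝ) ≤ x := hx ▸ Nat.cast_nonneg m
  have h99 : (0 : ℝ) < x + 99 := by linarith
  have h100 : (0 : ℝ) < x + 100 := by linarith
  have key : (x + 100 + 1) / (x + 100 - 2 * 1 + 1) * (1 * (((x + 100 - 2 * 1 + 1) / 6 + 0) / (0 + 1))) *
      (F / ((x + 100) * (x + 99) * F)) *
      (1.925 * (x + 100)) ^ 1 = 1.925 / 6 * (x + 101) / (x + 99) := by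
    have h3 : x + 100 - 2 * 1 + 1 = x + 99 := by ring
    rw [h3]
    field_simp
    ring
  rw [key, div_le_iff₀ h99]
  nlinarith

/-- Explicit: `TT n 2 = 1.925²/72 * n(n+1)(n+3)/((n-1)(n-2)(n-3))`; value at n = 100 is 0.0569, decreasing. -/
theorem TT_two {n : ℕ} (hn : 100 ≤ n) : TT n 2 ≤ 0.057 := by
  obtain ⟨m, rfl⟩ : ∃ m, n = m + 100 := ⟨n - 100, by omega⟩
  have e1 : m + 100 - 2 * 2 = m + 96 := by omega
  have e2 : ((m + 100).factorial : ℝ) = (m + 100) * (m + 99) * (m + 98) * (m + 97) *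
      ((m + 96).factorial : ℝ) := by
    rw [Nat.factorial_succ (m + 99), Nat.factorial_succ (m + 98), Nat.factorial_succ (m + 97),
      Nat.factorial_succ (m + 96)]
    push_cast; ring
  have hf : (0 : ℝ) < ((m + 96).factorial : ℝ) := Nat.cast_pos.mpr (Nat.factorial_pos _)
  unfold TT
  rw [e1, e2]
  generalize ((m + 96).factorial : ℝ) = F at hf ⊢
  simp only [Finset.prod_range_succ, Finset.prod_range_zero]
  push_cast
  generalize hx : (m : ℝ) = x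
  have hx0 : (0 : ℝ) ≤ x := hx ▸ Nat.cast_nonneg m
  have h97 : (0 : ℝ) < x + 97 := by linarith
  have h98 : (0 : ℝ) < x + 98 := by linarith
  have h99 : (0 : ℝ) < x + 99 := by linarith
  have h100 : (0 : ℝ) < x + 100 := by linarith
  have key : (x + 100 + 1) / (x + 100 - 2 * 2 + 1) *
      (1 * (((x + 100 - 2 * 2 + 1) / 6 + 0) / (0 + 1)) *
        (((x + 100 - 2 * 2 + 1) / 6 + 1) / (1 + 1))) *
      (F / ((x + 100) * (x + 99) * (x + 98) * (x + 97) *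
        F)) *
      (1.925 * (x + 100)) ^ 2 =
      1.925 ^ 2 / 72 * ((x + 100) * (x + 101) * (x + 103)) / ((x + 99) * (x + 98) * (x + 97)) := by
    have h3 : x + 100 - 2 * 2 + 1 = x + 97 := by ring
    rw [h3]
    field_simp
    ring
  rw [key, div_le_iff₀ (by positivity)]
  have h2 : 0 ≤ x ^ 2 := by positivity
  have h3 : 0 ≤ x ^ 3 := by positivity
  nlinarith

/-- Explicit: `TT n 3 = 1.925³/1296 * (n+1)²(n+7)n²/((n-1)(n-2)(n-3)(n-4)(n-5))`; value at n = 100 is 0.0070. -/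
theorem TT_three {n : ℕ} (hn : 100 ≤ n) : TT n 3 ≤ 0.0071 := by
  obtain ⟨m, rfl⟩ : ∃ m, n = m + 100 := ⟨n - 100, by omega⟩
  have e1 : m + 100 - 2 * 3 = m + 94 := by omega
  have e2 : ((m + 100).factorial : ℝ) = (m + 100) * (m + 99) * (m + 98) * (m + 97) * (m + 96) *
      (m + 95) * ((m + 94).factorial : ℝ) := by
    rw [Nat.factorial_succ (m + 99), Nat.factorial_succ (m + 98), Nat.factorial_succ (m + 97),
      Nat.factorial_succ (m + 96), Nat.factorial_succ (m + 95), Nat.factorial_succ (m + 94)]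
    push_cast; ring
  have hf : (0 : ℝ) < ((m + 94).factorial : ℝ) := Nat.cast_pos.mpr (Nat.factorial_pos _)
  unfold TT
  rw [e1, e2]
  generalize ((m + 94).factorial : ℝ) = F at hf ⊢
  simp only [Finset.prod_range_succ, Finset.prod_range_zero]
  push_cast
  generalize hx : (m : ℝ) = x
  have hx0 : (0 : ℝ) ≤ x := hx ▸ Nat.cast_nonneg m
  have h95 : (0 : ℝ) < x + 95 := by linarith
  have h96 : (0 : ℝ) < x + 96 := by linarith
  have h97 : (0 : ℝ) < x + 97 := by linarith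
  have h98 : (0 : ℝ) < x + 98 := by linarith
  have h99 : (0 : ℝ) < x + 99 := by linarith
  have h100 : (0 : ℝ) < x + 100 := by linarith
  have key : (x + 100 + 1) / (x + 100 - 2 * 3 + 1) *
      (1 * (((x + 100 - 2 * 3 + 1) / 6 + 0) / (0 + 1)) *
        (((x + 100 - 2 * 3 + 1) / 6 + 1) / (1 + 1)) *
        (((x + 100 - 2 * 3 + 1) / 6 + 2) / (2 + 1))) *
      (F / ((x + 100) * (x + 99) * (x + 98) * (x + 97) * (x + 96) *
        (x + 95) * F)) *
      (1.925 * (x + 100)) ^ 3 =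
      1.925 ^ 3 / 1296 * ((x + 101) ^ 2 * (x + 107) * (x + 100) ^ 2) /
        ((x + 99) * (x + 98) * (x + 97) * (x + 96) * (x + 95)) := by
    have h3 : x + 100 - 2 * 3 + 1 = x + 95 := by ring
    rw [h3]
    field_simp
    ring
  rw [key, div_le_iff₀ (by positivity)]
  have h2 : 0 ≤ x ^ 2 := by positivity
  have h3 : 0 ≤ x ^ 3 := by positivity
  have h4 : 0 ≤ x ^ 4 := by positivity
  have h5 : 0 ≤ x ^ 5 := by positivity
  nlinarith

end Pool.Agent.Lib.Zigzag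
end

section

set_option autoImplicit false

namespace Pool.Agent.Lib.Zigzag

open Real

private theorem ZTrig_sin_lower {u : ℝ} (hu : 0 ≤ u) : u - u ^ 3 / 6 ≤ sin u := by
  have hm : MonotoneOn (fun x : ℝ => sin x - (x - x ^ 3 / 6)) (Set.Ici 0) := by
    apply monotoneOn_of_deriv_nonneg (convex_Ici 0)
    · fun_prop
    · fun_prop
    · intro x _
      have hd : HasDerivAt (fun x : ℝ => sin x - (x - x ^ 3 / 6)) (cos x - (1 - 3 * x ^ 2 / 6)) x := by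
        have h1 := (hasDerivAt_sin x).sub ((hasDerivAt_id x).sub ((hasDerivAt_pow 3 x).div_const 6))
        exact h1.congr_deriv (by norm_num)
      rw [hd.deriv]
      have := one_sub_sq_div_two_le_cos (x := x)
      linarith
  have h := hm (Set.mem_Ici.2 le_rfl) (Set.mem_Ici.2 hu) hu
  simp at h
  linarith

private theorem ZTrig_cos_upper {u : ℝ} (hu : 0 ≤ u) : cos u ≤ 1 - u ^ 2 / 2 + u ^ 4 / 24 := by
  have hm : MonotoneOn (fun x : ℝ => (1 - x ^ 2 / 2 + x ^ 4 / 24) - cos x) (Set.Ici 0) := by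
    apply monotoneOn_of_deriv_nonneg (convex_Ici 0)
    · fun_prop
    · fun_prop
    · intro x hx
      rw [interior_Ici] at hx
      have hx : 0 < x := hx
      have hd : HasDerivAt (fun x : ℝ => (1 - x ^ 2 / 2 + x ^ 4 / 24) - cos x)
          ((0 - (2 * x) / 2 + (4 * x ^ 3) / 24) - (-sin x)) x := by
        have h1 := ((((hasDerivAt_const x (1 : ℝ)).sub ((hasDerivAt_pow 2 x).div_const 2)).add
          ((hasDerivAt_pow 4 x).div_const 24))).sub (hasDerivAt_cos x)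
        exact h1.congr_deriv (by norm_num)
      rw [hd.deriv]
      have := ZTrig_sin_lower hx.le
      nlinarith
  have h := hm (Set.mem_Ici.2 le_rfl) (Set.mem_Ici.2 hu) hu
  simp at h
  linarith

private theorem ZTrig_sin_upper {u : ℝ} (hu : 0 ≤ u) : sin u ≤ u - u ^ 3 / 6 + u ^ 5 / 120 := by
  have hm : MonotoneOn (fun x : ℝ => (x - x ^ 3 / 6 + x ^ 5 / 120) - sin x) (Set.Ici 0) := by
    apply monotoneOn_of_deriv_nonneg (convex_Ici 0)
    · fun_prop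
    · fun_prop
    · intro x hx
      rw [interior_Ici] at hx
      have hx : 0 < x := hx
      have hd : HasDerivAt (fun x : ℝ => (x - x ^ 3 / 6 + x ^ 5 / 120) - sin x)
          ((1 - (3 * x ^ 2) / 6 + (5 * x ^ 4) / 120) - cos x) x := by
        have h1 := ((((hasDerivAt_id x).sub ((hasDerivAt_pow 3 x).div_const 6)).add
          ((hasDerivAt_pow 5 x).div_const 120))).sub (hasDerivAt_sin x)
        exact h1.congr_deriv (by norm_num)
      rw [hd.deriv]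
      have := ZTrig_cos_upper hx.le
      nlinarith
  have h := hm (Set.mem_Ici.2 le_rfl) (Set.mem_Ici.2 hu) hu
  simp at h
  linarith

/-- The polynomial inequality behind `sin_ratio`. -/
private theorem ZTrig_poly {s a : ℝ} (hs : 0 < s) (hs1 : s ≤ 1 / 25) (ha : 0.411 ≤ a)
    (ha1 : a ≤ 0.4113) :
    (1 - 4 * s) ^ 3 * (1 - a * s + 0.3 * a ^ 2 * s ^ 2) ^ 2 ≤
      (1 - 3.5 * s) * ((1 - 4 * s) ^ 2 - 2 * a * s * (1 + 4 * s) + a ^ 2 * s ^ 2) := by
  have ha2 : a ^ 2 ≤ 0.1692 := by nlinarith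
  have ha2' : 0.1689 ≤ a ^ 2 := by nlinarith
  have ha0 : 0 < a := by linarith
  have ha3 : a ^ 3 ≤ 0.0696 := by
    have h := mul_le_mul ha2 ha1 ha0.le (by norm_num)
    have e : a ^ 3 = a ^ 2 * a := by ring
    rw [e]
    exact h.trans (by norm_num)
  have ha4 : a ^ 4 ≤ 0.0287 := by
    have h := mul_le_mul ha2 ha2 (sq_nonneg a) (by norm_num)
    have e : a ^ 4 = a ^ 2 * a ^ 2 := by ring
    rw [e]
    exact h.trans (by norm_num)
  have ha3' : 0 < a ^ 3 := by positivity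
  have ha4' : 0 < a ^ 4 := by positivity
  have hs2 : s ^ 2 ≤ s / 25 := by nlinarith
  -- the difference divided by `s`
  have key : 0 ≤ 0.5 - (4 + 25 * a + 0.6 * a ^ 2) * s
      + (8 + 124 * a + 15.7 * a ^ 2 + 0.6 * a ^ 3) * s ^ 2
      - (128 * a + 76.8 * a ^ 2 + 7.2 * a ^ 3 + 0.09 * a ^ 4) * s ^ 3
      + (102.4 * a ^ 2 + 28.8 * a ^ 3 + 1.08 * a ^ 4) * s ^ 4
      - (38.4 * a ^ 3 + 4.32 * a ^ 4) * s ^ 5 + 5.76 * a ^ 4 * s ^ 6 := by
    have h1 : (4 + 25 * a + 0.6 * a ^ 2) * s ≤ 14.39 * s := by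
      apply mul_le_mul_of_nonneg_right _ hs.le
      linarith
    have h2 : 61.6 * s ^ 2 ≤ (8 + 124 * a + 15.7 * a ^ 2 + 0.6 * a ^ 3) * s ^ 2 := by
      apply mul_le_mul_of_nonneg_right _ (by positivity)
      linarith
    have h3 : (128 * a + 76.8 * a ^ 2 + 7.2 * a ^ 3 + 0.09 * a ^ 4) * s ^ 3 ≤ 66.2 * s ^ 3 := by
      apply mul_le_mul_of_nonneg_right _ (by positivity)
      linarith
    have h4 : 0 ≤ (102.4 * a ^ 2 + 28.8 * a ^ 3 + 1.08 * a ^ 4) * s ^ 4 := by positivity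
    have h5 : (38.4 * a ^ 3 + 4.32 * a ^ 4) * s ^ 5 ≤ 3 * s ^ 5 := by
      apply mul_le_mul_of_nonneg_right _ (by positivity)
      linarith
    have h6 : 0 ≤ 5.76 * a ^ 4 * s ^ 6 := by positivity
    have h7 : s ^ 5 ≤ s ^ 3 / 625 := by
      have : s ^ 5 = s ^ 3 * s ^ 2 := by ring
      rw [this]
      have h8 : s ^ 2 ≤ 1 / 625 := by nlinarith
      have := mul_le_mul_of_nonneg_left h8 (by positivity : (0 : ℝ) ≤ s ^ 3)
      linarith
    have h9 : 0 ≤ 0.5 - 14.39 * s + 61.6 * s ^ 2 - 66.3 * s ^ 3 := by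
      have h10 : s ^ 3 ≤ s ^ 2 / 25 := by
        have : s ^ 3 = s ^ 2 * s := by ring
        rw [this]
        have := mul_le_mul_of_nonneg_left hs1 (by positivity : (0 : ℝ) ≤ s ^ 2)
        linarith
      nlinarith [mul_nonneg (sub_nonneg.2 hs1) (sub_nonneg.2 hs1)]
    have h11 : 0 ≤ s ^ 3 := by positivity
    linarith
  have hid : (1 - 3.5 * s) * ((1 - 4 * s) ^ 2 - 2 * a * s * (1 + 4 * s) + a ^ 2 * s ^ 2) -
      (1 - 4 * s) ^ 3 * (1 - a * s + 0.3 * a ^ 2 * s ^ 2) ^ 2 =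
      s * (0.5 - (4 + 25 * a + 0.6 * a ^ 2) * s
      + (8 + 124 * a + 15.7 * a ^ 2 + 0.6 * a ^ 3) * s ^ 2
      - (128 * a + 76.8 * a ^ 2 + 7.2 * a ^ 3 + 0.09 * a ^ 4) * s ^ 3
      + (102.4 * a ^ 2 + 28.8 * a ^ 3 + 1.08 * a ^ 4) * s ^ 4
      - (38.4 * a ^ 3 + 4.32 * a ^ 4) * s ^ 5 + 5.76 * a ^ 4 * s ^ 6) := by
    ring
  have := mul_nonneg hs.le key
  linarith

/-- Proof: Taylor bounds `sin u ≤ u - u³/6 + u⁵/120`, `sin u ≥ u - u³/6` with `u = π/(2N)`, `u± = π/(2(N±2))`;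
multiply by `(2N/π)²`: with `s = 1/N²`, `a = π²/24`, claim
`(1 - a s + (π⁴/1920) s²)² (1-4s) ≤ (1-3.5 s)(1 - a/(N+2)²)(1 - a/(N-2)²)`. The true constant is
`4 - π²/N²`-like (3.543 at N = 5, increasing). -/
theorem sin_ratio {N : ℝ} (hN : 5 ≤ N) :
    sin (π / (2 * N)) ^ 2 ≤ (1 - 3.5 / N ^ 2) * (sin (π / (2 * (N + 2))) * sin (π / (2 * (N - 2)))) := by
  have hpi := pi_pos
  have hpi1 : 3.1415 < π := pi_gt_d4
  have hpi2 : π < 3.1416 := pi_lt_d4
  have hN0 : 0 < N := by linarith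
  have hN2 : 0 < N - 2 := by linarith
  have hN2' : 0 < N + 2 := by linarith
  have hu : 0 ≤ π / (2 * N) := by positivity
  have hup : 0 ≤ π / (2 * (N + 2)) := by positivity
  have hum : 0 ≤ π / (2 * (N - 2)) := by positivity
  have h1 := ZTrig_sin_upper hu
  have h2 := ZTrig_sin_lower hup
  have h3 := ZTrig_sin_lower hum
  obtain ⟨a, ha⟩ : ∃ a, a = π ^ 2 / 24 := ⟨_, rfl⟩
  have hpp1 : (3.1415 : ℝ) ^ 2 ≤ π ^ 2 := pow_le_pow_left₀ (by norm_num) hpi1.le 2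
  have hpp2 : π ^ 2 ≤ (3.1416 : ℝ) ^ 2 := pow_le_pow_left₀ hpi.le hpi2.le 2
  have ha1 : 0.411 ≤ a := by rw [ha]; linarith
  have ha2 : a ≤ 0.4113 := by rw [ha]; linarith
  obtain ⟨s, hs⟩ : ∃ s, s = 1 / N ^ 2 := ⟨_, rfl⟩
  have hs0 : 0 < s := by rw [hs]; positivity
  have hs1 : s ≤ 1 / 25 := by
    rw [hs]
    apply one_div_le_one_div_of_le (by norm_num)
    have hNN25 : (5 : ℝ) ^ 2 ≤ N ^ 2 := pow_le_pow_left₀ (by norm_num) hN 2
    linarith
  have hpoly := ZTrig_poly hs0 hs1 ha1 ha2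
  -- rewrite the bounds
  have e1 : π / (2 * N) - (π / (2 * N)) ^ 3 / 6 + (π / (2 * N)) ^ 5 / 120 =
      π / (2 * N) * (1 - a * s + 0.3 * a ^ 2 * s ^ 2) := by
    rw [ha, hs]; field_simp; ring
  have e2 : π / (2 * (N + 2)) - (π / (2 * (N + 2))) ^ 3 / 6 =
      π / (2 * (N + 2)) * (1 - a / (N + 2) ^ 2) := by
    rw [ha]; field_simp; ring
  have e3 : π / (2 * (N - 2)) - (π / (2 * (N - 2))) ^ 3 / 6 =
      π / (2 * (N - 2)) * (1 - a / (N - 2) ^ 2) := by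
    rw [ha]; field_simp; ring
  rw [e1] at h1
  rw [e2] at h2
  rw [e3] at h3
  have hsinpos : 0 ≤ sin (π / (2 * N)) := by
    apply sin_nonneg_of_nonneg_of_le_pi hu
    exact div_le_self hpi.le (by linarith)
  have hA2 : 0 ≤ π / (2 * (N + 2)) * (1 - a / (N + 2) ^ 2) := by
    apply mul_nonneg hup
    have h1N : (1 : ℝ) ≤ (N + 2) ^ 2 := one_le_pow₀ (by linarith)
    have : a / (N + 2) ^ 2 ≤ 1 := by
      rw [div_le_one (by positivity)]; linarith
    linarith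
  have hA3 : 0 ≤ π / (2 * (N - 2)) * (1 - a / (N - 2) ^ 2) := by
    apply mul_nonneg hum
    have h1N : (1 : ℝ) ≤ (N - 2) ^ 2 := one_le_pow₀ (by linarith)
    have : a / (N - 2) ^ 2 ≤ 1 := by
      rw [div_le_one (by positivity)]; linarith
    linarith
  have hcoef : 0 ≤ 1 - 3.5 / N ^ 2 := by
    have hNN25 : (5 : ℝ) ^ 2 ≤ N ^ 2 := pow_le_pow_left₀ (by norm_num) hN 2
    have : 3.5 / N ^ 2 ≤ 1 := by
      rw [div_le_one (by positivity)]; linarith
    linarith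
  have hL : sin (π / (2 * N)) ^ 2 ≤ (π / (2 * N) * (1 - a * s + 0.3 * a ^ 2 * s ^ 2)) ^ 2 :=
    pow_le_pow_left₀ hsinpos h1 2
  have hR : (π / (2 * (N + 2)) * (1 - a / (N + 2) ^ 2)) *
      (π / (2 * (N - 2)) * (1 - a / (N - 2) ^ 2)) ≤
      sin (π / (2 * (N + 2))) * sin (π / (2 * (N - 2))) :=
    mul_le_mul h2 h3 hA3 (le_trans hA2 h2)
  refine le_trans hL (le_trans ?_ (mul_le_mul_of_nonneg_left hR hcoef))
  -- clear denominators
  have hs4 : 0 < 1 - 4 * s := by linarith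
  have e4 : (1 - 3.5 / N ^ 2) * ((π / (2 * (N + 2)) * (1 - a / (N + 2) ^ 2)) *
      (π / (2 * (N - 2)) * (1 - a / (N - 2) ^ 2))) =
      (π / (2 * N)) ^ 2 * ((1 - 3.5 * s) * ((1 - 4 * s) ^ 2 - 2 * a * s * (1 + 4 * s) +
        a ^ 2 * s ^ 2) / (1 - 4 * s) ^ 3) := by
    have hs4' : 1 - 4 * s = (N - 2) * (N + 2) / N ^ 2 := by
      rw [hs]; field_simp; ring
    rw [hs4', hs]
    field_simp
    ring
  rw [e4, mul_pow]
  apply mul_le_mul_of_nonneg_left _ (by positivity)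
  rw [le_div_iff₀ (by positivity)]
  linarith

/-- Proof: `log tan(π/(2x))` is convex in `x`; or `tan² = sin²/cos²`, `sin_ratio` and
`cos(u₊) cos(u₋) ≤ cos² u / (1 - 3.5/N²)`; numerically the quotient of the two sides is 0.80 at N = 5 and tends
to 1 like `1 - 4/N²`. -/
theorem tan_ratio {N : ℝ} (hN : 5 ≤ N) :
    tan (π / (2 * N)) ^ 2 ≤ tan (π / (2 * (N + 2))) * tan (π / (2 * (N - 2))) := by
  have hpi := pi_pos
  have hN0 : 0 < N := by linarith
  have hN2 : 0 < N - 2 := by linarith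
  have hN2' : 0 < N + 2 := by linarith
  have h := sin_ratio hN
  obtain ⟨u, hu⟩ : ∃ u, u = π / (2 * N) := ⟨_, rfl⟩
  obtain ⟨p, hp⟩ : ∃ p, p = π / (2 * (N + 2)) := ⟨_, rfl⟩
  obtain ⟨m, hm⟩ : ∃ m, m = π / (2 * (N - 2)) := ⟨_, rfl⟩
  rw [← hu, ← hp, ← hm] at h
  rw [← hu, ← hp, ← hm]
  have hu0 : 0 < u := by rw [hu]; positivity
  have hp0 : 0 < p := by rw [hp]; positivity
  have hm0 : 0 < m := by rw [hm]; positivity
  have hu1 : u < π / 2 := by
    rw [hu]; exact div_lt_div_of_pos_left hpi (by norm_num) (by linarith)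
  have hp1 : p < π / 2 := by
    rw [hp]; exact div_lt_div_of_pos_left hpi (by norm_num) (by linarith)
  have hm1 : m < π / 2 := by
    rw [hm]; exact div_lt_div_of_pos_left hpi (by norm_num) (by linarith)
  have hcu : 0 < cos u := cos_pos_of_mem_Ioo ⟨by linarith, hu1⟩
  have hcp : 0 < cos p := cos_pos_of_mem_Ioo ⟨by linarith, hp1⟩
  have hcm : 0 < cos m := cos_pos_of_mem_Ioo ⟨by linarith, hm1⟩
  have hsp : 0 < sin p := sin_pos_of_pos_of_lt_pi hp0 (by linarith)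
  have hsm : 0 < sin m := sin_pos_of_pos_of_lt_pi hm0 (by linarith)
  have hsum : 2 * u ≤ p + m := by
    rw [hu, hp, hm]
    have e : π / (2 * (N + 2)) + π / (2 * (N - 2)) - 2 * (π / (2 * N)) =
        4 * π / (N * (N + 2) * (N - 2)) := by
      field_simp; ring
    have : 0 ≤ 4 * π / (N * (N + 2) * (N - 2)) := by positivity
    linarith
  have hcc : cos p * cos m ≤ cos u ^ 2 := by
    have h1 : cos (p + m) ≤ cos (2 * u) :=
      cos_le_cos_of_nonneg_of_le_pi (by linarith) (by linarith) hsum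
    have h2 : cos (m - p) ≤ 1 := cos_le_one _
    rw [cos_add] at h1
    rw [cos_sub] at h2
    rw [cos_two_mul] at h1
    nlinarith
  have hcoef : 1 - 3.5 / N ^ 2 ≤ 1 := by
    have : 0 ≤ 3.5 / N ^ 2 := by positivity
    linarith
  have hss : sin u ^ 2 ≤ sin p * sin m := by
    refine le_trans h ?_
    have := mul_le_mul_of_nonneg_right hcoef (mul_pos hsp hsm).le
    linarith
  rw [tan_eq_sin_div_cos, tan_eq_sin_div_cos, tan_eq_sin_div_cos, div_pow, div_mul_div_comm,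
    div_le_div_iff₀ (by positivity) (by positivity)]
  exact mul_le_mul hss hcc (by positivity) (by positivity)

end Pool.Agent.Lib.Zigzag
end

section

set_option autoImplicit false

namespace Pool.Agent.Lib.Zigzag

open Real

private theorem ZKTail_hasSum_two :
    HasSum (fun e : ℕ => 1 / ((e : ℝ) + 1) ^ 2) (π ^ 2 / 6) := by
  have h := hasSum_zeta_two
  have h2 := (hasSum_nat_add_iff' (f := fun n : ℕ => 1 / (n : ℝ) ^ 2) 1).2 h
  simpa using h2

private theorem ZKTail_hasSum_four :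
    HasSum (fun e : ℕ => 1 / ((e : ℝ) + 1) ^ 4) (π ^ 4 / 90) := by
  have h := hasSum_zeta_four
  have h2 := (hasSum_nat_add_iff' (f := fun n : ℕ => 1 / (n : ℝ) ^ 4) 1).2 h
  simpa using h2

private theorem ZKTail_pow25 {s : ℝ} (hs : 0 ≤ s) : 2300 * s ^ 3 ≤ (s + 1) ^ 25 := by
  rw [add_pow]
  have h : s ^ 3 * 1 ^ (25 - 3) * ((Nat.choose 25 3 : ℕ) : ℝ) ≤
      ∑ m ∈ Finset.range (25 + 1), s ^ m * 1 ^ (25 - m) * ((Nat.choose 25 m : ℕ) : ℝ) :=
    Finset.single_le_sum (f := fun m => s ^ m * 1 ^ (25 - m) * ((Nat.choose 25 m : ℕ) : ℝ))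
      (fun m _ => by positivity) (Finset.mem_range.2 (by norm_num))
  have h2 : ((Nat.choose 25 3 : ℕ) : ℝ) = 2300 := by
    norm_num [Nat.choose]
  rw [h2] at h
  calc 2300 * s ^ 3 = s ^ 3 * 1 ^ (25 - 3) * 2300 := by ring
    _ ≤ _ := h

private theorem ZKTail_key {n : ℕ} (hn : 100 ≤ n) {E y : ℝ} (hE : 1 ≤ E)
    (hy : 25.3 * E ^ 2 / n ≤ y) : 37 * E ^ 6 ≤ (1 + y) ^ ((n : ℝ) / 4) := by
  have hn' : (100 : ℝ) ≤ n := by exact_mod_cast hn
  have hn0 : (0 : ℝ) < n := by linarith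
  have hy0 : 0 ≤ y := le_trans (by positivity) hy
  have h1 : 1 + (n : ℝ) / 100 * y ≤ (1 + y) ^ ((n : ℝ) / 100) :=
    one_add_mul_self_le_rpow_one_add (by linarith) (by rw [le_div_iff₀ (by norm_num)]; linarith)
  have h2 : 0.253 * E ^ 2 ≤ (n : ℝ) / 100 * y := by
    have : 25.3 * E ^ 2 ≤ y * n := by rwa [div_le_iff₀ hn0] at hy
    nlinarith
  have h3 : (1 + y) ^ ((n : ℝ) / 4) = ((1 + y) ^ ((n : ℝ) / 100)) ^ 25 := by
    rw [← Real.rpow_natCast, ← Real.rpow_mul (by linarith)]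
    congr 1
    push_cast
    ring
  rw [h3]
  have h4 : 0.253 * E ^ 2 + 1 ≤ (1 + y) ^ ((n : ℝ) / 100) := by linarith
  have h5 : (0.253 * E ^ 2 + 1) ^ 25 ≤ ((1 + y) ^ ((n : ℝ) / 100)) ^ 25 :=
    pow_le_pow_left₀ (by positivity) h4 25
  have h6 := ZKTail_pow25 (s := 0.253 * E ^ 2) (by positivity)
  have h7 : 37 * E ^ 6 ≤ 2300 * (0.253 * E ^ 2) ^ 3 := by
    have : 2300 * (0.253 * E ^ 2) ^ 3 = 2300 * 0.253 ^ 3 * E ^ 6 := by ring
    rw [this]
    have hE6 : 0 ≤ E ^ 6 := by positivity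
    have : (37 : ℝ) ≤ 2300 * 0.253 ^ 3 := by norm_num
    exact mul_le_mul_of_nonneg_right this hE6
  linarith

private theorem ZKTail_y {n : ℕ} (hn : 100 ≤ n) {r : ℝ} (hr : 0 < r) (hr2 : r ^ 2 ≤ 0.78 * n)
    (E : ℝ) : 25.3 * E ^ 2 / n ≤ 2 * π ^ 2 * E ^ 2 / r ^ 2 := by
  have hn' : (100 : ℝ) ≤ n := by exact_mod_cast hn
  have hn0 : (0 : ℝ) < n := by linarith
  have hr0 : 0 < r ^ 2 := by positivity
  have hpi : 9.869 < π ^ 2 := by
    have := Real.pi_gt_d4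
    nlinarith
  rw [div_le_div_iff₀ hn0 hr0]
  have hE : 0 ≤ E ^ 2 := by positivity
  calc 25.3 * E ^ 2 * r ^ 2 ≤ 25.3 * E ^ 2 * (0.78 * n) :=
        mul_le_mul_of_nonneg_left hr2 (by positivity)
    _ = (25.3 * 0.78) * (E ^ 2 * n) := by ring
    _ ≤ (2 * π ^ 2) * (E ^ 2 * n) :=
        mul_le_mul_of_nonneg_right (by linarith) (by positivity)
    _ = 2 * π ^ 2 * E ^ 2 * n := by ring

private theorem ZKTail_inv {a κ B : ℝ} (ha : 0 ≤ a) (hB : 0 < B)
    (h : B ≤ (1 + a) ^ κ) : (1 / (1 + a)) ^ κ ≤ 1 / B := by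
  rw [one_div, Real.inv_rpow (by linarith), ← one_div]
  exact one_div_le_one_div_of_le hB h

private theorem ZKTail_half {z : ℝ} (hz : 0 ≤ z) (x : ℝ) : z ^ (x / 2) = (z ^ (x / 4)) ^ 2 := by
  rw [← Real.rpow_natCast, ← Real.rpow_mul hz]
  congr 1
  push_cast
  ring

private theorem ZKTail_pi4 : π ^ 4 / 90 ≤ 1.083 := by
  have h1 := Real.pi_lt_d4
  have h0 := Real.pi_pos
  have h2 : π ^ 2 < 9.8699 := by nlinarith
  have h3 : π ^ 4 < 9.8699 * 9.8699 := by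
    have h4 : 0 < π ^ 2 := by positivity
    nlinarith
  rw [div_le_iff₀ (by norm_num)]
  norm_num at h3 ⊢
  linarith

/-- Proof: each term is at most `r²/(2π² e²)` (exponent `≥ 1`, `(1+x)^κ ≥ x`), `∑ 1/e² = π²/6`. -/
theorem lip_tail_crude {k : ℕ} (hk : 1 ≤ k) {r : ℝ} (hr : 0 < r) :
    Summable (fun e : ℕ => (1 / (1 + 2 * π ^ 2 * ((e : ℝ) + 1) ^ 2 / r ^ 2)) ^ (((k : ℝ) + 1) / 2)) ∧
    2 * ∑' e : ℕ, (1 / (1 + 2 * π ^ 2 * ((e : ℝ) + 1) ^ 2 / r ^ 2)) ^ (((k : ℝ) + 1) / 2) ≤ r ^ 2 / 6 := by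
  have hpi := Real.pi_pos
  have hk' : (1 : ℝ) ≤ k := by exact_mod_cast hk
  have hle : ∀ e : ℕ, (1 / (1 + 2 * π ^ 2 * ((e : ℝ) + 1) ^ 2 / r ^ 2)) ^ (((k : ℝ) + 1) / 2) ≤
      r ^ 2 / (2 * π ^ 2) * (1 / ((e : ℝ) + 1) ^ 2) := by
    intro e
    have hy : 0 < 2 * π ^ 2 * ((e : ℝ) + 1) ^ 2 / r ^ 2 := by positivity
    calc (1 / (1 + 2 * π ^ 2 * ((e : ℝ) + 1) ^ 2 / r ^ 2)) ^ (((k : ℝ) + 1) / 2)
        ≤ (1 / (1 + 2 * π ^ 2 * ((e : ℝ) + 1) ^ 2 / r ^ 2)) ^ (1 : ℝ) := by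
          apply Real.rpow_le_rpow_of_exponent_ge
          · positivity
          · rw [div_le_one (by positivity)]
            linarith
          · linarith
      _ = 1 / (1 + 2 * π ^ 2 * ((e : ℝ) + 1) ^ 2 / r ^ 2) := Real.rpow_one _
      _ ≤ 1 / (2 * π ^ 2 * ((e : ℝ) + 1) ^ 2 / r ^ 2) :=
          one_div_le_one_div_of_le hy (by linarith)
      _ = r ^ 2 / (2 * π ^ 2) * (1 / ((e : ℝ) + 1) ^ 2) := by
          field_simp
  have hs : HasSum (fun e : ℕ => r ^ 2 / (2 * π ^ 2) * (1 / ((e : ℝ) + 1) ^ 2))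
      (r ^ 2 / (2 * π ^ 2) * (π ^ 2 / 6)) := ZKTail_hasSum_two.mul_left _
  have hsum : Summable (fun e : ℕ =>
      (1 / (1 + 2 * π ^ 2 * ((e : ℝ) + 1) ^ 2 / r ^ 2)) ^ (((k : ℝ) + 1) / 2)) :=
    Summable.of_nonneg_of_le (fun e => by positivity) hle hs.summable
  refine ⟨hsum, ?_⟩
  have h := hsum.tsum_le_tsum hle hs.summable
  rw [hs.tsum_eq] at h
  have h2 : r ^ 2 / (2 * π ^ 2) * (π ^ 2 / 6) = r ^ 2 / 12 := by
    field_simp
    ring
  rw [h2] at h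
  linarith

/-- Proof: `2π²e²/r² ≥ x e²/n` with `x = 25.3` (`2π²/0.78 > 25.3`), and for `κ = (k+1)/2 ≥ n/4`:
`(1+xe²/n)^κ ≥ ((1+xe²/n)^{n/100})^{25} ≥ (1+xe²/100)^{25} ≥ C(25,3)(0.253)³e⁶ ≥ 37 e⁶` (Bernoulli
`one_add_mul_self_le_rpow_one_add`). So the sum is at most `(2/37) ∑ e^{-6} ≤ 0.056`. -/
theorem lip_tail_mid {n k : ℕ} (hn : 100 ≤ n) (hk : n ≤ 2 * (k + 1)) {r : ℝ} (hr : 0 < r)
    (hr2 : r ^ 2 ≤ 0.78 * n) :
    2 * ∑' e : ℕ, (1 / (1 + 2 * π ^ 2 * ((e : ℝ) + 1) ^ 2 / r ^ 2)) ^ (((k : ℝ) + 1) / 2) ≤ 0.06 := by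
  have hpi := Real.pi_pos
  have hk' : (n : ℝ) ≤ 2 * (k + 1) := by exact_mod_cast hk
  have hle : ∀ e : ℕ, (1 / (1 + 2 * π ^ 2 * ((e : ℝ) + 1) ^ 2 / r ^ 2)) ^ (((k : ℝ) + 1) / 2) ≤
      1 / 37 * (1 / ((e : ℝ) + 1) ^ 4) := by
    intro e
    have he : (1 : ℝ) ≤ (e : ℝ) + 1 := by
      have : (0 : ℝ) ≤ e := Nat.cast_nonneg e
      linarith
    have hy0 : 0 ≤ 2 * π ^ 2 * ((e : ℝ) + 1) ^ 2 / r ^ 2 := by positivity
    have hkey := ZKTail_key hn he (ZKTail_y hn hr hr2 ((e : ℝ) + 1))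
    have h1 : (1 + 2 * π ^ 2 * ((e : ℝ) + 1) ^ 2 / r ^ 2) ^ ((n : ℝ) / 4) ≤
        (1 + 2 * π ^ 2 * ((e : ℝ) + 1) ^ 2 / r ^ 2) ^ (((k : ℝ) + 1) / 2) :=
      Real.rpow_le_rpow_of_exponent_le (by linarith) (by linarith)
    have h2 : 37 * ((e : ℝ) + 1) ^ 4 ≤ 37 * ((e : ℝ) + 1) ^ 6 := by
      have := pow_le_pow_right₀ he (show 4 ≤ 6 by norm_num)
      linarith
    have h3 := ZKTail_inv hy0 (by positivity : 0 < 37 * ((e : ℝ) + 1) ^ 4)
      (h2.trans (hkey.trans h1))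
    calc _ ≤ 1 / (37 * ((e : ℝ) + 1) ^ 4) := h3
      _ = 1 / 37 * (1 / ((e : ℝ) + 1) ^ 4) := by field_simp
  have hs : HasSum (fun e : ℕ => 1 / 37 * (1 / ((e : ℝ) + 1) ^ 4))
      (1 / 37 * (π ^ 4 / 90)) := ZKTail_hasSum_four.mul_left _
  have hsum : Summable (fun e : ℕ =>
      (1 / (1 + 2 * π ^ 2 * ((e : ℝ) + 1) ^ 2 / r ^ 2)) ^ (((k : ℝ) + 1) / 2)) :=
    Summable.of_nonneg_of_le (fun e => by positivity) hle hs.summable
  have h := hsum.tsum_le_tsum hle hs.summable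
  rw [hs.tsum_eq] at h
  have h2 := ZKTail_pi4
  norm_num at h h2 ⊢
  linarith

/-- Proof: same with `κ = (n+1)/2`: `(1+xe²/n)^κ ≥ ((1+xe²/100)^{25})² ≥ 37² e^{12}`. -/
theorem lip_tail_main {n : ℕ} (hn : 100 ≤ n) {r : ℝ} (hr : 0 < r) (hr2 : r ^ 2 ≤ 0.78 * n) :
    2 * ∑' e : ℕ, (1 / (1 + 2 * π ^ 2 * ((e : ℝ) + 1) ^ 2 / r ^ 2)) ^ (((n : ℝ) + 1) / 2) ≤ 0.002 := by
  have hpi := Real.pi_pos
  have hle : ∀ e : ℕ, (1 / (1 + 2 * π ^ 2 * ((e : ℝ) + 1) ^ 2 / r ^ 2)) ^ (((n : ℝ) + 1) / 2) ≤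
      1 / 1369 * (1 / ((e : ℝ) + 1) ^ 4) := by
    intro e
    have he : (1 : ℝ) ≤ (e : ℝ) + 1 := by
      have : (0 : ℝ) ≤ e := Nat.cast_nonneg e
      linarith
    have hy0 : 0 ≤ 2 * π ^ 2 * ((e : ℝ) + 1) ^ 2 / r ^ 2 := by positivity
    have hkey := ZKTail_key hn he (ZKTail_y hn hr hr2 ((e : ℝ) + 1))
    have h0 : (1 + 2 * π ^ 2 * ((e : ℝ) + 1) ^ 2 / r ^ 2) ^ ((n : ℝ) / 2) =
        ((1 + 2 * π ^ 2 * ((e : ℝ) + 1) ^ 2 / r ^ 2) ^ ((n : ℝ) / 4)) ^ 2 :=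
      ZKTail_half (by linarith) _
    have h1 : (1 + 2 * π ^ 2 * ((e : ℝ) + 1) ^ 2 / r ^ 2) ^ ((n : ℝ) / 2) ≤
        (1 + 2 * π ^ 2 * ((e : ℝ) + 1) ^ 2 / r ^ 2) ^ (((n : ℝ) + 1) / 2) :=
      Real.rpow_le_rpow_of_exponent_le (by linarith) (by linarith)
    have h2 : 1369 * ((e : ℝ) + 1) ^ 4 ≤ (37 * ((e : ℝ) + 1) ^ 6) ^ 2 := by
      have := pow_le_pow_right₀ he (show 4 ≤ 12 by norm_num)
      nlinarith
    have h2' : (37 * ((e : ℝ) + 1) ^ 6) ^ 2 ≤
        ((1 + 2 * π ^ 2 * ((e : ℝ) + 1) ^ 2 / r ^ 2) ^ ((n : ℝ) / 4)) ^ 2 :=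
      pow_le_pow_left₀ (by positivity) hkey 2
    rw [← h0] at h2'
    have h3 := ZKTail_inv hy0 (by positivity : 0 < 1369 * ((e : ℝ) + 1) ^ 4)
      (h2.trans (h2'.trans h1))
    calc _ ≤ 1 / (1369 * ((e : ℝ) + 1) ^ 4) := h3
      _ = 1 / 1369 * (1 / ((e : ℝ) + 1) ^ 4) := by field_simp
  have hs : HasSum (fun e : ℕ => 1 / 1369 * (1 / ((e : ℝ) + 1) ^ 4))
      (1 / 1369 * (π ^ 4 / 90)) := ZKTail_hasSum_four.mul_left _
  have hsum : Summable (fun e : ℕ =>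
      (1 / (1 + 2 * π ^ 2 * ((e : ℝ) + 1) ^ 2 / r ^ 2)) ^ (((n : ℝ) + 1) / 2)) :=
    Summable.of_nonneg_of_le (fun e => by positivity) hle hs.summable
  have h := hsum.tsum_le_tsum hle hs.summable
  rw [hs.tsum_eq] at h
  have h2 := ZKTail_pi4
  norm_num at h h2 ⊢
  linarith

end Pool.Agent.Lib.Zigzag
end

section

set_option autoImplicit false

namespace Pool.Agent.Lib.Zigzag

open Real

/-- Proof: dominated by `(2m+1)^k e^{-(2m+1)v}`; `Real.summable_pow_mul_exp_neg_nat_mul` or comparison. -/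
theorem summable_KK (k : ℕ) {v : ℝ} (hv : 0 < v) : Summable (fun m : ℕ =>
    (-1 : ℝ) ^ m * (2 * (m : ℝ) + 1) ^ k * exp (-((2 * (m : ℝ) + 1) * v))) := by
  have h1 := (Real.summable_pow_mul_exp_neg_nat_mul k hv).comp_injective
    (i := fun m : ℕ => 2 * m + 1) (fun a b hab => by simp only at hab; omega)
  refine Summable.of_norm_bounded h1 (fun m => ?_)
  simp only [Function.comp_apply]
  rw [norm_mul, norm_mul, norm_pow, norm_neg, norm_one, one_pow, one_mul,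
    Real.norm_of_nonneg (by positivity), Real.norm_of_nonneg (Real.exp_pos _).le]
  push_cast
  apply le_of_eq
  congr 2
  ring

private lemma ZLip_im {v : ℝ} (hv : 0 < v) : 0 < ((1 : ℂ) / 4 + (v / (2 * π) : ℝ) * Complex.I).im := by
  have h : ((1 : ℂ) / 4 + (v / (2 * π) : ℝ) * Complex.I).im = v / (2 * π) := by
    rw [Complex.add_im, Complex.mul_im, Complex.ofReal_re, Complex.ofReal_im, Complex.I_im,
      Complex.I_re]
    have : ((1 : ℂ) / 4).im = 0 := by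
      rw [show ((1 : ℂ) / 4) = ((1 / 4 : ℝ) : ℂ) by push_cast; rfl, Complex.ofReal_im]
    rw [this]
    ring
  rw [h]
  positivity

private lemma ZLip_term (v : ℝ) (d : ℤ) : (v : ℂ) - Complex.I * ((4 * (d : ℝ) + 1) * (π / 2) : ℝ) =
    (-2 * π * Complex.I) * (((1 : ℂ) / 4 + (v / (2 * π) : ℝ) * Complex.I) + d) := by
  have hπ : (π : ℂ) ≠ 0 := by exact_mod_cast Real.pi_ne_zero
  push_cast
  field_simp
  ring_nf
  rw [Complex.I_sq]
  ring

private lemma ZLip_ne : (-2 * π * Complex.I : ℂ) ≠ 0 := by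
  have hπ : (π : ℂ) ≠ 0 := by exact_mod_cast Real.pi_ne_zero
  simp [hπ]

private lemma ZLip_h1 (v : ℝ) (k : ℕ) (d : ℤ) :
    1 / ((v : ℂ) - Complex.I * ((4 * (d : ℝ) + 1) * (π / 2) : ℝ)) ^ (k + 1) =
        (1 / (-2 * π * Complex.I : ℂ) ^ (k + 1)) *
          (1 / (((1 : ℂ) / 4 + (v / (2 * π) : ℝ) * Complex.I) + d) ^ (k + 1)) := by
  rw [ZLip_term v d, mul_pow, one_div_mul_one_div]

/-- Absolute summability over ℤ. Proof: `‖v - iρ‖ ≥ |ρ|`, `|ρ_d| = |4d+1|π/2`, `k + 1 ≥ 2`. -/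
theorem summable_lip {k : ℕ} (hk : 1 ≤ k) {v : ℝ} (hv : 0 < v) : Summable (fun d : ℤ =>
    1 / ((v : ℂ) - Complex.I * ((4 * (d : ℝ) + 1) * (π / 2) : ℝ)) ^ (k + 1)) := by
  have h1 := (EisensteinSeries.linear_right_summable
    ((1 : ℂ) / 4 + (v / (2 * π) : ℝ) * Complex.I) 1 (k := (k : ℤ) + 1) (by omega)).mul_left
    (1 / (-2 * π * Complex.I : ℂ) ^ (k + 1))
  refine h1.congr (fun d => ?_)
  rw [ZLip_h1, show ((k : ℤ) + 1) = ((k + 1 : ℕ) : ℤ) by push_cast; rfl, zpow_natCast,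
    Int.cast_one, one_mul, ← one_div (_ ^ (k + 1))]

private lemma ZLip_q (v : ℝ) : Complex.exp (2 * π * Complex.I *
    ((1 : ℂ) / 4 + (v / (2 * π) : ℝ) * Complex.I)) = Complex.I * (exp (-v) : ℝ) := by
  have hπ : (π : ℂ) ≠ 0 := by exact_mod_cast Real.pi_ne_zero
  have h : (2 * π * Complex.I * ((1 : ℂ) / 4 + (v / (2 * π) : ℝ) * Complex.I)) =
      (π / 2 : ℂ) * Complex.I + ((-v : ℝ) : ℂ) := by
    push_cast
    field_simp
    ring_nf
    rw [Complex.I_sq]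
    ring
  rw [h, Complex.exp_add, Complex.exp_pi_div_two_mul_I, Complex.ofReal_exp]

private lemma ZLip_pow (v : ℝ) (k n : ℕ) :
    (((n : ℂ) ^ k * (Complex.I * (exp (-v) : ℝ)) ^ n).im) =
      (n : ℝ) ^ k * exp (-v) ^ n * (Complex.I ^ n).im := by
  rw [mul_pow, show ((n : ℂ) ^ k * (Complex.I ^ n * ((exp (-v) : ℝ) : ℂ) ^ n)) =
    (((n : ℝ) ^ k * exp (-v) ^ n : ℝ) : ℂ) * Complex.I ^ n by push_cast; ring]
  rw [Complex.im_ofReal_mul]

private lemma ZLip_even (m : ℕ) : (Complex.I ^ (2 * m)).im = 0 := by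
  rw [pow_mul, Complex.I_sq]
  rcases Nat.even_or_odd m with h | h
  · rw [h.neg_one_pow]; rfl
  · rw [h.neg_one_pow]; simp

private lemma ZLip_odd (m : ℕ) : (Complex.I ^ (2 * m + 1)).im = (-1) ^ m := by
  rw [pow_succ, pow_mul, Complex.I_sq]
  rcases Nat.even_or_odd m with h | h
  · rw [h.neg_one_pow, h.neg_one_pow]; simp
  · rw [h.neg_one_pow, h.neg_one_pow]; simp

/-- Lipschitz formula. Proof: Mathlib `EisensteinSeries.qExpansion_identity hk z` with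
`z = 1/4 + i v/(2π)`: `z + d = (i/(2π)) (v - iρ_d)`, `ρ_d = (4d+1)π/2`, so
`∑_d (v - iρ_d)^{-k-1} = (1/k!) ∑_n n^k i^n e^{-nv}`; take imaginary parts: `Im i^n = (-1)^m` for `n = 2m+1` and
`0` for even `n`. -/
theorem lipschitz {k : ℕ} (hk : 1 ≤ k) {v : ℝ} (hv : 0 < v) :
    KK k v = (k.factorial : ℝ) *
      (∑' d : ℤ, 1 / ((v : ℂ) - Complex.I * ((4 * (d : ℝ) + 1) * (π / 2) : ℝ)) ^ (k + 1)).im := by
  set z : UpperHalfPlane := ⟨(1 : ℂ) / 4 + (v / (2 * π) : ℝ) * Complex.I, ZLip_im hv⟩ with hz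
  have hzc : (z : ℂ) = (1 : ℂ) / 4 + (v / (2 * π) : ℝ) * Complex.I := rfl
  have hq := EisensteinSeries.qExpansion_identity hk z
  rw [hzc, ZLip_q] at hq
  have hsum : (∑' d : ℤ, 1 / ((v : ℂ) - Complex.I * ((4 * (d : ℝ) + 1) * (π / 2) : ℝ)) ^ (k + 1)) =
      (1 / (k.factorial : ℂ)) * ∑' n : ℕ, (n : ℂ) ^ k * (Complex.I * (exp (-v) : ℝ)) ^ n := by
    rw [tsum_congr (ZLip_h1 v k), tsum_mul_left, hq]
    have h2 : (-2 * π * Complex.I : ℂ) ^ (k + 1) ≠ 0 := pow_ne_zero _ ZLip_ne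
    field_simp
  have hfac : ((k.factorial : ℂ)) ≠ 0 := by exact_mod_cast k.factorial_ne_zero
  have hfac' : ((k.factorial : ℝ)) ≠ 0 := by exact_mod_cast k.factorial_ne_zero
  rw [hsum, show (1 / (k.factorial : ℂ)) = ((1 / (k.factorial : ℝ) : ℝ) : ℂ) by push_cast; rfl,
    Complex.im_ofReal_mul, ← mul_assoc, mul_one_div_cancel hfac', one_mul]
  -- summability of the complex series
  have hr : ‖exp (-v)‖ < 1 := by
    rw [Real.norm_of_nonneg (Real.exp_pos _).le]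
    exact Real.exp_lt_one_iff.2 (by linarith)
  have hs : Summable (fun n : ℕ => (n : ℂ) ^ k * (Complex.I * (exp (-v) : ℝ)) ^ n) := by
    apply summable_pow_mul_geometric_of_norm_lt_one
    rw [norm_mul, Complex.norm_I, one_mul, Complex.norm_real]
    exact hr
  have him : (∑' n : ℕ, (n : ℂ) ^ k * (Complex.I * (exp (-v) : ℝ)) ^ n).im =
      ∑' n : ℕ, (n : ℝ) ^ k * exp (-v) ^ n * (Complex.I ^ n).im := by
    rw [Complex.im_tsum hs]
    exact tsum_congr (fun n => ZLip_pow v k n)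
  have hs' : Summable (fun n : ℕ => (n : ℝ) ^ k * exp (-v) ^ n * (Complex.I ^ n).im) := by
    refine (Complex.imCLM.summable hs).congr (fun n => ?_)
    exact (ZLip_pow v k n)
  rw [him]
  have he : Summable (fun m : ℕ => ((2 * m : ℕ) : ℝ) ^ k * exp (-v) ^ (2 * m) *
      (Complex.I ^ (2 * m)).im) := hs'.comp_injective (i := fun m : ℕ => 2 * m)
        (fun a b hab => by simp only at hab; omega)
  have ho : Summable (fun m : ℕ => ((2 * m + 1 : ℕ) : ℝ) ^ k * exp (-v) ^ (2 * m + 1) *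
      (Complex.I ^ (2 * m + 1)).im) := hs'.comp_injective (i := fun m : ℕ => 2 * m + 1)
        (fun a b hab => by simp only at hab; omega)
  have hodd := tsum_even_add_odd
    (f := fun n : ℕ => (n : ℝ) ^ k * exp (-v) ^ n * (Complex.I ^ n).im) he ho
  rw [← hodd]
  have h0 : ∑' m : ℕ, ((2 * m : ℕ) : ℝ) ^ k * exp (-v) ^ (2 * m) * (Complex.I ^ (2 * m)).im = 0 := by
    rw [show (fun m : ℕ => ((2 * m : ℕ) : ℝ) ^ k * exp (-v) ^ (2 * m) *
      (Complex.I ^ (2 * m)).im) = fun _ => 0 from funext fun m => by rw [ZLip_even, mul_zero]]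
    exact tsum_zero
  rw [h0, zero_add, KK]
  refine tsum_congr (fun m => ?_)
  rw [ZLip_odd, ← Real.exp_nat_mul]
  push_cast
  rw [show (2 * (m : ℝ) + 1) * -v = -((2 * (m : ℝ) + 1) * v) by ring]
  ring

/-- `∑ (-1)^m e^{-(2m+1)v} = 1/(2 cosh v)`, so `0 < KK 0 v ≤ 1/2`. Proof: geometric series. -/
theorem abs_KK_zero_le {v : ℝ} (hv : 0 < v) : |KK 0 v| ≤ 1 / 2 := by
  set q := exp (-v) with hq
  have hq0 : 0 < q := Real.exp_pos _
  have hq1 : q < 1 := Real.exp_lt_one_iff.2 (by linarith)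
  have h1 : ∀ m : ℕ, (-1 : ℝ) ^ m * (2 * (m : ℝ) + 1) ^ 0 * exp (-((2 * (m : ℝ) + 1) * v)) =
      q * (-(q ^ 2)) ^ m := by
    intro m
    have h2 : exp (-((2 * (m : ℝ) + 1) * v)) = q ^ (2 * m + 1) := by
      rw [hq, ← Real.exp_nat_mul]
      congr 1
      push_cast
      ring
    rw [h2, pow_zero, mul_one, neg_pow (q ^ 2) m, ← pow_mul]
    ring
  have h3 : KK 0 v = q * (1 + q ^ 2)⁻¹ := by
    rw [KK, tsum_congr h1, tsum_mul_left, tsum_geometric_of_abs_lt_one, sub_neg_eq_add]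
    rw [abs_neg, abs_of_pos (by positivity)]
    nlinarith
  rw [h3, abs_of_pos (by positivity), ← div_eq_mul_inv, div_le_div_iff₀ (by positivity) (by norm_num)]
  nlinarith [sq_nonneg (1 - q)]

end Pool.Agent.Lib.Zigzag
end

section

set_option autoImplicit false

namespace Pool.Agent.Lib.Zigzag

/-- Simplified bound. -/
noncomputable def UU (n j : ℕ) : ℝ :=
  ∏ i ∈ Finset.range j, (0.9625 * n / (((i : ℝ) + 1) * ((n : ℝ) - 2 * i - 1)))

theorem ztb_fact {n : ℕ} : ∀ j : ℕ, 2 * j ≤ n →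
    (((n - 2 * j).factorial : ℕ) : ℝ) *
      ∏ i ∈ Finset.range j, (((n : ℝ) - 2 * i) * ((n : ℝ) - 2 * i - 1)) = (n.factorial : ℝ) := by
  intro j
  induction j with
  | zero => intro _; simp
  | succ j ih =>
    intro hj
    have h1 := ih (by omega)
    rw [Finset.prod_range_succ]
    obtain ⟨m, hm⟩ : ∃ m, n - 2 * j = m + 2 := ⟨n - 2 * j - 2, by omega⟩
    have hm' : n - 2 * (j + 1) = m := by omega
    have hmr : (n : ℝ) - 2 * j = m + 2 := by
      have : n = m + 2 + 2 * j := by omega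
      rw [this]
      push_cast
      ring
    rw [hm, Nat.factorial_succ, Nat.factorial_succ] at h1
    rw [hm', hmr, ← h1]
    push_cast
    ring

/-- Proof: reverse the product (`Finset.prod_range_reflect`):
`∏ ((n-2j+1)/6 + i) = ∏_{i<j} ((n-2j+1)/6 + j-1-i)` and `n!/(n-2j)! = ∏_{i<j} (n-2i)(n-2i-1)`; since `2j ≤ n`,
`(n-2j+1)/6 + j - 1 - i ≤ (n - 2i)/2`, so each factor is at most `0.9625 n/((i+1)(n-2i-1))`. -/
theorem TT_le_UU {n j : ℕ} (hn : 100 ≤ n) (hj : 2 * j ≤ n) :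
    TT n j ≤ (((n : ℝ) + 1) / ((n : ℝ) - 2 * j + 1)) * UU n j := by
  have hjr : 2 * (j : ℝ) ≤ n := by exact_mod_cast hj
  have hpos : ∀ i ∈ Finset.range j, (1 : ℝ) ≤ (n : ℝ) - 2 * i - 1 := by
    intro i hi
    have h1 : 2 * i + 2 ≤ n := by
      have := Finset.mem_range.1 hi
      omega
    have h2 : 2 * (i : ℝ) + 2 ≤ n := by exact_mod_cast h1
    linarith
  have hfact := ztb_fact (n := n) j hj
  have hP : 0 < ∏ i ∈ Finset.range j, (((n : ℝ) - 2 * i) * ((n : ℝ) - 2 * i - 1)) := by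
    refine Finset.prod_pos fun i hi => ?_
    have := hpos i hi
    exact mul_pos (by linarith) (by linarith)
  have hq : (((n - 2 * j).factorial : ℕ) : ℝ) / (n.factorial : ℝ)
      = (∏ i ∈ Finset.range j, (((n : ℝ) - 2 * i) * ((n : ℝ) - 2 * i - 1)))⁻¹ := by
    rw [← hfact]
    have h1 : (((n - 2 * j).factorial : ℕ) : ℝ) ≠ 0 := by positivity
    field_simp
  have hrev : ∏ i ∈ Finset.range j, (((n : ℝ) - 2 * j + 1) / 6 + i)
      = ∏ i ∈ Finset.range j, (((n : ℝ) - 2 * j + 1) / 6 + ((j : ℝ) - 1 - i)) := by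
    rw [← Finset.prod_range_reflect]
    refine Finset.prod_congr rfl fun i hi => ?_
    have h1 := Finset.mem_range.1 hi
    have h2 : ((j - 1 - i : ℕ) : ℝ) = (j : ℝ) - 1 - i := by
      rw [Nat.cast_sub (by omega), Nat.cast_sub (by omega)]
      simp
    rw [h2]
  unfold TT
  rw [mul_assoc, mul_assoc]
  refine mul_le_mul_of_nonneg_left ?_ (div_nonneg (by positivity) (by linarith))
  rw [hq, Finset.prod_div_distrib, hrev, ← Finset.prod_div_distrib]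
  have hpow : (1.925 * (n : ℝ)) ^ j = ∏ _i ∈ Finset.range j, (1.925 * (n : ℝ)) := by
    rw [Finset.prod_const, Finset.card_range]
  rw [hpow, ← Finset.prod_inv_distrib, ← Finset.prod_mul_distrib, ← Finset.prod_mul_distrib]
  unfold UU
  refine Finset.prod_le_prod ?_ ?_
  · intro i hi
    have h1 := hpos i hi
    have h2 : (i : ℝ) + 1 ≤ j := by
      have := Finset.mem_range.1 hi
      exact_mod_cast this
    have h3 : 0 ≤ ((n : ℝ) - 2 * j + 1) / 6 + ((j : ℝ) - 1 - i) := by linarith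
    have h4 : 0 ≤ (((n : ℝ) - 2 * i) * ((n : ℝ) - 2 * i - 1)) :=
      mul_nonneg (by linarith) (by linarith)
    positivity
  · intro i hi
    have h1 := hpos i hi
    have h2 : (i : ℝ) + 1 ≤ j := by
      have := Finset.mem_range.1 hi
      exact_mod_cast this
    have hi0 : (0 : ℝ) ≤ i := Nat.cast_nonneg i
    have hn0 : (0 : ℝ) < n := by
      have : (100 : ℝ) ≤ n := by exact_mod_cast hn
      linarith
    have h3 : ((n : ℝ) - 2 * j + 1) / 6 + ((j : ℝ) - 1 - i) ≤ ((n : ℝ) - 2 * i) / 2 := by linarith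
    have ha : 0 < (n : ℝ) - 2 * i := by linarith
    have hb : 0 < (n : ℝ) - 2 * i - 1 := by linarith
    calc (((n : ℝ) - 2 * j + 1) / 6 + ((j : ℝ) - 1 - i)) / ((i : ℝ) + 1) *
          ((((n : ℝ) - 2 * i) * ((n : ℝ) - 2 * i - 1))⁻¹ * (1.925 * (n : ℝ)))
        ≤ (((n : ℝ) - 2 * i) / 2) / ((i : ℝ) + 1) *
          ((((n : ℝ) - 2 * i) * ((n : ℝ) - 2 * i - 1))⁻¹ * (1.925 * (n : ℝ))) := by
          refine mul_le_mul_of_nonneg_right ?_ (by positivity)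
          exact div_le_div_of_nonneg_right h3 (by positivity)
      _ = 0.9625 * n / (((i : ℝ) + 1) * ((n : ℝ) - 2 * i - 1)) := by
          field_simp
          norm_num

theorem ztb_succ (n j : ℕ) : UU n (j + 1) =
    UU n j * (0.9625 * n / (((j : ℝ) + 1) * ((n : ℝ) - 2 * j - 1))) := by
  unfold UU
  rw [Finset.prod_range_succ]

theorem ztb_nonneg {n j : ℕ} (hj : 2 * j ≤ n) : 0 ≤ UU n j := by
  unfold UU
  refine Finset.prod_nonneg fun i hi => ?_
  have h1 : 2 * i + 2 ≤ n := by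
    have := Finset.mem_range.1 hi
    omega
  have h2 : 2 * (i : ℝ) + 2 ≤ n := by exact_mod_cast h1
  have h3 : 0 ≤ (n : ℝ) - 2 * i - 1 := by linarith
  positivity

/-- Proof: explicit, value at n = 100 is 0.04215, decreasing in n. -/
theorem UU_four {n : ℕ} (hn : 100 ≤ n) : UU n 4 ≤ 0.0422 := by
  have hn' : (100 : ℝ) ≤ n := by exact_mod_cast hn
  have h : UU n 4 ≤ ∏ i ∈ Finset.range 4, (0.9625 * 100 / (((i : ℝ) + 1) * (99 - 2 * i))) := by
    unfold UU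
    refine Finset.prod_le_prod ?_ ?_
    · intro i hi
      have h1 : i ≤ 3 := by
        have := Finset.mem_range.1 hi
        omega
      have h2 : (i : ℝ) ≤ 3 := by exact_mod_cast h1
      have h3 : 0 ≤ (n : ℝ) - 2 * i - 1 := by linarith
      positivity
    · intro i hi
      have h1 : i ≤ 3 := by
        have := Finset.mem_range.1 hi
        omega
      have h2 : (i : ℝ) ≤ 3 := by exact_mod_cast h1
      have hi0 : (0 : ℝ) ≤ i := Nat.cast_nonneg i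
      have h3 : 0 < (n : ℝ) - 2 * i - 1 := by linarith
      have h4 : (0 : ℝ) < 99 - 2 * i := by linarith
      rw [div_le_div_iff₀ (by positivity) (by positivity)]
      have h5 : (n : ℝ) * (99 - 2 * i) ≤ 100 * ((n : ℝ) - 2 * i - 1) := by nlinarith
      have h6 : 0 ≤ 0.9625 * ((i : ℝ) + 1) := by positivity
      nlinarith [mul_le_mul_of_nonneg_left h5 h6]
  refine h.trans ?_
  simp only [Finset.prod_range_succ, Finset.prod_range_zero]
  norm_num

/-- Proof: `UU n (j+1)/UU n j = 0.9625 n/((j+1)(n-2j-1))`, and `n - 2j - 1 ≥ n/2 - 1 ≥ 0.49 n` for `4j ≤ n`, so the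
ratio is at most `1.965/5 < 0.4`. -/
theorem UU_geom {n j : ℕ} (hn : 100 ≤ n) (h4 : 4 ≤ j) (hj : 4 * j ≤ n + 4) :
    UU n j ≤ 0.0422 * 0.4 ^ (j - 4) := by
  have hn' : (100 : ℝ) ≤ n := by exact_mod_cast hn
  induction j, h4 using Nat.le_induction with
  | base => simpa using UU_four hn
  | succ j h4 ih =>
    have h1 := ih (by omega)
    rw [ztb_succ]
    have hj1 : 4 * (j : ℝ) ≤ n := by
      have : 4 * j ≤ n := by omega
      exact_mod_cast this
    have hj2 : (4 : ℝ) ≤ j := by exact_mod_cast h4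
    have h2 : 0.49 * (n : ℝ) ≤ (n : ℝ) - 2 * j - 1 := by linarith
    have h3 : 0.9625 * n / (((j : ℝ) + 1) * ((n : ℝ) - 2 * j - 1)) ≤ 0.4 := by
      rw [div_le_iff₀ (mul_pos (by linarith) (by linarith))]
      have h5 : 5 * (0.49 * (n : ℝ)) ≤ ((j : ℝ) + 1) * ((n : ℝ) - 2 * j - 1) :=
        mul_le_mul (by linarith) h2 (by linarith) (by linarith)
      linarith
    have h5 : j + 1 - 4 = (j - 4) + 1 := by omega
    rw [h5, pow_succ, ← mul_assoc]
    refine mul_le_mul h1 h3 ?_ (by positivity)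
    exact div_nonneg (by positivity) (mul_nonneg (by linarith) (by linarith))

theorem ztb_step {n j : ℕ} (h4 : n < 4 * (j + 1)) (hj : 2 * j + 2 ≤ n) :
    UU n (j + 1) ≤ 3.85 * UU n j ∧ (2 * j + 5 ≤ n → UU n (j + 1) ≤ UU n j) := by
  have h0 := ztb_nonneg (n := n) (j := j) (by omega)
  have h4' : (n : ℝ) ≤ 4 * (j + 1) := by
    have : n ≤ 4 * (j + 1) := h4.le
    exact_mod_cast this
  have hj' : 2 * (j : ℝ) + 2 ≤ n := by exact_mod_cast hj
  have hj0 : (0 : ℝ) ≤ j := Nat.cast_nonneg j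
  have hden : 0 < ((j : ℝ) + 1) * ((n : ℝ) - 2 * j - 1) := mul_pos (by linarith) (by linarith)
  rw [ztb_succ]
  constructor
  · have h3 : 0.9625 * n / (((j : ℝ) + 1) * ((n : ℝ) - 2 * j - 1)) ≤ 3.85 := by
      rw [div_le_iff₀ hden]
      have h5 : ((j : ℝ) + 1) * 1 ≤ ((j : ℝ) + 1) * ((n : ℝ) - 2 * j - 1) :=
        mul_le_mul_of_nonneg_left (by linarith) (by linarith)
      linarith
    rw [mul_comm]
    exact mul_le_mul_of_nonneg_right h3 h0
  · intro h5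
    have h5' : 2 * (j : ℝ) + 5 ≤ n := by exact_mod_cast h5
    have h3 : 0.9625 * n / (((j : ℝ) + 1) * ((n : ℝ) - 2 * j - 1)) ≤ 1 := by
      rw [div_le_iff₀ hden]
      have h6 : ((j : ℝ) + 1) * 4 ≤ ((j : ℝ) + 1) * ((n : ℝ) - 2 * j - 1) :=
        mul_le_mul_of_nonneg_left (by linarith) (by linarith)
      linarith
    calc UU n j * _ ≤ UU n j * 1 := mul_le_mul_of_nonneg_left h3 h0
      _ = UU n j := mul_one _

theorem ztb_flat {n : ℕ} (j₀ : ℕ) (h0 : n < 4 * (j₀ + 1)) : ∀ j, j₀ ≤ j → 2 * j + 3 ≤ n →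
    UU n j ≤ UU n j₀ := by
  intro j hj
  induction j, hj using Nat.le_induction with
  | base => intro _; exact le_rfl
  | succ j hj ih =>
    intro h
    exact ((ztb_step (by omega) (by omega)).2 (by omega)).trans (ih (by omega))

/-- Proof: for `n/4 < j`, `2j ≤ n`: the ratio `0.9625 n/((j+1)(n-2j-1)) ≤ 3.85/(n-2j-1)` is at most 1 except for the
last two factors (`n - 2j - 1 ∈ {1,2,3}`), which give at most `3.85²/... ≤ 15`. Start from `UU_geom` at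
`j0 = n/4 + 1` (nat division). -/
theorem UU_tail {n j : ℕ} (hn : 100 ≤ n) (h4 : n < 4 * j) (hj : 2 * j ≤ n) :
    UU n j ≤ 15 * 0.0422 * 0.4 ^ (n / 4 - 3) := by
  have hbase : UU n (n / 4 + 1) ≤ 0.0422 * 0.4 ^ (n / 4 - 3) := by
    have h1 := UU_geom (n := n) (j := n / 4 + 1) hn (by omega) (by omega)
    have h2 : n / 4 + 1 - 4 = n / 4 - 3 := by omega
    rwa [h2] at h1
  have hq : (0 : ℝ) ≤ 0.0422 * 0.4 ^ (n / 4 - 3) := by positivity
  have hj0 : n / 4 + 1 ≤ j := by omega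
  by_cases h1 : 2 * j + 3 ≤ n
  · have h2 := ztb_flat (n := n) (n / 4 + 1) (by omega) j hj0 h1
    linarith
  · obtain ⟨i, rfl⟩ : ∃ i, j = i + 1 := ⟨j - 1, by omega⟩
    have hi : n / 4 + 1 ≤ i := by omega
    have h2 := (ztb_step (n := n) (j := i) (by omega) (by omega)).1
    by_cases h3 : 2 * i + 3 ≤ n
    · have h5 := ztb_flat (n := n) (n / 4 + 1) (by omega) i hi h3
      linarith
    · obtain ⟨l, rfl⟩ : ∃ l, i = l + 1 := ⟨i - 1, by omega⟩
      have hl : n / 4 + 1 ≤ l := by omega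
      have h5 := (ztb_step (n := n) (j := l) (by omega) (by omega)).1
      have h6 := ztb_flat (n := n) (n / 4 + 1) (by omega) l hl (by omega)
      linarith

end Pool.Agent.Lib.Zigzag
end

section

set_option autoImplicit false

namespace Pool.Agent.Lib.Zigzag

open Real

/-- Position of the angles. -/
theorem zfr_angle {x : ℝ} (hx : 3 ≤ x) : 0 < π / (2 * x) ∧ π / (2 * x) < π / 2 := by
  have hpi := pi_pos
  constructor
  · positivity
  · exact div_lt_div_of_pos_left hpi (by norm_num) (by linarith)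

theorem zfr_sin_pos {x : ℝ} (hx : 3 ≤ x) : 0 < sin (π / (2 * x)) := by
  obtain ⟨h1, h2⟩ := zfr_angle hx
  exact sin_pos_of_pos_of_lt_pi h1 (by linarith [pi_pos])

theorem zfr_tan_pos {x : ℝ} (hx : 3 ≤ x) : 0 < tan (π / (2 * x)) := by
  obtain ⟨h1, h2⟩ := zfr_angle hx
  exact tan_pos_of_pos_of_lt_pi_div_two h1 h2

theorem zfr_exp_bound : exp (-2.59875) ≤ 0.0756 := by
  have h1 : (13.2276 : ℝ) ≤ exp 2.59875 := by
    have e1 : (2.59875 : ℝ) = 1 + 1 + 0.59875 := by norm_num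
    rw [e1, exp_add, exp_add]
    have h2 := exp_one_gt_d9
    have h3 : (1.81 : ℝ) ≤ exp 0.59875 := by
      have h4 := sum_le_exp_of_nonneg (x := 0.59875) (by norm_num) 4
      refine le_trans ?_ h4
      norm_num [Finset.sum_range_succ, Nat.factorial]
    have h5 : (2.7182818283 : ℝ) * 2.7182818283 ≤ exp 1 * exp 1 :=
      mul_le_mul h2.le h2.le (by norm_num) (exp_pos 1).le
    calc (13.2276 : ℝ) ≤ (2.7182818283 * 2.7182818283) * 1.81 := by norm_num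
      _ ≤ (exp 1 * exp 1) * exp 0.59875 :=
        mul_le_mul h5 h3 (by norm_num) (by positivity)
  rw [exp_neg]
  rw [inv_le_comm₀ (exp_pos _) (by norm_num)]
  refine le_trans ?_ h1
  norm_num

/-- Proof: `ff n (N+2) ff n (N-2)/ff n N² = [tan²u/(tan u₊ tan u₋)]² (N²/(N²-4)) [sin²u/(sin u₊ sin u₋)]^{n-1}`
`≤ (25/21) (1 - 3.5/N²)^{n-1} ≤ (25/21) exp(-3.5 (n-1)/N²)`, and `(n-1)/N² ≥ 0.99 * 0.75`;
`(25/21) exp(-2.598) = 0.0886`. -/
theorem ff_ratio {n : ℕ} (hn : 100 ≤ n) {N : ℝ} (hN : 5 ≤ N) (hN2 : 3 * N ^ 2 ≤ 4 * n) :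
    ff n (N + 2) * ff n (N - 2) ≤ 0.09 * ff n N ^ 2 := by
  obtain ⟨m, rfl⟩ : ∃ m, n = m + 1 := ⟨n - 1, by omega⟩
  have hm : (99 : ℝ) ≤ m := by
    have : 99 ≤ m := by omega
    exact_mod_cast this
  have hcast : ((m + 1 : ℕ) : ℝ) = (m : ℝ) + 1 := by push_cast; ring
  rw [hcast] at hN2
  have hsr := sin_ratio hN
  have htr := tan_ratio hN
  have hs : 0 < sin (π / (2 * N)) := zfr_sin_pos (by linarith)
  have hsp : 0 < sin (π / (2 * (N + 2))) := zfr_sin_pos (by linarith)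
  have hsm : 0 < sin (π / (2 * (N - 2))) := zfr_sin_pos (by linarith)
  have ht : 0 < tan (π / (2 * N)) := zfr_tan_pos (by linarith)
  have htp : 0 < tan (π / (2 * (N + 2))) := zfr_tan_pos (by linarith)
  have htm : 0 < tan (π / (2 * (N - 2))) := zfr_tan_pos (by linarith)
  unfold ff
  rw [Nat.add_sub_cancel]
  generalize sin (π / (2 * N)) = s at *
  generalize sin (π / (2 * (N + 2))) = sp at *
  generalize sin (π / (2 * (N - 2))) = sm at *
  generalize tan (π / (2 * N)) = t at *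
  generalize tan (π / (2 * (N + 2))) = tp at *
  generalize tan (π / (2 * (N - 2))) = tm at *
  have hN0 : 0 < N := by linarith
  have hNp : 0 < N + 2 := by linarith
  have hNm : 0 < N - 2 := by linarith
  have hA : 0 < tp ^ 2 * (N + 2) * (2 * sp) ^ m := by positivity
  have hB : 0 < tm ^ 2 * (N - 2) * (2 * sm) ^ m := by positivity
  have hC : 0 < t ^ 2 * N * (2 * s) ^ m := by positivity
  have hq0 : 0 ≤ 1 - 3.5 / N ^ 2 := by
    have : 3.5 / N ^ 2 ≤ 1 := by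
      rw [div_le_one (by positivity)]
      nlinarith
    linarith
  have hq : (1 - 3.5 / N ^ 2) ^ m ≤ 0.0756 := by
    have h1 : 1 - 3.5 / N ^ 2 ≤ exp (-(3.5 / N ^ 2)) := one_sub_le_exp_neg _
    calc (1 - 3.5 / N ^ 2) ^ m ≤ exp (-(3.5 / N ^ 2)) ^ m := pow_le_pow_left₀ hq0 h1 m
      _ = exp (m * (-(3.5 / N ^ 2))) := by rw [exp_nat_mul]
      _ ≤ exp (-2.59875) := by
        apply exp_le_exp.2
        have h2 : 0.7425 * N ^ 2 ≤ m := by nlinarith
        have h3 : 2.59875 ≤ m * (3.5 / N ^ 2) := by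
          rw [mul_div_assoc', le_div_iff₀ (by positivity)]
          nlinarith
        linarith
      _ ≤ 0.0756 := zfr_exp_bound
  have h1 : (t ^ 2) ^ 2 ≤ (tp * tm) ^ 2 := pow_le_pow_left₀ (by positivity) htr 2
  have h2 : (4 * s ^ 2) ^ m ≤ 0.0756 * (4 * (sp * sm)) ^ m := by
    calc (4 * s ^ 2) ^ m ≤ ((1 - 3.5 / N ^ 2) * (4 * (sp * sm))) ^ m :=
          pow_le_pow_left₀ (by positivity) (by nlinarith) m
      _ = (1 - 3.5 / N ^ 2) ^ m * (4 * (sp * sm)) ^ m := mul_pow _ _ _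
      _ ≤ 0.0756 * (4 * (sp * sm)) ^ m := mul_le_mul_of_nonneg_right hq (by positivity)
  have h3 : N ^ 2 ≤ 25 / 21 * (N ^ 2 - 4) := by nlinarith
  have hN4 : 0 < N ^ 2 - 4 := by nlinarith
  have key : (t ^ 2 * N * (2 * s) ^ m) ^ 2 ≤
      0.09 * ((tp ^ 2 * (N + 2) * (2 * sp) ^ m) * (tm ^ 2 * (N - 2) * (2 * sm) ^ m)) := by
    calc (t ^ 2 * N * (2 * s) ^ m) ^ 2 = (t ^ 2) ^ 2 * N ^ 2 * (4 * s ^ 2) ^ m := by
          have : (4 * s ^ 2) ^ m = ((2 * s) ^ m) ^ 2 := by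
            rw [← pow_mul, mul_comm m 2, pow_mul]
            congr 1
            ring
          rw [this]
          ring
      _ ≤ (tp * tm) ^ 2 * (25 / 21 * (N ^ 2 - 4)) * (0.0756 * (4 * (sp * sm)) ^ m) := by
          apply mul_le_mul _ h2 (by positivity) (by positivity)
          exact mul_le_mul h1 h3 (by positivity) (by positivity)
      _ = 0.09 * ((tp ^ 2 * (N + 2) * (2 * sp) ^ m) * (tm ^ 2 * (N - 2) * (2 * sm) ^ m)) := by
          have : (4 * (sp * sm)) ^ m = (2 * sp) ^ m * (2 * sm) ^ m := by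
            rw [← mul_pow]
            congr 1
            ring
          rw [this]
          ring
  have fin : ∀ A B C : ℝ, 0 < A → 0 < B → 0 < C → C ^ 2 ≤ 0.09 * (A * B) →
      1 / A * (1 / B) ≤ 0.09 * (1 / C) ^ 2 := by
    intro A B C hA hB hC h
    rw [one_div_mul_one_div, one_div_pow, mul_one_div,
      div_le_div_iff₀ (by positivity) (by positivity)]
    linarith
  exact fin _ _ _ hA hB hC key

theorem zfr_tan_le {x : ℝ} (h0 : 0 < x) (h1 : x ≤ 1 / 5) : tan x ≤ x / 0.98 := by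
  have h2 : 0.98 ≤ cos x := by
    have h3 := one_sub_sq_div_two_le_cos (x := x)
    nlinarith
  have h3 : sin x ≤ x := sin_le h0.le
  rw [tan_eq_sin_div_cos]
  exact div_le_div₀ h0.le h3 (by norm_num) h2

theorem zfr_exp_neg {y : ℝ} (h0 : 0 ≤ y) (h1 : y ≤ 1 / 2) : exp (-(2 * y)) ≤ 1 - y := by
  have h2 : 2 * y + 1 ≤ exp (2 * y) := add_one_le_exp _
  rw [exp_neg, inv_le_comm₀ (exp_pos _) (by linarith)]
  refine le_trans ?_ h2
  rw [inv_le_comm₀ (by linarith) (by linarith), inv_eq_one_div, div_le_iff₀ (by linarith)]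
  nlinarith

theorem zfr_log {x : ℝ} (h0 : 0 < x) (h1 : x < 1) : exp (2 * x) ≤ (1 + x) / (1 - x) := by
  have h2 := hasSum_log_sub_log_of_abs_lt_one (x := x) (by rw [abs_of_pos h0]; exact h1)
  have h3 : 2 * x ≤ log (1 + x) - log (1 - x) := by
    have h4 := h2.summable.sum_le_tsum (Finset.range 1) (fun i _ => by positivity)
    rw [h2.tsum_eq] at h4
    simpa using h4
  have h5 : 0 < 1 - x := by linarith
  have h6 : 0 < 1 + x := by linarith
  rw [← log_div h6.ne' h5.ne'] at h3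
  exact (le_log_iff_exp_le (by positivity)).1 h3

/-- Proof: `ff n (N+2)/ff n (N-2) = (tan u₋/tan u₊)² ((N-2)/(N+2)) (sin u₋/sin u₊)^{n-1}`, `u± = π/(2(N±2))`;
`tan u₋/tan u₊ ≥ (N+2)/(N-2)` (tan u/u increasing) and `sin u₋/sin u₊ ≥ ((N+2)/(N-2)) (1 - u₋²/6)`
(`sin u₊ ≤ u₊`). So the quotient is at least `((N+2)/(N-2))^n (1-u₋²/6)^{n-1}`. Logarithm:
`n log((N+2)/(N-2)) ≥ 4n/N`, `(n-1) log(1-u₋²/6) ≥ -1.01 n u₋²/6` ... with `u₋²/6 = π²/(24 (N-2)²)` and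
`n ≤ 0.75 (N+2)²`: this is `≥ -0.312 ((N+2)/(N-2))² ≥ -0.7` for `N ≥ 9`; and
`4n/N - 4(n+1)/(N+2) = (8n/N - 4)/(N+2) ≥ (6N-4)/(N+2) ≥ 4.5` for `N ≥ 9` as `n ≥ 0.75 N²`. So there is a
margin of more than 3 in the exponent; we only claim a factor 2. -/
theorem ff_junction {n : ℕ} (hn : 100 ≤ n) {N : ℝ} (hN : 9 ≤ N) (hN2 : 3 * N ^ 2 ≤ 4 * n)
    (hN3 : 4 * n < 3 * (N + 2) ^ 2) :
    2 * exp (4 * ((n : ℝ) + 1) / (N + 2)) * ff n (N - 2) ≤ ff n (N + 2) := by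
  have hpi := pi_pos
  have hpi3 := pi_gt_three
  have hpi4 := pi_lt_d2
  have hnpos : (100 : ℝ) ≤ n := by exact_mod_cast hn
  obtain ⟨m, hm⟩ : ∃ m, n = m + 1 := ⟨n - 1, by omega⟩
  have hc : 0 < N + 2 := by linarith
  have hd : 0 < N - 2 := by linarith
  have hN0 : 0 < N := by linarith
  -- the angles
  have hup0 : 0 < π / (2 * (N + 2)) := by positivity
  have hum0 : 0 < π / (2 * (N - 2)) := by positivity
  have hup1 : π / (2 * (N + 2)) ≤ 1 / 5 := by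
    rw [div_le_iff₀ (by positivity)]
    nlinarith
  have hum1 : π / (2 * (N - 2)) ≤ 1 / 4 := by
    rw [div_le_iff₀ (by positivity)]
    nlinarith
  have htp : tan (π / (2 * (N + 2))) ≤ π / (2 * (N + 2)) / 0.98 := zfr_tan_le hup0 hup1
  have htp0 : 0 < tan (π / (2 * (N + 2))) := zfr_tan_pos (by linarith)
  have htm : π / (2 * (N - 2)) ≤ tan (π / (2 * (N - 2))) :=
    (lt_tan hum0 (by linarith)).le
  have hsp : sin (π / (2 * (N + 2))) ≤ π / (2 * (N + 2)) := sin_le hup0.le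
  have hsp0 : 0 < sin (π / (2 * (N + 2))) := zfr_sin_pos (by linarith)
  have hsm0 : 0 < sin (π / (2 * (N - 2))) := zfr_sin_pos (by linarith)
  have htm0 : 0 < tan (π / (2 * (N - 2))) := zfr_tan_pos (by linarith)
  have hsm : π / (2 * (N - 2)) * (1 - (π / (2 * (N - 2))) ^ 2 / 6) ≤
      sin (π / (2 * (N - 2))) := by
    have := sin_ge_sub_cube hum0.le
    linarith
  -- the number `y = u₋² / 6`
  have hy0 : 0 ≤ (π / (2 * (N - 2))) ^ 2 / 6 := by positivity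
  have hy1 : (π / (2 * (N - 2))) ^ 2 / 6 ≤ 1 / 2 := by nlinarith
  have hey := zfr_exp_neg hy0 hy1
  -- the main exponents
  have hlog : exp (4 / N) ≤ (N + 2) / (N - 2) := by
    have h1 := zfr_log (x := 2 / N) (by positivity) (by rw [div_lt_one hN0]; linarith)
    have h2 : (1 + 2 / N) / (1 - 2 / N) = (N + 2) / (N - 2) := by
      have h3 : 1 - 2 / N = (N - 2) / N := by field_simp
      have h4 : 1 + 2 / N = (N + 2) / N := by field_simp
      rw [h3, h4, div_div_div_cancel_right₀ hN0.ne']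
    rw [h2] at h1
    have h5 : 2 * (2 / N) = 4 / N := by ring
    rwa [h5] at h1
  have hratio : N + 2 ≤ 11 / 7 * (N - 2) := by linarith
  have hyn : 2 * ((π / (2 * (N - 2))) ^ 2 / 6) * n ≤ 1.6 := by
    have e1 : 2 * ((π / (2 * (N - 2))) ^ 2 / 6) * n = π ^ 2 * n / (12 * (N - 2) ^ 2) := by
      field_simp
      ring
    rw [e1, div_le_iff₀ (by positivity)]
    have h1 : π ^ 2 ≤ 10 := by nlinarith
    have h2 : (n : ℝ) ≤ 1.86 * (N - 2) ^ 2 := by
      have h3 : (N + 2) ^ 2 ≤ (11 / 7 * (N - 2)) ^ 2 := pow_le_pow_left₀ hc.le hratio 2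
      nlinarith
    calc π ^ 2 * n ≤ 10 * (1.86 * (N - 2) ^ 2) :=
          mul_le_mul h1 h2 (by positivity) (by norm_num)
      _ ≤ 1.6 * (12 * (N - 2) ^ 2) := by nlinarith [sq_nonneg (N - 2)]
  have hexp : 4 + 4 * ((n : ℝ) + 1) / (N + 2) ≤ 4 * n / N := by
    have e1 : 4 + 4 * ((n : ℝ) + 1) / (N + 2) = (4 * (N + 2) + 4 * ((n : ℝ) + 1)) / (N + 2) := by
      field_simp
    rw [e1, div_le_div_iff₀ hc hN0]
    nlinarith
  have hfinal : 2 * exp (4 * ((n : ℝ) + 1) / (N + 2)) / 0.9604 ≤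
      ((N + 2) / (N - 2)) ^ n * (1 - (π / (2 * (N - 2))) ^ 2 / 6) ^ m := by
    have hy2 : 0 ≤ 1 - (π / (2 * (N - 2))) ^ 2 / 6 := by linarith
    have h1 : exp (4 * n / N) ≤ ((N + 2) / (N - 2)) ^ n := by
      have e1 : 4 * (n : ℝ) / N = n * (4 / N) := by ring
      rw [e1, exp_nat_mul]
      exact pow_le_pow_left₀ (exp_pos _).le hlog n
    have h2 : exp (-1.6) ≤ (1 - (π / (2 * (N - 2))) ^ 2 / 6) ^ m := by
      calc exp (-1.6) ≤ exp (n * (-(2 * ((π / (2 * (N - 2))) ^ 2 / 6)))) := by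
            apply exp_le_exp.2
            linarith
        _ = exp (-(2 * ((π / (2 * (N - 2))) ^ 2 / 6))) ^ n := by rw [exp_nat_mul]
        _ ≤ (1 - (π / (2 * (N - 2))) ^ 2 / 6) ^ n := pow_le_pow_left₀ (exp_pos _).le hey n
        _ ≤ (1 - (π / (2 * (N - 2))) ^ 2 / 6) ^ m :=
            pow_le_pow_of_le_one hy2 (by linarith) (by omega)
    have h3 : 2 / 0.9604 ≤ exp 2.4 := by
      have := add_one_le_exp (2.4 : ℝ)
      refine le_trans ?_ this
      norm_num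
    calc 2 * exp (4 * ((n : ℝ) + 1) / (N + 2)) / 0.9604
        = 2 / 0.9604 * exp (4 * ((n : ℝ) + 1) / (N + 2)) := by ring
      _ ≤ exp 2.4 * exp (4 * ((n : ℝ) + 1) / (N + 2)) :=
          mul_le_mul_of_nonneg_right h3 (exp_pos _).le
      _ = exp (2.4 + 4 * ((n : ℝ) + 1) / (N + 2)) := by rw [exp_add]
      _ ≤ exp (4 * n / N + -1.6) := by
          apply exp_le_exp.2
          linarith
      _ = exp (4 * n / N) * exp (-1.6) := by rw [exp_add]
      _ ≤ _ := mul_le_mul h1 h2 (exp_pos _).le (by positivity)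
  -- the two sides
  have hA : tan (π / (2 * (N + 2))) ^ 2 * (N + 2) * (2 * sin (π / (2 * (N + 2)))) ^ m ≤
      (π ^ 2 / 4 * π ^ m) / (N + 2) ^ n / 0.9604 := by
    calc tan (π / (2 * (N + 2))) ^ 2 * (N + 2) * (2 * sin (π / (2 * (N + 2)))) ^ m
        ≤ (π / (2 * (N + 2)) / 0.98) ^ 2 * (N + 2) * (2 * (π / (2 * (N + 2)))) ^ m := by
          apply mul_le_mul _ _ (by positivity) (by positivity)
          · exact mul_le_mul_of_nonneg_right (pow_le_pow_left₀ htp0.le htp 2) hc.le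
          · exact pow_le_pow_left₀ (by positivity) (by linarith) m
      _ = (π ^ 2 / 4 * π ^ m) / (N + 2) ^ n / 0.9604 := by
          have e1 : 2 * (π / (2 * (N + 2))) = π / (N + 2) := by field_simp
          rw [e1, div_pow π (N + 2) m, hm]
          field_simp
          norm_num
          ring
  have hB : (π ^ 2 / 4 * π ^ m) / (N - 2) ^ n * (1 - (π / (2 * (N - 2))) ^ 2 / 6) ^ m ≤
      tan (π / (2 * (N - 2))) ^ 2 * (N - 2) * (2 * sin (π / (2 * (N - 2)))) ^ m := by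
    have hy2 : 0 ≤ 1 - (π / (2 * (N - 2))) ^ 2 / 6 := by linarith
    calc (π ^ 2 / 4 * π ^ m) / (N - 2) ^ n * (1 - (π / (2 * (N - 2))) ^ 2 / 6) ^ m
        = (π / (2 * (N - 2))) ^ 2 * (N - 2) *
          (2 * (π / (2 * (N - 2)) * (1 - (π / (2 * (N - 2))) ^ 2 / 6))) ^ m := by
          have e1 : 2 * (π / (2 * (N - 2)) * (1 - (π / (2 * (N - 2))) ^ 2 / 6)) =
              π / (N - 2) * (1 - (π / (2 * (N - 2))) ^ 2 / 6) := by field_simp
          rw [e1, mul_pow (π / (N - 2)), div_pow π (N - 2) m, hm, pow_succ (N - 2)]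
          generalize (1 - (π / (2 * (N - 2))) ^ 2 / 6) ^ m = G
          field_simp
          norm_num
      _ ≤ _ := by
          apply mul_le_mul _ _ (by positivity) (by positivity)
          · exact mul_le_mul_of_nonneg_right (pow_le_pow_left₀ hum0.le htm 2) hd.le
          · exact pow_le_pow_left₀ (by positivity) (by linarith) m
  have hkey : 2 * exp (4 * ((n : ℝ) + 1) / (N + 2)) *
      (tan (π / (2 * (N + 2))) ^ 2 * (N + 2) * (2 * sin (π / (2 * (N + 2)))) ^ m) ≤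
      tan (π / (2 * (N - 2))) ^ 2 * (N - 2) * (2 * sin (π / (2 * (N - 2)))) ^ m := by
    calc _ ≤ 2 * exp (4 * ((n : ℝ) + 1) / (N + 2)) *
          ((π ^ 2 / 4 * π ^ m) / (N + 2) ^ n / 0.9604) :=
          mul_le_mul_of_nonneg_left hA (by positivity)
      _ = (2 * exp (4 * ((n : ℝ) + 1) / (N + 2)) / 0.9604) *
          ((π ^ 2 / 4 * π ^ m) / (N + 2) ^ n) := by ring
      _ ≤ (((N + 2) / (N - 2)) ^ n * (1 - (π / (2 * (N - 2))) ^ 2 / 6) ^ m) *
          ((π ^ 2 / 4 * π ^ m) / (N + 2) ^ n) :=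
          mul_le_mul_of_nonneg_right hfinal (by positivity)
      _ = (π ^ 2 / 4 * π ^ m) / (N - 2) ^ n * (1 - (π / (2 * (N - 2))) ^ 2 / 6) ^ m := by
          generalize (1 - (π / (2 * (N - 2))) ^ 2 / 6) ^ m = G
          rw [div_pow]
          field_simp
      _ ≤ _ := hB
  have hpow : n - 1 = m := by omega
  unfold ff
  rw [hpow]
  have hApos : 0 < tan (π / (2 * (N + 2))) ^ 2 * (N + 2) * (2 * sin (π / (2 * (N + 2)))) ^ m := by
    positivity
  have hBpos : 0 < tan (π / (2 * (N - 2))) ^ 2 * (N - 2) * (2 * sin (π / (2 * (N - 2)))) ^ m := by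
    positivity
  rw [mul_one_div, div_le_div_iff₀ hBpos hApos, one_mul]
  exact hkey

end Pool.Agent.Lib.Zigzag
end

section

set_option autoImplicit false

namespace Pool.Agent.Lib.Zigzag

open Real

/-- the `d = 0` term of the Lipschitz formula. -/
private theorem kmain_zero (k : ℕ) {θ : ℝ} (h0 : 0 < θ) (h1 : θ < π / 2) :
    (1 / ((vv θ : ℂ) - Complex.I * ((4 * ((0 : ℤ) : ℝ) + 1) * (π / 2) : ℝ)) ^ (k + 1)).im =
      sin ((k + 1) * θ) / rr θ ^ (k + 1) := by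
  have hs : 0 < sin θ := sin_pos_of_pos_of_lt_pi h0 (by linarith [pi_pos])
  have h2 : ((vv θ : ℂ) - Complex.I * ((4 * ((0 : ℤ) : ℝ) + 1) * (π / 2) : ℝ)) =
      (rr θ : ℂ) * Complex.exp (((-θ : ℝ) : ℂ) * Complex.I) := by
    apply Complex.ext
    · rw [Complex.re_ofReal_mul, Complex.exp_ofReal_mul_I_re, Complex.sub_re, Complex.ofReal_re,
        Complex.I_mul_re, Complex.ofReal_im, cos_neg]
      unfold vv rr
      field_simp
      ring
    · rw [Complex.im_ofReal_mul, Complex.exp_ofReal_mul_I_im, Complex.sub_im, Complex.ofReal_im,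
        Complex.I_mul_im, Complex.ofReal_re, sin_neg]
      unfold rr
      push_cast
      field_simp
      ring
  have h3 : 1 / ((rr θ : ℂ) * Complex.exp (((-θ : ℝ) : ℂ) * Complex.I)) ^ (k + 1) =
      (((rr θ ^ (k + 1))⁻¹ : ℝ) : ℂ) * Complex.exp ((((k + 1) * θ : ℝ) : ℂ) * Complex.I) := by
    rw [mul_pow, ← Complex.exp_nat_mul, one_div, mul_inv, ← Complex.exp_neg]
    congr 1
    · push_cast
      rfl
    · congr 1
      push_cast
      ring
  rw [h2, h3, Complex.im_ofReal_mul, Complex.exp_ofReal_mul_I_im]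
  rw [div_eq_mul_inv, mul_comm]

/-- the other terms. -/
private theorem kmain_term (k : ℕ) {θ : ℝ} (h0 : 0 < θ) (h1 : θ < π / 2) (d : ℤ) (e : ℝ)
    (he : e ^ 2 ≤ (d : ℝ) * (2 * d + 1)) :
    ‖1 / ((vv θ : ℂ) - Complex.I * ((4 * (d : ℝ) + 1) * (π / 2) : ℝ)) ^ (k + 1)‖ ≤
      1 / rr θ ^ (k + 1) * (1 / (1 + 2 * π ^ 2 * e ^ 2 / rr θ ^ 2)) ^ (((k : ℝ) + 1) / 2) := by
  have hs : 0 < sin θ := sin_pos_of_pos_of_lt_pi h0 (by linarith [pi_pos])
  have hr : 0 < rr θ := by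
    unfold rr
    have := pi_pos
    positivity
  set r := rr θ with hrdef
  set q := 1 + 2 * π ^ 2 * e ^ 2 / r ^ 2 with hq
  have hq0 : 0 < q := by positivity
  have h2 : vv θ ^ 2 = r ^ 2 - π ^ 2 / 4 := by
    have h3 := sin_sq_add_cos_sq θ
    rw [hrdef]
    unfold vv rr
    field_simp
    nlinarith [h3]
  have h4 : r * sqrt q ≤ ‖(vv θ : ℂ) - Complex.I * ((4 * (d : ℝ) + 1) * (π / 2) : ℝ)‖ := by
    apply abs_le_of_sq_le_sq' _ (norm_nonneg _) |>.2
    rw [mul_pow, Real.sq_sqrt hq0.le, Complex.sq_norm, Complex.normSq_apply, Complex.sub_re,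
      Complex.sub_im, Complex.ofReal_re, Complex.ofReal_im, Complex.I_mul_re, Complex.I_mul_im,
      Complex.ofReal_re, Complex.ofReal_im, hq]
    have h5 : r ^ 2 * (1 + 2 * π ^ 2 * e ^ 2 / r ^ 2) = r ^ 2 + 2 * π ^ 2 * e ^ 2 := by
      field_simp
    rw [h5]
    have h6 : 2 * π ^ 2 * e ^ 2 ≤ 2 * π ^ 2 * ((d : ℝ) * (2 * d + 1)) :=
      mul_le_mul_of_nonneg_left he (by positivity)
    nlinarith [h6, h2]
  have h7 : (1 / q) ^ (((k : ℝ) + 1) / 2) = 1 / sqrt q ^ (k + 1) := by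
    rw [Real.div_rpow zero_le_one hq0.le, Real.one_rpow, Real.sqrt_eq_rpow, ← Real.rpow_natCast,
      ← Real.rpow_mul hq0.le]
    congr 2
    push_cast
    ring
  rw [h7, norm_div, norm_one, norm_pow, one_div_mul_one_div, ← mul_pow]
  apply one_div_le_one_div_of_le
  · have := Real.sqrt_pos.2 hq0
    positivity
  · exact pow_le_pow_left₀ (by positivity) h4 _

/-- The main term of the Lipschitz formula and the error. Proof: `v = vv θ`, `r = rr θ`:
`v - iπ/2 = r e^{-iθ}` (`r² = v² + π²/4`), so the `d = 0` term has imaginary part `sin((k+1)θ)/r^{k+1}`. For `d ≠ 0`: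
`‖v - iρ_d‖² = r² + (π²/4)((4d+1)² - 1) = r² + 2π² d(2d+1) ≥ r² + 2π² e²` with `e = |d|` (for `d = e`: `d(2d+1) ≥ e²`,
for `d = -e`: `d(2d+1) = e(2e-1) ≥ e²`). Sum over both signs. -/
theorem KK_main {k : ℕ} (hk : 1 ≤ k) {θ : ℝ} (h0 : 0 < θ) (h1 : θ < π / 2) :
    |KK k (vv θ) - (k.factorial : ℝ) * (sin ((k + 1) * θ) / rr θ ^ (k + 1))| ≤
      (k.factorial : ℝ) / rr θ ^ (k + 1) *
        (2 * ∑' e : ℕ, (1 / (1 + 2 * π ^ 2 * ((e : ℝ) + 1) ^ 2 / rr θ ^ 2)) ^ (((k : ℝ) + 1) / 2)) := by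
  have hs : 0 < sin θ := sin_pos_of_pos_of_lt_pi h0 (by linarith [pi_pos])
  have hc : 0 < cos θ := cos_pos_of_mem_Ioo ⟨by linarith [pi_pos], h1⟩
  have hr : 0 < rr θ := by
    unfold rr
    have := pi_pos
    positivity
  have hv : 0 < vv θ := by
    unfold vv
    have := pi_pos
    positivity
  set f : ℤ → ℂ := fun d => 1 / ((vv θ : ℂ) - Complex.I * ((4 * (d : ℝ) + 1) * (π / 2) : ℝ)) ^ (k + 1)
    with hf
  set g : ℕ → ℝ := fun e => (1 / (1 + 2 * π ^ 2 * ((e : ℝ) + 1) ^ 2 / rr θ ^ 2)) ^ (((k : ℝ) + 1) / 2)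
    with hg
  have hfs : Summable f := summable_lip hk hv
  have hgs : Summable g := (lip_tail_crude hk hr).1
  have hgs' : HasSum (fun e => 1 / rr θ ^ (k + 1) * g e) (1 / rr θ ^ (k + 1) * ∑' e, g e) :=
    hgs.hasSum.mul_left _
  have hA : ∀ n : ℕ, ‖f (((n + 1 : ℕ) : ℤ))‖ ≤ 1 / rr θ ^ (k + 1) * g n := by
    intro n
    apply kmain_term k h0 h1
    push_cast
    nlinarith [(Nat.cast_nonneg n : (0 : ℝ) ≤ n)]
  have hB : ∀ n : ℕ, ‖f (-((n : ℤ) + 1))‖ ≤ 1 / rr θ ^ (k + 1) * g n := by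
    intro n
    apply kmain_term k h0 h1
    push_cast
    nlinarith [(Nat.cast_nonneg n : (0 : ℝ) ≤ n)]
  have hfn : Summable (fun n : ℕ => f n) :=
    hfs.comp_injective (i := fun n : ℕ => (n : ℤ)) Nat.cast_injective
  have hfm : Summable (fun n : ℕ => f (-((n : ℤ) + 1))) :=
    hfs.comp_injective (i := fun n : ℕ => (-((n : ℤ) + 1))) (fun a b h => by
      have h' : -((a : ℤ) + 1) = -((b : ℤ) + 1) := h
      omega)
  have hsplit : ∑' d : ℤ, f d = f 0 + ∑' n : ℕ, f (((n + 1 : ℕ) : ℤ)) +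
      ∑' n : ℕ, f (-((n : ℤ) + 1)) := by
    rw [tsum_of_nat_of_neg_add_one hfn hfm, hfn.tsum_eq_zero_add]
    simp
  have hKK : KK k (vv θ) = (k.factorial : ℝ) * (∑' d : ℤ, f d).im := lipschitz hk hv
  have h00 : (f 0).im = sin ((k + 1) * θ) / rr θ ^ (k + 1) := by
    have := kmain_zero k h0 h1
    exact this
  rw [hKK, hsplit, Complex.add_im, Complex.add_im, h00, ← mul_sub, abs_mul,
    abs_of_nonneg (by positivity : (0 : ℝ) ≤ (k.factorial : ℝ)), div_mul_eq_mul_div, mul_div_assoc]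
  apply mul_le_mul_of_nonneg_left _ (by positivity)
  have h5 : sin ((k + 1) * θ) / rr θ ^ (k + 1) + (∑' n : ℕ, f (((n + 1 : ℕ) : ℤ))).im +
      (∑' n : ℕ, f (-((n : ℤ) + 1))).im - sin ((k + 1) * θ) / rr θ ^ (k + 1) =
      (∑' n : ℕ, f (((n + 1 : ℕ) : ℤ)) + ∑' n : ℕ, f (-((n : ℤ) + 1))).im := by
    rw [Complex.add_im]
    ring
  rw [h5]
  refine (Complex.abs_im_le_norm _).trans ((norm_add_le _ _).trans ?_)
  have h6 := tsum_of_norm_bounded hgs' hA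
  have h7 := tsum_of_norm_bounded hgs' hB
  calc _ ≤ 1 / rr θ ^ (k + 1) * ∑' e, g e + 1 / rr θ ^ (k + 1) * ∑' e, g e := add_le_add h6 h7
    _ = _ := by ring

end Pool.Agent.Lib.Zigzag
end

section

set_option autoImplicit false

namespace Pool.Agent.Lib.Zigzag

/-- Total error. `GG n j` is the factor. Proof: `j = 1,2,3` exactly, `4 ≤ j ≤ n/4` by
`TT_le_UU` (prefactor at most `(n+1)/(n/2+1) ≤ 2`) and `UU_geom` (geometric series
`2 * 0.0422/(1-0.4) ≤ 0.141`), the rest by `UU_tail` (prefactor at most `n+1`, at most `n/4+1` terms, factor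
`1.3 (1+0.13 n)`, total `≤ 0.001` since `n³ 0.4^{n/4}` decreases). Sum:
`1.063*(0.328+0.057+0.0071+0.141)+0.001 < 0.6`. -/
noncomputable def GG (n j : ℕ) : ℝ := if 4 * j ≤ n then 1.063 else 1.3 * (1 + 0.13 * n)

private theorem ztc_pow (m : ℕ) (hm : 25 ≤ m) :
    ((m : ℝ) + 1) ^ 3 * (0.4 : ℝ) ^ (m - 3) ≤ 0.0001 := by
  induction m, hm using Nat.le_induction with
  | base => norm_num
  | succ m hm ih =>
    have h1 : m + 1 - 3 = (m - 3) + 1 := by omega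
    have hm' : (25 : ℝ) ≤ m := by exact_mod_cast hm
    rw [h1, pow_succ]
    push_cast
    have h2 : ((m : ℝ) + 1 + 1) ^ 3 * 0.4 ≤ ((m : ℝ) + 1) ^ 3 := by
      nlinarith [sq_nonneg ((m : ℝ) - 25), mul_nonneg (sub_nonneg.2 hm') (sq_nonneg (m : ℝ)),
        mul_nonneg (sub_nonneg.2 hm') (sub_nonneg.2 hm')]
    have h3 : (0 : ℝ) < (0.4 : ℝ) ^ (m - 3) := by positivity
    calc ((m : ℝ) + 1 + 1) ^ 3 * ((0.4 : ℝ) ^ (m - 3) * 0.4)
        = (((m : ℝ) + 1 + 1) ^ 3 * 0.4) * (0.4 : ℝ) ^ (m - 3) := by ring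
      _ ≤ ((m : ℝ) + 1) ^ 3 * (0.4 : ℝ) ^ (m - 3) := mul_le_mul_of_nonneg_right h2 h3.le
      _ ≤ _ := ih

private theorem ztc_pref {n j : ℕ} (hj : 4 * j ≤ n) :
    ((n : ℝ) + 1) / ((n : ℝ) - 2 * j + 1) ≤ 2 := by
  have h : (4 : ℝ) * j ≤ n := by exact_mod_cast hj
  have hn : (0 : ℝ) ≤ n := Nat.cast_nonneg n
  rw [div_le_iff₀ (by linarith)]
  linarith

private theorem ztc_pref' {n j : ℕ} (hj : 2 * j ≤ n) :
    ((n : ℝ) + 1) / ((n : ℝ) - 2 * j + 1) ≤ n + 1 := by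
  have h : (2 : ℝ) * j ≤ n := by exact_mod_cast hj
  have hn : (0 : ℝ) ≤ n := Nat.cast_nonneg n
  apply div_le_self (by linarith)
  linarith

private theorem ztc_UU_nonneg {n j : ℕ} (hj : 2 * j ≤ n) : 0 ≤ UU n j := by
  unfold UU
  apply Finset.prod_nonneg
  intro i hi
  rw [Finset.mem_range] at hi
  have h : (2 : ℝ) * i + 2 ≤ n := by
    have : 2 * i + 2 ≤ n := by omega
    exact_mod_cast this
  apply div_nonneg (by positivity)
  apply mul_nonneg (by positivity)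
  linarith

private theorem ztc_geom (k : ℕ) : ∑ j ∈ Finset.Ico 4 (k + 1), (0.4 : ℝ) ^ (j - 4) ≤ 5 / 3 := by
  rw [Finset.sum_Ico_eq_sum_range]
  have h1 : ∑ i ∈ Finset.range (k + 1 - 4), (0.4 : ℝ) ^ (4 + i - 4) =
      ∑ i ∈ Finset.range (k + 1 - 4), (0.4 : ℝ) ^ i := by
    refine Finset.sum_congr rfl (fun i _ => ?_)
    rw [Nat.add_sub_cancel_left]
  rw [h1]
  have h2 := mul_neg_geom_sum (0.4 : ℝ) (k + 1 - 4)
  have h3 : (0 : ℝ) < (0.4 : ℝ) ^ (k + 1 - 4) := by positivity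
  linarith

theorem sum_TT_le {n : ℕ} (hn : 100 ≤ n) :
    ∑ j ∈ Finset.Icc 1 (n / 2), GG n j * TT n j ≤ 0.6 := by
  obtain ⟨m, hm⟩ : ∃ m, n / 4 = m := ⟨_, rfl⟩
  have hm25 : 25 ≤ m := by omega
  have hm25' : (25 : ℝ) ≤ m := by exact_mod_cast hm25
  have hn4 : n ≤ 4 * m + 3 := by omega
  have hn4' : (n : ℝ) ≤ 4 * m + 3 := by exact_mod_cast hn4
  have hn0 : (0 : ℝ) ≤ n := Nat.cast_nonneg n
  have h1 : Finset.Icc 1 (n / 2) = Finset.Ico 1 (n / 2 + 1) := by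
    ext j
    rw [Finset.mem_Icc, Finset.mem_Ico]
    omega
  rw [h1, ← Finset.sum_Ico_consecutive _ (by omega : 1 ≤ 4) (by omega : 4 ≤ n / 2 + 1),
    ← Finset.sum_Ico_consecutive _ (by omega : 4 ≤ m + 1) (by omega : m + 1 ≤ n / 2 + 1)]
  have hA : ∑ j ∈ Finset.Ico 1 4, GG n j * TT n j ≤ 1.063 * (0.328 + 0.057 + 0.0071) := by
    have h2 : Finset.Ico 1 4 = {1, 2, 3} := by decide
    rw [h2, Finset.sum_insert (by decide), Finset.sum_insert (by decide), Finset.sum_singleton]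
    unfold GG
    rw [if_pos (by omega), if_pos (by omega), if_pos (by omega)]
    have := TT_one hn
    have := TT_two hn
    have := TT_three hn
    linarith
  have hB : ∑ j ∈ Finset.Ico 4 (m + 1), GG n j * TT n j ≤ 1.063 * (2 * 0.0422 * (5 / 3)) := by
    have h3 : ∀ j ∈ Finset.Ico 4 (m + 1), GG n j * TT n j ≤
        1.063 * (2 * 0.0422) * (0.4 : ℝ) ^ (j - 4) := by
      intro j hj
      rw [Finset.mem_Ico] at hj
      unfold GG
      rw [if_pos (by omega)]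
      have h4 := TT_le_UU hn (show 2 * j ≤ n by omega)
      have h5 := UU_geom hn hj.1 (show 4 * j ≤ n + 4 by omega)
      have h6 := ztc_pref (show 4 * j ≤ n by omega)
      have h7 := ztc_UU_nonneg (show 2 * j ≤ n by omega)
      have h8 : ((n : ℝ) + 1) / ((n : ℝ) - 2 * j + 1) * UU n j ≤ 2 * UU n j :=
        mul_le_mul_of_nonneg_right h6 h7
      nlinarith
    refine (Finset.sum_le_sum h3).trans ?_
    rw [← Finset.mul_sum]
    have h9 := ztc_geom m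
    nlinarith
  have hC : ∑ j ∈ Finset.Ico (m + 1) (n / 2 + 1), GG n j * TT n j ≤ 0.001 := by
    have h3 : ∀ j ∈ Finset.Ico (m + 1) (n / 2 + 1), GG n j * TT n j ≤
        1.3 * (1 + 0.13 * n) * (((n : ℝ) + 1) * (15 * 0.0422 * 0.4 ^ (m - 3))) := by
      intro j hj
      rw [Finset.mem_Ico] at hj
      unfold GG
      rw [if_neg (by omega)]
      have h4 := TT_le_UU hn (show 2 * j ≤ n by omega)
      have h5 := UU_tail hn (show n < 4 * j by omega) (show 2 * j ≤ n by omega)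
      rw [hm] at h5
      have h6 := ztc_pref' (show 2 * j ≤ n by omega)
      have h7 := ztc_UU_nonneg (show 2 * j ≤ n by omega)
      have h8 : ((n : ℝ) + 1) / ((n : ℝ) - 2 * j + 1) * UU n j ≤ (n + 1) * UU n j :=
        mul_le_mul_of_nonneg_right h6 h7
      have h9 : ((n : ℝ) + 1) * UU n j ≤ ((n : ℝ) + 1) * (15 * 0.0422 * 0.4 ^ (m - 3)) :=
        mul_le_mul_of_nonneg_left h5 (by linarith)
      apply mul_le_mul_of_nonneg_left (h4.trans (h8.trans h9))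
      positivity
    refine (Finset.sum_le_sum h3).trans ?_
    rw [Finset.sum_const, Nat.card_Ico, nsmul_eq_mul]
    have h4 : ((n / 2 + 1 - (m + 1) : ℕ) : ℝ) ≤ m + 1 := by
      have : n / 2 + 1 - (m + 1) ≤ m + 1 := by omega
      exact_mod_cast this
    have h5 : 1.3 * (1 + 0.13 * (n : ℝ)) ≤ 1.81 * (m + 1) := by nlinarith
    have h6 : (n : ℝ) + 1 ≤ 4 * (m + 1) := by linarith
    have h7 := ztc_pow m hm25
    have h8 : (0 : ℝ) < (0.4 : ℝ) ^ (m - 3) := by positivity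
    have h9 : ((n : ℝ) + 1) * (15 * 0.0422 * 0.4 ^ (m - 3)) ≤
        4 * (m + 1) * (15 * 0.0422 * 0.4 ^ (m - 3)) := mul_le_mul_of_nonneg_right h6 (by positivity)
    calc ((n / 2 + 1 - (m + 1) : ℕ) : ℝ) *
          (1.3 * (1 + 0.13 * n) * (((n : ℝ) + 1) * (15 * 0.0422 * 0.4 ^ (m - 3))))
        ≤ (m + 1) * ((1.81 * (m + 1)) * (4 * (m + 1) * (15 * 0.0422 * 0.4 ^ (m - 3)))) := by
          apply mul_le_mul h4 _ (by positivity) (by positivity)
          exact mul_le_mul h5 h9 (by positivity) (by positivity)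
      _ = (1.81 * 4 * 15 * 0.0422) * (((m : ℝ) + 1) ^ 3 * (0.4 : ℝ) ^ (m - 3)) := by ring
      _ ≤ (1.81 * 4 * 15 * 0.0422) * 0.0001 := mul_le_mul_of_nonneg_left h7 (by norm_num)
      _ ≤ 0.001 := by norm_num
  norm_num at hA hB hC ⊢
  linarith

end Pool.Agent.Lib.Zigzag
end
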